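import Pool.Agent.Lib.MP_3d41d4_an.Defs

open MeasureTheory Set Filter Topology Real
open scoped ENNReal

namespace Pool.Agent.Lib.MP_3d41d4_an

/-- Holomorphic dependence on a parameter of an interval integral. -/
theorem differentiableOn_intervalIntegral {U : Set ℂ} (hU : IsOpen U) {a b : ℝ}
    {F : ℂ → ℝ → ℂ} (hd : ∀ r ∈ uIcc a b, DifferentiableOn ℂ (fun z => F z r) U)
    (hc : ContinuousOn (fun p : ℂ × ℝ => F p.1 p.2) (U ×ˢ uIcc a b)) :
    DifferentiableOn ℂ (fun z => ∫ r in a..b, F z r) U := by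
  intro z₀ hz₀
  obtain ⟨δ, hδ, hδU⟩ := Metric.isOpen_iff.mp hU z₀ hz₀
  set ε := δ / 3 with hε
  have hε0 : 0 < ε := by positivity
  have hsub : Metric.closedBall z₀ (2 * ε) ⊆ U :=
    (Metric.closedBall_subset_ball (by linarith)).trans hδU
  have hsub1 : Metric.ball z₀ ε ⊆ U := (Metric.ball_subset_ball (by linarith)).trans hδU
  obtain ⟨M, hM⟩ := ((isCompact_closedBall z₀ (2 * ε)).prod isCompact_uIcc).exists_bound_of_continuousOn
    (hc.mono (prod_mono hsub le_rfl))
  have hcz : ∀ z ∈ U, ContinuousOn (F z) (uIcc a b) := fun z hz =>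
    hc.comp (f := fun r : ℝ => (z, r)) (by fun_prop) fun r hr => ⟨hz, hr⟩
  have hmz : ∀ z ∈ U, AEStronglyMeasurable (F z) (volume.restrict (uIoc a b)) := fun z hz =>
    ((hcz z hz).mono uIoc_subset_uIcc).aestronglyMeasurable measurableSet_uIoc
  have hder : ∀ r ∈ uIoc a b, ∀ z ∈ U, HasDerivAt (fun z => F z r) (deriv (fun z => F z r) z) z :=
    fun r hr z hz => ((hd r (uIoc_subset_uIcc hr)).differentiableAt (hU.mem_nhds hz)).hasDerivAt
  have hu : Tendsto (fun n : ℕ => ((ε / 2 * (1 / ((n : ℝ) + 1)) : ℝ) : ℂ)) atTop (𝓝[≠] 0) := by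
    refine tendsto_nhdsWithin_iff.mpr ⟨?_, Eventually.of_forall fun n => ?_⟩
    · have h1 := (tendsto_one_div_add_atTop_nhds_zero_nat (𝕜 := ℝ)).const_mul (ε / 2)
      rw [mul_zero] at h1
      exact (Complex.continuous_ofReal.tendsto' 0 0 rfl).comp h1
    · exact Complex.ofReal_ne_zero.mpr (by positivity)
  have hin : ∀ n : ℕ, z₀ + ((ε / 2 * (1 / ((n : ℝ) + 1)) : ℝ) : ℂ) ∈ U := fun n => by
    refine hsub1 ?_
    rw [Metric.mem_ball, dist_self_add_left, Complex.norm_real, Real.norm_of_nonneg (by positivity)]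
    have h1 : 1 / ((n : ℝ) + 1) ≤ 1 := by
      rw [div_le_one (by positivity)]; linarith [Nat.cast_nonneg (α := ℝ) n]
    nlinarith
  have hm' : AEStronglyMeasurable (fun r => deriv (fun z => F z r) z₀)
      (volume.restrict (uIoc a b)) := by
    refine aestronglyMeasurable_of_tendsto_ae atTop
      (f := fun (n : ℕ) r => ((ε / 2 * (1 / ((n : ℝ) + 1)) : ℝ) : ℂ)⁻¹ •
        (F (z₀ + ((ε / 2 * (1 / ((n : ℝ) + 1)) : ℝ) : ℂ)) r - F z₀ r))
      (fun n => ((hmz _ (hin n)).sub (hmz _ hz₀)).const_smul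
        ((ε / 2 * (1 / ((n : ℝ) + 1)) : ℝ) : ℂ)⁻¹) ?_
    filter_upwards [ae_restrict_mem measurableSet_uIoc] with r hr
    exact (hder r hr z₀ hz₀).tendsto_slope_zero.comp hu
  refine (intervalIntegral.hasDerivAt_integral_of_dominated_loc_of_deriv_le
    (F' := fun z r => deriv (fun z => F z r) z) (bound := fun _ => M / ε)
    (Metric.ball_mem_nhds z₀ hε0) ?_ (hcz z₀ hz₀).intervalIntegrable hm' ?_
    intervalIntegrable_const ?_).2.differentiableAt.differentiableWithinAt
  · filter_upwards [hU.mem_nhds hz₀] with z hz using hmz z hz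
  · refine Eventually.of_forall fun r hr z hz => ?_
    have hball : Metric.closedBall z ε ⊆ Metric.closedBall z₀ (2 * ε) :=
      Metric.closedBall_subset_closedBall' (by have := Metric.mem_ball.mp hz; linarith)
    refine Complex.norm_deriv_le_of_forall_mem_sphere_norm_le hε0 ?_ fun w hw =>
      hM (w, r) ⟨hball (Metric.sphere_subset_closedBall hw), uIoc_subset_uIcc hr⟩
    exact (hd r (uIoc_subset_uIcc hr)).diffContOnCl_ball (hball.trans hsub)
  · exact Eventually.of_forall fun r hr z hz => hder r hr z (hsub1 hz)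

end Pool.Agent.Lib.MP_3d41d4_an
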