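import Pool.Agent.Lib.MP_3d41d4_an.Symb
import Pool.Agent.Lib.MP_3d41d4_an.HolInt

open MeasureTheory Set Filter Topology Real
open scoped ENNReal

namespace Pool.Agent.Lib.MP_3d41d4_an

/-- The symbol of the Biot-Savart operator at a complex point. -/
noncomputable def BSa_sym (Φ : ℂ → ℂ) (σ : ℝ) (j : ℤ) (z : ℂ) : ℂ :=
  ∫ r in (-π)..π, kc (sarg r σ (Φ (z + (r : ℂ)) - Φ z)) *
    Complex.exp ((j : ℂ) * (r : ℂ) * Complex.I)

theorem BSa_abs {r : ℝ} (hr : r ∈ uIcc (-π) π) : |r| ≤ π := by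
  rw [uIcc_of_le (by linarith [pi_pos])] at hr
  exact abs_le.2 hr

theorem BSa_contAt {ρ L : ℝ} {φ : ℝ → ℝ} {Φ : ℂ → ℂ} (hρ : 0 < ρ) (hL : 1 ≤ L)
    (hs : 4 * ρ * L ≤ 1) (h : CurveExt ρ L φ Φ) {σ : ℝ} (hσ : σ ≠ 0) {p : ℂ × ℝ}
    (hz : p.1 ∈ strip (2 * ρ)) (hr : |p.2| ≤ π) :
    ContinuousAt (fun p : ℂ × ℝ => kc (sarg p.2 σ (Φ (p.1 + (p.2 : ℂ)) - Φ p.1))) p := by
  have h1 : ContinuousAt Φ p.1 :=
    (h.diff.differentiableAt ((isOpen_strip _).mem_nhds hz)).continuousAt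
  have h2 : ContinuousAt Φ (p.1 + (p.2 : ℂ)) :=
    (h.diff.differentiableAt ((isOpen_strip _).mem_nhds (add_real_mem_strip hz p.2))).continuousAt
  have h3 : ContinuousAt (fun p : ℂ × ℝ => Φ p.1) p := h1.comp continuousAt_fst
  have h4 : ContinuousAt (fun p : ℂ × ℝ => Φ (p.1 + (p.2 : ℂ))) p :=
    ContinuousAt.comp (f := fun p : ℂ × ℝ => p.1 + (p.2 : ℂ)) h2 (by fun_prop)
  have h5 : ContinuousAt (fun p : ℂ × ℝ => sarg p.2 σ (Φ (p.1 + (p.2 : ℂ)) - Φ p.1)) p := by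
    unfold sarg
    have h6 : ContinuousAt (fun p : ℂ × ℝ => -(p.2 : ℂ)) p := by fun_prop
    exact h6.add (continuousAt_const.mul (continuousAt_const.sub (h4.sub h3)))
  have h7 := (differentiableAt_kc
    ((h.chord hρ hL hs hz).sin_ne_zero hr (Or.inr hσ))).continuousAt
  exact ContinuousAt.comp
    (f := fun p : ℂ × ℝ => sarg p.2 σ (Φ (p.1 + (p.2 : ℂ)) - Φ p.1)) h7 h5

theorem BSa_diff {ρ L : ℝ} {φ : ℝ → ℝ} {Φ : ℂ → ℂ} (hρ : 0 < ρ) (hL : 1 ≤ L)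
    (hs : 4 * ρ * L ≤ 1) (h : CurveExt ρ L φ Φ) {σ : ℝ} (hσ : σ ≠ 0) (j : ℤ) :
    DifferentiableOn ℂ (BSa_sym Φ σ j) (strip (2 * ρ)) := by
  refine differentiableOn_intervalIntegral (isOpen_strip _)
    (F := fun z r => kc (sarg r σ (Φ (z + (r : ℂ)) - Φ z)) *
      Complex.exp ((j : ℂ) * (r : ℂ) * Complex.I)) (fun r hr z hz => ?_) (fun p hp => ?_)
  · have h1 : DifferentiableAt ℂ Φ z := h.diff.differentiableAt ((isOpen_strip _).mem_nhds hz)
    have h2 : DifferentiableAt ℂ Φ (z + (r : ℂ)) :=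
      h.diff.differentiableAt ((isOpen_strip _).mem_nhds (add_real_mem_strip hz r))
    have h4 : DifferentiableAt ℂ (fun z : ℂ => Φ (z + (r : ℂ))) z :=
      DifferentiableAt.comp (f := fun z : ℂ => z + (r : ℂ)) z h2 (by fun_prop)
    have h5 : DifferentiableAt ℂ (fun z : ℂ => sarg r σ (Φ (z + (r : ℂ)) - Φ z)) z := by
      unfold sarg
      exact (differentiableAt_const _).add
        ((differentiableAt_const _).mul ((differentiableAt_const _).sub (h4.sub h1)))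
    have h7 := differentiableAt_kc
      ((h.chord hρ hL hs hz).sin_ne_zero (BSa_abs hr) (Or.inr hσ))
    have h8 : DifferentiableAt ℂ (fun z : ℂ => kc (sarg r σ (Φ (z + (r : ℂ)) - Φ z))) z :=
      DifferentiableAt.comp (f := fun z : ℂ => sarg r σ (Φ (z + (r : ℂ)) - Φ z)) z h7 h5
    exact (h8.mul (differentiableAt_const _)).differentiableWithinAt
  · have h1 := BSa_contAt hρ hL hs h hσ hp.1 (BSa_abs hp.2)
    have h2 : ContinuousAt
        (fun p : ℂ × ℝ => Complex.exp ((j : ℂ) * (p.2 : ℂ) * Complex.I)) p := by fun_prop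
    exact (h1.mul h2).continuousWithinAt

theorem BSa_per {ρ L : ℝ} {φ : ℝ → ℝ} {Φ : ℂ → ℂ} (h : CurveExt ρ L φ Φ) (σ : ℝ) (j : ℤ)
    (z : ℂ) : BSa_sym Φ σ j (z + 2 * (π : ℂ)) = BSa_sym Φ σ j z := by
  unfold BSa_sym
  refine intervalIntegral.integral_congr fun r _ => ?_
  have e : z + 2 * (π : ℂ) + (r : ℂ) = z + (r : ℂ) + 2 * (π : ℂ) := by ring
  simp only [e, h.per]

theorem BSa_hasSum {ρ L : ℝ} {φ : ℝ → ℝ} {Φ : ℂ → ℂ} (hρ : 0 < ρ) (hL : 1 ≤ L)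
    (hs : 4 * ρ * L ≤ 1) (h : CurveExt ρ L φ Φ) {σ : ℝ} (hσ : σ ≠ 0) {f : ℝ → ℝ}
    (hsum : Summable fun k => ‖fc (fun x => (f x : ℂ)) k‖)
    (hf : ∀ x : ℝ, HasSum (fun k : ℤ => fc (fun x => (f x : ℂ)) k *
      Complex.exp ((k : ℂ) * (x : ℂ) * Complex.I)) (f x : ℂ)) (x : ℝ) :
    HasSum (fun j : ℤ => fc (fun x => (f x : ℂ)) j * BSa_sym Φ σ j x *
      Complex.exp ((j : ℂ) * (x : ℂ) * Complex.I)) (bs φ σ f x) := by
  set K : ℝ → ℂ := fun r => kc (sarg r σ (Φ ((x : ℂ) + (r : ℂ)) - Φ x)) with hK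
  have hKc : ContinuousOn K (uIcc (-π) π) := by
    intro r hr
    have h1 := BSa_contAt (p := ((x : ℂ), r)) hρ hL hs h hσ
      (real_mem_strip (by linarith) x) (BSa_abs hr)
    have h2 : ContinuousAt (fun r : ℝ => ((x : ℂ), r)) r := by fun_prop
    exact (ContinuousAt.comp (f := fun r : ℝ => ((x : ℂ), r)) h1 h2).continuousWithinAt
  have hbs : bs φ σ f x = ∫ r in (-π)..π, K r * (f (x + r) : ℂ) := by
    unfold bs
    refine intervalIntegral.integral_congr fun r _ => ?_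
    have e : ((ch φ x r : ℝ) : ℂ) = Φ ((x : ℂ) + (r : ℂ)) - Φ x := by
      rw [← Complex.ofReal_add, h.real, h.real, ch, Complex.ofReal_sub]
    simp only [hK, e]
  have hterm : ∀ j : ℤ, fc (fun x => (f x : ℂ)) j * BSa_sym Φ σ j x *
      Complex.exp ((j : ℂ) * (x : ℂ) * Complex.I) = ∫ r in (-π)..π,
        K r * (fc (fun x => (f x : ℂ)) j *
          Complex.exp ((j : ℂ) * ((x + r : ℝ) : ℂ) * Complex.I)) := by
    intro j
    unfold BSa_sym
    rw [← intervalIntegral.integral_const_mul, ← intervalIntegral.integral_mul_const]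
    refine intervalIntegral.integral_congr fun r _ => ?_
    have e : (j : ℂ) * ((x + r : ℝ) : ℂ) * Complex.I =
        (j : ℂ) * (r : ℂ) * Complex.I + (j : ℂ) * (x : ℂ) * Complex.I := by
      push_cast
      ring
    simp only [hK, e, Complex.exp_add]
    ring
  rw [hbs]
  simp only [hterm]
  refine intervalIntegral.hasSum_integral_of_dominated_convergence
    (fun j r => ‖K r‖ * ‖fc (fun x => (f x : ℂ)) j‖) (fun j => ?_) (fun j => ?_) ?_ ?_ ?_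
  · have h1 : ContinuousOn (fun r : ℝ => K r * (fc (fun x => (f x : ℂ)) j *
        Complex.exp ((j : ℂ) * ((x + r : ℝ) : ℂ) * Complex.I))) (uIcc (-π) π) :=
      hKc.mul (Continuous.continuousOn (by fun_prop))
    exact (h1.mono uIoc_subset_uIcc).aestronglyMeasurable measurableSet_uIoc
  · refine Eventually.of_forall fun r _ => ?_
    have e : (j : ℂ) * ((x + r : ℝ) : ℂ) * Complex.I = (((j : ℝ) * (x + r) : ℝ) : ℂ) * Complex.I := by
      push_cast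
      ring
    rw [norm_mul, norm_mul, e, Complex.norm_exp_ofReal_mul_I, mul_one]
  · exact Eventually.of_forall fun r _ => hsum.mul_left _
  · simp only [tsum_mul_left]
    exact (hKc.norm.mul continuousOn_const).intervalIntegrable
  · exact Eventually.of_forall fun r _ => (hf (x + r)).mul_left _

/-- The Biot-Savart operator at height `σ ≠ 0` preserves the class, uniformly in `σ`. -/
theorem bs_W (ρ₀ L : ℝ) : ∃ C : ℝ, 0 < C ∧ ∀ φ, Curve ρ₀ L φ → ∀ ρ, 0 < ρ → ρ ≤ ρ₀ →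
    ∀ n : ℕ, 2 ≤ n → n ≤ 4 → ∀ (M : ℝ) (f : ℝ → ℝ), WR ρ n M f → ∀ σ : ℝ, σ ≠ 0 →
      W ρ n (C * M) (bs φ σ f) := by
  rcases le_or_gt ρ₀ 0 with h0 | h0
  · exact ⟨1, one_pos, fun φ hφ => absurd hφ.1 (not_lt.2 h0)⟩
  obtain ⟨C1, hC1, hsym⟩ := symbol_bound L
  obtain ⟨C2, hC2, hnice⟩ := W.nice h0
  refine ⟨64 * (C2 * C1), by positivity, ?_⟩
  rintro φ ⟨-, hL, hs, Φ, h⟩ ρ hρ hle n hn2 hn4 M f hf σ hσ
  have hb : ∀ j : ℤ, W ρ n (C2 * C1) fun x : ℝ => BSa_sym Φ σ j x := by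
    intro j
    refine (hnice (BSa_sym Φ σ j) C1 (BSa_diff h0 hL hs h hσ j)
      (fun z _ => BSa_per h σ j z) fun z hz => ?_).mono hle hn4 le_rfl
    have h1 := hsym _ _ (h.chord h0 hL hs hz) σ hσ (j : ℝ)
    rw [Complex.ofReal_intCast] at h1
    exact h1
  have h1 := W.pdo hρ.le hn2 hn4 (f := fun x => (f x : ℂ)) hf hb
  have hsw := summable_wgt_of_pos hρ n
  have h2 : bs φ σ f = fun x : ℝ => ∑' j : ℤ, fc (fun x => (f x : ℂ)) j * BSa_sym Φ σ j x *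
      Complex.exp ((j : ℂ) * (x : ℂ) * Complex.I) := by
    funext x
    exact (BSa_hasSum h0 hL hs h hσ (Wg.summable hf hsw) (Wg.hasSum hf hsw) x).tsum_eq.symm
  rw [h2]
  exact h1.mono le_rfl le_rfl (le_of_eq (by ring))

end Pool.Agent.Lib.MP_3d41d4_an
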