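import Pool.Agent.Lib.MP_3d41d4_an.Geo
import Pool.Agent.Lib.MP_3d41d4_an.HolInt

open MeasureTheory Set Filter Topology Real
open scoped ENNReal

namespace Pool.Agent.Lib.MP_3d41d4_an

/-- The conjugate velocity as a function of the complex position. -/
noncomputable def BSd_w (φ f : ℝ → ℝ) (ζ : ℂ) : ℂ :=
  ∫ y in (0 : ℝ)..(0 + 2 * π), kc (ζ - y - Complex.I * (φ y : ℂ)) * (f y : ℂ)

theorem BSd_eq {φ f : ℝ → ℝ} (hφ : Function.Periodic φ (2 * π))
    (hp : Function.Periodic f (2 * π)) (σ x : ℝ) :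
    bs φ σ f x = BSd_w φ f ((x : ℂ) + Complex.I * ((φ x : ℂ) + σ)) := by
  set ζ : ℂ := (x : ℂ) + Complex.I * ((φ x : ℂ) + σ) with hζ
  have hper : Function.Periodic (fun y : ℝ => kc (ζ - y - Complex.I * (φ y : ℂ)) * (f y : ℂ))
      (2 * π) := fun y => by
    have e : ζ - y - Complex.I * (φ y : ℂ) =
        (ζ - ((y + 2 * π : ℝ) : ℂ) - Complex.I * (φ y : ℂ)) + 2 * (π : ℂ) := by
      push_cast
      ring
    simp only
    rw [hφ y, hp y, e, kc_add_two_pi]
  have h1 : bs φ σ f x = ∫ r in (-π)..π,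
      (fun y : ℝ => kc (ζ - y - Complex.I * (φ y : ℂ)) * (f y : ℂ)) (x + r) := by
    unfold bs
    refine intervalIntegral.integral_congr fun r _ => ?_
    simp only [sarg, ch, hζ]
    congr 2
    push_cast
    ring
  rw [h1, intervalIntegral.integral_comp_add_left
    (fun y : ℝ => kc (ζ - y - Complex.I * (φ y : ℂ)) * (f y : ℂ)) x, BSd_w,
    ← hper.intervalIntegral_add_eq (x + -π) 0]
  congr 1
  ring

theorem BSd_sin {φ : ℝ → ℝ} (hφ : Function.Periodic φ (2 * π)) {ζ : ℂ} (hζ : ζ.im ≠ φ ζ.re)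
    (y : ℝ) : Complex.sin ((ζ - y - Complex.I * (φ y : ℂ)) / 2) ≠ 0 := by
  intro h
  obtain ⟨k, hk⟩ := (sin_half_eq_zero_iff _).1 h
  have h1 := congrArg Complex.re hk
  have h2 := congrArg Complex.im hk
  simp at h1 h2
  apply hζ
  have h3 : ζ.re = y + k * (2 * π) := by linarith
  rw [h3, hφ.int_mul k y]
  linarith

theorem BSd_diff {φ f : ℝ → ℝ} (hφ : Function.Periodic φ (2 * π)) (hφc : Continuous φ)
    (hc : Continuous f) {ζ : ℂ} (hζ : ζ.im ≠ φ ζ.re) : DifferentiableAt ℂ (BSd_w φ f) ζ := by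
  have hU : IsOpen {z : ℂ | z.im ≠ φ z.re} :=
    isOpen_ne_fun Complex.continuous_im (hφc.comp Complex.continuous_re)
  have h := differentiableOn_intervalIntegral hU (a := 0) (b := 0 + 2 * π)
    (F := fun z y => kc (z - y - Complex.I * (φ y : ℂ)) * (f y : ℂ))
    (fun y _ z hz => by
      refine DifferentiableAt.differentiableWithinAt (DifferentiableAt.mul_const ?_ _)
      exact (differentiableAt_kc (BSd_sin hφ hz y)).comp z
        (f := fun z : ℂ => z - y - Complex.I * (φ y : ℂ)) (by fun_prop))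
    (fun p hp => by
      refine ContinuousAt.continuousWithinAt (ContinuousAt.mul ?_ (by fun_prop))
      exact (differentiableAt_kc (BSd_sin hφ hp.1 p.2)).continuousAt.comp
        (f := fun p : ℂ × ℝ => p.1 - p.2 - Complex.I * (φ p.2 : ℂ)) (by fun_prop))
  exact h.differentiableAt (hU.mem_nhds hζ)

/-- Off the curve the induced conjugate velocity is a holomorphic function of the position. -/
theorem bs_deriv {ρ L : ℝ} {φ : ℝ → ℝ} (hφ : Curve ρ L φ) {f : ℝ → ℝ} (hc : Continuous f)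
    (hp : Function.Periodic f (2 * π)) {σ : ℝ} (hσ : σ ≠ 0) (x : ℝ) :
    ∃ d : ℂ, HasDerivAt (fun σ' => bs φ σ' f x) (Complex.I * d) σ ∧
      HasDerivAt (fun x' => bs φ σ f x') (zp φ x * d) x := by
  have hζ : ((x : ℂ) + Complex.I * ((φ x : ℂ) + σ)).im ≠
      φ ((x : ℂ) + Complex.I * ((φ x : ℂ) + σ)).re := by
    simpa using hσ
  have hd := (BSd_diff hφ.per hφ.continuous hc hζ).hasDerivAt
  refine ⟨deriv (BSd_w φ f) ((x : ℂ) + Complex.I * ((φ x : ℂ) + σ)), ?_, ?_⟩
  · have h1 : HasDerivAt (fun σ' : ℝ => (x : ℂ) + Complex.I * ((φ x : ℂ) + σ')) Complex.I σ := by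
      have h2 := (((hasDerivAt_id σ).ofReal_comp.const_add (φ x : ℂ)).const_mul
        Complex.I).const_add (x : ℂ)
      simpa using h2
    have h3 := hd.scomp σ h1
    simp only [smul_eq_mul] at h3
    have e : (fun σ' => bs φ σ' f x) =
        BSd_w φ f ∘ fun σ' : ℝ => (x : ℂ) + Complex.I * ((φ x : ℂ) + σ') :=
      funext fun σ' => BSd_eq hφ.per hp σ' x
    rw [e]
    exact h3
  · have h1 : HasDerivAt (fun x' : ℝ => (x' : ℂ) + Complex.I * ((φ x' : ℂ) + σ)) (zp φ x) x := by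
      have h2 := (hasDerivAt_id x).ofReal_comp.fun_add
        (((hφ.differentiable x).hasDerivAt.ofReal_comp.add_const (σ : ℂ)).const_mul Complex.I)
      simpa [zp] using h2
    have h3 := hd.scomp x h1
    simp only [smul_eq_mul] at h3
    have e : (fun x' => bs φ σ f x') =
        BSd_w φ f ∘ fun x' : ℝ => (x' : ℂ) + Complex.I * ((φ x' : ℂ) + σ) :=
      funext fun x' => BSd_eq hφ.per hp σ x'
    rw [e]
    exact h3

end Pool.Agent.Lib.MP_3d41d4_an
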