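import Pool.Agent.Lib.MP_3d41d4_an.PV0

open MeasureTheory Set Filter Topology Real
open scoped ENNReal

namespace Pool.Agent.Lib.MP_3d41d4_an

variable {ρ₀ ρ L M N : ℝ} {n n' : ℕ} {φ f g : ℝ → ℝ}

theorem PV_bound (hφ : Curve ρ₀ L φ) (hρ : 0 < ρ) : ∃ C : ℝ, 0 < C ∧
    ∀ (n : ℕ) (M : ℝ) (f : ℝ → ℝ), WR ρ n M f → ∀ x : ℝ, ∀ r ∈ Ioc 0 π,
      ‖pvI φ f x r‖ ≤ C * M := by
  obtain ⟨C1, hC1, h1⟩ := sym_bound L
  obtain ⟨C2, hC2, h2⟩ := W.lipschitz hρ
  refine ⟨C1 * C2, mul_pos hC1 hC2, fun n M f hf x r hr => ?_⟩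
  have := h1 _ _ (hφ.chord x) (fun r => (f (x + r) : ℂ)) (C2 * M)
    (fun r => (h2 n M _ hf (x + r) x).1)
    (fun r => by
      have := (h2 n M _ hf (x + r) (x + 0)).2
      simpa using this) r hr
  rw [mul_assoc]
  exact this

theorem PV_meas {Λ : Type} [MeasurableSpace Λ] (hφ : Curve ρ₀ L φ) {F : Λ → ℝ → ℝ}
    (hF : Measurable fun p : Λ × ℝ => F p.1 p.2) (x : ℝ) :
    Measurable fun p : Λ × ℝ => pvI φ (F p.1) x p.2 := by
  have hm : Measurable φ := hφ.continuous.measurable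
  have h1 : Measurable fun p : Λ × ℝ => F p.1 (x + p.2) :=
    hF.comp (measurable_fst.prodMk (measurable_const.add measurable_snd))
  have h2 : Measurable fun p : Λ × ℝ => F p.1 (x + -p.2) :=
    hF.comp (measurable_fst.prodMk (measurable_const.add measurable_snd.neg))
  have h3 : Measurable fun p : Λ × ℝ => sarg p.2 0 (ch φ x p.2) := by
    unfold sarg ch
    fun_prop
  have h4 : Measurable fun p : Λ × ℝ => sarg (-p.2) 0 (ch φ x (-p.2)) := by
    unfold sarg ch
    fun_prop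
  unfold pvI
  exact ((measurable_kc.comp h3).mul (Complex.measurable_ofReal.comp h1)).add
    ((measurable_kc.comp h4).mul (Complex.measurable_ofReal.comp h2))

/-- The principal value commutes with parameter integrals. -/
theorem pv_integral {Λ : Type} [MeasurableSpace Λ] {μ : Measure Λ} [SFinite μ]
    (hφ : Curve ρ₀ L φ) (hρ : 0 < ρ) {F : Λ → ℝ → ℝ}
    (hF : Measurable fun p : Λ × ℝ => F p.1 p.2) {m : Λ → ℝ} (hm : Integrable m μ)
    (h : ∀ᵐ a ∂μ, WR ρ n (m a) (F a)) (x : ℝ) :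
    Integrable (fun a => pv φ (F a) x) μ ∧
      pv φ (fun y => ∫ a, F a y ∂μ) x = ∫ a, pv φ (F a) x ∂μ := by
  obtain ⟨C, hC, hb⟩ := PV_bound hφ hρ
  have hmeas := PV_meas hφ hF x
  have hint : Integrable (fun p : Λ × ℝ => pvI φ (F p.1) x p.2)
      (μ.prod (volume.restrict (Ioc 0 π))) := by
    have hg : Integrable (fun p : Λ × ℝ => C * m p.1 * (1 : ℝ))
        (μ.prod (volume.restrict (Ioc 0 π))) :=
      Integrable.mul_prod (hm.const_mul C) (integrable_const (1 : ℝ))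
    refine hg.mono' hmeas.aestronglyMeasurable ?_
    have e1 : ∀ᵐ p ∂(μ.prod (volume.restrict (Ioc 0 π))), WR ρ n (m p.1) (F p.1) :=
      Measure.quasiMeasurePreserving_fst.ae h
    have e2 : ∀ᵐ p ∂(μ.prod (volume.restrict (Ioc 0 π))), p.2 ∈ Ioc 0 π :=
      Measure.quasiMeasurePreserving_snd.ae (ae_restrict_mem measurableSet_Ioc)
    filter_upwards [e1, e2] with p h1 h2
    rw [mul_one]
    exact hb n _ _ h1 x _ h2
  have hpv : ∀ f : ℝ → ℝ, pv φ f x = ∫ r in Ioc 0 π, pvI φ f x r := fun f => by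
    unfold pv
    rw [intervalIntegral.integral_of_le pi_pos.le]
  refine ⟨?_, ?_⟩
  · simp only [hpv]
    exact hint.integral_prod_left
  · simp only [hpv]
    rw [integral_integral_swap hint]
    refine integral_congr_ae (Eventually.of_forall fun r => ?_)
    have i1 : Integrable (fun a => (F a (x + r) : ℂ)) μ := (WR.integrable hρ hF hm h (x + r)).ofReal
    have i2 : Integrable (fun a => (F a (x + -r) : ℂ)) μ :=
      (WR.integrable hρ hF hm h (x + -r)).ofReal
    simp only [pvI]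
    rw [integral_add (i1.const_mul _) (i2.const_mul _), integral_const_mul, integral_const_mul,
      integral_complex_ofReal, integral_complex_ofReal]

theorem PV_contOn (hφ : Curve ρ₀ L φ) (hf : Continuous f) (x : ℝ) {r : ℝ} (h0 : r ≠ 0)
    (hr : |r| ≤ π) :
    ContinuousAt (fun r : ℝ => kc (sarg r 0 (ch φ x r)) * (f (x + r) : ℂ)) r := by
  have hc : Continuous φ := hφ.continuous
  have h3 : Continuous fun r : ℝ => sarg r 0 (ch φ x r) := by
    unfold sarg ch
    fun_prop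
  have h4 : ContinuousAt kc (sarg r 0 (ch φ x r)) :=
    (differentiableAt_kc ((hφ.chord x).sin_ne_zero hr (Or.inl h0))).continuousAt
  have h5 : ContinuousAt (fun r : ℝ => kc (sarg r 0 (ch φ x r))) r :=
    ContinuousAt.comp (f := fun r : ℝ => sarg r 0 (ch φ x r)) h4 h3.continuousAt
  exact h5.mul (by fun_prop)

theorem PV_kc (φ : ℝ → ℝ) (x r : ℝ) :
    kc (sarg r 0 (ch φ x r)) = (K1 (x - (x + r)) (φ x - φ (x + r)) : ℂ)
      - Complex.I * (K2 (x - (x + r)) (φ x - φ (x + r)) : ℂ) := by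
  rw [← kc_eq]
  congr 1
  unfold sarg ch
  push_cast
  ring

theorem PV_general (hφ : Curve ρ₀ L φ) (hρ : 0 < ρ) (hf : WR ρ n M f) (x : ℝ)
    (T : ℂ →L[ℝ] ℝ) (F : ℝ → ℝ)
    (hF : ∀ r, F (x + r) = T (kc (sarg r 0 (ch φ x r)) * (f (x + r) : ℂ))) :
    IsPV F x (T (pv φ f x)) := by
  have hI := pvI_intervalIntegrable hφ hρ hf x
  set A : ℝ → ℂ := fun r => kc (sarg r 0 (ch φ x r)) * (f (x + r) : ℂ) with hA
  have hprim : ContinuousOn (fun b => ∫ r in (0 : ℝ)..b, pvI φ f x r) (uIcc 0 π) :=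
    intervalIntegral.continuousOn_primitive_interval' hI left_mem_uIcc
  have h0 : Tendsto (fun b => ∫ r in (0 : ℝ)..b, pvI φ f x r) (𝓝[>] 0) (𝓝 0) := by
    have h1 := hprim 0 left_mem_uIcc
    rw [uIcc_of_le pi_pos.le] at h1
    have h2 : Tendsto (fun b => ∫ r in (0 : ℝ)..b, pvI φ f x r) (𝓝[Icc 0 π] 0) (𝓝 0) := by
      simpa [ContinuousWithinAt] using h1
    refine h2.mono_left ?_
    exact nhdsWithin_le_iff.2 (mem_of_superset (Ioo_mem_nhdsGT pi_pos) Ioo_subset_Icc_self)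
  have h1 : Tendsto (fun b => T (pv φ f x - ∫ r in (0 : ℝ)..b, pvI φ f x r)) (𝓝[>] 0)
      (𝓝 (T (pv φ f x))) := by
    have := (T.continuous.tendsto _).comp ((tendsto_const_nhds (x := pv φ f x)).sub h0)
    simpa [Function.comp_def] using this
  unfold IsPV
  refine h1.congr' ?_
  filter_upwards [Ioo_mem_nhdsGT pi_pos] with ε hε
  have hsub : uIcc ε π ⊆ uIcc 0 π := by
    rw [uIcc_of_le hε.2.le, uIcc_of_le pi_pos.le]
    exact Icc_subset_Icc hε.1.le le_rfl
  have hsub0 : uIcc 0 ε ⊆ uIcc 0 π := by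
    rw [uIcc_of_le hε.1.le, uIcc_of_le pi_pos.le]
    exact Icc_subset_Icc le_rfl hε.2.le
  have e1 : pv φ f x - ∫ r in (0 : ℝ)..ε, pvI φ f x r = ∫ r in ε..π, pvI φ f x r := by
    unfold pv
    rw [← intervalIntegral.integral_add_adjacent_intervals (hI.mono_set hsub0) (hI.mono_set hsub)]
    ring
  have c1 : ContinuousOn A (uIcc ε π) := fun r hr => by
    rw [uIcc_of_le hε.2.le] at hr
    have hr0 : 0 < r := hε.1.trans_le hr.1
    exact (PV_contOn hφ hf.cont x hr0.ne' (by rw [abs_of_pos hr0]; exact hr.2)).continuousWithinAt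
  have c2 : ContinuousOn (fun r => A (-r)) (uIcc ε π) := fun r hr => by
    rw [uIcc_of_le hε.2.le] at hr
    have hr0 : 0 < r := hε.1.trans_le hr.1
    have := PV_contOn hφ hf.cont x (neg_ne_zero.2 hr0.ne')
      (by rw [abs_neg, abs_of_pos hr0]; exact hr.2)
    exact (ContinuousAt.comp (f := fun r : ℝ => -r) this continuous_neg.continuousAt).continuousWithinAt
  have i1 : IntervalIntegrable A volume ε π := c1.intervalIntegrable
  have i2 : IntervalIntegrable (fun r => A (-r)) volume ε π := c2.intervalIntegrable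
  have e2 : ∫ r in ε..π, pvI φ f x r = (∫ r in ε..π, A r) + ∫ r in ε..π, A (-r) := by
    rw [← intervalIntegral.integral_add i1 i2]
    rfl
  have e3 : ∫ x' in (x + ε)..(x + π), F x' = T (∫ r in ε..π, A r) := by
    rw [← T.intervalIntegral_comp_comm i1, ← intervalIntegral.integral_comp_add_left]
    simp only [hF, hA]
  have e4 : ∫ x' in (x - π)..(x - ε), F x' = T (∫ r in ε..π, A (-r)) := by
    rw [← T.intervalIntegral_comp_comm i2, ← intervalIntegral.integral_comp_sub_left]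
    simp only [sub_eq_add_neg, hF, hA]
  rw [e1, e2, e3, e4, map_add, add_comm]

/-- `pv` is the principal value of the statement. -/
theorem isPV_pv (hφ : Curve ρ₀ L φ) (hρ : 0 < ρ) (hf : WR ρ n M f) (x : ℝ) :
    IsPV (fun x' => K1 (x - x') (φ x - φ x') * f x') x (pv φ f x).re ∧
      IsPV (fun x' => K2 (x - x') (φ x - φ x') * f x') x (-(pv φ f x).im) := by
  refine ⟨?_, ?_⟩
  · refine PV_general hφ hρ hf x Complex.reCLM _ fun r => ?_
    rw [PV_kc]
    simp
  · refine PV_general hφ hρ hf x (-Complex.imCLM) _ fun r => ?_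
    rw [PV_kc]
    simp

theorem IsPV.unique {F : ℝ → ℝ} {x u u' : ℝ} (h : IsPV F x u) (h' : IsPV F x u') : u = u' :=
  tendsto_nhds_unique h h'

end Pool.Agent.Lib.MP_3d41d4_an
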