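import Pool.Agent.Lib.MP_3d41d4_an.WDeriv0

open MeasureTheory Set Filter Topology Real
open scoped ENNReal

namespace Pool.Agent.Lib.MP_3d41d4_an

variable {n : ℕ} {ρ M : ℝ}

theorem WDeriv_tendsto {E : Type} [NormedAddCommGroup E] [NormedSpace ℝ E] {f : ℝ → E} {x : ℝ}
    (hf : DifferentiableAt ℝ f x) :
    Tendsto (fun n : ℕ => ((n : ℝ) + 1) • (f (x + 1 / ((n : ℝ) + 1)) - f x)) atTop
      (𝓝 (deriv f x)) := by
  have h1 := hasDerivAt_iff_tendsto_slope_zero.1 hf.hasDerivAt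
  have h2 : Tendsto (fun n : ℕ => 1 / ((n : ℝ) + 1)) atTop (𝓝[≠] 0) := by
    refine tendsto_nhdsWithin_iff.2 ⟨tendsto_one_div_add_atTop_nhds_zero_nat, ?_⟩
    refine Eventually.of_forall fun n => ?_
    have : (0 : ℝ) < 1 / ((n : ℝ) + 1) := by positivity
    exact this.ne'
  refine (h1.comp h2).congr fun n => ?_
  simp only [Function.comp, one_div, inv_inv]

theorem dx_eq_deriv {f : ℝ → ℝ} {x : ℝ} (hf : DifferentiableAt ℝ f x) : dx f x = deriv f x := by
  unfold dx
  refine Tendsto.limUnder_eq ((WDeriv_tendsto hf).congr fun n => ?_)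
  rw [smul_eq_mul, mul_comm]

theorem measurable_dx {Λ : Type} [MeasurableSpace Λ] {F : Λ → ℝ → ℝ}
    (hF : Measurable fun p : Λ × ℝ => F p.1 p.2) :
    Measurable fun p : Λ × ℝ => dx (F p.1) p.2 := by
  unfold dx
  refine StronglyMeasurable.measurable (StronglyMeasurable.limUnder fun n => ?_)
  have h1 : Measurable fun p : Λ × ℝ => F p.1 (p.2 + 1 / ((n : ℝ) + 1)) :=
    hF.comp (f := fun p : Λ × ℝ => (p.1, p.2 + 1 / ((n : ℝ) + 1)))
      (measurable_fst.prodMk (measurable_snd.add_const _))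
  exact ((h1.sub hF).mul_const _).stronglyMeasurable

theorem measurable_deriv_of_differentiable {Λ : Type} [MeasurableSpace Λ] {F : Λ → ℝ → ℝ}
    (hF : Measurable fun p : Λ × ℝ => F p.1 p.2) (hd : ∀ a, Differentiable ℝ (F a)) :
    Measurable fun p : Λ × ℝ => deriv (F p.1) p.2 := by
  have e : (fun p : Λ × ℝ => deriv (F p.1) p.2) = fun p : Λ × ℝ => dx (F p.1) p.2 :=
    funext fun p => (dx_eq_deriv (hd p.1 p.2)).symm
  rw [e]
  exact measurable_dx hF

theorem aestronglyMeasurable_deriv_param {Λ : Type} [MeasurableSpace Λ] {μ : Measure Λ}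
    {F : Λ → ℝ → ℂ} (hF : Measurable fun p : Λ × ℝ => F p.1 p.2) (x : ℝ)
    (hd : ∀ᵐ a ∂μ, DifferentiableAt ℝ (F a) x) :
    AEStronglyMeasurable (fun a => deriv (F a) x) μ := by
  have h0 : ∀ y : ℝ, Measurable fun a => F a y := fun y =>
    hF.comp (f := fun a : Λ => (a, y)) (measurable_id.prodMk measurable_const)
  refine aestronglyMeasurable_of_tendsto_ae atTop
    (f := fun (n : ℕ) a => ((n : ℝ) + 1) • (F a (x + 1 / ((n : ℝ) + 1)) - F a x)) (fun n => ?_) ?_
  · exact (((h0 _).sub (h0 _)).const_smul ((n : ℝ) + 1)).aestronglyMeasurable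
  · filter_upwards [hd] with a ha
    exact WDeriv_tendsto ha

end Pool.Agent.Lib.MP_3d41d4_an
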