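import Pool.Agent.Lib.MP_3d41d4_an.WInt
import Pool.Agent.Lib.MP_3d41d4_an.WDeriv

open MeasureTheory Set Filter Topology Real
open scoped ENNReal

namespace Pool.Agent.Lib.MP_3d41d4_an

variable {Λ : Type} [MeasurableSpace Λ] {μ : Measure Λ} [SFinite μ]
variable {n : ℕ} {ρ M : ℝ}

/-- Differentiation in `x` under a parameter integral. -/
theorem W.hasDerivAt_integral (hρ : 0 < ρ) {f : Λ → ℝ → ℂ}
    (hf : Measurable fun p : Λ × ℝ => f p.1 p.2) {m : Λ → ℝ} (hm : Integrable m μ)
    (h : ∀ᵐ a ∂μ, W ρ n (m a) (f a)) (x : ℝ) :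
    Integrable (fun a => deriv (f a) x) μ ∧
      HasDerivAt (fun y => ∫ a, f a y ∂μ) (∫ a, deriv (f a) x ∂μ) x := by
  obtain ⟨C, hC, hL⟩ := W.lipschitz hρ
  have hd : ∀ᵐ a ∂μ, DifferentiableAt ℝ (f a) x := h.mono fun a ha => W.differentiable hρ ha x
  refine hasDerivAt_integral_of_dominated_loc_of_lip (F := fun y a => f a y) (s := univ)
    (bound := fun a => C * m a) univ_mem
    (Eventually.of_forall fun y => (W.integrable hρ hf hm h y).aestronglyMeasurable)
    (W.integrable hρ hf hm h x) (aestronglyMeasurable_deriv_param hf x hd) ?_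
    (hm.const_mul C) (hd.mono fun a ha => ha.hasDerivAt)
  refine h.mono fun a ha => LipschitzOnWith.of_dist_le_mul fun y _ z _ => ?_
  rw [dist_eq_norm, Real.dist_eq, Real.coe_nnabs,
    abs_of_nonneg (mul_nonneg hC.le (W.nonneg ha))]
  exact (hL n (m a) (f a) ha y z).2

theorem WR.hasDerivAt_integral (hρ : 0 < ρ) {f : Λ → ℝ → ℝ}
    (hf : Measurable fun p : Λ × ℝ => f p.1 p.2) {m : Λ → ℝ} (hm : Integrable m μ)
    (h : ∀ᵐ a ∂μ, WR ρ n (m a) (f a)) (x : ℝ) :
    Integrable (fun a => deriv (f a) x) μ ∧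
      HasDerivAt (fun y => ∫ a, f a y ∂μ) (∫ a, deriv (f a) x ∂μ) x := by
  have hf' : Measurable fun p : Λ × ℝ => ((f p.1 p.2 : ℝ) : ℂ) :=
    Complex.measurable_ofReal.comp hf
  obtain ⟨h1, h2⟩ := W.hasDerivAt_integral (f := fun a y => ((f a y : ℝ) : ℂ)) hρ hf' hm h x
  have he : ∀ᵐ a ∂μ, deriv (fun y => ((f a y : ℝ) : ℂ)) x = ((deriv (f a) x : ℝ) : ℂ) :=
    h.mono fun a ha => ((WR.differentiable hρ ha x).hasDerivAt.ofReal_comp).deriv
  have h3 : Integrable (fun a => ((deriv (f a) x : ℝ) : ℂ)) μ := h1.congr he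
  refine ⟨by simpa using h3.re, ?_⟩
  rw [integral_congr_ae he, integral_complex_ofReal] at h2
  have h4 := Complex.reCLM.hasFDerivAt.comp_hasDerivAt x h2
  simp only [Complex.reCLM_apply, Complex.ofReal_re] at h4
  have h5 : (fun y => ∫ a, f a y ∂μ) =
      (⇑Complex.reCLM ∘ fun y => ∫ a, ((f a y : ℝ) : ℂ) ∂μ) := by
    funext y
    simp only [Function.comp_apply, Complex.reCLM_apply]
    rw [integral_complex_ofReal, Complex.ofReal_re]
  rw [h5]
  exact h4

/-- Mean value inequality in the class. -/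
theorem W.lip (hρ : 0 < ρ) {a b : ℝ} (hab : a ≤ b) {F F' : ℝ → ℝ → ℂ}
    (hc : ∀ u ∈ Icc a b, Continuous (F u) ∧ Function.Periodic (F u) (2 * π))
    (hcu : ∀ x, ContinuousOn (fun u => F u x) (Icc a b))
    (hd : ∀ u ∈ Ioo a b, ∀ x, HasDerivAt (fun v => F v x) (F' u x) u)
    (hW : ∀ u ∈ Ioo a b, W ρ n M (F' u)) :
    W ρ n (M * (b - a)) fun x => F b x - F a x := by
  classical
  obtain ⟨G, hG1, hG2⟩ : ∃ G : ℝ → ℝ → ℂ, (∀ u ∈ Ioo a b, G u = F' u) ∧
      ∀ u, u ∉ Ioo a b → G u = fun _ => 0 :=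
    ⟨fun u => if u ∈ Ioo a b then F' u else fun _ => 0, fun u hu => if_pos hu,
      fun u hu => if_neg hu⟩
  have hGm : Measurable fun p : ℝ × ℝ => G p.1 p.2 := by
    have h1 : Measurable (Function.uncurry fun x u => G u x) := by
      refine measurable_uncurry_of_continuous_of_measurable (fun u => ?_) fun x => ?_
      · by_cases hu : u ∈ Ioo a b
        · rw [hG1 u hu]
          exact W.cont (hW u hu)
        · rw [hG2 u hu]
          exact continuous_const
      · have : (fun u => G u x) = (Ioo a b).indicator (deriv fun v => F v x) := by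
          funext u
          by_cases hu : u ∈ Ioo a b
          · rw [hG1 u hu, indicator_of_mem hu, (hd u hu x).deriv]
          · rw [hG2 u hu, indicator_of_notMem hu]
        rw [this]
        exact (measurable_deriv _).indicator measurableSet_Ioo
    exact h1.comp measurable_swap
  have hae : ∀ᵐ u ∂(volume.restrict (Ioo a b)), W ρ n M (G u) := by
    refine (ae_restrict_iff' measurableSet_Ioo).2 (Eventually.of_forall fun u hu => ?_)
    rw [hG1 u hu]
    exact hW u hu
  have hm : Integrable (fun _ : ℝ => M) (volume.restrict (Ioo a b)) := integrable_const M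
  have h1 := W.integral hρ hGm hm hae
  have h2 : ∫ _ in Ioo a b, M = M * (b - a) := by
    rw [setIntegral_const, Real.volume_real_Ioo_of_le hab, smul_eq_mul, mul_comm]
  rw [h2] at h1
  convert h1 using 1
  funext x
  have hi : IntegrableOn (fun u => G u x) (Ioo a b) := W.integrable hρ hGm hm hae x
  have h3 := intervalIntegral.integral_eq_sub_of_hasDerivAt_of_le hab (hcu x)
    (f' := fun u => G u x) (fun u hu => by rw [hG1 u hu]; exact hd u hu x)
    ((intervalIntegrable_iff_integrableOn_Ioo_of_le hab).2 hi)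
  rw [← h3, intervalIntegral.integral_of_le hab, integral_Ioc_eq_integral_Ioo]

theorem WR.lip (hρ : 0 < ρ) {a b : ℝ} (hab : a ≤ b) {F F' : ℝ → ℝ → ℝ}
    (hc : ∀ u ∈ Icc a b, Continuous (F u) ∧ Function.Periodic (F u) (2 * π))
    (hcu : ∀ x, ContinuousOn (fun u => F u x) (Icc a b))
    (hd : ∀ u ∈ Ioo a b, ∀ x, HasDerivAt (fun v => F v x) (F' u x) u)
    (hW : ∀ u ∈ Ioo a b, WR ρ n M (F' u)) :
    WR ρ n (M * (b - a)) fun x => F b x - F a x := by
  have h := W.lip (n := n) (M := M) hρ hab (F := fun u x => ((F u x : ℝ) : ℂ))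
    (F' := fun u x => ((F' u x : ℝ) : ℂ))
    (fun u hu => ⟨Complex.continuous_ofReal.comp (hc u hu).1,
      fun x => by simp only [(hc u hu).2 x]⟩)
    (fun x => Complex.continuous_ofReal.comp_continuousOn (hcu x))
    (fun u hu x => (hd u hu x).ofReal_comp) hW
  unfold WR
  simpa only [Complex.ofReal_sub] using h

end Pool.Agent.Lib.MP_3d41d4_an
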