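import Pool.Agent.Lib.MP_3d41d4_an.BSa
import Pool.Agent.Lib.MP_3d41d4_an.BSd
import Pool.Agent.Lib.MP_3d41d4_an.PV
import Pool.Agent.Lib.MP_3d41d4_an.WInt2

open MeasureTheory Set Filter Topology Real
open scoped ENNReal

namespace Pool.Agent.Lib.MP_3d41d4_an

/-- The principal value operator preserves the class. -/
theorem pv_W (ρ₀ L : ℝ) : ∃ C : ℝ, 0 < C ∧ ∀ φ, Curve ρ₀ L φ → ∀ ρ, 0 < ρ → ρ ≤ ρ₀ →
    ∀ n : ℕ, 2 ≤ n → n ≤ 4 → ∀ (M : ℝ) (f : ℝ → ℝ), WR ρ n M f → W ρ n (C * M) (pv φ f) := by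
  obtain ⟨C, hC, h⟩ := bs_W ρ₀ L
  refine ⟨C, hC, fun φ hφ ρ hρ hρ' n h2 h4 M f hf => ?_⟩
  have hneg : Tendsto (fun σ : ℝ => -σ) (𝓝[>] 0) (𝓝[<] 0) :=
    tendsto_nhdsWithin_iff.2 ⟨(continuous_neg.tendsto' 0 0 neg_zero).mono_left nhdsWithin_le_nhds,
      eventually_nhdsWithin_of_forall fun x hx => mem_Iio.2 (neg_lt_zero.2 (mem_Ioi.1 hx))⟩
  refine W.limit (l := 𝓝[>] (0 : ℝ))
    (f := fun σ x => (1 / 2 : ℂ) * (bs φ σ f x + bs φ (-σ) f x)) hρ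
    (eventually_nhdsWithin_of_forall fun σ hσ => ?_) fun x => ?_
  · have h0 : σ ≠ 0 := ne_of_gt hσ
    refine (((h φ hφ ρ hρ hρ' n h2 h4 M f hf σ h0).add
      (h φ hφ ρ hρ hρ' n h2 h4 M f hf (-σ) (neg_ne_zero.2 h0))).const_mul _).mono le_rfl le_rfl
      (le_of_eq ?_)
    rw [norm_div, norm_one, Complex.norm_two]
    ring
  · have := ((bs_tendsto_right hφ hρ hf x).add
      ((bs_tendsto_left hφ hρ hf x).comp hneg)).const_mul (1 / 2 : ℂ)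
    have e : (1 / 2 : ℂ) * (pv φ f x - (f x : ℂ) / (2 * zp φ x) +
        (pv φ f x + (f x : ℂ) / (2 * zp φ x))) = pv φ f x := by ring
    rw [e] at this
    exact this

/-- The operator `bs` completed at height zero by a one-sided limit. -/
noncomputable def BSc_F (φ f : ℝ → ℝ) (s u x : ℝ) : ℂ :=
  if u = 0 then pv φ f x - ((s * f x : ℝ) : ℂ) / (2 * zp φ x) else bs φ u f x

theorem BSc_lip (ρ₀ L : ℝ) : ∃ C : ℝ, 0 < C ∧ ∀ φ, Curve ρ₀ L φ → ∀ ρ, 0 < ρ → ρ ≤ ρ₀ →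
    ∀ (M : ℝ) (f : ℝ → ℝ), WR ρ 3 M f → ∀ s a b : ℝ, a ≤ b → (s = 1 ∧ 0 ≤ a ∨ s = -1 ∧ b ≤ 0) →
      W ρ 2 (C * M * (b - a)) fun x => BSc_F φ f s b x - BSc_F φ f s a x := by
  obtain ⟨Cb, hCb, hb⟩ := bs_W ρ₀ L
  obtain ⟨Cp, -, hp⟩ := pv_W ρ₀ L
  obtain ⟨Cz, hCz, hz⟩ := zp_W ρ₀ L
  refine ⟨64 * Cz * Cb, by positivity, fun φ hφ ρ hρ hρ' M f hf s a b hab hs => ?_⟩
  have hB := hb φ hφ ρ hρ hρ' 3 (by norm_num) (by norm_num) M f hf
  have hP := hp φ hφ ρ hρ hρ' 3 (by norm_num) (by norm_num) M f hf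
  have hZ : W ρ 2 Cz fun x => (zp φ x)⁻¹ := (hz φ hφ).2.2.mono hρ' (by norm_num) le_rfl
  have hD : ∀ u : ℝ, u ≠ 0 → ∀ x, HasDerivAt (fun v => bs φ v f x)
      (Complex.I * ((zp φ x)⁻¹ * deriv (bs φ u f) x)) u := fun u hu x => by
    obtain ⟨d, h1, h2⟩ := bs_deriv hφ hf.cont hf.per hu x
    have h3 : deriv (bs φ u f) x = zp φ x * d := h2.deriv
    rw [h3, inv_mul_cancel_left₀ (zp_ne_zero φ x)]
    exact h1
  have hne : ∀ u ∈ Ioo a b, u ≠ 0 := fun u hu => by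
    rcases hs with h | h
    · exact (h.2.trans_lt hu.1).ne'
    · exact (hu.2.trans_le h.2).ne
  refine W.lip (F := BSc_F φ f s)
    (F' := fun u x => Complex.I * ((zp φ x)⁻¹ * deriv (bs φ u f) x)) hρ hab
    (fun u _ => ?_) (fun x => ?_) (fun u hu x => ?_) fun u hu => ?_
  · by_cases hu : u = 0
    · have e : BSc_F φ f s u = fun x =>
          pv φ f x - ((s / 2 : ℝ) : ℂ) * ((f x : ℂ) * (zp φ x)⁻¹) := by
        funext x
        rw [BSc_F, if_pos hu]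
        push_cast
        ring
      have hf2 : W ρ 2 M fun x => (f x : ℂ) := hf.mono le_rfl (by norm_num) le_rfl
      have := (hP.mono le_rfl (by norm_num : 2 ≤ 3) le_rfl).sub
        ((W.mul hρ.le le_rfl (by norm_num) hf2 hZ).const_mul ((s / 2 : ℝ) : ℂ))
      rw [e]
      exact ⟨this.cont, this.per⟩
    · have e : BSc_F φ f s u = bs φ u f := by
        funext x
        rw [BSc_F, if_neg hu]
      rw [e]
      exact ⟨(hB u hu).cont, (hB u hu).per⟩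
  · have e : (fun u => BSc_F φ f s u x) = Function.update (fun u => bs φ u f x) 0
        (pv φ f x - ((s * f x : ℝ) : ℂ) / (2 * zp φ x)) := by
      funext u
      rw [BSc_F, Function.update_apply]
    rw [e, continuousOn_update_iff]
    refine ⟨fun u hu => (hD u hu.2 x).continuousAt.continuousWithinAt, fun _ => ?_⟩
    rcases hs with ⟨rfl, h⟩ | ⟨rfl, h⟩
    · rw [one_mul]
      exact (bs_tendsto_right hφ hρ hf x).mono_left (nhdsWithin_mono _ fun u hu =>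
        lt_of_le_of_ne (h.trans hu.1.1) (Ne.symm hu.2))
    · rw [neg_one_mul, Complex.ofReal_neg, neg_div, sub_neg_eq_add]
      exact (bs_tendsto_left hφ hρ hf x).mono_left (nhdsWithin_mono _ fun u hu =>
        lt_of_le_of_ne (hu.1.2.trans h) hu.2)
  · refine (hD u (hne u hu) x).congr_of_eventuallyEq ?_
    filter_upwards [isOpen_ne.mem_nhds (hne u hu)] with v hv
    exact if_neg hv
  · refine ((W.mul hρ.le le_rfl (by norm_num) hZ
      (W.derivW hρ (hB u (hne u hu)))).const_mul Complex.I).mono le_rfl le_rfl (le_of_eq ?_)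
    rw [Complex.norm_I]
    ring

/-- The small part loses one level and gains a factor `|σ|`. -/
theorem wtil_W (ρ₀ L : ℝ) : ∃ C : ℝ, 0 < C ∧ ∀ φ, Curve ρ₀ L φ → ∀ ρ, 0 < ρ → ρ ≤ ρ₀ →
    ∀ (M : ℝ) (f : ℝ → ℝ), WR ρ 3 M f → ∀ σ : ℝ, σ ≠ 0 →
      W ρ 2 (C * M * |σ|) (wtil φ σ f) := by
  obtain ⟨C, hC, h⟩ := BSc_lip ρ₀ L
  refine ⟨C, hC, fun φ hφ ρ hρ hρ' M f hf σ hσ => ?_⟩
  rcases lt_or_gt_of_ne hσ with h0 | h0
  · have := (h φ hφ ρ hρ hρ' M f hf (-1) σ 0 h0.le (Or.inr ⟨rfl, le_rfl⟩)).neg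
    rw [abs_of_neg h0, ← zero_sub]
    convert this using 1
    funext x
    rw [wtil, BSc_F, BSc_F, if_pos rfl, if_neg hσ, Real.sign_of_neg h0]
    ring
  · have := h φ hφ ρ hρ hρ' M f hf 1 0 σ h0.le (Or.inl ⟨rfl, le_rfl⟩)
    rw [sub_zero] at this
    rw [abs_of_pos h0]
    convert this using 1
    funext x
    rw [wtil, BSc_F, BSc_F, if_pos rfl, if_neg hσ, Real.sign_of_pos h0]
    ring

theorem BSc_im (φ f : ℝ → ℝ) (s u x : ℝ) : (zp φ x * BSc_F φ f s u x).im =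
    (zp φ x * if u = 0 then pv φ f x else bs φ u f x).im := by
  unfold BSc_F
  split_ifs
  · have e : zp φ x * (pv φ f x - ((s * f x : ℝ) : ℂ) / (2 * zp φ x)) =
        zp φ x * pv φ f x - ((s * f x / 2 : ℝ) : ℂ) := by
      have := zp_ne_zero φ x
      push_cast
      field_simp
    rw [e, Complex.sub_im, Complex.ofReal_im, sub_zero]
  · rfl

/-- The normal velocity is Lipschitz across the curve. -/
theorem normal_lip (ρ₀ L : ℝ) : ∃ C : ℝ, 0 < C ∧ ∀ φ, Curve ρ₀ L φ → ∀ ρ, 0 < ρ → ρ ≤ ρ₀ →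
    ∀ (M : ℝ) (f : ℝ → ℝ), WR ρ 3 M f → ∀ x σ σ' : ℝ,
      |(zp φ x * if σ = 0 then pv φ f x else bs φ σ f x).im
        - (zp φ x * if σ' = 0 then pv φ f x else bs φ σ' f x).im| ≤ C * M * |σ - σ'| := by
  obtain ⟨C, hC, h⟩ := BSc_lip ρ₀ L
  refine ⟨(1 + |L|) * 4 * C, by positivity, fun φ hφ ρ hρ hρ' M f hf x => ?_⟩
  set N : ℝ → ℝ := fun u => (zp φ x * if u = 0 then pv φ f x else bs φ u f x).im with hN
  have k1 : ∀ s a b : ℝ, a ≤ b → (s = 1 ∧ 0 ≤ a ∨ s = -1 ∧ b ≤ 0) →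
      |N b - N a| ≤ (1 + |L|) * 4 * C * M * (b - a) := fun s a b hab hs => by
    have a1 := (h φ hφ ρ hρ hρ' M f hf s a b hab hs).norm_le hρ.le le_rfl x
    have a2 : ‖zp φ x‖ ≤ 1 + |L| := (hφ.norm_zp_le x).trans (by linarith [le_abs_self L])
    simp only [hN, ← BSc_im φ f s]
    rw [← Complex.sub_im, ← mul_sub]
    refine (Complex.abs_im_le_norm _).trans ?_
    rw [norm_mul]
    exact (mul_le_mul a2 a1 (norm_nonneg _) (by positivity)).trans_eq (by ring)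
  have k2 : ∀ a b : ℝ, a ≤ b → |N b - N a| ≤ (1 + |L|) * 4 * C * M * (b - a) := fun a b hab => by
    rcases le_total 0 a with ha | ha
    · exact k1 1 a b hab (Or.inl ⟨rfl, ha⟩)
    rcases le_total b 0 with hb | hb
    · exact k1 (-1) a b hab (Or.inr ⟨rfl, hb⟩)
    have a1 := k1 1 0 b hb (Or.inl ⟨rfl, le_rfl⟩)
    have a2 := k1 (-1) a 0 ha (Or.inr ⟨rfl, le_rfl⟩)
    have a3 := abs_sub_le (N b) (N 0) (N a)
    linarith
  intro σ σ'
  change |N σ - N σ'| ≤ _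
  rcases le_total σ' σ with hh | hh
  · rw [abs_of_nonneg (sub_nonneg.2 hh)]
    exact k2 _ _ hh
  · rw [abs_sub_comm, abs_sub_comm σ, abs_of_nonneg (sub_nonneg.2 hh)]
    exact k2 _ _ hh

end Pool.Agent.Lib.MP_3d41d4_an
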