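import Pool.Agent.Lib.MP_3d41d4_an.NB0

open MeasureTheory Set Filter Topology Real
open scoped ENNReal

namespace Pool.Agent.Lib.MP_3d41d4_an

variable {ρ L M₀ T : ℝ} {φ γ : ℝ → ℝ → ℝ}

theorem NB_aa_pos {ν κ t s : ℝ} (hν : 0 < ν) (hκ : 0 ≤ κ) (hs : s < t) : 0 < aa ν κ t s :=
  add_pos_of_pos_of_nonneg (mul_pos hν (sub_pos.2 hs)) hκ

theorem Nk_WR (hS : Sheet ρ L M₀ T φ γ) (M : ℝ) : ∃ C : ℝ, 0 < C ∧
    ∀ {β T' ν : ℝ} {Ω Θ : ℝ → ℝ → ℝ → ℝ}, Par ρ L T β T' ν → Inv ρ L β T' ν M γ Ω Θ →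
      ∀ κ ∈ Icc (0 : ℝ) 1, ∀ t ∈ Ioc 0 T', ∀ s ∈ Ioo 0 t, ∀ j ≤ 1, ∀ η : ℝ,
        WR (ρ - β * s) 2 (C * (1 / √(aa ν κ t s)) ^ j * gs (mm L β s) (ν * t + κ) η)
          (Nk φ γ ν Ω Θ j κ t s η) := by
  obtain ⟨C, hC, h⟩ := nI_WR hS M
  have hc := cg_pos L
  refine ⟨C * (√(π / cg L) * √(π / (cg L / 4))), by positivity, ?_⟩
  intro β T' ν Ω Θ hP hI κ hκ t ht s hs j hj η
  have hsT : s ≤ T' := hs.2.le.trans ht.2
  have ha : 0 < aa ν κ t s := NB_aa_pos hP.ν_pos hκ.1 hs.2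
  have hb : 0 < ν * s := mul_pos hP.ν_pos hs.1
  have hm4 := hP.mm_ge hsT
  have hm : 0 < mm L β s := lt_of_lt_of_le (by positivity) hm4
  have hmc : mm L β s ≤ cg L := (hP.mm_le hs.1.le).trans (by linarith)
  have hK : 0 ≤ C * (1 / √(aa ν κ t s)) ^ j := by positivity
  have hint : Integrable fun p : ℝ × ℝ => C * (1 / √(aa ν κ t s)) ^ j *
      (gs (cg L) (aa ν κ t s) p.1 *
        (gs (mm L β s) (aa ν κ t s) (η - p.2) * gs (mm L β s) (ν * s) p.2)) :=
    ((integrable_gs hc ha).mul_prod (integrable_gs_conv hm ha hb η)).const_mul _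
  have hW := WR.integral (μ := (volume : Measure (ℝ × ℝ))) (n := 2) (hP.rad_pos hsT)
    (f := fun p x => nI φ γ ν Ω Θ j κ t s η x p)
    (meas_nI hS ν hI.measΩ hI.measΘ j measurable_const measurable_const measurable_const
      measurable_const measurable_snd measurable_fst) hint
    (ae_of_all _ fun p => (h hP hI κ hκ t ht s hs j hj η p).mono le_rfl le_rfl
      (mul_le_mul_of_nonneg_left (mul_le_mul_of_nonneg_left
        (mul_le_mul_of_nonneg_right (gs_anti hmc ha _) (gs_nonneg _ _ _)) (gs_nonneg _ _ _)) hK))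
  refine hW.mono le_rfl le_rfl ?_
  have e : aa ν κ t s + ν * s = ν * t + κ := by unfold aa; ring
  rw [integral_const_mul, Measure.volume_eq_prod, integral_prod_mul (gs (cg L) (aa ν κ t s))
    fun y => gs (mm L β s) (aa ν κ t s) (η - y) * gs (mm L β s) (ν * s) y, integral_gs hc ha,
    integral_gs_conv hm ha hb, e]
  have h1 : √(π / mm L β s) ≤ √(π / (cg L / 4)) :=
    Real.sqrt_le_sqrt (div_le_div_of_nonneg_left pi_pos.le (by positivity) hm4)
  have h2 := gs_nonneg (mm L β s) (ν * t + κ) η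
  calc C * (1 / √(aa ν κ t s)) ^ j *
        (√(π / cg L) * (√(π / mm L β s) * gs (mm L β s) (ν * t + κ) η))
      ≤ C * (1 / √(aa ν κ t s)) ^ j *
        (√(π / cg L) * (√(π / (cg L / 4)) * gs (mm L β s) (ν * t + κ) η)) := by gcongr
    _ = _ := by ring

theorem Nk_integrableOn (hS : Sheet ρ L M₀ T φ γ) {β T' ν M : ℝ} {Ω Θ : ℝ → ℝ → ℝ → ℝ}
    (hP : Par ρ L T β T' ν) (hI : Inv ρ L β T' ν M γ Ω Θ)
    {κ t : ℝ} (hκ : κ ∈ Icc (0 : ℝ) 1) (ht : t ∈ Ioc 0 T') {j : ℕ} (hj : j ≤ 1) (η x : ℝ) :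
    IntegrableOn (fun s => Nk φ γ ν Ω Θ j κ t s η x) (Ioo 0 t) := by
  obtain ⟨C, hC, h⟩ := Nk_WR hS M
  have hc := cg_pos L
  have hb : 0 < ν * t + κ := add_pos_of_pos_of_nonneg (mul_pos hP.ν_pos ht.1) hκ.1
  have hint : IntegrableOn (fun s => 4 * (C * (1 + 1 / √(ν * (t - s))) * (1 / √(ν * t + κ))))
      (Ioo 0 t) :=
    (((((integrableOn_const (by simp)).add (integrableOn_inv_sqrt_sub ν t)).const_mul C).mul_const
      _).const_mul 4)
  refine Integrable.mono' hint (meas_Nk hS ν hI.measΩ hI.measΘ j measurable_const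
    measurable_const measurable_id measurable_const measurable_const).aestronglyMeasurable ?_
  refine (ae_restrict_iff' measurableSet_Ioo).2 (ae_of_all _ fun s hs => ?_)
  have hsT : s ≤ T' := hs.2.le.trans ht.2
  have h0 : 0 < ν * (t - s) := mul_pos hP.ν_pos (sub_pos.2 hs.2)
  have hm : 0 ≤ mm L β s := le_trans (by positivity) (hP.mm_ge hsT)
  have h1 : 1 / √(aa ν κ t s) ≤ 1 / √(ν * (t - s)) :=
    one_div_le_one_div_of_le (Real.sqrt_pos.2 h0)
      (Real.sqrt_le_sqrt (le_add_of_nonneg_right hκ.1))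
  have h2 : (1 / √(aa ν κ t s)) ^ j ≤ 1 + 1 / √(ν * (t - s)) := by
    have : 0 ≤ 1 / √(ν * (t - s)) := by positivity
    interval_cases j
    · rw [pow_zero]; linarith
    · rw [pow_one]; linarith
  refine ((h hP hI κ hκ t ht s hs j hj η).abs_le (hP.rad_pos hsT).le le_rfl x).trans ?_
  have h3 := gs_le hm hb η
  have h4 := gs_nonneg (mm L β s) (ν * t + κ) η
  gcongr

theorem Ak_WR (hS : Sheet ρ L M₀ T φ γ) : ∃ C : ℝ, 0 < C ∧ ∀ ν κ t : ℝ, 0 < ν * t + κ →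
    ∀ j ≤ 1, ∀ η : ℝ,
      WR ρ 4 (C * (1 / √(ν * t + κ)) ^ j * gs (cg L) (ν * t + κ) η) (Ak φ γ ν j κ t η) := by
  obtain ⟨C, hC, h⟩ := Gd_WR ρ L
  have hc := cg_pos L
  have hM := hS.M_pos
  have hρ : 0 < ρ := (hS.curve 0).1
  refine ⟨64 * C * M₀ * √(π / cg L), by positivity, fun ν κ t ha j hj η => ?_⟩
  have hφ : Continuous (φ t) := hS.contφ.comp (Continuous.prodMk_right t)
  have hγ : Continuous (γ 0) := hS.contγ.comp (Continuous.prodMk_right 0)
  have hint : Integrable fun r => 64 * C * M₀ * (1 / √(ν * t + κ)) ^ j *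
      gs (cg L) (ν * t + κ) η * gs (cg L) (ν * t + κ) r := (integrable_gs hc ha).const_mul _
  have hW := WR.integral (μ := (volume : Measure ℝ)) (n := 4) hρ
    (f := fun r x => Gd j (ν * t + κ) r (η - ch (φ t) x r) * γ 0 (x + r))
    ((measurable_Gd j measurable_const measurable_fst (by unfold ch; fun_prop)).mul
      (by fun_prop)) hint
    (ae_of_all _ fun r => by
      have h1 := h (φ t) (hS.curve t) _ ha 0 zero_le_one j (hj.trans (by norm_num)) r η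
      simp only [pow_zero, one_mul, zero_add] at h1
      refine (h1.mul hρ.le (by norm_num) le_rfl ((hS.wγ 0).shift r)).mono le_rfl le_rfl
        (le_of_eq ?_)
      ring)
  refine hW.mono le_rfl le_rfl (le_of_eq ?_)
  rw [integral_const_mul, integral_gs hc ha]
  ring

end Pool.Agent.Lib.MP_3d41d4_an
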