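import Pool.Agent.Lib.MP_3d41d4_an.VelD
import Pool.Agent.Lib.MP_3d41d4_an.NB

open MeasureTheory Set Filter Topology Real
open scoped ENNReal

namespace Pool.Agent.Lib.MP_3d41d4_an

variable {ρ L M₀ T : ℝ} {φ γ : ℝ → ℝ → ℝ}

theorem ByParts_int {c a m b : ℝ} (hc : 0 < c) (ha : 0 < a) (hm : 0 < m) (hb : 0 < b)
    {A B : ℝ × ℝ → ℝ} (hA : Measurable A) (hB : Measurable B) {K K' : ℝ}
    (bA : ∀ p, |A p| ≤ K * gs c a p.1) (bB : ∀ p, |B p| ≤ K' * ((1 + |p.2|) * gs m b p.2)) :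
    Integrable fun p => A p * B p := by
  have j1 : Integrable fun y => (1 + |y|) * gs m b y := by
    have := (integrable_gs hm hb).add (integrable_abs_mul_gs hm hb 0)
    refine this.congr (Eventually.of_forall fun y => ?_)
    simp only [Pi.add_apply, zero_sub, abs_neg]
    ring
  have j2 := ((integrable_gs hc ha).const_mul K).mul_prod (j1.const_mul K')
  refine Integrable.mono' j2 (hA.mul hB).aestronglyMeasurable (Eventually.of_forall fun p => ?_)
  rw [Real.norm_eq_abs, abs_mul]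
  exact mul_le_mul (bA p) (bB p) (abs_nonneg _) ((abs_nonneg _).trans (bA p))

theorem ByParts_line1 {f : ℝ × ℝ → ℝ} {p : ℝ × ℝ} {d : ℝ}
    (h : HasDerivAt (fun r => f (r, p.2)) d p.1) : HasLineDerivAt ℝ f d p (1, 0) := by
  unfold HasLineDerivAt
  have h2 : HasDerivAt (fun u : ℝ => p.1 + u) 1 0 := (hasDerivAt_id (0 : ℝ)).const_add p.1
  have h3 : HasDerivAt (fun r => f (r, p.2)) d (p.1 + 0) := by simpa using h
  have := h3.comp (0 : ℝ) h2
  simp only [mul_one] at this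
  refine this.congr_of_eventuallyEq (Eventually.of_forall fun u => ?_)
  simp only [Function.comp]
  congr 1
  ext <;> simp

theorem ByParts_line2 {f : ℝ × ℝ → ℝ} {p : ℝ × ℝ} {d : ℝ}
    (h : HasDerivAt (fun y => f (p.1, y)) d p.2) : HasLineDerivAt ℝ f d p (0, 1) := by
  unfold HasLineDerivAt
  have h2 : HasDerivAt (fun u : ℝ => p.2 + u) 1 0 := (hasDerivAt_id (0 : ℝ)).const_add p.2
  have h3 : HasDerivAt (fun y => f (p.1, y)) d (p.2 + 0) := by simpa using h
  have := h3.comp (0 : ℝ) h2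
  simp only [mul_one] at this
  refine this.congr_of_eventuallyEq (Eventually.of_forall fun u => ?_)
  simp only [Function.comp]
  congr 1
  ext <;> simp

/-- The Duhamel term in weak form. -/
theorem Nk_weak (hS : Sheet ρ L M₀ T φ γ) {β T' ν M : ℝ} {Ω Θ : ℝ → ℝ → ℝ → ℝ}
    (hP : Par ρ L T β T' ν) (hI : Inv ρ L β T' ν M γ Ω Θ)
    {κ t s : ℝ} (hκ : κ ∈ Icc (0 : ℝ) 1) (ht : t ∈ Ioc 0 T') (hs : s ∈ Ioo 0 t) (η x : ℝ) :
    Integrable (fun p : ℝ × ℝ =>
        Ω s p.2 (x + p.1) * Kw φ γ ν κ t s η x p (wt φ Ω s p.2 (x + p.1))) ∧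
      Nk φ γ ν Ω Θ 0 κ t s η x = ∫ p : ℝ × ℝ,
        Ω s p.2 (x + p.1) * Kw φ γ ν κ t s η x p (wt φ Ω s p.2 (x + p.1)) := by
  have hs' : s ∈ Ioc 0 T' := ⟨hs.1, hs.2.le.trans ht.2⟩
  obtain ⟨C1, hC1, hw⟩ := wt_W hS M
  obtain ⟨C2, hC2, hv⟩ := vv_WR hS M
  obtain ⟨C3, hC3, hG⟩ := Gd_WR ρ L
  obtain ⟨C4, hC4, hR⟩ := Rk_WR hS
  have hu : ∀ η', WR (ρ - β * s) 3 C1 (u1 φ Ω s η') := fun η' => (hw hP hI s hs' η').re
  have hv := hv hP hI s hs'
  have hr := hP.rad_pos hs'.2
  have hρ := hS.ρ_pos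
  have hcg := cg_pos L
  have hm : 0 < mm L β s := lt_of_lt_of_le (by positivity) (hP.mm_ge hs'.2)
  have hb : 0 < ν * s := mul_pos hP.ν_pos hs.1
  have hl : 0 < √(ν * s) := Real.sqrt_pos.mpr hb
  have hl1 : √(ν * s) ≤ 1 := by
    rw [Real.sqrt_le_one]
    have := hs'.2.trans hP.T'_le_one
    nlinarith [hP.ν_pos, hP.ν_le, hs.1]
  set a := aa ν κ t s with ha_def
  have ha : 0 < a := by
    have := mul_pos hP.ν_pos (sub_pos.mpr hs.2)
    simp only [ha_def, aa]; linarith [hκ.1]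
  have hsa : 0 < √a := Real.sqrt_pos.mpr ha
  have hM : 0 ≤ M := by
    have := (hI.w0 s hs' 0).nonneg
    exact nonneg_of_mul_nonneg_left this (gs_pos hb _ _)
  set g : ℝ → ℝ := gs (mm L β s) (ν * s) with hg
  have hg0 : ∀ y, 0 ≤ g y := fun y => gs_nonneg _ _ _
  -- the players
  set G0 : ℝ × ℝ → ℝ := fun p => Gd 0 a p.1 (η - p.2 - ch (φ t) x p.1) with hG0
  set G1 : ℝ × ℝ → ℝ := fun p => Gd 1 a p.1 (η - p.2 - ch (φ t) x p.1) with hG1
  set Gr : ℝ × ℝ → ℝ := fun p => -p.1 / (2 * a) * G0 p - deriv (φ t) (x + p.1) * G1 p with hGr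
  set R : ℝ × ℝ → ℝ := fun p => Rk φ ν 0 a t s x p.1 (η - p.2) with hRdef
  set U : ℝ × ℝ → ℝ := fun p => u1 φ Ω s p.2 (x + p.1) with hU
  set Ux : ℝ × ℝ → ℝ := fun p => deriv (u1 φ Ω s p.2) (x + p.1) with hUx
  set V : ℝ × ℝ → ℝ := fun p => vv φ γ Ω s p.2 (x + p.1) with hV
  set O : ℝ × ℝ → ℝ := fun p => Ω s p.2 (x + p.1) with hO
  set Ox : ℝ × ℝ → ℝ := fun p => deriv (Ω s p.2) (x + p.1) with hOx
  set Th : ℝ × ℝ → ℝ := fun p => Θ s p.2 (x + p.1) with hTh
  -- measurability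
  have mY : Measurable fun p : ℝ × ℝ => η - p.2 - ch (φ t) x p.1 :=
    (measurable_const.sub measurable_snd).sub
      (hS.meas_ch measurable_const measurable_const measurable_fst)
  have mx : Measurable fun p : ℝ × ℝ => x + p.1 := measurable_const.add measurable_fst
  have mG0 : Measurable G0 := measurable_Gd 0 measurable_const measurable_fst mY
  have mG1 : Measurable G1 := measurable_Gd 1 measurable_const measurable_fst mY
  have mGr : Measurable Gr :=
    ((measurable_fst.neg.div_const _).mul mG0).sub ((hS.meas_d1 measurable_const mx).mul mG1)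
  have mR : Measurable R := meas_Rk hS ν 0 measurable_const measurable_const measurable_const
    measurable_const measurable_fst (measurable_const.sub measurable_snd)
  have mU : Measurable U := meas_u1 hS hI.measΩ measurable_const measurable_snd mx
  have mUx : Measurable Ux :=
    (meas_du1 hS hP hI hs').comp (f := fun p : ℝ × ℝ => ((p.2, x + p.1) : ℝ × ℝ)) (by fun_prop)
  have mV : Measurable V := meas_vv hS hI.measΩ measurable_const measurable_snd mx
  have mO : Measurable O := meas3 hI.measΩ measurable_const measurable_snd mx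
  have eOx : ∀ p : ℝ × ℝ, dx (Ω s p.2) (x + p.1) = Ox p := fun p =>
    dx_eq_deriv ((hI.w0 s hs' p.2).differentiable hr _)
  have mOx : Measurable Ox := by
    have := meas_dxΩ hI.measΩ (measurable_const (a := s)) measurable_snd mx
    simpa only [eOx] using this
  have mTh : Measurable Th := meas3 hI.measΘ measurable_const measurable_snd mx
  -- kernel bounds
  have bK : ∀ i ≤ 1, ∀ j ≤ 3, ∀ p : ℝ × ℝ,
      |(-p.1 / (2 * a)) ^ i * Gd j a p.1 (η - p.2 - ch (φ t) x p.1)|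
        ≤ (4 * C3 * (1 / √a) ^ (i + j) * (1 / √a)) * gs (cg L) a p.1 := by
    intro i hi j hj p
    have h1 := (hG (φ t) (hS.curve t) a ha i hi j hj p.1 (η - p.2)).abs_le hρ.le (by norm_num) x
    have h2 := gs_le hcg.le ha (η - p.2)
    have h3 := gs_nonneg (cg L) a p.1
    calc _ ≤ _ := h1
      _ = 4 * C3 * (1 / √a) ^ (i + j) * gs (cg L) a p.1 * gs (cg L) a (η - p.2) := by ring
      _ ≤ 4 * C3 * (1 / √a) ^ (i + j) * gs (cg L) a p.1 * (1 / √a) :=
          mul_le_mul_of_nonneg_left h2 (by positivity)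
      _ = _ := by ring
  have bG0 : ∀ p, |G0 p| ≤ (4 * C3 * (1 / √a) ^ (0 + 0) * (1 / √a)) * gs (cg L) a p.1 :=
    fun p => by simpa [hG0] using bK 0 (by norm_num) 0 (by norm_num) p
  have bG1 : ∀ p, |G1 p| ≤ (4 * C3 * (1 / √a) ^ (0 + 1) * (1 / √a)) * gs (cg L) a p.1 :=
    fun p => by simpa [hG1] using bK 0 (by norm_num) 1 (by norm_num) p
  have bGr : ∀ p, |Gr p| ≤ (4 * C3 * (1 / √a) ^ (1 + 0) * (1 / √a)
      + L * (4 * C3 * (1 / √a) ^ (0 + 1) * (1 / √a))) * gs (cg L) a p.1 := by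
    intro p
    have h1 := bK 1 le_rfl 0 (by norm_num) p
    rw [pow_one] at h1
    have h2 : |deriv (φ t) (x + p.1) * G1 p|
        ≤ L * ((4 * C3 * (1 / √a) ^ (0 + 1) * (1 / √a)) * gs (cg L) a p.1) := by
      rw [abs_mul]
      exact mul_le_mul ((hS.curve t).abs_deriv_le _) (bG1 p) (abs_nonneg _)
        (zero_le_one.trans (hS.curve t).one_le)
    calc |Gr p| ≤ _ := abs_sub _ _
      _ ≤ _ := add_le_add h1 h2
      _ = _ := by ring
  have bR : ∀ p, |R p| ≤ (4 * C4 * (1 / √a)) * gs (cg L) a p.1 := by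
    intro p
    have h1 := (hR ν κ t s hP.ν_pos hP.ν_le hκ.1 hκ.2 hs.1.le hs.2 (ht.2.trans hP.T'_le_one) 0
      (by norm_num) p.1 (η - p.2)).abs_le hρ.le (by norm_num) x
    have h2 := gs_le hcg.le ha (η - p.2)
    have h3 := gs_nonneg (cg L) a p.1
    calc _ ≤ _ := h1
      _ = 4 * C4 * gs (cg L) a p.1 * gs (cg L) a (η - p.2) := by rw [pow_zero]; ring
      _ ≤ 4 * C4 * gs (cg L) a p.1 * (1 / √a) := mul_le_mul_of_nonneg_left h2 (by positivity)
      _ = _ := by ring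
  -- bounds on the fields
  have one_le : ∀ p : ℝ × ℝ, g p.2 ≤ (1 + |p.2|) * g p.2 := fun p => by
    have := hg0 p.2
    nlinarith [abs_nonneg p.2]
  have bO : ∀ p, |O p| ≤ 4 * (M * g p.2) := fun p =>
    (hI.w0 s hs' p.2).abs_le hr.le (by norm_num) _
  have bOx : ∀ p, |Ox p| ≤ 4 * (M * g p.2) := fun p =>
    ((hI.w0 s hs' p.2).derivW hr).abs_le hr.le le_rfl _
  have bU : ∀ p, |U p| ≤ 4 * C1 := fun p => (hu p.2).abs_le hr.le (by norm_num) _
  have bUx : ∀ p, |Ux p| ≤ 4 * C1 := fun p => ((hu p.2).derivW hr).abs_le hr.le le_rfl _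
  have bV : ∀ p, |V p| ≤ 4 * (C2 * (√(ν * s) + |p.2|)) := fun p => (hv p.2).abs_le hr.le le_rfl _
  have bTh : ∀ p, |Th p| ≤ 4 * (M * g p.2 / (√(ν * s) + |p.2|)) := fun p =>
    (hI.w1 s hs' p.2).abs_le hr.le le_rfl _
  have bmul : ∀ {A B : ℝ × ℝ → ℝ}, (∀ p, |A p| ≤ 4 * C1) → (∀ p, |B p| ≤ 4 * (M * g p.2)) →
      ∀ p, |A p * B p| ≤ (16 * C1 * M) * ((1 + |p.2|) * g p.2) := by
    intro A B hA hB p
    rw [abs_mul]
    calc |A p| * |B p| ≤ (4 * C1) * (4 * (M * g p.2)) :=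
          mul_le_mul (hA p) (hB p) (abs_nonneg _) (by positivity)
      _ = 16 * C1 * M * g p.2 := by ring
      _ ≤ _ := mul_le_mul_of_nonneg_left (one_le p) (by positivity)
  have bVO : ∀ p, |V p * O p| ≤ (16 * C2 * M) * ((1 + |p.2|) * g p.2) := by
    intro p
    rw [abs_mul]
    have := hg0 p.2
    calc |V p| * |O p| ≤ (4 * (C2 * (1 + |p.2|))) * (4 * (M * g p.2)) := by
          refine mul_le_mul ((bV p).trans ?_) (bO p) (abs_nonneg _) (by positivity)
          gcongr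
      _ = _ := by ring
  have bVT : ∀ p, |V p * Th p| ≤ (16 * C2 * M) * ((1 + |p.2|) * g p.2) := by
    intro p
    rw [abs_mul]
    have h1 : 0 < √(ν * s) + |p.2| := by positivity
    calc |V p| * |Th p| ≤ (4 * (C2 * (√(ν * s) + |p.2|))) *
          (4 * (M * g p.2 / (√(ν * s) + |p.2|))) :=
          mul_le_mul (bV p) (bTh p) (abs_nonneg _) (by positivity)
      _ = 16 * C2 * M * g p.2 := by field_simp; ring
      _ ≤ _ := mul_le_mul_of_nonneg_left (one_le p) (by positivity)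
  have bO' : ∀ p, |O p| ≤ (4 * M) * ((1 + |p.2|) * g p.2) := fun p =>
    (bO p).trans (by have := one_le p; nlinarith)
  have I1 := ByParts_int hcg ha hm hb mG0 (mU.mul mOx) bG0 (bmul bU bOx)
  have I2 := ByParts_int hcg ha hm hb mG0 (mUx.mul mO) bG0 (bmul bUx bO)
  have I3 := ByParts_int hcg ha hm hb mG0 (mU.mul mO) bG0 (bmul bU bO)
  have I4 := ByParts_int hcg ha hm hb mGr (mU.mul mO) bGr (bmul bU bO)
  have I5 := ByParts_int hcg ha hm hb mG0 (mV.mul mTh) bG0 bVT
  have I6 := ByParts_int hcg ha hm hb mG0 (mV.mul mO) bG0 bVO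
  have I7 := ByParts_int hcg ha hm hb mG1 (mV.mul mO) bG1 bVO
  have I8 := ByParts_int hcg ha hm hb mR mO bR bO'
  simp only [Pi.mul_apply] at I1 I2 I3 I4 I5 I6 I7
  -- derivatives
  have dφ := (hS.curve t).differentiable
  have dx1 : ∀ r : ℝ, HasDerivAt (fun r' : ℝ => x + r') 1 r := fun r =>
    (hasDerivAt_id r).const_add x
  have dG0r : ∀ p : ℝ × ℝ, HasDerivAt (fun r => G0 (r, p.2)) (Gr p) p.1 := by
    intro p
    have h1 : HasDerivAt (fun r => η - p.2 - ch (φ t) x r) (-deriv (φ t) (x + p.1)) p.1 := by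
      have := (((dφ (x + p.1)).hasDerivAt.comp p.1 (dx1 p.1)).sub_const (φ t x)).const_sub (η - p.2)
      simpa [ch] using this
    have := hasDerivAt_Gd_comp (j := 0) (by norm_num) a (hasDerivAt_id p.1) h1
    refine this.congr_deriv ?_
    simp only [hGr, hG0, hG1, id]
    ring
  have dG0y : ∀ p : ℝ × ℝ, HasDerivAt (fun y => G0 (p.1, y)) (-G1 p) p.2 := by
    intro p
    have h1 : HasDerivAt (fun y => η - y - ch (φ t) x p.1) (-1) p.2 :=
      ((hasDerivAt_id p.2).const_sub η).sub_const _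
    have := hasDerivAt_Gd_comp (j := 0) (by norm_num) a (hasDerivAt_const p.2 p.1) h1
    refine this.congr_deriv ?_
    simp only [hG1]
    ring
  have dUr : ∀ p : ℝ × ℝ, HasDerivAt (fun r => U (r, p.2)) (Ux p) p.1 := fun p => by
    have := ((hu p.2).differentiable hr (x + p.1)).hasDerivAt.comp p.1 (dx1 p.1)
    rw [mul_one] at this
    exact this
  have dOr : ∀ p : ℝ × ℝ, HasDerivAt (fun r => O (r, p.2)) (Ox p) p.1 := fun p => by
    have := ((hI.w0 s hs' p.2).differentiable hr (x + p.1)).hasDerivAt.comp p.1 (dx1 p.1)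
    rw [mul_one] at this
    exact this
  have P1 := integral_bilinear_hasLineDerivAt_right_eq_neg_left_of_integrable
    (μ := (volume : Measure (ℝ × ℝ))) (B := ContinuousLinearMap.mul ℝ ℝ)
    (f := fun p => G0 p * U p) (f' := fun p => Gr p * U p + G0 p * Ux p) (g := O) (g' := Ox)
    (v := ((1, 0) : ℝ × ℝ))
    ((I4.add I2).congr (Eventually.of_forall fun p => by simp; ring))
    (I1.congr (Eventually.of_forall fun p => by simp; ring))
    (I3.congr (Eventually.of_forall fun p => by simp; ring))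
    (fun p _ => ByParts_line1 ((dG0r p).mul (dUr p))) (fun p _ => ByParts_line1 (dOr p))
  have P2 := integral_bilinear_hasLineDerivAt_right_eq_neg_left_of_integrable
    (μ := (volume : Measure (ℝ × ℝ))) (B := ContinuousLinearMap.mul ℝ ℝ)
    (f := fun p => G0 p * V p) (f' := fun p => -G1 p * V p + G0 p * -Ux p) (g := O) (g' := Th)
    (v := ((0, 1) : ℝ × ℝ))
    ((I7.neg.sub I2).congr (Eventually.of_forall fun p => by simp; ring))
    (I5.congr (Eventually.of_forall fun p => by simp; ring))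
    (I6.congr (Eventually.of_forall fun p => by simp; ring))
    (fun p _ => ByParts_line2 ((dG0y p).mul (vv_hasDerivAt hS hP hI hs' p.2 (x + p.1))))
    (fun p _ => ByParts_line2 (hI.der s hs' p.2 (x + p.1)))
  simp only [ContinuousLinearMap.mul_apply'] at P1 P2
  have eK : ∀ p : ℝ × ℝ, Ω s p.2 (x + p.1) * Kw φ γ ν κ t s η x p (wt φ Ω s p.2 (x + p.1))
      = Gr p * (U p * O p) - G1 p * (V p * O p) + R p * O p := fun p => by
    simp only [Kw, hGr, hG0, hG1, hU, hV, hO, hRdef, u1, vv, ← ha_def]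
    ring
  have eN : ∀ p : ℝ × ℝ, nI φ γ ν Ω Θ 0 κ t s η x p
      = -(G0 p * (U p * Ox p)) - G0 p * (V p * Th p) + R p * O p := fun p => by
    simp only [nI, FF, eOx, hG0, hU, hV, hO, hTh, hRdef, ← ha_def]
    ring
  refine ⟨?_, ?_⟩
  · simp only [eK]
    exact (I4.sub I7).add I8
  · simp only [Nk, eK, eN]
    have J1 : Integrable fun p => -(G0 p * (U p * Ox p)) := I1.neg
    have J2 : Integrable fun p => -(G0 p * (U p * Ox p)) - G0 p * (V p * Th p) := J1.sub I5
    have J3 : Integrable fun p => Gr p * (U p * O p) - G1 p * (V p * O p) := I4.sub I7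
    rw [integral_add J2 I8, integral_add J3 I8, integral_sub J1 I5,
      integral_sub I4 I7, integral_neg]
    have q1 : ∫ p, G0 p * (U p * Ox p) = -((∫ p, Gr p * (U p * O p)) + ∫ p, G0 p * (Ux p * O p)) := by
      rw [← integral_add I4 I2]
      simp only [← mul_assoc, ← add_mul]
      exact P1
    have q2 : ∫ p, G0 p * (V p * Th p) = (∫ p, G1 p * (V p * O p)) + ∫ p, G0 p * (Ux p * O p) := by
      rw [← integral_add I7 I2]
      simp only [← mul_assoc]
      rw [P2, ← integral_neg]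
      congr 1
      funext p
      ring
    rw [q1, q2]
    ring

end Pool.Agent.Lib.MP_3d41d4_an
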