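import Pool.Agent.Lib.MP_3d41d4_an.CKW

/-!
An abstract Cauchy-Kovalevskaya theorem in scales of Wiener classes (Nishida iteration).
-/

open Complex MeasureTheory Filter Topology Set
open scoped Real

namespace Pool.Agent.Lib.MP_3d41d4_an.CK

variable {ι : Type}

/-- Norm bound for the difference of two states. -/
def Nd (V : ι → ℤ → ℝ) (u v : ι → ℝ → ℂ) (M : ℝ) : Prop :=
  ∀ i, Bd (V i) (fun x => u i x - v i x) M

theorem Nd.mono {V : ι → ℤ → ℝ} {u v : ι → ℝ → ℂ} {M N : ℝ} (h : Nd V u v M) (hM : M ≤ N) :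
    Nd V u v N := fun i => (h i).mono hM

theorem Nd.trans {V : ι → ℤ → ℝ} (hV : ∀ i, Wt (V i)) {u v w : ι → ℝ → ℂ} {M N : ℝ}
    (h : Nd V u v M) (h' : Nd V v w N) : Nd V u w (M + N) := fun i =>
  ((h i).add (hV i) (h' i)).congr fun x => by ring

theorem Nd.refl {V : ι → ℤ → ℝ} (hV : ∀ i, Wt (V i)) (u : ι → ℝ → ℂ) : Nd V u u 0 := fun i =>
  (Bd.zero (hV i)).congr fun x => by ring

theorem Bd.intervalIntegral {W : ℤ → ℝ} (hW : Wt W) {F : ℝ → ℝ → ℂ} {m : ℝ → ℝ} {a b : ℝ}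
    (hab : a ≤ b) (hF : Continuous fun p : ℝ × ℝ => F p.1 p.2)
    (h : ∀ s ∈ Icc a b, Bd W (F s) (m s)) (hm : ContinuousOn m (Icc a b)) :
    Bd W (fun x => ∫ s in a..b, F s x) (∫ s in a..b, m s) := by
  simp_rw [intervalIntegral.integral_of_le hab]
  exact Bd.integral hW hF.measurable
    ((ae_restrict_iff' measurableSet_Ioc).2 (ae_of_all _ fun s hs => h s (Ioc_subset_Icc_self hs)))
    ((hm.integrableOn_Icc).mono_set Ioc_subset_Icc_self)

theorem joint_cont {F : ℝ → ℝ → ℂ} {A : ℝ} (h1 : ∀ s, Continuous (F s))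
    (h2 : ∀ s t x, ‖F t x - F s x‖ ≤ A * |t - s|) : Continuous fun p : ℝ × ℝ => F p.1 p.2 := by
  refine continuous_prod_of_continuous_lipschitzWith (fun p : ℝ × ℝ => F p.1 p.2)
    (Real.toNNReal A) h1 fun x => LipschitzWith.of_dist_le' fun s t => ?_
  rw [dist_eq_norm, Real.dist_eq]
  exact h2 t s x

/-- Clamp to the time interval. -/
noncomputable def cl (T t : ℝ) : ℝ := max 0 (min t T)

theorem cl_mem {T : ℝ} (hT : 0 ≤ T) (t : ℝ) : cl T t ∈ Icc 0 T :=
  ⟨le_max_left _ _, max_le hT (min_le_right _ _)⟩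

theorem cl_eq {T t : ℝ} (ht : t ∈ Icc 0 T) : cl T t = t := by
  rw [cl, min_eq_left ht.2, max_eq_right ht.1]

theorem cl_lip (T s t : ℝ) : |cl T t - cl T s| ≤ |t - s| := by
  refine (abs_max_sub_max_le_max _ _ _ _).trans ?_
  rw [sub_self, abs_zero]
  refine max_le (abs_nonneg _) ((abs_min_sub_min_le_max _ _ _ _).trans ?_)
  rw [sub_self, abs_zero]
  exact max_le le_rfl (abs_nonneg _)

/-- Picard iterates. -/
noncomputable def pic (G : (ι → ℝ → ℂ) → ι → ℝ → ℂ) (u0 : ι → ℝ → ℂ) (T : ℝ) :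
    ℕ → ℝ → ι → ℝ → ℂ
  | 0 => fun _ => u0
  | n + 1 => fun t i x => u0 i x + ∫ s in (0 : ℝ)..cl T t, G (pic G u0 T n s) i x

theorem int_inv_sq {A a b t : ℝ} (hb : 0 < b) (ht : 0 ≤ t) (h : 0 < a - b * t) (hA : 0 ≤ A) :
    ∫ s in (0 : ℝ)..t, A / (a - b * s) ^ 2 ≤ A / (b * (a - b * t)) := by
  have hpos : ∀ s ∈ uIcc 0 t, 0 < a - b * s := fun s hs => by
    rw [uIcc_of_le ht] at hs; nlinarith [hs.2]
  have hd : ∀ s ∈ uIcc 0 t, HasDerivAt (fun s => A / b * (a - b * s)⁻¹) (A / (a - b * s) ^ 2) s := by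
    intro s hs
    have h1 : HasDerivAt (fun s => a - b * s) (-b) s := by
      simpa using ((hasDerivAt_id s).const_mul b).const_sub a
    have h2 := (h1.inv (hpos s hs).ne').const_mul (A / b)
    rwa [show A / b * (- -b / (a - b * s) ^ 2) = A / (a - b * s) ^ 2 by field_simp] at h2
  rw [intervalIntegral.integral_eq_sub_of_hasDerivAt hd]
  · have h0 : 0 < a := by nlinarith
    have : 0 ≤ A / b * (a - b * 0)⁻¹ := by rw [mul_zero, sub_zero]; positivity
    have e : A / b * (a - b * t)⁻¹ = A / (b * (a - b * t)) := by field_simp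
    linarith
  · refine ContinuousOn.intervalIntegrable (continuousOn_const.div (by fun_prop) fun s hs => ?_)
    exact pow_ne_zero 2 (hpos s hs).ne'

theorem ack (V : ℝ → ι → ℤ → ℝ) (hV : ∀ ρ, 0 ≤ ρ → ∀ i, Wt (V ρ i))
    (hmono : ∀ ρ ρ', ρ ≤ ρ' → ∀ i k, V ρ i k ≤ V ρ' i k) {ρ1 r L K : ℝ} (hρ1 : 0 < ρ1)
    (hr : 0 < r) (hL0 : 0 ≤ L) (u0 : ι → ℝ → ℂ) (G : (ι → ℝ → ℂ) → ι → ℝ → ℂ)
    (hG0 : ∀ i, Bd (V ρ1 i) (G u0 i) K) (hK : 0 ≤ K)
    (hL : ∀ ρ ρ', 0 ≤ ρ → ρ < ρ' → ρ' ≤ ρ1 → ∀ u v d, Nd (V ρ') u u0 r → Nd (V ρ') v u0 r →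
      Nd (V ρ') u v d → Nd (V ρ) (G u) (G v) (L * d / (ρ' - ρ))) :
    ∃ T : ℝ, 0 < T ∧ ∃ u : ℝ → ι → ℝ → ℂ, (∀ t, Nd (V (ρ1 / 2)) (u t) u0 r) ∧
      (∀ i x, Continuous fun s => G (u s) i x) ∧
      ∀ t ∈ Icc 0 T, ∀ i x, u t i x = u0 i x + ∫ s in (0 : ℝ)..t, G (u s) i x := by
  set b0 := 16 * L + 1 with hb0
  have hb0pos : 0 < b0 := by positivity
  set T := min (ρ1 / (8 * b0)) (r / (8 * (K + 1))) with hT
  have hTpos : 0 < T := lt_min (by positivity) (by positivity)
  have hT1 : 2 * b0 * T ≤ ρ1 / 4 := by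
    calc 2 * b0 * T ≤ 2 * b0 * (ρ1 / (8 * b0)) :=
          mul_le_mul_of_nonneg_left (min_le_left _ _) (by positivity)
      _ = ρ1 / 4 := by field_simp; ring
  have hT2 : K * T ≤ r / 8 := by
    calc K * T ≤ (K + 1) * (r / (8 * (K + 1))) :=
          mul_le_mul (by linarith) (min_le_right _ _) hTpos.le (by positivity)
      _ = r / 8 := by field_simp
  set β : ℕ → ℝ := fun n => b0 * (2 - (1 / 2) ^ n) with hβ
  have hhalf : ∀ n : ℕ, (0 : ℝ) < (1 / 2) ^ n ∧ ((1 : ℝ) / 2) ^ n ≤ 1 := fun n =>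
    ⟨by positivity, pow_le_one₀ (by norm_num) (by norm_num)⟩
  have hβ1 : ∀ n, b0 ≤ β n := fun n => by simp only [hβ]; nlinarith [hhalf n]
  have hβ2 : ∀ n, β n ≤ 2 * b0 := fun n => by simp only [hβ]; nlinarith [hhalf n]
  have hβ3 : ∀ n, β (n + 1) = β n + b0 * (1 / 2) ^ (n + 1) := fun n => by
    simp only [hβ]; ring
  set u := pic G u0 T with hu
  set Lt := K + L * r / (ρ1 / 4) with hLt
  have hV0 := hV 0 le_rfl
  have hV2 := hV (ρ1 / 2) (by linarith)
  have hV4 := hV (ρ1 / 4) (by linarith)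
  have Ndw : ∀ {ρ ρ' : ℝ} {a b : ι → ℝ → ℂ} {M : ℝ}, ρ ≤ ρ' → Nd (V ρ') a b M → Nd (V ρ) a b M :=
    fun h hN i => (hN i).wle (hmono _ _ h i)
  -- membership of the half radius in all domains
  have hdom : ∀ n t, ρ1 / 4 ≤ ρ1 - ρ1 / 2 - β n * cl T t := by
    intro n t
    have h1 := cl_mem hTpos.le t
    have : β n * cl T t ≤ 2 * b0 * T := mul_le_mul (hβ2 n) h1.2 h1.1 (by positivity)
    linarith
  -- consequences of the ball and Lipschitz properties
  have hGb : ∀ a, Nd (V (ρ1 / 2)) a u0 r → ∀ i, Bd (V (ρ1 / 4) i) (G a i) Lt := by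
    intro a ha i
    have h1 := hL (ρ1 / 4) (ρ1 / 2) (by linarith) (by linarith) (by linarith) a u0 r ha
      ((Nd.refl hV2 u0).mono hr.le) ha i
    rw [show ρ1 / 2 - ρ1 / 4 = ρ1 / 4 by ring] at h1
    exact (((hG0 i).wle (hmono _ _ (by linarith) i)).add (hV4 i) h1).congr fun x => by ring
  have hcont : ∀ w : ℝ → ι → ℝ → ℂ, (∀ t, Nd (V (ρ1 / 2)) (w t) u0 r) →
      (∀ s t, Nd (V (ρ1 / 4)) (w t) (w s) (Lt * |t - s|)) →
      ∀ i, Continuous fun p : ℝ × ℝ => G (w p.1) i p.2 := by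
    intro w hw1 hw2 i
    refine joint_cont (A := L * Lt / (ρ1 / 4)) (fun s => (hGb _ (hw1 s) i).cont) fun s t x => ?_
    have h1 := hL 0 (ρ1 / 4) le_rfl (by linarith) (by linarith) _ _ _
      (Ndw (by linarith) (hw1 t)) (Ndw (by linarith) (hw1 s)) (hw2 s t) i
    refine (h1.norm_le (hV0 i) x).trans (le_of_eq ?_)
    rw [sub_zero]; ring
  have hlip : ∀ w : ℝ → ι → ℝ → ℂ, (∀ t, Nd (V (ρ1 / 2)) (w t) u0 r) →
      (∀ i, Continuous fun p : ℝ × ℝ => G (w p.1) i p.2) → ∀ s t,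
      Nd (V (ρ1 / 4)) (fun i x => u0 i x + ∫ σ in (0 : ℝ)..cl T t, G (w σ) i x)
        (fun i x => u0 i x + ∫ σ in (0 : ℝ)..cl T s, G (w σ) i x) (Lt * |t - s|) := by
    intro w hw1 hw2
    have hsec : ∀ i x a b, IntervalIntegrable (fun σ => G (w σ) i x) volume a b := fun i x a b =>
      ((hw2 i).comp (continuous_id.prodMk continuous_const)).intervalIntegrable a b
    have key : ∀ a b : ℝ, a ≤ b → ∀ i,
        Bd (V (ρ1 / 4) i) (fun x => ∫ σ in a..b, G (w σ) i x) (Lt * (b - a)) := by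
      intro a b hab i
      have := Bd.intervalIntegral (hV4 i) hab (hw2 i) (m := fun _ => Lt)
        (fun σ _ => hGb _ (hw1 σ) i) continuousOn_const
      rw [intervalIntegral.integral_const, smul_eq_mul, mul_comm] at this
      exact this
    intro s t i
    have hLt0 : 0 ≤ Lt := by positivity
    have hc := cl_lip T s t
    rcases le_total (cl T s) (cl T t) with h | h
    · refine ((key _ _ h i).mono (mul_le_mul_of_nonneg_left ((le_abs_self _).trans hc) hLt0)).congr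
        fun x => ?_
      rw [add_sub_add_left_eq_sub, intervalIntegral.integral_interval_sub_left (hsec i x _ _)
        (hsec i x _ _)]
    · refine ((key _ _ h i).neg.mono (mul_le_mul_of_nonneg_left
        (by rw [abs_sub_comm] at hc; exact (le_abs_self _).trans hc) hLt0)).congr fun x => ?_
      rw [add_sub_add_left_eq_sub, intervalIntegral.integral_interval_sub_left (hsec i x _ _)
        (hsec i x _ _), intervalIntegral.integral_symm]
  -- the main induction
  have main : ∀ n : ℕ,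
      (∀ t ρ, 0 ≤ ρ → 0 < ρ1 - ρ - β n * cl T t → Nd (V ρ) (u n t) u0 (r * (1 - (1 / 2) ^ n))) ∧
      (∀ i, Continuous fun p : ℝ × ℝ => G (u n p.1) i p.2) ∧
      (∀ t ρ, 0 ≤ ρ → 0 < ρ1 - ρ - β n * cl T t → Nd (V ρ) (u (n + 1) t) (u n t)
        (r / 8 * (1 / 4) ^ n * ((ρ1 - ρ) / (ρ1 - ρ - β n * cl T t)))) := by
    intro n
    induction n with
    | zero =>
      have hc : ∀ i, Continuous fun p : ℝ × ℝ => G (u 0 p.1) i p.2 := fun i =>
        (hG0 i).cont.comp continuous_snd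
      refine ⟨fun t ρ hρ _ => (Nd.refl (hV ρ hρ) u0).mono (by simp), hc, fun t ρ hρ hl i => ?_⟩
      have h1 := cl_mem hTpos.le t
      have hbt : 0 ≤ β 0 * cl T t := mul_nonneg (hb0pos.le.trans (hβ1 0)) h1.1
      have := Bd.intervalIntegral (hV ρ hρ i) h1.1 (hc i) (m := fun _ => K)
        (fun σ _ => (hG0 i).wle (hmono _ _ (by linarith) i)) continuousOn_const
      rw [intervalIntegral.integral_const, smul_eq_mul, sub_zero] at this
      refine (this.mono ?_).congr fun x => by simp [hu, pic]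
      have h2 : 1 ≤ (ρ1 - ρ) / (ρ1 - ρ - β 0 * cl T t) := by
        rw [le_div_iff₀ hl]; linarith
      have h3 : cl T t * K ≤ r / 8 := by nlinarith [h1.2]
      rw [pow_zero, mul_one]
      nlinarith
    | succ n ih =>
      obtain ⟨iha, ihb, ihc⟩ := ih
      have hsub : ∀ t ρ, 0 < ρ1 - ρ - β (n + 1) * cl T t → 0 < ρ1 - ρ - β n * cl T t := by
        intro t ρ h
        have h1 := cl_mem hTpos.le t
        have : 0 ≤ b0 * (1 / 2) ^ (n + 1) * cl T t := mul_nonneg (by positivity) h1.1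
        rw [hβ3] at h; nlinarith
      have ha : ∀ t ρ, 0 ≤ ρ → 0 < ρ1 - ρ - β (n + 1) * cl T t →
          Nd (V ρ) (u (n + 1) t) u0 (r * (1 - (1 / 2) ^ (n + 1))) := by
        intro t ρ hρ hl
        have hl' := hsub t ρ hl
        refine ((ihc t ρ hρ hl').trans (hV ρ hρ) (iha t ρ hρ hl')).mono ?_
        have h1 := cl_mem hTpos.le t
        have h2 : (ρ1 - ρ) / (ρ1 - ρ - β n * cl T t) ≤ 4 * 2 ^ n := by
          rw [div_le_iff₀ hl']
          have e1 : (2 : ℝ) ^ n * (1 / 2) ^ n = 1 := by rw [← mul_pow]; norm_num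
          have e2 : (1 : ℝ) ≤ 2 ^ n := one_le_pow₀ (by norm_num)
          have e3 : β n * cl T t ≤ 2 * b0 * cl T t := mul_le_mul_of_nonneg_right (hβ2 n) h1.1
          have e4 : b0 * (1 / 2) ^ (n + 1) * cl T t ≤ ρ1 - ρ - β n * cl T t := by
            rw [hβ3] at hl; nlinarith
          have e5 : 2 * b0 * cl T t ≤ 4 * 2 ^ n * (b0 * (1 / 2) ^ (n + 1) * cl T t) :=
            le_of_eq (by rw [pow_succ]; linear_combination (-(2 * b0 * cl T t)) * e1)
          have e6 : β (n + 1) * cl T t ≤ 2 * b0 * cl T t :=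
            mul_le_mul_of_nonneg_right (hβ2 _) h1.1
          -- `a - β n t ≥ a / (4 * 2 ^ n)`
          have e7 : 0 ≤ b0 * cl T t := mul_nonneg hb0pos.le h1.1
          have e8 : (ρ1 - ρ - β n * cl T t) =
              (ρ1 - ρ - β (n + 1) * cl T t) + b0 * (1 / 2) ^ (n + 1) * cl T t := by
            rw [hβ3]; ring
          rw [e8, mul_add]
          nlinarith
        have h3 : r / 8 * (1 / 4) ^ n * ((ρ1 - ρ) / (ρ1 - ρ - β n * cl T t)) ≤
            r / 8 * (1 / 4) ^ n * (4 * 2 ^ n) := mul_le_mul_of_nonneg_left h2 (by positivity)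
        have e1 : ((1 : ℝ) / 4) ^ n * 2 ^ n = (1 / 2) ^ n := by rw [← mul_pow]; norm_num
        have h4 : r / 8 * (1 / 4) ^ n * (4 * 2 ^ n) = r * (1 / 2) ^ (n + 1) := by
          rw [pow_succ, ← e1]; ring
        rw [pow_succ] at h4 ⊢
        linarith
      have ball : ∀ (m : ℕ) {a : ι → ℝ → ℂ} {ρ : ℝ}, Nd (V ρ) a u0 (r * (1 - (1 / 2) ^ m)) →
          Nd (V ρ) a u0 r := fun m a ρ h => h.mono (by nlinarith [hhalf m])
      have hn2 : ∀ t, Nd (V (ρ1 / 2)) (u n t) u0 r := fun t =>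
        ball n (iha t _ (by linarith) (by linarith [hdom n t]))
      have hn3 : ∀ t, Nd (V (ρ1 / 2)) (u (n + 1) t) u0 r := fun t =>
        ball _ (ha t _ (by linarith) (by linarith [hdom (n + 1) t]))
      have hb : ∀ i, Continuous fun p : ℝ × ℝ => G (u (n + 1) p.1) i p.2 :=
        hcont _ hn3 (hlip _ hn2 ihb)
      refine ⟨ha, hb, fun t ρ hρ hl i => ?_⟩
      have h1 := cl_mem hTpos.le t
      set a := ρ1 - ρ with ha'
      set b := β (n + 1) with hb'
      have hbpos : 0 < b := hb0pos.trans_le (hβ1 _)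
      have hapos : 0 < a := by nlinarith [h1.1]
      set A := 4 * L * (r / 8 * (1 / 4) ^ n) * a with hA
      have hA0 : 0 ≤ A := by positivity
      have hpos : ∀ s ∈ Icc 0 (cl T t), 0 < a - b * s := fun s hs => by nlinarith [hs.2]
      have key := Bd.intervalIntegral (hV ρ hρ i) h1.1 ((hb i).sub (ihb i))
        (F := fun s x => G (u (n + 1) s) i x - G (u n s) i x) (m := fun s => A / (a - b * s) ^ 2)
        (fun s hs => by
          have hs' : cl T s = s := cl_eq ⟨hs.1, hs.2.trans h1.2⟩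
          have hp := hpos s hs
          have hbs : 0 ≤ b * s := mul_nonneg hbpos.le hs.1
          set ρ' := ρ + (a - b * s) / 2 with hρ'
          have hρ'0 : 0 ≤ ρ' := by linarith
          have hl1 : 0 < ρ1 - ρ' - β (n + 1) * cl T s := by rw [hs']; linarith
          have hl2 := hsub s ρ' hl1
          refine (hL ρ ρ' hρ (by linarith) (by linarith) _ _ _ (ball _ (ha s ρ' hρ'0 hl1))
            (ball _ (iha s ρ' hρ'0 hl2)) (ihc s ρ' hρ'0 hl2) i).mono ?_
          have h2 : (ρ1 - ρ') / (ρ1 - ρ' - β n * cl T s) ≤ a / ((a - b * s) / 2) := by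
            refine div_le_div₀ hapos.le (by linarith) (by linarith) ?_
            have : β n * s ≤ b * s := mul_le_mul_of_nonneg_right
              (by rw [hb', hβ3]; have := hhalf (n + 1); nlinarith) hs.1
            rw [hs']; linarith
          calc L * (r / 8 * (1 / 4) ^ n * ((ρ1 - ρ') / (ρ1 - ρ' - β n * cl T s))) / (ρ' - ρ)
              ≤ L * (r / 8 * (1 / 4) ^ n * (a / ((a - b * s) / 2))) / (ρ' - ρ) := by
                refine div_le_div_of_nonneg_right ?_ (by linarith)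
                exact mul_le_mul_of_nonneg_left (mul_le_mul_of_nonneg_left h2 (by positivity)) hL0
            _ = A / (a - b * s) ^ 2 := by
                rw [show ρ' - ρ = (a - b * s) / 2 by ring, hA]
                field_simp; ring)
        (continuousOn_const.div (by fun_prop) fun s hs => pow_ne_zero 2 (hpos s hs).ne')
      refine (key.mono ((int_inv_sq hbpos h1.1 hl hA0).trans ?_)).congr fun x => ?_
      · have h2 : 4 * L / b ≤ 1 / 4 := by
          rw [div_le_iff₀ hbpos]; linarith [hβ1 (n + 1)]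
        calc A / (b * (a - b * cl T t))
            = 4 * L / b * (r / 8 * (1 / 4) ^ n * (a / (a - b * cl T t))) := by
              rw [hA]; field_simp
          _ ≤ 1 / 4 * (r / 8 * (1 / 4) ^ n * (a / (a - b * cl T t))) :=
              mul_le_mul_of_nonneg_right h2 (by positivity)
          _ = _ := by rw [pow_succ]; ring
      · change (u0 i x + ∫ s in (0 : ℝ)..cl T t, G (u (n + 1) s) i x) -
          (u0 i x + ∫ s in (0 : ℝ)..cl T t, G (u n s) i x) = _
        have c1 : Continuous fun s => G (u (n + 1) s) i x :=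
          (hb i).comp (continuous_id.prodMk continuous_const)
        have c2 : Continuous fun s => G (u n s) i x :=
          (ihb i).comp (continuous_id.prodMk continuous_const)
        rw [add_sub_add_left_eq_sub, intervalIntegral.integral_sub (c1.intervalIntegrable _ _)
          (c2.intervalIntegrable _ _)]
  -- the limit
  have hv : ∀ n t, Nd (V (ρ1 / 2)) (u (n + 1) t) (u n t) (r / 4 * (1 / 4) ^ n) := by
    intro n t
    refine ((main n).2.2 t _ (by linarith) (by linarith [hdom n t])).mono ?_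
    have h2 : (ρ1 - ρ1 / 2) / (ρ1 - ρ1 / 2 - β n * cl T t) ≤ 2 := by
      rw [div_le_iff₀ (by linarith [hdom n t])]; linarith [hdom n t]
    calc _ ≤ r / 8 * (1 / 4) ^ n * 2 := mul_le_mul_of_nonneg_left h2 (by positivity)
      _ = _ := by ring
  have hgeo : Summable fun n : ℕ => ((1 : ℝ) / 4) ^ n :=
    summable_geometric_of_lt_one (by norm_num) (by norm_num)
  set w : ℝ → ι → ℝ → ℂ := fun t i x => u0 i x + ∑' n, (u (n + 1) t i x - u n t i x) with hw
  have htail : ∀ n t, Nd (V (ρ1 / 2)) (w t) (u n t) (r / 3 * (1 / 4) ^ n) := by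
    intro n t i
    have h1 := Bd.tsum (hV2 i) (fun j => hv (j + n) t i)
      (((summable_nat_add_iff n).2 hgeo).mul_left (r / 4))
    have h2 : ∑' j : ℕ, r / 4 * ((1 : ℝ) / 4) ^ (j + n) = r / 3 * (1 / 4) ^ n := by
      simp_rw [pow_add, ← mul_assoc]
      rw [tsum_mul_right, tsum_mul_left, tsum_geometric_of_lt_one (by norm_num) (by norm_num)]
      norm_num; ring
    rw [h2] at h1
    refine h1.congr fun x => ?_
    have hs : Summable fun n => u (n + 1) t i x - u n t i x :=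
      Summable.of_norm_bounded (hgeo.mul_left (r / 4)) fun n => (hv n t i).norm_le (hV2 i) x
    simp only [hw]
    rw [← hs.sum_add_tsum_nat_add n, Finset.sum_range_sub (fun n => u n t i x)]
    have : u 0 t i x = u0 i x := rfl
    rw [this]; ring
  have hwb : ∀ t, Nd (V (ρ1 / 2)) (w t) u0 r := fun t =>
    (htail 0 t).mono (by rw [pow_zero]; linarith)
  have hun : ∀ n t, Nd (V (ρ1 / 2)) (u n t) u0 r := fun n t =>
    ((main n).1 t _ (by linarith) (by linarith [hdom n t])).mono (by nlinarith [hhalf n])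
  have hGd : ∀ n s i x, ‖G (w s) i x - G (u n s) i x‖ ≤ L * r / (3 * (ρ1 / 2)) * (1 / 4) ^ n := by
    intro n s i x
    refine ((hL 0 (ρ1 / 2) le_rfl (by linarith) (by linarith) _ _ _ (hwb s) (hun n s)
      (htail n s) i).norm_le (hV0 i) x).trans (le_of_eq ?_)
    rw [sub_zero]; field_simp
  have hlim : ∀ c : ℝ, Tendsto (fun n : ℕ => c * ((1 : ℝ) / 4) ^ n) atTop (𝓝 0) := fun c => by
    simpa using (tendsto_pow_atTop_nhds_zero_of_lt_one (by norm_num : (0 : ℝ) ≤ 1 / 4)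
      (by norm_num)).const_mul c
  have hsec : ∀ n i x, Continuous fun s => G (u n s) i x := fun n i x =>
    ((main n).2.1 i).comp (continuous_id.prodMk continuous_const)
  have hwc : ∀ i x, Continuous fun s => G (w s) i x := by
    intro i x
    refine TendstoUniformly.continuous (p := atTop) (F := fun n s => G (u n s) i x) ?_
      (Frequently.of_forall fun n => hsec n i x)
    rw [Metric.tendstoUniformly_iff]
    intro ε hε
    filter_upwards [(hlim (L * r / (3 * (ρ1 / 2)))).eventually (gt_mem_nhds hε)] with n hn s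
    rw [dist_eq_norm]
    exact (hGd n s i x).trans_lt hn
  refine ⟨T, hTpos, w, hwb, hwc, fun t ht i x => ?_⟩
  rw [← sub_eq_zero, ← norm_le_zero_iff]
  refine ge_of_tendsto' (hlim (r / 12 + L * r / (3 * (ρ1 / 2)) * T)) fun n => ?_
  have e1 : u (n + 1) t i x = u0 i x + ∫ s in (0 : ℝ)..t, G (u n s) i x := by
    change (u0 i x + ∫ s in (0 : ℝ)..cl T t, G (u n s) i x) = _
    rw [cl_eq ht]
  have e2 : w t i x - (u0 i x + ∫ s in (0 : ℝ)..t, G (w s) i x) =
      (w t i x - u (n + 1) t i x) - ∫ s in (0 : ℝ)..t, (G (w s) i x - G (u n s) i x) := by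
    rw [intervalIntegral.integral_sub ((hwc i x).intervalIntegrable _ _)
      ((hsec n i x).intervalIntegrable _ _), e1]; ring
  have h1 := (htail (n + 1) t i).norm_le (hV2 i) x
  have h2 : ‖∫ s in (0 : ℝ)..t, (G (w s) i x - G (u n s) i x)‖ ≤
      L * r / (3 * (ρ1 / 2)) * (1 / 4) ^ n * |t - 0| :=
    intervalIntegral.norm_integral_le_of_norm_le_const fun s _ => hGd n s i x
  rw [sub_zero, abs_of_nonneg ht.1] at h2
  have h3 : L * r / (3 * (ρ1 / 2)) * (1 / 4) ^ n * t ≤ L * r / (3 * (ρ1 / 2)) * (1 / 4) ^ n * T :=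
    mul_le_mul_of_nonneg_left ht.2 (by positivity)
  rw [e2]
  refine (norm_sub_le _ _).trans ?_
  rw [pow_succ] at h1
  linarith

end Pool.Agent.Lib.MP_3d41d4_an.CK
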