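import Pool.Agent.Lib.MP_3d41d4_an.CKSym

/-!
Geometric families of kernels, the resolvent, and principal value limits.
-/

open Complex MeasureTheory Filter Topology Set
open scoped Real

namespace Pool.Agent.Lib.MP_3d41d4_an.CK

/-- Symbol bounds for `K β ^ n` with geometric growth. -/
def Geo (W : ℤ → ℝ) (β : ℝ → ℝ → ℂ) (C : ℝ) (K : ℝ → ℝ → ℂ) (M : ℝ) : Prop :=
  ∀ n : ℕ, SB W (fun x t => K x t * β x t ^ n) (M * C ^ n)

variable {W : ℤ → ℝ} {β K : ℝ → ℝ → ℂ} {C M N r : ℝ} {f : ℝ → ℂ}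

theorem Geo.sb (h : Geo W β C K M) : SB W K M := by simpa using h 0

theorem Geo.wle {W' : ℤ → ℝ} (h : Geo W β C K M) (hW : ∀ k, W' k ≤ W k) : Geo W' β C K M :=
  fun n => (h n).wle hW

theorem Geo.mul_dq (hW : Wt W) (h : Geo W β C K M) (hf : Bd (up W) f N) :
    Geo W β C (fun x t => K x t * dq f x t) (M * N) := by
  intro n
  have := ((h n).mul_dq hW hf).mono (N := M * N * C ^ n) (le_of_eq (by ring))
  have e : (fun x t => K x t * dq f x t * β x t ^ n) =
      fun x t => K x t * β x t ^ n * dq f x t := by funext x t; ring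
  rw [e]; exact this

theorem Geo.mul_beta (h : Geo W β C K M) : Geo W β C (fun x t => K x t * β x t) (M * C) := by
  intro n
  have := (h (n + 1)).mono (N := M * C * C ^ n) (le_of_eq (by ring))
  have e : (fun x t => K x t * β x t * β x t ^ n) = fun x t => K x t * β x t ^ (n + 1) := by
    funext x t; ring
  rw [e]; exact this

theorem Geo.pow_dq (hW : Wt W) (h : Geo W β C K M) (hf : Bd (up W) f r) (m : ℕ) :
    Geo W β C (fun x t => K x t * (-(β x t * dq f x t)) ^ m) (M * (C * r) ^ m) := by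
  induction m with
  | zero => simpa using h
  | succ m ih =>
    have h1 := ih.mul_beta.mul_dq hW hf.neg
    have e : (fun x t => K x t * (-(β x t * dq f x t)) ^ (m + 1)) = fun x t =>
        K x t * (-(β x t * dq f x t)) ^ m * β x t * dq (fun x => -f x) x t := by
      funext x t; unfold dq; ring
    rw [e, show M * (C * r) ^ (m + 1) = M * (C * r) ^ m * C * r by ring]
    exact h1

theorem norm_bdq (hW : Wt W) (hβ : ∀ x t, t ≠ 0 → |t| ≤ π → ‖β x t‖ ≤ C)
    (hf : Bd (up W) f r) (hr : C * r ≤ 1 / 2) {x t : ℝ} (h0 : t ≠ 0) (ht : |t| ≤ π) :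
    ‖β x t * dq f x t‖ ≤ 1 / 2 := by
  rw [norm_mul]
  exact (mul_le_mul (hβ x t h0 ht) (hf.norm_dq hW x t) (norm_nonneg _)
    ((norm_nonneg _).trans (hβ x t h0 ht))).trans hr

theorem one_add_ge {z : ℂ} (h : ‖z‖ ≤ 1 / 2) : 1 / 2 ≤ ‖1 + z‖ := by
  have := norm_sub_norm_le (1 : ℂ) (-z)
  rw [norm_one, norm_neg, sub_neg_eq_add] at this
  linarith

theorem Geo.res (hW : Wt W) (h : Geo W β C K M) (hβm : Measurable fun p : ℝ × ℝ => β p.1 p.2)
    (hβ : ∀ x t, t ≠ 0 → |t| ≤ π → ‖β x t‖ ≤ C) (hC : 0 ≤ C) (hf : Bd (up W) f r)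
    (hr : C * r ≤ 1 / 2) : Geo W β C (fun x t => K x t / (1 + β x t * dq f x t)) (2 * M) := by
  intro n
  have hM : 0 ≤ M := h.sb.nonneg
  have hr0 : 0 ≤ C * r := mul_nonneg hC hf.nonneg
  have hg : Summable fun m : ℕ => ((1 : ℝ) / 2) ^ m := summable_geometric_two
  have h1 : ∀ m : ℕ, SB W (fun x t => K x t * (-(β x t * dq f x t)) ^ m * β x t ^ n)
      (M * C ^ n * (1 / 2) ^ m) := fun m => (h.pow_dq hW hf m n).mono (by
        have : (C * r) ^ m ≤ (1 / 2) ^ m := pow_le_pow_left₀ hr0 hr m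
        have h2 : 0 ≤ M * C ^ n := by positivity
        nlinarith)
  refine (SB.tsum hW h1 (hg.mul_left _)
    ((h.sb.meas.div (measurable_const.add (hβm.mul (dq_meas hf.cont)))).mul (hβm.pow_const n))
    (fun ε hε => ?_) fun x t h0 ht => ?_).mono (le_of_eq ?_)
  · obtain ⟨B, hB⟩ := (h n).bdd ε hε
    refine ⟨fun m => B * (1 / 2) ^ m, hg.mul_left _, fun m x t ht => ?_⟩
    rw [mul_right_comm, norm_mul, norm_pow, norm_neg]
    exact mul_le_mul (hB x t ht) (pow_le_pow_left₀ (norm_nonneg _)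
      (norm_bdq hW hβ hf hr (Sd_ne hε ht) ht.2) m) (by positivity)
      ((norm_nonneg _).trans (hB x t ht))
  · have h2 : ‖-(β x t * dq f x t)‖ < 1 := by
      rw [norm_neg]; linarith [norm_bdq hW hβ hf hr (x := x) h0 ht]
    have h3 := ((hasSum_geometric_of_norm_lt_one h2).mul_left (K x t)).mul_right (β x t ^ n)
    rw [sub_neg_eq_add, ← div_eq_mul_inv] at h3
    exact h3
  · rw [tsum_mul_left, tsum_geometric_two]; ring

theorem geo_base (hW : Wt W) {β0 : ℝ → ℂ} (hC : 1 ≤ C)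
    (hβm : Measurable fun p : ℝ × ℝ => β p.1 p.2) (h0 : Bd W β0 C)
    (h1 : ∀ t : ℝ, t ≠ 0 → |t| ≤ π → Bd W (fun x => β x t) C ∧
      Bd W (fun x => (β x t - β0 x) / t) C) :
    Geo W β (2 * C) (fun x t => β x t / t) (28 * C) := by
  have hr : ∀ t : ℝ, t ≠ 0 → |t| ≤ π → ∀ n : ℕ,
      Bd W (fun x => (β x t ^ n - β0 x ^ n) / t) ((2 * C) ^ n) := by
    intro t ht0 ht n
    induction n with
    | zero => exact ((Bd.zero hW).mono (by simp)).congr fun x => by simp
    | succ n ih =>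
      refine ((((h1 t ht0 ht).1.mul hW ih).add hW ((h0.pow hW n).mul hW (h1 t ht0 ht).2)).mono
        ?_).congr fun x => by ring
      have : C ^ n ≤ (2 * C) ^ n := pow_le_pow_left₀ (by linarith) (by linarith) n
      rw [pow_succ]; nlinarith
  intro n
  have a1 := (SB.inv hW).left hW (h0.pow hW (n + 1))
  have a2 := SB.of_bd (K := fun x t => (β x t ^ (n + 1) - β0 x ^ (n + 1)) / t) hW
    (((hβm.pow_const _).sub ((h0.cont.measurable.comp measurable_fst).pow_const _)).div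
      (Complex.measurable_ofReal.comp measurable_snd)) (by positivity)
    fun t ht0 ht => hr t ht0 ht (n + 1)
  have e : (fun (x t : ℝ) => β x t / t * β x t ^ n) = fun (x t : ℝ) =>
      β0 x ^ (n + 1) * (1 / (t : ℂ)) + (β x t ^ (n + 1) - β0 x ^ (n + 1)) / t := by
    funext x t; ring
  rw [e]
  refine (a1.add hW a2).mono ?_
  have h2 : C ^ (n + 1) ≤ (2 * C) ^ (n + 1) := pow_le_pow_left₀ (by linarith) (by linarith) _
  have h3 : 0 ≤ (2 * C) ^ (n + 1) := by positivity
  have h4 : 28 * C * (2 * C) ^ n = 14 * (2 * C) ^ (n + 1) := by ring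
  rw [h4]
  nlinarith [Real.pi_le_four]

/-- The folded principal value integral. -/
noncomputable def pvi (F : ℝ → ℂ) : ℂ := ∫ t in (0 : ℝ)..π, (F t + F (-t))

theorem SB.pv_unif {F : ℝ → ℝ → ℂ} (h : SB W F M) {A : ℝ}
    (hA : ∀ x t, 0 < t → t ≤ π → ‖F x t + F x (-t)‖ ≤ A) :
    TendstoUniformly (fun ε x => ∫ t in Sd ε, F x t) (fun x => pvi (F x)) (𝓝[>] 0) := by
  have hA0 : 0 ≤ A := (norm_nonneg _).trans (hA 0 π Real.pi_pos le_rfl)
  rw [Metric.tendstoUniformly_iff]
  intro δ hδ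
  have hmem : Ioo (0 : ℝ) (min π (δ / (A + 1))) ∈ 𝓝[>] (0 : ℝ) :=
    Ioo_mem_nhdsGT (lt_min Real.pi_pos (by positivity))
  filter_upwards [hmem] with ε hε x
  have hε1 : ε ≤ π := (hε.2.trans_le (min_le_left _ _)).le
  have hi := h.integrable hε.1 x 0
  simp only [ex_zero, mul_one] at hi
  have hme : Measurable fun t => F x t + F x (-t) :=
    (h.meas_sec x).add ((h.meas_sec x).comp measurable_neg)
  have hint : IntervalIntegrable (fun t => F x t + F x (-t)) volume 0 π := by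
    rw [intervalIntegrable_iff_integrableOn_Ioc_of_le Real.pi_pos.le]
    refine Integrable.of_bound hme.aestronglyMeasurable A ?_
    exact (ae_restrict_iff' measurableSet_Ioc).2 (ae_of_all _ fun t ht => hA x t ht.1 ht.2)
  have hi1 : IntervalIntegrable (fun t => F x t + F x (-t)) volume 0 ε :=
    hint.mono_set (by
      rw [uIcc_of_le hε.1.le, uIcc_of_le Real.pi_pos.le]; exact Icc_subset_Icc le_rfl hε1)
  have hi2 : IntervalIntegrable (fun t => F x t + F x (-t)) volume ε π :=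
    hint.mono_set (by
      rw [uIcc_of_le hε1, uIcc_of_le Real.pi_pos.le]; exact Icc_subset_Icc hε.1.le le_rfl)
  rw [integral_Sd hε.1.le hε1 hi, pvi, ← intervalIntegral.integral_add_adjacent_intervals hi1 hi2,
    dist_eq_norm, add_sub_cancel_right]
  have h1 : ‖∫ t in (0 : ℝ)..ε, (F x t + F x (-t))‖ ≤ A * |ε - 0| :=
    intervalIntegral.norm_integral_le_of_norm_le_const fun t ht => by
      rw [uIoc_of_le hε.1.le] at ht
      exact hA x t ht.1 (ht.2.trans hε1)
  rw [sub_zero, abs_of_pos hε.1] at h1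
  have h2 : ε < δ / (A + 1) := hε.2.trans_le (min_le_right _ _)
  rw [lt_div_iff₀ (by positivity)] at h2
  nlinarith [hε.1]

theorem SB.pv_bd {F : ℝ → ℝ → ℂ} (h : SB W F M) {A : ℝ}
    (hA : ∀ x t, 0 < t → t ≤ π → ‖F x t + F x (-t)‖ ≤ A) : Bd W (fun x => pvi (F x)) M := by
  refine Bd.of_unif ?_ (h.pv_unif hA)
  filter_upwards [self_mem_nhdsWithin] with ε hε
  simpa only [ex_zero, mul_one] using h.le ε hε 0

theorem SB.pv_sub_bd {F F' : ℝ → ℝ → ℂ} {W' : ℤ → ℝ} {M1 M2 A A' : ℝ} (h1 : SB W' F M1)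
    (h2 : SB W' F' M2) (h : SB W (fun x t => F x t - F' x t) M)
    (hA : ∀ x t, 0 < t → t ≤ π → ‖F x t + F x (-t)‖ ≤ A)
    (hA' : ∀ x t, 0 < t → t ≤ π → ‖F' x t + F' x (-t)‖ ≤ A') :
    Bd W (fun x => pvi (F x) - pvi (F' x)) M := by
  refine Bd.of_unif (l := 𝓝[>] 0)
    (F := fun ε x => (∫ t in Sd ε, F x t) - ∫ t in Sd ε, F' x t) ?_
    ((h1.pv_unif hA).sub (h2.pv_unif hA'))
  filter_upwards [self_mem_nhdsWithin] with ε hε
  have := h.le ε hε 0
  simp only [ex_zero, mul_one] at this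
  refine this.congr fun x => ?_
  have i1 := h1.integrable hε x 0
  have i2 := h2.integrable hε x 0
  simp only [ex_zero, mul_one] at i1 i2
  exact (integral_sub i1 i2).symm

/-- Second order Taylor bound for difference quotients. -/
theorem Bd.dq_sub (hW : Wt W) (hf : Bd (up (up W)) f M) (x t : ℝ) (ht : t ≠ 0) :
    ‖dq f x t - _root_.deriv f x‖ ≤ M * |t| := by
  have hd1 := hf.deriv hW.up
  have hd : ∀ s ∈ Metric.closedBall (0 : ℝ) |t|,
      HasDerivWithinAt (fun s : ℝ => f x - f (x - s) - s * _root_.deriv f x)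
        (_root_.deriv f (x - s) - _root_.deriv f x) (Metric.closedBall (0 : ℝ) |t|) s := by
    intro s _
    have e2 : HasDerivAt (fun s : ℝ => f (x - s)) (-_root_.deriv f (x - s)) s :=
      (hf.differentiable hW.up (x - s)).hasDerivAt.comp_const_sub x s
    have e3 : HasDerivAt (fun s : ℝ => (s : ℂ) * _root_.deriv f x) (_root_.deriv f x) s := by
      simpa using (Complex.ofRealCLM.hasDerivAt (x := s)).mul_const (_root_.deriv f x)
    have := (e2.const_sub (f x)).sub e3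
    rw [neg_neg] at this
    exact this.hasDerivWithinAt
  have hb : ∀ s ∈ Metric.closedBall (0 : ℝ) |t|,
      ‖_root_.deriv f (x - s) - _root_.deriv f x‖ ≤ M * |t| := by
    intro s hs
    refine (hd1.lip hW _ _).trans (mul_le_mul_of_nonneg_left ?_ hf.nonneg)
    simpa using hs
  have h1 := (convex_closedBall (0 : ℝ) |t|).norm_image_sub_le_of_norm_hasDerivWithin_le hd hb
    (Metric.mem_closedBall_self (abs_nonneg t)) (by simp : t ∈ Metric.closedBall (0 : ℝ) |t|)
  have h2 : ‖f x - f (x - t) - t * _root_.deriv f x‖ ≤ M * |t| * |t| := by simpa using h1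
  have hc : (t : ℂ) ≠ 0 := by exact_mod_cast ht
  have e : dq f x t - _root_.deriv f x = (f x - f (x - t) - t * _root_.deriv f x) / t := by
    unfold dq; field_simp
  rw [e, norm_div, Complex.norm_real, Real.norm_eq_abs, div_le_iff₀ (abs_pos.2 ht)]
  exact h2

end Pool.Agent.Lib.MP_3d41d4_an.CK
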