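import Mathlib

/-!
Definitions used in the statement: the analytic classes, the periodised Biot-Savart kernel,
analytic vortex sheets and classical Navier-Stokes solutions on the cylinder.
-/

open MeasureTheory Set Filter Topology Real

namespace Pool.Agent.Lib.MP_3d41d4_an

/-- The `k`-th Fourier coefficient of a `2π`-periodic function. -/
noncomputable def fc (f : ℝ → ℂ) (k : ℤ) : ℂ :=
  (1 / (2 * (π : ℂ))) * ∫ x in (0 : ℝ)..(2 * π), f x * Complex.exp (-((k : ℂ) * (x : ℂ) * Complex.I))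

/-- `f` is a continuous `2π`-periodic real function lying in `X_ρ` with norm at most `M`. -/
def InX (ρ M : ℝ) (f : ℝ → ℝ) : Prop :=
  Continuous f ∧ Function.Periodic f (2 * π) ∧
    Summable (fun k : ℤ => ‖fc (fun x => (f x : ℂ)) k‖ * Real.exp (ρ * |(k : ℝ)|)) ∧
    ∑' k : ℤ, ‖fc (fun x => (f x : ℂ)) k‖ * Real.exp (ρ * |(k : ℝ)|) ≤ M

/-- First component of the `2π`-periodised Biot-Savart kernel at the displacement `(a, b)`. -/
noncomputable def K1 (a b : ℝ) : ℝ := -Real.sinh b / (4 * π * (Real.cosh b - Real.cos a))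

/-- Second component of the `2π`-periodised Biot-Savart kernel at the displacement `(a, b)`. -/
noncomputable def K2 (a b : ℝ) : ℝ := Real.sin a / (4 * π * (Real.cosh b - Real.cos a))

/-- `u` is the principal value at `x` of the integral of `F` over the period `[x - π, x + π]`. -/
def IsPV (F : ℝ → ℝ) (x u : ℝ) : Prop :=
  Tendsto (fun ε : ℝ => (∫ x' in (x - π)..(x - ε), F x') + ∫ x' in (x + ε)..(x + π), F x')
    (𝓝[>] 0) (𝓝 u)

/-- `(φ, γ)` (functions of `t, x`) solves the Birkhoff-Rott equations on `[0, T]`. -/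
def SolvesBR (T : ℝ) (φ γ : ℝ → ℝ → ℝ) : Prop :=
  ∃ u₁ u₂ : ℝ → ℝ → ℝ, ∀ t ∈ Icc 0 T, ∀ x : ℝ,
    IsPV (fun x' => K1 (x - x') (φ t x - φ t x') * γ t x') x (u₁ t x) ∧
    IsPV (fun x' => K2 (x - x') (φ t x - φ t x') * γ t x') x (u₂ t x) ∧
    HasDerivWithinAt (fun s => φ s x) (u₂ t x - u₁ t x * deriv (φ t) x) (Icc 0 T) t ∧
    HasDerivWithinAt (fun s => γ s x) (-deriv (fun y => u₁ t y * γ t y) x) (Icc 0 T) t

/-- One period of the cylinder. -/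
def cyl : Set (ℝ × ℝ) := Ioc 0 (2 * π) ×ˢ univ

/-- A continuous compactly supported function on the cylinder. -/
structure IsTest (η : ℝ → ℝ → ℝ) : Prop where
  cont : Continuous fun p : ℝ × ℝ => η p.1 p.2
  per : ∀ x y, η (x + 2 * π) y = η x y
  supp : ∃ R : ℝ, ∀ x y, R ≤ |y| → η x y = 0

/-- `ω` (a function of `t, x, y`) with velocity `(u, v)` is a classical solution on `(0, T)` of the
Navier-Stokes equations in vorticity form with viscosity `ν` on the cylinder whose initial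
vorticity is the sheet measure `γ₀(x) δ(y - φ₀(x))`. -/
structure IsNS (ν T : ℝ) (φ₀ γ₀ : ℝ → ℝ) (ω u v : ℝ → ℝ → ℝ → ℝ) : Prop where
  per : ∀ t ∈ Ioo 0 T, ∀ x y, ω t (x + 2 * π) y = ω t x y
  smooth_ω : ContDiffOn ℝ 2 (fun p : ℝ × ℝ × ℝ => ω p.1 p.2.1 p.2.2) (Ioo 0 T ×ˢ univ)
  smooth_u : ContDiffOn ℝ 1 (fun p : ℝ × ℝ × ℝ => u p.1 p.2.1 p.2.2) (Ioo 0 T ×ˢ univ)
  smooth_v : ContDiffOn ℝ 1 (fun p : ℝ × ℝ × ℝ => v p.1 p.2.1 p.2.2) (Ioo 0 T ×ˢ univ)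
  pde : ∀ t ∈ Ioo 0 T, ∀ x y,
    deriv (fun s => ω s x y) t + u t x y * deriv (fun x' => ω t x' y) x
        + v t x y * deriv (fun y' => ω t x y') y
      = ν * (deriv (deriv fun x' => ω t x' y) x + deriv (deriv fun y' => ω t x y') y)
  div_free : ∀ t ∈ Ioo 0 T, ∀ x y,
    deriv (fun x' => u t x' y) x + deriv (fun y' => v t x y') y = 0
  curl : ∀ t ∈ Ioo 0 T, ∀ x y,
    deriv (fun x' => v t x' y) x - deriv (fun y' => u t x y') y = ω t x y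
  biot : ∀ t ∈ Ioo 0 T, ∀ x y,
    IntegrableOn (fun p : ℝ × ℝ => K1 (x - p.1) (y - p.2) * ω t p.1 p.2) cyl ∧
    IntegrableOn (fun p : ℝ × ℝ => K2 (x - p.1) (y - p.2) * ω t p.1 p.2) cyl ∧
    u t x y = ∫ p in cyl, K1 (x - p.1) (y - p.2) * ω t p.1 p.2 ∧
    v t x y = ∫ p in cyl, K2 (x - p.1) (y - p.2) * ω t p.1 p.2
  mass : ∃ A : ℝ, ∀ t ∈ Ioo 0 T,
    IntegrableOn (fun p : ℝ × ℝ => ω t p.1 p.2) cyl ∧ ∫ p in cyl, |ω t p.1 p.2| ≤ A
  bdd : ∀ t ∈ Ioo 0 T, ∃ B : ℝ, ∀ x y, |ω t x y| ≤ B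
  vel : ∀ ε > 0, ∃ D : ℝ, ∀ t ∈ Ioo 0 T, ∀ x y,
    |u t x y| ≤ ε / √t + D ∧ |v t x y| ≤ ε / √t + D
  init : ∀ η, IsTest η →
    Tendsto (fun t => ∫ p in cyl, η p.1 p.2 * ω t p.1 p.2) (𝓝[>] 0)
      (𝓝 (∫ x in (0 : ℝ)..(2 * π), η x (φ₀ x) * γ₀ x))

end Pool.Agent.Lib.MP_3d41d4_an
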