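import Pool.Agent.Lib.MP_3d41d4_an.CKVec
import Pool.Agent.Lib.MP_3d41d4_an.Stmt

/-!
Local existence of a uniformly bounded analytic solution of the Birkhoff-Rott equations for
arbitrary analytic data.
-/

open Complex MeasureTheory Filter Topology Set
open scoped Real

namespace Pool.Agent.Lib.MP_3d41d4_an.CK

theorem fc_eq (f : ℝ → ℂ) (k : ℤ) : fc f k = coef f k := by
  unfold fc coef ee
  congr 2; funext x
  congr 2; push_cast; ring

theorem bd_of_inX {ρ M : ℝ} {f : ℝ → ℝ} (h : InX ρ M f) : Bd (wt ρ) (fun x => (f x : ℂ)) M := by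
  obtain ⟨h1, h2, h3, h4⟩ := h
  refine ⟨Complex.continuous_ofReal.comp h1, fun x => by simp only [h2 x], fun S => ?_⟩
  refine le_trans (le_of_eq ?_) ((h3.sum_le_tsum S fun k _ => by positivity).trans h4)
  exact Finset.sum_congr rfl fun k _ => by rw [fc_eq, wt, mul_comm]

theorem inX_of_bd {ρ M : ℝ} (hρ : 0 ≤ ρ) {f : ℝ → ℝ} (h : Bd (wt ρ) (fun x => (f x : ℂ)) M) :
    InX ρ M f := by
  have e : (fun k : ℤ => ‖fc (fun x => (f x : ℂ)) k‖ * Real.exp (ρ * |(k : ℝ)|)) =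
      fun k => wt ρ k * ‖coef (fun x => (f x : ℂ)) k‖ := by
    funext k; rw [fc_eq, wt, mul_comm]
  refine ⟨?_, fun x => ?_, ?_, ?_⟩
  · have : Continuous fun x => ((f x : ℂ)).re := Complex.continuous_re.comp h.cont
    simpa using this
  · exact_mod_cast h.per x
  · rw [e]; exact h.summable (wt_Wt hρ)
  · rw [e]; exact h.tsum_le (wt_Wt hρ)

theorem Sd_ii {g : ℝ → ℂ} {ε : ℝ} (h0 : 0 ≤ ε) (hε : ε ≤ π) (h1 : IntegrableOn g (Sd ε)) :
    IntervalIntegrable g volume ε π ∧ IntervalIntegrable (fun t => g (-t)) volume ε π := by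
  have s1 : Ioc ε π ⊆ Sd ε := fun t ht => by
    have : 0 ≤ t := h0.trans ht.1.le
    exact ⟨by rw [abs_of_nonneg this]; exact ht.1, by rw [abs_of_nonneg this]; exact ht.2⟩
  have s2 : Ico (-π) (-ε) ⊆ Sd ε := fun t ht => by
    have : t ≤ 0 := by linarith [ht.2]
    exact ⟨by rw [abs_of_nonpos this]; linarith [ht.2], by rw [abs_of_nonpos this]; linarith [ht.1]⟩
  refine ⟨(intervalIntegrable_iff_integrableOn_Ioc_of_le hε).2 (h1.mono_set s1), ?_⟩
  have i2 : IntervalIntegrable g volume (-π) (-ε) :=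
    (intervalIntegrable_iff_integrableOn_Ico_of_le (by linarith)).2 (h1.mono_set s2)
  have := (IntervalIntegrable.iff_comp_neg (f := g) (a := -π) (b := -ε)).1 i2
  simpa using this.symm

theorem isPV_of {W : ℤ → ℝ} {F : ℝ → ℝ → ℂ} {M A : ℝ} (h : SB W F M)
    (hA : ∀ x t, 0 < t → t ≤ π → ‖F x t + F x (-t)‖ ≤ A) (ℓ : ℂ →L[ℝ] ℝ) (x : ℝ) {G : ℝ → ℝ}
    (hG : ∀ t, t ≠ 0 → |t| ≤ π → ℓ (F x t) = G (x - t)) : IsPV G x (ℓ (pvi (F x))) := by
  have h1 := (ℓ.continuous.tendsto _).comp ((h.pv_unif hA).tendsto_at x)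
  refine h1.congr' ?_
  filter_upwards [Ioo_mem_nhdsGT Real.pi_pos] with ε hε
  have hi := h.integrable hε.1 x 0
  simp only [ex_zero, mul_one] at hi
  obtain ⟨i1, i2⟩ := Sd_ii hε.1.le hε.2.le hi
  have hpos : ∀ t ∈ uIcc ε π, 0 < t ∧ t ≤ π := fun t ht => by
    rw [uIcc_of_le hε.2.le] at ht; exact ⟨hε.1.trans_le ht.1, ht.2⟩
  simp only [Function.comp]
  rw [integral_Sd hε.1.le hε.2.le hi, intervalIntegral.integral_add i1 i2, map_add,
    ← ℓ.intervalIntegral_comp_comm i1, ← ℓ.intervalIntegral_comp_comm i2,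
    ← intervalIntegral.integral_comp_sub_left G x, ← intervalIntegral.integral_comp_add_left G x]
  congr 1
  · exact intervalIntegral.integral_congr fun t ht =>
      hG t (hpos t ht).1.ne' (by rw [abs_of_pos (hpos t ht).1]; exact (hpos t ht).2)
  · refine intervalIntegral.integral_congr fun t ht => ?_
    have := hG (-t) (neg_ne_zero.2 (hpos t ht).1.ne')
      (by rw [abs_neg, abs_of_pos (hpos t ht).1]; exact (hpos t ht).2)
    rwa [sub_neg_eq_add] at this

theorem kernel_eq {a b x t : ℝ} (h0 : t ≠ 0) (ht : |t| ≤ π) :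
    (1 / (4 * π) : ℂ) * ((ee 1 x * (Real.exp (-a) : ℝ) + ee 1 (x - t) * (Real.exp (-b) : ℝ)) /
      (ee 1 x * (Real.exp (-a) : ℝ) - ee 1 (x - t) * (Real.exp (-b) : ℝ))) =
      (K1 t (a - b) : ℝ) - I * (K2 t (a - b) : ℝ) := by
  have hne : ee 1 x * (Real.exp (-a) : ℝ) - ee 1 (x - t) * (Real.exp (-b) : ℝ) ≠ 0 := by
    have h1 := curve_low (x := x) (m := min (Real.exp (-a)) (Real.exp (-b)))
      (lt_min (Real.exp_pos _) (Real.exp_pos _)) (min_le_left _ _) (min_le_right _ _) ht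
    refine norm_pos_iff.1 (lt_of_lt_of_le ?_ h1)
    exact mul_pos (by linarith [lt_min (Real.exp_pos (-a)) (Real.exp_pos (-b))]) (abs_pos.2 h0)
  have hden : Real.cosh (a - b) - Real.cos t ≠ 0 := by
    have h1 := Real.cos_le_one_sub_mul_cos_sq ht
    have h2 : 0 < 2 / π ^ 2 * t ^ 2 := by positivity
    linarith [Real.one_le_cosh (a - b)]
  have hdenC : ((Real.cosh (a - b) - Real.cos t : ℝ) : ℂ) ≠ 0 := by exact_mod_cast hden
  have hπ : (π : ℂ) ≠ 0 := by exact_mod_cast Real.pi_ne_zero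
  have e1 : ee 1 x = ee 1 (x - t) * ee 1 t := by rw [← ee_add_arg, sub_add_cancel]
  have e2 : ee 1 t = (Real.cos t : ℝ) + (Real.sin t : ℝ) * I := by
    unfold ee; rw [Int.cast_one, one_mul, Complex.exp_mul_I]; push_cast; ring
  have e3 : Real.exp (-b) = Real.exp (-a) * Real.exp (a - b) := by
    rw [← Real.exp_add]; congr 1; ring
  have key : (ee 1 x * (Real.exp (-a) : ℝ) + ee 1 (x - t) * (Real.exp (-b) : ℝ)) *
      ((Real.cosh (a - b) - Real.cos t : ℝ) : ℂ) =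
      (ee 1 x * (Real.exp (-a) : ℝ) - ee 1 (x - t) * (Real.exp (-b) : ℝ)) *
        (((-Real.sinh (a - b) : ℝ) : ℂ) - I * (Real.sin t : ℝ)) := by
    have c1 : ((Real.cos t : ℝ) : ℂ) ^ 2 + ((Real.sin t : ℝ) : ℂ) ^ 2 = 1 := by
      exact_mod_cast Real.cos_sq_add_sin_sq t
    have c2 : ((Real.exp (a - b) : ℝ) : ℂ) =
        ((Real.cosh (a - b) : ℝ) : ℂ) + ((Real.sinh (a - b) : ℝ) : ℂ) := by
      exact_mod_cast (Real.cosh_add_sinh (a - b)).symm
    have c3 : ((Real.cosh (a - b) : ℝ) : ℂ) ^ 2 - ((Real.sinh (a - b) : ℝ) : ℂ) ^ 2 = 1 := by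
      exact_mod_cast Real.cosh_sq_sub_sinh_sq (a - b)
    rw [e1, e2, e3, Complex.ofReal_mul, c2, Complex.ofReal_sub, Complex.ofReal_neg]
    generalize ((Real.cos t : ℝ) : ℂ) = c at c1 ⊢
    generalize ((Real.sin t : ℝ) : ℂ) = s at c1 ⊢
    generalize ((Real.cosh (a - b) : ℝ) : ℂ) = ch at c3 ⊢
    generalize ((Real.sinh (a - b) : ℝ) : ℂ) = sh at c3 ⊢
    generalize ((Real.exp (-a) : ℝ) : ℂ) = E
    generalize ee 1 (x - t) = z
    linear_combination (z * E) * c3 - (z * E) * c1 + (z * E * s ^ 2) * Complex.I_sq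
  have e4 : (ee 1 x * (Real.exp (-a) : ℝ) + ee 1 (x - t) * (Real.exp (-b) : ℝ)) /
      (ee 1 x * (Real.exp (-a) : ℝ) - ee 1 (x - t) * (Real.exp (-b) : ℝ)) =
      (((-Real.sinh (a - b) : ℝ) : ℂ) - I * (Real.sin t : ℝ)) /
        ((Real.cosh (a - b) - Real.cos t : ℝ) : ℂ) := by
    rw [div_eq_div_iff hne hdenC, key, mul_comm]
  rw [e4, K1, K2, Complex.ofReal_div, Complex.ofReal_div, Complex.ofReal_mul]
  generalize ((Real.cosh (a - b) - Real.cos t : ℝ) : ℂ) = D at hdenC ⊢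
  push_cast
  field_simp

theorem hasDeriv_of_int {T c : ℝ} {f g : ℝ → ℝ} (hg : Continuous g)
    (h : ∀ s ∈ Icc 0 T, f s = c + ∫ σ in (0 : ℝ)..s, g σ) {t : ℝ} (ht : t ∈ Icc 0 T) :
    HasDerivWithinAt f (g t) (Icc 0 T) t :=
  (((hg.integral_hasStrictDerivAt 0 t).hasDerivAt.const_add c).hasDerivWithinAt).congr h (h t ht)

end Pool.Agent.Lib.MP_3d41d4_an.CK

namespace Pool.Agent.Lib.MP_3d41d4_an

open CK

theorem exists_BR {ρ₀ M₀ : ℝ} (hρ : 0 < ρ₀) {φ₀ γ₀ : ℝ → ℝ} (hφ : InX ρ₀ M₀ φ₀)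
    (hγ : InX ρ₀ M₀ γ₀) :
    ∃ T > 0, ∃ ρ > 0, ∃ M : ℝ, ∃ φ γ : ℝ → ℝ → ℝ, φ 0 = φ₀ ∧ γ 0 = γ₀ ∧
      (∀ t ∈ Icc 0 T, InX ρ M (φ t) ∧ InX ρ M (γ t)) ∧ SolvesBR T φ γ := by
  have hφ' := bd_of_inX hφ
  obtain ⟨σ, C, M0, Q, r, hr, hσρ, hD, P, hP, hrP⟩ := exists_dat hρ hφ' (bd_of_inX hγ)
  obtain ⟨T, hT, u, hball, hcont, hint⟩ := hD.exists_sol hr
  have hσ := hD.pos
  set ρ := σ / 2 / 2 with hρdef
  have hρ0 : 0 < ρ := by linarith
  have hρσ : ρ ≤ σ := by linarith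
  have hW := wt_Wt hρ0.le
  have hgc : ∀ i x, Continuous fun s => (GG (u s) i x).re := fun i x =>
    Complex.continuous_re.comp (hcont i x)
  have hgr : ∀ v i x, GG v i x = ((GG v i x).re : ℂ) := by
    intro v i x; cases i <;> simp only [GG, Complex.ofReal_re]
  have hreal : ∀ t ∈ Icc 0 T, ∀ i x, u t i x =
      (((bif i then Real.exp (-φ₀ x) else γ₀ x) + ∫ s in (0 : ℝ)..t, (GG (u s) i x).re : ℝ) : ℂ) := by
    intro t ht i x
    rw [hint t ht i x, Complex.ofReal_add, ← intervalIntegral.integral_ofReal]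
    congr 1
    · cases i <;> rfl
    · exact intervalIntegral.integral_congr fun s _ => hgr _ _ _
  set p : ℝ → ℝ → ℝ := fun t x => (u t true x).re with hp
  set γ : ℝ → ℝ → ℝ := fun t x => (u t false x).re with hγd
  have hpi : ∀ t ∈ Icc 0 T, ∀ x,
      p t x = Real.exp (-φ₀ x) + ∫ s in (0 : ℝ)..t, (GG (u s) true x).re := by
    intro t ht x
    simp only [hp]; rw [hreal t ht, Complex.ofReal_re]; rfl
  have hγi : ∀ t ∈ Icc 0 T, ∀ x, γ t x = γ₀ x + ∫ s in (0 : ℝ)..t, (GG (u s) false x).re := by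
    intro t ht x
    simp only [hγd]; rw [hreal t ht, Complex.ofReal_re]; rfl
  have hup : ∀ t ∈ Icc 0 T, ∀ x, u t true x = (p t x : ℂ) := fun t ht x => by
    rw [hpi t ht, hreal t ht]; rfl
  have huγ : ∀ t ∈ Icc 0 T, ∀ x, u t false x = (γ t x : ℂ) := fun t ht x => by
    rw [hγi t ht, hreal t ht]; rfl
  have h0T : (0 : ℝ) ∈ Icc 0 T := ⟨le_rfl, hT.le⟩
  -- the logarithm
  set q : ℝ → ℝ → ℝ := fun t x => (p t x - Real.exp (-φ₀ x)) * Real.exp (φ₀ x) with hq
  have hqb : ∀ t ∈ Icc 0 T, Bd (wt ρ) (fun x => (q t x : ℂ)) (1 / 2) := by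
    intro t ht
    have a : Bd (up (wt ρ)) (fun x => u t true x - (Real.exp (-φ₀ x) : ℂ)) r := hball t true
    refine (((a.down hW).mul hW (hP.wle (wt_mono hρσ))).mono hrP).congr fun x => ?_
    rw [hup t ht]; simp only [hq]; push_cast; ring
  have hq1 : ∀ t ∈ Icc 0 T, ∀ x, 0 < 1 + q t x := fun t ht x => by
    have := (hqb t ht).norm_le hW x
    rw [Complex.norm_real, Real.norm_eq_abs] at this
    linarith [neg_abs_le (q t x)]
  have hpq : ∀ t x, p t x = Real.exp (-φ₀ x) * (1 + q t x) := fun t x => by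
    have : Real.exp (-φ₀ x) * Real.exp (φ₀ x) = 1 := by rw [← Real.exp_add]; simp
    simp only [hq]
    linear_combination (-(p t x - Real.exp (-φ₀ x))) * this
  have hppos : ∀ t ∈ Icc 0 T, ∀ x, 0 < p t x := fun t ht x => by
    rw [hpq]; exact mul_pos (Real.exp_pos _) (hq1 t ht x)
  set φ : ℝ → ℝ → ℝ := fun t x => -Real.log (p t x) with hφd
  have hexp : ∀ t ∈ Icc 0 T, ∀ x, Real.exp (-φ t x) = p t x := fun t ht x => by
    simp only [hφd, neg_neg]; exact Real.exp_log (hppos t ht x)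
  refine ⟨T, hT, ρ, hρ0, M₀ + 2 + (Q + 1), φ, γ, ?_, ?_, fun t ht => ⟨?_, ?_⟩,
    fun t x => (BB (u t) x).re, fun t x => -(BB (u t) x).im, fun t ht x => ?_⟩
  · funext x
    simp only [hφd]; rw [hpi 0 h0T]; simp
  · funext x
    rw [hγi 0 h0T]; simp
  · refine inX_of_bd hρ0.le ((((hφ'.wle (wt_mono (hρσ.trans hσρ))).sub hW
      ((hqb t ht).log hW)).mono (by linarith [(hD.bd true).nonneg])).congr fun x => ?_)
    simp only [hφd]
    rw [hpq, Real.log_mul (Real.exp_pos _).ne' (hq1 t ht x).ne', Real.log_exp, Complex.ofReal_neg,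
      Complex.ofReal_add, Complex.ofReal_log (hq1 t ht x).le]
    push_cast; ring
  · refine inX_of_bd hρ0.le (((hD.state hρ0.le hρσ (hball t) false).mono
      (by linarith [hφ'.nonneg])).congr fun x => (huγ t ht x).symm)
  obtain ⟨A, hA⟩ := hD.fold hρ0 hρσ (hball t)
  have hSB := hD.FK_sb hρ0.le hρσ (hball t)
  have hFK : ∀ s, s ≠ 0 → |s| ≤ π → FK (cw (u t)) (u t false) x s =
      ((K1 s (φ t x - φ t (x - s)) : ℝ) - I * (K2 s (φ t x - φ t (x - s)) : ℝ)) *
        (γ t (x - s) : ℝ) := by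
    intro s h0 hs
    rw [← kernel_eq (x := x) h0 hs, hexp t ht, hexp t ht, ← hup t ht, ← hup t ht, ← huγ t ht]
    unfold FK cw; ring
  have hpd : HasDerivAt (p t) (deriv (p t) x) x := by
    have d1 := Bd.differentiable hW (hD.state hρ0.le hρσ (hball t) true) x
    exact (Complex.reCLM.differentiableAt.comp x d1).hasDerivAt
  have hud : deriv (u t true) x = ((deriv (p t) x : ℝ) : ℂ) := by
    rw [show u t true = fun y => (p t y : ℂ) from funext (hup t ht)]
    exact hpd.ofReal_comp.deriv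
  refine ⟨?_, ?_, ?_, ?_⟩
  · refine isPV_of hSB hA Complex.reCLM x fun s h0 hs => ?_
    rw [hFK s h0 hs, sub_sub_cancel]; simp
  · refine isPV_of hSB hA (-Complex.imCLM) x fun s h0 hs => ?_
    rw [hFK s h0 hs, sub_sub_cancel]; simp
  · have d1 := hasDeriv_of_int (hgc true x) (fun s hs => hpi s hs x) ht
    have d2 := (d1.log (hppos t ht x).ne').neg
    have d3 : deriv (φ t) x = -(deriv (p t) x / p t x) := (hpd.log (hppos t ht x).ne').neg.deriv
    have e : -((GG (u t) true x).re / p t x) =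
        -(BB (u t) x).im - (BB (u t) x).re * deriv (φ t) x := by
      have := (hppos t ht x).ne'
      simp only [GG, Complex.ofReal_re]
      rw [d3, hud, hup t ht]
      simp only [Complex.mul_im, Complex.sub_re, Complex.sub_im, Complex.ofReal_re,
        Complex.ofReal_im, Complex.mul_re, Complex.I_re, Complex.I_im]
      field_simp
      ring
    rw [e] at d2
    exact d2
  · have d1 := hasDeriv_of_int (hgc false x) (fun s hs => hγi s hs x) ht
    have d2 := (((hD.flux_bd hρ0 hρσ (hball t)).cauchy (ρ := 0) hρ0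
      (by linarith [hD.le1])).differentiable (wt_Wt le_rfl) x).hasDerivAt
    have d3 := Complex.reCLM.hasFDerivAt.comp_hasDerivAt x d2
    have e1 : (Complex.reCLM ∘ fun y => u t false y * BB (u t) y) =
        fun y => (BB (u t) y).re * γ t y := by
      funext y
      simp only [Function.comp, Complex.reCLM_apply]
      rw [huγ t ht]; simp [mul_comm]
    rw [e1] at d3
    have e : (GG (u t) false x).re = -deriv (fun y => (BB (u t) y).re * γ t y) x := by
      rw [d3.deriv]; simp [GG]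
    rw [e] at d1
    exact d1

end Pool.Agent.Lib.MP_3d41d4_an
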