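import Pool.Agent.Lib.MP_3d41d4_an.CKGeo

/-!
The Birkhoff-Rott operator near a fixed analytic curve.
-/

open Complex MeasureTheory Filter Topology Set
open scoped Real

namespace Pool.Agent.Lib.MP_3d41d4_an.CK

/-- Inverse difference quotient. -/
noncomputable def bq (w : ℝ → ℂ) (x t : ℝ) : ℂ := (t : ℂ) / (w x - w (x - t))

/-- The Cauchy kernel. -/
noncomputable def Rk (w : ℝ → ℂ) (x t : ℝ) : ℂ := 1 / (w x - w (x - t))

/-- The integrand of the Birkhoff-Rott operator. -/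
noncomputable def FK (w g : ℝ → ℂ) (x t : ℝ) : ℂ :=
  (1 / (4 * π) : ℂ) * ((w x + w (x - t)) / (w x - w (x - t)) * g (x - t))

/-- The Birkhoff-Rott operator. -/
noncomputable def Bop (w g : ℝ → ℂ) (x : ℝ) : ℂ := pvi (FK w g x)

/-- Data of the reference curve. -/
structure Base (W : ℤ → ℝ) (w0 : ℝ → ℂ) (C M0 : ℝ) : Prop where
  wt : Wt W
  cont : Continuous w0
  C0 : 0 ≤ C
  ne : ∀ x t, t ≠ 0 → |t| ≤ π → w0 x - w0 (x - t) ≠ 0
  le : ∀ x t, t ≠ 0 → |t| ≤ π → ‖bq w0 x t‖ ≤ C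
  geo : Geo W (bq w0) C (fun x t => bq w0 x t / t) M0

variable {W : ℤ → ℝ} {w0 w w' g g' : ℝ → ℂ} {C M0 r d : ℝ}

theorem sub_meas (hw : Continuous w) : Measurable fun p : ℝ × ℝ => w p.1 - w (p.1 - p.2) :=
  (hw.measurable.comp measurable_fst).sub
    (hw.measurable.comp (measurable_fst.sub measurable_snd))

theorem bq_meas (hw : Continuous w) : Measurable fun p : ℝ × ℝ => bq w p.1 p.2 :=
  (Complex.measurable_ofReal.comp measurable_snd).div (sub_meas hw)

theorem Rk_meas (hw : Continuous w) : Measurable fun p : ℝ × ℝ => Rk w p.1 p.2 :=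
  measurable_const.div (sub_meas hw)

theorem FK_meas (hw : Continuous w) (hg : Continuous g) :
    Measurable fun p : ℝ × ℝ => FK w g p.1 p.2 :=
  ((((hw.measurable.comp measurable_fst).add
    (hw.measurable.comp (measurable_fst.sub measurable_snd))).div (sub_meas hw)).mul
    (hg.measurable.comp (measurable_fst.sub measurable_snd))).const_mul _

theorem Base.cont_of (hb : Base W w0 C M0) (hw : Bd (up W) (fun x => w x - w0 x) r) :
    Continuous w := by
  have h1 : Continuous fun x => (w x - w0 x) + w0 x := hw.cont.add hb.cont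
  simpa using h1

theorem Base.fac (hb : Base W w0 C M0) {x t : ℝ} (h0 : t ≠ 0) (ht : |t| ≤ π) :
    w x - w (x - t) = (w0 x - w0 (x - t)) * (1 + bq w0 x t * dq (fun x => w x - w0 x) x t) := by
  have h1 := hb.ne x t h0 ht
  have hc : (t : ℂ) ≠ 0 := by exact_mod_cast h0
  unfold bq dq
  field_simp
  ring

theorem Base.one_add (hb : Base W w0 C M0) (hw : Bd (up W) (fun x => w x - w0 x) r)
    (hr : C * r ≤ 1 / 2) {x t : ℝ} (h0 : t ≠ 0) (ht : |t| ≤ π) :
    1 / 2 ≤ ‖1 + bq w0 x t * dq (fun x => w x - w0 x) x t‖ :=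
  one_add_ge (norm_bdq hb.wt hb.le hw hr h0 ht)

theorem Base.one_add_ne (hb : Base W w0 C M0) (hw : Bd (up W) (fun x => w x - w0 x) r)
    (hr : C * r ≤ 1 / 2) {x t : ℝ} (h0 : t ≠ 0) (ht : |t| ≤ π) :
    1 + bq w0 x t * dq (fun x => w x - w0 x) x t ≠ 0 :=
  norm_pos_iff.1 (lt_of_lt_of_le (by norm_num) (hb.one_add hw hr h0 ht))

theorem Base.ne' (hb : Base W w0 C M0) (hw : Bd (up W) (fun x => w x - w0 x) r)
    (hr : C * r ≤ 1 / 2) {x t : ℝ} (h0 : t ≠ 0) (ht : |t| ≤ π) : w x - w (x - t) ≠ 0 := by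
  rw [hb.fac h0 ht]
  exact mul_ne_zero (hb.ne x t h0 ht) (hb.one_add_ne hw hr h0 ht)

theorem Base.Rk_eq (hb : Base W w0 C M0) {x t : ℝ} (h0 : t ≠ 0) (ht : |t| ≤ π) :
    Rk w x t = bq w0 x t / t / (1 + bq w0 x t * dq (fun x => w x - w0 x) x t) := by
  have h1 := hb.ne x t h0 ht
  have hc : (t : ℂ) ≠ 0 := by exact_mod_cast h0
  have e : bq w0 x t / t = 1 / (w0 x - w0 (x - t)) := by unfold bq; field_simp
  rw [Rk, hb.fac h0 ht, e, div_div]

theorem Base.bq_le (hb : Base W w0 C M0) (hw : Bd (up W) (fun x => w x - w0 x) r)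
    (hr : C * r ≤ 1 / 2) {x t : ℝ} (h0 : t ≠ 0) (ht : |t| ≤ π) : ‖bq w x t‖ ≤ 2 * C := by
  have e : bq w x t = bq w0 x t / (1 + bq w0 x t * dq (fun x => w x - w0 x) x t) := by
    rw [bq, hb.fac h0 ht, ← div_div]; rfl
  have h1 := hb.one_add hw hr (x := x) h0 ht
  rw [e, norm_div, div_le_iff₀ (by linarith)]
  nlinarith [hb.le x t h0 ht, hb.C0]

theorem Base.Rk_sb (hb : Base W w0 C M0) (hw : Bd (up W) (fun x => w x - w0 x) r)
    (hr : C * r ≤ 1 / 2) : SB W (Rk w) (2 * M0) :=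
  (hb.geo.res hb.wt (bq_meas hb.cont) hb.le hb.C0 hw hr).sb.congr (Rk_meas (hb.cont_of hw))
    fun _ _ h0 ht => hb.Rk_eq h0 ht

theorem Base.Rk_sub (hb : Base W w0 C M0) (hw : Bd (up W) (fun x => w x - w0 x) r)
    (hw' : Bd (up W) (fun x => w' x - w0 x) r) (hr : C * r ≤ 1 / 2)
    (hd : Bd (up W) (fun x => w x - w' x) d) :
    SB W (fun x t => Rk w x t - Rk w' x t) (4 * M0 * C * d) := by
  have h1 := (((hb.geo.res hb.wt (bq_meas hb.cont) hb.le hb.C0 hw hr).res hb.wt (bq_meas hb.cont)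
    hb.le hb.C0 hw' hr).mul_beta.mul_dq hb.wt hd.neg).sb
  refine (h1.mono (le_of_eq (by ring))).congr
    ((Rk_meas (hb.cont_of hw)).sub (Rk_meas (hb.cont_of hw'))) fun x t h0 ht => ?_
  have n1 := hb.one_add_ne hw hr (x := x) h0 ht
  have n2 := hb.one_add_ne hw' hr (x := x) h0 ht
  have e : dq (fun x => -(w x - w' x)) x t =
      dq (fun x => w' x - w0 x) x t - dq (fun x => w x - w0 x) x t := by unfold dq; ring
  rw [hb.Rk_eq h0 ht, hb.Rk_eq h0 ht, e]
  generalize bq w0 x t / t = a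
  field_simp
  ring

theorem norm_c4pi : ‖(1 / (4 * π) : ℂ)‖ ≤ 1 := by
  have : (1 / (4 * π) : ℂ) = ((1 / (4 * π) : ℝ) : ℂ) := by push_cast; ring
  rw [this, Complex.norm_real, Real.norm_of_nonneg (by positivity), div_le_one (by positivity)]
  linarith [Real.two_le_pi]

theorem FK_eq {x t : ℝ} (h : w x - w (x - t) ≠ 0) :
    FK w g x t = (1 / (4 * π) : ℂ) * (1 * g (x - t) + 2 * (Rk w x t * (w (x - t) * g (x - t)))) := by
  unfold FK Rk
  congr 1
  field_simp
  ring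

theorem SB_one (hW : Wt W) : SB W (fun _ _ => 1) 8 :=
  (SB.of_bd hW measurable_const zero_le_one fun _ _ _ => Bd.one hW).mono
    (by linarith [Real.pi_le_four])

theorem Base.FK_sb (hb : Base W w0 C M0) (hw : Bd (up W) (fun x => w x - w0 x) r)
    (hr : C * r ≤ 1 / 2) {Mw Mg : ℝ} (h1 : Bd W w Mw) (h2 : Bd W g Mg) :
    SB W (FK w g) ((8 + 4 * M0 * Mw) * Mg) := by
  have hW := hb.wt
  have a1 := (SB_one hW).mul_shift hW h2
  have a2 := ((hb.Rk_sb hw hr).mul_shift hW (h1.mul hW h2)).const_mul hW 2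
  have a3 := (a1.add hW a2).const_mul hW (1 / (4 * π) : ℂ)
  refine (a3.mono ?_).congr (FK_meas h1.cont h2.cont) fun x t h0 ht => FK_eq (hb.ne' hw hr h0 ht)
  refine (mul_le_of_le_one_left (a1.add hW a2).nonneg norm_c4pi).trans (le_of_eq ?_)
  simp only [Complex.norm_ofNat]; ring

theorem Base.FK_sub (hb : Base W w0 C M0) (hw : Bd (up W) (fun x => w x - w0 x) r)
    (hw' : Bd (up W) (fun x => w' x - w0 x) r) (hr : C * r ≤ 1 / 2) {Mw Mg : ℝ}
    (h1 : Bd W w Mw) (h2 : Bd W g Mg) (h1' : Bd W w' Mw) (h2' : Bd W g' Mg)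
    (hd : Bd (up W) (fun x => w x - w' x) d) (hd' : Bd W (fun x => g x - g' x) d) :
    SB W (fun x t => FK w g x t - FK w' g' x t)
      ((8 + 8 * M0 * C * Mw * Mg + 4 * M0 * (Mg + Mw)) * d) := by
  have hW := hb.wt
  have a1 := (SB_one hW).mul_shift hW hd'
  have a2 := ((hb.Rk_sub hw hw' hr hd).mul_shift hW (h1.mul hW h2)).const_mul hW 2
  have a3 := ((hb.Rk_sb hw' hr).mul_shift hW
    (((hd.down hW).mul hW h2).add hW (h1'.mul hW hd'))).const_mul hW 2
  have a4 := (a1.add hW a2).add hW a3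
  refine ((a4.const_mul hW (1 / (4 * π) : ℂ)).mono ?_).congr
    ((FK_meas h1.cont h2.cont).sub (FK_meas h1'.cont h2'.cont)) fun x t h0 ht => ?_
  · refine (mul_le_of_le_one_left a4.nonneg norm_c4pi).trans (le_of_eq ?_)
    simp only [Complex.norm_ofNat]; ring
  · rw [FK_eq (hb.ne' hw hr h0 ht), FK_eq (hb.ne' hw' hr h0 ht)]; ring

theorem Base.FK_fold (hb : Base W w0 C M0) (hw : Bd (up W) (fun x => w x - w0 x) r)
    (hr : C * r ≤ 1 / 2) {W' : ℤ → ℝ} (hW' : Wt W') {M2 M1 : ℝ} (h1 : Bd (up (up W')) w M2)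
    (h2 : Bd (up W') g M1) :
    ∃ A, ∀ x t, 0 < t → t ≤ π → ‖FK w g x t + FK w g x (-t)‖ ≤ A := by
  have hw1 := h1.down hW'.up
  have hwg := hw1.mul hW'.up h2
  have hM2 := h1.nonneg
  have hM1 := h2.nonneg
  have hC := hb.C0
  refine ⟨(4 * M2 * M1) * (2 * C) + (2 * M2 * M1) * ((2 * C) * (2 * C) * (2 * M2)),
    fun x t ht0 ht => ?_⟩
  have a0 : t ≠ 0 := ht0.ne'
  have a1 : |t| ≤ π := by rwa [abs_of_pos ht0]
  have b0 : -t ≠ 0 := neg_ne_zero.2 a0
  have b1 : |-t| ≤ π := by rwa [abs_neg]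
  have hc : (t : ℂ) ≠ 0 := by exact_mod_cast a0
  have n1 := hb.ne' hw hr (x := x) a0 a1
  have n2 := hb.ne' hw hr (x := x) b0 b1
  set N1 := (w x + w (x - t)) * g (x - t) with hN1
  set N2 := (w x + w (x - -t)) * g (x - -t) with hN2
  have e : FK w g x t + FK w g x (-t) = (1 / (4 * π) : ℂ) *
      (((N1 - N2) * bq w x t + N2 * (bq w x t * bq w x (-t) * (dq w x (-t) - dq w x t))) / t) := by
    unfold FK bq dq
    rw [← mul_add]
    congr 1
    push_cast
    field_simp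
    ring
  have hN : ‖N1 - N2‖ ≤ 4 * M2 * M1 * t := by
    have e1 : N1 - N2 = w x * (g (x - t) - g (x - -t)) +
        (w (x - t) * g (x - t) - w (x - -t) * g (x - -t)) := by rw [hN1, hN2]; ring
    have e2 : |x - t - (x - -t)| = 2 * t := by
      rw [show x - t - (x - -t) = -(2 * t) by ring, abs_neg, abs_of_pos (by linarith)]
    have c1 := h2.lip hW' (x - t) (x - -t)
    have c2 := hwg.lip hW' (x - t) (x - -t)
    rw [e2] at c1 c2
    have c3 : ‖w x * (g (x - t) - g (x - -t))‖ ≤ M2 * (M1 * (2 * t)) := by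
      rw [norm_mul]
      exact mul_le_mul (hw1.norm_le hW'.up x) c1 (norm_nonneg _) hM2
    rw [e1]
    refine (norm_add_le _ _).trans ?_
    linarith
  have hN2' : ‖N2‖ ≤ 2 * M2 * M1 := by
    rw [hN2, norm_mul]
    refine mul_le_mul ((norm_add_le _ _).trans ?_) (h2.norm_le hW'.up _) (norm_nonneg _)
      (by positivity)
    linarith [hw1.norm_le hW'.up x, hw1.norm_le hW'.up (x - -t)]
  have hD : ‖dq w x (-t) - dq w x t‖ ≤ 2 * M2 * t := by
    have c1 := h1.dq_sub hW' x t a0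
    have c2 := h1.dq_sub hW' x (-t) b0
    rw [abs_neg] at c2
    rw [abs_of_pos ht0] at c1 c2
    have e1 : dq w x (-t) - dq w x t =
        (dq w x (-t) - _root_.deriv w x) - (dq w x t - _root_.deriv w x) := by ring
    rw [e1]
    refine (norm_sub_le _ _).trans ?_
    linarith
  have q1 := hb.bq_le hw hr (x := x) a0 a1
  have q2 := hb.bq_le hw hr (x := x) b0 b1
  rw [e, norm_mul]
  refine (mul_le_of_le_one_left (norm_nonneg _) norm_c4pi).trans ?_
  rw [norm_div, Complex.norm_real, Real.norm_of_nonneg ht0.le, div_le_iff₀ ht0]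
  refine (norm_add_le _ _).trans ?_
  have t1 : ‖(N1 - N2) * bq w x t‖ ≤ 4 * M2 * M1 * t * (2 * C) := by
    rw [norm_mul]; exact mul_le_mul hN q1 (norm_nonneg _) (by positivity)
  have t2 : ‖N2 * (bq w x t * bq w x (-t) * (dq w x (-t) - dq w x t))‖ ≤
      2 * M2 * M1 * ((2 * C) * (2 * C) * (2 * M2 * t)) := by
    rw [norm_mul N2, norm_mul _ (dq w x (-t) - dq w x t), norm_mul (bq w x t)]
    exact mul_le_mul hN2' (mul_le_mul (mul_le_mul q1 q2 (norm_nonneg _) (by positivity)) hD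
      (norm_nonneg _) (by positivity)) (by positivity) (by positivity)
  linarith

end Pool.Agent.Lib.MP_3d41d4_an.CK
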