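import Pool.Agent.Lib.MP_3d41d4_an.CKW

/-!
Holomorphic extension to a strip and decay of Fourier coefficients.
-/

open Complex MeasureTheory Filter Topology Set
open scoped Real

namespace Pool.Agent.Lib.MP_3d41d4_an.CK

/-- The open strip. -/
def St (σ : ℝ) : Set ℂ := {z | |z.im| < σ}

theorem St_open (σ : ℝ) : IsOpen (St σ) :=
  isOpen_lt (continuous_abs.comp Complex.continuous_im) continuous_const

theorem St_convex (σ : ℝ) : Convex ℝ (St σ) := by
  have : St σ = {z : ℂ | -σ < z.im} ∩ {z : ℂ | z.im < σ} := by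
    ext z; simp [St, abs_lt]
  rw [this]
  exact (convex_halfSpace_im_gt _).inter (convex_halfSpace_im_lt _)

theorem St_mono {σ τ : ℝ} (h : σ ≤ τ) : St σ ⊆ St τ := fun _ hz => lt_of_lt_of_le hz h

theorem real_mem_St {σ : ℝ} (h : 0 < σ) (x : ℝ) : (x : ℂ) ∈ St σ := by simpa [St] using h

theorem sub_mem_St {σ : ℝ} {z : ℂ} (hz : z ∈ St σ) (h : ℝ) : z - h ∈ St σ := by
  simpa [St] using hz

/-- Bounded periodic holomorphic functions on a strip. -/
structure An (σ : ℝ) (F : ℂ → ℂ) (M : ℝ) : Prop where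
  diff : DifferentiableOn ℂ F (St σ)
  per : ∀ z ∈ St σ, F (z + 2 * π) = F z
  le : ∀ z ∈ St σ, ‖F z‖ ≤ M

variable {σ M : ℝ} {F : ℂ → ℂ}

theorem An.mono (h : An σ F M) {τ : ℝ} (hτ : τ ≤ σ) : An τ F M :=
  ⟨h.diff.mono (St_mono hτ), fun z hz => h.per z (St_mono hτ hz),
    fun z hz => h.le z (St_mono hτ hz)⟩

theorem An.diffAt (h : An σ F M) {z : ℂ} (hz : z ∈ St σ) : DifferentiableAt ℂ F z :=
  h.diff.differentiableAt ((St_open σ).mem_nhds hz)

theorem Bd.ext {f : ℝ → ℂ} (hσ : 0 ≤ σ) (h : Bd (wt σ) f M) :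
    ∃ F : ℂ → ℂ, An σ F M ∧ ∀ x : ℝ, F x = f x := by
  have hW := wt_Wt hσ
  have hb : ∀ (k : ℤ) (z : ℂ), z ∈ St σ →
      ‖coef f k * Complex.exp (k * z * I)‖ ≤ wt σ k * ‖coef f k‖ := by
    intro k z hz
    rw [norm_mul, mul_comm]
    refine mul_le_mul_of_nonneg_right ?_ (norm_nonneg _)
    rw [Complex.norm_exp, wt]
    refine Real.exp_le_exp.2 ?_
    have h1 : ((k : ℂ) * z * I).re = -(k * z.im) := by simp
    rw [h1]
    calc -((k : ℝ) * z.im) ≤ |(k : ℝ) * z.im| := neg_le_abs _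
      _ = |z.im| * |(k : ℝ)| := by rw [abs_mul, mul_comm]
      _ ≤ σ * |(k : ℝ)| := mul_le_mul_of_nonneg_right (le_of_lt hz) (abs_nonneg _)
  refine ⟨fun z => ∑' k : ℤ, coef f k * Complex.exp (k * z * I), ⟨?_, fun z _ => ?_, fun z hz => ?_⟩,
    fun x => (h.hasSum hW x).tsum_eq⟩
  · exact Complex.differentiableOn_tsum_of_summable_norm (h.summable hW)
      (fun k => by fun_prop) (St_open σ) hb
  · refine tsum_congr fun k => ?_
    congr 1
    have : (k : ℂ) * (z + 2 * π) * I = k * z * I + k * (2 * π * I) := by ring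
    rw [this, Complex.exp_add, Complex.exp_int_mul_two_pi_mul_I, mul_one]
  · exact (tsum_of_norm_bounded (h.summable hW).hasSum fun k => hb k z hz).trans (h.tsum_le hW)

theorem An.deriv (h : An σ F M) (hσ : 0 < σ) : An (σ / 2) (deriv F) (4 * M / σ) := by
  refine ⟨(h.diff.deriv (St_open σ)).mono (St_mono (by linarith)), fun z hz => ?_, fun z hz => ?_⟩
  · have hz' : z ∈ St σ := St_mono (by linarith) hz
    have h1 : (fun w => F (w + 2 * π)) =ᶠ[𝓝 z] F :=
      Filter.eventually_of_mem ((St_open σ).mem_nhds hz') fun w hw => h.per w hw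
    rw [← h1.deriv_eq, deriv_comp_add_const]
  · have hsub : Metric.closedBall z (σ / 4) ⊆ St σ := by
      intro w hw
      rw [Metric.mem_closedBall, dist_eq_norm] at hw
      have h1 : |(w - z).im| ≤ σ / 4 := (Complex.abs_im_le_norm _).trans hw
      have h2 : |z.im| < σ / 2 := hz
      have h3 : w.im = (w - z).im + z.im := by simp
      change |w.im| < σ
      rw [h3]
      linarith [abs_add_le (w - z).im z.im]
    have := Complex.norm_deriv_le_of_forall_mem_sphere_norm_le (c := z) (R := σ / 4) (C := M)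
      (by linarith) (h.diff.diffContOnCl_ball hsub)
      fun w hw => h.le w (hsub (Metric.sphere_subset_closedBall hw))
    calc ‖_root_.deriv F z‖ ≤ M / (σ / 4) := this
      _ = 4 * M / σ := by field_simp

theorem An.cont (h : An σ F M) (hσ : 0 < σ) : Continuous fun x : ℝ => F x :=
  h.diff.continuousOn.comp_continuous Complex.continuous_ofReal (real_mem_St hσ)

theorem An.shift (h : An σ F M) (k : ℤ) {y : ℝ} (hy : |y| < σ) :
    ∫ x in (0 : ℝ)..(2 * π), F x * ee (-k) x =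
      ∫ x in (0 : ℝ)..(2 * π), F (x + y * I) * Complex.exp ((-k : ℤ) * (x + y * I) * I) := by
  have hmem : ∀ z : ℂ, z.im ∈ uIcc 0 y → z ∈ St σ := by
    intro z hz
    change |z.im| < σ
    refine lt_of_le_of_lt ?_ hy
    rcases le_total 0 y with h0 | h0
    · rw [uIcc_of_le h0] at hz
      rw [abs_of_nonneg hz.1, abs_of_nonneg h0]; exact hz.2
    · rw [uIcc_of_ge h0] at hz
      rw [abs_of_nonpos hz.2, abs_of_nonpos h0]; linarith [hz.1]
  have key := Complex.integral_boundary_rect_eq_zero_of_differentiableOn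
    (fun z => F z * Complex.exp ((-k : ℤ) * z * I)) 0 ⟨2 * π, y⟩
    ((h.diff.mono fun z hz => hmem z (by simpa using hz.2)).mul (by fun_prop))
  have hside : ∫ t in (0 : ℝ)..y, F ((2 * π : ℝ) + t * I) *
        Complex.exp ((-k : ℤ) * ((2 * π : ℝ) + t * I) * I) =
      ∫ t in (0 : ℝ)..y, F ((0 : ℝ) + t * I) * Complex.exp ((-k : ℤ) * ((0 : ℝ) + t * I) * I) := by
    refine intervalIntegral.integral_congr fun t ht => ?_
    have h1 : ((2 * π : ℝ) : ℂ) + t * I = (((0 : ℝ) : ℂ) + t * I) + 2 * π := by push_cast; ring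
    rw [h1, h.per _ (hmem _ (by simpa using ht))]
    congr 1
    have : ((-k : ℤ) : ℂ) * (((0 : ℝ) : ℂ) + t * I + 2 * π) * I =
        (-k : ℤ) * (((0 : ℝ) : ℂ) + t * I) * I + (-k : ℤ) * (2 * π * I) := by ring
    rw [this, Complex.exp_add, Complex.exp_int_mul_two_pi_mul_I, mul_one]
  simp only [Complex.zero_re, Complex.zero_im] at key
  rw [hside, add_sub_cancel_right, sub_eq_zero] at key
  rw [← key]
  refine intervalIntegral.integral_congr fun x _ => ?_
  simp [ee]

theorem An.coef_le (h : An σ F M) {τ : ℝ} (h0 : 0 ≤ τ) (hτ : τ < σ) (k : ℤ) :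
    ‖coef (fun x : ℝ => F x) k‖ ≤ M * Real.exp (-(τ * |(k : ℝ)|)) := by
  obtain ⟨y, hy, hky⟩ : ∃ y : ℝ, |y| = τ ∧ (k : ℝ) * y = -(τ * |(k : ℝ)|) := by
    rcases le_total 0 (k : ℝ) with hk | hk
    · exact ⟨-τ, by rw [abs_neg, abs_of_nonneg h0], by rw [abs_of_nonneg hk]; ring⟩
    · exact ⟨τ, abs_of_nonneg h0, by rw [abs_of_nonpos hk]; ring⟩
  unfold coef
  rw [h.shift k (hy.symm ▸ hτ : |y| < σ), norm_mul, norm_c2pi]
  have h1 : ‖∫ x in (0 : ℝ)..(2 * π), F (x + y * I) * Complex.exp ((-k : ℤ) * (x + y * I) * I)‖ ≤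
      M * Real.exp (-(τ * |(k : ℝ)|)) * |2 * π - 0| :=
    intervalIntegral.norm_integral_le_of_norm_le_const fun x _ => by
      rw [norm_mul, Complex.norm_exp]
      have h2 : (((-k : ℤ) : ℂ) * (x + y * I) * I).re = -(τ * |(k : ℝ)|) := by
        rw [← hky]; simp
      rw [h2]
      refine mul_le_mul_of_nonneg_right (h.le _ ?_) (Real.exp_pos _).le
      change |((x : ℂ) + y * I).im| < σ
      simpa [hy] using hτ
  rw [sub_zero, abs_of_pos (by positivity : (0 : ℝ) < 2 * π)] at h1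
  calc 1 / (2 * π) * _ ≤ 1 / (2 * π) * (M * Real.exp (-(τ * |(k : ℝ)|)) * (2 * π)) :=
        mul_le_mul_of_nonneg_left h1 (by positivity)
    _ = _ := by field_simp

theorem summable_exp_abs {δ : ℝ} (hδ : 0 < δ) :
    Summable fun k : ℤ => Real.exp (-(δ * |(k : ℝ)|)) := by
  have h1 : Summable fun n : ℕ => Real.exp (-(δ * (n : ℝ))) := by
    have := Real.summable_exp_nat_mul_iff.2 (neg_lt_zero.2 hδ)
    refine this.congr fun n => ?_
    congr 1; ring
  refine Summable.of_nat_of_neg ?_ ?_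
  · simpa using h1
  · simpa using h1

/-- The constant of the strip lemma. -/
noncomputable def Cs (σ : ℝ) : ℝ := ∑' k : ℤ, Real.exp (-(σ / 4 * |(k : ℝ)|))

theorem Cs_nonneg (σ : ℝ) : 0 ≤ Cs σ := tsum_nonneg fun _ => (Real.exp_pos _).le

theorem An.bd (h : An σ F M) (hσ : 0 < σ) : Bd (wt (σ / 2)) (fun x : ℝ => F x) (M * Cs σ) := by
  have hM : 0 ≤ M := (norm_nonneg _).trans (h.le _ (real_mem_St hσ 0))
  refine ⟨h.cont hσ, fun x => ?_, fun S => ?_⟩
  · have := h.per x (real_mem_St hσ x)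
    simpa using this
  · calc ∑ k ∈ S, wt (σ / 2) k * ‖coef (fun x : ℝ => F x) k‖
        ≤ ∑ k ∈ S, M * Real.exp (-(σ / 4 * |(k : ℝ)|)) := by
          refine Finset.sum_le_sum fun k _ => ?_
          refine (mul_le_mul_of_nonneg_left (h.coef_le (τ := 3 * σ / 4) (by linarith)
            (by linarith) k) (Real.exp_pos _).le).trans (le_of_eq ?_)
          rw [mul_left_comm, ← Real.exp_add]
          congr 2; ring
      _ = M * ∑ k ∈ S, Real.exp (-(σ / 4 * |(k : ℝ)|)) := by rw [Finset.mul_sum]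
      _ ≤ M * Cs σ := mul_le_mul_of_nonneg_left
          ((summable_exp_abs (by linarith)).sum_le_tsum S fun _ _ => (Real.exp_pos _).le) hM

theorem An.lip {G : ℂ → ℂ} {L : ℝ} (hd : ∀ z ∈ St σ, HasDerivAt F (G z) z)
    (hL : ∀ z ∈ St σ, ‖G z‖ ≤ L) {z w : ℂ} (hz : z ∈ St σ) (hw : w ∈ St σ) :
    ‖F z - F w‖ ≤ L * ‖z - w‖ :=
  (St_convex σ).norm_image_sub_le_of_norm_hasDerivWithin_le
    (fun u hu => (hd u hu).hasDerivWithinAt) hL hw hz

/-- Wiener bounds for the inverse difference quotient of an embedded analytic curve. -/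
theorem base_kernel {c0 : ℝ} {W0 : ℂ → ℂ} (hσ : 0 < σ) (hA : An σ W0 M) (hc0 : 0 < c0)
    (hlow : ∀ x h : ℝ, |h| ≤ π → c0 * |h| ≤ ‖W0 x - W0 (x - h)‖) :
    ∃ ρ1 : ℝ, 0 < ρ1 ∧ ρ1 ≤ σ ∧ ∃ C : ℝ, 1 ≤ C ∧ ∃ β0 : ℝ → ℂ, Bd (wt ρ1) β0 C ∧
      ∀ h : ℝ, h ≠ 0 → |h| ≤ π →
        Bd (wt ρ1) (fun x => (h : ℂ) / (W0 x - W0 (x - h))) C ∧
        Bd (wt ρ1) (fun x => ((h : ℂ) / (W0 x - W0 (x - h)) - β0 x) / h) C := by
  have hA1 := hA.deriv hσ
  have hA2 := hA1.deriv (by linarith)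
  set W1 := _root_.deriv W0 with hW1
  set W2 := _root_.deriv W1 with hW2
  set M2 := 4 * (4 * M / σ) / (σ / 2) + 1 with hM2
  have hσ4 : 0 < σ / 2 / 2 := by linarith
  have hM2' : ∀ z ∈ St (σ / 2 / 2), ‖W2 z‖ ≤ M2 := fun z hz => (hA2.le z hz).trans (by linarith)
  have hM2pos : 0 < M2 := by
    have := (norm_nonneg _).trans (hA2.le _ (real_mem_St hσ4 0)); linarith
  have d0 : ∀ z ∈ St (σ / 2 / 2), HasDerivAt W0 (W1 z) z := fun z hz =>
    (hA.diffAt (St_mono (by linarith) hz)).hasDerivAt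
  have d1 : ∀ z ∈ St (σ / 2 / 2), HasDerivAt W1 (W2 z) z := fun z hz =>
    (hA1.diffAt (St_mono (by linarith) hz)).hasDerivAt
  have l1 : ∀ z ∈ St (σ / 2 / 2), ∀ w ∈ St (σ / 2 / 2), ‖W1 z - W1 w‖ ≤ M2 * ‖z - w‖ :=
    fun z hz w hw => An.lip d1 hM2' hz hw
  -- second order Taylor bound
  have tay : ∀ z ∈ St (σ / 2 / 2), ∀ h : ℝ, ‖W0 z - W0 (z - h) - h * W1 z‖ ≤ M2 * |h| * |h| := by
    intro z hz h
    have hd : ∀ t ∈ Metric.closedBall (0 : ℝ) |h|,
        HasDerivWithinAt (fun t : ℝ => W0 z - W0 (z - t) - t * W1 z) (W1 (z - t) - W1 z)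
          (Metric.closedBall (0 : ℝ) |h|) t := by
      intro t _
      have e1 : HasDerivAt (fun t : ℝ => z - (t : ℂ)) (-1) t := by
        simpa using (Complex.ofRealCLM.hasDerivAt (x := t)).const_sub z
      have e2 : HasDerivAt (fun t : ℝ => W0 (z - t)) (W1 (z - t) * (-1)) t :=
        (d0 _ (sub_mem_St hz t)).comp t e1
      have e3 : HasDerivAt (fun t : ℝ => (t : ℂ) * W1 z) (W1 z) t := by
        simpa using (Complex.ofRealCLM.hasDerivAt (x := t)).mul_const (W1 z)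
      have := (e2.const_sub (W0 z)).sub e3
      rw [show -(W1 (z - t) * (-1)) - W1 z = W1 (z - t) - W1 z by ring] at this
      exact this.hasDerivWithinAt
    have hb : ∀ t ∈ Metric.closedBall (0 : ℝ) |h|, ‖W1 (z - t) - W1 z‖ ≤ M2 * |h| := by
      intro t ht
      refine (l1 _ (sub_mem_St hz t) _ hz).trans (mul_le_mul_of_nonneg_left ?_ hM2pos.le)
      simpa using ht
    have := (convex_closedBall (0 : ℝ) |h|).norm_image_sub_le_of_norm_hasDerivWithin_le hd hb
      (Metric.mem_closedBall_self (abs_nonneg h)) (by simp : h ∈ Metric.closedBall (0 : ℝ) |h|)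
    simpa using this
  -- variation in the imaginary direction
  have var : ∀ z ∈ St (σ / 2 / 2), ∀ h : ℝ,
      ‖(W0 z - W0 (z - h)) - (W0 z.re - W0 (z.re - h))‖ ≤ M2 * |h| * |z.im| := by
    intro z hz h
    have hd : ∀ u ∈ St (σ / 2 / 2), HasDerivAt (fun u => W0 u - W0 (u - h)) (W1 u - W1 (u - h)) u :=
      fun u hu => (d0 u hu).sub ((d0 _ (sub_mem_St hu h)).comp_sub_const u (h : ℂ))
    have hb : ∀ u ∈ St (σ / 2 / 2), ‖W1 u - W1 (u - h)‖ ≤ M2 * |h| := fun u hu => by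
      simpa using l1 u hu _ (sub_mem_St hu h)
    have := An.lip hd hb hz (real_mem_St hσ4 z.re)
    refine this.trans (le_of_eq ?_)
    congr 1
    have : z - (z.re : ℂ) = z.im * I := by
      apply Complex.ext <;> simp
    rw [this]; simp
  set σ1 := min (σ / 2 / 2) (c0 / (2 * M2)) with hσ1
  have hσ1pos : 0 < σ1 := lt_min hσ4 (by positivity)
  have hsub : St σ1 ⊆ St (σ / 2 / 2) := St_mono (min_le_left _ _)
  have low : ∀ z ∈ St σ1, ∀ h : ℝ, |h| ≤ π → c0 / 2 * |h| ≤ ‖W0 z - W0 (z - h)‖ := by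
    intro z hz h hh
    have h1 := var z (hsub hz) h
    have h2 := hlow z.re h hh
    have h3 : M2 * |z.im| ≤ c0 / 2 := by
      have : |z.im| ≤ c0 / (2 * M2) := (le_of_lt hz).trans (min_le_right _ _)
      calc M2 * |z.im| ≤ M2 * (c0 / (2 * M2)) := mul_le_mul_of_nonneg_left this hM2pos.le
        _ = c0 / 2 := by field_simp
    have h4 := norm_sub_norm_le (W0 z.re - W0 (z.re - h)) (W0 z - W0 (z - h))
    rw [norm_sub_rev] at h1
    nlinarith [abs_nonneg h]
  have low1 : ∀ z ∈ St σ1, c0 / 2 ≤ ‖W1 z‖ := by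
    intro z hz
    refine le_of_forall_pos_le_add fun ε hε => ?_
    set h := min π (ε / M2) with hh
    have hpos : 0 < h := lt_min Real.pi_pos (by positivity)
    have h1 := low z hz h (by rw [abs_of_pos hpos]; exact min_le_left _ _)
    have h2 := tay z (hsub hz) h
    rw [abs_of_pos hpos] at h1 h2
    have h3 : M2 * h ≤ ε := by
      calc M2 * h ≤ M2 * (ε / M2) := mul_le_mul_of_nonneg_left (min_le_right _ _) hM2pos.le
        _ = ε := by field_simp
    have h4 := norm_sub_norm_le (W0 z - W0 (z - h)) (h * W1 z)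
    rw [norm_mul, Complex.norm_real, Real.norm_of_nonneg hpos.le] at h4
    have h5 : c0 / 2 * h ≤ (‖W1 z‖ + ε) * h := by nlinarith
    exact le_of_mul_le_mul_right h5 hpos
  have ne0 : ∀ z ∈ St σ1, ∀ h : ℝ, h ≠ 0 → |h| ≤ π → W0 z - W0 (z - h) ≠ 0 := by
    intro z hz h h0 hh
    have := low z hz h hh
    have h1 : 0 < c0 / 2 * |h| := mul_pos (by linarith) (abs_pos.2 h0)
    exact norm_pos_iff.1 (h1.trans_le this)
  have ne1 : ∀ z ∈ St σ1, W1 z ≠ 0 := fun z hz =>
    norm_pos_iff.1 (lt_of_lt_of_le (by linarith) (low1 z hz))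
  have hAs := hA.mono (show σ1 ≤ σ from (min_le_left _ _).trans (by linarith))
  have hA1s := hA1.mono (show σ1 ≤ σ / 2 from (min_le_left _ _).trans (by linarith))
  have dsh : ∀ h : ℝ, DifferentiableOn ℂ (fun z => W0 (z - h)) (St σ1) := fun h =>
    hAs.diff.comp (differentiableOn_id.sub_const _) fun z hz => sub_mem_St hz h
  have psh : ∀ (h : ℝ), ∀ z ∈ St σ1, W0 (z + 2 * π - h) = W0 (z - h) := fun h z hz => by
    rw [show z + 2 * π - h = (z - h) + 2 * π by ring, hAs.per _ (sub_mem_St hz h)]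
  set B := max (2 / c0) (4 * M2 / c0 ^ 2) with hB
  have hB0 : 0 ≤ B := le_max_of_le_left (by positivity)
  have b0 : An σ1 (fun z => 1 / W1 z) B :=
    ⟨(differentiableOn_const _).div hA1s.diff ne1, fun z hz => by simp only [hA1s.per z hz],
      fun z hz => by
        refine le_trans ?_ (le_max_left _ _)
        rw [norm_div, norm_one, div_le_div_iff₀ (norm_pos_iff.2 (ne1 z hz)) hc0]
        linarith [low1 z hz]⟩
  refine ⟨σ1 / 2, by linarith, by linarith [min_le_left (σ / 2 / 2) (c0 / (2 * M2))],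
    B * Cs σ1 + 1, by nlinarith [Cs_nonneg σ1], fun x => 1 / W1 x,
    (b0.bd hσ1pos).mono (by linarith), fun h h0 hh => ⟨?_, ?_⟩⟩
  · have b1 : An σ1 (fun z => (h : ℂ) / (W0 z - W0 (z - h))) B :=
      ⟨(differentiableOn_const _).div (hAs.diff.sub (dsh h)) fun z hz => ne0 z hz h h0 hh,
        fun z hz => by simp only [hAs.per z hz, psh h z hz], fun z hz => by
          refine le_trans ?_ (le_max_left _ _)
          rw [norm_div, Complex.norm_real, Real.norm_eq_abs,
            div_le_div_iff₀ (norm_pos_iff.2 (ne0 z hz h h0 hh)) hc0]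
          linarith [low z hz h hh]⟩
    exact (b1.bd hσ1pos).mono (by linarith)
  · have hC : (h : ℂ) ≠ 0 := by exact_mod_cast h0
    have b2 : An σ1 (fun z => ((h : ℂ) / (W0 z - W0 (z - h)) - 1 / W1 z) / h) B :=
      ⟨(((differentiableOn_const _).div (hAs.diff.sub (dsh h))
          fun z hz => ne0 z hz h h0 hh).sub b0.diff).div_const _,
        fun z hz => by simp only [hAs.per z hz, psh h z hz, hA1s.per z hz], fun z hz => by
          refine le_trans ?_ (le_max_right _ _)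
          have e1 : ((h : ℂ) / (W0 z - W0 (z - h)) - 1 / W1 z) / h =
              -(W0 z - W0 (z - h) - h * W1 z) / ((W0 z - W0 (z - h)) * W1 z * h) := by
            have := ne0 z hz h h0 hh
            have := ne1 z hz
            field_simp
            ring
          have hh0 : 0 < |h| := abs_pos.2 h0
          rw [e1, norm_div, norm_neg, norm_mul, norm_mul, Complex.norm_real, Real.norm_eq_abs]
          have h1 : c0 / 2 * |h| * (c0 / 2) * |h| ≤ ‖W0 z - W0 (z - h)‖ * ‖W1 z‖ * |h| :=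
            mul_le_mul_of_nonneg_right (mul_le_mul (low z hz h hh) (low1 z hz) (by positivity)
              (norm_nonneg _)) hh0.le
          calc _ ≤ M2 * |h| * |h| / (c0 / 2 * |h| * (c0 / 2) * |h|) :=
                div_le_div₀ (by positivity) (tay z (hsub hz) h) (by positivity) h1
            _ = 4 * M2 / c0 ^ 2 := by field_simp; ring⟩
    exact (b2.bd hσ1pos).mono (by linarith)

end Pool.Agent.Lib.MP_3d41d4_an.CK
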