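import Pool.Agent.Lib.MP_3d41d4_an.CKW

/-!
Kernels with bounded truncated symbols.
-/

open Complex MeasureTheory Filter Topology Set
open scoped Real

namespace Pool.Agent.Lib.MP_3d41d4_an.CK

/-- The truncated domain of integration. -/
def Sd (ε : ℝ) : Set ℝ := {h | ε < |h| ∧ |h| ≤ π}

theorem Sd_meas (ε : ℝ) : MeasurableSet (Sd ε) :=
  (measurableSet_lt measurable_const measurable_abs).inter
    (measurableSet_le measurable_abs measurable_const)

theorem Sd_sub (ε : ℝ) : Sd ε ⊆ Icc (-π) π := fun _ hh => abs_le.1 hh.2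

theorem Sd_vol (ε : ℝ) : volume (Sd ε) ≤ ENNReal.ofReal (2 * π) := by
  refine (measure_mono (Sd_sub ε)).trans (le_of_eq ?_)
  rw [Real.volume_Icc]; congr 1; ring

instance Sd_fin (ε : ℝ) : IsFiniteMeasure (volume.restrict (Sd ε)) :=
  ⟨by rw [Measure.restrict_apply_univ]; exact (Sd_vol ε).trans_lt ENNReal.ofReal_lt_top⟩

theorem Sd_real (ε : ℝ) : (volume.restrict (Sd ε)).real univ ≤ 2 * π := by
  rw [measureReal_restrict_apply_univ]
  exact ENNReal.toReal_le_of_le_ofReal (by positivity) (Sd_vol ε)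

theorem Sd_ne {ε : ℝ} (hε : 0 < ε) {h : ℝ} (hh : h ∈ Sd ε) : h ≠ 0 :=
  abs_pos.1 (hε.trans hh.1)

/-- The exponential `exp (-i μ h)` with a real frequency. -/
noncomputable def ex (μ h : ℝ) : ℂ := Complex.exp (-(μ * h) * I)

theorem norm_ex (μ h : ℝ) : ‖ex μ h‖ = 1 := by
  unfold ex
  have : -((μ : ℂ) * h) * I = ((-(μ * h) : ℝ) : ℂ) * I := by push_cast; ring
  rw [this, Complex.norm_exp_ofReal_mul_I]

theorem ex_add (μ ν h : ℝ) : ex (μ + ν) h = ex μ h * ex ν h := by
  unfold ex
  rw [← Complex.exp_add]; congr 1; push_cast; ring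

theorem ex_zero (h : ℝ) : ex 0 h = 1 := by simp [ex]

theorem ex_cont : Continuous fun p : ℝ × ℝ => ex p.1 p.2 := by
  unfold ex; fun_prop

theorem ex_meas (μ : ℝ) : Measurable (ex μ) :=
  (ex_cont.comp (continuous_const.prodMk continuous_id)).measurable

theorem ee_sub (l : ℤ) (x h : ℝ) : ee l (x - h) = ee l x * ex l h := by
  unfold ee ex
  rw [← Complex.exp_add]; congr 1; push_cast; ring

theorem norm_one_sub_ex (μ h : ℝ) : ‖1 - ex μ h‖ ≤ |μ| * |h| := by
  have := Real.norm_exp_I_mul_ofReal_sub_one_le (x := -(μ * h))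
  rw [norm_sub_rev, Real.norm_eq_abs, abs_neg, abs_mul] at this
  refine le_of_eq_of_le ?_ this
  unfold ex
  congr 3; push_cast; ring

/-- Kernels whose truncated symbols are bounded in the Wiener class. -/
structure SB (W : ℤ → ℝ) (K : ℝ → ℝ → ℂ) (M : ℝ) : Prop where
  meas : Measurable fun p : ℝ × ℝ => K p.1 p.2
  bdd : ∀ ε, 0 < ε → ∃ C, ∀ x, ∀ h ∈ Sd ε, ‖K x h‖ ≤ C
  le : ∀ ε, 0 < ε → ∀ μ : ℝ, Bd W (fun x => ∫ h in Sd ε, K x h * ex μ h) M

variable {W : ℤ → ℝ} {K K' : ℝ → ℝ → ℂ} {M N : ℝ} {f : ℝ → ℂ}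

theorem SB.nonneg (h : SB W K M) : 0 ≤ M := (h.le 1 one_pos 0).nonneg

theorem SB.mono (h : SB W K M) (hM : M ≤ N) : SB W K N :=
  ⟨h.meas, h.bdd, fun ε hε μ => (h.le ε hε μ).mono hM⟩

theorem SB.wle {W' : ℤ → ℝ} (h : SB W K M) (hW : ∀ k, W' k ≤ W k) : SB W' K M :=
  ⟨h.meas, h.bdd, fun ε hε μ => (h.le ε hε μ).wle hW⟩

theorem SB.meas_sec (h : SB W K M) (x : ℝ) : Measurable (K x) :=
  h.meas.comp (measurable_const.prodMk measurable_id)

theorem SB.integrable (h : SB W K M) {ε : ℝ} (hε : 0 < ε) (x μ : ℝ) :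
    IntegrableOn (fun t => K x t * ex μ t) (Sd ε) := by
  obtain ⟨C, hC⟩ := h.bdd ε hε
  refine Integrable.of_bound ((h.meas_sec x).mul (ex_meas μ)).aestronglyMeasurable C ?_
  refine (ae_restrict_iff' (Sd_meas ε)).2 (ae_of_all _ fun t ht => ?_)
  rw [norm_mul, norm_ex, mul_one]; exact hC x t ht

theorem SB.congr (h : SB W K M) (hm : Measurable fun p : ℝ × ℝ => K' p.1 p.2)
    (hK : ∀ x t, t ≠ 0 → |t| ≤ π → K' x t = K x t) : SB W K' M := by
  refine ⟨hm, fun ε hε => ?_, fun ε hε μ => (h.le ε hε μ).congr fun x => ?_⟩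
  · obtain ⟨C, hC⟩ := h.bdd ε hε
    exact ⟨C, fun x t ht => by rw [hK x t (Sd_ne hε ht) ht.2]; exact hC x t ht⟩
  · exact setIntegral_congr_fun (Sd_meas ε) fun t ht => by
      simp only [hK x t (Sd_ne hε ht) ht.2]

theorem SB.left (hW : Wt W) (h : SB W K M) (hf : Bd W f N) :
    SB W (fun x t => f x * K x t) (N * M) := by
  refine ⟨(hf.cont.measurable.comp measurable_fst).mul h.meas, fun ε hε => ?_, fun ε hε μ => ?_⟩
  · obtain ⟨C, hC⟩ := h.bdd ε hε
    exact ⟨N * C, fun x t ht => by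
      rw [norm_mul]
      exact mul_le_mul (hf.norm_le hW x) (hC x t ht) (norm_nonneg _) hf.nonneg⟩
  · refine (hf.mul hW (h.le ε hε μ)).congr fun x => ?_
    simp_rw [mul_assoc]
    rw [integral_const_mul]

theorem SB.const_mul (hW : Wt W) (h : SB W K M) (c : ℂ) :
    SB W (fun x t => c * K x t) (‖c‖ * M) := h.left hW (Bd.const hW c)

theorem SB.add (hW : Wt W) (h : SB W K M) (h' : SB W K' N) :
    SB W (fun x t => K x t + K' x t) (M + N) := by
  refine ⟨h.meas.add h'.meas, fun ε hε => ?_, fun ε hε μ => ?_⟩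
  · obtain ⟨C, hC⟩ := h.bdd ε hε
    obtain ⟨C', hC'⟩ := h'.bdd ε hε
    exact ⟨C + C', fun x t ht => (norm_add_le _ _).trans (add_le_add (hC x t ht) (hC' x t ht))⟩
  · refine ((h.le ε hε μ).add hW (h'.le ε hε μ)).congr fun x => ?_
    simp_rw [add_mul]
    exact integral_add (h.integrable hε x μ) (h'.integrable hε x μ)

theorem SB.shift (h : SB W K M) (θ : ℝ) : SB W (fun x t => K x t * ex θ t) M := by
  refine ⟨h.meas.mul ((ex_meas θ).comp measurable_snd), fun ε hε => ?_, fun ε hε μ => ?_⟩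
  · obtain ⟨C, hC⟩ := h.bdd ε hε
    exact ⟨C, fun x t ht => by rw [norm_mul, norm_ex, mul_one]; exact hC x t ht⟩
  · refine (h.le ε hε (θ + μ)).congr fun x => ?_
    simp_rw [ex_add, mul_assoc]

theorem SB.tsum {ι : Type*} [Countable ι] (hW : Wt W) {F : ι → ℝ → ℝ → ℂ} {m : ι → ℝ}
    (hF : ∀ i, SB W (F i) (m i)) (hm : Summable m)
    (hmeas : Measurable fun p : ℝ × ℝ => K p.1 p.2)
    (hb : ∀ ε, 0 < ε → ∃ b : ι → ℝ, Summable b ∧ ∀ i x, ∀ t ∈ Sd ε, ‖F i x t‖ ≤ b i)
    (hs : ∀ x t, t ≠ 0 → |t| ≤ π → HasSum (fun i => F i x t) (K x t)) : SB W K (∑' i, m i) := by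
  refine ⟨hmeas, fun ε hε => ?_, fun ε hε μ => ?_⟩
  · obtain ⟨b, hb1, hb2⟩ := hb ε hε
    exact ⟨∑' i, b i, fun x t ht =>
      (hs x t (Sd_ne hε ht) ht.2).norm_le_of_bounded hb1.hasSum fun i => hb2 i x t ht⟩
  · obtain ⟨b, hb1, hb2⟩ := hb ε hε
    refine (Bd.tsum hW (fun i => (hF i).le ε hε μ) hm).congr fun x => ?_
    refine (hasSum_integral_of_dominated_convergence (fun i _ => b i)
      (fun i => ((hF i).integrable hε x μ).aestronglyMeasurable) (fun i => ?_)
      (ae_of_all _ fun _ => hb1) (integrable_const _) ?_).tsum_eq.symm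
    · refine (ae_restrict_iff' (Sd_meas ε)).2 (ae_of_all _ fun t ht => ?_)
      rw [norm_mul, norm_ex, mul_one]; exact hb2 i x t ht
    · refine (ae_restrict_iff' (Sd_meas ε)).2 (ae_of_all _ fun t ht => ?_)
      exact (hs x t (Sd_ne hε ht) ht.2).mul_right _

/-- Multiplication by a translate. -/
theorem SB.mul_shift (hW : Wt W) (h : SB W K M) (hf : Bd W f N) :
    SB W (fun x t => K x t * f (x - t)) (M * N) := by
  have h1 : ∀ l : ℤ, SB W (fun x t => (coef f l * ee l x) * (K x t * ex l t))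
      (W l * ‖coef f l‖ * M) := fun l =>
    (h.shift l).left hW ((((Bd.one hW).ee_mul hW l).const_mul (coef f l)).mono
      (le_of_eq (by ring)) |>.congr fun x => by simp)
  refine (SB.tsum hW h1 ((hf.summable hW).mul_right M)
    (h.meas.mul (hf.cont.measurable.comp (measurable_fst.sub measurable_snd))) (fun ε hε => ?_)
    fun x t _ _ => ?_).mono ?_
  · obtain ⟨C, hC⟩ := h.bdd ε hε
    refine ⟨fun l => ‖coef f l‖ * C, (hf.summable_norm hW).mul_right C, fun l x t ht => ?_⟩
    simp only [norm_mul, norm_ee, norm_ex, mul_one]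
    exact mul_le_mul_of_nonneg_left (hC x t ht) (norm_nonneg _)
  · have := (hf.hasSum hW (x - t)).mul_left (K x t)
    have e : (fun l : ℤ => (coef f l * ee l x) * (K x t * ex l t)) =
        fun l : ℤ => K x t * (coef f l * ee l (x - t)) := by
      funext l; rw [ee_sub]; ring
    rw [e]; exact this
  · rw [tsum_mul_right, mul_comm]
    exact mul_le_mul_of_nonneg_left (hf.tsum_le hW) h.nonneg

theorem ex_avg (l t : ℝ) (ht : t ≠ 0) :
    ∫ θ in Ioc (0 : ℝ) 1, (l * I) * ex (θ * l) t = (1 - ex l t) / t := by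
  have hc : (t : ℂ) ≠ 0 := by exact_mod_cast ht
  have hd : ∀ θ : ℝ, HasDerivAt (fun θ : ℝ => -ex (θ * l) t / t) ((l * I) * ex (θ * l) t) θ := by
    intro θ
    have h1 : HasDerivAt (fun θ : ℝ => -(((θ * l : ℝ) : ℂ) * t) * I) (-((l : ℂ) * t) * I) θ := by
      have := ((((Complex.ofRealCLM.hasDerivAt (x := θ)).mul_const (l : ℂ)).mul_const
        (t : ℂ)).neg).mul_const I
      simpa using this
    have h2 := (h1.cexp.neg).div_const (t : ℂ)
    have h3 : -(Complex.exp (-(((θ * l : ℝ) : ℂ) * t) * I) * (-((l : ℂ) * t) * I)) / t =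
        (l * I) * ex (θ * l) t := by
      unfold ex; field_simp
    rw [h3] at h2
    exact h2
  rw [← intervalIntegral.integral_of_le zero_le_one,
    intervalIntegral.integral_eq_sub_of_hasDerivAt (fun θ _ => hd θ)]
  · simp only [one_mul, zero_mul, ex_zero]; ring
  · refine Continuous.intervalIntegrable ?_ _ _
    exact continuous_const.mul (ex_cont.comp ((continuous_id.mul continuous_const).prodMk
      continuous_const))

theorem SB.dq1 (hW : Wt W) (h : SB W K M) (l : ℝ) :
    SB W (fun x t => K x t * ((1 - ex l t) / t)) (|l| * M) := by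
  refine ⟨h.meas.mul ((measurable_const.sub ((ex_meas l).comp measurable_snd)).div
    (Complex.measurable_ofReal.comp measurable_snd)), fun ε hε => ?_, fun ε hε μ => ?_⟩
  · obtain ⟨C, hC⟩ := h.bdd ε hε
    refine ⟨C * |l|, fun x t ht => ?_⟩
    rw [norm_mul, norm_div, Complex.norm_real, Real.norm_eq_abs]
    refine mul_le_mul (hC x t ht) ?_ (by positivity) ((norm_nonneg _).trans (hC x t ht))
    rw [div_le_iff₀ (abs_pos.2 (Sd_ne hε ht))]
    exact norm_one_sub_ex l t
  · have hme : Measurable fun q : (ℝ × ℝ) × ℝ => K q.1.2 q.2 * ex (q.1.1 * l + μ) q.2 := by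
      have a1 : Measurable fun q : (ℝ × ℝ) × ℝ => K q.1.2 q.2 :=
        h.meas.comp (f := fun q : (ℝ × ℝ) × ℝ => (q.1.2, q.2)) (by fun_prop)
      have a2 : Continuous fun q : (ℝ × ℝ) × ℝ => ex (q.1.1 * l + μ) q.2 := by
        unfold ex; fun_prop
      exact a1.mul a2.measurable
    have hF : Measurable fun p : ℝ × ℝ =>
        (l * I : ℂ) * ∫ t in Sd ε, K p.2 t * ex (p.1 * l + μ) t := by
      have h1 := hme.stronglyMeasurable.integral_prod_right' (ν := volume.restrict (Sd ε))
      exact h1.measurable.const_mul _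
    have key := Bd.integral (μ := volume.restrict (Ioc (0 : ℝ) 1)) hW
      (F := fun θ x => (l * I : ℂ) * ∫ t in Sd ε, K x t * ex (θ * l + μ) t) (m := fun _ => |l| * M)
      hF (ae_of_all _ fun θ => ((h.le ε hε (θ * l + μ)).const_mul (l * I)).mono (by simp))
      (integrable_const _)
    simp only [integral_const, measureReal_restrict_apply_univ, Real.volume_real_Ioc, sub_zero,
      smul_eq_mul] at key
    refine (key.mono (by simp)).congr fun x => ?_
    obtain ⟨C, hC⟩ := h.bdd ε hε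
    have hint : Integrable (Function.uncurry fun (θ t : ℝ) =>
        (l * I : ℂ) * (K x t * ex (θ * l + μ) t))
        ((volume.restrict (Ioc (0 : ℝ) 1)).prod (volume.restrict (Sd ε))) := by
      refine Integrable.of_bound ((hme.comp ((measurable_fst.prodMk measurable_const).prodMk
        measurable_snd)).const_mul _).aestronglyMeasurable (|l| * C) ?_
      have := (Measure.quasiMeasurePreserving_snd (μ := volume.restrict (Ioc (0 : ℝ) 1))
        (ν := volume.restrict (Sd ε))).ae (ae_restrict_mem (Sd_meas ε))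
      filter_upwards [this] with p hp
      simp only [Function.uncurry, norm_mul, norm_ex, mul_one, Complex.norm_I, Complex.norm_real,
        Real.norm_eq_abs]
      exact mul_le_mul_of_nonneg_left (hC x _ hp) (abs_nonneg _)
    simp_rw [← integral_const_mul]
    rw [integral_integral_swap hint]
    refine setIntegral_congr_fun (Sd_meas ε) fun t ht => ?_
    rw [← ex_avg l t (Sd_ne hε ht), ← integral_const_mul, ← integral_mul_const]
    congr 1; funext θ
    rw [ex_add]; ring

/-- The difference quotient. -/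
noncomputable def dq (f : ℝ → ℂ) (x t : ℝ) : ℂ := (f x - f (x - t)) / t

theorem dq_meas (hf : Continuous f) : Measurable fun p : ℝ × ℝ => dq f p.1 p.2 :=
  ((hf.measurable.comp measurable_fst).sub
    (hf.measurable.comp (measurable_fst.sub measurable_snd))).div
    (Complex.measurable_ofReal.comp measurable_snd)

theorem Bd.norm_dq (hW : Wt W) (hf : Bd (up W) f N) (x t : ℝ) : ‖dq f x t‖ ≤ N := by
  unfold dq
  rcases eq_or_ne t 0 with rfl | ht
  · simpa using hf.nonneg
  · rw [norm_div, Complex.norm_real, Real.norm_eq_abs, div_le_iff₀ (abs_pos.2 ht)]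
    simpa using hf.lip hW x (x - t)

/-- Multiplication by a difference quotient. -/
theorem SB.mul_dq (hW : Wt W) (h : SB W K M) (hf : Bd (up W) f N) :
    SB W (fun x t => K x t * dq f x t) (M * N) := by
  have h1 : ∀ l : ℤ, SB W (fun x t => (coef f l * ee l x) * (K x t * ((1 - ex l t) / t)))
      (up W l * ‖coef f l‖ * M) := fun l =>
    ((h.dq1 hW l).left hW ((((Bd.one hW).ee_mul hW l).const_mul (coef f l)).congr
      fun x => by simp)).mono (by
        unfold up
        have := h.nonneg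
        have := hW.nonneg l
        have : 0 ≤ W l * ‖coef f l‖ * M := by positivity
        nlinarith)
  refine (SB.tsum hW h1 ((hf.summable hW.up).mul_right M)
    (h.meas.mul (dq_meas hf.cont)) (fun ε hε => ?_) fun x t _ _ => ?_).mono ?_
  · obtain ⟨C, hC⟩ := h.bdd ε hε
    refine ⟨fun l => up W l * ‖coef f l‖ * C, (hf.summable hW.up).mul_right C,
      fun l x t ht => ?_⟩
    have hC0 : 0 ≤ C := (norm_nonneg _).trans (hC x t ht)
    have h2 : ‖(1 - ex l t) / t‖ ≤ up W l := by
      rw [norm_div, Complex.norm_real, Real.norm_eq_abs, div_le_iff₀ (abs_pos.2 (Sd_ne hε ht))]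
      refine (norm_one_sub_ex l t).trans (mul_le_mul_of_nonneg_right ?_ (abs_nonneg _))
      unfold up
      nlinarith [hW.one_le l, abs_nonneg (l : ℝ)]
    rw [norm_mul, norm_mul, norm_ee, mul_one, norm_mul]
    calc ‖coef f l‖ * (‖K x t‖ * ‖(1 - ex l t) / t‖) ≤ ‖coef f l‖ * (C * up W l) :=
          mul_le_mul_of_nonneg_left (mul_le_mul (hC x t ht) h2 (norm_nonneg _) hC0) (norm_nonneg _)
      _ = _ := by ring
  · have := ((((hf.hasSum hW.up x).sub (hf.hasSum hW.up (x - t))).div_const (t : ℂ))).mul_left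
      (K x t)
    have e : (fun l : ℤ => (coef f l * ee l x) * (K x t * ((1 - ex l t) / t))) =
        fun l : ℤ => K x t * ((coef f l * ee l x - coef f l * ee l (x - t)) / t) := by
      funext l; rw [ee_sub]; ring
    rw [e]; exact this
  · rw [tsum_mul_right, mul_comm]
    exact mul_le_mul_of_nonneg_left (hf.tsum_le hW.up) h.nonneg

/-- Bounded kernels. -/
theorem SB.of_bd (hW : Wt W) (hm : Measurable fun p : ℝ × ℝ => K p.1 p.2) (hM : 0 ≤ M)
    (h : ∀ t, t ≠ 0 → |t| ≤ π → Bd W (fun x => K x t) M) : SB W K (2 * π * M) := by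
  refine ⟨hm, fun ε hε => ⟨M, fun x t ht => (h t (Sd_ne hε ht) ht.2).norm_le hW x⟩,
    fun ε hε μ => ?_⟩
  have key := Bd.integral (μ := volume.restrict (Sd ε)) hW
    (F := fun t x => K x t * ex μ t) (m := fun _ => M)
    ((hm.comp measurable_swap).mul ((ex_meas μ).comp measurable_fst))
    ((ae_restrict_iff' (Sd_meas ε)).2 (ae_of_all _ fun t ht =>
      (((h t (Sd_ne hε ht) ht.2).const_mul (ex μ t)).mono (by rw [norm_ex, one_mul])).congr
        fun x => mul_comm _ _))
    (integrable_const _)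
  rw [integral_const, smul_eq_mul] at key
  exact key.mono (mul_le_mul_of_nonneg_right (Sd_real ε) hM)

theorem integral_Sd {g : ℝ → ℂ} {ε : ℝ} (h0 : 0 ≤ ε) (hε : ε ≤ π)
    (h1 : IntegrableOn g (Sd ε)) :
    ∫ t in Sd ε, g t = ∫ t in ε..π, (g t + g (-t)) := by
  have hU : Sd ε = Ioc ε π ∪ Ico (-π) (-ε) := by
    ext t
    simp only [Sd, mem_ofPred_eq, mem_union, mem_Ioc, mem_Ico]
    rcases le_total 0 t with ht | ht
    · rw [abs_of_nonneg ht]
      constructor
      · exact fun h => Or.inl h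
      · rintro (h | h)
        · exact h
        · linarith [h.2]
    · rw [abs_of_nonpos ht]
      constructor
      · exact fun h => Or.inr ⟨by linarith [h.2], by linarith [h.1]⟩
      · rintro (h | h)
        · linarith [h.1]
        · exact ⟨by linarith [h.2], by linarith [h.1]⟩
  have hd : Disjoint (Ioc ε π) (Ico (-π) (-ε)) :=
    Set.disjoint_left.2 fun t ht ht' => by linarith [ht.1, ht'.2]
  rw [hU] at h1 ⊢
  have i1 : IntervalIntegrable g volume ε π :=
    (intervalIntegrable_iff_integrableOn_Ioc_of_le hε).2 (h1.mono_set subset_union_left)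
  have i2 : IntervalIntegrable g volume (-π) (-ε) :=
    (intervalIntegrable_iff_integrableOn_Ico_of_le (by linarith)).2 (h1.mono_set subset_union_right)
  have i3 : IntervalIntegrable (fun t => g (-t)) volume ε π := by
    have := (IntervalIntegrable.iff_comp_neg (f := g) (a := -π) (b := -ε)).1 i2
    simpa using this.symm
  rw [setIntegral_union hd measurableSet_Ico (h1.mono_set subset_union_left)
    (h1.mono_set subset_union_right), intervalIntegral.integral_add i1 i3,
    intervalIntegral.integral_comp_neg, intervalIntegral.integral_of_le hε,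
    intervalIntegral.integral_of_le (by linarith : -π ≤ -ε), integral_Ioc_eq_integral_Ioo
      (x := -π), integral_Ico_eq_integral_Ioo]

theorem far_bound {μ c b : ℝ} (hμ : μ ≠ 0) (hc : 0 < c) (hb : c ≤ b) :
    ‖∫ t in c..b, ex μ t / t‖ ≤ 2 / (|μ| * c) := by
  have hμc : (μ : ℂ) ≠ 0 := by exact_mod_cast hμ
  have hμ0 : 0 < |μ| := abs_pos.2 hμ
  have hpos : ∀ t ∈ uIcc c b, 0 < t := fun t ht => by
    rw [uIcc_of_le hb] at ht; linarith [ht.1]
  have hex : ∀ t : ℝ, HasDerivAt (ex μ) (ex μ t * (-μ * I)) t := by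
    intro t
    have h1 : HasDerivAt (fun t : ℝ => -((μ : ℂ) * t) * I) (-μ * I) t := by
      have := (((Complex.ofRealCLM.hasDerivAt (x := t)).const_mul (μ : ℂ)).neg).mul_const I
      simpa using this
    exact h1.cexp
  have hd : ∀ t ∈ uIcc c b, HasDerivAt (fun t : ℝ => I / μ * (ex μ t / t))
      (ex μ t / t - I / μ * (ex μ t / t ^ 2)) t := by
    intro t ht
    have ht0 : (t : ℂ) ≠ 0 := by exact_mod_cast (hpos t ht).ne'
    have h1 := ((hex t).div (Complex.ofRealCLM.hasDerivAt (x := t)) ht0).const_mul (I / μ)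
    have h2 : I / μ * ((ex μ t * (-μ * I) * Complex.ofRealCLM t - ex μ t * Complex.ofRealCLM 1) /
        Complex.ofRealCLM t ^ 2) = ex μ t / t - I / μ * (ex μ t / t ^ 2) := by
      simp only [Complex.ofRealCLM_apply, Complex.ofReal_one]
      field_simp
      ring_nf
      rw [Complex.I_sq]; ring
    rw [h2] at h1
    exact h1
  have hexc : Continuous (ex μ) := ex_cont.comp (continuous_const.prodMk continuous_id)
  have hne : ∀ t ∈ uIcc c b, (t : ℂ) ≠ 0 := fun t ht => by exact_mod_cast (hpos t ht).ne'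
  have c1 : ContinuousOn (fun t : ℝ => ex μ t / t) (uIcc c b) :=
    hexc.continuousOn.div Complex.continuous_ofReal.continuousOn hne
  have c2 : ContinuousOn (fun t : ℝ => I / μ * (ex μ t / t ^ 2)) (uIcc c b) :=
    continuousOn_const.mul (hexc.continuousOn.div
      (Complex.continuous_ofReal.pow 2).continuousOn fun t ht => pow_ne_zero 2 (hne t ht))
  have e1 := intervalIntegral.integral_eq_sub_of_hasDerivAt hd
    (c1.intervalIntegrable.sub c2.intervalIntegrable)
  rw [intervalIntegral.integral_sub c1.intervalIntegrable c2.intervalIntegrable,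
    sub_eq_iff_eq_add] at e1
  have hb0 : 0 < b := hc.trans_le hb
  have n1 : ∀ t : ℝ, 0 < t → ‖I / μ * (ex μ t / t)‖ = 1 / (|μ| * t) := by
    intro t ht
    rw [norm_mul, norm_div, norm_div, norm_ex, Complex.norm_I, Complex.norm_real,
      Complex.norm_real, Real.norm_eq_abs, Real.norm_of_nonneg ht.le]
    field_simp
  have n2 : ‖∫ t in c..b, I / μ * (ex μ t / t ^ 2)‖ ≤ 1 / (|μ| * c) - 1 / (|μ| * b) := by
    have hd2 : ∀ t ∈ uIcc c b, HasDerivAt (fun t : ℝ => -(1 / |μ| * t⁻¹)) (1 / |μ| * (1 / t ^ 2)) t := by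
      intro t ht
      have := ((hasDerivAt_inv (hpos t ht).ne').const_mul (1 / |μ|)).neg
      rwa [show -(1 / |μ| * -(t ^ 2)⁻¹) = 1 / |μ| * (1 / t ^ 2) by ring] at this
    have c3 : ContinuousOn (fun t : ℝ => 1 / |μ| * (1 / t ^ 2)) (uIcc c b) :=
      continuousOn_const.mul (continuousOn_const.div (continuous_pow 2).continuousOn
        fun t ht => pow_ne_zero 2 (hpos t ht).ne')
    have e2 := intervalIntegral.integral_eq_sub_of_hasDerivAt hd2 c3.intervalIntegrable
    refine (intervalIntegral.norm_integral_le_of_norm_le hb (ae_of_all _ fun t ht => ?_)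
      c3.intervalIntegrable).trans (le_of_eq ?_)
    · rw [norm_mul, norm_div, norm_div, norm_ex, Complex.norm_I, norm_pow, Complex.norm_real,
        Complex.norm_real, Real.norm_eq_abs, Real.norm_eq_abs, sq_abs]
    · rw [e2]; field_simp; ring
  rw [e1]
  calc _ ≤ ‖I / μ * (ex μ b / b)‖ + ‖I / μ * (ex μ c / c)‖ +
        ‖∫ t in c..b, I / μ * (ex μ t / t ^ 2)‖ :=
        (norm_add_le _ _).trans (add_le_add (norm_sub_le _ _) le_rfl)
    _ ≤ 1 / (|μ| * b) + 1 / (|μ| * c) + (1 / (|μ| * c) - 1 / (|μ| * b)) := by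
        rw [n1 b hb0, n1 c hc]; linarith
    _ = 2 / (|μ| * c) := by ring

theorem si_bound {ε : ℝ} (hε : 0 < ε) (μ : ℝ) : ‖∫ t in Sd ε, ex μ t / t‖ ≤ 6 := by
  rcases lt_or_ge π ε with hπ | hπ
  · have : Sd ε = ∅ := Set.eq_empty_of_forall_notMem fun t ht => by linarith [ht.1, ht.2]
    simp [this]
  have hexc : ∀ ν, Continuous (ex ν) := fun ν =>
    ex_cont.comp (continuous_const.prodMk continuous_id)
  have hint : IntegrableOn (fun t : ℝ => ex μ t / t) (Sd ε) := by
    refine Integrable.of_bound ((ex_meas μ).div Complex.measurable_ofReal).aestronglyMeasurable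
      (1 / ε) ((ae_restrict_iff' (Sd_meas ε)).2 (ae_of_all _ fun t ht => ?_))
    rw [norm_div, norm_ex, Complex.norm_real, Real.norm_eq_abs]
    exact one_div_le_one_div_of_le hε ht.1.le
  rw [integral_Sd hε.le hπ hint]
  have hfun : (fun t : ℝ => ex μ t / t + ex μ (-t) / ((-t : ℝ) : ℂ)) =
      fun t : ℝ => ex μ t / t - ex (-μ) t / t := by
    funext t
    have : ex μ (-t) = ex (-μ) t := by unfold ex; congr 1; push_cast; ring
    rw [this]; push_cast; ring
  rw [hfun]
  rcases eq_or_ne μ 0 with rfl | hμ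
  · simp
  have hμ0 : 0 < |μ| := abs_pos.2 hμ
  have cI : ∀ ν a b : ℝ, 0 < a → 0 < b → IntervalIntegrable (fun t : ℝ => ex ν t / t) volume a b := by
    intro ν a b ha hb
    refine ContinuousOn.intervalIntegrable ((hexc ν).continuousOn.div
      Complex.continuous_ofReal.continuousOn fun t ht => ?_)
    have : 0 < t := lt_of_lt_of_le (lt_min ha hb) ht.1
    exact_mod_cast this.ne'
  set c := max ε (min π (1 / |μ|)) with hc
  have hc1 : ε ≤ c := le_max_left _ _
  have hc2 : c ≤ π := max_le hπ (min_le_left _ _)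
  have hc0 : 0 < c := hε.trans_le hc1
  rw [← intervalIntegral.integral_add_adjacent_intervals (b := c)
    ((cI μ ε c hε hc0).sub (cI (-μ) ε c hε hc0))
    ((cI μ c π hc0 Real.pi_pos).sub (cI (-μ) c π hc0 Real.pi_pos))]
  have near : ‖∫ t in ε..c, (ex μ t / t - ex (-μ) t / t)‖ ≤ 2 := by
    have h1 : ‖∫ t in ε..c, (ex μ t / t - ex (-μ) t / t)‖ ≤ 2 * |μ| * |c - ε| :=
      intervalIntegral.norm_integral_le_of_norm_le_const fun t ht => by
        rw [uIoc_of_le hc1] at ht
        have ht0 : 0 < t := hε.trans ht.1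
        rw [← sub_div, norm_div, Complex.norm_real, Real.norm_of_nonneg ht0.le, div_le_iff₀ ht0]
        have e : ex μ t - ex (-μ) t = (1 - ex (-μ) t) - (1 - ex μ t) := by ring
        have h2 := norm_one_sub_ex μ t
        have h3 := norm_one_sub_ex (-μ) t
        rw [abs_neg, abs_of_pos ht0] at h3
        rw [abs_of_pos ht0] at h2
        rw [e]
        linarith [norm_sub_le (1 - ex (-μ) t) (1 - ex μ t)]
    refine h1.trans ?_
    rw [abs_of_nonneg (sub_nonneg.2 hc1)]
    have h4 : c - ε ≤ 1 / |μ| := by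
      rcases le_total ε (min π (1 / |μ|)) with h | h
      · rw [hc, max_eq_right h]; linarith [min_le_right π (1 / |μ|)]
      · rw [hc, max_eq_left h, sub_self]; positivity
    calc 2 * |μ| * (c - ε) ≤ 2 * |μ| * (1 / |μ|) := mul_le_mul_of_nonneg_left h4 (by positivity)
      _ = 2 := by field_simp
  have far : ‖∫ t in c..π, (ex μ t / t - ex (-μ) t / t)‖ ≤ 4 := by
    rcases le_total π (1 / |μ|) with h | h
    · have : c = π := by rw [hc, min_eq_left h, max_eq_right hπ]
      rw [this]; simp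
    · have h1 : 1 / |μ| ≤ c := by rw [hc, min_eq_right h]; exact le_max_right _ _
      have h2 : 2 / (|μ| * c) ≤ 2 := by
        rw [div_le_iff₀ (by positivity)]
        rw [div_le_iff₀ hμ0] at h1
        nlinarith
      rw [intervalIntegral.integral_sub (cI μ c π hc0 Real.pi_pos) (cI (-μ) c π hc0 Real.pi_pos)]
      have h3 := far_bound hμ hc0 hc2
      have h4 := far_bound (neg_ne_zero.2 hμ) hc0 hc2
      rw [abs_neg] at h4
      linarith [norm_sub_le (∫ t in c..π, ex μ t / t) (∫ t in c..π, ex (-μ) t / t)]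
  linarith [norm_add_le (∫ t in ε..c, (ex μ t / t - ex (-μ) t / t))
    (∫ t in c..π, (ex μ t / t - ex (-μ) t / t))]

theorem SB.inv (hW : Wt W) : SB W (fun _ t => 1 / (t : ℂ)) 6 := by
  refine ⟨measurable_const.div (Complex.measurable_ofReal.comp measurable_snd),
    fun ε hε => ⟨1 / ε, fun x t ht => ?_⟩, fun ε hε μ => ?_⟩
  · rw [norm_div, norm_one, Complex.norm_real, Real.norm_eq_abs]
    exact one_div_le_one_div_of_le hε ht.1.le
  · refine ((Bd.const hW (∫ t in Sd ε, ex μ t / t)).mono (si_bound hε μ)).congr fun x => ?_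
    congr 1; funext t; ring

end Pool.Agent.Lib.MP_3d41d4_an.CK
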