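import Pool.Agent.Lib.MP_3d41d4_an.CKOp
import Pool.Agent.Lib.MP_3d41d4_an.CKAck
import Pool.Agent.Lib.MP_3d41d4_an.CKStrip

/-!
The Birkhoff-Rott vector field in the unknowns `p = exp (-φ)` and `γ`.
-/

open Complex MeasureTheory Filter Topology Set
open scoped Real

namespace Pool.Agent.Lib.MP_3d41d4_an.CK

/-- The scale of weights. -/
noncomputable def VV (ρ : ℝ) : Bool → ℤ → ℝ
  | true => up (wt ρ)
  | false => wt ρ

/-- The curve attached to a state. -/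
noncomputable def cw (u : Bool → ℝ → ℂ) (y : ℝ) : ℂ := ee 1 y * u true y

/-- The complex velocity of a state. -/
noncomputable def BB (u : Bool → ℝ → ℂ) : ℝ → ℂ := Bop (cw u) (u false)

/-- The vector field. -/
noncomputable def GG (u : Bool → ℝ → ℂ) : Bool → ℝ → ℂ
  | true => fun x => (((u true x - I * deriv (u true) x) * BB u x).im : ℂ)
  | false => fun x => ((-deriv (fun y => u false y * BB u y) x).re : ℂ)

theorem VV_wt (ρ : ℝ) (h : 0 ≤ ρ) (i : Bool) : Wt (VV ρ i) := by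
  cases i
  · exact wt_Wt h
  · exact (wt_Wt h).up

theorem VV_mono (ρ ρ' : ℝ) (h : ρ ≤ ρ') (i : Bool) (k : ℤ) : VV ρ i k ≤ VV ρ' i k := by
  cases i
  · exact wt_mono h k
  · exact up_wt_mono h k

theorem up_wt_one {ρ : ℝ} (h : ρ ≤ 1) : up (wt ρ) 1 ≤ 6 := by
  unfold up wt
  have h1 : Real.exp (ρ * |((1 : ℤ) : ℝ)|) ≤ Real.exp 1 := Real.exp_le_exp.2 (by simpa using h)
  have h2 := Real.exp_one_lt_d9
  simp only [Int.cast_one, abs_one] at h1 ⊢
  linarith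

/-- Standing data. -/
structure Dat (σ : ℝ) (u0 : Bool → ℝ → ℂ) (C M0 Q r : ℝ) : Prop where
  pos : 0 < σ
  le1 : σ ≤ 1
  base : Base (wt σ) (cw u0) C M0
  bd : ∀ i, Bd (VV σ i) (u0 i) Q
  r0 : 0 ≤ r
  r1 : r ≤ 1
  small : C * (6 * r) ≤ 1 / 2

variable {σ C M0 Q r ρ ρ' d : ℝ} {u0 u v : Bool → ℝ → ℂ}

theorem Base.wle {w0 : ℝ → ℂ} (h : Base (CK.wt σ) w0 C M0) (h0 : 0 ≤ ρ) (h1 : ρ ≤ σ) :
    Base (CK.wt ρ) w0 C M0 :=
  ⟨wt_Wt h0, h.cont, h.C0, h.ne, h.le, h.geo.wle (wt_mono h1)⟩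

theorem Dat.M0_nonneg (h : Dat σ u0 C M0 Q r) : 0 ≤ M0 := h.base.geo.sb.nonneg

theorem Dat.state (h : Dat σ u0 C M0 Q r) (h0 : 0 ≤ ρ) (h1 : ρ ≤ σ) (hu : Nd (VV ρ) u u0 r)
    (i : Bool) : Bd (VV ρ i) (u i) (Q + 1) :=
  ((((h.bd i).wle (VV_mono _ _ h1 i)).add (VV_wt ρ h0 i) (hu i)).mono
    (by linarith [h.r1])).congr fun x => by ring

theorem cw_sub (h0 : 0 ≤ ρ) (h1 : ρ ≤ 1) (hu : Nd (VV ρ) u v d) :
    Bd (up (wt ρ)) (fun x => cw u x - cw v x) (6 * d) :=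
  (((hu true).ee_mul (wt_Wt h0).up 1).mono
    (mul_le_mul_of_nonneg_right (up_wt_one h1) (hu true).nonneg)).congr fun x => by
      unfold cw; ring

theorem Dat.cw_bd (h : Dat σ u0 C M0 Q r) (h0 : 0 ≤ ρ) (h1 : ρ ≤ σ) (hu : Nd (VV ρ) u u0 r) :
    Bd (up (wt ρ)) (cw u) (6 * (Q + 1)) :=
  ((h.state h0 h1 hu true).ee_mul (wt_Wt h0).up 1).mono
    (mul_le_mul_of_nonneg_right (up_wt_one (h1.trans h.le1)) (h.state h0 h1 hu true).nonneg)

theorem Dat.FK_sb (h : Dat σ u0 C M0 Q r) (h0 : 0 ≤ ρ) (h1 : ρ ≤ σ) (hu : Nd (VV ρ) u u0 r) :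
    SB (wt ρ) (FK (cw u) (u false)) ((8 + 4 * M0 * (6 * (Q + 1))) * (Q + 1)) :=
  (h.base.wle h0 h1).FK_sb (cw_sub h0 (h1.trans h.le1) hu) h.small
    ((h.cw_bd h0 h1 hu).down (wt_Wt h0)) (h.state h0 h1 hu false)

theorem Dat.fold (h : Dat σ u0 C M0 Q r) (h0 : 0 < ρ) (h1 : ρ ≤ σ) (hu : Nd (VV ρ) u u0 r) :
    ∃ A, ∀ x t, 0 < t → t ≤ π → ‖FK (cw u) (u false) x t + FK (cw u) (u false) x (-t)‖ ≤ A :=
  (h.base.wle h0.le h1).FK_fold (cw_sub h0.le (h1.trans h.le1) hu) h.small (wt_Wt le_rfl)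
    ((h.cw_bd h0.le h1 hu).cauchy_up h0 (by linarith [h.le1]))
    (Bd.cauchy h0 (by linarith [h.le1]) (h.state h0.le h1 hu false))

/-- Bound of the velocity. -/
noncomputable def cB (M0 Q : ℝ) : ℝ := (8 + 4 * M0 * (6 * (Q + 1))) * (Q + 1)

/-- Lipschitz constant of the velocity. -/
noncomputable def cL (C M0 Q : ℝ) : ℝ :=
  (8 + 8 * M0 * C * (6 * (Q + 1)) * (Q + 1) + 4 * M0 * ((Q + 1) + 6 * (Q + 1))) * 6

theorem Dat.BB_bd (h : Dat σ u0 C M0 Q r) (h0 : 0 < ρ) (h1 : ρ ≤ σ) (hu : Nd (VV ρ) u u0 r) :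
    Bd (wt ρ) (BB u) (cB M0 Q) := by
  obtain ⟨A, hA⟩ := h.fold h0 h1 hu
  exact (h.FK_sb h0.le h1 hu).pv_bd hA

theorem Dat.BB_sub (h : Dat σ u0 C M0 Q r) (h0 : 0 < ρ) (h1 : ρ ≤ σ) (hu : Nd (VV ρ) u u0 r)
    (hv : Nd (VV ρ) v u0 r) (hd : Nd (VV ρ) u v d) :
    Bd (wt ρ) (fun x => BB u x - BB v x) (cL C M0 Q * d) := by
  obtain ⟨A, hA⟩ := h.fold h0 h1 hu
  obtain ⟨A', hA'⟩ := h.fold h0 h1 hv
  have hW := wt_Wt h0.le
  have h2 := h1.trans h.le1
  have hd0 := (hd false).nonneg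
  have key := (h.base.wle h0.le h1).FK_sub (cw_sub h0.le h2 hu) (cw_sub h0.le h2 hv) h.small
    ((h.cw_bd h0.le h1 hu).down hW) (h.state h0.le h1 hu false)
    ((h.cw_bd h0.le h1 hv).down hW) (h.state h0.le h1 hv false) (cw_sub h0.le h2 hd)
    (Bd.mono (N := 6 * d) (hd false) (by linarith))
  exact (SB.pv_sub_bd (h.FK_sb h0.le h1 hu) (h.FK_sb h0.le h1 hv) key hA hA').mono
    (le_of_eq (by unfold cL; ring))

theorem Dat.tan_bd (h : Dat σ u0 C M0 Q r) (h0 : 0 ≤ ρ) (h1 : ρ ≤ σ) (hu : Nd (VV ρ) u u0 r) :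
    Bd (wt ρ) (fun x => u true x - I * deriv (u true) x) (2 * (Q + 1)) := by
  have hW := wt_Wt h0
  have a : Bd (up (wt ρ)) (u true) (Q + 1) := h.state h0 h1 hu true
  exact ((a.down hW).sub hW ((a.deriv hW).const_mul I)).mono (by simp; linarith)

theorem Dat.flux_bd (h : Dat σ u0 C M0 Q r) (h0 : 0 < ρ) (h1 : ρ ≤ σ) (hu : Nd (VV ρ) u u0 r) :
    Bd (wt ρ) (fun y => u false y * BB u y) ((Q + 1) * cB M0 Q) :=
  Bd.mul (wt_Wt h0.le) (h.state h0.le h1 hu false) (h.BB_bd h0 h1 hu)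

theorem Dat.GG_bd (h : Dat σ u0 C M0 Q r) (h0 : 0 ≤ ρ) (h1 : ρ < ρ') (h2 : ρ' ≤ σ)
    (hu : Nd (VV ρ') u u0 r) (i : Bool) :
    Bd (VV ρ i) (GG u i) (1 / (ρ' - ρ) * (2 * (Q + 1) * cB M0 Q)) := by
  have h0' : 0 < ρ' := h0.trans_lt h1
  have hW := wt_Wt h0
  have hW' := wt_Wt h0'.le
  have h3 : ρ' - ρ ≤ 1 := by linarith [h.le1]
  have hB := h.BB_bd h0' h2 hu
  cases i
  · have a := (h.flux_bd h0' h2 hu).mono (N := 2 * (Q + 1) * cB M0 Q)
      (by nlinarith [(h.flux_bd h0' h2 hu).nonneg])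
    exact (((a.cauchy h1 h3).deriv hW).neg).re hW
  · exact ((((h.tan_bd h0'.le h2 hu).mul hW' hB).im hW').cauchy h1 h3)

theorem Dat.GG_lip (h : Dat σ u0 C M0 Q r) (h0 : 0 ≤ ρ) (h1 : ρ < ρ') (h2 : ρ' ≤ σ)
    (hu : Nd (VV ρ') u u0 r) (hv : Nd (VV ρ') v u0 r) (hd : Nd (VV ρ') u v d) :
    Nd (VV ρ) (GG u) (GG v) ((2 * cB M0 Q + 2 * (Q + 1) * cL C M0 Q) * d / (ρ' - ρ)) := by
  have h0' : 0 < ρ' := h0.trans_lt h1
  have hW := wt_Wt h0
  have hW' := wt_Wt h0'.le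
  have h3 : ρ' - ρ ≤ 1 := by linarith [h.le1]
  have hB := h.BB_bd h0' h2 hu
  have hBd := h.BB_sub h0' h2 hu hv hd
  have e : (2 * cB M0 Q + 2 * (Q + 1) * cL C M0 Q) * d / (ρ' - ρ) =
      1 / (ρ' - ρ) * ((2 * cB M0 Q + 2 * (Q + 1) * cL C M0 Q) * d) := by ring
  rw [e]
  intro i
  cases i
  · have s1 : Bd (wt ρ') (fun x => u false x - v false x) d := hd false
    have s2 : Bd (wt ρ') (v false) (Q + 1) := h.state h0'.le h2 hv false
    have a : Bd (wt ρ') (fun y => u false y * BB u y - v false y * BB v y)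
        ((2 * cB M0 Q + 2 * (Q + 1) * cL C M0 Q) * d) :=
      (((s1.mul hW' hB).add hW' (s2.mul hW' hBd)).mono (by
        nlinarith [(s1.mul hW' hB).nonneg, (s2.mul hW' hBd).nonneg])).congr fun x => by ring
    refine ((((a.cauchy h1 h3).deriv hW).neg).re hW).congr fun x => ?_
    have d1 := ((h.flux_bd h0' h2 hu).cauchy h1 h3).differentiable hW x
    have d2 := ((h.flux_bd h0' h2 hv).cauchy h1 h3).differentiable hW x
    rw [deriv_fun_sub d1 d2]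
    simp only [GG]
    rw [← Complex.ofReal_sub, ← Complex.sub_re]
    congr 2; ring
  · have s1 : Bd (up (wt ρ')) (fun x => u true x - v true x) d := hd true
    have s2 := h.tan_bd h0'.le h2 hv
    have s3 : Bd (wt ρ') (fun x => (u true x - v true x) -
        I * deriv (fun x => u true x - v true x) x) (2 * d) :=
      ((s1.down hW').sub hW' ((s1.deriv hW').const_mul I)).mono (by simp; linarith)
    have a := ((((s3.mul hW' hB).add hW' (s2.mul hW' hBd)).im hW').mono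
      (N := (2 * cB M0 Q + 2 * (Q + 1) * cL C M0 Q) * d) (le_of_eq (by ring))).cauchy h1 h3
    refine a.congr fun x => ?_
    have d1 := Bd.differentiable hW' (h.state h0'.le h2 hu true) x
    have d2 := Bd.differentiable hW' (h.state h0'.le h2 hv true) x
    rw [deriv_fun_sub d1 d2]
    simp only [GG]
    rw [← Complex.ofReal_sub, ← Complex.sub_im]
    congr 2; ring

theorem Dat.exists_sol (h : Dat σ u0 C M0 Q r) (hr : 0 < r) :
    ∃ T : ℝ, 0 < T ∧ ∃ u : ℝ → Bool → ℝ → ℂ, (∀ t, Nd (VV (σ / 2 / 2)) (u t) u0 r) ∧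
      (∀ i x, Continuous fun s => GG (u s) i x) ∧
      ∀ t ∈ Icc 0 T, ∀ i x, u t i x = u0 i x + ∫ s in (0 : ℝ)..t, GG (u s) i x := by
  have hσ := h.pos
  have hQ := (h.bd true).nonneg
  have hM := h.M0_nonneg
  have hC := h.base.C0
  have g0 := h.GG_bd (ρ := σ / 2) (ρ' := σ) (by linarith) (by linarith) le_rfl
    ((Nd.refl (VV_wt σ hσ.le) u0).mono h.r0)
  exact ack VV VV_wt VV_mono (L := 2 * cB M0 Q + 2 * (Q + 1) * cL C M0 Q) (by linarith) hr
    (by unfold cB cL; positivity) u0 GG g0 (g0 true).nonneg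
    fun ρ ρ' h0 h1 h2 u v d hu hv hd => h.GG_lip h0 h1 (by linarith) hu hv hd

theorem Bd.up_of_lt {f : ℝ → ℂ} {a b M : ℝ} (hf : Bd (wt a) f M) (h : b < a) :
    ∃ M', Bd (up (wt b)) f M' :=
  ⟨_, Bd.cauchy (ρ := b) (ρ' := min a (b + 1)) (lt_min h (by linarith))
    (by linarith [min_le_right a (b + 1)]) (hf.wle (wt_mono (min_le_left _ _)))⟩

theorem Bd.log {W : ℤ → ℝ} (hW : Wt W) {q : ℝ → ℂ} (hq : Bd W q (1 / 2)) :
    Bd W (fun x => Complex.log (1 + q x)) 2 := by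
  have h1 : ∀ n : ℕ, Bd W (fun x => (-1) ^ (n + 1) * q x ^ n / n) ((1 / 2) ^ n) := by
    intro n
    refine (((hq.pow hW n).const_mul ((-1) ^ (n + 1) / n)).mono ?_).congr fun x => by ring
    refine mul_le_of_le_one_left (by positivity) ?_
    rw [norm_div, norm_pow, norm_neg, norm_one, one_pow, Complex.norm_natCast]
    rcases Nat.eq_zero_or_pos n with rfl | hn
    · simp
    · exact div_le_one_of_le₀ (by exact_mod_cast hn) (Nat.cast_nonneg _)
  have h2 := Bd.tsum hW h1 summable_geometric_two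
  rw [tsum_geometric_two] at h2
  refine h2.congr fun x => ?_
  exact (Complex.hasSum_taylorSeries_log
    ((hq.norm_le hW x).trans_lt (by norm_num))).tsum_eq.symm

theorem curve_low {a b m x h : ℝ} (hm : 0 < m) (ha : m ≤ a) (hb : m ≤ b) (hh : |h| ≤ π) :
    m / 2 * |h| ≤ ‖ee 1 x * a - ee 1 (x - h) * b‖ := by
  have e : ee 1 x * a - ee 1 (x - h) * b =
      ee 1 (x - h) * (((a * Real.cos h - b : ℝ) : ℂ) + ((a * Real.sin h : ℝ) : ℂ) * I) := by
    have e1 : ee 1 x = ee 1 (x - h) * ee 1 h := by rw [← ee_add_arg, sub_add_cancel]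
    have e2 : ee 1 h = Real.cos h + Real.sin h * I := by
      unfold ee; rw [Int.cast_one, one_mul, Complex.exp_mul_I]; push_cast; ring
    rw [e1, e2]; push_cast; ring
  rw [e, norm_mul, norm_ee, one_mul, Complex.norm_add_mul_I]
  refine Real.le_sqrt_of_sq_le ?_
  have h1 := Real.cos_le_one_sub_mul_cos_sq hh
  have h2 : 1 / 8 ≤ 2 / π ^ 2 := by
    rw [div_le_div_iff₀ (by norm_num) (by positivity)]
    nlinarith [Real.pi_le_four, Real.pi_pos]
  have h3 : h ^ 2 / 8 ≤ 1 - Real.cos h := by nlinarith [sq_nonneg h]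
  have h4 : (a * Real.cos h - b) ^ 2 + (a * Real.sin h) ^ 2 =
      (a - b) ^ 2 + 2 * (a * b) * (1 - Real.cos h) := by
    linear_combination a ^ 2 * Real.cos_sq_add_sin_sq h
  have h5 : m * m ≤ a * b := mul_le_mul ha hb hm.le (hm.le.trans ha)
  rw [h4, mul_pow, sq_abs]
  have h6 : m * m * (h ^ 2 / 8) ≤ a * b * (1 - Real.cos h) :=
    mul_le_mul h5 h3 (by positivity) ((mul_pos hm hm).le.trans h5)
  nlinarith [sq_nonneg (a - b)]

theorem exists_dat {ρ0 M : ℝ} (hρ : 0 < ρ0) {φ0 γ0 : ℝ → ℝ}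
    (hφ : Bd (wt ρ0) (fun x => (φ0 x : ℂ)) M) (hγ : Bd (wt ρ0) (fun x => (γ0 x : ℂ)) M) :
    ∃ σ C M0 Q r : ℝ, 0 < r ∧ σ ≤ ρ0 ∧
      Dat σ (fun i x => bif i then (Real.exp (-φ0 x) : ℂ) else (γ0 x : ℂ)) C M0 Q r ∧
      ∃ P, Bd (wt σ) (fun x => (Real.exp (φ0 x) : ℂ)) P ∧ r * P ≤ 1 / 2 := by
  obtain ⟨Φ, hΦ, hΦr⟩ := hφ.ext hρ.le
  have expA : ∀ c : ℂ, ‖c‖ ≤ 1 → An ρ0 (fun z => Complex.exp (c * Φ z)) (Real.exp M) :=
    fun c hc => ⟨((differentiableOn_const c).mul hΦ.diff).cexp,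
      fun z hz => by simp only [hΦ.per z hz], fun z hz => by
        rw [Complex.norm_exp]
        refine Real.exp_le_exp.2 ((Complex.re_le_norm _).trans ?_)
        rw [norm_mul]
        exact (mul_le_of_le_one_left (norm_nonneg _) hc).trans (hΦ.le z hz)⟩
  have hp := ((expA (-1) (by simp)).bd hρ).congr
    (g := fun x => (Real.exp (-φ0 x) : ℂ)) fun x => by rw [hΦr]; push_cast; congr 1; ring
  have hpi := ((expA 1 (by simp)).bd hρ).congr
    (g := fun x => (Real.exp (φ0 x) : ℂ)) fun x => by rw [hΦr]; push_cast; congr 1; ring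
  have hW0 : An ρ0 (fun z => Complex.exp (z * I) * Complex.exp (-1 * Φ z))
      (Real.exp ρ0 * Real.exp M) :=
    ⟨(by fun_prop : DifferentiableOn ℂ (fun z : ℂ => Complex.exp (z * I)) _).mul
        (expA (-1) (by simp)).diff,
      fun z hz => by
        rw [hΦ.per z hz, add_mul, Complex.exp_add, Complex.exp_two_pi_mul_I, mul_one],
      fun z hz => by
        rw [norm_mul]
        refine mul_le_mul ?_ ((expA (-1) (by simp)).le z hz) (norm_nonneg _) (Real.exp_pos _).le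
        rw [Complex.norm_exp]
        refine Real.exp_le_exp.2 ?_
        have : |z.im| < ρ0 := hz
        simp only [Complex.mul_re, Complex.I_re, mul_zero, Complex.I_im, mul_one, zero_sub]
        linarith [neg_le_abs z.im]⟩
  set u0 : Bool → ℝ → ℂ := fun i x => bif i then (Real.exp (-φ0 x) : ℂ) else (γ0 x : ℂ) with hu0
  have hcw : ∀ x : ℝ, Complex.exp (x * I) * Complex.exp (-1 * Φ x) = cw u0 x := by
    intro x
    simp only [cw, ee, hu0, cond_true, hΦr]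
    push_cast
    congr 2 <;> ring
  have hcw' : ∀ x h : ℝ, Complex.exp ((x - h) * I) * Complex.exp (-1 * Φ (x - h)) =
      cw u0 (x - h) := fun x h => by rw [← hcw]; push_cast; rfl
  have hm : ∀ x, Real.exp (-M) ≤ Real.exp (-φ0 x) := fun x => by
    have := hφ.norm_le (wt_Wt hρ.le) x
    rw [Complex.norm_real, Real.norm_eq_abs] at this
    exact Real.exp_le_exp.2 (by linarith [le_abs_self (φ0 x)])
  have hlow : ∀ x h : ℝ, |h| ≤ π → Real.exp (-M) / 2 * |h| ≤ ‖cw u0 x - cw u0 (x - h)‖ :=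
    fun x h hh => curve_low (Real.exp_pos _) (hm x) (hm (x - h)) hh
  obtain ⟨ρ1, hρ1, -, C, hC, β0, hβ0, hβ⟩ := base_kernel (c0 := Real.exp (-M) / 2) hρ hW0
    (by positivity) fun x h hh => by simp only [hcw, hcw']; exact hlow x h hh
  simp only [hcw, hcw'] at hβ
  set σ := min (min ρ1 (ρ0 / 4)) 1 with hσ
  have hσ0 : 0 < σ := lt_min (lt_min hρ1 (by linarith)) one_pos
  have hσ1 : σ ≤ ρ1 := (min_le_left _ _).trans (min_le_left _ _)
  have hσ2 : σ ≤ ρ0 / 4 := (min_le_left _ _).trans (min_le_right _ _)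
  have hW := wt_Wt hσ0.le
  have hcont : Continuous (cw u0) := (ee_cont 1).mul hp.cont
  obtain ⟨Q1, hQ1⟩ := hp.up_of_lt (b := σ) (by linarith)
  set P := Real.exp M * Cs ρ0 with hP
  have hP0 : 0 ≤ P := hpi.nonneg
  refine ⟨σ, 2 * C, 28 * C, Q1 + M, min (1 / (24 * C)) (1 / (2 * (P + 1))),
    lt_min (by positivity) (by positivity), by linarith,
    ⟨hσ0, min_le_right _ _, ⟨hW, hcont, by linarith, fun x t h0 ht => ?_, fun x t h0 ht => ?_, ?_⟩,
      fun i => ?_, (lt_min (by positivity) (by positivity)).le, ?_, ?_⟩,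
    P, hpi.wle (wt_mono (by linarith)), ?_⟩
  · have h1 : 0 < Real.exp (-M) / 2 * |t| := mul_pos (by positivity) (abs_pos.2 h0)
    exact norm_pos_iff.1 (h1.trans_le (hlow x t ht))
  · exact ((hβ t h0 ht).1.norm_le (wt_Wt hρ1.le) x).trans (by linarith)
  · exact geo_base hW hC (bq_meas hcont) (hβ0.wle (wt_mono hσ1)) fun t h0 ht =>
      ⟨(hβ t h0 ht).1.wle (wt_mono hσ1), (hβ t h0 ht).2.wle (wt_mono hσ1)⟩
  · cases i
    · exact (hγ.wle (wt_mono (by linarith))).mono (by linarith [hQ1.nonneg])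
    · exact hQ1.mono (by linarith [hφ.nonneg])
  · refine (min_le_left _ _).trans ?_
    rw [div_le_one (by positivity)]; linarith
  · calc 2 * C * (6 * min (1 / (24 * C)) (1 / (2 * (P + 1)))) ≤ 2 * C * (6 * (1 / (24 * C))) :=
          mul_le_mul_of_nonneg_left (by linarith [min_le_left (1 / (24 * C)) (1 / (2 * (P + 1)))])
            (by positivity)
      _ = 1 / 2 := by field_simp; ring
  · calc min (1 / (24 * C)) (1 / (2 * (P + 1))) * P ≤ 1 / (2 * (P + 1)) * (P + 1) :=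
          mul_le_mul (min_le_right _ _) (by linarith) hP0 (by positivity)
      _ = 1 / 2 := by field_simp

end Pool.Agent.Lib.MP_3d41d4_an.CK
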