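import Mathlib

/-!
A small library for weighted Wiener classes of periodic functions.
-/

open Complex MeasureTheory Filter Topology Set
open scoped Real

namespace Pool.Agent.Lib.MP_3d41d4_an.CK

/-- The exponential `exp (i k x)`. -/
noncomputable def ee (k : ℤ) (x : ℝ) : ℂ := Complex.exp (k * x * I)

/-- Fourier coefficient of a `2π`-periodic function. -/
noncomputable def coef (f : ℝ → ℂ) (k : ℤ) : ℂ :=
  (1 / (2 * π) : ℂ) * ∫ x in (0 : ℝ)..(2 * π), f x * ee (-k) x

/-- `f` is continuous, periodic, and its weighted Wiener norm is at most `M`. -/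
structure Bd (W : ℤ → ℝ) (f : ℝ → ℂ) (M : ℝ) : Prop where
  cont : Continuous f
  per : Function.Periodic f (2 * π)
  le : ∀ S : Finset ℤ, ∑ k ∈ S, W k * ‖coef f k‖ ≤ M

/-- Admissible weights. -/
structure Wt (W : ℤ → ℝ) : Prop where
  one_le : ∀ k, 1 ≤ W k
  zero : W 0 = 1
  add : ∀ k l, W (k + l) ≤ W k * W l
  neg : ∀ k, W (-k) = W k

theorem Wt.nonneg {W : ℤ → ℝ} (h : Wt W) (k : ℤ) : 0 ≤ W k := zero_le_one.trans (h.one_le k)

theorem ee_cont (k : ℤ) : Continuous (ee k) := by
  unfold ee; fun_prop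

theorem norm_ee (k : ℤ) (x : ℝ) : ‖ee k x‖ = 1 := by
  unfold ee
  have : (k : ℂ) * x * I = ((k * x : ℝ) : ℂ) * I := by push_cast; ring
  rw [this, Complex.norm_exp_ofReal_mul_I]

theorem ee_add (k l : ℤ) (x : ℝ) : ee (k + l) x = ee k x * ee l x := by
  unfold ee
  rw [← Complex.exp_add]; congr 1; push_cast; ring

theorem ee_zero (x : ℝ) : ee 0 x = 1 := by simp [ee]

theorem ee_add_arg (k : ℤ) (x y : ℝ) : ee k (x + y) = ee k x * ee k y := by
  unfold ee
  rw [← Complex.exp_add]; congr 1; push_cast; ring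

theorem ee_per (k : ℤ) : Function.Periodic (ee k) (2 * π) := by
  intro x
  rw [ee_add_arg]
  have : ee k (2 * π) = 1 := by
    unfold ee
    have : (k : ℂ) * ((2 * π : ℝ) : ℂ) * I = k * (2 * π * I) := by push_cast; ring
    rw [this, Complex.exp_int_mul_two_pi_mul_I]
  rw [this, mul_one]

theorem ee_hasDerivAt (k : ℤ) (x : ℝ) : HasDerivAt (ee k) (k * I * ee k x) x := by
  unfold ee
  have h1 : HasDerivAt (fun y : ℝ => (k : ℂ) * y * I) (k * I) x := by
    have := ((Complex.ofRealCLM.hasDerivAt (x := x)).const_mul (k : ℂ)).mul_const I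
    simpa using this
  have := h1.cexp
  rw [mul_comm] at this
  exact this

theorem conj_ee (k : ℤ) (x : ℝ) : (starRingEnd ℂ) (ee k x) = ee (-k) x := by
  unfold ee
  rw [← Complex.exp_conj]; congr 1
  simp

theorem norm_c2pi : ‖(1 / (2 * π) : ℂ)‖ = 1 / (2 * π) := by
  have : (1 / (2 * π) : ℂ) = ((1 / (2 * π) : ℝ) : ℂ) := by push_cast; ring
  rw [this, Complex.norm_real, Real.norm_of_nonneg (by positivity)]

theorem coef_add {f g : ℝ → ℂ} (hf : Continuous f) (hg : Continuous g) (k : ℤ) :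
    coef (fun x => f x + g x) k = coef f k + coef g k := by
  unfold coef
  simp_rw [add_mul]
  rw [intervalIntegral.integral_add (f := fun x => f x * ee (-k) x) (g := fun x => g x * ee (-k) x)
    ((hf.mul (ee_cont _)).intervalIntegrable _ _)
    ((hg.mul (ee_cont _)).intervalIntegrable _ _), mul_add]

theorem coef_const_mul (c : ℂ) (f : ℝ → ℂ) (k : ℤ) :
    coef (fun x => c * f x) k = c * coef f k := by
  unfold coef
  simp_rw [mul_assoc c]
  rw [intervalIntegral.integral_const_mul]; ring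

theorem coef_ee_mul (l : ℤ) (f : ℝ → ℂ) (k : ℤ) :
    coef (fun x => ee l x * f x) k = coef f (k - l) := by
  unfold coef
  congr 2
  funext x
  have : -(k - l) = l + -k := by ring
  rw [this, ee_add]; ring

theorem coef_one (k : ℤ) : coef (fun _ => 1) k = if k = 0 then 1 else 0 := by
  unfold coef
  split_ifs with h
  · subst h
    simp only [neg_zero, ee_zero, mul_one, intervalIntegral.integral_const, sub_zero,
      Complex.real_smul]
    have : (π : ℂ) ≠ 0 := by exact_mod_cast Real.pi_ne_zero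
    push_cast
    field_simp
  · have hk : ((-k : ℤ) : ℂ) * I ≠ 0 := mul_ne_zero (by exact_mod_cast neg_ne_zero.2 h) I_ne_zero
    have h1 : ∀ x : ℝ, HasDerivAt (fun y => ee (-k) y / (((-k : ℤ) : ℂ) * I)) (1 * ee (-k) x) x := by
      intro x
      have := (ee_hasDerivAt (-k) x).div_const (((-k : ℤ) : ℂ) * I)
      rwa [mul_div_cancel_left₀ _ hk, ← one_mul (ee (-k) x)] at this
    rw [intervalIntegral.integral_eq_sub_of_hasDerivAt (fun x _ => h1 x)
      ((continuous_const.mul (ee_cont _)).intervalIntegrable _ _)]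
    have := ee_per (-k) 0
    rw [zero_add] at this
    rw [this, sub_self, mul_zero]

theorem coef_conj (f : ℝ → ℂ) (k : ℤ) :
    coef (fun x => (starRingEnd ℂ) (f x)) k = (starRingEnd ℂ) (coef f (-k)) := by
  unfold coef
  rw [map_mul, intervalIntegral.integral_of_le (by positivity : (0 : ℝ) ≤ 2 * π),
    intervalIntegral.integral_of_le (by positivity : (0 : ℝ) ≤ 2 * π), ← integral_conj]
  congr 1
  · simp [map_ofNat]
  · congr 1; funext x
    rw [map_mul, conj_ee, neg_neg]

theorem norm_coef_le {f : ℝ → ℂ} {C : ℝ} (h : ∀ x, ‖f x‖ ≤ C) (k : ℤ) : ‖coef f k‖ ≤ C := by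
  unfold coef
  rw [norm_mul, norm_c2pi]
  have h1 : ‖∫ x in (0 : ℝ)..(2 * π), f x * ee (-k) x‖ ≤ C * |2 * π - 0| :=
    intervalIntegral.norm_integral_le_of_norm_le_const fun x _ => by
      rw [norm_mul, norm_ee, mul_one]; exact h x
  rw [sub_zero, abs_of_pos (by positivity)] at h1
  calc 1 / (2 * π) * ‖∫ x in (0 : ℝ)..(2 * π), f x * ee (-k) x‖ ≤ 1 / (2 * π) * (C * (2 * π)) :=
        mul_le_mul_of_nonneg_left h1 (by positivity)
    _ = C := by field_simp

theorem coef_sub {f g : ℝ → ℂ} (hf : Continuous f) (hg : Continuous g) (k : ℤ) :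
    coef (fun x => f x - g x) k = coef f k - coef g k := by
  have h1 : (fun x => f x - g x) = fun x => f x + (-1) * g x := by funext x; ring
  rw [h1, coef_add (g := fun x => (-1) * g x) hf (continuous_const.mul hg), coef_const_mul]; ring

variable {W W' : ℤ → ℝ} {f g : ℝ → ℂ} {M N : ℝ}

theorem Bd.nonneg (h : Bd W f M) : 0 ≤ M := by simpa using h.le ∅

theorem Bd.mono (h : Bd W f M) (hM : M ≤ N) : Bd W f N :=
  ⟨h.cont, h.per, fun S => (h.le S).trans hM⟩

theorem Bd.wmono (h : Bd W f M) {c : ℝ} (hc : 0 ≤ c) (hW : ∀ k, W' k ≤ c * W k) :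
    Bd W' f (c * M) := by
  refine ⟨h.cont, h.per, fun S => ?_⟩
  calc ∑ k ∈ S, W' k * ‖coef f k‖ ≤ ∑ k ∈ S, c * (W k * ‖coef f k‖) :=
        Finset.sum_le_sum fun k _ => by
          rw [← mul_assoc]; exact mul_le_mul_of_nonneg_right (hW k) (norm_nonneg _)
    _ = c * ∑ k ∈ S, W k * ‖coef f k‖ := by rw [Finset.mul_sum]
    _ ≤ c * M := mul_le_mul_of_nonneg_left (h.le S) hc

theorem Bd.wle (h : Bd W f M) (hW : ∀ k, W' k ≤ W k) : Bd W' f M := by
  have := h.wmono (W' := W') zero_le_one (by simpa using hW)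
  simpa using this

theorem Bd.congr (h : Bd W f M) (hfg : ∀ x, g x = f x) : Bd W g M := by
  have : g = f := funext hfg
  rwa [this]

theorem Bd.summable (hW : Wt W) (h : Bd W f M) : Summable fun k => W k * ‖coef f k‖ :=
  summable_of_sum_le (fun k => mul_nonneg (hW.nonneg k) (norm_nonneg _)) h.le

theorem Bd.tsum_le (hW : Wt W) (h : Bd W f M) : ∑' k, W k * ‖coef f k‖ ≤ M :=
  (h.summable hW).tsum_le_of_sum_le h.le

theorem Bd.summable_norm (hW : Wt W) (h : Bd W f M) : Summable fun k => ‖coef f k‖ :=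
  (h.summable hW).of_nonneg_of_le (fun _ => norm_nonneg _) fun k =>
    le_mul_of_one_le_left (norm_nonneg _) (hW.one_le k)

theorem hasSum_coef (hc : Continuous f) (hp : Function.Periodic f (2 * π))
    (hs : Summable fun k => ‖coef f k‖) (x : ℝ) : HasSum (fun k => coef f k * ee k x) (f x) := by
  have : Fact (0 < 2 * π) := ⟨by positivity⟩
  let F : C(AddCircle (2 * π), ℂ) := ⟨hp.lift, by
    rw [(QuotientAddGroup.isQuotientMap_mk (AddSubgroup.zmultiples (2 * π))).continuous_iff]
    exact hc⟩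
  have hF : ∀ y : ℝ, F (y : AddCircle (2 * π)) = f y := fun y => hp.lift_coe y
  have hfo : ∀ (k : ℤ) (y : ℝ), fourier k (y : AddCircle (2 * π)) = ee k y := by
    intro k y
    rw [fourier_coe_apply, ee]
    congr 1
    have : (π : ℂ) ≠ 0 := by exact_mod_cast Real.pi_ne_zero
    push_cast
    field_simp
  have hco : ∀ k, fourierCoeff F k = coef f k := by
    intro k
    rw [fourierCoeff_eq_intervalIntegral _ _ 0, coef, zero_add, Complex.real_smul]
    congr 1
    · push_cast; ring
    · congr 1; funext y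
      rw [hfo, hF, smul_eq_mul, mul_comm]
  have hs' : Summable (fourierCoeff F) := by
    have : fourierCoeff F = coef f := funext hco
    rw [this]; exact hs.of_norm
  have := has_pointwise_sum_fourier_series_of_summable hs' (x : AddCircle (2 * π))
  simp only [hco, hfo, hF, smul_eq_mul] at this
  exact this

theorem Bd.hasSum (hW : Wt W) (h : Bd W f M) (x : ℝ) :
    HasSum (fun k => coef f k * ee k x) (f x) :=
  hasSum_coef h.cont h.per (h.summable_norm hW) x

theorem Bd.norm_le (hW : Wt W) (h : Bd W f M) (x : ℝ) : ‖f x‖ ≤ M := by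
  refine le_trans ?_ (h.tsum_le hW)
  refine (h.hasSum hW x).norm_le_of_bounded (h.summable hW).hasSum fun k => ?_
  rw [norm_mul, norm_ee, mul_one]
  exact le_mul_of_one_le_left (norm_nonneg _) (hW.one_le k)

theorem Bd.add (hW : Wt W) (hf : Bd W f M) (hg : Bd W g N) :
    Bd W (fun x => f x + g x) (M + N) := by
  refine ⟨hf.cont.add hg.cont, fun x => by simp only [hf.per x, hg.per x], fun S => ?_⟩
  refine le_trans ?_ (add_le_add (hf.le S) (hg.le S))
  rw [← Finset.sum_add_distrib]
  refine Finset.sum_le_sum fun k _ => ?_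
  rw [coef_add hf.cont hg.cont, ← mul_add]
  exact mul_le_mul_of_nonneg_left (norm_add_le _ _) (hW.nonneg k)

theorem Bd.const_mul (hf : Bd W f M) (c : ℂ) : Bd W (fun x => c * f x) (‖c‖ * M) := by
  refine ⟨continuous_const.mul hf.cont, fun x => by simp only [hf.per x], fun S => ?_⟩
  refine le_trans (le_of_eq ?_) (mul_le_mul_of_nonneg_left (hf.le S) (norm_nonneg c))
  rw [Finset.mul_sum]
  refine Finset.sum_congr rfl fun k _ => ?_
  rw [coef_const_mul, norm_mul]; ring

theorem Bd.neg (hf : Bd W f M) : Bd W (fun x => -f x) M := by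
  have := hf.const_mul (-1)
  simp only [norm_neg, norm_one, one_mul, neg_mul] at this
  exact this

theorem Bd.sub (hW : Wt W) (hf : Bd W f M) (hg : Bd W g N) :
    Bd W (fun x => f x - g x) (M + N) :=
  (hf.add hW hg.neg).congr fun x => by ring

theorem Bd.one (hW : Wt W) : Bd W (fun _ => 1) 1 := by
  refine ⟨continuous_const, fun _ => rfl, fun S => ?_⟩
  simp_rw [coef_one]
  calc ∑ k ∈ S, W k * ‖(if k = 0 then 1 else 0 : ℂ)‖ = ∑ k ∈ S, if k = 0 then 1 else 0 := by
        refine Finset.sum_congr rfl fun k _ => ?_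
        split_ifs with h
        · subst h; simp [hW.zero]
        · simp
    _ ≤ 1 := by
        rw [Finset.sum_ite_eq']
        split_ifs <;> norm_num

theorem Bd.const (hW : Wt W) (c : ℂ) : Bd W (fun _ => c) ‖c‖ := by
  have := (Bd.one hW).const_mul c
  simpa using this

theorem Bd.zero (hW : Wt W) : Bd W (fun _ => 0) 0 := by
  simpa using Bd.const hW 0

theorem Bd.ee_mul (hW : Wt W) (hf : Bd W f M) (l : ℤ) :
    Bd W (fun x => ee l x * f x) (W l * M) := by
  refine ⟨(ee_cont l).mul hf.cont, fun x => by simp only [hf.per x, ee_per l x], fun S => ?_⟩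
  refine le_trans ?_ (mul_le_mul_of_nonneg_left
    (hf.le (S.map (Equiv.subRight l).toEmbedding)) (hW.nonneg l))
  rw [Finset.sum_map, Finset.mul_sum]
  refine Finset.sum_le_sum fun k _ => ?_
  rw [coef_ee_mul]
  simp only [Equiv.coe_toEmbedding, Equiv.subRight_apply]
  rw [← mul_assoc]
  refine mul_le_mul_of_nonneg_right ?_ (norm_nonneg _)
  have := hW.add l (k - l)
  rwa [add_sub_cancel] at this

theorem Bd.conj (hW : Wt W) (hf : Bd W f M) : Bd W (fun x => (starRingEnd ℂ) (f x)) M := by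
  refine ⟨Complex.continuous_conj.comp hf.cont, fun x => by simp only [hf.per x], fun S => ?_⟩
  refine le_trans (le_of_eq ?_) (hf.le (S.map (Equiv.neg ℤ).toEmbedding))
  rw [Finset.sum_map]
  refine Finset.sum_congr rfl fun k _ => ?_
  rw [coef_conj]
  simp [hW.neg]

theorem Bd.re (hW : Wt W) (hf : Bd W f M) : Bd W (fun x => ((f x).re : ℂ)) M := by
  have := ((hf.add hW (hf.conj hW)).const_mul (1 / 2)).mono (N := M) (by simp; linarith)
  refine this.congr fun x => ?_
  rw [Complex.re_eq_add_conj]; ring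

theorem Bd.im (hW : Wt W) (hf : Bd W f M) : Bd W (fun x => ((f x).im : ℂ)) M := by
  have := (hf.const_mul (-I)).re hW
  simp only [norm_neg, Complex.norm_I, one_mul] at this
  exact this.congr fun x => by simp

theorem Bd.sum {ι : Type*} (hW : Wt W) (s : Finset ι) {F : ι → ℝ → ℂ} {m : ι → ℝ}
    (h : ∀ i ∈ s, Bd W (F i) (m i)) : Bd W (fun x => ∑ i ∈ s, F i x) (∑ i ∈ s, m i) := by
  classical
  induction s using Finset.induction_on with
  | empty => simpa using Bd.zero hW
  | insert a s ha ih =>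
    simp_rw [Finset.sum_insert ha]
    exact (h a (Finset.mem_insert_self _ _)).add hW
      (ih fun i hi => h i (Finset.mem_insert_of_mem hi))

/-- Uniform limits. -/
theorem Bd.of_unif {ι : Type*} {l : Filter ι} [l.NeBot] {F : ι → ℝ → ℂ}
    (h : ∀ᶠ i in l, Bd W (F i) M) (hu : TendstoUniformly F f l) : Bd W f M := by
  have hc : Continuous f := hu.continuous (h.mono fun i hi => hi.cont).frequently
  refine ⟨hc, fun x => ?_, fun S => ?_⟩
  · refine tendsto_nhds_unique (hu.tendsto_at (x + 2 * π)) ?_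
    exact (hu.tendsto_at x).congr' (h.mono fun i hi => (hi.per x).symm)
  · have hco : ∀ k, Tendsto (fun i => coef (F i) k) l (𝓝 (coef f k)) := by
      intro k
      rw [Metric.tendsto_nhds]
      intro ε hε
      filter_upwards [h, Metric.tendstoUniformly_iff.1 hu (ε / 2) (by linarith)] with i hi hi'
      rw [dist_eq_norm, ← coef_sub hi.cont hc]
      refine lt_of_le_of_lt (norm_coef_le (C := ε / 2) (fun x => ?_) k) (by linarith)
      rw [← dist_eq_norm, dist_comm]; exact (hi' x).le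
    have : Tendsto (fun i => ∑ k ∈ S, W k * ‖coef (F i) k‖) l
        (𝓝 (∑ k ∈ S, W k * ‖coef f k‖)) :=
      tendsto_finsetSum _ fun k _ => (hco k).norm.const_mul _
    exact le_of_tendsto this (h.mono fun i hi => hi.le S)

theorem Bd.tsum {ι : Type*} (hW : Wt W) {F : ι → ℝ → ℂ} {m : ι → ℝ}
    (h : ∀ i, Bd W (F i) (m i)) (hm : Summable m) :
    Bd W (fun x => ∑' i, F i x) (∑' i, m i) := by
  refine Bd.of_unif (l := atTop) (F := fun (s : Finset ι) x => ∑ i ∈ s, F i x)
    (Eventually.of_forall fun s => ?_) (tendstoUniformly_tsum hm fun i x => (h i).norm_le hW x)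
  exact (Bd.sum hW s fun i _ => h i).mono (hm.sum_le_tsum s fun i _ => (h i).nonneg)

theorem Bd.mul (hW : Wt W) (hf : Bd W f M) (hg : Bd W g N) :
    Bd W (fun x => f x * g x) (M * N) := by
  have h1 : ∀ l, Bd W (fun x => coef f l * (ee l x * g x)) (W l * ‖coef f l‖ * N) := fun l =>
    ((hg.ee_mul hW l).const_mul (coef f l)).mono (le_of_eq (by ring))
  have h2 := Bd.tsum hW h1 ((hf.summable hW).mul_right N)
  rw [tsum_mul_right] at h2
  refine (h2.mono (mul_le_mul_of_nonneg_right (hf.tsum_le hW) hg.nonneg)).congr fun x => ?_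
  simp_rw [← mul_assoc]
  rw [tsum_mul_right, (hf.hasSum hW x).tsum_eq]

theorem Bd.pow (hW : Wt W) (hf : Bd W f M) (n : ℕ) : Bd W (fun x => f x ^ n) (M ^ n) := by
  induction n with
  | zero => simpa using Bd.one hW
  | succ n ih => simpa [pow_succ] using ih.mul hW hf

theorem Bd.series (hW : Wt W) {a : ℤ → ℂ} (ha : ∀ S : Finset ℤ, ∑ k ∈ S, W k * ‖a k‖ ≤ M) :
    Bd W (fun x => ∑' k, a k * ee k x) M := by
  have hs : Summable fun k => W k * ‖a k‖ :=
    summable_of_sum_le (fun k => mul_nonneg (hW.nonneg k) (norm_nonneg _)) ha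
  have h1 : ∀ k, Bd W (fun x => a k * ee k x) (W k * ‖a k‖) := fun k =>
    ((((Bd.one hW).ee_mul hW k).const_mul (a k)).mono (le_of_eq (by ring))).congr fun x => by simp
  exact (Bd.tsum hW h1 hs).mono (hs.tsum_le_of_sum_le ha)

/-- The weight of order one attached to `W`. -/
def up (W : ℤ → ℝ) (k : ℤ) : ℝ := (1 + |(k : ℝ)|) * W k

theorem Wt.up (hW : Wt W) : Wt (up W) := by
  refine ⟨fun k => ?_, by simp [CK.up, hW.zero], fun k l => ?_, fun k => by simp [CK.up, hW.neg]⟩
  · exact one_le_mul_of_one_le_of_one_le (by simp) (hW.one_le k)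
  · unfold CK.up
    have h1 : 1 + |((k + l : ℤ) : ℝ)| ≤ (1 + |(k : ℝ)|) * (1 + |(l : ℝ)|) := by
      push_cast
      have := abs_add_le (k : ℝ) l
      nlinarith [abs_nonneg (k : ℝ), abs_nonneg (l : ℝ)]
    calc (1 + |((k + l : ℤ) : ℝ)|) * W (k + l)
        ≤ ((1 + |(k : ℝ)|) * (1 + |(l : ℝ)|)) * (W k * W l) :=
          mul_le_mul h1 (hW.add k l) (hW.nonneg _) (by positivity)
      _ = _ := by ring

theorem Bd.down (hW : Wt W) (hf : Bd (up W) f M) : Bd W f M :=
  hf.wle fun k => le_mul_of_one_le_left (hW.nonneg k) (by simp)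

theorem Bd.hasDerivAt (hW : Wt W) (hf : Bd (up W) f M) (x : ℝ) :
    HasDerivAt f (∑' k, (k * I * coef f k) * ee k x) x := by
  have hs := hf.summable hW.up
  have h1 := hasDerivAt_tsum (g := fun k y => coef f k * ee k y)
    (g' := fun k y => (k * I * coef f k) * ee k y) hs
    (fun k y => by
      have := (ee_hasDerivAt k y).const_mul (coef f k)
      rwa [show coef f k * (k * I * ee k y) = (k * I * coef f k) * ee k y by ring] at this)
    (fun k y => by
      rw [norm_mul, norm_ee, mul_one, norm_mul, norm_mul, Complex.norm_I, mul_one,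
        Complex.norm_intCast]
      refine mul_le_mul_of_nonneg_right ?_ (norm_nonneg _)
      unfold CK.up
      nlinarith [hW.one_le k, abs_nonneg (k : ℝ)])
    (hf.hasSum hW.up 0).summable x
  have h2 : (fun y => ∑' k, coef f k * ee k y) = f := funext fun y => (hf.hasSum hW.up y).tsum_eq
  rwa [h2] at h1

theorem Bd.differentiable (hW : Wt W) (hf : Bd (up W) f M) : Differentiable ℝ f :=
  fun x => (hf.hasDerivAt hW x).differentiableAt

theorem Bd.deriv (hW : Wt W) (hf : Bd (up W) f M) : Bd W (deriv f) M := by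
  refine (Bd.series hW (a := fun k => k * I * coef f k) fun S => ?_).congr
    fun x => (hf.hasDerivAt hW x).deriv
  refine le_trans (Finset.sum_le_sum fun k _ => ?_) (hf.le S)
  rw [norm_mul, norm_mul, Complex.norm_I, mul_one, Complex.norm_intCast, ← mul_assoc]
  refine mul_le_mul_of_nonneg_right ?_ (norm_nonneg _)
  unfold CK.up
  nlinarith [hW.nonneg k, abs_nonneg (k : ℝ)]

theorem Bd.lip (hW : Wt W) (hf : Bd (up W) f M) (x y : ℝ) : ‖f x - f y‖ ≤ M * |x - y| := by
  have := Convex.norm_image_sub_le_of_norm_deriv_le (s := univ) (𝕜 := ℝ)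
    (fun z _ => hf.differentiable hW z) (fun z _ => (hf.deriv hW).norm_le hW z) convex_univ
    (mem_univ y) (mem_univ x)
  simpa using this

/-- Integrals with respect to a parameter. -/
theorem Bd.integral {α : Type*} [MeasurableSpace α] {μ : Measure α} [SFinite μ] (hW : Wt W)
    {F : α → ℝ → ℂ} {m : α → ℝ} (hF : Measurable fun p : α × ℝ => F p.1 p.2)
    (h : ∀ᵐ a ∂μ, Bd W (F a) (m a)) (hm : Integrable m μ) :
    Bd W (fun x => ∫ a, F a x ∂μ) (∫ a, m a ∂μ) := by
  have hsec : ∀ x, AEStronglyMeasurable (fun a => F a x) μ := fun x =>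
    (hF.comp (measurable_id.prodMk measurable_const)).aestronglyMeasurable
  refine ⟨?_, fun x => ?_, fun S => ?_⟩
  · exact continuous_of_dominated hsec (fun x => h.mono fun a ha => ha.norm_le hW x) hm
      (h.mono fun a ha => ha.cont)
  · exact integral_congr_ae (h.mono fun a ha => ha.per x)
  · have hint : ∀ k, Integrable (Function.uncurry fun (x : ℝ) (a : α) => F a x * ee (-k) x)
        ((volume.restrict (Ioc 0 (2 * π))).prod μ) := by
      intro k
      have hme : Measurable (Function.uncurry fun (x : ℝ) (a : α) => F a x * ee (-k) x) :=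
        (hF.comp measurable_swap).mul ((ee_cont _).measurable.comp measurable_fst)
      have hb : Integrable (fun p : ℝ × α => m p.2) ((volume.restrict (Ioc 0 (2 * π))).prod μ) := by
        have := (integrable_const (μ := volume.restrict (Ioc 0 (2 * π))) (1 : ℝ)).mul_prod hm
        simpa using this
      refine hb.mono' hme.aestronglyMeasurable ?_
      have := (Measure.quasiMeasurePreserving_snd (μ := volume.restrict (Ioc 0 (2 * π)))
        (ν := μ)).ae h
      filter_upwards [this] with p hp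
      simp only [Function.uncurry, norm_mul, norm_ee, mul_one]
      exact hp.norm_le hW _
    have hco : ∀ k, coef (fun x => ∫ a, F a x ∂μ) k = ∫ a, coef (F a) k ∂μ := by
      intro k
      unfold coef
      rw [integral_const_mul]
      congr 1
      simp_rw [intervalIntegral.integral_of_le (by positivity : (0 : ℝ) ≤ 2 * π),
        ← integral_mul_const]
      exact integral_integral_swap (hint k)
    have hci : ∀ k, Integrable (fun a => coef (F a) k) μ := by
      intro k
      unfold coef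
      refine Integrable.const_mul ?_ _
      simp_rw [intervalIntegral.integral_of_le (by positivity : (0 : ℝ) ≤ 2 * π)]
      exact (hint k).integral_prod_right
    calc ∑ k ∈ S, W k * ‖coef (fun x => ∫ a, F a x ∂μ) k‖
        ≤ ∑ k ∈ S, ∫ a, W k * ‖coef (F a) k‖ ∂μ := by
          refine Finset.sum_le_sum fun k _ => ?_
          rw [hco, integral_const_mul]
          exact mul_le_mul_of_nonneg_left (norm_integral_le_integral_norm _) (hW.nonneg k)
      _ = ∫ a, ∑ k ∈ S, W k * ‖coef (F a) k‖ ∂μ :=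
          (integral_finsetSum _ fun k _ => (hci k).norm.const_mul _).symm
      _ ≤ ∫ a, m a ∂μ :=
          integral_mono_ae (integrable_finsetSum _ fun k _ => (hci k).norm.const_mul _) hm
            (h.mono fun a ha => ha.le S)

/-- The exponential weight. -/
noncomputable def wt (ρ : ℝ) (k : ℤ) : ℝ := Real.exp (ρ * |(k : ℝ)|)

theorem wt_Wt {ρ : ℝ} (h : 0 ≤ ρ) : Wt (wt ρ) := by
  refine ⟨fun k => Real.one_le_exp (by positivity), by simp [wt], fun k l => ?_,
    fun k => by simp [wt]⟩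
  unfold wt
  rw [← Real.exp_add, ← mul_add]
  push_cast
  exact Real.exp_le_exp.2 (mul_le_mul_of_nonneg_left (abs_add_le _ _) h)

theorem wt_mono {ρ ρ' : ℝ} (h : ρ ≤ ρ') (k : ℤ) : wt ρ k ≤ wt ρ' k :=
  Real.exp_le_exp.2 (mul_le_mul_of_nonneg_right h (abs_nonneg _))

theorem up_wt_mono {ρ ρ' : ℝ} (h : ρ ≤ ρ') (k : ℤ) : up (wt ρ) k ≤ up (wt ρ') k :=
  mul_le_mul_of_nonneg_left (wt_mono h k) (by positivity)

theorem up_wt_le {ρ ρ' : ℝ} (h : ρ < ρ') (h1 : ρ' - ρ ≤ 1) (k : ℤ) :
    up (wt ρ) k ≤ 1 / (ρ' - ρ) * wt ρ' k := by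
  have hδ : 0 < ρ' - ρ := sub_pos.2 h
  unfold up wt
  have h2 : Real.exp (ρ' * |(k : ℝ)|) = Real.exp ((ρ' - ρ) * |(k : ℝ)|) * Real.exp (ρ * |(k : ℝ)|) := by
    rw [← Real.exp_add]; congr 1; ring
  rw [h2, ← mul_assoc]
  refine mul_le_mul_of_nonneg_right ?_ (Real.exp_pos _).le
  have h3 := Real.add_one_le_exp ((ρ' - ρ) * |(k : ℝ)|)
  rw [div_mul_eq_mul_div, one_mul, le_div_iff₀ hδ]
  nlinarith

/-- Cauchy estimate. -/
theorem Bd.cauchy {ρ ρ' : ℝ} (h : ρ < ρ') (h1 : ρ' - ρ ≤ 1) (hf : Bd (wt ρ') f M) :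
    Bd (up (wt ρ)) f (1 / (ρ' - ρ) * M) :=
  hf.wmono (by have := sub_pos.2 h; positivity) (up_wt_le h h1)

theorem Bd.cauchy_up {ρ ρ' : ℝ} (h : ρ < ρ') (h1 : ρ' - ρ ≤ 1) (hf : Bd (up (wt ρ')) f M) :
    Bd (up (up (wt ρ))) f (1 / (ρ' - ρ) * M) := by
  refine hf.wmono (by have := sub_pos.2 h; positivity) fun k => ?_
  have := mul_le_mul_of_nonneg_left (up_wt_le h h1 k) (by positivity : 0 ≤ 1 + |(k : ℝ)|)
  calc up (up (wt ρ)) k = (1 + |(k : ℝ)|) * up (wt ρ) k := rfl
    _ ≤ _ := this
    _ = 1 / (ρ' - ρ) * up (wt ρ') k := by unfold up; ring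

end Pool.Agent.Lib.MP_3d41d4_an.CK
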