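import Pool.Agent.Lib.MP_3d41d4_an.Gauss

open MeasureTheory Set Filter Topology Real
open scoped ENNReal

namespace Pool.Agent.Lib.MP_3d41d4_an

theorem Gauss2_rpow {s : ℝ} (hs : 0 ≤ s) : 1 / √s = s ^ (-(1 / 2) : ℝ) := by
  rw [Real.rpow_neg hs, Real.sqrt_eq_rpow, one_div]

theorem Gauss2_ii {t : ℝ} (ht : 0 ≤ t) : IntervalIntegrable (fun s => 1 / √s) volume 0 t := by
  have h := intervalIntegral.intervalIntegrable_rpow' (a := 0) (b := t)
    (r := -(1 / 2)) (by norm_num)
  rw [intervalIntegrable_iff_integrableOn_Ioc_of_le ht] at h ⊢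
  exact h.congr_fun (fun s hs => (Gauss2_rpow hs.1.le).symm) measurableSet_Ioc

theorem Gauss2_int {t : ℝ} (ht : 0 ≤ t) : ∫ s in (0 : ℝ)..t, 1 / √s = 2 * √t := by
  rw [intervalIntegral.integral_congr (g := fun s => s ^ (-(1 / 2) : ℝ)) fun s hs =>
      Gauss2_rpow (by rw [uIcc_of_le ht] at hs; exact hs.1),
    integral_rpow (Or.inl (by norm_num)), Real.zero_rpow (by norm_num), Real.sqrt_eq_rpow]
  norm_num
  ring

theorem Gauss2_ii_sub {t : ℝ} (ht : 0 ≤ t) :
    IntervalIntegrable (fun s => 1 / √(t - s)) volume 0 t := by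
  simpa using (Gauss2_ii ht).symm.comp_sub_left t

theorem Gauss2_split {ν t s : ℝ} (hs : s ≤ t) : 1 / √(ν * (t - s)) = 1 / √ν * (1 / √(t - s)) := by
  rw [Real.sqrt_mul' ν (sub_nonneg.2 hs), one_div_mul_one_div]

theorem Gauss2_abs {r : ℝ} (hr : 0 ≤ r) :
    IntervalIntegrable (fun u => 1 / √|u|) volume (-r) r ∧
      ∫ u in (-r)..r, 1 / √|u| = 4 * √r := by
  have h1 : IntervalIntegrable (fun u => 1 / √|u|) volume 0 r := by
    have h := Gauss2_ii hr
    rw [intervalIntegrable_iff_integrableOn_Ioc_of_le hr] at h ⊢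
    exact h.congr_fun (fun s hs => by simp only [abs_of_pos hs.1]) measurableSet_Ioc
  have h2 : IntervalIntegrable (fun u => 1 / √|u|) volume (-r) 0 := by
    simpa using h1.symm.comp_sub_left 0
  have h3 : ∫ u in (0 : ℝ)..r, 1 / √|u| = 2 * √r := by
    rw [← Gauss2_int hr]
    refine intervalIntegral.integral_congr fun s hs => ?_
    rw [uIcc_of_le hr] at hs
    simp only [abs_of_nonneg hs.1]
  have h4 : ∫ u in (-r)..0, 1 / √|u| = 2 * √r := by
    have h := intervalIntegral.integral_comp_neg (a := 0) (b := r) (fun u => 1 / √|u|)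
    simp only [abs_neg, neg_zero] at h
    rw [← h, h3]
  refine ⟨h2.trans h1, ?_⟩
  rw [← intervalIntegral.integral_add_adjacent_intervals h2 h1, h3, h4]
  ring

theorem Gauss2_lint {r : ℝ} (hr : 0 ≤ r) (c : ℝ) :
    ∫⁻ y in Ioc (-r + c) (r + c), ENNReal.ofReal (1 / √|y - c|) = ENNReal.ofReal (4 * √r) := by
  obtain ⟨h1, h2⟩ := Gauss2_abs hr
  have hle : -r + c ≤ r + c := by linarith
  have h3 := h1.comp_sub_right c
  rw [intervalIntegrable_iff_integrableOn_Ioc_of_le hle] at h3
  rw [← ofReal_integral_eq_lintegral_ofReal h3 (Eventually.of_forall fun y => by positivity),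
    ← intervalIntegral.integral_of_le hle,
    intervalIntegral.integral_comp_sub_right (fun u => 1 / √|u|) c]
  simp only [add_sub_cancel_right]
  rw [h2]

theorem Gauss2_exp {k t : ℝ} (hk : 0 < k) (ht : 0 ≤ t) :
    ∫ s in (0 : ℝ)..t, 1 / √s * Real.exp (-(k * s)) ≤ √(π / k) := by
  have h := Real.integral_rpow_mul_exp_neg_mul_Ioi (a := 1 / 2) (r := k) (by norm_num) hk
  have e : (1 / k) ^ (1 / 2 : ℝ) * Real.Gamma (1 / 2) = √(π / k) := by
    rw [Real.Gamma_one_half_eq, ← Real.sqrt_eq_rpow, ← Real.sqrt_mul (by positivity)]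
    congr 1
    ring
  rw [e] at h
  have hi : IntegrableOn (fun s : ℝ => s ^ (1 / 2 - 1 : ℝ) * Real.exp (-(k * s))) (Ioi 0) :=
    Integrable.of_integral_ne_zero (by rw [h]; positivity)
  rw [← h, intervalIntegral.integral_of_le ht,
    setIntegral_congr_fun (g := fun s : ℝ => s ^ (1 / 2 - 1 : ℝ) * Real.exp (-(k * s)))
      measurableSet_Ioc fun s hs => by
        simp only
        rw [Gauss2_rpow hs.1.le]
        norm_num]
  refine setIntegral_mono_set hi ?_ Ioc_subset_Ioi_self.eventuallyLE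
  filter_upwards [ae_restrict_mem measurableSet_Ioi] with s hs
  exact mul_nonneg (Real.rpow_nonneg (le_of_lt hs) _) (Real.exp_pos _).le

theorem integrableOn_inv_sqrt_sub (ν t : ℝ) :
    IntegrableOn (fun s => 1 / √(ν * (t - s))) (Ioo 0 t) := by
  rcases le_total t 0 with ht | ht
  · rw [Ioo_eq_empty (not_lt.2 ht)]
    exact integrableOn_empty
  · have h := (Gauss2_ii_sub ht).const_mul (1 / √ν)
    rw [intervalIntegrable_iff_integrableOn_Ioo_of_le ht] at h
    exact h.congr_fun (fun s hs => (Gauss2_split hs.2.le).symm) measurableSet_Ioo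

theorem integrableOn_inv_sqrt (t : ℝ) : IntegrableOn (fun s => 1 / √s) (Ioo 0 t) := by
  rcases le_total t 0 with ht | ht
  · rw [Ioo_eq_empty (not_lt.2 ht)]
    exact integrableOn_empty
  · exact (intervalIntegrable_iff_integrableOn_Ioo_of_le ht).1 (Gauss2_ii ht)

/-- Gain of the Gaussian weight in time. -/
theorem time_weight_gain {β ν t μ : ℝ} (hβ : 0 < β) (hν : 0 < ν) (ht : 0 < t) (η : ℝ) :
    IntegrableOn (fun s => 1 / √(ν * (t - s)) * gs (μ - β * s) (ν * t) η) (Ioo 0 t) ∧
      (√(ν * t) + |η|) * ∫ s in Ioo 0 t, 1 / √(ν * (t - s)) * gs (μ - β * s) (ν * t) η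
        ≤ (2 * t + √(π * t / β)) * gs (μ - β * t) (ν * t) η := by
  have hb : 0 < ν * t := mul_pos hν ht
  set k := β * η ^ 2 / (ν * t) with hk
  have hk0 : 0 ≤ k := by positivity
  set g := gs (μ - β * t) (ν * t) η with hg
  have hg0 : 0 ≤ g := gs_nonneg _ _ _
  have e : ∀ s ∈ Ioo 0 t, 1 / √(ν * (t - s)) * gs (μ - β * s) (ν * t) η =
      g / √ν * (1 / √(t - s) * Real.exp (-(k * (t - s)))) := by
    intro s hs
    have e1 : gs (μ - β * s) (ν * t) η = g * Real.exp (-(k * (t - s))) := by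
      rw [hg, gs, gs, div_mul_eq_mul_div, ← Real.exp_add]
      congr 2
      rw [hk]
      field_simp
      ring
    rw [Gauss2_split hs.2.le, e1]
    ring
  have hi0 : IntervalIntegrable (fun s => 1 / √s * Real.exp (-(k * s))) volume 0 t :=
    (Gauss2_ii ht.le).mul_continuousOn (by fun_prop)
  have hi1 : IntervalIntegrable (fun s => 1 / √(t - s) * Real.exp (-(k * (t - s)))) volume 0 t := by
    simpa using hi0.symm.comp_sub_left t
  refine ⟨?_, ?_⟩
  · have h := hi1.const_mul (g / √ν)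
    rw [intervalIntegrable_iff_integrableOn_Ioo_of_le ht.le] at h
    exact h.congr_fun (fun s hs => (e s hs).symm) measurableSet_Ioo
  · rw [setIntegral_congr_fun measurableSet_Ioo e, integral_const_mul,
      ← integral_Ioc_eq_integral_Ioo, ← intervalIntegral.integral_of_le ht.le,
      intervalIntegral.integral_comp_sub_left (fun s => 1 / √s * Real.exp (-(k * s))) t,
      sub_self, sub_zero]
    set I := ∫ s in (0 : ℝ)..t, 1 / √s * Real.exp (-(k * s)) with hI
    have hν' : 0 < √ν := Real.sqrt_pos.2 hν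
    have h1 : I ≤ 2 * √t := by
      rw [← Gauss2_int ht.le]
      refine intervalIntegral.integral_mono_on ht.le hi0 (Gauss2_ii ht.le) fun s hs => ?_
      refine mul_le_of_le_one_right (by positivity) (Real.exp_le_one_iff.2 ?_)
      have := mul_nonneg hk0 hs.1
      linarith
    have h2 : √(ν * t) / √ν * I ≤ 2 * t := by
      rw [Real.sqrt_mul hν.le, mul_div_cancel_left₀ _ hν'.ne']
      have := mul_le_mul_of_nonneg_left h1 (Real.sqrt_nonneg t)
      have h3 := Real.mul_self_sqrt ht.le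
      nlinarith
    have h3 : |η| / √ν * I ≤ √(π * t / β) := by
      rcases eq_or_ne η 0 with h0 | h0
      · simp [h0]
      · have hkp : 0 < k := by positivity
        refine (mul_le_mul_of_nonneg_left (Gauss2_exp hkp ht.le) (by positivity)).trans (le_of_eq ?_)
        rw [← Real.sqrt_sq_eq_abs, ← Real.sqrt_div (sq_nonneg η), ← Real.sqrt_mul (by positivity)]
        congr 1
        rw [hk]
        field_simp
    calc (√(ν * t) + |η|) * (g / √ν * I) = (√(ν * t) / √ν * I + |η| / √ν * I) * g := by ring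
      _ ≤ _ := mul_le_mul_of_nonneg_right (add_le_add h2 h3) hg0

/-- A singular moment of the Gaussian. -/
theorem lintegral_gs_inv_sqrt {m₀ : ℝ} (hm₀ : 0 < m₀) :
    ∃ C : ℝ, 0 < C ∧ ∀ m, m₀ ≤ m → ∀ b, 0 < b → ∀ c : ℝ,
      ∫⁻ y, ENNReal.ofReal (gs m b y * (1 / √|y - c|)) ≤ ENNReal.ofReal (C / √(√b)) := by
  refine ⟨4 + √(π / m₀), by positivity, fun m hm b hb c => ?_⟩
  have hr : 0 < √b := Real.sqrt_pos.2 hb
  have hr2 : 0 < √(√b) := Real.sqrt_pos.2 hr
  have hpt : ∀ y, ENNReal.ofReal (gs m b y * (1 / √|y - c|)) ≤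
      (Ioc (-√b + c) (√b + c)).indicator
        (fun y => ENNReal.ofReal (1 / √b) * ENNReal.ofReal (1 / √|y - c|)) y +
        ENNReal.ofReal (1 / √(√b) * gs m₀ b y) := by
    intro y
    by_cases hy : y ∈ Ioc (-√b + c) (√b + c)
    · rw [indicator_of_mem hy, ← ENNReal.ofReal_mul (by positivity)]
      refine le_add_right (ENNReal.ofReal_le_ofReal ?_)
      exact mul_le_mul_of_nonneg_right (gs_le (hm₀.le.trans hm) hb y) (by positivity)
    · rw [indicator_of_notMem hy, zero_add, mul_comm]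
      refine ENNReal.ofReal_le_ofReal (mul_le_mul ?_ (gs_anti hm hb y) (gs_nonneg _ _ _)
        (by positivity))
      refine one_div_le_one_div_of_le hr2 (Real.sqrt_le_sqrt ?_)
      rw [mem_Ioc, not_and_or, not_lt, not_le] at hy
      rcases hy with hy | hy
      · exact le_abs.2 (Or.inr (by linarith))
      · exact le_abs.2 (Or.inl (by linarith))
  refine (lintegral_mono hpt).trans ?_
  rw [lintegral_add_right _ (((continuous_gs m₀ b).measurable.const_mul _).ennreal_ofReal),
    lintegral_indicator measurableSet_Ioc, lintegral_const_mul' _ _ ENNReal.ofReal_ne_top,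
    Gauss2_lint hr.le, ← ofReal_integral_eq_lintegral_ofReal ((integrable_gs hm₀ hb).const_mul _)
      (Eventually.of_forall fun y => mul_nonneg (by positivity) (gs_nonneg _ _ _)),
    integral_const_mul, integral_gs hm₀ hb, ← ENNReal.ofReal_mul (by positivity),
    ← ENNReal.ofReal_add (by positivity) (by positivity)]
  refine ENNReal.ofReal_le_ofReal (le_of_eq ?_)
  have h1 : √b = √(√b) * √(√b) := (Real.mul_self_sqrt hr.le).symm
  generalize √(√b) = q at h1 hr2
  rw [h1]
  field_simp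

theorem lintegral_inv_sqrt_abs :
    ∫⁻ r in Ioc (-π) π, ENNReal.ofReal (1 / √|r|) ≤ ENNReal.ofReal 8 := by
  have h := Gauss2_lint Real.pi_pos.le 0
  simp only [add_zero, sub_zero] at h
  rw [h]
  refine ENNReal.ofReal_le_ofReal ?_
  have : √π ≤ 2 := Real.sqrt_le_iff.2 ⟨by norm_num, by linarith [Real.pi_le_four]⟩
  linarith

end Pool.Agent.Lib.MP_3d41d4_an
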