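import Pool.Agent.Lib.MP_3d41d4_an.NB
import Pool.Agent.Lib.MP_3d41d4_an.Gauss2

open MeasureTheory Set Filter Topology Real
open scoped ENNReal

namespace Pool.Agent.Lib.MP_3d41d4_an

variable {ρ L M₀ T : ℝ} {φ γ : ℝ → ℝ → ℝ}

theorem St2_Gd_le (hS : Sheet ρ L M₀ T φ γ) (t : ℝ) {a : ℝ} (ha : 0 < a) {j : ℕ} (hj : j ≤ 3) :
    ∃ K : ℝ, 0 ≤ K ∧ ∀ r σ x : ℝ, |Gd j a r (σ - ch (φ t) x r)| ≤ K * gs (cg L) a r := by
  obtain ⟨C, hC, h⟩ := Gd_WR ρ L
  refine ⟨4 * (C * (1 / √a) ^ (0 + j) * (1 / √a)), by positivity, fun r σ x => ?_⟩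
  have h1 := (h (φ t) (hS.curve t) a ha 0 (by norm_num) j hj r σ).abs_le hS.ρ_pos.le
    (by norm_num) x
  simp only [pow_zero, one_mul] at h1
  refine h1.trans ?_
  have h2 := gs_le (cg_pos L).le ha σ
  have h3 := gs_nonneg (cg L) a r
  have h4 : 0 ≤ C * (1 / √a) ^ (0 + j) * gs (cg L) a r := by positivity
  calc 4 * (C * (1 / √a) ^ (0 + j) * gs (cg L) a r * gs (cg L) a σ)
      ≤ 4 * (C * (1 / √a) ^ (0 + j) * gs (cg L) a r * (1 / √a)) := by
        gcongr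
    _ = 4 * (C * (1 / √a) ^ (0 + j) * (1 / √a)) * gs (cg L) a r := by ring

theorem St2_Gd_deriv (a r c η : ℝ) :
    HasDerivAt (fun η' => Gd 0 a r (η' - c)) (Gd 1 a r (η - c)) η := by
  have h := hasDerivAt_Gd_comp (j := 0) (by norm_num) a (hasDerivAt_const η r)
    ((hasDerivAt_id' η).sub_const c)
  simpa using h

theorem St2_Ak_bound (hS : Sheet ρ L M₀ T φ γ) (t : ℝ) {a : ℝ} (ha : 0 < a) {j : ℕ} (hj : j ≤ 3) :
    ∃ K : ℝ, ∀ r σ x : ℝ,
      ‖Gd j a r (σ - ch (φ t) x r) * γ 0 (x + r)‖ ≤ K * gs (cg L) a r := by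
  obtain ⟨K, hK, h⟩ := St2_Gd_le hS t ha hj
  refine ⟨K * (4 * M₀), fun r σ x => ?_⟩
  rw [Real.norm_eq_abs, abs_mul]
  have h1 := h r σ x
  have h2 := (hS.wγ 0).abs_le hS.ρ_pos.le (by norm_num) (x + r)
  have h3 := gs_nonneg (cg L) a r
  calc |Gd j a r (σ - ch (φ t) x r)| * |γ 0 (x + r)| ≤ (K * gs (cg L) a r) * (4 * M₀) :=
        mul_le_mul h1 h2 (abs_nonneg _) (by positivity)
    _ = K * (4 * M₀) * gs (cg L) a r := by ring

theorem St2_Ak_meas (hS : Sheet ρ L M₀ T φ γ) (t a : ℝ) (j : ℕ) (σ x : ℝ) :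
    Measurable fun r => Gd j a r (σ - ch (φ t) x r) * γ 0 (x + r) := by
  refine Measurable.mul ?_ ?_
  · exact measurable_Gd j measurable_const measurable_id
      (measurable_const.sub (hS.meas_ch measurable_const measurable_const measurable_id))
  · exact hS.measγ measurable_const (measurable_const.add measurable_id)

theorem Ak_hasDerivAt (hS : Sheet ρ L M₀ T φ γ) {ν t : ℝ} (h : 0 < ν * t) (η x : ℝ) :
    HasDerivAt (fun η' => Ak φ γ ν 0 0 t η' x) (Ak φ γ ν 1 0 t η x) η := by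
  have ha : 0 < ν * t + 0 := by simpa using h
  obtain ⟨K0, hK0⟩ := St2_Ak_bound hS t ha (j := 0) (by norm_num)
  obtain ⟨K1, hK1⟩ := St2_Ak_bound hS t ha (j := 1) (by norm_num)
  have hg : Integrable (gs (cg L) (ν * t + 0)) := integrable_gs (cg_pos L) ha
  unfold Ak
  refine (hasDerivAt_integral_of_dominated_loc_of_deriv_le (μ := volume) (s := univ)
    (F := fun η' r => Gd 0 (ν * t + 0) r (η' - ch (φ t) x r) * γ 0 (x + r))
    (F' := fun η' r => Gd 1 (ν * t + 0) r (η' - ch (φ t) x r) * γ 0 (x + r))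
    (bound := fun r => K1 * gs (cg L) (ν * t + 0) r) univ_mem ?_ ?_ ?_ ?_ ?_ ?_).2
  · exact Eventually.of_forall fun η' => (St2_Ak_meas hS t _ 0 η' x).aestronglyMeasurable
  · exact (hg.const_mul K0).mono' (St2_Ak_meas hS t _ 0 η x).aestronglyMeasurable
      (Eventually.of_forall fun r => hK0 r η x)
  · exact (St2_Ak_meas hS t _ 1 η x).aestronglyMeasurable
  · exact Eventually.of_forall fun r η' _ => hK1 r η' x
  · exact hg.const_mul K1
  · exact Eventually.of_forall fun r η' _ => (St2_Gd_deriv _ r _ η').mul_const _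

theorem St2_nI_deriv (φ γ : ℝ → ℝ → ℝ) (ν : ℝ) (Ω Θ : ℝ → ℝ → ℝ → ℝ) (κ t s η x : ℝ)
    (p : ℝ × ℝ) :
    HasDerivAt (fun η' => nI φ γ ν Ω Θ 0 κ t s η' x p) (nI φ γ ν Ω Θ 1 κ t s η x p) η := by
  unfold nI
  have h1 : HasDerivAt (fun η' => Gd 0 (aa ν κ t s) p.1 (η' - p.2 - ch (φ t) x p.1))
      (Gd 1 (aa ν κ t s) p.1 (η - p.2 - ch (φ t) x p.1)) η := by
    have := St2_Gd_deriv (aa ν κ t s) p.1 (p.2 + ch (φ t) x p.1) η
    simpa only [sub_add_eq_sub_sub] using this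
  have h2 : HasDerivAt (fun η' => Rk φ ν 0 (aa ν κ t s) t s x p.1 (η' - p.2))
      (Rk φ ν 1 (aa ν κ t s) t s x p.1 (η - p.2)) η :=
    (hasDerivAt_Rk φ ν (aa ν κ t s) t s x p.1 (η - p.2)).comp_sub_const η p.2
  exact (h1.neg.mul_const _).add (h2.mul_const _)

theorem Nk_hasDerivAt (hS : Sheet ρ L M₀ T φ γ) {β T' ν M : ℝ} {Ω Θ : ℝ → ℝ → ℝ → ℝ}
    (hP : Par ρ L T β T' ν) (hI : Inv ρ L β T' ν M γ Ω Θ)
    {t s : ℝ} (ht : t ∈ Ioc 0 T') (hs : s ∈ Ioo 0 t) (η x : ℝ) :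
    HasDerivAt (fun η' => Nk φ γ ν Ω Θ 0 0 t s η' x) (Nk φ γ ν Ω Θ 1 0 t s η x) η := by
  have hκ : (0 : ℝ) ∈ Icc (0 : ℝ) 1 := ⟨le_rfl, zero_le_one⟩
  have hsT : s ≤ T' := hs.2.le.trans ht.2
  have ha : 0 < aa ν 0 t s := by
    unfold aa
    have := mul_pos hP.ν_pos (sub_pos.2 hs.2)
    linarith
  have hνs : 0 < ν * s := mul_pos hP.ν_pos hs.1
  have hm : 0 < mm L β s := lt_of_lt_of_le (by have := cg_pos L; positivity) (hP.mm_ge hsT)
  obtain ⟨C, hC, hb⟩ := nI_WR hS M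
  have hmeas : ∀ j η', Measurable (nI φ γ ν Ω Θ j 0 t s η' x) := fun j η' =>
    meas_nI hS ν hI.measΩ hI.measΘ j measurable_const measurable_const measurable_const
      measurable_const measurable_const measurable_id
  have hint : Integrable (fun p : ℝ × ℝ =>
      gs (cg L) (aa ν 0 t s) p.1 * gs (mm L β s) (ν * s) p.2) :=
    (integrable_gs (cg_pos L) ha).mul_prod (integrable_gs hm hνs)
  unfold Nk
  refine (hasDerivAt_integral_of_dominated_loc_of_deriv_le (μ := volume) (s := univ)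
    (F := fun η' p => nI φ γ ν Ω Θ 0 0 t s η' x p)
    (F' := fun η' p => nI φ γ ν Ω Θ 1 0 t s η' x p)
    (bound := fun p : ℝ × ℝ => (4 * C * (1 / √(aa ν 0 t s)) ^ 1 * (1 / √(aa ν 0 t s))) *
      (gs (cg L) (aa ν 0 t s) p.1 * gs (mm L β s) (ν * s) p.2)) univ_mem ?_ ?_ ?_ ?_ ?_ ?_).2
  · exact Eventually.of_forall fun η' => (hmeas 0 η').aestronglyMeasurable
  · exact nI_integrable hS hP hI hκ ht hs (by norm_num) η x
  · exact (hmeas 1 η).aestronglyMeasurable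
  · refine Eventually.of_forall fun p η' _ => ?_
    have h1 := (hb hP hI 0 hκ t ht s hs 1 le_rfl η' p).abs_le (hP.rad_pos hsT).le le_rfl x
    rw [Real.norm_eq_abs]
    refine h1.trans ?_
    have h2 := gs_le (cg_pos L).le ha (η' - p.2)
    have h3 := gs_nonneg (cg L) (aa ν 0 t s) p.1
    have h4 := gs_nonneg (mm L β s) (ν * s) p.2
    calc 4 * (C * (1 / √(aa ν 0 t s)) ^ 1 * (gs (cg L) (aa ν 0 t s) p.1 *
            (gs (cg L) (aa ν 0 t s) (η' - p.2) * gs (mm L β s) (ν * s) p.2)))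
        ≤ 4 * (C * (1 / √(aa ν 0 t s)) ^ 1 * (gs (cg L) (aa ν 0 t s) p.1 *
            ((1 / √(aa ν 0 t s)) * gs (mm L β s) (ν * s) p.2))) := by
          gcongr
      _ = _ := by ring
  · exact hint.const_mul _
  · exact Eventually.of_forall fun p η' _ => St2_nI_deriv φ γ ν Ω Θ 0 t s η' x p

theorem step2 (hS : Sheet ρ L M₀ T φ γ) {β T' ν M : ℝ} {Ω Θ : ℝ → ℝ → ℝ → ℝ}
    (hP : Par ρ L T β T' ν) (hI : Inv ρ L β T' ν M γ Ω Θ)
    {t : ℝ} (ht : t ∈ Ioc 0 T') (η x : ℝ) :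
    HasDerivAt (fun η' => Om φ γ ν Ω Θ 0 0 t η' x) (Om φ γ ν Ω Θ 1 0 t η x) η := by
  have hκ : (0 : ℝ) ∈ Icc (0 : ℝ) 1 := ⟨le_rfl, zero_le_one⟩
  have hνt : 0 < ν * t := mul_pos hP.ν_pos ht.1
  have hνt' : 0 < ν * t + 0 := by simpa using hνt
  obtain ⟨C, hC, hb⟩ := Nk_WR hS M
  have hmeas : ∀ j η', Measurable fun s => Nk φ γ ν Ω Θ j 0 t s η' x := fun j η' =>
    meas_Nk hS ν hI.measΩ hI.measΘ j measurable_const measurable_const measurable_id
      measurable_const measurable_const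
  unfold Om
  refine (Ak_hasDerivAt hS hνt η x).add ?_
  refine (hasDerivAt_integral_of_dominated_loc_of_deriv_le (μ := volume.restrict (Ioo 0 t))
    (s := univ)
    (F := fun η' s => Nk φ γ ν Ω Θ 0 0 t s η' x)
    (F' := fun η' s => Nk φ γ ν Ω Θ 1 0 t s η' x)
    (bound := fun s => (4 * C * (1 / √(ν * t + 0))) * (1 / √(ν * (t - s))))
    univ_mem ?_ ?_ ?_ ?_ ?_ ?_).2
  · exact Eventually.of_forall fun η' => (hmeas 0 η').aestronglyMeasurable
  · exact Nk_integrableOn hS hP hI hκ ht (by norm_num) η x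
  · exact (hmeas 1 η).aestronglyMeasurable
  · refine (ae_restrict_iff' measurableSet_Ioo).2 (Eventually.of_forall fun s hs η' _ => ?_)
    have hsT : s ≤ T' := hs.2.le.trans ht.2
    have hm : 0 ≤ mm L β s := le_trans (by have := cg_pos L; positivity) (hP.mm_ge hsT)
    have h1 := (hb hP hI 0 hκ t ht s hs 1 le_rfl η').abs_le (hP.rad_pos hsT).le le_rfl x
    rw [Real.norm_eq_abs]
    refine h1.trans ?_
    have h2 := gs_le hm hνt' η'
    have h3 : aa ν 0 t s = ν * (t - s) := by simp [aa]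
    rw [h3]
    calc 4 * (C * (1 / √(ν * (t - s))) ^ 1 * gs (mm L β s) (ν * t + 0) η')
        ≤ 4 * (C * (1 / √(ν * (t - s))) ^ 1 * (1 / √(ν * t + 0))) := by
          gcongr
      _ = _ := by ring
  · exact (integrableOn_inv_sqrt_sub ν t).const_mul _
  · exact (ae_restrict_iff' measurableSet_Ioo).2
      (Eventually.of_forall fun s hs η' _ => Nk_hasDerivAt hS hP hI ht hs η' x)

end Pool.Agent.Lib.MP_3d41d4_an
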