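import Pool.Agent.Lib.MP_3d41d4_an.Flux0

open MeasureTheory Set Filter Topology Real
open scoped ENNReal

namespace Pool.Agent.Lib.MP_3d41d4_an

variable {ρ L M₀ T : ℝ} {φ γ : ℝ → ℝ → ℝ}

theorem Flux_u1_WR (hS : Sheet ρ L M₀ T φ γ) (M : ℝ) : ∃ C : ℝ, 0 < C ∧
    ∀ {β T' ν : ℝ} {Ω Θ : ℝ → ℝ → ℝ → ℝ}, Par ρ L T β T' ν → Inv ρ L β T' ν M γ Ω Θ →
      ∀ s ∈ Ioc 0 T', ∀ η, WR (ρ - β * s) 3 C (u1 φ Ω s η) := by
  obtain ⟨C, hC, h⟩ := wt_W hS M
  exact ⟨C, hC, fun hP hI s hs η => (h hP hI s hs η).re⟩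

theorem integral_FF (hS : Sheet ρ L M₀ T φ γ) {β T' ν M : ℝ} {Ω Θ : ℝ → ℝ → ℝ → ℝ}
    (hP : Par ρ L T β T' ν) (hI : Inv ρ L β T' ν M γ Ω Θ)
    {s : ℝ} (hs : s ∈ Ioc 0 T') (x : ℝ) :
    HasDerivAt (QQ φ Ω s) (∫ η, FF φ γ Ω Θ s η x) x := by
  obtain ⟨C1, hC1, hu⟩ := Flux_u1_WR hS M
  obtain ⟨C2, hC2, hv⟩ := vv_WR hS M
  have hu := hu hP hI s hs
  have hv := hv hP hI s hs
  have hr := hP.rad_pos hs.2
  have hm : 0 < mm L β s := lt_of_lt_of_le (by have := cg_pos L; positivity) (hP.mm_ge hs.2)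
  have hb : 0 < ν * s := mul_pos hP.ν_pos hs.1
  have hl : 0 < √(ν * s) := Real.sqrt_pos.mpr hb
  have hg := integrable_gs hm hb
  have hM : 0 ≤ M := by
    have := (hI.w0 s hs 0).nonneg
    exact nonneg_of_mul_nonneg_left this (gs_pos hb _ _)
  -- differentiate under the integral
  have hprod : ∀ η, WR (ρ - β * s) 3 (64 * C1 * (M * gs (mm L β s) (ν * s) η))
      fun y => u1 φ Ω s η y * Ω s η y := fun η =>
    WR.mul hr.le (by norm_num) (by norm_num) (hu η) (hI.w0 s hs η)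
  have hmeas : Measurable fun p : ℝ × ℝ => u1 φ Ω s p.1 p.2 * Ω s p.1 p.2 :=
    (meas_u1 hS hI.measΩ measurable_const measurable_fst measurable_snd).mul
      (meas3 hI.measΩ measurable_const measurable_fst measurable_snd)
  obtain ⟨hint, hder⟩ := WR.hasDerivAt_integral (μ := volume) hr
    (f := fun η y => u1 φ Ω s η y * Ω s η y) hmeas
    ((hg.const_mul M).const_mul (64 * C1)) (Eventually.of_forall hprod) x
  have hd : ∀ η, deriv (fun y => u1 φ Ω s η y * Ω s η y) x
      = deriv (u1 φ Ω s η) x * Ω s η x + u1 φ Ω s η x * deriv (Ω s η) x := fun η =>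
    deriv_mul ((hu η).differentiable hr x) ((hI.w0 s hs η).differentiable hr x)
  -- pointwise bounds
  have bΩ : ∀ η, |Ω s η x| ≤ 4 * (M * gs (mm L β s) (ν * s) η) := fun η =>
    (hI.w0 s hs η).abs_le hr.le (by norm_num) x
  have bΘ : ∀ η, |Θ s η x| ≤ 4 * (M * gs (mm L β s) (ν * s) η / (√(ν * s) + |η|)) := fun η =>
    (hI.w1 s hs η).abs_le hr.le le_rfl x
  have bv : ∀ η, |vv φ γ Ω s η x| ≤ 4 * (C2 * (√(ν * s) + |η|)) := fun η =>
    (hv η).abs_le hr.le le_rfl x
  have bdu : ∀ η, |deriv (u1 φ Ω s η) x| ≤ 4 * C1 := fun η =>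
    ((hu η).derivW hr).abs_le hr.le le_rfl x
  have mΩ : Measurable fun η => Ω s η x :=
    meas3 hI.measΩ measurable_const measurable_id measurable_const
  have mΘ : Measurable fun η => Θ s η x :=
    meas3 hI.measΘ measurable_const measurable_id measurable_const
  have mv : Measurable fun η => vv φ γ Ω s η x :=
    meas_vv hS hI.measΩ measurable_const measurable_id measurable_const
  have mdu : Measurable fun η => deriv (u1 φ Ω s η) x :=
    (meas_du1 hS hP hI hs).comp (f := fun η : ℝ => ((η, x) : ℝ × ℝ)) (by fun_prop)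
  have i1 : Integrable fun η => vv φ γ Ω s η x * Θ s η x := by
    refine Integrable.mono' (hg.const_mul (16 * C2 * M)) (mv.mul mΘ).aestronglyMeasurable
      (Eventually.of_forall fun η => ?_)
    rw [Real.norm_eq_abs, abs_mul]
    have h1 : 0 < √(ν * s) + |η| := by positivity
    calc |vv φ γ Ω s η x| * |Θ s η x|
        ≤ (4 * (C2 * (√(ν * s) + |η|))) *
          (4 * (M * gs (mm L β s) (ν * s) η / (√(ν * s) + |η|))) :=
          mul_le_mul (bv η) (bΘ η) (abs_nonneg _) (by positivity)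
      _ = 16 * C2 * M * gs (mm L β s) (ν * s) η := by field_simp; ring
  have i2 : Integrable fun η => deriv (u1 φ Ω s η) x * Ω s η x := by
    refine Integrable.mono' (hg.const_mul (16 * C1 * M)) (mdu.mul mΩ).aestronglyMeasurable
      (Eventually.of_forall fun η => ?_)
    rw [Real.norm_eq_abs, abs_mul]
    calc |deriv (u1 φ Ω s η) x| * |Ω s η x|
        ≤ (4 * C1) * (4 * (M * gs (mm L β s) (ν * s) η)) :=
          mul_le_mul (bdu η) (bΩ η) (abs_nonneg _) (by positivity)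
      _ = 16 * C1 * M * gs (mm L β s) (ν * s) η := by ring
  have i3 : Integrable fun η => vv φ γ Ω s η x * Ω s η x := by
    have j1 := integrable_abs_mul_gs hm hb 0
    refine Integrable.mono' (((hg.const_mul (√(ν * s))).add j1).const_mul (16 * C2 * M))
      (mv.mul mΩ).aestronglyMeasurable (Eventually.of_forall fun η => ?_)
    rw [Real.norm_eq_abs, abs_mul]
    have := gs_nonneg (mm L β s) (ν * s) η
    calc |vv φ γ Ω s η x| * |Ω s η x|
        ≤ (4 * (C2 * (√(ν * s) + |η|))) * (4 * (M * gs (mm L β s) (ν * s) η)) :=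
          mul_le_mul (bv η) (bΩ η) (abs_nonneg _) (by positivity)
      _ = _ := by simp only [Pi.add_apply, zero_sub, abs_neg]; ring
  have hparts : ∫ η, vv φ γ Ω s η x * Θ s η x
      = -∫ η, -deriv (u1 φ Ω s η) x * Ω s η x := by
    refine integral_mul_deriv_eq_deriv_mul_of_integrable
      (u := fun η => vv φ γ Ω s η x) (v := fun η => Ω s η x)
      (u' := fun η => -deriv (u1 φ Ω s η) x) (v' := fun η => Θ s η x)
      (fun η _ => vv_hasDerivAt hS hP hI hs η x) (fun η _ => hI.der s hs η x) i1 ?_ i3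
    have := i2.neg
    refine this.congr (Eventually.of_forall fun η => ?_)
    simp
  have i4 : Integrable fun η => u1 φ Ω s η x * deriv (Ω s η) x := by
    have := hint.sub i2
    refine this.congr (Eventually.of_forall fun η => ?_)
    simp only [Pi.sub_apply, hd]
    ring
  have e : ∫ η, FF φ γ Ω Θ s η x = ∫ η, deriv (fun y => u1 φ Ω s η y * Ω s η y) x := by
    have e1 : ∀ η, FF φ γ Ω Θ s η x
        = u1 φ Ω s η x * deriv (Ω s η) x + vv φ γ Ω s η x * Θ s η x := fun η => by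
      rw [FF, dx_eq_deriv ((hI.w0 s hs η).differentiable hr x)]
    simp only [e1, hd]
    rw [integral_add i4 i1, integral_add i2 i4, hparts]
    simp only [neg_mul, integral_neg, neg_neg]
    ring
  rw [e]
  exact hder

/-- The form used in the step: the integrated transport term is close to the derivative of the
flux of the sheet. -/
theorem intFF_sub_WR (hS : Sheet ρ L M₀ T φ γ) (M : ℝ) : ∃ C : ℝ, 0 < C ∧
    ∀ {β T' ν : ℝ} {Ω Θ : ℝ → ℝ → ℝ → ℝ}, Par ρ L T β T' ν → Inv ρ L β T' ν M γ Ω Θ →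
      ∀ s ∈ Ioc 0 T', WR (ρ - β * s) 1 (C * √(ν * s))
        fun x => (∫ η, FF φ γ Ω Θ s η x) - deriv (fl φ γ s) x := by
  obtain ⟨C, hC, h⟩ := QQ_sub_WR hS M
  obtain ⟨C', _, hb⟩ := hS.bounds
  refine ⟨C, hC, fun hP hI s hs => ?_⟩
  have hr := hP.rad_pos hs.2
  have h1 := (h hP hI s hs).derivW hr
  have hfl := (hb s).2.2.1.differentiable hS.ρ_pos
  convert h1 using 1
  funext x
  exact ((integral_FF hS hP hI hs x).sub (hfl x).hasDerivAt).deriv.symm

end Pool.Agent.Lib.MP_3d41d4_an
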