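import Pool.Agent.Lib.MP_3d41d4_an.St3a
import Pool.Agent.Lib.MP_3d41d4_an.Flux

open MeasureTheory Set Filter Topology Real
open scoped ENNReal

namespace Pool.Agent.Lib.MP_3d41d4_an

variable {ρ L M₀ T : ℝ} {φ γ : ℝ → ℝ → ℝ}

/-- The integrand of the time integral is small in the class of level one. -/
theorem St3_aux {β T' ν C₁ C₂ t s : ℝ} (hP : Par ρ L T β T' ν) (ht : t ∈ Ioc 0 T')
    (hs : s ∈ Ioo 0 t) {F D : ℝ → ℝ} (hC₁ : 0 < C₁) (hC₂ : 0 < C₂)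
    (h1 : WR (ρ - β * s) 1 (C₁ * √(ν * s)) fun x => F x - D x) (h2 : WR ρ 3 C₂ D) :
    WR (ρ - β * s) 1 ((C₁ + 2 * C₂) * √(ν * t)) fun x => heat (ν * (t - s)) F x - D x := by
  have hsT : s ≤ T' := hs.2.le.trans ht.2
  have hr : 0 < ρ - β * s := hP.rad_pos hsT
  have hrle : ρ - β * s ≤ ρ := hP.rad_le hs.1.le
  have ha : 0 < ν * (t - s) := mul_pos hP.ν_pos (sub_pos.2 hs.2)
  have hD2 : WR (ρ - β * s) (1 + 1) C₂ D := h2.mono hrle (by norm_num) le_rfl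
  have hD1 : WR (ρ - β * s) 1 C₂ D := h2.mono hrle (by norm_num) le_rfl
  have hF : WR (ρ - β * s) 1 (C₁ * √(ν * s) + C₂) F := by
    have := h1.add hD1
    simpa using this
  have e1 := heat_WR hr ha h1
  have e2 := heat_sub_WR hr ha hD2
  have e3 := e1.add e2
  have hq1 : √(ν * s) ≤ √(ν * t) :=
    Real.sqrt_le_sqrt (mul_le_mul_of_nonneg_left hs.2.le hP.ν_pos.le)
  have hq2 : √(ν * (t - s)) ≤ √(ν * t) :=
    Real.sqrt_le_sqrt (mul_le_mul_of_nonneg_left (by linarith [hs.1]) hP.ν_pos.le)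
  have e4 : WR (ρ - β * s) 1 ((C₁ + 2 * C₂) * √(ν * t))
      fun x => heat (ν * (t - s)) (fun x => F x - D x) x + (heat (ν * (t - s)) D x - D x) := by
    refine e3.mono le_rfl le_rfl ?_
    nlinarith [mul_le_mul_of_nonneg_left hq1 hC₁.le, mul_le_mul_of_nonneg_left hq2 hC₂.le]
  have e5 : (fun x => heat (ν * (t - s)) (fun x => F x - D x) x + (heat (ν * (t - s)) D x - D x))
      = fun x => heat (ν * (t - s)) F x - D x := by
    funext x
    rw [heat_sub hr ha hF hD1 x]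
    ring
  rwa [e5] at e4

theorem step3 (hS : Sheet ρ L M₀ T φ γ) : ∃ C₀ : ℝ, 0 < C₀ ∧ ∀ M : ℝ, ∃ C : ℝ, 0 < C ∧
    ∀ {β T' ν : ℝ} {Ω Θ : ℝ → ℝ → ℝ → ℝ}, Par ρ L T β T' ν → Inv ρ L β T' ν M γ Ω Θ →
      ∀ t ∈ Ioc 0 T', WR (ρ - β * t) 2 ((C₀ + C * (t + 1 / β)) * √(ν * t))
        fun x => SS (Om φ γ ν Ω Θ 0 0) t x - γ t x := by
  refine ⟨2 * M₀, by linarith [hS.M_pos], fun M => ?_⟩
  obtain ⟨C₁, hC₁, h1⟩ := intFF_sub_WR hS M
  obtain ⟨C₂, hC₂, h2⟩ := hS.bounds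
  refine ⟨C₁ + 2 * C₂, by linarith, ?_⟩
  intro β T' ν Ω Θ hP hI t ht
  have hρ : 0 < ρ := hS.ρ_pos
  have hr : 0 < ρ - β * t := hP.rad_pos ht.2
  have hrle : ρ - β * t ≤ ρ := hP.rad_le ht.1.le
  have ha : 0 < ν * t := mul_pos hP.ν_pos ht.1
  set f : ℝ → ℝ → ℝ := fun s x =>
    heat (ν * (t - s)) (fun y => ∫ η', FF φ γ Ω Θ s η' y) x - deriv (fl φ γ s) x with hf
  have hfm : Measurable fun p : ℝ × ℝ => f p.1 p.2 := by
    refine Measurable.sub ?_ (hS.meas_dfl measurable_fst measurable_snd)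
    refine measurable_heat (a := fun p : ℝ × ℝ => ν * (t - p.1)) (x := fun p : ℝ × ℝ => p.2)
      (F := fun (p : ℝ × ℝ) y => ∫ η', FF φ γ Ω Θ p.1 η' y) (by fun_prop) measurable_snd ?_
    exact meas_intFF hS hI.measΩ hI.measΘ (s := fun q : (ℝ × ℝ) × ℝ => q.1.1)
      (x := fun q : (ℝ × ℝ) × ℝ => q.2) (by fun_prop) measurable_snd
  have hfW : ∀ s ∈ Ioo 0 t, WR (ρ - β * s) 1 ((C₁ + 2 * C₂) * √(ν * t)) (f s) := by
    intro s hs
    exact St3_aux hP ht hs hC₁ hC₂ (h1 hP hI s ⟨hs.1, hs.2.le.trans ht.2⟩) (h2 s).2.2.2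
  have hgain := WR.integral_gain hP.β_pos ht.1 (by linarith) hfm hfW
  have hint : ∀ x, IntegrableOn (fun s => f s x) (Ioo 0 t) := by
    intro x
    refine WR.integrable (μ := volume.restrict (Ioo 0 t)) (n := 1) hr hfm
      (m := fun _ => (C₁ + 2 * C₂) * √(ν * t)) (integrable_const _) ?_ x
    refine (ae_restrict_iff' measurableSet_Ioo).2 (Eventually.of_forall fun s hs => ?_)
    refine (hfW s hs).mono ?_ le_rfl le_rfl
    have := mul_le_mul_of_nonneg_left hs.2.le hP.β_pos.le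
    linarith
  have hA : WR (ρ - β * t) 2 (2 * M₀ * √(ν * t)) fun x => heat (ν * t) (γ 0) x - γ 0 x :=
    heat_sub_WR hr ha ((hS.wγ 0).mono hrle (by norm_num) le_rfl)
  have hsum := hA.sub hgain
  have heq : (fun x => heat (ν * t) (γ 0) x - γ 0 x - ∫ s in Ioo 0 t, f s x)
      = fun x => SS (Om φ γ ν Ω Θ 0 0) t x - γ t x := by
    funext x
    obtain ⟨hD, hγ⟩ := hS.γ_eq ht.1.le (ht.2.trans hP.T'_lt.le) x
    have hsplit : ∫ s in Ioo 0 t, heat (ν * (t - s)) (fun y => ∫ η', FF φ γ Ω Θ s η' y) x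
        = (∫ s in Ioo 0 t, f s x) + ∫ s in Ioo 0 t, deriv (fl φ γ s) x := by
      rw [← integral_add (hint x) hD]
      refine integral_congr_ae (Eventually.of_forall fun s => ?_)
      simp only [hf]
      ring
    rw [SS_Om hS hP hI ht x, hγ, hsplit]
    ring
  rw [heq] at hsum
  refine hsum.mono le_rfl le_rfl (le_of_eq ?_)
  ring

end Pool.Agent.Lib.MP_3d41d4_an
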