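import Pool.Agent.Lib.MP_3d41d4_an.St01
import Pool.Agent.Lib.MP_3d41d4_an.St2
import Pool.Agent.Lib.MP_3d41d4_an.St3

open MeasureTheory Set Filter Topology Real
open scoped ENNReal

namespace Pool.Agent.Lib.MP_3d41d4_an

variable {ρ L M₀ T : ℝ} {φ γ : ℝ → ℝ → ℝ}

/-- All iterates satisfy the invariant, uniformly in the viscosity. -/
theorem inv_iter (hS : Sheet ρ L M₀ T φ γ) : ∃ M β T' : ℝ, ∀ ν, 0 < ν → ν ≤ 1 →
    Par ρ L T β T' ν ∧ ∀ n, Inv ρ L β T' ν M γ (iter φ γ L ν n).1 (iter φ γ L ν n).2 := by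
  obtain ⟨A0, hA0, h0⟩ := step0 hS
  obtain ⟨A1, hA1, h1⟩ := step1 hS
  obtain ⟨A3, hA3, h3⟩ := step3 hS
  obtain ⟨Az, hAz, hz⟩ := inv_zero hS
  set M : ℝ := A0 + A1 + A3 + Az + 1 with hM
  obtain ⟨C0, hC0, h0⟩ := h0 M
  obtain ⟨C1, hC1, h1⟩ := h1 M
  obtain ⟨C3, hC3, h3⟩ := h3 M
  set C : ℝ := C0 + C1 + C3 + 1 with hC
  have hC1' : 1 ≤ C := by linarith
  have hCpos : 0 < C := by linarith
  have hρ := hS.ρ_pos
  have hT := hS.T_pos
  have hcg := cg_pos L
  set β : ℝ := 2 * C with hβ
  have hβpos : 0 < β := by positivity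
  set T' : ℝ := min (min (1 / (2 * C)) (T / 2)) (min (ρ / (2 * β)) (cg L / (4 * β))) with hT'
  have hT'1 : T' ≤ 1 / (2 * C) := (min_le_left _ _).trans (min_le_left _ _)
  have hT'2 : T' ≤ T / 2 := (min_le_left _ _).trans (min_le_right _ _)
  have hT'3 : T' ≤ ρ / (2 * β) := (min_le_right _ _).trans (min_le_left _ _)
  have hT'4 : T' ≤ cg L / (4 * β) := (min_le_right _ _).trans (min_le_right _ _)
  have hT'pos : 0 < T' := by
    simp only [hT', lt_min_iff]
    refine ⟨⟨by positivity, by positivity⟩, by positivity, by positivity⟩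
  have hinv : 1 / (2 * C) ≤ 1 := by
    rw [div_le_one (by positivity)]; linarith
  refine ⟨M, β, T', fun ν hν hν1 => ?_⟩
  have hP : Par ρ L T β T' ν := by
    refine ⟨hT'pos, hT'1.trans hinv, by linarith, hβpos, ?_, ?_, hν, hν1⟩
    · calc β * T' ≤ β * (ρ / (2 * β)) := mul_le_mul_of_nonneg_left hT'3 hβpos.le
        _ = ρ / 2 := by field_simp
    · calc β * T' ≤ β * (cg L / (4 * β)) := mul_le_mul_of_nonneg_left hT'4 hβpos.le
        _ = cg L / 4 := by field_simp
  have e1 : ∀ t ∈ Ioc 0 T', C * (t + 1 / β) ≤ 1 := by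
    intro t ht
    have h2 : t ≤ 1 / (2 * C) := ht.2.trans hT'1
    calc C * (t + 1 / β) ≤ C * (1 / (2 * C) + 1 / (2 * C)) := by
          apply mul_le_mul_of_nonneg_left _ hCpos.le
          rw [hβ]; linarith
      _ = 1 := by field_simp; ring
  have e2 : ∀ t ∈ Ioc 0 T', C * (t + √(t / β)) ≤ 1 := by
    intro t ht
    have h2 : t ≤ 1 / (2 * C) := ht.2.trans hT'1
    have h3 : √(t / β) ≤ 1 / (2 * C) := by
      apply Real.sqrt_le_iff.mpr
      refine ⟨by positivity, ?_⟩
      rw [hβ, div_le_iff₀ (by positivity)]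
      calc t ≤ 1 / (2 * C) := h2
        _ = (1 / (2 * C)) ^ 2 * (2 * C) := by field_simp
    calc C * (t + √(t / β)) ≤ C * (1 / (2 * C) + 1 / (2 * C)) := by
          apply mul_le_mul_of_nonneg_left _ hCpos.le
          linarith
      _ = 1 := by field_simp; ring
  refine ⟨hP, fun n => ?_⟩
  induction n with
  | zero => exact hz M (by linarith) hP
  | succ n ih =>
    refine ⟨?_, ?_, ?_, ?_, ?_, ?_⟩
    · exact meas_Om hS ν ih.measΩ ih.measΘ 0 measurable_const measurable_fst
        (measurable_fst.comp measurable_snd) (measurable_snd.comp measurable_snd)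
    · exact meas_Om hS ν ih.measΩ ih.measΘ 1 measurable_const measurable_fst
        (measurable_fst.comp measurable_snd) (measurable_snd.comp measurable_snd)
    · intro t ht η
      refine (h0 hP ih t ht η).mono le_rfl le_rfl ?_
      apply mul_le_mul_of_nonneg_right _ (gs_nonneg _ _ _)
      have h5 : 0 ≤ t + 1 / β := by have := ht.1.le; positivity
      have : C0 * (t + 1 / β) ≤ C * (t + 1 / β) :=
        mul_le_mul_of_nonneg_right (by linarith) h5
      have := e1 t ht
      linarith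
    · intro t ht η
      refine (h1 hP ih t ht η).mono le_rfl le_rfl ?_
      apply div_le_div_of_nonneg_right _ (by positivity)
      apply mul_le_mul_of_nonneg_right _ (gs_nonneg _ _ _)
      have h5 : 0 ≤ t + √(t / β) := by have := ht.1.le; positivity
      have : C1 * (t + √(t / β)) ≤ C * (t + √(t / β)) :=
        mul_le_mul_of_nonneg_right (by linarith) h5
      have := e2 t ht
      linarith
    · intro t ht η x
      exact step2 hS hP ih ht η x
    · intro t ht
      refine (h3 hP ih t ht).mono le_rfl le_rfl ?_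
      apply mul_le_mul_of_nonneg_right _ (Real.sqrt_nonneg _)
      have h5 : 0 ≤ t + 1 / β := by have := ht.1.le; positivity
      have : C3 * (t + 1 / β) ≤ C * (t + 1 / β) :=
        mul_le_mul_of_nonneg_right (by linarith) h5
      have := e1 t ht
      linarith

end Pool.Agent.Lib.MP_3d41d4_an
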