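import Pool.Agent.Lib.MP_3d41d4_an.Cyl0

open MeasureTheory Set Filter Topology Real
open scoped ENNReal

namespace Pool.Agent.Lib.MP_3d41d4_an

theorem Cyl_prod {F : ℝ × ℝ → ℝ≥0∞} (hF : Measurable F) :
    ∫⁻ p in cyl, F p = ∫⁻ x in Ioc 0 (2 * π), ∫⁻ y, F (x, y) := by
  rw [cyl, Measure.volume_eq_prod, ← Measure.prod_restrict, Measure.restrict_univ,
    lintegral_prod _ hF.aemeasurable]

theorem Cyl_avg {K H : ℝ → ℝ≥0∞} (hK : Measurable K) (hH : Measurable H)
    (hp : Function.Periodic H (2 * π)) (x₀ : ℝ) :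
    ∫⁻ x in Ioc 0 (2 * π), ∫⁻ s, K s * H (x + (s + x₀))
      = (∫⁻ s, K s) * ∫⁻ x in Ioc 0 (2 * π), H x := by
  rw [lintegral_lintegral_swap (Measurable.aemeasurable (by fun_prop)),
    ← lintegral_mul_const _ hK]
  refine lintegral_congr fun s => ?_
  rw [lintegral_const_mul _ (by fun_prop), lintegral_Ioc_translate hH hp]

theorem Cyl_point {c : ℝ} (hc : 0 < c) (r : ℝ) :
    ENNReal.ofReal (Real.exp (-(c * r ^ 2))) ≤ ENNReal.ofReal (Real.exp (4 * c * π ^ 2)) *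
      ∫⁻ θ in Ioc 0 (2 * π), ENNReal.ofReal (Real.exp (-(c / 2 * (r - θ) ^ 2))) := by
  rw [← lintegral_const_mul _ (by fun_prop)]
  have h1 : (1 : ℝ≥0∞) ≤ volume (Ioc (0 : ℝ) (2 * π)) := by
    rw [Real.volume_Ioc, ← ENNReal.ofReal_one]
    exact ENNReal.ofReal_le_ofReal (by linarith [Real.pi_gt_three])
  calc ENNReal.ofReal (Real.exp (-(c * r ^ 2)))
      ≤ ENNReal.ofReal (Real.exp (-(c * r ^ 2))) * volume (Ioc (0 : ℝ) (2 * π)) :=
        le_mul_of_one_le_right' h1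
    _ = ∫⁻ _ in Ioc (0 : ℝ) (2 * π), ENNReal.ofReal (Real.exp (-(c * r ^ 2))) :=
        (setLIntegral_const _ _).symm
    _ ≤ _ := by
        refine setLIntegral_mono' measurableSet_Ioc fun θ hθ => ?_
        rw [← ENNReal.ofReal_mul (Real.exp_pos _).le, ← Real.exp_add]
        refine ENNReal.ofReal_le_ofReal (Real.exp_le_exp.mpr ?_)
        have h2 : θ ^ 2 ≤ (2 * π) ^ 2 := pow_le_pow_left₀ hθ.1.le hθ.2 2
        have h3 : (r - θ) ^ 2 ≤ 2 * r ^ 2 + 8 * π ^ 2 := by nlinarith [sq_nonneg (r + θ)]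
        nlinarith [mul_le_mul_of_nonneg_left h3 hc.le]

/-- Periodic functions against a Gaussian weight on the plane. -/
theorem lintegral_gauss_le {c : ℝ} (hc : 0 < c) : ∃ C : ℝ, 0 < C ∧
    ∀ h : ℝ × ℝ → ℝ≥0∞, Measurable h → (∀ x y, h (x + 2 * π, y) = h (x, y)) → ∀ x₀ : ℝ,
      ∫⁻ p : ℝ × ℝ, ENNReal.ofReal (Real.exp (-(c * (p.1 - x₀) ^ 2))) * h p
        ≤ ENNReal.ofReal C * ∫⁻ p in cyl, h p := by
  have hc2 : 0 < c / 2 := half_pos hc
  refine ⟨Real.exp (4 * c * π ^ 2) * √(π / (c / 2)), by have := Real.pi_pos; positivity,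
    fun h hm hp x₀ => ?_⟩
  set K : ℝ → ℝ≥0∞ := fun s => ENNReal.ofReal (Real.exp (-(c / 2 * s ^ 2))) with hKdef
  set H : ℝ → ℝ≥0∞ := fun x => ∫⁻ y, h (x, y) with hHdef
  have hK : Measurable K := by rw [hKdef]; fun_prop
  have hH : Measurable H := hm.lintegral_prod_right'
  have hHp : Function.Periodic H (2 * π) := fun x => by simp only [hHdef, hp]
  have hKi : ∫⁻ s, K s = ENNReal.ofReal √(π / (c / 2)) := by
    rw [← integral_gaussian, ofReal_integral_eq_lintegral_ofReal (integrable_exp_neg_mul_sq hc2)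
      (Eventually.of_forall fun _ => (Real.exp_pos _).le)]
    simp only [hKdef, neg_mul]
  have e1 : ∫⁻ p : ℝ × ℝ, ENNReal.ofReal (Real.exp (-(c * (p.1 - x₀) ^ 2))) * h p
      = ∫⁻ r, ENNReal.ofReal (Real.exp (-(c * (r - x₀) ^ 2))) * H r := by
    rw [Measure.volume_eq_prod, lintegral_prod _ (Measurable.aemeasurable (by fun_prop))]
    refine lintegral_congr fun r => ?_
    simp only
    rw [lintegral_const_mul _ (by fun_prop)]
  have e2 : ∫⁻ r, (∫⁻ θ in Ioc 0 (2 * π), K (r - x₀ - θ)) * H r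
      = (∫⁻ s, K s) * ∫⁻ x in Ioc 0 (2 * π), H x := by
    rw [← Cyl_avg hK hH hHp x₀]
    have e3 : ∀ r, (∫⁻ θ in Ioc 0 (2 * π), K (r - x₀ - θ)) * H r
        = ∫⁻ θ in Ioc 0 (2 * π), K (r - x₀ - θ) * H r := fun r =>
      (lintegral_mul_const _ (by fun_prop)).symm
    simp only [e3]
    rw [lintegral_lintegral_swap (Measurable.aemeasurable (by fun_prop))]
    refine lintegral_congr fun θ => ?_
    rw [← lintegral_add_right_eq_self (fun r => K (r - x₀ - θ) * H r) (x₀ + θ)]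
    refine lintegral_congr fun s => ?_
    congr 2 <;> ring
  rw [e1, Cyl_prod hm, ENNReal.ofReal_mul (Real.exp_pos _).le, mul_assoc, ← hKi, ← e2,
    ← lintegral_const_mul' _ _ ENNReal.ofReal_ne_top]
  refine lintegral_mono fun r => ?_
  rw [← mul_assoc]
  exact mul_le_mul_left (Cyl_point hc (r - x₀)) _

/-- Gaussian convolution on the cylinder; `h` is a function of `(x, η)`. -/
theorem lintegral_gs_conv {c a : ℝ} (hc : 0 < c) (ha : 0 < a) {h : ℝ × ℝ → ℝ≥0∞}
    (hm : Measurable h) (hp : ∀ x y, h (x + 2 * π, y) = h (x, y)) :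
    ∫⁻ z in cyl, ∫⁻ p : ℝ × ℝ,
        ENNReal.ofReal (gs c a p.1 * gs c a (z.2 - p.2)) * h (z.1 + p.1, p.2)
      = ENNReal.ofReal (π / c) * ∫⁻ z in cyl, h z := by
  set K : ℝ → ℝ≥0∞ := fun s => ENNReal.ofReal (gs c a s) with hKdef
  set H : ℝ → ℝ≥0∞ := fun x => ∫⁻ y, h (x, y) with hHdef
  have hK : Measurable K := (continuous_gs c a).measurable.ennreal_ofReal
  have hH : Measurable H := hm.lintegral_prod_right'
  have hHp : Function.Periodic H (2 * π) := fun x => by simp only [hHdef, hp]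
  have hKi : ∫⁻ s, K s = ENNReal.ofReal √(π / c) := by
    rw [← integral_gs hc ha, ofReal_integral_eq_lintegral_ofReal (integrable_gs hc ha)
      (Eventually.of_forall fun _ => gs_nonneg _ _ _)]
  have e0 : ∀ u v, ENNReal.ofReal (gs c a u * gs c a v) = K u * K v := fun u v =>
    ENNReal.ofReal_mul (gs_nonneg _ _ _)
  simp only [e0]
  have e1 : ∀ x, ∫⁻ y, ∫⁻ p : ℝ × ℝ, K p.1 * K (y - p.2) * h (x + p.1, p.2)
      = (∫⁻ s, K s) * ∫⁻ s, K s * H (x + (s + 0)) := fun x => by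
    rw [lintegral_lintegral_swap (Measurable.aemeasurable (by fun_prop))]
    have e2 : ∀ p : ℝ × ℝ, ∫⁻ y, K p.1 * K (y - p.2) * h (x + p.1, p.2)
        = (∫⁻ s, K s) * (K p.1 * h (x + p.1, p.2)) := fun p => by
      rw [lintegral_mul_const _ (by fun_prop), lintegral_const_mul _ (by fun_prop),
        lintegral_sub_right_eq_self K p.2]
      ring
    simp only [e2]
    rw [lintegral_const_mul _ (by fun_prop), Measure.volume_eq_prod,
      lintegral_prod _ (Measurable.aemeasurable (by fun_prop))]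
    congr 1
    refine lintegral_congr fun s => ?_
    simp only [add_zero]
    rw [lintegral_const_mul _ (by fun_prop)]
  rw [Cyl_prod (Measurable.lintegral_prod_right' (f := fun q : (ℝ × ℝ) × ℝ × ℝ =>
    K q.2.1 * K (q.1.2 - q.2.2) * h (q.1.1 + q.2.1, q.2.2)) (by fun_prop)), Cyl_prod hm]
  simp only [e1]
  rw [lintegral_const_mul' _ _ (by rw [hKi]; exact ENNReal.ofReal_ne_top),
    Cyl_avg hK hH hHp 0, ← mul_assoc, hKi, ← ENNReal.ofReal_mul (Real.sqrt_nonneg _),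
    Real.mul_self_sqrt (by have := Real.pi_pos; positivity)]

end Pool.Agent.Lib.MP_3d41d4_an
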