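import Pool.Agent.Lib.MP_3d41d4_an.Gauss

open MeasureTheory Set Filter Topology Real
open scoped ENNReal

namespace Pool.Agent.Lib.MP_3d41d4_an

theorem measurableSet_cyl : MeasurableSet cyl := measurableSet_Ioc.prod MeasurableSet.univ

theorem measurableSet_cyl0 : MeasurableSet cyl0 := measurableSet_Ioc.prod MeasurableSet.univ

/-- Translation followed by a shear, as a measurable equivalence. -/
noncomputable def Cyl0_equiv {ψ : ℝ → ℝ} (hψ : Measurable ψ) (x : ℝ) : ℝ × ℝ ≃ᵐ ℝ × ℝ where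
  toFun p := (x + p.1, p.2 + ψ p.1)
  invFun q := (q.1 - x, q.2 - ψ (q.1 - x))
  left_inv p := by simp
  right_inv q := by simp
  measurable_toFun :=
    (measurable_const.add measurable_fst).prodMk (measurable_snd.add (hψ.comp measurable_fst))
  measurable_invFun :=
    (measurable_fst.sub measurable_const).prodMk
      (measurable_snd.sub (hψ.comp (measurable_fst.sub measurable_const)))

theorem Cyl0_restrict (s : Set ℝ) :
    (volume : Measure (ℝ × ℝ)).restrict (s ×ˢ univ) =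
      ((volume : Measure ℝ).restrict s).prod (volume : Measure ℝ) := by
  rw [Measure.volume_eq_prod, ← Measure.prod_restrict, Measure.restrict_univ]

theorem Cyl0_mp {ψ : ℝ → ℝ} (hψ : Measurable ψ) (x : ℝ) {μ ν : Measure ℝ} [SFinite μ] [SFinite ν]
    (h : MeasurePreserving (fun r => x + r) μ ν) :
    MeasurePreserving (Cyl0_equiv hψ x) (μ.prod volume) (ν.prod volume) := by
  have hm : Measurable (Function.uncurry fun (r y : ℝ) => y + ψ r) :=
    measurable_snd.add (hψ.comp measurable_fst)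
  exact h.skew_product (g := fun r y => y + ψ r) hm
    (Eventually.of_forall fun r => map_add_right_eq_self volume (ψ r))

theorem Cyl0_mp_cyl {ψ : ℝ → ℝ} (hψ : Measurable ψ) :
    MeasurePreserving (Cyl0_equiv hψ 0) (volume.restrict cyl) (volume.restrict cyl) := by
  unfold cyl
  rw [Cyl0_restrict]
  refine Cyl0_mp hψ 0 ?_
  simp only [zero_add]
  exact MeasurePreserving.id (volume.restrict (Ioc 0 (2 * π)))

theorem Cyl0_mp_plane {ψ : ℝ → ℝ} (hψ : Measurable ψ) (x : ℝ) :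
    MeasurePreserving (Cyl0_equiv hψ x) volume volume := by
  rw [Measure.volume_eq_prod]
  exact Cyl0_mp hψ x (measurePreserving_add_left volume x)

/-- Vertical shears preserve the integral over the cylinder. -/
theorem lintegral_cyl_shear {ψ : ℝ → ℝ} (hψ : Measurable ψ) (h : ℝ × ℝ → ℝ≥0∞) :
    ∫⁻ p in cyl, h (p.1, p.2 + ψ p.1) = ∫⁻ p in cyl, h p := by
  have := (Cyl0_mp_cyl hψ).lintegral_comp_emb (Cyl0_equiv hψ 0).measurableEmbedding h
  simpa [Cyl0_equiv] using this

theorem integral_cyl_shear {E : Type} [NormedAddCommGroup E] [NormedSpace ℝ E] {ψ : ℝ → ℝ}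
    (hψ : Measurable ψ) (h : ℝ × ℝ → E) :
    ∫ p in cyl, h (p.1, p.2 + ψ p.1) = ∫ p in cyl, h p := by
  have := (Cyl0_mp_cyl hψ).integral_comp (Cyl0_equiv hψ 0).measurableEmbedding h
  simpa [Cyl0_equiv] using this

theorem integrableOn_cyl_shear {E : Type} [NormedAddCommGroup E] {ψ : ℝ → ℝ}
    (hψ : Measurable ψ) (h : ℝ × ℝ → E) :
    IntegrableOn (fun p : ℝ × ℝ => h (p.1, p.2 + ψ p.1)) cyl ↔ IntegrableOn h cyl := by
  have := (Cyl0_mp_cyl hψ).integrable_comp_emb (Cyl0_equiv hψ 0).measurableEmbedding (g := h)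
  have e : h ∘ (Cyl0_equiv hψ 0) = fun p : ℝ × ℝ => h (p.1, p.2 + ψ p.1) := by
    funext p
    simp [Cyl0_equiv]
  rw [e] at this
  exact this

/-- Translation followed by a shear on the plane. -/
theorem integral_shear {E : Type} [NormedAddCommGroup E] [NormedSpace ℝ E] {ψ : ℝ → ℝ}
    (hψ : Measurable ψ) (x : ℝ) (h : ℝ × ℝ → E) :
    ∫ p : ℝ × ℝ, h (x + p.1, p.2 + ψ p.1) = ∫ p, h p :=
  (Cyl0_mp_plane hψ x).integral_comp (Cyl0_equiv hψ x).measurableEmbedding h

theorem integrable_shear {E : Type} [NormedAddCommGroup E] {ψ : ℝ → ℝ}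
    (hψ : Measurable ψ) (x : ℝ) (h : ℝ × ℝ → E) :
    Integrable (fun p : ℝ × ℝ => h (x + p.1, p.2 + ψ p.1)) ↔ Integrable h :=
  (Cyl0_mp_plane hψ x).integrable_comp_emb (Cyl0_equiv hψ x).measurableEmbedding (g := h)

theorem Cyl0_period {h : ℝ → ℝ≥0∞} (hp : Function.Periodic h (2 * π)) (a b : ℝ) :
    ∫⁻ x in Ioc a (a + 2 * π), h x = ∫⁻ x in Ioc b (b + 2 * π), h x := by
  have : Fact (0 < 2 * π) := ⟨by positivity⟩
  have h1 := AddCircle.lintegral_preimage (2 * π) a hp.lift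
  have h2 := AddCircle.lintegral_preimage (2 * π) b hp.lift
  simp only [Function.Periodic.lift_coe] at h1 h2
  rw [h1, h2]

theorem Cyl0_shift {h : ℝ → ℝ≥0∞} (hp : Function.Periodic h (2 * π)) (a x : ℝ) :
    ∫⁻ r in Ioc a (a + 2 * π), h (x + r) = ∫⁻ r in Ioc 0 (2 * π), h r := by
  have h1 : ∫⁻ r in Ioc a (a + 2 * π), h (x + r) = ∫⁻ r in Ioc (x + a) (x + a + 2 * π), h r := by
    have e : Ioc a (a + 2 * π) = (fun r => x + r) ⁻¹' Ioc (x + a) (x + a + 2 * π) := by
      ext r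
      simp only [mem_Ioc, mem_preimage]
      constructor <;> rintro ⟨h1, h2⟩ <;> constructor <;> linarith
    rw [e]
    exact (measurePreserving_add_left volume x).setLIntegral_comp_preimage_emb
      (measurableEmbedding_addLeft x) h _
  rw [h1, Cyl0_period hp (x + a) 0, zero_add]

theorem Cyl0_gen {h : ℝ × ℝ → ℝ≥0∞} (hm : Measurable h)
    (hp : ∀ x y, h (x + 2 * π, y) = h (x, y)) (a x : ℝ) :
    ∫⁻ p in Ioc a (a + 2 * π) ×ˢ (univ : Set ℝ), h (x + p.1, p.2) = ∫⁻ p in cyl, h p := by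
  unfold cyl
  have hm2 : Measurable fun p : ℝ × ℝ => h (x + p.1, p.2) :=
    hm.comp ((measurable_const.add measurable_fst).prodMk measurable_snd)
  rw [Cyl0_restrict, Cyl0_restrict, lintegral_prod _ hm2.aemeasurable,
    lintegral_prod _ hm.aemeasurable]
  exact Cyl0_shift (h := fun r => ∫⁻ y, h (r, y)) (fun r => by simp only [hp]) a x

theorem lintegral_cyl_translate {h : ℝ × ℝ → ℝ≥0∞} (hm : Measurable h)
    (hp : ∀ x y, h (x + 2 * π, y) = h (x, y)) (x : ℝ) :
    ∫⁻ p in cyl, h (x + p.1, p.2) = ∫⁻ p in cyl, h p := by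
  have := Cyl0_gen hm hp 0 x
  rwa [zero_add] at this

theorem Cyl0_eq : cyl0 = Ioc (-π) (-π + 2 * π) ×ˢ (univ : Set ℝ) := by
  unfold cyl0
  rw [show -π + 2 * π = π by ring]

theorem lintegral_cyl0 {h : ℝ × ℝ → ℝ≥0∞} (hm : Measurable h)
    (hp : ∀ x y, h (x + 2 * π, y) = h (x, y)) (x : ℝ) :
    ∫⁻ p in cyl0, h (x + p.1, p.2) = ∫⁻ p in cyl, h p := by
  rw [Cyl0_eq]
  exact Cyl0_gen hm hp (-π) x

theorem lintegral_Ioc_translate {h : ℝ → ℝ≥0∞} (hm : Measurable h)
    (hp : Function.Periodic h (2 * π)) (r : ℝ) :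
    ∫⁻ x in Ioc 0 (2 * π), h (x + r) = ∫⁻ x in Ioc 0 (2 * π), h x := by
  have := Cyl0_shift hp 0 r
  rw [zero_add] at this
  simpa only [add_comm r] using this

theorem integral_cyl0 {h : ℝ × ℝ → ℂ} (hm : Measurable h)
    (hp : ∀ x y, h (x + 2 * π, y) = h (x, y)) (hi : IntegrableOn h cyl) (x : ℝ) :
    IntegrableOn (fun p : ℝ × ℝ => h (x + p.1, p.2)) cyl0 ∧
      ∫ p in cyl0, h (x + p.1, p.2) = ∫ p in cyl, h p := by
  have hm2 : Measurable fun p : ℝ × ℝ => h (x + p.1, p.2) :=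
    hm.comp ((measurable_const.add measurable_fst).prodMk measurable_snd)
  have hi2 : IntegrableOn (fun p : ℝ × ℝ => h (x + p.1, p.2)) cyl0 := by
    refine ⟨hm2.aestronglyMeasurable, ?_⟩
    have h1 := lintegral_cyl0 (h := fun p => ‖h p‖ₑ) hm.enorm (fun a b => by simp only [hp]) x
    have h2 := hi.2
    unfold HasFiniteIntegral at h2 ⊢
    rw [h1]
    exact h2
  refine ⟨hi2, ?_⟩
  unfold IntegrableOn cyl0 at hi2
  unfold IntegrableOn cyl at hi
  unfold cyl0 cyl
  rw [Cyl0_restrict] at hi hi2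
  rw [Cyl0_restrict, Cyl0_restrict, integral_prod _ hi2, integral_prod _ hi]
  have hpi := Real.pi_pos
  have hg : Function.Periodic (fun r => ∫ y, h (r, y)) (2 * π) := fun r => by simp only [hp]
  rw [← intervalIntegral.integral_of_le (by linarith), ← intervalIntegral.integral_of_le (by linarith)]
  have h3 := intervalIntegral.integral_comp_add_left (fun r => ∫ y, h (r, y)) x (a := -π) (b := π)
  have h4 := hg.intervalIntegral_add_eq (x + -π) 0
  rw [show x + -π + 2 * π = x + π by ring, zero_add] at h4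
  exact h3.trans h4

end Pool.Agent.Lib.MP_3d41d4_an
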