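import Pool.Agent.Lib.MP_3d41d4_an.Stmt

/-!
Internal definitions of the proof (see the blueprint).
-/

open MeasureTheory Set Filter Topology Real
open scoped ENNReal

namespace Pool.Agent.Lib.MP_3d41d4_an

/-! ### Weighted Fourier classes -/

/-- The weight `exp (-w k) / (1 + |k|) ^ n`. -/
noncomputable def wgt (w : ℤ → ℝ) (n : ℕ) (k : ℤ) : ℝ := Real.exp (-w k) / (1 + |(k : ℝ)|) ^ n

/-- Continuous periodic function whose Fourier coefficients are bounded by `M * wgt w n k`. -/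
def Wg (w : ℤ → ℝ) (n : ℕ) (M : ℝ) (f : ℝ → ℂ) : Prop :=
  Continuous f ∧ Function.Periodic f (2 * π) ∧ ∀ k : ℤ, ‖fc f k‖ ≤ M * wgt w n k

/-- Analytic class of radius `ρ`, level `n`, size `M`. -/
def W (ρ : ℝ) (n : ℕ) (M : ℝ) (f : ℝ → ℂ) : Prop := Wg (fun k => ρ * |(k : ℝ)|) n M f

/-- The same for real functions. -/
def WR (ρ : ℝ) (n : ℕ) (M : ℝ) (f : ℝ → ℝ) : Prop := W ρ n M (fun x => (f x : ℂ))

/-- The horizontal strip of half width `ρ`. -/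
def strip (ρ : ℝ) : Set ℂ := {z | |z.im| < ρ}

/-- The Fourier series of `f` at a complex point. -/
noncomputable def ext (f : ℝ → ℂ) (z : ℂ) : ℂ :=
  ∑' k : ℤ, fc f k * Complex.exp ((k : ℂ) * z * Complex.I)

/-- A derivative that is jointly measurable in parameters (equal to `deriv` at points of
differentiability). -/
noncomputable def dx (f : ℝ → ℝ) (x : ℝ) : ℝ :=
  limUnder atTop fun n : ℕ => (f (x + 1 / ((n : ℝ) + 1)) - f x) * ((n : ℝ) + 1)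

/-! ### Curves -/

/-- `Φ` is a holomorphic extension of `φ` to the strip of half width `2ρ` with bounded first and
second derivatives. -/
structure CurveExt (ρ L : ℝ) (φ : ℝ → ℝ) (Φ : ℂ → ℂ) : Prop where
  diff : DifferentiableOn ℂ Φ (strip (2 * ρ))
  per : ∀ z, Φ (z + 2 * (π : ℂ)) = Φ z
  real : ∀ x : ℝ, Φ x = φ x
  d1 : ∀ z ∈ strip (2 * ρ), ‖deriv Φ z‖ ≤ L
  d2 : ∀ z ∈ strip (2 * ρ), ‖deriv (deriv Φ) z‖ ≤ L

/-- An analytic graph with quantitative bounds. -/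
def Curve (ρ L : ℝ) (φ : ℝ → ℝ) : Prop :=
  0 < ρ ∧ 1 ≤ L ∧ 4 * ρ * L ≤ 1 ∧ ∃ Φ, CurveExt ρ L φ Φ

/-- Abstract chord function `q r = Φ (z + r) - Φ z` with slope `b = Φ' z`. -/
structure Chord (L : ℝ) (q : ℝ → ℂ) (b : ℂ) : Prop where
  one_le : 1 ≤ L
  cont : Continuous q
  n1 : ∀ r, ‖q r‖ ≤ L * |r|
  im : ∀ r, |(q r).im| ≤ |r| / 2
  tay : ∀ r, ‖q r - r * b‖ ≤ L * r ^ 2
  bim : |b.im| ≤ 1 / 2
  bn : ‖b‖ ≤ L

/-- The real chord. -/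
def ch (φ : ℝ → ℝ) (x r : ℝ) : ℝ := φ (x + r) - φ x

/-- `z'(x) = 1 + i φ'(x)`. -/
noncomputable def zp (φ : ℝ → ℝ) (x : ℝ) : ℂ := 1 + Complex.I * ((deriv φ x : ℝ) : ℂ)

/-! ### Biot-Savart operators -/

/-- The complex periodised kernel `cot (s / 2) / (4 π i)`. -/
noncomputable def kc (s : ℂ) : ℂ := Complex.cot (s / 2) / (4 * (π : ℂ) * Complex.I)

/-- `z(x) + iσ - z(x + r)` when `q = φ(x + r) - φ(x)`. -/
def sarg (r σ : ℝ) (q : ℂ) : ℂ := -(r : ℂ) + Complex.I * ((σ : ℂ) - q)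

/-- Conjugate velocity at height `σ` above the curve induced by the density `f` on the curve. -/
noncomputable def bs (φ : ℝ → ℝ) (σ : ℝ) (f : ℝ → ℝ) (x : ℝ) : ℂ :=
  ∫ r in (-π)..π, kc (sarg r σ (ch φ x r)) * (f (x + r) : ℂ)

/-- The symmetrised principal value integrand. -/
noncomputable def pvI (φ f : ℝ → ℝ) (x r : ℝ) : ℂ :=
  kc (sarg r 0 (ch φ x r)) * (f (x + r) : ℂ) + kc (sarg (-r) 0 (ch φ x (-r))) * (f (x + -r) : ℂ)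

/-- The principal value (Birkhoff-Rott) operator. -/
noncomputable def pv (φ f : ℝ → ℝ) (x : ℝ) : ℂ := ∫ r in (0 : ℝ)..π, pvI φ f x r

/-- The small part of `bs`: remove the principal value and the jump. -/
noncomputable def wtil (φ : ℝ → ℝ) (σ : ℝ) (f : ℝ → ℝ) (x : ℝ) : ℂ :=
  bs φ σ f x - pv φ f x + ((Real.sign σ * f x : ℝ) : ℂ) / (2 * zp φ x)

/-! ### Gaussians -/

/-- One dimensional Gaussian profile `exp (-m y² / b) / √b`. -/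
noncomputable def gs (m b y : ℝ) : ℝ := Real.exp (-(m * y ^ 2 / b)) / √b

/-- The Gaussian exponent available for curves of slope `L`. -/
noncomputable def cg (L : ℝ) : ℝ := 1 / (16 + 32 * L ^ 2)

/-- The two dimensional heat kernel at time `a`. -/
noncomputable def G (a r Y : ℝ) : ℝ := Real.exp (-((r ^ 2 + Y ^ 2) / (4 * a))) / (4 * π * a)

/-- Hermite factors of the `Y`-derivatives of the heat kernel. -/
noncomputable def hp : ℕ → ℝ → ℝ → ℝ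
  | 0, _, _ => 1
  | 1, a, Y => -Y / (2 * a)
  | 2, a, Y => Y ^ 2 / (4 * a ^ 2) - 1 / (2 * a)
  | 3, a, Y => 3 * Y / (4 * a ^ 2) - Y ^ 3 / (8 * a ^ 3)
  | _, _, _ => 0

/-- The `j`-th `Y`-derivative of the heat kernel, `j ≤ 3`. -/
noncomputable def Gd (j : ℕ) (a r Y : ℝ) : ℝ := hp j a Y * G a r Y

/-- The one dimensional heat kernel at time `a`. -/
noncomputable def H (a r : ℝ) : ℝ := Real.exp (-(r ^ 2 / (4 * a))) / √(4 * π * a)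

/-- The one dimensional heat semigroup. -/
noncomputable def heat (a : ℝ) (f : ℝ → ℝ) (x : ℝ) : ℝ := ∫ r, H a r * f (x + r)

/-! ### The moving sheet -/

/-- Normal velocity `φ_t` given by the Birkhoff-Rott law. -/
noncomputable def pt (φ γ : ℝ → ℝ → ℝ) (s x : ℝ) : ℝ := -(zp (φ s) x * pv (φ s) (γ s) x).im

/-- Flux `u₁ γ` of the Birkhoff-Rott law. -/
noncomputable def fl (φ γ : ℝ → ℝ → ℝ) (s x : ℝ) : ℝ := (pv (φ s) (γ s) x).re * γ s x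

/-- Quantitative form of an analytic vortex sheet, extended to all times. -/
structure Sheet (ρ L M T : ℝ) (φ γ : ℝ → ℝ → ℝ) : Prop where
  T_pos : 0 < T
  M_pos : 0 < M
  curve : ∀ t, Curve ρ L (φ t)
  contφ : Continuous fun p : ℝ × ℝ => φ p.1 p.2
  contγ : Continuous fun p : ℝ × ℝ => γ p.1 p.2
  wγ : ∀ t, WR ρ 4 M (γ t)
  lip1 : ∀ t s, WR ρ 4 (M * |t - s|) fun x => deriv (φ t) x - deriv (φ s) x
  lip2 : ∀ t s, WR ρ 4 (M * |t - s|) fun x => deriv (deriv (φ t)) x - deriv (deriv (φ s)) x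
  eqφ : ∀ t ∈ Ioo 0 T, ∀ x, HasDerivAt (fun s => φ s x) (pt φ γ t x) t
  eqγ : ∀ t ∈ Ioo 0 T, ∀ x, HasDerivAt (fun s => γ s x) (-deriv (fl φ γ t) x) t

/-! ### The iteration in the moving frame `y = η + φ(t, x)`; functions of `t η x` -/

/-- Conjugate velocity `u₁ - i u₂` induced by the vorticity `Ω`. -/
noncomputable def wt (φ : ℝ → ℝ → ℝ) (Ω : ℝ → ℝ → ℝ → ℝ) (s η x : ℝ) : ℂ :=
  ∫ η', bs (φ s) (η - η') (Ω s η') x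

/-- Relative normal velocity attached to a conjugate velocity `w` at the abscissa `x`. -/
noncomputable def vof (φ γ : ℝ → ℝ → ℝ) (s x : ℝ) (w : ℂ) : ℝ :=
  -(zp (φ s) x * w).im - pt φ γ s x

/-- Tangential velocity. -/
noncomputable def u1 (φ : ℝ → ℝ → ℝ) (Ω : ℝ → ℝ → ℝ → ℝ) (s η x : ℝ) : ℝ := (wt φ Ω s η x).re

/-- Relative normal velocity. -/
noncomputable def vv (φ γ : ℝ → ℝ → ℝ) (Ω : ℝ → ℝ → ℝ → ℝ) (s η x : ℝ) : ℝ :=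
  vof φ γ s x (wt φ Ω s η x)

/-- The transport term; `Θ` is the `η`-derivative of `Ω`. -/
noncomputable def FF (φ γ : ℝ → ℝ → ℝ) (Ω Θ : ℝ → ℝ → ℝ → ℝ) (s η x : ℝ) : ℝ :=
  u1 φ Ω s η x * dx (Ω s η) x + vv φ γ Ω s η x * Θ s η x

/-- Total vorticity across the layer. -/
noncomputable def SS (Ω : ℝ → ℝ → ℝ → ℝ) (s x : ℝ) : ℝ := ∫ η, Ω s η x

/-- Total flux across the layer. -/
noncomputable def QQ (φ : ℝ → ℝ → ℝ) (Ω : ℝ → ℝ → ℝ → ℝ) (s x : ℝ) : ℝ :=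
  ∫ η, u1 φ Ω s η x * Ω s η x

/-- The small part of the velocity. -/
noncomputable def ZZ (φ : ℝ → ℝ → ℝ) (Ω : ℝ → ℝ → ℝ → ℝ) (s η x : ℝ) : ℂ :=
  ∫ η', wtil (φ s) (η - η') (Ω s η') x

/-- Diffusion time of the kernel. -/
def aa (ν κ t s : ℝ) : ℝ := ν * (t - s) + κ

/-- The remainder kernel (`j = 0`) and its `σ`-derivative (`j = 1`). -/
noncomputable def Rk (φ : ℝ → ℝ → ℝ) (ν : ℝ) (j : ℕ) (a t s x r σ : ℝ) : ℝ :=
  ν * (-2 * (deriv (φ t) (x + r) - deriv (φ s) (x + r)) * (-r / (2 * a)) *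
        Gd (j + 1) a r (σ - ch (φ t) x r)
      + (deriv (φ t) (x + r) - deriv (φ s) (x + r)) ^ 2 * Gd (j + 2) a r (σ - ch (φ t) x r)
      - (deriv (deriv (φ t)) (x + r) - deriv (deriv (φ s)) (x + r)) *
        Gd (j + 1) a r (σ - ch (φ t) x r))

/-- Integrand of the Duhamel term; `p = (r, η')`. -/
noncomputable def nI (φ γ : ℝ → ℝ → ℝ) (ν : ℝ) (Ω Θ : ℝ → ℝ → ℝ → ℝ) (j : ℕ) (κ t s η x : ℝ)
    (p : ℝ × ℝ) : ℝ :=
  -Gd j (aa ν κ t s) p.1 (η - p.2 - ch (φ t) x p.1) * FF φ γ Ω Θ s p.2 (x + p.1)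
    + Rk φ ν j (aa ν κ t s) t s x p.1 (η - p.2) * Ω s p.2 (x + p.1)

/-- The Duhamel term at the time `s`. -/
noncomputable def Nk (φ γ : ℝ → ℝ → ℝ) (ν : ℝ) (Ω Θ : ℝ → ℝ → ℝ → ℝ) (j : ℕ)
    (κ t s η x : ℝ) : ℝ :=
  ∫ p : ℝ × ℝ, nI φ γ ν Ω Θ j κ t s η x p

/-- The term coming from the initial measure. -/
noncomputable def Ak (φ γ : ℝ → ℝ → ℝ) (ν : ℝ) (j : ℕ) (κ t η x : ℝ) : ℝ :=
  ∫ r, Gd j (ν * t + κ) r (η - ch (φ t) x r) * γ 0 (x + r)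

/-- The next iterate (`j = 0`, `κ = 0`), its `η`-derivative (`j = 1`) and regularisations. -/
noncomputable def Om (φ γ : ℝ → ℝ → ℝ) (ν : ℝ) (Ω Θ : ℝ → ℝ → ℝ → ℝ) (j : ℕ)
    (κ t η x : ℝ) : ℝ :=
  Ak φ γ ν j κ t η x + ∫ s in Ioo 0 t, Nk φ γ ν Ω Θ j κ t s η x

/-- The first iterate. -/
noncomputable def Om0 (γ : ℝ → ℝ → ℝ) (L ν : ℝ) (t η x : ℝ) : ℝ :=
  √(cg L / π) * gs (cg L) (ν * t) η * γ t x

/-- The `η`-derivative of the first iterate. -/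
noncomputable def Th0 (γ : ℝ → ℝ → ℝ) (L ν : ℝ) (t η x : ℝ) : ℝ :=
  -(2 * cg L * η / (ν * t)) * Om0 γ L ν t η x

/-- Admissible parameters. -/
structure Par (ρ L T β T' ν : ℝ) : Prop where
  T'_pos : 0 < T'
  T'_le_one : T' ≤ 1
  T'_lt : T' < T
  β_pos : 0 < β
  rad : β * T' ≤ ρ / 2
  gau : β * T' ≤ cg L / 4
  ν_pos : 0 < ν
  ν_le : ν ≤ 1

/-- Gaussian exponent at time `t`. -/
noncomputable def mm (L β t : ℝ) : ℝ := cg L / 2 - β * t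

/-- The invariant of the iteration. -/
structure Inv (ρ L β T' ν M : ℝ) (γ : ℝ → ℝ → ℝ) (Ω Θ : ℝ → ℝ → ℝ → ℝ) : Prop where
  measΩ : Measurable fun p : ℝ × ℝ × ℝ => Ω p.1 p.2.1 p.2.2
  measΘ : Measurable fun p : ℝ × ℝ × ℝ => Θ p.1 p.2.1 p.2.2
  w0 : ∀ t ∈ Ioc 0 T', ∀ η, WR (ρ - β * t) 3 (M * gs (mm L β t) (ν * t) η) (Ω t η)
  w1 : ∀ t ∈ Ioc 0 T', ∀ η,
    WR (ρ - β * t) 2 (M * gs (mm L β t) (ν * t) η / (√(ν * t) + |η|)) (Θ t η)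
  der : ∀ t ∈ Ioc 0 T', ∀ η x, HasDerivAt (fun η' => Ω t η' x) (Θ t η x) η
  wδ : ∀ t ∈ Ioc 0 T', WR (ρ - β * t) 2 (M * √(ν * t)) fun x => SS Ω t x - γ t x

/-- The iterates. -/
noncomputable def iter (φ γ : ℝ → ℝ → ℝ) (L ν : ℝ) :
    ℕ → (ℝ → ℝ → ℝ → ℝ) × (ℝ → ℝ → ℝ → ℝ)
  | 0 => (Om0 γ L ν, Th0 γ L ν)
  | n + 1 => (Om φ γ ν (iter φ γ L ν n).1 (iter φ γ L ν n).2 0 0,
      Om φ γ ν (iter φ γ L ν n).1 (iter φ γ L ν n).2 1 0)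

/-! ### Comparison with the true solution -/

/-- Kernel of the weak form of the Duhamel term for the conjugate velocity value `w`. -/
noncomputable def Kw (φ γ : ℝ → ℝ → ℝ) (ν κ t s η x : ℝ) (p : ℝ × ℝ) (w : ℂ) : ℝ :=
  w.re * (-p.1 / (2 * aa ν κ t s) * Gd 0 (aa ν κ t s) p.1 (η - p.2 - ch (φ t) x p.1)
      - deriv (φ t) (x + p.1) * Gd 1 (aa ν κ t s) p.1 (η - p.2 - ch (φ t) x p.1))
    - vof φ γ s (x + p.1) w * Gd 1 (aa ν κ t s) p.1 (η - p.2 - ch (φ t) x p.1)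
    + Rk φ ν 0 (aa ν κ t s) t s x p.1 (η - p.2)

/-- The period centred at zero. -/
def cyl0 : Set (ℝ × ℝ) := Ioc (-π) π ×ˢ univ

/-- Gaussian smoothing at scale `κ` in the physical variables, written in the moving frame. -/
noncomputable def smo (φ : ℝ → ℝ) (κ : ℝ) (f : ℝ → ℝ → ℝ) (η x : ℝ) : ℝ :=
  ∫ p : ℝ × ℝ, G κ p.1 (η - p.2 - ch φ x p.1) * f p.2 (x + p.1)

/-- What is used about the true solution `V` and its conjugate velocity `w`, in the moving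
frame. -/
structure TrueSol (T' ν : ℝ) (φ γ : ℝ → ℝ → ℝ) (V : ℝ → ℝ → ℝ → ℝ) (w : ℝ → ℝ → ℝ → ℂ) :
    Prop where
  meas : Measurable fun p : ℝ × ℝ × ℝ => V p.1 p.2.1 p.2.2
  per : ∀ s η, Function.Periodic (V s η) (2 * π)
  l1 : ∃ A : ℝ, ∀ s ∈ Ioc 0 T', ∫⁻ p in cyl, ‖V s p.2 p.1‖ₑ ≤ ENNReal.ofReal A
  vel : ∀ ε > 0, ∃ D : ℝ, 0 ≤ D ∧ ∀ s ∈ Ioc 0 T', ∀ η x, ‖w s η x‖ ≤ ε / √s + D
  biot : ∀ s ∈ Ioc 0 T', ∀ η x,
    IntegrableOn (fun p : ℝ × ℝ =>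
      kc (sarg p.1 (η - p.2) (ch (φ s) x p.1)) * (V s p.2 (x + p.1) : ℂ)) cyl0 ∧
    w s η x = ∫ p in cyl0, kc (sarg p.1 (η - p.2) (ch (φ s) x p.1)) * (V s p.2 (x + p.1) : ℂ)
  int_p : ∀ κ > 0, ∀ t ∈ Ioc 0 T', ∀ η x, ∀ s ∈ Ioo 0 t,
    Integrable fun p : ℝ × ℝ => V s p.2 (x + p.1) * Kw φ γ ν κ t s η x p (w s p.2 (x + p.1))
  int_s : ∀ κ > 0, ∀ t ∈ Ioc 0 T', ∀ η x,
    IntegrableOn (fun s => ∫ p : ℝ × ℝ,
      V s p.2 (x + p.1) * Kw φ γ ν κ t s η x p (w s p.2 (x + p.1))) (Ioo 0 t)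
  ident : ∀ κ > 0, ∀ t ∈ Ioc 0 T', ∀ η x,
    smo (φ t) κ (V t) η x = Ak φ γ ν 0 κ t η x + ∫ s in Ioo 0 t, ∫ p : ℝ × ℝ,
      V s p.2 (x + p.1) * Kw φ γ ν κ t s η x p (w s p.2 (x + p.1))
  lim : ∀ t ∈ Ioc 0 T', ∀ η x,
    Tendsto (fun κ => smo (φ t) κ (V t) η x) (𝓝[>] 0) (𝓝 (V t η x))

/-- The `L¹` distance on the cylinder at time `s`. -/
noncomputable def err (V Ω : ℝ → ℝ → ℝ → ℝ) (s : ℝ) : ℝ≥0∞ :=
  ∫⁻ p in cyl, ‖V s p.2 p.1 - Ω s p.2 p.1‖ₑ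

/-- Majorant of the velocity induced by the density `d` (a function of `η x`). -/
noncomputable def Dw (φ : ℝ → ℝ) (d : ℝ → ℝ → ℝ) (η x : ℝ) : ℝ≥0∞ :=
  ∫⁻ p in cyl0, ‖kc (sarg p.1 (η - p.2) (ch φ x p.1))‖ₑ * ‖d p.2 (x + p.1)‖ₑ

/-- Test functions of `s x y` on `[0, t] × ℝ²` with Gaussian decay in `x`, with their partial
derivatives. -/
structure TestFn (t K c x₀ : ℝ) (θ θs θx θy θxx θyy : ℝ → ℝ → ℝ → ℝ) : Prop where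
  c_pos : 0 < c
  cont : ContinuousOn (fun p : ℝ × ℝ × ℝ => θ p.1 p.2.1 p.2.2) (Icc 0 t ×ˢ univ)
  ds : ∀ s ∈ Ioo 0 t, ∀ x y, HasDerivAt (fun s' => θ s' x y) (θs s x y) s
  dx : ∀ s ∈ Ioo 0 t, ∀ x y, HasDerivAt (fun x' => θ s x' y) (θx s x y) x
  dy : ∀ s ∈ Ioo 0 t, ∀ x y, HasDerivAt (fun y' => θ s x y') (θy s x y) y
  dxx : ∀ s ∈ Ioo 0 t, ∀ x y, HasDerivAt (fun x' => θx s x' y) (θxx s x y) x
  dyy : ∀ s ∈ Ioo 0 t, ∀ x y, HasDerivAt (fun y' => θy s x y') (θyy s x y) y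
  ms : ∀ s ∈ Ioo 0 t, Measurable fun p : ℝ × ℝ => θs s p.1 p.2
  mx : ∀ s ∈ Ioo 0 t, Measurable fun p : ℝ × ℝ => θx s p.1 p.2
  my : ∀ s ∈ Ioo 0 t, Measurable fun p : ℝ × ℝ => θy s p.1 p.2
  mxx : ∀ s ∈ Ioo 0 t, Measurable fun p : ℝ × ℝ => θxx s p.1 p.2
  myy : ∀ s ∈ Ioo 0 t, Measurable fun p : ℝ × ℝ => θyy s p.1 p.2
  b0 : ∀ s ∈ Icc 0 t, ∀ x y, |θ s x y| ≤ K * Real.exp (-(c * (x - x₀) ^ 2))
  b1 : ∀ s ∈ Ioo 0 t, ∀ x y,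
    |θs s x y| ≤ K * Real.exp (-(c * (x - x₀) ^ 2)) ∧
    |θx s x y| ≤ K * Real.exp (-(c * (x - x₀) ^ 2)) ∧
    |θy s x y| ≤ K * Real.exp (-(c * (x - x₀) ^ 2)) ∧
    |θxx s x y| ≤ K * Real.exp (-(c * (x - x₀) ^ 2)) ∧
    |θyy s x y| ≤ K * Real.exp (-(c * (x - x₀) ^ 2))

/-- Integrand of the weak formulation at time `s`; `p = (x, y)`. -/
noncomputable def wI (ν : ℝ) (ω u v θs θx θy θxx θyy : ℝ → ℝ → ℝ → ℝ) (s : ℝ) (p : ℝ × ℝ) : ℝ :=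
  ω s p.1 p.2 * (θs s p.1 p.2 + u s p.1 p.2 * θx s p.1 p.2 + v s p.1 p.2 * θy s p.1 p.2
    + ν * (θxx s p.1 p.2 + θyy s p.1 p.2))

/-- The weak formulation on `[0, t]` for one test function. -/
def WeakId (ν t : ℝ) (φ₀ γ₀ : ℝ → ℝ) (ω u v θ θs θx θy θxx θyy : ℝ → ℝ → ℝ → ℝ) : Prop :=
  (∀ s ∈ Ioo 0 t, Integrable (wI ν ω u v θs θx θy θxx θyy s)) ∧
  IntegrableOn (fun s => ∫ p, wI ν ω u v θs θx θy θxx θyy s p) (Ioo 0 t) ∧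
  ∫ p : ℝ × ℝ, θ t p.1 p.2 * ω t p.1 p.2
    = (∫ x, θ 0 x (φ₀ x) * γ₀ x) + ∫ s in Ioo 0 t, ∫ p, wI ν ω u v θs θx θy θxx θyy s p

/-- The true vorticity in the moving frame, extended by zero. -/
noncomputable def Vof (T : ℝ) (φ : ℝ → ℝ → ℝ) (ω : ℝ → ℝ → ℝ → ℝ) (s η x : ℝ) : ℝ :=
  (Ioo 0 T).indicator (fun s => ω s x (η + φ s x)) s

/-- The true conjugate velocity in the moving frame. -/
noncomputable def wof (φ : ℝ → ℝ → ℝ) (u v : ℝ → ℝ → ℝ → ℝ) (s η x : ℝ) : ℂ :=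
  (u s x (η + φ s x) : ℂ) - Complex.I * (v s x (η + φ s x) : ℂ)

end Pool.Agent.Lib.MP_3d41d4_an
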