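import Pool.Agent.Lib.MP_3d41d4_an.EReg
import Pool.Agent.Lib.MP_3d41d4_an.Cyl0

open MeasureTheory Set Filter Topology Real
open scoped ENNReal

namespace Pool.Agent.Lib.MP_3d41d4_an

theorem EBeta_exp : Integrable fun y : ℝ => Real.exp (-|y|) := by
  rw [← integrableOn_univ, ← Iic_union_Ioi (a := (0 : ℝ))]
  refine IntegrableOn.union ((integrableOn_exp_Iic 0).congr_fun (fun y hy => ?_) measurableSet_Iic)
    ((integrableOn_exp_neg_Ioi 0).congr_fun (fun y hy => ?_) measurableSet_Ioi)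
  · simp only [abs_of_nonpos (mem_Iic.1 hy), neg_neg]
  · simp only [abs_of_pos (mem_Ioi.1 hy)]

theorem EBeta_restrict : (volume : Measure (ℝ × ℝ)).restrict cyl =
    ((volume : Measure ℝ).restrict (Ioc 0 (2 * π))).prod volume := Cyl0_restrict _

theorem EBeta_int {g : ℝ × ℝ → ℝ} (hg : Continuous g) {B : ℝ}
    (hB : ∀ x y, |g (x, y)| ≤ B * Real.exp (-|y|)) : IntegrableOn g cyl := by
  unfold IntegrableOn
  rw [EBeta_restrict]
  exact ((integrable_const B).mul_prod EBeta_exp).mono' hg.aestronglyMeasurable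
    (Eventually.of_forall fun p => hB p.1 p.2)

/-- The integral over the cylinder of an `x`-derivative of a periodic function vanishes. -/
theorem cyl_dx_zero {Q Q' : ℝ → ℝ → ℝ} (hp : ∀ y, Q (2 * π) y = Q 0 y)
    (hd : ∀ x y, HasDerivAt (fun x' => Q x' y) (Q' x y) x)
    (hc : Continuous fun p : ℝ × ℝ => Q' p.1 p.2) {B : ℝ}
    (hb : ∀ x y, |Q' x y| ≤ B * Real.exp (-|y|)) :
    IntegrableOn (fun p : ℝ × ℝ => Q' p.1 p.2) cyl ∧ ∫ p in cyl, Q' p.1 p.2 = 0 := by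
  have hi := EBeta_int hc hb
  refine ⟨hi, ?_⟩
  unfold IntegrableOn at hi
  rw [EBeta_restrict] at hi ⊢
  rw [integral_prod_symm _ hi]
  refine integral_eq_zero_of_ae (Eventually.of_forall fun y => ?_)
  have h2 := intervalIntegral.integral_eq_sub_of_hasDerivAt (a := 0) (b := 2 * π)
    (fun x _ => hd x y)
    ((hc.comp (f := fun x : ℝ => (x, y)) (by fun_prop)).intervalIntegrable _ _)
  rw [intervalIntegral.integral_of_le Real.two_pi_pos.le, hp, sub_self] at h2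
  exact h2

/-- The integral over the cylinder of a `y`-derivative of a decaying function vanishes. -/
theorem cyl_dy_zero {Q Q' : ℝ → ℝ → ℝ} (hd : ∀ x y, HasDerivAt (fun y' => Q x y') (Q' x y) y)
    (hc : Continuous fun p : ℝ × ℝ => Q' p.1 p.2) {B : ℝ}
    (hb : ∀ x y, |Q x y| ≤ B * Real.exp (-|y|) ∧ |Q' x y| ≤ B * Real.exp (-|y|)) :
    IntegrableOn (fun p : ℝ × ℝ => Q' p.1 p.2) cyl ∧ ∫ p in cyl, Q' p.1 p.2 = 0 := by
  have hi := EBeta_int hc fun x y => (hb x y).2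
  refine ⟨hi, ?_⟩
  unfold IntegrableOn at hi
  rw [EBeta_restrict] at hi ⊢
  rw [integral_prod _ hi]
  refine integral_eq_zero_of_ae (Eventually.of_forall fun x => ?_)
  refine integral_eq_zero_of_hasDerivAt_of_integrable (hd x) ((EBeta_exp.const_mul B).mono'
    (hc.comp (f := fun y : ℝ => (x, y)) (by fun_prop)).aestronglyMeasurable
    (Eventually.of_forall fun y => (hb x y).2)) ((EBeta_exp.const_mul B).mono' ?_
    (Eventually.of_forall fun y => (hb x y).1))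
  exact (continuous_iff_continuousAt.2 fun y => (hd x y).continuousAt).aestronglyMeasurable

theorem integrableOn_exp_cyl : IntegrableOn (fun p : ℝ × ℝ => Real.exp (-|p.2|)) cyl := by
  exact EBeta_int (B := 1) (by fun_prop) fun x y => by
    rw [one_mul, abs_of_pos (Real.exp_pos _)]

/-- Continuous and bounded by a multiple of the weight `w`. -/
def EBeta_P (w : ℝ → ℝ) (g : ℝ → ℝ → ℝ) : Prop :=
  (Continuous fun p : ℝ × ℝ => g p.1 p.2) ∧ ∃ B, ∀ x y, |g x y| ≤ B * w y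

theorem EBeta_P.add {w : ℝ → ℝ} {g g' : ℝ → ℝ → ℝ} (h : EBeta_P w g) (h' : EBeta_P w g') :
    EBeta_P w fun x y => g x y + g' x y := by
  obtain ⟨h1, M, h2⟩ := h
  obtain ⟨h3, M', h4⟩ := h'
  exact ⟨h1.add h3, M + M', fun x y => (abs_add_le _ _).trans
    ((add_le_add (h2 x y) (h4 x y)).trans_eq (add_mul _ _ _).symm)⟩

theorem EBeta_P.sub {w : ℝ → ℝ} {g g' : ℝ → ℝ → ℝ} (h : EBeta_P w g) (h' : EBeta_P w g') :
    EBeta_P w fun x y => g x y - g' x y := by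
  obtain ⟨h1, M, h2⟩ := h
  obtain ⟨h3, M', h4⟩ := h'
  exact ⟨h1.sub h3, M + M', fun x y => (abs_sub _ _).trans
    ((add_le_add (h2 x y) (h4 x y)).trans_eq (add_mul _ _ _).symm)⟩

theorem EBeta_P.mul {w : ℝ → ℝ} {g g' : ℝ → ℝ → ℝ} (h : EBeta_P (fun _ => 1) g)
    (h' : EBeta_P w g') : EBeta_P w fun x y => g x y * g' x y := by
  obtain ⟨h1, M, h2⟩ := h
  obtain ⟨h3, M', h4⟩ := h'
  refine ⟨h1.mul h3, M * M', fun x y => ?_⟩
  have h5 := h2 x y
  rw [mul_one] at h5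
  rw [abs_mul, mul_assoc]
  exact mul_le_mul h5 (h4 x y) (abs_nonneg _) ((abs_nonneg _).trans h5)

theorem EBeta_const (c : ℝ) : EBeta_P (fun _ => 1) fun _ _ => c :=
  ⟨continuous_const, |c|, fun _ _ => (mul_one _).ge⟩

theorem EBeta_le {a B y : ℝ} (h : |a| ≤ B * Real.exp (-|y|)) : |a| ≤ |B| :=
  h.trans (((le_abs_self _).trans_eq (abs_mul _ _)).trans (mul_le_of_le_one_right (abs_nonneg _) (by
    rw [abs_of_pos (Real.exp_pos _)]
    exact Real.exp_le_one_iff.2 (neg_nonpos.2 (abs_nonneg y)))))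

theorem EBeta_P.one {g : ℝ → ℝ → ℝ} (h : EBeta_P (fun y => Real.exp (-|y|)) g) :
    EBeta_P (fun _ => 1) g := by
  obtain ⟨h1, M, h2⟩ := h
  exact ⟨h1, |M|, fun x y => (EBeta_le (h2 x y)).trans (mul_one _).ge⟩

theorem EBeta_bd {β : ℝ → ℝ} (h : Continuous β) (B : ℝ) : ∃ K, 0 ≤ K ∧ ∀ s, |s| ≤ B → |β s| ≤ K := by
  obtain ⟨K, hK⟩ := (isCompact_Icc (a := -B) (b := B)).exists_bound_of_continuousOn h.continuousOn
  exact ⟨|K|, abs_nonneg _, fun s hs => (hK s (abs_le.1 hs)).trans (le_abs_self K)⟩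

theorem EBeta_P.comp {g : ℝ → ℝ → ℝ} (h : EBeta_P (fun y => Real.exp (-|y|)) g) {β : ℝ → ℝ}
    (hβ : Continuous β) : EBeta_P (fun _ => 1) fun x y => β (g x y) := by
  obtain ⟨h1, M, h2⟩ := h
  obtain ⟨K, -, hK⟩ := EBeta_bd hβ |M|
  exact ⟨hβ.comp h1, K, fun x y => (hK _ (EBeta_le (h2 x y))).trans (mul_one _).ge⟩

theorem EBeta_P.comp0 {g : ℝ → ℝ → ℝ} (h : EBeta_P (fun y => Real.exp (-|y|)) g) {β β₁ : ℝ → ℝ}
    (d₀ : ∀ s, HasDerivAt β (β₁ s) s) (c₁ : Continuous β₁) (z₀ : β 0 = 0) :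
    EBeta_P (fun y => Real.exp (-|y|)) fun x y => β (g x y) := by
  obtain ⟨h1, M, h2⟩ := h
  obtain ⟨K, K0, hK⟩ := EBeta_bd c₁ |M|
  refine ⟨(continuous_iff_continuousAt.2 fun s => (d₀ s).continuousAt).comp h1, K * M,
    fun x y => ?_⟩
  have := (convex_Icc (-|M|) |M|).norm_image_sub_le_of_norm_hasDerivWithin_le
    (fun s _ => (d₀ s).hasDerivWithinAt) (fun s hs => hK s (abs_le.2 hs))
    (abs_le.1 (abs_zero.trans_le (abs_nonneg M))) (abs_le.1 (EBeta_le (h2 x y)))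
  rw [z₀, sub_zero, sub_zero] at this
  rw [mul_assoc]
  exact this.trans (mul_le_mul_of_nonneg_left (h2 x y) K0)

theorem EBeta_cont {κ B t : ℝ} {I : Set ℝ} {f : ℝ → ℝ → ℝ → ℝ} (h : Sm0 κ I B f) (ht : t ∈ I) :
    Continuous fun p : ℝ × ℝ => f t p.1 p.2 :=
  h.cont.comp_continuous (f := fun p : ℝ × ℝ => (t, p)) (by fun_prop) fun _ => ⟨ht, trivial⟩

theorem EBeta_one {B t : ℝ} {I : Set ℝ} {f : ℝ → ℝ → ℝ → ℝ} (h : Sm0 1 I B f) (ht : t ∈ I) :
    EBeta_P (fun y => Real.exp (-|y|)) (f t) :=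
  ⟨EBeta_cont h ht, B, fun x y => by simpa only [one_mul] using h.bd t ht x y⟩

theorem EBeta_zero {B t : ℝ} {I : Set ℝ} {f : ℝ → ℝ → ℝ → ℝ} (h : Sm0 0 I B f) (ht : t ∈ I) :
    EBeta_P (fun _ => 1) (f t) :=
  ⟨EBeta_cont h ht, B, fun x y => by simpa using h.bd t ht x y⟩

theorem EBeta_slice {ν B t : ℝ} {I : Set ℝ} {ω u v : ℝ → ℝ → ℝ → ℝ} (hν : 0 ≤ ν) (ht : t ∈ I)
    (sω : Sm 1 I B 3 ω) (su : Sm 0 I B 2 u) (sv : Sm 0 I B 2 v)
    (pde : ∀ x y, dT ω t x y + u t x y * dX ω t x y + v t x y * dY ω t x y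
      = ν * (dX (dX ω) t x y + dY (dY ω) t x y)) (div : ∀ x y, dX u t x y + dY v t x y = 0)
    (pω : ∀ x y, ω t (x + 2 * π) y = ω t x y) (pu : ∀ x y, u t (x + 2 * π) y = u t x y)
    {β β₁ β₂ : ℝ → ℝ} (d₀ : ∀ s, HasDerivAt β (β₁ s) s) (d₁ : ∀ s, HasDerivAt β₁ (β₂ s) s)
    (c₂ : Continuous β₂) (n₂ : ∀ s, 0 ≤ β₂ s) (z₀ : β 0 = 0) :
    ∫ p in cyl, β₁ (ω t p.1 p.2) * dT ω t p.1 p.2 ≤ 0 := by
  obtain ⟨s0, df, sT, ⟨sX, dfx, -, sXX, -⟩, ⟨sY, dfy, -, -, sYY⟩⟩ := sω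
  obtain ⟨u0, du, -, uX, -⟩ := su
  obtain ⟨v0, dv, -, -, vY⟩ := sv
  have c₁ : Continuous β₁ := continuous_iff_continuousAt.2 fun s => (d₁ s).continuousAt
  have w := EBeta_one s0 ht
  have b0 := w.comp0 d₀ c₁ z₀
  have b1 := w.comp c₁
  have b2 := w.comp c₂
  have wx := EBeta_one sX ht
  have wy := EBeta_one sY ht
  obtain ⟨k1, B1, k2⟩ := ((EBeta_const ν).mul (((b2.mul wx.one).mul wx).add
    (b1.mul (EBeta_one sXX.sm0 ht)))).sub
    (((EBeta_zero u0 ht).mul (b1.mul wx)).add ((EBeta_zero uX.sm0 ht).mul b0))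
  obtain ⟨k3, B2, k4⟩ := ((EBeta_const ν).mul (((b2.mul wy.one).mul wy).add
    (b1.mul (EBeta_one sYY.sm0 ht)))).sub
    (((EBeta_zero v0 ht).mul (b1.mul wy)).add ((EBeta_zero vY.sm0 ht).mul b0))
  obtain ⟨-, B3, k5⟩ := ((EBeta_const ν).mul (b1.mul wy)).sub ((EBeta_zero v0 ht).mul b0)
  obtain ⟨k6, B4, k7⟩ := b1.mul (EBeta_one sT.sm0 ht)
  have px : ∀ y, dX ω t (2 * π) y = dX ω t 0 y := fun y => by
    have h1 := (df.dx t ht (0 + 2 * π) y).comp_add_const 0 (2 * π)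
    simp only [pω, zero_add] at h1
    exact h1.unique (df.dx t ht 0 y)
  have hx := cyl_dx_zero
    (Q := fun x y => ν * (β₁ (ω t x y) * dX ω t x y) - u t x y * β (ω t x y))
    (fun y => by rw [px, ← pω 0, ← pu 0, zero_add]) (fun x y => ?_) k1 k2
  · have hy := cyl_dy_zero (B := max B3 B2)
      (Q := fun x y => ν * (β₁ (ω t x y) * dY ω t x y) - v t x y * β (ω t x y))
      (fun x y => ?_) k3 fun x y => ⟨(k5 x y).trans (by gcongr; exact le_max_left _ _),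
        (k4 x y).trans (by gcongr; exact le_max_right _ _)⟩
    · refine (integral_mono (EBeta_int k6 k7) (hx.1.add hy.1) fun p => ?_).trans_eq ?_
      · have e1 := pde p.1 p.2
        have e2 := div p.1 p.2
        have e3 := mul_nonneg hν (mul_nonneg (n₂ (ω t p.1 p.2))
          (add_nonneg (mul_self_nonneg (dX ω t p.1 p.2)) (mul_self_nonneg (dY ω t p.1 p.2))))
        simp only [Pi.add_apply]
        linear_combination e3 + β₁ (ω t p.1 p.2) * e1 + β (ω t p.1 p.2) * e2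
      · rw [Pi.add_def, integral_add hx.1 hy.1, hx.2, hy.2, add_zero]
    · exact ((((((d₁ _).comp y (df.dy t ht x y)).mul (dfy.dy t ht x y)).const_mul ν).sub
        ((dv.dy t ht x y).mul ((d₀ _).comp y (df.dy t ht x y))))).congr_deriv (by
          simp only [Function.comp]; ring)
  · exact ((((((d₁ _).comp x (df.dx t ht x y)).mul (dfx.dx t ht x y)).const_mul ν).sub
      ((du.dx t ht x y).mul ((d₀ _).comp x (df.dx t ht x y))))).congr_deriv (by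
        simp only [Function.comp]; ring)

/-- Convex functionals decrease. Sketch: at each `t₁`, on the interval of `Cl.loc`, `|ω| ≤ B`, so
`|β₁ ω|, |β₂ ω| ≤ K`, `|β ω| ≤ K |ω|`; differentiate under the integral sign:
the derivative is `∫ β₁(ω) ωₜ = ∫ (∂ₓ Q₁ + ∂_y Q₂) - ν ∫ β₂(ω) |∇ω|² ≤ 0` with
`Q₁ = ν β₁(ω) ωₓ - β(ω) u`, `Q₂ = ν β₁(ω) ω_y - β(ω) v` (`dX ω t` is periodic by
`deriv_comp_add_const`); `antitoneOn_of_deriv_nonpos`. -/
theorem beta_antitone {ν T : ℝ} {ω u v : ℝ → ℝ → ℝ → ℝ} (hν : 0 ≤ ν) (hc : Cl T ω u v)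
    (hp : Pde ν T ω u v) (pω : ∀ t ∈ Ioo 0 T, ∀ x y, ω t (x + 2 * π) y = ω t x y)
    (pu : ∀ t ∈ Ioo 0 T, ∀ x y, u t (x + 2 * π) y = u t x y) {β β₁ β₂ : ℝ → ℝ}
    (d₀ : ∀ s, HasDerivAt β (β₁ s) s) (d₁ : ∀ s, HasDerivAt β₁ (β₂ s) s) (c₂ : Continuous β₂)
    (n₂ : ∀ s, 0 ≤ β₂ s) (z₀ : β 0 = 0) :
    (∀ t ∈ Ioo 0 T, IntegrableOn (fun p : ℝ × ℝ => β (ω t p.1 p.2)) cyl) ∧
      AntitoneOn (fun t => ∫ p in cyl, β (ω t p.1 p.2)) (Ioo 0 T) := by
  have c₁ : Continuous β₁ := continuous_iff_continuousAt.2 fun s => (d₁ s).continuousAt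
  have key : ∀ t ∈ Ioo 0 T, IntegrableOn (fun p : ℝ × ℝ => β (ω t p.1 p.2)) cyl ∧
      ∃ D ≤ 0, HasDerivAt (fun t => ∫ p in cyl, β (ω t p.1 p.2)) D t := by
    intro t ht
    obtain ⟨r, B, hr, hB, -, sω, su, sv⟩ := hc.loc t ht
    have hI : t ∈ Ioo (t - r) (t + r) := ⟨by linarith, by linarith⟩
    have hi : ∀ s ∈ Ioo (t - r) (t + r), IntegrableOn (fun p : ℝ × ℝ => β (ω s p.1 p.2)) cyl :=
      fun s hs => by
        obtain ⟨k1, B1, k2⟩ := (EBeta_one sω.sm0 hs).comp0 d₀ c₁ z₀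
        exact EBeta_int k1 k2
    refine ⟨hi t hI, _, EBeta_slice hν hI sω su sv (hp.pde t ht) (hp.div t ht) (pω t ht)
      (pu t ht) d₀ d₁ c₂ n₂ z₀, ?_⟩
    obtain ⟨s0, df, sT, -, -⟩ := sω
    obtain ⟨K, K0, hK⟩ := EBeta_bd c₁ |B|
    have hn := isOpen_Ioo.mem_nhds hI
    refine (hasDerivAt_integral_of_dominated_loc_of_deriv_le hn
      (F' := fun s (p : ℝ × ℝ) => β₁ (ω s p.1 p.2) * dT ω s p.1 p.2)
      (bound := fun p => K * B * Real.exp (-|p.2|))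
      (mem_of_superset hn fun s hs => (hi s hs).aestronglyMeasurable) (hi t hI)
      (((EBeta_one s0 hI).comp c₁).mul (EBeta_one sT.sm0 hI)).1.aestronglyMeasurable
      (Eventually.of_forall fun p s hs => ?_) (integrableOn_exp_cyl.const_mul _)
      (Eventually.of_forall fun p s hs => (d₀ _).comp s (df.dt s hs p.1 p.2))).2
    have h1 := s0.bd s hs p.1 p.2
    have h2 := sT.sm0.bd s hs p.1 p.2
    rw [one_mul] at h1 h2
    rw [Real.norm_eq_abs, abs_mul, mul_assoc]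
    exact mul_le_mul (hK _ (EBeta_le h1)) h2 (abs_nonneg _) K0
  refine ⟨fun t ht => (key t ht).1, antitoneOn_of_deriv_nonpos (convex_Ioo 0 T)
    (fun t ht => ?_) (fun t ht => ?_) fun t ht => ?_⟩
  · obtain ⟨D, -, h⟩ := (key t ht).2
    exact h.continuousAt.continuousWithinAt
  · obtain ⟨D, -, h⟩ := (key t (interior_subset ht)).2
    exact h.differentiableAt.differentiableWithinAt
  · obtain ⟨D, h0, h⟩ := (key t (interior_subset ht)).2
    exact h.deriv.trans_le h0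

end Pool.Agent.Lib.MP_3d41d4_an
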