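import Pool.Agent.Lib.MP_3d41d4_an.EVel

open MeasureTheory Set Filter Topology Real
open scoped ENNReal

namespace Pool.Agent.Lib.MP_3d41d4_an

theorem EBiot_meas {Λ : Type} [MeasurableSpace Λ] {F : Λ → ℝ → ℝ → ℝ} {K : ℝ × ℝ → ℝ}
    (hK : Measurable K) (hF : Measurable fun p : Λ × ℝ × ℝ => F p.1 p.2.1 p.2.2) :
    Measurable fun p : Λ × ℝ × ℝ => ∫ w in cyl0, K w * F p.1 (p.2.1 - w.1) (p.2.2 - w.2) := by
  have h0 : Measurable fun q : (Λ × ℝ × ℝ) × (ℝ × ℝ) =>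
      ((q.1.1, q.1.2.1 - q.2.1, q.1.2.2 - q.2.2) : Λ × ℝ × ℝ) := by fun_prop
  have h : Measurable fun q : (Λ × ℝ × ℝ) × (ℝ × ℝ) =>
      K q.2 * F q.1.1 (q.1.2.1 - q.2.1) (q.1.2.2 - q.2.2) :=
    (hK.comp measurable_snd).mul (hF.comp h0)
  exact (h.stronglyMeasurable.integral_prod_right' (ν := volume.restrict cyl0)).measurable

theorem EBiot_refl (x y : ℝ) : Measurable fun w : ℝ × ℝ => ((x - w.1, y - w.2) : ℝ × ℝ) := by
  fun_prop

theorem U_meas {Λ : Type} [MeasurableSpace Λ] {F : Λ → ℝ → ℝ → ℝ}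
    (hF : Measurable fun p : Λ × ℝ × ℝ => F p.1 p.2.1 p.2.2) :
    Measurable (fun p : Λ × ℝ × ℝ => U1 (F p.1) p.2.1 p.2.2) ∧
    Measurable (fun p : Λ × ℝ × ℝ => U2 (F p.1) p.2.1 p.2.2) := by
  exact ⟨EBiot_meas K1_meas hF, EBiot_meas K2_meas hF⟩

theorem U_meas2 {f : ℝ → ℝ → ℝ} (hf : Measurable fun p : ℝ × ℝ => f p.1 p.2) :
    Measurable (fun p : ℝ × ℝ => U1 f p.1 p.2) ∧ Measurable (fun p : ℝ × ℝ => U2 f p.1 p.2) := by
  have h := U_meas (Λ := Unit) (F := fun _ => f) (hf.comp measurable_snd)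
  have h0 : Measurable fun p : ℝ × ℝ => (((), p) : Unit × ℝ × ℝ) := by fun_prop
  exact ⟨h.1.comp h0, h.2.comp h0⟩

theorem U_per {f : ℝ → ℝ → ℝ} (hp : ∀ x y, f (x + 2 * π) y = f x y) (x y : ℝ) :
    U1 f (x + 2 * π) y = U1 f x y ∧ U2 f (x + 2 * π) y = U2 f x y := by
  have e : ∀ a b, f (x + 2 * π - a) b = f (x - a) b := fun a b => by
    rw [show x + 2 * π - a = x - a + 2 * π by ring, hp]
  simp only [U1, U2, e, and_self]

/-- `K_dom_real` and `Kn_gm`. -/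
theorem U_gm : ∃ C : ℝ, 0 < C ∧ ∀ φ : ℝ → ℝ, Continuous φ → ∀ c A : ℝ, 0 < c → 0 ≤ A →
    ∀ f : ℝ → ℝ → ℝ, (Measurable fun p : ℝ × ℝ => f p.1 p.2) →
      (∀ x y, |f x y| ≤ A * gm φ c x y) → ∀ x y,
        |U1 f x y| ≤ C * A * (1 + 1 / √(√c)) ∧ |U2 f x y| ≤ C * A * (1 + 1 / √(√c)) := by
  obtain ⟨C, hC, h⟩ := Kn_gm
  refine ⟨C, hC, fun φ hφ c A hc hA f hf hb x y => ?_⟩
  obtain ⟨h1, h2⟩ := h φ hφ c hc x y
  have e : (fun w : ℝ × ℝ => Kn w * (A * gm φ c (x - w.1) (y - w.2))) =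
      fun w : ℝ × ℝ => A * (Kn w * gm φ c (x - w.1) (y - w.2)) := by
    funext w
    ring
  have h3 : IntegrableOn (fun w : ℝ × ℝ => Kn w * (A * gm φ c (x - w.1) (y - w.2))) cyl0 := by
    rw [e]
    exact h1.const_mul A
  have h4 : ∫ w in cyl0, Kn w * (A * gm φ c (x - w.1) (y - w.2)) ≤ C * A * (1 + 1 / √(√c)) := by
    rw [e, integral_const_mul, mul_comm C A, mul_assoc]
    exact mul_le_mul_of_nonneg_left h2 hA
  obtain ⟨-, -, h5, h6⟩ := K_dom_real (F := fun w : ℝ × ℝ => f (x - w.1) (y - w.2))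
    (hf.comp (EBiot_refl x y)).aestronglyMeasurable h3 fun w => hb _ _
  exact ⟨h5.trans h4, h6.trans h4⟩

theorem U_sub_gm {φ : ℝ → ℝ} (hφ : Continuous φ) {c A A' : ℝ} (hc : 0 < c) {f g : ℝ → ℝ → ℝ}
    (hf : Measurable fun p : ℝ × ℝ => f p.1 p.2) (hg : Measurable fun p : ℝ × ℝ => g p.1 p.2)
    (hA : ∀ x y, |f x y| ≤ A * gm φ c x y) (hA' : ∀ x y, |g x y| ≤ A' * gm φ c x y) (x y : ℝ) :
    U1 (fun x' y' => f x' y' - g x' y') x y = U1 f x y - U1 g x y ∧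
    U2 (fun x' y' => f x' y' - g x' y') x y = U2 f x y - U2 g x y := by
  obtain ⟨C, -, h⟩ := Kn_gm
  obtain ⟨h1, -⟩ := h φ hφ c hc x y
  have h3 : ∀ B : ℝ,
      IntegrableOn (fun w : ℝ × ℝ => Kn w * (B * gm φ c (x - w.1) (y - w.2))) cyl0 := fun B => by
    have e : (fun w : ℝ × ℝ => Kn w * (B * gm φ c (x - w.1) (y - w.2))) =
        fun w : ℝ × ℝ => B * (Kn w * gm φ c (x - w.1) (y - w.2)) := by
      funext w
      ring
    rw [e]
    exact h1.const_mul B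
  obtain ⟨f1, f2, -, -⟩ := K_dom_real (F := fun w : ℝ × ℝ => f (x - w.1) (y - w.2))
    (hf.comp (EBiot_refl x y)).aestronglyMeasurable (h3 A) fun w => hA _ _
  obtain ⟨g1, g2, -, -⟩ := K_dom_real (F := fun w : ℝ × ℝ => g (x - w.1) (y - w.2))
    (hg.comp (EBiot_refl x y)).aestronglyMeasurable (h3 A') fun w => hA' _ _
  simp only [U1, U2, mul_sub]
  exact ⟨integral_sub f1 g1, integral_sub f2 g2⟩

/-- Moving a period and reflecting: for periodic `h`,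
`∫ over cyl0 of h (x - w₁, y - w₂) = ∫ over cyl of h`. Sketch: `lintegral_cyl0`, invariance of
the measure under `(a, b) ↦ (-a, y - b)`, and `Ioc` versus `Ico` differ by a null set. -/
theorem lintegral_cyl0_refl {h : ℝ × ℝ → ℝ≥0∞} (hm : Measurable h)
    (hp : ∀ x y, h (x + 2 * π, y) = h (x, y)) (x y : ℝ) :
    ∫⁻ w in cyl0, h (x - w.1, y - w.2) = ∫⁻ p in cyl, h p := by
  have hm2 : Measurable fun w : ℝ × ℝ => h (x - w.1, y - w.2) := hm.comp (EBiot_refl x y)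
  unfold cyl0 cyl
  rw [Cyl0_restrict, Cyl0_restrict, lintegral_prod _ hm2.aemeasurable,
    lintegral_prod _ hm.aemeasurable]
  have h1 : ∀ a : ℝ, ∫⁻ b, h (x - a, y - b) = ∫⁻ b, h (x - a, b) := fun a =>
    lintegral_sub_left_eq_self (fun b => h (x - a, b)) y
  simp only [h1]
  have hg : Function.Periodic (fun r => ∫⁻ b, h (r, b)) (2 * π) := fun r => by simp only [hp]
  have e : Ioc (-π) π = (fun r => x - r) ⁻¹' Ico (x - π) (x - π + 2 * π) := by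
    ext r
    simp only [mem_Ioc, mem_Ico, mem_preimage]
    constructor <;> rintro ⟨h1, h2⟩ <;> constructor <;> linarith
  have h2 := (Measure.measurePreserving_sub_left volume x).setLIntegral_comp_preimage_emb
    (measurableEmbedding_subLeft x) (fun r => ∫⁻ b, h (r, b)) (Ico (x - π) (x - π + 2 * π))
  have h3 := Cyl0_period hg (x - π) 0
  rw [zero_add] at h3
  rw [e, h2, setLIntegral_congr Ico_ae_eq_Ioc, h3]

theorem integral_cyl0_refl {h : ℝ × ℝ → ℝ} (hm : Measurable h)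
    (hp : ∀ x y, h (x + 2 * π, y) = h (x, y)) (x y : ℝ) :
    (IntegrableOn (fun w : ℝ × ℝ => h (x - w.1, y - w.2)) cyl0 ↔ IntegrableOn h cyl) ∧
    ∫ w in cyl0, h (x - w.1, y - w.2) = ∫ p in cyl, h p := by
  have hm2 : Measurable fun w : ℝ × ℝ => h (x - w.1, y - w.2) := hm.comp (EBiot_refl x y)
  have h1 := lintegral_cyl0_refl (h := fun p => ‖h p‖ₑ) hm.enorm
    (fun a b => by simp only [hp]) x y
  have hi : IntegrableOn (fun w : ℝ × ℝ => h (x - w.1, y - w.2)) cyl0 ↔ IntegrableOn h cyl := by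
    constructor
    · intro H
      refine ⟨hm.aestronglyMeasurable, ?_⟩
      have h2 := H.2
      unfold HasFiniteIntegral at h2 ⊢
      rw [← h1]
      exact h2
    · intro H
      refine ⟨hm2.aestronglyMeasurable, ?_⟩
      have h2 := H.2
      unfold HasFiniteIntegral at h2 ⊢
      rw [h1]
      exact h2
  refine ⟨hi, ?_⟩
  by_cases H : IntegrableOn h cyl
  · have h2 := lintegral_cyl0_refl (h := fun p => ENNReal.ofReal (h p)) hm.ennreal_ofReal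
      (fun a b => by simp only [hp]) x y
    have h3 := lintegral_cyl0_refl (h := fun p => ENNReal.ofReal (-h p)) hm.neg.ennreal_ofReal
      (fun a b => by simp only [hp]) x y
    rw [integral_eq_lintegral_pos_part_sub_lintegral_neg_part (hi.2 H),
      integral_eq_lintegral_pos_part_sub_lintegral_neg_part H, h2, h3]
  · rw [integral_undef H, integral_undef (fun H' => H (hi.1 H'))]

/-- The Biot-Savart law in the form of `IsNS`, and the `L¹ ∩ L^∞` bound (`Kn_int`, `ρ = 1`). -/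
theorem U_biot : ∃ C : ℝ, 0 < C ∧ ∀ (f : ℝ → ℝ → ℝ) (A B : ℝ),
    (Measurable fun p : ℝ × ℝ => f p.1 p.2) → (∀ x y, f (x + 2 * π) y = f x y) →
    (∀ x y, |f x y| ≤ B) → IntegrableOn (fun p : ℝ × ℝ => f p.1 p.2) cyl →
    ∫ p in cyl, |f p.1 p.2| ≤ A → ∀ x y,
      IntegrableOn (fun p : ℝ × ℝ => K1 (x - p.1) (y - p.2) * f p.1 p.2) cyl ∧
      IntegrableOn (fun p : ℝ × ℝ => K2 (x - p.1) (y - p.2) * f p.1 p.2) cyl ∧
      U1 f x y = ∫ p in cyl, K1 (x - p.1) (y - p.2) * f p.1 p.2 ∧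
      U2 f x y = ∫ p in cyl, K2 (x - p.1) (y - p.2) * f p.1 p.2 ∧
      |U1 f x y| ≤ C * (A + B) ∧ |U2 f x y| ≤ C * (A + B) := by
  obtain ⟨C, hC, h⟩ := Kn_int
  refine ⟨C, hC, fun f A B hf hp hB hi hA x y => ?_⟩
  obtain ⟨a1, a2⟩ := integral_cyl0_refl (h := fun p : ℝ × ℝ => |f p.1 p.2|) hf.abs
    (fun a b => by simp only [hp]) x y
  obtain ⟨h1, h2⟩ := h (fun w : ℝ × ℝ => |f (x - w.1) (y - w.2)|) A B 1 (a1.2 hi.abs)
    (fun w => abs_nonneg _) (fun w => hB _ _) (a2.le.trans hA) one_pos le_rfl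
  rw [div_one, one_mul] at h2
  obtain ⟨b1, b2, b3, b4⟩ := K_dom_real (F := fun w : ℝ × ℝ => f (x - w.1) (y - w.2))
    (hf.comp (EBiot_refl x y)).aestronglyMeasurable h1 fun w => le_rfl
  have hK : ∀ a b, K1 (x - (a + 2 * π)) b = K1 (x - a) b ∧
      K2 (x - (a + 2 * π)) b = K2 (x - a) b := fun a b => by
    have := K_per (x - (a + 2 * π)) b
    rw [show x - (a + 2 * π) + 2 * π = x - a by ring] at this
    exact ⟨this.1.symm, this.2.symm⟩
  obtain ⟨c1, c2⟩ := integral_cyl0_refl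
    (h := fun p : ℝ × ℝ => K1 (x - p.1) (y - p.2) * f p.1 p.2)
    ((K1_meas.comp (EBiot_refl x y)).mul hf) (fun a b => by simp only [hp, (hK _ _).1]) x y
  obtain ⟨d1, d2⟩ := integral_cyl0_refl
    (h := fun p : ℝ × ℝ => K2 (x - p.1) (y - p.2) * f p.1 p.2)
    ((K2_meas.comp (EBiot_refl x y)).mul hf) (fun a b => by simp only [hp, (hK _ _).2]) x y
  simp only [sub_sub_cancel] at c1 c2 d1 d2
  exact ⟨c1.1 b1, d1.1 b2, c2, d2, b3.trans h2, b4.trans h2⟩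

end Pool.Agent.Lib.MP_3d41d4_an
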