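import Pool.Agent.Lib.MP_3d41d4_an.EDuh

open MeasureTheory Set Filter Topology Real
open scoped ENNReal

namespace Pool.Agent.Lib.MP_3d41d4_an

variable {ν T N M : ℝ} {φ γ : ℝ → ℝ} {ω : ℝ → ℝ → ℝ → ℝ}

theorem EUniq_step {C K l t : ℝ} {D : ℝ → ℝ} (hK : 0 ≤ K)
    (hI : IntegrableOn (fun s => tw t s * Real.exp (l * s)) (Ioo 0 t))
    (hle : C * ∫ s in Ioo 0 t, tw t s * Real.exp (l * s) ≤ Real.exp (l * t) / 2)
    (hD : ∀ s ∈ Ioo 0 t, |D s| ≤ C * (tw t s * Real.exp (l * s)) * K) :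
    |∫ s in Ioo 0 t, D s| ≤ Real.exp (l * t) / 2 * K := by
  have h1 := norm_integral_le_of_norm_le (f := D) ((hI.const_mul C).mul_const K)
    ((ae_restrict_iff' measurableSet_Ioo).2 (Eventually.of_forall hD))
  rw [integral_mul_const, integral_const_mul] at h1
  exact h1.trans (mul_le_mul_of_nonneg_right hle hK)

theorem EUniq_lim {a b c e : ℝ} (h : ∀ n : ℕ, a ≤ (b + c * (1 / 2) ^ n) * e) : a ≤ b * e := by
  have h1 : Tendsto (fun n : ℕ => (b + c * (1 / 2 : ℝ) ^ n) * e) atTop (𝓝 ((b + c * 0) * e)) :=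
    (((tendsto_pow_atTop_nhds_zero_of_lt_one (by norm_num) (by norm_num)).const_mul c).const_add
      b).mul_const e
  rw [mul_zero, add_zero] at h1
  exact ge_of_tendsto' h1 h

/-- Uniqueness of mild solutions. Sketch: with `l` from `tw_exp`, by induction
`|ω - ω'| ≤ (N + N') 2⁻ⁿ exp (l t) gm`. -/
theorem mild_unique (hν : 0 < ν) (hφ : Continuous φ) {N' : ℝ} {ω' : ℝ → ℝ → ℝ → ℝ}
    (h : Mild ν T N φ γ ω) (h' : Mild ν T N' φ γ ω') : ∀ t ∈ Ioo 0 T, ω t = ω' t := by
  intro t ht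
  obtain ⟨C, hC, hsub⟩ := duh_sub_le hν
  obtain ⟨C', -, hint⟩ := Mild.duh_int hν
  have hN := h.nonneg
  have hN' := h'.nonneg
  obtain ⟨l, hl, hexp⟩ := tw_exp (C := C * (N + N' + 1)) (by positivity) (ht.1.trans ht.2)
  have hg : ∀ s ∈ Ioo 0 T, ∀ x y, 0 ≤ gm φ (2 * (ν * s)) x y := fun s hs x y =>
    gm_nonneg φ (by have := hs.1; positivity) x y
  have key : ∀ n : ℕ, ∀ t ∈ Ioo 0 T, ∀ x y, |ω t x y - ω' t x y| ≤
      (N + N') * (1 / 2) ^ n * Real.exp (l * t) * gm φ (2 * (ν * t)) x y := by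
    intro n
    induction n with
    | zero =>
      intro t ht x y
      have h1 := h.bd t ht x y
      have h2 := h'.bd t ht x y
      have h3 := mul_le_mul_of_nonneg_left (Real.one_le_exp (mul_nonneg hl ht.1.le))
        (mul_nonneg (add_nonneg hN hN') (hg t ht x y))
      have h4 := abs_sub (ω t x y) (ω' t x y)
      rw [pow_zero]
      linarith
    | succ n ih =>
      intro t ht x y
      have i1 := (hint hφ h 0 t le_rfl ht.1 ht.2.le x y).1
      have i2 := (hint hφ h' 0 t le_rfl ht.1 ht.2.le x y).1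
      simp only [add_zero] at i1 i2
      have hgt := hg t ht x y
      have h1 := EUniq_step (K := (N + N') * (1 / 2) ^ n * gm φ (2 * (ν * t)) x y)
        (D := fun s => duh (ν * (t - s)) (ω s) x y - duh (ν * (t - s)) (ω' s) x y)
        (by positivity) (hexp t ⟨ht.1, ht.2.le⟩).1 (hexp t ⟨ht.1, ht.2.le⟩).2 (by
          intro s hs
          have hs' : s ∈ Ioo 0 T := ⟨hs.1, hs.2.trans ht.2⟩
          have h2 := hsub φ hφ (ω s) (ω' s) (N + N') ((N + N') * (1 / 2) ^ n * Real.exp (l * s))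
            t s (h.slice s) (h'.slice s) (by positivity) (by positivity) hs.1 hs.2
            (fun x y => (h.bd s hs' x y).trans
              (mul_le_mul_of_nonneg_right (by linarith) (hg s hs' x y)))
            (fun x y => (h'.bd s hs' x y).trans
              (mul_le_mul_of_nonneg_right (by linarith) (hg s hs' x y))) (ih s hs') x y
          have h3 : 0 ≤ C * (tw t s * Real.exp (l * s)) *
              ((N + N') * (1 / 2) ^ n * gm φ (2 * (ν * t)) x y) := by
            have := tw_nonneg t s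
            positivity
          linarith)
      rw [integral_sub i1 i2] at h1
      rw [h.eq t ht x y, h'.eq t ht x y, sub_sub_sub_cancel_left, abs_sub_comm, pow_succ]
      linarith
  funext x y
  have h1 := EUniq_lim (a := |ω t x y - ω' t x y|) (b := 0) (c := N + N')
    (e := Real.exp (l * t) * gm φ (2 * (ν * t)) x y) fun n => by
      have := key n t ht x y
      linarith
  rw [zero_mul] at h1
  exact sub_eq_zero.1 (abs_nonpos_iff.1 h1)

/-- Linear Gronwall bound from a velocity bound. Sketch: with `l` from `tw_exp`, by induction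
`|ω t| ≤ (2 C M + N 2⁻ⁿ) exp (l t) gm` (`lin_bound`, `duh_le` with `κ = 0`). -/
theorem mild_gronwall (hν : 0 < ν) (M R Tb : ℝ) (hR : 0 ≤ R) : ∃ Ψ : ℝ, ∀ {T N : ℝ} {φ γ : ℝ → ℝ}
    {ω : ℝ → ℝ → ℝ → ℝ}, Dat M φ γ → T ≤ Tb → Mild ν T N φ γ ω →
      (∀ s ∈ Ioo 0 T, ∀ x y,
        |U1 (ω s) x y| ≤ R * (1 + 1 / √(√s)) ∧ |U2 (ω s) x y| ≤ R * (1 + 1 / √(√s))) →
      Mild ν T Ψ φ γ ω := by
  obtain ⟨C₁, hC₁, hlin⟩ := lin_bound
  obtain ⟨C, hC, hduh⟩ := duh_le hν
  obtain ⟨l, hl, hexp⟩ := tw_exp (C := C * (R + 1)) (T := max Tb 1) (by positivity)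
    (lt_max_of_lt_right one_pos)
  refine ⟨2 * C₁ * M * Real.exp (l * max Tb 1), fun {T N φ γ ω} hd hT h hU => ?_⟩
  have hN := h.nonneg
  have hM : 0 ≤ M := zero_le_one.trans hd.one_le
  have hg : ∀ s ∈ Ioo 0 T, ∀ x y, 0 ≤ gm φ (2 * (ν * s)) x y := fun s hs x y =>
    gm_nonneg φ (by have := hs.1; positivity) x y
  have hTb : ∀ t ∈ Ioo 0 T, t ≤ max Tb 1 := fun t ht => (ht.2.le.trans hT).trans (le_max_left _ _)
  have key : ∀ n : ℕ, ∀ t ∈ Ioo 0 T, ∀ x y, |ω t x y| ≤
      (2 * C₁ * M + N * (1 / 2) ^ n) * Real.exp (l * t) * gm φ (2 * (ν * t)) x y := by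
    intro n
    induction n with
    | zero =>
      intro t ht x y
      have h1 := h.bd t ht x y
      have hgt := hg t ht x y
      have h3 := mul_le_mul_of_nonneg_left (Real.one_le_exp (mul_nonneg hl ht.1.le))
        (mul_nonneg hN hgt)
      have h4 : 0 ≤ 2 * C₁ * M * Real.exp (l * t) * gm φ (2 * (ν * t)) x y := by positivity
      rw [pow_zero]
      linarith
    | succ n ih =>
      intro t ht x y
      have hgt := hg t ht x y
      have h1 := EUniq_step (K := (2 * C₁ * M + N * (1 / 2) ^ n) * gm φ (2 * (ν * t)) x y)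
        (D := fun s => duh (ν * (t - s)) (ω s) x y)
        (by positivity) (hexp t ⟨ht.1, hTb t ht⟩).1 (hexp t ⟨ht.1, hTb t ht⟩).2 (by
          intro s hs
          have hs' : s ∈ Ioo 0 T := ⟨hs.1, hs.2.trans ht.2⟩
          have h2 := hduh φ hd.cφ (ω s) ((2 * C₁ * M + N * (1 / 2) ^ n) * Real.exp (l * s)) R 0
            t s (h.slice s) (by positivity) hR le_rfl hs.1 hs.2 (ih s hs') (hU s hs') x y
          simp only [add_zero] at h2
          have h3 : 0 ≤ C * (tw t s * Real.exp (l * s)) *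
              ((2 * C₁ * M + N * (1 / 2) ^ n) * gm φ (2 * (ν * t)) x y) := by
            have := tw_nonneg t s
            positivity
          linarith)
      have h2 := (hlin hd (ν * t) x y (mul_pos hν ht.1)).2
      have h3 := mul_le_mul_of_nonneg_left (Real.one_le_exp (mul_nonneg hl ht.1.le))
        (mul_nonneg (mul_nonneg hC₁.le hM) hgt)
      have h4 := abs_sub (lin φ γ (ν * t) x y) (∫ s in Ioo 0 t, duh (ν * (t - s)) (ω s) x y)
      rw [h.eq t ht x y, pow_succ]
      linarith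
  refine ⟨by positivity, h.meas, h.per, fun t ht x y => ?_, h.eq⟩
  have h1 := EUniq_lim (a := |ω t x y|) (b := 2 * C₁ * M) (c := N)
    (e := Real.exp (l * t) * gm φ (2 * (ν * t)) x y) fun n => by
      have := key n t ht x y
      linarith
  have h2 := mul_le_mul_of_nonneg_left
    (Real.exp_le_exp.2 (mul_le_mul_of_nonneg_left (hTb t ht) hl))
    (mul_nonneg (mul_nonneg (mul_nonneg zero_le_two hC₁.le) hM) (hg t ht x y))
  linarith

end Pool.Agent.Lib.MP_3d41d4_an
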