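import Pool.Agent.Lib.MP_3d41d4_an.EFix
import Pool.Agent.Lib.MP_3d41d4_an.EUniq

open MeasureTheory Set Filter Topology Real
open scoped ENNReal

namespace Pool.Agent.Lib.MP_3d41d4_an

variable {ν T T₀ δ N A M : ℝ} {φ γ : ℝ → ℝ} {ω : ℝ → ℝ → ℝ → ℝ} {W : C3 → ℂ}

theorem EGlue_int (hν : 0 < ν) (hφ : Continuous φ) (hN : 0 ≤ N)
    (hm : Measurable fun p : ℝ × ℝ × ℝ => ω p.1 p.2.1 p.2.2) {t : ℝ} (ht : 0 < t)
    (hb : ∀ s ∈ Ioo 0 t, ∀ x y, |ω s x y| ≤ N * gm φ (2 * (ν * s)) x y) (x y : ℝ) :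
    IntegrableOn (fun s => duh (ν * (t - s)) (ω s) x y) (Ioo 0 t) := by
  obtain ⟨C, -, hC⟩ := duh_le hν
  obtain ⟨C', C0, hC'⟩ := U_le hν
  obtain ⟨_, -, hw⟩ := tw_int
  refine (((hw t ht).1.const_mul (C * (C' * N) * N)).mul_const (gm φ (2 * (ν * t)) x y)).mono'
    (duh_meas (F := ω) (by fun_prop) measurable_const measurable_const hm).aestronglyMeasurable ?_
  filter_upwards [ae_restrict_mem measurableSet_Ioo] with s hs
  have ms : Measurable fun p : ℝ × ℝ => ω s p.1 p.2 := hm.comp (measurable_prodMk_left (x := s))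
  simpa only [add_zero, Real.norm_eq_abs] using hC φ hφ (ω s) N (C' * N) 0 t s ms hN
    (by positivity) le_rfl hs.1 hs.2 (hb s hs) (hC' φ hφ (ω s) N s ms hN hs.1 (hb s hs)) x y

theorem EGlue_meas (hν : 0 < ν) (hW : CH ν T₀ δ A φ W) : ∃ V : ℝ → ℝ → ℝ → ℝ,
    (Measurable fun p : ℝ × ℝ × ℝ => V p.1 p.2.1 p.2.2) ∧
      ∀ t ∈ Ioo T₀ (T₀ + δ), ∀ x y, W (rp t x y) = (V t x y : ℝ) := by
  classical
  have hg : ContinuousOn (fun p : ℝ × ℝ × ℝ => (W (rp p.1 p.2.1 p.2.2)).re)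
      (Ioo T₀ (T₀ + δ) ×ˢ univ) :=
    Complex.continuous_re.comp_continuousOn (hW.diff.continuousOn.comp
      (f := fun p : ℝ × ℝ × ℝ => rp p.1 p.2.1 p.2.2) (by unfold rp; fun_prop)
      fun p hp => (rp_mem_cone hν _ _).2 hp.1)
  refine ⟨fun t x y => (Ioo T₀ (T₀ + δ) ×ˢ univ).piecewise
    (fun p : ℝ × ℝ × ℝ => (W (rp p.1 p.2.1 p.2.2)).re) (fun _ => (0 : ℝ)) (t, x, y),
    hg.measurable_piecewise continuousOn_const (measurableSet_Ioo.prod MeasurableSet.univ),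
    fun t ht x y => ?_⟩
  beta_reduce
  rw [piecewise_eq_of_mem _ _ _ (mk_mem_prod ht (mem_univ _))]
  exact Complex.ext rfl (hW.real t x y ((rp_mem_cone hν _ _).2 ht))

/-- Gluing. Sketch: `ω' t x y = if t ≤ T₀ then ω t x y else if t < T₀ + δ then
(W (rp t x y)).re else 0` (measurable: `ContinuousOn.measurable_piecewise` or the pattern of
`meas_Vof`); for `t ≤ T₀` use `h.eq` and `setIntegral_congr_fun`; for `t > T₀` use `hist_real`,
`cB_real` and split `Ioo 0 t` at `T₀` (integrability on both pieces from `duh_le`, `U_le`,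
`duh_meas`, `tw_int`, because `ω'` is measurable and bounded by `max N A` times the majorant). -/
theorem glue (hν : 0 < ν) (hd : Dat M φ γ) (h : Mild ν T N φ γ ω) (hT₀ : 0 ≤ T₀)
    (hT : T₀ = 0 ∨ T₀ < T) (hW : CH ν T₀ δ A φ W)
    (hfix : ∀ p ∈ cone ν T₀ δ, W p = hist ν T₀ φ γ ω p - cB ν T₀ W W p) :
    ∃ ω' : ℝ → ℝ → ℝ → ℝ, Mild ν (T₀ + δ) (max N A) φ γ ω' ∧
      ∀ t ∈ Ioo T₀ (T₀ + δ), ∀ x y, W (rp t x y) = (ω' t x y : ℝ) := by
  obtain ⟨V, mV, hV⟩ := EGlue_meas hν hW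
  obtain ⟨ω', e1, e2, hm⟩ : ∃ ω' : ℝ → ℝ → ℝ → ℝ, (∀ t ≤ T₀, ω' t = ω t) ∧
      (∀ t ∈ Ioo T₀ (T₀ + δ), ∀ x y, W (rp t x y) = (ω' t x y : ℝ)) ∧
      Measurable fun p : ℝ × ℝ × ℝ => ω' p.1 p.2.1 p.2.2 :=
    ⟨fun t x y => if t ≤ T₀ then ω t x y else V t x y, fun t ht => by simp only [if_pos ht],
      fun t ht x y => by simp only [if_neg (not_le.2 ht.1), hV t ht],
      Measurable.ite (measurableSet_le measurable_fst measurable_const) h.meas mV⟩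
  have lo : ∀ t, 0 < t → t ≤ T₀ → t ∈ Ioo 0 T := fun t h0 h1 =>
    ⟨h0, h1.trans_lt (hT.resolve_left (h0.trans_le h1).ne')⟩
  have hN : 0 ≤ max N A := le_max_of_le_left h.nonneg
  have hb : ∀ t ∈ Ioo 0 (T₀ + δ), ∀ x y, |ω' t x y| ≤ max N A * gm φ (2 * (ν * t)) x y := by
    intro t ht x y
    have g0 := gm_nonneg φ (a := 2 * (ν * t)) (by have := ht.1; positivity) x y
    rcases le_or_gt t T₀ with h1 | h1
    · rw [e1 t h1]
      exact (h.bd t (lo t ht.1 h1) x y).trans (by gcongr; exact le_max_left _ _)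
    · have h2 := hW.bd _ ((rp_mem_cone hν x y).2 ⟨h1, ht.2⟩)
      rw [e2 t ⟨h1, ht.2⟩, Complex.norm_real, Real.norm_eq_abs] at h2
      exact h2.trans (mul_le_mul_of_nonneg_right (le_max_right _ _) g0)
  refine ⟨ω', ⟨hN, hm, fun t ht x y => ?_, hb, fun t ht x y => ?_⟩, e2⟩
  · rcases le_or_gt t T₀ with h1 | h1
    · rw [e1 t h1]
      exact h.per t (lo t ht.1 h1) x y
    · have h2 := hW.per _ ((rp_mem_cone hν x y).2 ⟨h1, ht.2⟩)
      have h3 := e2 t ⟨h1, ht.2⟩ (x + 2 * π) y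
      rw [e2 t ⟨h1, ht.2⟩] at h2
      simp only [rp, Complex.ofReal_add, Complex.ofReal_mul, Complex.ofReal_ofNat] at h2 h3
      exact Complex.ofReal_injective (h3.symm.trans h2)
  · rcases le_or_gt t T₀ with h1 | h1
    · rw [e1 t h1, h.eq t (lo t ht.1 h1), setIntegral_congr_fun measurableSet_Ioo
        (g := fun s => duh (ν * (t - s)) (ω' s) x y) fun s hs => by
          simp only [e1 s (hs.2.le.trans h1)]]
    · have h2 := hfix _ ((rp_mem_cone hν x y).2 ⟨h1, ht.2⟩)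
      have hi := EGlue_int hν hd.cφ hN hm ht.1 (fun s hs => hb s ⟨hs.1, hs.2.trans ht.2⟩) x y
      rw [e2 t ⟨h1, ht.2⟩, hist_real, cB_real h1 (fun s hs => e2 s ⟨hs.1, hs.2.trans ht.2⟩),
        ← Complex.ofReal_sub, Complex.ofReal_inj] at h2
      rw [← Ioc_union_Ioo_eq_Ioo hT₀ h1] at hi ⊢
      rw [h2, setIntegral_union (Ioc_disjoint_Ioi_same.mono_right Ioo_subset_Ioi_self)
        measurableSet_Ioo (hi.mono_set subset_union_left) (hi.mono_set subset_union_right),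
        integral_Ioc_eq_integral_Ioo, sub_sub, setIntegral_congr_fun measurableSet_Ioo
        (g := fun s => duh (ν * (t - s)) (ω' s) x y) fun s hs => by simp only [e1 s hs.2.le]]

/-- Extension by a fixed amount of time (`step` at `T₀ = max 0 (T - δ / 2)`, `glue`). -/
theorem extend (hν : 0 < ν) (M N Tb : ℝ) : ∃ δ N' : ℝ, 0 < δ ∧ ∀ {T : ℝ} {φ γ : ℝ → ℝ}
    {ω : ℝ → ℝ → ℝ → ℝ}, Dat M φ γ → Mild ν T N φ γ ω → 0 ≤ T → T ≤ Tb →
      ∃ ω', Mild ν (T + δ) N' φ γ ω' := by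
  obtain ⟨δ, A, δ0, -, hs⟩ := step hν M N Tb
  refine ⟨δ / 2, max N A, half_pos δ0, fun {T φ γ ω} hd h h0 h1 => ?_⟩
  have h2 : max 0 (T - δ / 2) ≤ T := max_le h0 (by linarith)
  obtain ⟨W, hW, hfix⟩ := hs hd h (le_max_left 0 (T - δ / 2)) h2 (h2.trans h1)
  obtain ⟨ω', h3, -⟩ := glue hν hd h (le_max_left _ _)
    ((max_choice 0 (T - δ / 2)).imp_right fun e => by linarith) hW hfix
  exact ⟨ω', h3.mono_T (by linarith [le_max_right 0 (T - δ / 2)])⟩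

/-- Local holomorphic extension of a mild solution. Sketch: `step` at
`T₀ = max 0 (t₁ - δ / 2)`, `glue`, `mild_unique` on `(0, min T (T₀ + δ))`; a small slab around
`t₁` lies in the cone; `gm_decay`. -/
theorem mild_reg (hν : 0 < ν) (hd : Dat M φ γ) (h : Mild ν T N φ γ ω) {t₁ : ℝ}
    (ht : t₁ ∈ Ioo 0 T) : ∃ (r B : ℝ) (W : C3 → ℂ), 0 < r ∧ 0 ≤ B ∧
      Ioo (t₁ - r) (t₁ + r) ⊆ Ioo 0 T ∧ Reg 1 t₁ r B W ∧
        ∀ t ∈ Ioo (t₁ - r) (t₁ + r), ∀ x y, W (rp t x y) = (ω t x y : ℝ) := by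
  obtain ⟨δ, A, δ0, -, hs⟩ := step hν M N T
  obtain ⟨T₀, a0, a1, a2⟩ : ∃ T₀, 0 ≤ T₀ ∧ T₀ < t₁ ∧ t₁ < T₀ + δ :=
    ⟨max 0 (t₁ - δ / 2), le_max_left _ _, max_lt ht.1 (by linarith),
      by linarith [le_max_right 0 (t₁ - δ / 2)]⟩
  have a3 := a1.trans ht.2
  obtain ⟨W, hW, hfix⟩ := hs hd h a0 a3.le a3.le
  obtain ⟨ω', h3, h4⟩ := glue hν hd h a0 (.inr a3) hW hfix
  have hu := mild_unique hν hd.cφ (h.mono_T (min_le_left T (T₀ + δ))) (h3.mono_T (min_le_right _ _))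
  have b0 : 0 < t₁ - T₀ := sub_pos.2 a1
  obtain ⟨r, r0, r1, r2, r3, r4, r5⟩ : ∃ r, 0 < r ∧ r ≤ (t₁ - T₀) / 5 ∧ r ≤ T₀ + δ - t₁ ∧
      r ≤ T - t₁ ∧ r ≤ 1 ∧ r ≤ ν * (t₁ - T₀) / 2 := by
    refine ⟨min (min ((t₁ - T₀) / 5) (T₀ + δ - t₁)) (min (T - t₁) (min 1 (ν * (t₁ - T₀) / 2))),
      lt_min (lt_min (by positivity) (sub_pos.2 a2))
        (lt_min (sub_pos.2 ht.2) (lt_min one_pos (by positivity))), ?_⟩
    simp only [min_le_iff, le_refl, true_or, or_true, and_self]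
  have hre : ∀ p ∈ slab t₁ r, t₁ - r < p.1.re ∧ p.1.re < t₁ + r ∧ |p.1.im| < r := fun p hp => by
    have h5 := abs_lt.1 ((Complex.abs_re_le_norm _).trans_lt hp.1)
    have h6 := (Complex.abs_im_le_norm _).trans_lt hp.1
    simp only [Complex.sub_re, Complex.ofReal_re, Complex.sub_im, Complex.ofReal_im, sub_zero]
      at h5 h6
    exact ⟨by linarith [h5.1], by linarith [h5.2], h6⟩
  have hsub : slab t₁ r ⊆ cone ν T₀ δ := fun p hp => by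
    obtain ⟨c1, c2, c3⟩ := hre p hp
    have c4 : r ^ 2 ≤ ν * (p.1.re - T₀) := by
      have : ν * ((t₁ - T₀) / 2) ≤ ν * (p.1.re - T₀) := by gcongr; linarith
      nlinarith
    exact ⟨by linarith, by linarith, by linarith, (sq_lt_sq' (abs_lt.1 hp.2.1).1
      (abs_lt.1 hp.2.1).2).trans_le c4,
      (sq_lt_sq' (abs_lt.1 hp.2.2).1 (abs_lt.1 hp.2.2).2).trans_le c4⟩
  have d0 : 0 < t₁ - r := by linarith
  obtain ⟨B, B0, hB⟩ := gm_decay hd.cφ hd.bφ (a₀ := 2 * (ν * (t₁ - r))) (by positivity)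
    (2 * (ν * (t₁ + r)))
  refine ⟨r, A * B, W, r0, mul_nonneg hW.nonneg B0.le, Ioo_subset_Ioo d0.le (by linarith),
    ⟨hW.diff.mono hsub, fun p hp => (hW.bd p (hsub hp)).trans ?_⟩, fun t hI x y => ?_⟩
  · obtain ⟨c1, c2, -⟩ := hre p hp
    rw [one_mul, mul_assoc A]
    exact mul_le_mul_of_nonneg_left (hB _ ⟨by gcongr, by gcongr⟩ _ _) hW.nonneg
  · rw [hu t ⟨d0.trans hI.1, lt_min (by linarith [hI.2]) (by linarith [hI.2])⟩]
    exact h4 t ⟨by linarith [hI.1], by linarith [hI.2]⟩ x y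

end Pool.Agent.Lib.MP_3d41d4_an
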