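import Pool.Agent.Lib.MP_3d41d4_an.EReg2
import Pool.Agent.Lib.MP_3d41d4_an.EGlue

open MeasureTheory Set Filter Topology Real
open scoped ENNReal

namespace Pool.Agent.Lib.MP_3d41d4_an

/-- Mild solutions are classical: `mild_reg`, `Reg.sm`, `Reg.contDiffOn_real`, `Reg.Uc`, `Uc_real`,
`Sm.mono`; `contDiffOn_of_locally_contDiffOn`. -/
theorem mild_Cl {ν T N M : ℝ} {φ γ : ℝ → ℝ} {ω : ℝ → ℝ → ℝ → ℝ} (hν : 0 < ν) (hd : Dat M φ γ)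
    (h : Mild ν T N φ γ ω) : Cl T ω (fun t => U1 (ω t)) (fun t => U2 (ω t)) := by
  have key : ∀ t₁ ∈ Ioo 0 T, ∃ (r B B' : ℝ) (W : C3 → ℂ), 0 < r ∧ 0 ≤ B ∧ 0 ≤ B' ∧
      Ioo (t₁ - r) (t₁ + r) ⊆ Ioo 0 T ∧ Reg 1 t₁ r B W ∧ Reg 0 t₁ r B' (Uc1 W) ∧
      Reg 0 t₁ r B' (Uc2 W) ∧
      (∀ t ∈ Ioo (t₁ - r) (t₁ + r), ∀ x y, W (rp t x y) = (ω t x y : ℝ)) := fun t₁ ht => by
    obtain ⟨r, B, W, h1, h2, h3, h4, h5⟩ := mild_reg hν hd h ht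
    obtain ⟨B', h6, h7, h8⟩ := h4.Uc h2
    exact ⟨r, B, B', W, h1, h2, h6, h3, h4, h7, h8, h5⟩
  have cd : ∀ (n : ℕ) (f : ℝ × ℝ × ℝ → ℝ), (∀ t₁ ∈ Ioo 0 T, ∃ r > 0,
      ContDiffOn ℝ n f (Ioo (t₁ - r) (t₁ + r) ×ˢ univ)) → ContDiffOn ℝ n f (Ioo 0 T ×ˢ univ) :=
    fun n f hf => contDiffOn_of_locally_contDiffOn fun p hp => by
      obtain ⟨r, hr, h1⟩ := hf p.1 hp.1
      exact ⟨_, isOpen_Ioo.prod isOpen_univ, ⟨⟨by linarith, by linarith⟩, trivial⟩,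
        h1.mono inter_subset_right⟩
  refine ⟨cd 2 _ fun t ht => ?_, cd 1 _ fun t ht => ?_, cd 1 _ fun t ht => ?_, fun t ht => ?_⟩ <;>
    obtain ⟨r, B, B', W, h1, h2, h6, h3, h4, h7, h8, h5⟩ := key t ht
  · exact ⟨r, h1, h4.contDiffOn_real h1 h5 2⟩
  · exact ⟨r, h1, h7.contDiffOn_real (f := fun t => U1 (ω t)) h1
      (fun s hs x y => (Uc_real (h5 s hs) x y).1) 1⟩
  · exact ⟨r, h1, h8.contDiffOn_real (f := fun t => U2 (ω t)) h1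
      (fun s hs x y => (Uc_real (h5 s hs) x y).2) 1⟩
  · obtain ⟨r₁, B₁, a1, a2, a3, a4⟩ := Reg.sm zero_le_one 3 h1 h2 h4 h5
    obtain ⟨r₂, B₂, b1, -, -, b4⟩ := Reg.sm (f := fun t => U1 (ω t)) le_rfl 2 h1 h6 h7
      fun s hs x y => (Uc_real (h5 s hs) x y).1
    obtain ⟨r₃, B₃, c1, -, -, c4⟩ := Reg.sm (f := fun t => U2 (ω t)) le_rfl 2 h1 h6 h8
      fun s hs x y => (Uc_real (h5 s hs) x y).2
    have m : ∀ {a b : ℝ}, a ≤ b → Ioo (t - a) (t + a) ⊆ Ioo (t - b) (t + b) := fun hab =>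
      Ioo_subset_Ioo (by linarith) (by linarith)
    exact ⟨min r₁ (min r₂ r₃), max B₁ (max B₂ B₃), lt_min a1 (lt_min b1 c1), le_max_of_le_left a3,
      (m ((min_le_left _ _).trans a2)).trans h3, Sm.mono (m (min_le_left _ _)) (le_max_left _ _) a4,
      Sm.mono (m ((min_le_right _ _).trans (min_le_left _ _)))
        ((le_max_left _ _).trans (le_max_right _ _)) b4,
      Sm.mono (m ((min_le_right _ _).trans (min_le_right _ _)))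
        ((le_max_right _ _).trans (le_max_right _ _)) c4⟩

/-- A time slice with its first derivatives. -/
theorem Sm.dec {I : Set ℝ} {B : ℝ} {n : ℕ} {ω : ℝ → ℝ → ℝ → ℝ} (h : Sm 1 I B (n + 1) ω) {t : ℝ}
    (ht : t ∈ I) (hp : ∀ x y, ω t (x + 2 * π) y = ω t x y) : Dec B (ω t) (dX ω t) (dY ω t) := by
  obtain ⟨h0, hD, -, hX, hY⟩ := h
  have c : ∀ {f : ℝ → ℝ → ℝ → ℝ}, Sm0 1 I B f → Continuous fun p : ℝ × ℝ => f t p.1 p.2 :=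
    fun hf => hf.cont.comp_continuous (f := fun p : ℝ × ℝ => (t, p)) (by fun_prop)
      fun _ => ⟨ht, trivial⟩
  have b : ∀ {f : ℝ → ℝ → ℝ → ℝ}, Sm0 1 I B f → ∀ x y, |f t x y| ≤ B * Real.exp (-|y|) :=
    fun hf x y => by simpa using hf.bd t ht x y
  exact ⟨c h0, c hX.sm0, c hY.sm0, hp, hD.dx t ht, hD.dy t ht, b h0, b hX.sm0, b hY.sm0⟩

end Pool.Agent.Lib.MP_3d41d4_an
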