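import Pool.Agent.Lib.MP_3d41d4_an.EDefs

open MeasureTheory Set Filter Topology Real
open scoped ENNReal

namespace Pool.Agent.Lib.MP_3d41d4_an

theorem EHol1_line {f : C3 → ℂ} {p : C3} (e : C3) (hf : DifferentiableAt ℂ f p) :
    HasDerivAt (fun l : ℂ => f (p + l • e)) (fderiv ℂ f p e) 0 := by
  have h1 : HasDerivAt (fun l : ℂ => p + l • e) e 0 := by
    simpa using ((hasDerivAt_id (0 : ℂ)).smul_const e).const_add p
  have h2 : HasFDerivAt f (fderiv ℂ f p) (p + (0 : ℂ) • e) := by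
    rw [zero_smul, add_zero]
    exact hf.hasFDerivAt
  exact h2.comp_hasDerivAt (0 : ℂ) h1

/-- Cauchy estimate in three variables.
Sketch: for `‖e‖ = 1` the map `l ↦ f (p + l • e)` is holomorphic near `closedBall 0 r`, its
derivative at `0` is `fderiv ℂ f p e`; `Complex.norm_deriv_le_of_forall_mem_sphere_norm_le`;
`ContinuousLinearMap.opNorm_le_of_unit_norm` (or scale `e`). -/
theorem hol_fderiv_le {D : Set C3} (hD : IsOpen D) {f : C3 → ℂ} (hf : DifferentiableOn ℂ f D)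
    {p : C3} {r B : ℝ} (hr : 0 < r) (hsub : Metric.closedBall p r ⊆ D)
    (hB : ∀ q ∈ Metric.closedBall p r, ‖f q‖ ≤ B) : ‖fderiv ℂ f p‖ ≤ B / r := by
  have hp := Metric.mem_closedBall_self (x := p) hr.le
  have h0 : 0 ≤ B / r := div_nonneg ((norm_nonneg _).trans (hB p hp)) hr.le
  have key : ∀ e : C3, ‖e‖ ≤ 1 → ‖fderiv ℂ f p e‖ ≤ B / r := fun e he => by
    have hin : ∀ l ∈ Metric.closedBall (0 : ℂ) r, p + l • e ∈ Metric.closedBall p r := fun l hl => by
      rw [Metric.mem_closedBall, dist_self_add_left, norm_smul]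
      exact (mul_le_of_le_one_right (norm_nonneg _) he).trans (mem_closedBall_zero_iff.1 hl)
    rw [← (EHol1_line e (hf.differentiableAt (hD.mem_nhds (hsub hp)))).deriv]
    refine Complex.norm_deriv_le_of_forall_mem_sphere_norm_le hr ?_ fun l hl =>
      hB _ (hin l (Metric.sphere_subset_closedBall hl))
    refine DifferentiableOn.diffContOnCl_ball (U := Metric.closedBall (0 : ℂ) r) ?_ le_rfl
    exact hf.comp (f := fun l : ℂ => p + l • e) (by fun_prop) fun l hl => hsub (hin l hl)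
  refine ContinuousLinearMap.opNorm_le_bound _ h0 fun e => ?_
  rcases eq_or_ne e 0 with rfl | he
  · simp
  have h1 : 0 < ‖e‖ := norm_pos_iff.2 he
  have h2 := key (((‖e‖⁻¹ : ℝ) : ℂ) • e) (by
    rw [norm_smul, Complex.norm_real, norm_inv, norm_norm, inv_mul_cancel₀ h1.ne'])
  rwa [map_smul, norm_smul, Complex.norm_real, norm_inv, norm_norm, inv_mul_le_iff₀ h1,
    mul_comm] at h2

theorem EHol1_meas {α : Type} [MeasurableSpace α] {μ : Measure α} {D : Set C3} (hD : IsOpen D)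
    {F : C3 → α → ℂ} (hm : ∀ p ∈ D, AEStronglyMeasurable (F p) μ)
    (hd : ∀ᵐ a ∂μ, DifferentiableOn ℂ (fun p => F p a) D) {p : C3} (hp : p ∈ D) (e : C3) :
    AEStronglyMeasurable (fun a => fderiv ℂ (fun p => F p a) p e) μ := by
  have hu0 : Tendsto (fun n : ℕ => ((1 / ((n : ℝ) + 1) : ℝ) : ℂ)) atTop (𝓝 0) :=
    (Complex.continuous_ofReal.tendsto' 0 0 rfl).comp tendsto_one_div_add_atTop_nhds_zero_nat
  have hu : Tendsto (fun n : ℕ => ((1 / ((n : ℝ) + 1) : ℝ) : ℂ)) atTop (𝓝[≠] 0) :=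
    tendsto_nhdsWithin_iff.mpr ⟨hu0, Eventually.of_forall fun n =>
      Complex.ofReal_ne_zero.mpr (by positivity)⟩
  have h1 : Tendsto (fun n : ℕ => p + ((1 / ((n : ℝ) + 1) : ℝ) : ℂ) • e) atTop (𝓝 p) := by
    simpa using (hu0.smul_const e).const_add p
  obtain ⟨n₀, hn⟩ := eventually_atTop.1 (h1.eventually (hD.mem_nhds hp))
  refine aestronglyMeasurable_of_tendsto_ae atTop
    (f := fun (n : ℕ) a => ((1 / (((n + n₀ : ℕ) : ℝ) + 1) : ℝ) : ℂ)⁻¹ •
      (F (p + ((1 / (((n + n₀ : ℕ) : ℝ) + 1) : ℝ) : ℂ) • e) a - F p a))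
    (fun n => ((hm _ (hn (n + n₀) (Nat.le_add_left _ _))).sub (hm _ hp)).const_smul
      ((1 / (((n + n₀ : ℕ) : ℝ) + 1) : ℝ) : ℂ)⁻¹) ?_
  filter_upwards [hd] with a ha
  have h2 := (EHol1_line e (ha.differentiableAt (hD.mem_nhds hp))).tendsto_slope_zero.comp
    (hu.comp (tendsto_add_atTop_nat n₀))
  simpa only [Function.comp_def, zero_add, zero_smul, add_zero] using h2

theorem EHol1_split (T : C3 →L[ℂ] ℂ) :
    T = T (1, 0, 0) • ContinuousLinearMap.fst ℂ ℂ (ℂ × ℂ) +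
      T (0, 1, 0) • (ContinuousLinearMap.fst ℂ ℂ ℂ).comp (ContinuousLinearMap.snd ℂ ℂ (ℂ × ℂ)) +
      T (0, 0, 1) • (ContinuousLinearMap.snd ℂ ℂ ℂ).comp (ContinuousLinearMap.snd ℂ ℂ (ℂ × ℂ)) := by
  refine ContinuousLinearMap.ext fun v => ?_
  have e : v = v.1 • ((1, 0, 0) : C3) + v.2.1 • ((0, 1, 0) : C3) + v.2.2 • ((0, 0, 1) : C3) := by
    simp
  conv_lhs => rw [e, map_add, map_add, map_smul, map_smul, map_smul]
  simp [mul_comm]

/-- A locally dominated integral of holomorphic functions is holomorphic, and one may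
differentiate under the integral sign.
Sketch: `hasFDerivAt_integral_of_dominated_of_fderiv_le` on `ball p₀ (ε/3)` (shrink `ε` so that
`ball p₀ ε ⊆ D`), bound from `hol_fderiv_le`; measurability of `a ↦ fderiv ℂ (F · a) p₀`: it is
the sum over the three coordinate vectors `e` of `(fderiv .. e) • proj`, and `fderiv .. e` is an
a.e. limit of difference quotients (see `HolInt` for the one variable pattern). -/
theorem hol_integral {α : Type} [MeasurableSpace α] {μ : Measure α} {D : Set C3} (hD : IsOpen D)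
    {F : C3 → α → ℂ} (hm : ∀ p ∈ D, AEStronglyMeasurable (F p) μ)
    (hd : ∀ᵐ a ∂μ, DifferentiableOn ℂ (fun p => F p a) D)
    (hb : ∀ p₀ ∈ D, ∃ ε > 0, ∃ b : α → ℝ, Integrable b μ ∧
      ∀ᵐ a ∂μ, ∀ p ∈ D, dist p p₀ < ε → ‖F p a‖ ≤ b a) :
    DifferentiableOn ℂ (fun p => ∫ a, F p a ∂μ) D := by
  intro p₀ hp₀
  obtain ⟨ε, hε, b, hbi, hbb⟩ := hb p₀ hp₀
  obtain ⟨δ, hδ, hδD⟩ := Metric.isOpen_iff.mp hD p₀ hp₀
  have hr : 0 < min ε δ / 3 := by positivity
  have hball : ∀ p ∈ Metric.ball p₀ (min ε δ / 3), ∀ q ∈ Metric.closedBall p (min ε δ / 3),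
      dist q p₀ < min ε δ := fun p hp q hq => by
    have h1 := dist_triangle q p p₀
    have h2 := Metric.mem_ball.1 hp
    have h3 := Metric.mem_closedBall.1 hq
    linarith
  have hsub : ∀ p ∈ Metric.ball p₀ (min ε δ / 3), Metric.closedBall p (min ε δ / 3) ⊆ D :=
    fun p hp q hq => hδD ((hball p hp q hq).trans_le (min_le_right _ _))
  have hm' : AEStronglyMeasurable (fun a => fderiv ℂ (fun p => F p a) p₀) μ := by
    have h := (((EHol1_meas hD hm hd hp₀ (1, 0, 0)).smul_const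
      (ContinuousLinearMap.fst ℂ ℂ (ℂ × ℂ))).add ((EHol1_meas hD hm hd hp₀ (0, 1, 0)).smul_const
      ((ContinuousLinearMap.fst ℂ ℂ ℂ).comp (ContinuousLinearMap.snd ℂ ℂ (ℂ × ℂ))))).add
      ((EHol1_meas hD hm hd hp₀ (0, 0, 1)).smul_const
      ((ContinuousLinearMap.snd ℂ ℂ ℂ).comp (ContinuousLinearMap.snd ℂ ℂ (ℂ × ℂ))))
    exact h.congr (Eventually.of_forall fun a => (EHol1_split _).symm)
  refine (hasFDerivAt_integral_of_dominated_of_fderiv_le
    (F' := fun p a => fderiv ℂ (fun p => F p a) p) (bound := fun a => b a / (min ε δ / 3))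
    (Metric.ball_mem_nhds p₀ hr) ?_ ?_ hm' ?_ (hbi.div_const _)
    ?_).differentiableAt.differentiableWithinAt
  · filter_upwards [hD.mem_nhds hp₀] with p hp using hm p hp
  · refine hbi.mono' (hm _ hp₀) ?_
    filter_upwards [hbb] with a ha using ha p₀ hp₀ (by rwa [dist_self])
  · filter_upwards [hbb, hd] with a ha hda p hp
    exact hol_fderiv_le hD hda hr (hsub p hp) fun q hq =>
      ha q (hsub p hp hq) ((hball p hp q hq).trans_le (min_le_left _ _))
  · filter_upwards [hd] with a hda p hp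
    exact (hda.differentiableAt
      (hD.mem_nhds (hsub p hp (Metric.mem_closedBall_self hr.le)))).hasFDerivAt

end Pool.Agent.Lib.MP_3d41d4_an
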