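import Pool.Agent.Lib.MP_3d41d4_an.EVel
import Pool.Agent.Lib.MP_3d41d4_an.EHol1

open MeasureTheory Set Filter Topology Real
open scoped ENNReal

namespace Pool.Agent.Lib.MP_3d41d4_an

variable {ν T₀ δ A : ℝ} {φ : ℝ → ℝ} {W W' : C3 → ℂ}

theorem cone_open (ν T₀ δ : ℝ) : IsOpen (cone ν T₀ δ) := by
  have h1 : Continuous fun p : C3 => p.1.re := Complex.continuous_re.comp continuous_fst
  have h2 : Continuous fun p : C3 => p.1.im := Complex.continuous_im.comp continuous_fst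
  have h3 : Continuous fun p : C3 => p.2.1.im :=
    Complex.continuous_im.comp (continuous_fst.comp continuous_snd)
  have h4 : Continuous fun p : C3 => p.2.2.im :=
    Complex.continuous_im.comp (continuous_snd.comp continuous_snd)
  exact (isOpen_lt continuous_const h1).inter ((isOpen_lt h1 continuous_const).inter
    ((isOpen_lt (continuous_const.mul h2.abs) (h1.sub continuous_const)).inter
    ((isOpen_lt (h3.pow 2) (continuous_const.mul (h1.sub continuous_const))).inter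
    (isOpen_lt (h4.pow 2) (continuous_const.mul (h1.sub continuous_const))))))

theorem sh_mem_cone {p : C3} (hp : p ∈ cone ν T₀ δ) (w : ℝ × ℝ) : sh p w ∈ cone ν T₀ δ := by
  obtain ⟨h1, h2, h3, h4, h5⟩ := hp
  refine ⟨h1, h2, h3, ?_, ?_⟩
  · simpa [sh] using h4
  · simpa [sh] using h5

theorem per_mem_cone {p : C3} (hp : p ∈ cone ν T₀ δ) :
    (p.1, p.2.1 + 2 * (π : ℂ), p.2.2) ∈ cone ν T₀ δ := by
  obtain ⟨h1, h2, h3, h4, h5⟩ := hp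
  refine ⟨h1, h2, h3, ?_, h5⟩
  simpa using h4

theorem rp_mem_cone (hν : 0 < ν) {t : ℝ} (x y : ℝ) :
    rp t x y ∈ cone ν T₀ δ ↔ t ∈ Ioo T₀ (T₀ + δ) := by
  constructor
  · rintro ⟨h1, h2, -⟩
    exact ⟨by simpa [rp] using h1, by simpa [rp] using h2⟩
  · rintro ⟨h1, h2⟩
    have h3 : 0 < ν * (t - T₀) := mul_pos hν (sub_pos.2 h1)
    refine ⟨by simpa [rp] using h1, by simpa [rp] using h2, ?_, ?_, ?_⟩
    · simpa [rp] using h1
    · simpa [rp] using h3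
    · simpa [rp] using h3

theorem cpt_mem_cone (hν : 0 < ν) {p : C3} (hp : p ∈ cone ν T₀ δ) {σ : ℝ} (hσ : σ ∈ Ioo (0 : ℝ) 1)
    (w : ℝ × ℝ) : cpt T₀ σ p w ∈ cone ν T₀ δ := by
  obtain ⟨h1, h2, h3, h4, h5⟩ := hp
  obtain ⟨s0, s1⟩ := hσ
  have e1 : (cpt T₀ σ p w).1.re = T₀ + σ * (p.1.re - T₀) := by simp [cpt]
  have e2 : (cpt T₀ σ p w).1.im = σ * p.1.im := by simp [cpt]
  have e3 : (cpt T₀ σ p w).2.1.im = σ * p.2.1.im := by simp [cpt]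
  have e4 : (cpt T₀ σ p w).2.2.im = σ * p.2.2.im := by simp [cpt]
  have hd : 0 < p.1.re - T₀ := sub_pos.2 h1
  have key : ∀ z : ℝ, z ^ 2 < ν * (p.1.re - T₀) →
      (σ * z) ^ 2 < ν * (T₀ + σ * (p.1.re - T₀) - T₀) := by
    intro z hz
    have a1 : σ * (σ * z ^ 2) ≤ σ * z ^ 2 :=
      mul_le_mul_of_nonneg_left (mul_le_of_le_one_left (sq_nonneg z) s1.le) s0.le
    have a2 : σ * z ^ 2 < σ * (ν * (p.1.re - T₀)) := mul_lt_mul_of_pos_left hz s0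
    nlinarith
  refine ⟨?_, ?_, ?_, ?_, ?_⟩
  · rw [e1]; nlinarith [mul_pos s0 hd]
  · rw [e1]; nlinarith [mul_pos (sub_pos.2 s1) hd]
  · rw [e1, e2, abs_mul, abs_of_pos s0]
    nlinarith [mul_lt_mul_of_pos_left h3 s0]
  · rw [e1, e3]; exact key _ h4
  · rw [e1, e4]; exact key _ h5

theorem adm_cone (hν : 0 < ν) {p : C3} (hp : p ∈ cone ν T₀ δ) {σ : ℝ} (hσ : σ ∈ Ioo (0 : ℝ) 1) :
    adm ((ν : ℂ) * ((1 - σ) * (p.1 - T₀))) ((1 - σ) * p.2.1) ((1 - σ) * p.2.2) := by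
  obtain ⟨h1, h2, h3, h4, h5⟩ := hp
  obtain ⟨s0, s1⟩ := hσ
  have e1 : ((ν : ℂ) * ((1 - σ) * (p.1 - T₀))).re = ν * ((1 - σ) * (p.1.re - T₀)) := by simp
  have e2 : ((ν : ℂ) * ((1 - σ) * (p.1 - T₀))).im = ν * ((1 - σ) * p.1.im) := by simp
  have e3 : ∀ z : ℂ, ((1 - (σ : ℂ)) * z).im = (1 - σ) * z.im := by intro z; simp
  have hd : 0 < p.1.re - T₀ := sub_pos.2 h1
  have hs : 0 < 1 - σ := sub_pos.2 s1
  have key : ∀ z : ℝ, z ^ 2 < ν * (p.1.re - T₀) →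
      ((1 - σ) * z) ^ 2 ≤ ν * ((1 - σ) * (p.1.re - T₀)) := by
    intro z hz
    have a1 : (1 - σ) * ((1 - σ) * z ^ 2) ≤ (1 - σ) * z ^ 2 :=
      mul_le_mul_of_nonneg_left (mul_le_of_le_one_left (sq_nonneg z) (by linarith)) hs.le
    have a2 : (1 - σ) * z ^ 2 < (1 - σ) * (ν * (p.1.re - T₀)) := mul_lt_mul_of_pos_left hz hs
    nlinarith
  refine ⟨?_, ?_, ?_, ?_⟩
  · rw [e1]; positivity
  · rw [e1, e2, abs_mul, abs_mul, abs_of_pos hν, abs_of_pos hs]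
    nlinarith [mul_lt_mul_of_pos_left h3 (mul_pos hν hs)]
  · rw [e1, e3]; exact key _ h4
  · rw [e1, e3]; exact key _ h5

theorem adm_hist (hν : 0 < ν) {p : C3} (hp : p ∈ cone ν T₀ δ) {s : ℝ} (hs : s ≤ T₀) :
    adm ((ν : ℂ) * (p.1 - s)) p.2.1 p.2.2 := by
  obtain ⟨h1, h2, h3, h4, h5⟩ := hp
  have e1 : ((ν : ℂ) * (p.1 - s)).re = ν * (p.1.re - s) := by simp
  have e2 : ((ν : ℂ) * (p.1 - s)).im = ν * p.1.im := by simp
  have hle : ν * (p.1.re - T₀) ≤ ν * (p.1.re - s) :=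
    mul_le_mul_of_nonneg_left (by linarith) hν.le
  refine ⟨?_, ?_, ?_, ?_⟩
  · rw [e1]; exact mul_pos hν (by linarith)
  · rw [e1, e2, abs_mul, abs_of_pos hν]
    nlinarith [mul_lt_mul_of_pos_left h3 hν]
  · rw [e1]; linarith
  · rw [e1]; linarith

theorem ECone1_sh_diff (w : ℝ × ℝ) : Differentiable ℂ fun p : C3 => sh p w := by
  unfold sh
  fun_prop

theorem ECone1_cont {D : Set C3} (hW : ContinuousOn W D) {p : C3} (hp : ∀ w, sh p w ∈ D) :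
    Continuous fun w : ℝ × ℝ => W (sh p w) := by
  refine hW.comp_continuous ?_ hp
  unfold sh
  fun_prop

theorem ECone1_bd (h : CH ν T₀ δ A φ W) {p : C3} (hp : p ∈ cone ν T₀ δ) (w : ℝ × ℝ) :
    ‖W (sh p w)‖ ≤ A * gm φ (2 * (ν * p.1.re)) (p.2.1.re - w.1) (p.2.2.re - w.2) := by
  simpa [sh] using h.bd _ (sh_mem_cone hp w)

theorem ECone1_dom (hν : 0 < ν) (hT₀ : 0 ≤ T₀) (hφ : Continuous φ) (h : CH ν T₀ δ A φ W) {p : C3}
    (hp : p ∈ cone ν T₀ δ) :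
    IntegrableOn (fun w : ℝ × ℝ => ((K1 w.1 w.2 : ℝ) : ℂ) * W (sh p w)) cyl0 ∧
    IntegrableOn (fun w : ℝ × ℝ => ((K2 w.1 w.2 : ℝ) : ℂ) * W (sh p w)) cyl0 ∧
    ‖∫ w in cyl0, ((K1 w.1 w.2 : ℝ) : ℂ) * W (sh p w)‖ ≤ ∫ w in cyl0,
      Kn w * (A * gm φ (2 * (ν * p.1.re)) (p.2.1.re - w.1) (p.2.2.re - w.2)) ∧
    ‖∫ w in cyl0, ((K2 w.1 w.2 : ℝ) : ℂ) * W (sh p w)‖ ≤ ∫ w in cyl0,
      Kn w * (A * gm φ (2 * (ν * p.1.re)) (p.2.1.re - w.1) (p.2.2.re - w.2)) := by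
  obtain ⟨C, -, hC⟩ := Kn_gm
  have ht : 0 < 2 * (ν * p.1.re) := mul_pos two_pos (mul_pos hν (lt_of_le_of_lt hT₀ hp.1))
  refine K_dom (ECone1_cont h.diff.continuousOn (sh_mem_cone hp)).aestronglyMeasurable ?_
    (ECone1_bd h hp)
  refine ((hC φ hφ _ ht p.2.1.re p.2.2.re).1.const_mul A).congr (Eventually.of_forall fun w => ?_)
  ring

/-- Holomorphy of the Biot-Savart integrals on a translation invariant open set
(`hol_integral`, `Kn_exp` with `y = 0`). -/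
theorem Uc_diff_gen {D : Set C3} (hD : IsOpen D) (hsh : ∀ p ∈ D, ∀ w, sh p w ∈ D)
    (hW : DifferentiableOn ℂ W D)
    (hb : ∀ p₀ ∈ D, ∃ ε > 0, ∃ B : ℝ, ∀ p ∈ D, dist p p₀ < ε → ∀ w : ℝ × ℝ,
      ‖W (sh p w)‖ ≤ B * Real.exp (-|w.2|)) :
    DifferentiableOn ℂ (Uc1 W) D ∧ DifferentiableOn ℂ (Uc2 W) D := by
  obtain ⟨C, -, hC⟩ := Kn_exp
  have main : ∀ K : ℝ × ℝ → ℝ, Measurable K → (∀ w, |K w| ≤ Kn w) →
      DifferentiableOn ℂ (fun p => ∫ w in cyl0, ((K w : ℝ) : ℂ) * W (sh p w)) D := by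
    intro K hK hle
    refine hol_integral hD (F := fun p w => ((K w : ℝ) : ℂ) * W (sh p w)) ?_ ?_ ?_
    · intro p hp
      exact (Complex.measurable_ofReal.comp hK).aestronglyMeasurable.mul
        (ECone1_cont hW.continuousOn (hsh p hp)).aestronglyMeasurable
    · refine Eventually.of_forall fun w => ?_
      exact (differentiableOn_const _).mul
        (hW.comp (ECone1_sh_diff w).differentiableOn fun p hp => hsh p hp w)
    · intro p₀ hp₀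
      obtain ⟨ε, hε, B, hB⟩ := hb p₀ hp₀
      refine ⟨ε, hε, fun w => B * (Kn w * Real.exp (-|0 - w.2|)), (hC 0).1.const_mul B,
        Eventually.of_forall fun w p hp hd => ?_⟩
      have h1 := hB p hp hd w
      simp only [norm_mul, Complex.norm_real, Real.norm_eq_abs, zero_sub, abs_neg]
      calc |K w| * ‖W (sh p w)‖ ≤ Kn w * (B * Real.exp (-|w.2|)) :=
            mul_le_mul (hle w) h1 (norm_nonneg _) (Kn_nonneg w)
        _ = B * (Kn w * Real.exp (-|w.2|)) := by ring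
  exact ⟨main (fun w => K1 w.1 w.2) K1_meas fun w => le_add_of_nonneg_right (abs_nonneg _),
    main (fun w => K2 w.1 w.2) K2_meas fun w => le_add_of_nonneg_left (abs_nonneg _)⟩

/-- `Uc_diff_gen` and `gm_decay` (near `p₀` the time `p.1.re` stays in a compact subset of
`(0, ∞)` and `|y - w₂| ≥ |w₂| - |y|`). -/
theorem CH.Uc_diff (hν : 0 < ν) (hT₀ : 0 ≤ T₀) (hφ : Continuous φ) {M : ℝ} (hM : ∀ x, |φ x| ≤ M)
    (h : CH ν T₀ δ A φ W) :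
    DifferentiableOn ℂ (Uc1 W) (cone ν T₀ δ) ∧ DifferentiableOn ℂ (Uc2 W) (cone ν T₀ δ) := by
  refine Uc_diff_gen (cone_open ν T₀ δ) (fun p hp w => sh_mem_cone hp w) h.diff ?_
  intro p₀ hp₀
  have ht : 0 < p₀.1.re := lt_of_le_of_lt hT₀ hp₀.1
  obtain ⟨B, hB0, hB⟩ := gm_decay hφ hM (a₀ := ν * p₀.1.re) (mul_pos hν ht) (2 * (ν * (T₀ + δ)))
  refine ⟨min 1 (p₀.1.re / 2), lt_min one_pos (half_pos ht),
    A * (B * Real.exp (|p₀.2.2.re| + 1)), fun p hp hd w => ?_⟩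
  have d1 : |p.1.re - p₀.1.re| < p₀.1.re / 2 := by
    have a1 : dist p.1 p₀.1 ≤ dist p p₀ := by rw [Prod.dist_eq]; exact le_max_left _ _
    have a2 := Complex.abs_re_le_norm (p.1 - p₀.1)
    rw [Complex.sub_re, ← dist_eq_norm] at a2
    exact lt_of_le_of_lt (a2.trans a1) (hd.trans_le (min_le_right _ _))
  have d2 : |p.2.2.re - p₀.2.2.re| < 1 := by
    have a0 : dist p.2 p₀.2 ≤ dist p p₀ := by rw [Prod.dist_eq]; exact le_max_right _ _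
    have a1 : dist p.2.2 p₀.2.2 ≤ dist p.2 p₀.2 := by rw [Prod.dist_eq]; exact le_max_right _ _
    have a2 := Complex.abs_re_le_norm (p.2.2 - p₀.2.2)
    rw [Complex.sub_re, ← dist_eq_norm] at a2
    exact lt_of_le_of_lt (a2.trans (a1.trans a0)) (hd.trans_le (min_le_left _ _))
  have hmem : 2 * (ν * p.1.re) ∈ Icc (ν * p₀.1.re) (2 * (ν * (T₀ + δ))) := by
    have b1 : p₀.1.re ≤ 2 * p.1.re := by have := (abs_lt.1 d1).1; linarith
    have b2 := mul_le_mul_of_nonneg_left b1 hν.le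
    have b3 := mul_le_mul_of_nonneg_left hp.2.1.le hν.le
    constructor <;> nlinarith
  have h1 := ECone1_bd h hp w
  have h2 := hB _ hmem (p.2.1.re - w.1) (p.2.2.re - w.2)
  have h3 : Real.exp (-|p.2.2.re - w.2|) ≤
      Real.exp (|p₀.2.2.re| + 1) * Real.exp (-|w.2|) := by
    rw [← Real.exp_add]
    refine Real.exp_le_exp.2 ?_
    have c1 := abs_sub_abs_le_abs_sub p.2.2.re p₀.2.2.re
    have c2 := abs_sub_abs_le_abs_sub w.2 p.2.2.re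
    rw [abs_sub_comm] at c2
    linarith
  calc ‖W (sh p w)‖ ≤ A * gm φ (2 * (ν * p.1.re)) (p.2.1.re - w.1) (p.2.2.re - w.2) := h1
    _ ≤ A * (B * (Real.exp (|p₀.2.2.re| + 1) * Real.exp (-|w.2|))) :=
        mul_le_mul_of_nonneg_left (h2.trans (mul_le_mul_of_nonneg_left h3 hB0.le)) h.nonneg
    _ = A * (B * Real.exp (|p₀.2.2.re| + 1)) * Real.exp (-|w.2|) := by ring

/-- `K_dom` and `Kn_gm`. -/
theorem Uc_bound : ∃ C : ℝ, 0 < C ∧ ∀ {ν T₀ δ A : ℝ} {φ : ℝ → ℝ} {W : C3 → ℂ}, 0 < ν → 0 ≤ T₀ →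
    Continuous φ → CH ν T₀ δ A φ W → ∀ p ∈ cone ν T₀ δ,
      ‖Uc1 W p‖ ≤ C * A * (1 + 1 / √(√(2 * (ν * p.1.re)))) ∧
      ‖Uc2 W p‖ ≤ C * A * (1 + 1 / √(√(2 * (ν * p.1.re)))) := by
  obtain ⟨C, hC0, hC⟩ := Kn_gm
  refine ⟨C, hC0, fun {ν T₀ δ A φ W} hν hT₀ hφ h p hp => ?_⟩
  have ht : 0 < 2 * (ν * p.1.re) := mul_pos two_pos (mul_pos hν (lt_of_le_of_lt hT₀ hp.1))
  obtain ⟨-, -, k1, k2⟩ := ECone1_dom hν hT₀ hφ h hp
  have hb : ∫ w in cyl0, Kn w * (A * gm φ (2 * (ν * p.1.re)) (p.2.1.re - w.1) (p.2.2.re - w.2))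
      ≤ C * A * (1 + 1 / √(√(2 * (ν * p.1.re)))) := by
    have e : (fun w : ℝ × ℝ =>
        Kn w * (A * gm φ (2 * (ν * p.1.re)) (p.2.1.re - w.1) (p.2.2.re - w.2))) = fun w =>
        A * (Kn w * gm φ (2 * (ν * p.1.re)) (p.2.1.re - w.1) (p.2.2.re - w.2)) := by
      funext w; ring
    rw [e, integral_const_mul]
    calc _ ≤ A * (C * (1 + 1 / √(√(2 * (ν * p.1.re))))) :=
          mul_le_mul_of_nonneg_left (hC φ hφ _ ht _ _).2 h.nonneg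
      _ = _ := by ring
  exact ⟨k1.trans hb, k2.trans hb⟩

theorem CH.Uc_per (h : CH ν T₀ δ A φ W) {p : C3} (hp : p ∈ cone ν T₀ δ) :
    Uc1 W (p.1, p.2.1 + 2 * (π : ℂ), p.2.2) = Uc1 W p ∧
    Uc2 W (p.1, p.2.1 + 2 * (π : ℂ), p.2.2) = Uc2 W p := by
  have e : ∀ w : ℝ × ℝ, W (sh (p.1, p.2.1 + 2 * (π : ℂ), p.2.2) w) = W (sh p w) := by
    intro w
    rw [← h.per _ (sh_mem_cone hp w)]
    congr 1
    simp only [sh, Prod.mk.injEq, true_and, and_true]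
    ring
  simp only [Uc1, Uc2, e, and_self]

theorem Uc_sub (hν : 0 < ν) (hT₀ : 0 ≤ T₀) (hφ : Continuous φ) {A' : ℝ} (h : CH ν T₀ δ A φ W)
    (h' : CH ν T₀ δ A' φ W') {p : C3} (hp : p ∈ cone ν T₀ δ) :
    Uc1 (fun q => W q - W' q) p = Uc1 W p - Uc1 W' p ∧
    Uc2 (fun q => W q - W' q) p = Uc2 W p - Uc2 W' p := by
  obtain ⟨a1, a2, -, -⟩ := ECone1_dom hν hT₀ hφ h hp
  obtain ⟨b1, b2, -, -⟩ := ECone1_dom hν hT₀ hφ h' hp
  simp only [Uc1, Uc2, mul_sub]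
  exact ⟨integral_sub a1 b1, integral_sub a2 b2⟩

theorem Uc_real {t : ℝ} {f : ℝ → ℝ → ℝ} (hf : ∀ x y, W (rp t x y) = (f x y : ℝ)) (x y : ℝ) :
    Uc1 W (rp t x y) = (U1 f x y : ℝ) ∧ Uc2 W (rp t x y) = (U2 f x y : ℝ) := by
  have e : ∀ w : ℝ × ℝ, W (sh (rp t x y) w) = (f (x - w.1) (y - w.2) : ℝ) := by
    intro w
    rw [← hf]
    congr 1
    simp [sh, rp]
  simp only [Uc1, Uc2, U1, U2, e, ← Complex.ofReal_mul]
  exact ⟨integral_ofReal, integral_ofReal⟩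

/-- The difference of two members of the class. -/
theorem CH.sub {A' E : ℝ} (h : CH ν T₀ δ A φ W) (h' : CH ν T₀ δ A' φ W') (hE : 0 ≤ E)
    (hb : ∀ p ∈ cone ν T₀ δ,
      ‖W p - W' p‖ ≤ E * gm φ (2 * (ν * p.1.re)) p.2.1.re p.2.2.re) :
    CH ν T₀ δ E φ fun q => W q - W' q := by
  refine ⟨hE, h.diff.sub h'.diff, fun p hp => ?_, hb, fun t x y hp => ?_⟩
  · rw [h.per p hp, h'.per p hp]
  · rw [Complex.sub_im, h.real t x y hp, h'.real t x y hp, sub_zero]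

end Pool.Agent.Lib.MP_3d41d4_an
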