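import Pool.Agent.Lib.MP_3d41d4_an.EDv

open MeasureTheory Set Filter Topology Real
open scoped ENNReal

namespace Pool.Agent.Lib.MP_3d41d4_an

theorem dv_meas {Λ : Type} [MeasurableSpace Λ] {a x y : Λ → ℝ} {F₁ F₂ : Λ → ℝ → ℝ → ℝ}
    (ha : Measurable a) (hx : Measurable x) (hy : Measurable y)
    (m₁ : Measurable fun p : Λ × ℝ × ℝ => F₁ p.1 p.2.1 p.2.2)
    (m₂ : Measurable fun p : Λ × ℝ × ℝ => F₂ p.1 p.2.1 p.2.2) :
    Measurable fun l => dv (a l) (F₁ l) (F₂ l) (x l) (y l) := by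
  have hk := ker_meas_real (Λ := Λ × ℝ × ℝ) (a := fun p => a p.1) (r := fun p => x p.1 - p.2.1)
    (Y := fun p => y p.1 - p.2.2) (ha.comp measurable_fst)
    ((hx.comp measurable_fst).sub measurable_snd.fst)
    ((hy.comp measurable_fst).sub measurable_snd.snd)
  exact (((hk.1.mul m₁).add (hk.2.mul m₂)).stronglyMeasurable.integral_prod_right').measurable

theorem duh_meas {Λ : Type} [MeasurableSpace Λ] {a x y : Λ → ℝ} {F : Λ → ℝ → ℝ → ℝ}
    (ha : Measurable a) (hx : Measurable x) (hy : Measurable y)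
    (hF : Measurable fun p : Λ × ℝ × ℝ => F p.1 p.2.1 p.2.2) :
    Measurable fun l => duh (a l) (F l) (x l) (y l) := by
  exact dv_meas (F₁ := fun l x' y' => U1 (F l) x' y' * F l x' y')
    (F₂ := fun l x' y' => U2 (F l) x' y' * F l x' y') ha hx hy ((U_meas hF).1.mul hF)
    ((U_meas hF).2.mul hF)

theorem duhc_meas {Λ : Type} [MeasurableSpace Λ] {a X Y : Λ → ℂ} {F : Λ → ℝ → ℝ → ℝ}
    (ha : Measurable a) (hX : Measurable X) (hY : Measurable Y)
    (hF : Measurable fun p : Λ × ℝ × ℝ => F p.1 p.2.1 p.2.2) :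
    Measurable fun l => duhc (a l) (X l) (Y l) (F l) := by
  have hk := ker_meas (Λ := Λ × ℝ × ℝ) (a := fun p => a p.1)
    (X := fun p => X p.1 - (p.2.1 : ℝ)) (Y := fun p => Y p.1 - (p.2.2 : ℝ))
    (ha.comp measurable_fst)
    ((hX.comp measurable_fst).sub (Complex.measurable_ofReal.comp measurable_snd.fst))
    ((hY.comp measurable_fst).sub (Complex.measurable_ofReal.comp measurable_snd.snd))
  have m₁ := Complex.measurable_ofReal.comp ((U_meas hF).1.mul hF)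
  have m₂ := Complex.measurable_ofReal.comp ((U_meas hF).2.mul hF)
  exact (((hk.2.1.mul m₁).add (hk.2.2.mul m₂)).stronglyMeasurable.integral_prod_right').measurable

theorem EDv2_shift (a X Y : ℂ) (F₁ F₂ : ℝ × ℝ → ℂ) (x₀ y₀ : ℝ) :
    dvc a X Y (fun w => F₁ (x₀ + w.1, y₀ + w.2)) (fun w => F₂ (x₀ + w.1, y₀ + w.2))
      = dvc a (X + x₀) (Y + y₀) F₁ F₂ := by
  unfold dvc
  rw [← integral_add_left_eq_self (fun w : ℝ × ℝ => Gcx a (X + x₀ - w.1) (Y + y₀ - w.2) * F₁ w +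
    Gcy a (X + x₀ - w.1) (Y + y₀ - w.2) * F₂ w) (x₀, y₀)]
  refine integral_congr_ae (Eventually.of_forall fun w => ?_)
  simp only [Prod.fst_add, Prod.snd_add, Complex.ofReal_add, add_comm X, add_comm Y,
    add_sub_add_left_eq_sub]
  rfl

theorem dvc_per (a X Y : ℂ) {F₁ F₂ : ℝ × ℝ → ℂ} (h₁ : ∀ x y, F₁ (x + 2 * π, y) = F₁ (x, y))
    (h₂ : ∀ x y, F₂ (x + 2 * π, y) = F₂ (x, y)) :
    dvc a (X + 2 * (π : ℂ)) Y F₁ F₂ = dvc a X Y F₁ F₂ := by
  have h := EDv2_shift a X Y F₁ F₂ (2 * π) 0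
  simp only [zero_add, add_comm (2 * π), h₁, h₂, Complex.ofReal_zero, add_zero,
    Complex.ofReal_mul, Complex.ofReal_ofNat] at h
  exact h.symm

/-- Translation of the integration variable. -/
theorem dvc_shift (a X Y : ℂ) (F₁ F₂ : ℝ × ℝ → ℂ) (x₀ y₀ : ℝ) :
    dvc a X Y (fun w => F₁ (x₀ + w.1, y₀ + w.2)) (fun w => F₂ (x₀ + w.1, y₀ + w.2))
      = dvc a (X + x₀) (Y + y₀) F₁ F₂ := by
  exact EDv2_shift a X Y F₁ F₂ x₀ y₀

/-- Semigroup property (Fubini, `Gx_conv`, `Gy_conv`). -/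
theorem hc_dv {κ a B : ℝ} {F₁ F₂ : ℝ → ℝ → ℝ} (hκ : 0 < κ) (ha : 0 < a)
    (m₁ : Measurable fun p : ℝ × ℝ => F₁ p.1 p.2) (m₂ : Measurable fun p : ℝ × ℝ => F₂ p.1 p.2)
    (b₁ : ∀ x y, |F₁ x y| ≤ B) (b₂ : ∀ x y, |F₂ x y| ≤ B) (x y : ℝ) :
    hc κ (dv a F₁ F₂) x y = dv (a + κ) F₁ F₂ x y := by
  obtain ⟨C, hC, hb⟩ := ker_bound_real
  have h2a : 0 < 2 * a := by positivity
  have hB : 0 ≤ B := (abs_nonneg _).trans (b₁ 0 0)
  have hk := ker_meas_real (Λ := (ℝ × ℝ) × ℝ × ℝ) (a := fun _ => a) (r := fun p => p.1.1 - p.2.1)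
    (Y := fun p => p.1.2 - p.2.2) measurable_const (by fun_prop) (by fun_prop)
  have hG : Measurable fun p : (ℝ × ℝ) × ℝ × ℝ => G κ (x - p.1.1) (y - p.1.2) :=
    measurable_G measurable_const (by fun_prop) (by fun_prop)
  have hG2 : Measurable fun p : (ℝ × ℝ) × ℝ × ℝ => G (2 * a) (p.1.1 - p.2.1) (p.1.2 - p.2.2) :=
    measurable_G measurable_const (by fun_prop) (by fun_prop)
  have hdom : Integrable (fun p : (ℝ × ℝ) × ℝ × ℝ =>
      G κ (x - p.1.1) (y - p.1.2) * G (2 * a) (p.1.1 - p.2.1) (p.1.2 - p.2.2))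
      ((volume : Measure (ℝ × ℝ)).prod (volume : Measure (ℝ × ℝ))) := by
    refine (integrable_prod_iff (hG.fun_mul hG2).aestronglyMeasurable).2
      ⟨Eventually.of_forall fun q =>
        (G_integrable h2a q.1 q.2).const_mul (G κ (x - q.1) (y - q.2)), ?_⟩
    refine (G_integrable hκ x y).congr (Eventually.of_forall fun q => ?_)
    have e : ∀ w : ℝ × ℝ, ‖G κ (x - q.1) (y - q.2) * G (2 * a) (q.1 - w.1) (q.2 - w.2)‖ =
        G κ (x - q.1) (y - q.2) * G (2 * a) (q.1 - w.1) (q.2 - w.2) := fun w =>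
      Real.norm_of_nonneg (mul_nonneg (G_nonneg hκ.le _ _) (G_nonneg h2a.le _ _))
    simp only [e]
    rw [integral_const_mul, G_integral h2a, mul_one]
  have hint : Integrable (Function.uncurry fun q w : ℝ × ℝ => G κ (x - q.1) (y - q.2) *
      (Gx a (q.1 - w.1) (q.2 - w.2) * F₁ w.1 w.2 + Gy a (q.1 - w.1) (q.2 - w.2) * F₂ w.1 w.2))
      ((volume : Measure (ℝ × ℝ)).prod (volume : Measure (ℝ × ℝ))) := by
    refine (hdom.const_mul (2 * (C / √a * B))).mono'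
      (hG.mul ((hk.1.mul (m₁.comp measurable_snd)).add
        (hk.2.mul (m₂.comp measurable_snd)))).aestronglyMeasurable
      (Eventually.of_forall fun p => ?_)
    obtain ⟨-, h1, h2⟩ := hb a (p.1.1 - p.2.1) (p.1.2 - p.2.2) ha
    have h0 := G_nonneg hκ.le (x - p.1.1) (y - p.1.2)
    have h3 := mul_le_mul h1 (b₁ p.2.1 p.2.2) (abs_nonneg _) ((abs_nonneg _).trans h1)
    have h4 := mul_le_mul h2 (b₂ p.2.1 p.2.2) (abs_nonneg _) ((abs_nonneg _).trans h2)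
    rw [← abs_mul] at h3 h4
    have h5 := (abs_add_le _ _).trans (add_le_add h3 h4)
    change |G κ (x - p.1.1) (y - p.1.2) * (_ + _)| ≤ _
    rw [abs_mul, abs_of_nonneg h0]
    refine (mul_le_mul_of_nonneg_left h5 h0).trans_eq ?_
    ring
  unfold hc dv
  simp only [← integral_const_mul]
  rw [integral_integral_swap hint]
  refine integral_congr_ae (Eventually.of_forall fun w => ?_)
  obtain ⟨i1, e1⟩ := Gx_conv hκ ha x y w.1 w.2
  obtain ⟨i2, e2⟩ := Gy_conv hκ ha x y w.1 w.2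
  simp only [mul_add, ← mul_assoc]
  rw [integral_add (i1.mul_const _) (i2.mul_const _), integral_mul_const, integral_mul_const, e1,
    e2, add_comm κ a]

end Pool.Agent.Lib.MP_3d41d4_an
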