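import Pool.Agent.Lib.MP_3d41d4_an.Gauss2

open MeasureTheory Set Filter Topology Real
open scoped ENNReal

namespace Pool.Agent.Lib.MP_3d41d4_an

theorem Gron_rpow {r t : ℝ} (hr : -1 < r) (ht : 0 < t) :
    IntegrableOn (fun s : ℝ => s ^ r) (Ioo 0 t) ∧ ∫ s in Ioo 0 t, s ^ r = t ^ (r + 1) / (r + 1) := by
  constructor
  · exact (intervalIntegrable_iff_integrableOn_Ioo_of_le ht.le).1
      (intervalIntegral.intervalIntegrable_rpow' hr)
  · rw [← integral_Ioc_eq_integral_Ioo, ← intervalIntegral.integral_of_le ht.le,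
      integral_rpow (Or.inl hr), Real.zero_rpow (by linarith), sub_zero]

theorem Gron_rpow_sub {r t : ℝ} (hr : -1 < r) (ht : 0 < t) :
    IntegrableOn (fun s : ℝ => (t - s) ^ r) (Ioo 0 t) ∧
      ∫ s in Ioo 0 t, (t - s) ^ r = t ^ (r + 1) / (r + 1) := by
  constructor
  · have h := (intervalIntegral.intervalIntegrable_rpow' (a := t) (b := 0) hr).comp_sub_left t
    rw [sub_self, sub_zero] at h
    exact (intervalIntegrable_iff_integrableOn_Ioo_of_le ht.le).1 h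
  · rw [← integral_Ioc_eq_integral_Ioo, ← intervalIntegral.integral_of_le ht.le,
      intervalIntegral.integral_comp_sub_left (fun s : ℝ => s ^ r) t, sub_self, sub_zero,
      integral_rpow (Or.inl hr), Real.zero_rpow (by linarith), sub_zero]

theorem Gron_half {s : ℝ} (hs : 0 < s) : s ^ (-(1 / 2) : ℝ) = 1 / √s := by
  rw [Real.rpow_neg hs.le, Real.sqrt_eq_rpow, one_div (s ^ (1 / 2 : ℝ))]

theorem Gron_three {s : ℝ} (hs : 0 < s) : s ^ (-(3 / 4) : ℝ) = 1 / (√s * √(√s)) := by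
  rw [Real.rpow_neg hs.le, Real.sqrt_eq_rpow, Real.sqrt_eq_rpow, ← Real.rpow_mul hs.le,
    ← Real.rpow_add hs, one_div (s ^ _)]
  norm_num

theorem Gron_exp {a z : ℝ} (ha : 0 < a) (hz : 0 < z) : Real.exp (-(z ^ 4 / a ^ 4)) ≤ a / z := by
  have hx : 0 < z / a := div_pos hz ha
  have h1 : z / a ≤ Real.exp (z ^ 4 / a ^ 4) := by
    have h2 := Real.add_one_le_exp (z ^ 4 / a ^ 4)
    rw [← div_pow] at h2 ⊢
    rcases le_total (z / a) 1 with h | h
    · have : 0 ≤ (z / a) ^ 4 := by positivity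
      linarith
    · have : z / a ≤ (z / a) ^ 4 := le_self_pow₀ h (by norm_num)
      linarith
  rw [Real.exp_neg]
  calc (Real.exp (z ^ 4 / a ^ 4))⁻¹ ≤ (z / a)⁻¹ := inv_anti₀ hx h1
    _ = a / z := inv_div _ _

theorem Gron_pt {C ε D a t s : ℝ} (hC : 0 < C) (hε : 0 < ε) (hD : 0 ≤ D) (ha : 0 < a)
    (hs : 0 < s) (hst : s < t) :
    C / √(t - s) * (1 + ε / √s + D + 1 / √(√s)) * Real.exp (s / a ^ 4) ≤
      Real.exp (t / a ^ 4) * (C * (2 * ε / √t) * (s ^ (-(1 / 2) : ℝ) + (t - s) ^ (-(1 / 2) : ℝ)) +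
        C * (1 + D + 1 / (4 * ε)) * a * (t - s) ^ (-(3 / 4) : ℝ)) := by
  have hts : 0 < t - s := sub_pos.2 hst
  have ht : 0 < t := hs.trans hst
  rw [Gron_half hs, Gron_half hts, Gron_three hts]
  obtain ⟨x, hx⟩ : ∃ x, x = √s := ⟨_, rfl⟩
  obtain ⟨y, hy⟩ : ∃ y, y = √(t - s) := ⟨_, rfl⟩
  rw [← hx, ← hy]
  have hx0 : 0 < x := hx ▸ Real.sqrt_pos.2 hs
  have hy0 : 0 < y := hy ▸ Real.sqrt_pos.2 hts
  have hx2 : x ^ 2 = s := hx ▸ Real.sq_sqrt hs.le
  have hy2 : y ^ 2 = t - s := hy ▸ Real.sq_sqrt hts.le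
  obtain ⟨w, hw⟩ : ∃ w, w = √x := ⟨_, rfl⟩
  obtain ⟨z, hz⟩ : ∃ z, z = √y := ⟨_, rfl⟩
  rw [← hw, ← hz]
  have hw0 : 0 < w := hw ▸ Real.sqrt_pos.2 hx0
  have hz0 : 0 < z := hz ▸ Real.sqrt_pos.2 hy0
  have hw2 : w ^ 2 = x := hw ▸ Real.sq_sqrt hx0.le
  have hz2 : z ^ 2 = y := hz ▸ Real.sq_sqrt hy0.le
  have hq0 : 0 < √t := Real.sqrt_pos.2 ht
  have hq : √t ≤ x + y := by
    rw [Real.sqrt_le_left (by positivity)]
    nlinarith [mul_pos hx0 hy0]
  have h1 : 1 / w ≤ ε / x + 1 / (4 * ε) := by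
    rw [← hw2, div_add_div _ _ (by positivity) (by positivity), div_le_div_iff₀ hw0 (by positivity)]
    nlinarith [mul_nonneg hw0.le (sq_nonneg (2 * ε - w))]
  have h2 : 1 / y * (1 / x) ≤ 1 / √t * (1 / x + 1 / y) := by
    have e1 : 1 / y * (1 / x) = 1 / (x + y) * (1 / x + 1 / y) := by field_simp; ring
    rw [e1]
    exact mul_le_mul_of_nonneg_right (one_div_le_one_div_of_le hq0 hq) (by positivity)
  have h3 : Real.exp (s / a ^ 4) ≤ Real.exp (t / a ^ 4) :=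
    Real.exp_le_exp.2 (div_le_div_of_nonneg_right hst.le (by positivity))
  have h4 : Real.exp (s / a ^ 4) ≤ Real.exp (t / a ^ 4) * (a / z) := by
    have e2 : s / a ^ 4 = t / a ^ 4 + -(z ^ 4 / a ^ 4) := by
      have : z ^ 4 = t - s := by rw [← hy2, ← hz2]; ring
      rw [this]; ring
    rw [e2, Real.exp_add]
    exact mul_le_mul_of_nonneg_left (Gron_exp ha hz0) (Real.exp_pos _).le
  have hK : 0 ≤ 1 + D + 1 / (4 * ε) := by positivity
  have hE := (Real.exp_pos (s / a ^ 4)).le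
  calc C / y * (1 + ε / x + D + 1 / w) * Real.exp (s / a ^ 4)
      ≤ C / y * (1 + ε / x + D + (ε / x + 1 / (4 * ε))) * Real.exp (s / a ^ 4) := by gcongr
    _ = C * (2 * ε) * (1 / y * (1 / x)) * Real.exp (s / a ^ 4) +
          C * (1 + D + 1 / (4 * ε)) * (1 / y) * Real.exp (s / a ^ 4) := by ring
    _ ≤ C * (2 * ε) * (1 / √t * (1 / x + 1 / y)) * Real.exp (t / a ^ 4) +
          C * (1 + D + 1 / (4 * ε)) * (1 / y) * (Real.exp (t / a ^ 4) * (a / z)) := by gcongr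
    _ = _ := by field_simp

theorem Gron_int {C D a T' t B : ℝ} (hC : 0 < C) (hD : 0 ≤ D) (ha : 0 < a) (hB : 0 ≤ B)
    (ht : 0 < t) (htT : t ≤ T')
    (hsmall : 16 * (C * (1 + D + 1 / (4 * (1 / (32 * C)))) * a * T' ^ (1 / 4 : ℝ)) ≤ 1) :
    ∫⁻ s in Ioo 0 t, ENNReal.ofReal (C / √(t - s) * (1 + 1 / (32 * C) / √s + D + 1 / √(√s))) *
      ENNReal.ofReal (B * Real.exp (s / a ^ 4)) ≤
        ENNReal.ofReal (B / 2 * Real.exp (t / a ^ 4)) := by
  obtain ⟨ε, hε⟩ : ∃ ε, ε = 1 / (32 * C) := ⟨_, rfl⟩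
  rw [← hε] at hsmall ⊢
  have hε0 : 0 < ε := by rw [hε]; positivity
  obtain ⟨i1, j1⟩ := Gron_rpow (r := -(1 / 2)) (by norm_num) ht
  obtain ⟨i2, j2⟩ := Gron_rpow_sub (r := -(1 / 2)) (by norm_num) ht
  obtain ⟨i3, j3⟩ := Gron_rpow_sub (r := -(3 / 4)) (by norm_num) ht
  have hq0 : 0 < √t := Real.sqrt_pos.2 ht
  have i12 : IntegrableOn (fun s : ℝ => C * (2 * ε / √t) *
      (s ^ (-(1 / 2) : ℝ) + (t - s) ^ (-(1 / 2) : ℝ))) (Ioo 0 t) := (i1.add i2).const_mul _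
  have i3' : IntegrableOn (fun s : ℝ => C * (1 + D + 1 / (4 * ε)) * a * (t - s) ^ (-(3 / 4) : ℝ))
      (Ioo 0 t) := i3.const_mul _
  have iG : IntegrableOn (fun s : ℝ => B * (Real.exp (t / a ^ 4) * (C * (2 * ε / √t) *
      (s ^ (-(1 / 2) : ℝ) + (t - s) ^ (-(1 / 2) : ℝ)) +
        C * (1 + D + 1 / (4 * ε)) * a * (t - s) ^ (-(3 / 4) : ℝ)))) (Ioo 0 t) :=
    ((i12.add i3').const_mul _).const_mul _
  refine le_trans (setLIntegral_mono' measurableSet_Ioo (g := fun s => ENNReal.ofReal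
    (B * (Real.exp (t / a ^ 4) * (C * (2 * ε / √t) *
      (s ^ (-(1 / 2) : ℝ) + (t - s) ^ (-(1 / 2) : ℝ)) +
        C * (1 + D + 1 / (4 * ε)) * a * (t - s) ^ (-(3 / 4) : ℝ))))) ?_) ?_
  · intro s hs
    rw [← ENNReal.ofReal_mul (by positivity)]
    refine ENNReal.ofReal_le_ofReal ?_
    have := mul_le_mul_of_nonneg_left (Gron_pt hC hε0 hD ha hs.1 hs.2) hB
    linarith
  · rw [← ofReal_integral_eq_lintegral_ofReal iG]
    · refine ENNReal.ofReal_le_ofReal ?_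
      rw [integral_const_mul, integral_const_mul, integral_add i12 i3', integral_const_mul,
        integral_const_mul, integral_add i1 i2, j1, j2, j3]
      have e1 : t ^ (-(1 / 2) + 1 : ℝ) = √t := by rw [Real.sqrt_eq_rpow]; norm_num
      have e2 : t ^ (-(3 / 4) + 1 : ℝ) ≤ T' ^ (1 / 4 : ℝ) := by
        rw [show (-(3 / 4) + 1 : ℝ) = 1 / 4 by norm_num]
        exact Real.rpow_le_rpow ht.le htT (by norm_num)
      rw [e1]
      have e3 : C * (2 * ε / √t) * (√t / (-(1 / 2) + 1) + √t / (-(1 / 2) + 1)) = 1 / 4 := by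
        rw [hε]; field_simp; ring
      have hK : 0 ≤ C * (1 + D + 1 / (4 * ε)) * a := by positivity
      have e4 : C * (1 + D + 1 / (4 * ε)) * a * (t ^ (-(3 / 4) + 1 : ℝ) / (-(3 / 4) + 1)) ≤ 1 / 4 := by
        have := mul_le_mul_of_nonneg_left e2 hK
        have e5 : t ^ (-(3 / 4) + 1 : ℝ) / (-(3 / 4) + 1) = 4 * t ^ (-(3 / 4) + 1 : ℝ) := by ring
        rw [e5]
        linarith
      rw [e3]
      have hE := (Real.exp_pos (t / a ^ 4)).le
      have := mul_le_mul_of_nonneg_left (add_le_add_right e4 (1 / 4)) (mul_nonneg hB hE)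
      linarith
    · refine (ae_restrict_iff' measurableSet_Ioo).2 (Eventually.of_forall fun s hs => ?_)
      have h1 : 0 < s := hs.1
      have h2 : 0 < t - s := sub_pos.2 hs.2
      positivity

/-- Singular Gronwall iteration. -/
theorem gronwall_iter {T' C E₀ : ℝ} (hT : 0 < T') (hC : 0 < C) {e : ℕ → ℝ → ℝ≥0∞}
    (h0 : ∀ s ∈ Ioc 0 T', e 0 s ≤ ENNReal.ofReal E₀)
    (h : ∀ ε > 0, ∃ D : ℝ, 0 ≤ D ∧ ∀ n, ∀ t ∈ Ioc 0 T', e (n + 1) t ≤ ∫⁻ s in Ioo 0 t,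
      ENNReal.ofReal (C / √(t - s) * (1 + ε / √s + D + 1 / √(√s))) * e n s) :
    ∀ t ∈ Ioc 0 T', Tendsto (fun n => e n t) atTop (𝓝 0) := by
  obtain ⟨D, hD, hrec⟩ := h (1 / (32 * C)) (by positivity)
  obtain ⟨Q, hQ⟩ : ∃ Q, Q = C * (1 + D + 1 / (4 * (1 / (32 * C)))) * T' ^ (1 / 4 : ℝ) := ⟨_, rfl⟩
  have hQ0 : 0 < Q := by rw [hQ]; positivity
  obtain ⟨a, ha⟩ : ∃ a, a = 1 / (16 * Q) := ⟨_, rfl⟩
  have ha0 : 0 < a := by rw [ha]; positivity
  have hsmall : 16 * (C * (1 + D + 1 / (4 * (1 / (32 * C)))) * a * T' ^ (1 / 4 : ℝ)) ≤ 1 := by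
    have e1 : 16 * (C * (1 + D + 1 / (4 * (1 / (32 * C)))) * a * T' ^ (1 / 4 : ℝ)) = 16 * Q * a := by
      rw [hQ]; ring
    rw [e1, ha]
    exact le_of_eq (by field_simp)
  have key : ∀ n, ∀ t ∈ Ioc 0 T',
      e n t ≤ ENNReal.ofReal (|E₀| * (1 / 2) ^ n * Real.exp (t / a ^ 4)) := by
    intro n
    induction n with
    | zero =>
      intro t ht
      refine (h0 t ht).trans (ENNReal.ofReal_le_ofReal ?_)
      have h1 : 1 ≤ Real.exp (t / a ^ 4) := Real.one_le_exp (by have := ht.1; positivity)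
      have h2 := le_abs_self E₀
      have h3 := mul_le_mul_of_nonneg_left h1 (abs_nonneg E₀)
      rw [pow_zero]
      linarith
    | succ n ih =>
      intro t ht
      refine (hrec n t ht).trans ?_
      refine le_trans (setLIntegral_mono' measurableSet_Ioo fun s hs =>
        mul_le_mul_right (ih s ⟨hs.1, hs.2.le.trans ht.2⟩) _) ?_
      refine (Gron_int hC hD ha0 (by positivity) ht.1 ht.2 hsmall).trans (le_of_eq ?_)
      congr 1
      ring
  intro t ht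
  have hlim : Tendsto (fun n : ℕ => ENNReal.ofReal (|E₀| * (1 / 2) ^ n * Real.exp (t / a ^ 4)))
      atTop (𝓝 0) := by
    have h1 : Tendsto (fun n : ℕ => |E₀| * (1 / 2 : ℝ) ^ n * Real.exp (t / a ^ 4)) atTop
        (𝓝 (|E₀| * 0 * Real.exp (t / a ^ 4))) :=
      ((tendsto_pow_atTop_nhds_zero_of_lt_one (by norm_num) (by norm_num)).const_mul _).mul_const _
    have h2 := ENNReal.tendsto_ofReal h1
    simpa using h2
  exact tendsto_of_tendsto_of_tendsto_of_le_of_le tendsto_const_nhds hlim (fun _ => zero_le)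
    fun n => key n t ht

end Pool.Agent.Lib.MP_3d41d4_an
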