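import Pool.Agent.Lib.MP_3d41d4_an.EDefs
import Pool.Agent.Lib.MP_3d41d4_an.Gron

open MeasureTheory Set Filter Topology Real
open scoped ENNReal

namespace Pool.Agent.Lib.MP_3d41d4_an

theorem tw_nonneg (t s : ℝ) : 0 ≤ tw t s := by
  unfold tw
  positivity

theorem tw_meas (t : ℝ) : Measurable (tw t) := by
  unfold tw
  fun_prop

theorem ETime_q {ε s : ℝ} (hε : 0 < ε) (hs : 0 < s) : 1 / √(√s) ≤ ε / √s + 1 / (4 * ε) := by
  have hx := Real.sqrt_pos.2 hs
  have hw := Real.sqrt_pos.2 hx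
  have h2 := Real.sq_sqrt hx.le
  generalize √(√s) = w at hw h2 ⊢
  rw [← h2, div_add_div _ _ (by positivity) (by positivity), div_le_div_iff₀ hw (by positivity)]
  nlinarith [mul_nonneg hw.le (sq_nonneg (2 * ε - w))]

theorem ETime_pt {ε t s : ℝ} (hε : 0 < ε) (hs : s ∈ Ioo 0 t) :
    tw t s ≤ (1 + 1 / (4 * ε) + ε / √t) * (1 / √(t - s)) + ε / √t * (1 / √s) := by
  have hts : 0 < t - s := sub_pos.2 hs.2
  have hx := Real.sqrt_pos.2 hs.1
  have hy := Real.sqrt_pos.2 hts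
  have hq : √t ≤ √s + √(t - s) := by
    rw [Real.sqrt_le_left (by positivity)]
    nlinarith [mul_pos hx hy, Real.sq_sqrt hs.1.le, Real.sq_sqrt hts.le]
  have h2 : 1 / √(t - s) * (1 / √s) ≤ 1 / √t * (1 / √s + 1 / √(t - s)) := by
    have e1 : 1 / √(t - s) * (1 / √s) = 1 / (√s + √(t - s)) * (1 / √s + 1 / √(t - s)) := by
      field_simp
      ring
    rw [e1]
    exact mul_le_mul_of_nonneg_right
      (one_div_le_one_div_of_le (Real.sqrt_pos.2 (hs.1.trans hs.2)) hq) (by positivity)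
  calc tw t s ≤ 1 / √(t - s) * (1 + (ε / √s + 1 / (4 * ε))) := by
        unfold tw
        gcongr
        exact ETime_q hε hs.1
    _ = (1 + 1 / (4 * ε)) * (1 / √(t - s)) + ε * (1 / √(t - s) * (1 / √s)) := by ring
    _ ≤ (1 + 1 / (4 * ε)) * (1 / √(t - s)) + ε * (1 / √t * (1 / √s + 1 / √(t - s))) := by gcongr
    _ = _ := by ring

theorem tw_int : ∃ C : ℝ, 0 < C ∧ ∀ t : ℝ, 0 < t →
    IntegrableOn (tw t) (Ioo 0 t) ∧ ∫ s in Ioo 0 t, tw t s ≤ C * (√t + √(√t)) := by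
  refine ⟨5, by norm_num, fun t ht => ?_⟩
  have hx := Real.sqrt_pos.2 ht
  have hε := Real.sqrt_pos.2 hx
  have h2 := Real.sq_sqrt hx.le
  have i1 := (integrableOn_inv_sqrt t).const_mul (√(√t) / √t)
  have i2 := ((intervalIntegrable_iff_integrableOn_Ioo_of_le ht.le).1
    (Gauss2_ii_sub ht.le)).const_mul (1 + 1 / (4 * √(√t)) + √(√t) / √t)
  have j1 : ∫ s in Ioo 0 t, 1 / √s = 2 * √t := by
    rw [← integral_Ioc_eq_integral_Ioo, ← intervalIntegral.integral_of_le ht.le, Gauss2_int ht.le]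
  have j2 : ∫ s in Ioo 0 t, 1 / √(t - s) = 2 * √t := by
    rw [← integral_Ioc_eq_integral_Ioo, ← intervalIntegral.integral_of_le ht.le,
      intervalIntegral.integral_comp_sub_left (fun s => 1 / √s), sub_self, sub_zero,
      Gauss2_int ht.le]
  have i3 : IntegrableOn (tw t) (Ioo 0 t) :=
    (i2.add i1).mono' (tw_meas t).aestronglyMeasurable
      ((ae_restrict_iff' measurableSet_Ioo).2 (Eventually.of_forall fun s hs =>
        (Real.norm_of_nonneg (tw_nonneg t s)).trans_le (ETime_pt hε hs)))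
  refine ⟨i3, (setIntegral_mono_on i3 (i2.add i1) measurableSet_Ioo
    fun s hs => ETime_pt hε hs).trans ?_⟩
  simp only [Pi.add_apply]
  rw [integral_add i2 i1, integral_const_mul, integral_const_mul, j1, j2]
  generalize √(√t) = w at hε h2 ⊢
  rw [← h2]
  have e : (1 + 1 / (4 * w) + w / w ^ 2) * (2 * w ^ 2) + w / w ^ 2 * (2 * w ^ 2) =
      2 * w ^ 2 + 9 / 2 * w := by
    field_simp
    ring
  rw [e]
  nlinarith

/-- Exponential weights make the Duhamel term contractive. -/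
theorem tw_exp {C T : ℝ} (hC : 0 < C) (hT : 0 < T) : ∃ l : ℝ, 0 ≤ l ∧ ∀ t ∈ Ioc 0 T,
    IntegrableOn (fun s => tw t s * Real.exp (l * s)) (Ioo 0 t) ∧
      C * ∫ s in Ioo 0 t, tw t s * Real.exp (l * s) ≤ Real.exp (l * t) / 2 := by
  obtain ⟨a, ha, h⟩ : ∃ a : ℝ, 0 < a ∧
      16 * (C * (1 + 0 + 1 / (4 * (1 / (32 * C)))) * a * T ^ (1 / 4 : ℝ)) ≤ 1 :=
    ⟨1 / (16 * (C * (1 + 0 + 1 / (4 * (1 / (32 * C)))) * T ^ (1 / 4 : ℝ))), by positivity,
      le_of_eq (by field_simp)⟩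
  refine ⟨1 / a ^ 4, by positivity, fun t ht => ?_⟩
  obtain ⟨_, -, hi⟩ := tw_int
  have i1 : IntegrableOn (fun s => tw t s * Real.exp (1 / a ^ 4 * s)) (Ioo 0 t) :=
    (hi t ht.1).1.mul_continuousOn_of_subset (by fun_prop) measurableSet_Ioo isCompact_Icc
      Ioo_subset_Icc_self
  refine ⟨i1, ?_⟩
  rw [← integral_const_mul, ← ENNReal.ofReal_le_ofReal_iff (by positivity),
    ofReal_integral_eq_lintegral_ofReal (i1.const_mul C) (Eventually.of_forall fun s =>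
      mul_nonneg hC.le (mul_nonneg (tw_nonneg t s) (Real.exp_pos _).le))]
  refine le_trans (lintegral_mono fun s => ?_) ((Gron_int hC le_rfl ha zero_le_one ht.1 ht.2 h).trans
    (le_of_eq ?_))
  · rw [← ENNReal.ofReal_mul (by positivity), one_mul, one_div_mul_eq_div, ← mul_assoc, tw,
      ← mul_assoc, mul_one_div, add_zero]
    gcongr
    exact le_add_of_nonneg_right (by positivity)
  · rw [one_div_mul_eq_div, one_div_mul_eq_div]

/-- Removing the viscosity from the weights. -/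
theorem tw_nu {ν : ℝ} (hν : 0 < ν) : ∃ C : ℝ, 0 < C ∧ (∀ s : ℝ, 0 < s →
    1 + 1 / √(√(2 * (ν * s))) ≤ C * (1 + 1 / √(√s))) ∧ ∀ a τ : ℝ, 0 < τ → ν * τ ≤ a →
      1 / √a ≤ C * (1 / √τ) := by
  have h1 := Real.sqrt_pos.2 hν
  have h2 : 0 < √(√(2 * ν)) := by positivity
  have h3 := one_div_pos.2 h1
  have h4 := one_div_pos.2 h2
  refine ⟨1 + 1 / √(√(2 * ν)) + 1 / √ν, by positivity, fun s hs => ?_, fun a τ hτ h => ?_⟩
  · have h5 : 0 < 1 / √(√s) := by positivity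
    rw [← mul_assoc, Real.sqrt_mul (by positivity), Real.sqrt_mul (by positivity),
      ← one_div_mul_one_div]
    nlinarith [mul_pos h3 h5]
  · have h5 : 0 < 1 / √τ := by positivity
    refine (one_div_le_one_div_of_le (by positivity) (Real.sqrt_le_sqrt h)).trans ?_
    rw [Real.sqrt_mul hν.le, ← one_div_mul_one_div]
    nlinarith [mul_pos h4 h5]

/-- The weight inside the cone. -/
theorem tw_cone {ν : ℝ} (hν : 0 < ν) : ∃ C : ℝ, 0 < C ∧ ∀ T₀ b σ : ℝ, 0 ≤ T₀ → 0 < b →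
    σ ∈ Ioo (0 : ℝ) 1 →
      b * (1 / √(ν * ((1 - σ) * b))) * (1 + 1 / √(√(2 * (ν * (T₀ + σ * b)))))
        ≤ C * (√b + √(√b)) * tw 1 σ := by
  obtain ⟨C, hC, h1, h2⟩ := tw_nu hν
  refine ⟨C * C, by positivity, fun T₀ b σ hT hb hσ => ?_⟩
  have s0 := hσ.1
  have s1 := sub_pos.2 hσ.2
  have h3 : 1 / √(√(T₀ + σ * b)) ≤ 1 / √(√(σ * b)) :=
    one_div_le_one_div_of_le (by positivity)
      (Real.sqrt_le_sqrt (Real.sqrt_le_sqrt (le_add_of_nonneg_left hT)))
  have h4 := (h1 (T₀ + σ * b) (by positivity)).trans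
    (mul_le_mul_of_nonneg_left (add_le_add_right h3 1) hC.le)
  refine (mul_le_mul (mul_le_mul_of_nonneg_left (h2 _ ((1 - σ) * b) (by positivity) le_rfl) hb.le)
    h4 (by positivity) (by positivity)).trans ?_
  rw [tw, Real.sqrt_mul s1.le, Real.sqrt_mul s0.le, Real.sqrt_mul (Real.sqrt_nonneg σ)]
  have hx := Real.sqrt_pos.2 hb
  have hw := Real.sqrt_pos.2 hx
  have e1 := Real.sq_sqrt hb.le
  have e2 := Real.sq_sqrt hx.le
  have hy := Real.sqrt_pos.2 s1
  have hz : 0 < √(√σ) := by positivity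
  generalize √(√b) = w at hw e2 ⊢
  generalize √b = x at hx e1 e2 ⊢
  generalize √(1 - σ) = y at hy ⊢
  generalize √(√σ) = z at hz ⊢
  subst e1 e2
  rw [← sub_nonneg]
  refine le_of_le_of_eq (b := C * C * (1 / y) * (w ^ 2 / z + w)) (by positivity) ?_
  field_simp
  ring

theorem integrableOn_one_add (T : ℝ) : IntegrableOn (fun s => 1 + 1 / √(√s)) (Ioo 0 T) := by
  have i1 : IntegrableOn (fun _ : ℝ => (1 + 1 / (4 * 1) : ℝ)) (Ioo 0 T) :=
    integrableOn_const measure_Ioo_lt_top.ne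
  refine (i1.add (integrableOn_inv_sqrt T)).mono' (Measurable.aestronglyMeasurable (by fun_prop))
    ((ae_restrict_iff' measurableSet_Ioo).2 (Eventually.of_forall fun s hs => ?_))
  have := ETime_q one_pos hs.1
  rw [Real.norm_of_nonneg (by positivity), Pi.add_apply]
  linarith

/-- `1 / √√s ≤ ε / √s + D`. -/
theorem quarter_le {ε : ℝ} (hε : 0 < ε) : ∃ D : ℝ, 0 ≤ D ∧ ∀ s : ℝ, 0 < s →
    1 / √(√s) ≤ ε / √s + D := by
  exact ⟨1 / (4 * ε), by positivity, fun s hs => ETime_q hε hs⟩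

end Pool.Agent.Lib.MP_3d41d4_an
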