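import Pool.Agent.Lib.MP_3d41d4_an.ECone1
import Pool.Agent.Lib.MP_3d41d4_an.EDv2
import Pool.Agent.Lib.MP_3d41d4_an.ETime

open MeasureTheory Set Filter Topology Real
open scoped ENNReal

namespace Pool.Agent.Lib.MP_3d41d4_an

variable {ν T₀ δ A A' M : ℝ} {φ : ℝ → ℝ} {W W' : C3 → ℂ}

/-- The fluxes are continuous in `(σ, w)` on `(0, 1) × ℝ²` (composition of functions continuous
on the cone with `cpt`). -/
theorem cF_contOn (hν : 0 < ν) (hT₀ : 0 ≤ T₀) (hφ : Continuous φ) (hM : ∀ x, |φ x| ≤ M)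
    (h : CH ν T₀ δ A φ W) (h' : CH ν T₀ δ A' φ W') {p : C3} (hp : p ∈ cone ν T₀ δ) :
    ContinuousOn (fun q : ℝ × ℝ × ℝ => Uc1 W (cpt T₀ q.1 p q.2) * W' (cpt T₀ q.1 p q.2))
      (Ioo 0 1 ×ˢ univ) ∧
    ContinuousOn (fun q : ℝ × ℝ × ℝ => Uc2 W (cpt T₀ q.1 p q.2) * W' (cpt T₀ q.1 p q.2))
      (Ioo 0 1 ×ˢ univ) := by
  have hc : Continuous fun q : ℝ × ℝ × ℝ => cpt T₀ q.1 p q.2 := by unfold cpt; fun_prop
  have hm : MapsTo (fun q : ℝ × ℝ × ℝ => cpt T₀ q.1 p q.2) (Ioo 0 1 ×ˢ univ) (cone ν T₀ δ) :=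
    fun q hq => cpt_mem_cone hν hp hq.1 q.2
  obtain ⟨d₁, d₂⟩ := h.Uc_diff hν hT₀ hφ hM
  exact ⟨(d₁.continuousOn.mul h'.diff.continuousOn).comp hc.continuousOn hm,
    (d₂.continuousOn.mul h'.diff.continuousOn).comp hc.continuousOn hm⟩

/-- `AEStronglyMeasurable.integral_prod_right'` on `(volume.restrict (Ioo 0 1)).prod volume`. -/
theorem cI_meas (hν : 0 < ν) (hT₀ : 0 ≤ T₀) (hφ : Continuous φ) (hM : ∀ x, |φ x| ≤ M)
    (h : CH ν T₀ δ A φ W) (h' : CH ν T₀ δ A' φ W') {p : C3} (hp : p ∈ cone ν T₀ δ) :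
    AEStronglyMeasurable (cI ν T₀ W W' p) (volume.restrict (Ioo 0 1)) := by
  obtain ⟨c₁, c₂⟩ := cF_contOn hν hT₀ hφ hM h h' hp
  have key {F : ℝ × ℝ × ℝ → ℂ} (hF : ContinuousOn F (Ioo 0 1 ×ˢ univ)) :
      AEStronglyMeasurable F ((volume.restrict (Ioo 0 1)).prod volume) := by
    rw [← Measure.restrict_univ (μ := (volume : Measure (ℝ × ℝ))), Measure.prod_restrict]
    exact hF.aestronglyMeasurable (measurableSet_Ioo.prod .univ)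
  refine AEStronglyMeasurable.const_mul (AEStronglyMeasurable.integral_prod_right'
    (f := fun q : ℝ × ℝ × ℝ => Gcx ((ν : ℂ) * ((1 - q.1) * (p.1 - T₀))) ((1 - q.1) * p.2.1 - q.2.1)
      ((1 - q.1) * p.2.2 - q.2.2) * (Uc1 W (cpt T₀ q.1 p q.2) * W' (cpt T₀ q.1 p q.2)) +
      Gcy ((ν : ℂ) * ((1 - q.1) * (p.1 - T₀))) ((1 - q.1) * p.2.1 - q.2.1)
      ((1 - q.1) * p.2.2 - q.2.2) * (Uc2 W (cpt T₀ q.1 p q.2) * W' (cpt T₀ q.1 p q.2)))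
    (((Measurable.aestronglyMeasurable ?_).mul (key c₁)).add
      ((Measurable.aestronglyMeasurable ?_).mul (key c₂)))) _
  · unfold Gcx Gc; fun_prop
  · unfold Gcy Gc; fun_prop

/-- `dvc_bound` with `c = 2 ν (T₀ + σ b)`, `b = p.1.re - T₀`, `x₀ = σ p.2.1.re`,
`y₀ = σ p.2.2.re`; `Uc_bound`, `‖p.1 - T₀‖ ≤ 2 b`, `tw_cone`. -/
theorem cI_bound (hν : 0 < ν) : ∃ C : ℝ, 0 < C ∧ ∀ {T₀ δ A A' M : ℝ} {φ : ℝ → ℝ} {W W' : C3 → ℂ},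
    0 ≤ T₀ → Continuous φ → (∀ x, |φ x| ≤ M) → CH ν T₀ δ A φ W → CH ν T₀ δ A' φ W' →
      ∀ p ∈ cone ν T₀ δ, ∀ σ ∈ Ioo (0 : ℝ) 1,
        ‖cI ν T₀ W W' p σ‖ ≤ C * A * A' * (√(p.1.re - T₀) + √(√(p.1.re - T₀))) * tw 1 σ *
          gm φ (2 * (ν * p.1.re)) p.2.1.re p.2.2.re := by
  obtain ⟨C₁, h₁, H₁⟩ := dvc_bound
  obtain ⟨C₂, h₂, H₂⟩ := Uc_bound
  obtain ⟨C₃, h₃, H₃⟩ := tw_cone hν
  refine ⟨2 * C₁ * C₂ * C₃, by positivity, fun {T₀ δ A A' M φ W W'} hT₀ hφ hM h h' p hp σ hσ => ?_⟩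
  obtain ⟨c₁, c₂⟩ := cF_contOn hν hT₀ hφ hM h h' hp
  set b := p.1.re - T₀ with hb
  have hb0 : 0 < b := sub_pos.2 hp.1
  have hA := h.nonneg
  have hA' := h'.nonneg
  have hσ0 := hσ.1
  have e1 (w) : (cpt T₀ σ p w).1.re = T₀ + σ * b := by simp [cpt, hb]
  have e2 (w) : (cpt T₀ σ p w).2.1.re = σ * p.2.1.re + w.1 := by simp [cpt]
  have e3 (w) : (cpt T₀ σ p w).2.2.re = σ * p.2.2.re + w.2 := by simp [cpt]
  have key {F : ℝ × ℝ × ℝ → ℂ} (hF : ContinuousOn F (Ioo 0 1 ×ˢ univ)) :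
      AEStronglyMeasurable (fun w => F (σ, w)) volume :=
    (hF.comp_continuous (by fun_prop) fun w => ⟨hσ, trivial⟩).aestronglyMeasurable
  have bd {U : ℂ} (w) (hU : ‖U‖ ≤ C₂ * A * (1 + 1 / √(√(2 * (ν * (cpt T₀ σ p w).1.re))))) :
      ‖U * W' (cpt T₀ σ p w)‖ ≤ C₂ * A * (1 + 1 / √(√(2 * (ν * (T₀ + σ * b))))) * A' *
        gm φ (2 * (ν * (T₀ + σ * b))) (σ * p.2.1.re + w.1) (σ * p.2.2.re + w.2) := by
    have h1 := h'.bd _ (cpt_mem_cone hν hp hσ w)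
    rw [e1] at hU
    rw [e1, e2, e3] at h1
    rw [norm_mul, mul_assoc _ A']
    exact mul_le_mul hU h1 (norm_nonneg _) (by positivity)
  have h4 := (H₁ φ hφ _ _ _ (adm_cone hν hp hσ) _ _ _ _ _ _ (by positivity) (by positivity)
    (key c₁) (key c₂) (fun w => bd w (H₂ hν hT₀ hφ h _ (cpt_mem_cone hν hp hσ w)).1)
    fun w => bd w (H₂ hν hT₀ hφ h _ (cpt_mem_cone hν hp hσ w)).2).2.2
  rw [show ((ν : ℂ) * ((1 - σ) * (p.1 - T₀))).re = ν * ((1 - σ) * b) by simp [hb],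
    show 2 * (ν * ((1 - σ) * b)) + 2 * (ν * (T₀ + σ * b)) = 2 * (ν * p.1.re) by rw [hb]; ring,
    show σ * p.2.1.re + ((1 - σ : ℂ) * p.2.1).re = p.2.1.re by simp; ring,
    show σ * p.2.2.re + ((1 - σ : ℂ) * p.2.2).re = p.2.2.re by simp; ring] at h4
  have h5 : ‖p.1 - T₀‖ ≤ 2 * b := by
    have h6 := Complex.norm_le_abs_re_add_abs_im (p.1 - T₀)
    have h7 := hp.2.2.1
    rw [show (p.1 - T₀).re = b by simp [hb], show (p.1 - T₀).im = p.1.im by simp,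
      abs_of_pos hb0] at h6
    linarith [abs_nonneg p.1.im]
  have hg := gm_nonneg φ (a := 2 * (ν * p.1.re)) (by
    have := hT₀.trans_lt hp.1
    positivity) p.2.1.re p.2.2.re
  rw [cI, norm_mul]
  calc _ ≤ _ := mul_le_mul h5 h4 (norm_nonneg _) (by positivity)
    _ = 2 * C₁ * C₂ * A * A' * (b * (1 / √(ν * ((1 - σ) * b))) *
        (1 + 1 / √(√(2 * (ν * (T₀ + σ * b)))))) * gm φ (2 * (ν * p.1.re)) p.2.1.re p.2.2.re := by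
      ring
    _ ≤ 2 * C₁ * C₂ * A * A' * (C₃ * (√b + √(√b)) * tw 1 σ) *
        gm φ (2 * (ν * p.1.re)) p.2.1.re p.2.2.re :=
      mul_le_mul_of_nonneg_right (mul_le_mul_of_nonneg_left (H₃ T₀ b σ hT₀ hb0 hσ)
        (by positivity)) hg
    _ = _ := by ring

theorem cB_bound (hν : 0 < ν) : ∃ C : ℝ, 0 < C ∧ ∀ {T₀ δ A A' M : ℝ} {φ : ℝ → ℝ} {W W' : C3 → ℂ},
    0 ≤ T₀ → Continuous φ → (∀ x, |φ x| ≤ M) → CH ν T₀ δ A φ W → CH ν T₀ δ A' φ W' →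
      ∀ p ∈ cone ν T₀ δ, IntegrableOn (cI ν T₀ W W' p) (Ioo 0 1) ∧
        ‖cB ν T₀ W W' p‖ ≤ C * A * A' * (√δ + √(√δ)) *
          gm φ (2 * (ν * p.1.re)) p.2.1.re p.2.2.re := by
  obtain ⟨C₁, h₁, H₁⟩ := cI_bound hν
  obtain ⟨C₂, h₂, H₂⟩ := tw_int
  obtain ⟨i₁, i₂⟩ := H₂ 1 one_pos
  refine ⟨2 * C₁ * C₂, by positivity, fun {T₀ δ A A' M φ W W'} hT₀ hφ hM h h' p hp => ?_⟩
  have hA := h.nonneg
  have hA' := h'.nonneg
  have hg := gm_nonneg φ (a := 2 * (ν * p.1.re)) (by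
    have := hT₀.trans_lt hp.1
    positivity) p.2.1.re p.2.2.re
  have i₃ := (i₁.const_mul (C₁ * A * A' * (√(p.1.re - T₀) + √(√(p.1.re - T₀))))).mul_const
    (gm φ (2 * (ν * p.1.re)) p.2.1.re p.2.2.re)
  have hb := (ae_restrict_mem (μ := volume) measurableSet_Ioo).mono (H₁ hT₀ hφ hM h h' p hp)
  refine ⟨i₃.mono' (cI_meas hν hT₀ hφ hM h h' hp) hb,
    (norm_integral_le_of_norm_le i₃ hb).trans ?_⟩
  have h3 : p.1.re - T₀ ≤ δ := by linarith [hp.2.1]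
  rw [integral_mul_const, integral_const_mul]
  simp only [Real.sqrt_one] at i₂
  calc _ ≤ C₁ * A * A' * (√δ + √(√δ)) * (C₂ * (1 + 1)) *
        gm φ (2 * (ν * p.1.re)) p.2.1.re p.2.2.re := by
        gcongr
        exact integral_nonneg fun s => tw_nonneg 1 s
    _ = _ := by ring

end Pool.Agent.Lib.MP_3d41d4_an
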