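import Pool.Agent.Lib.MP_3d41d4_an.ECone2

open MeasureTheory Set Filter Topology Real
open scoped ENNReal

namespace Pool.Agent.Lib.MP_3d41d4_an

variable {ν T₀ δ A A' M : ℝ} {φ : ℝ → ℝ} {W W' : C3 → ℂ}

/-- Holomorphy of `dvc` with holomorphic, locally bounded fluxes. Sketch: `hol_integral`,
`ker_diffAt`, `ker_bound`, `G_loc`, `integrable_gauss2`. -/
theorem dvc_diff {D : Set C3} (hD : IsOpen D) {a X Y : C3 → ℂ} (ha : Differentiable ℂ a)
    (hX : Differentiable ℂ X) (hY : Differentiable ℂ Y) (hadm : ∀ p ∈ D, adm (a p) (X p) (Y p))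
    {F₁ F₂ : C3 → ℝ × ℝ → ℂ} (m₁ : ∀ p ∈ D, AEStronglyMeasurable (F₁ p) volume)
    (m₂ : ∀ p ∈ D, AEStronglyMeasurable (F₂ p) volume)
    (d₁ : ∀ w, DifferentiableOn ℂ (fun p => F₁ p w) D)
    (d₂ : ∀ w, DifferentiableOn ℂ (fun p => F₂ p w) D)
    (hb : ∀ p₀ ∈ D, ∃ ε > 0, ∃ B : ℝ, ∀ p ∈ D, dist p p₀ < ε → ∀ w, ‖F₁ p w‖ ≤ B ∧ ‖F₂ p w‖ ≤ B) :
    DifferentiableOn ℂ (fun p => dvc (a p) (X p) (Y p) (F₁ p) (F₂ p)) D := by
  obtain ⟨C, hC, hk⟩ := ker_bound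
  refine hol_integral hD (F := fun p (w : ℝ × ℝ) => Gcx (a p) (X p - w.1) (Y p - w.2) * F₁ p w +
    Gcy (a p) (X p - w.1) (Y p - w.2) * F₂ p w) (fun p hp => ?_) (ae_of_all _ fun w p hp => ?_)
    fun p₀ hp₀ => ?_
  · obtain ⟨-, h1, h2⟩ := ker_meas (Λ := ℝ × ℝ) (a := fun _ => a p) (X := fun w => X p - w.1)
      (Y := fun w => Y p - w.2) measurable_const (by fun_prop) (by fun_prop)
    exact (h1.aestronglyMeasurable.mul (m₁ p hp)).add (h2.aestronglyMeasurable.mul (m₂ p hp))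
  · have h0 : a p ≠ 0 := fun h => (hadm p hp).1.ne' (by rw [h, Complex.zero_re])
    obtain ⟨-, h1, h2⟩ := ker_diffAt (X := fun q => X q - w.1) (Y := fun q => Y q - w.2) (ha p)
      ((hX p).sub_const _) ((hY p).sub_const _) h0
    exact (h1.differentiableWithinAt.mul (d₁ w p hp)).add
      (h2.differentiableWithinAt.mul (d₂ w p hp))
  obtain ⟨ε, hε, B, hB⟩ := hb p₀ hp₀
  have h0 := (hadm p₀ hp₀).1
  obtain ⟨K, c, hK, hc, hG⟩ := G_loc h0 (4 * (a p₀).re) (|(X p₀).re| + |(Y p₀).re| + 1)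
  have c1 : Continuous fun p => (a p).re := Complex.continuous_re.comp ha.continuous
  have c2 : Continuous fun p => |(X p).re| := (Complex.continuous_re.comp hX.continuous).abs
  have c3 : Continuous fun p => |(Y p).re| := (Complex.continuous_re.comp hY.continuous).abs
  have e1 := c1.continuousAt.eventually_mem
    (Icc_mem_nhds (half_lt_self h0) (show (a p₀).re < 2 * (a p₀).re by linarith))
  have e2 := c2.continuousAt.eventually_le_const
    (show |(X p₀).re| < |(X p₀).re| + |(Y p₀).re| + 1 by linarith [abs_nonneg (Y p₀).re])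
  have e3 := c3.continuousAt.eventually_le_const
    (show |(Y p₀).re| < |(X p₀).re| + |(Y p₀).re| + 1 by linarith [abs_nonneg (X p₀).re])
  obtain ⟨ε', hε', h4⟩ := Metric.eventually_nhds_iff.1 (e1.and (e2.and e3))
  refine ⟨min ε ε', lt_min hε hε', fun w => 2 * (C / √((a p₀).re / 2) * K * B) *
    (Real.exp (-(c * w.1 ^ 2)) * Real.exp (-(c * w.2 ^ 2))), (integrable_gauss2 hc).const_mul _,
    ae_of_all _ fun w p hp hd => ?_⟩
  obtain ⟨h5, h6, h7⟩ := h4 (hd.trans_le (min_le_right _ _))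
  obtain ⟨h8, h9⟩ := hB p hp (hd.trans_le (min_le_left _ _)) w
  obtain ⟨-, k1, k2⟩ := hk _ _ _ ((hadm p hp).sub_ofReal w.1 w.2)
  have k3 : C / √(a p).re * G (2 * (a p).re) (X p - w.1).re (Y p - w.2).re ≤
      C / √((a p₀).re / 2) * (K * (Real.exp (-(c * w.1 ^ 2)) * Real.exp (-(c * w.2 ^ 2)))) := by
    rw [Complex.sub_re, Complex.sub_re, Complex.ofReal_re, Complex.ofReal_re]
    have k4 := hG (2 * (a p).re) ⟨by linarith [h5.1], by linarith [h5.2]⟩ _ _ h6 h7 w.1 w.2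
    have k5 : 0 ≤ G (2 * (a p).re) ((X p).re - w.1) ((Y p).re - w.2) := by
      have := (hadm p hp).1
      unfold G
      positivity
    exact mul_le_mul (div_le_div_of_nonneg_left hC.le (by positivity) (Real.sqrt_le_sqrt h5.1))
      k4 k5 (by positivity)
  refine (norm_add_le _ _).trans ?_
  rw [norm_mul, norm_mul]
  refine (add_le_add (mul_le_mul (k1.trans k3) h8 (norm_nonneg _) (by positivity))
    (mul_le_mul (k2.trans k3) h9 (norm_nonneg _) (by positivity))).trans_eq ?_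
  ring

/-- `dvc_diff`; the fluxes are bounded by `Uc_bound`, `CH.bd`, `gm_le`. -/
theorem cI_diff (hν : 0 < ν) (hT₀ : 0 ≤ T₀) (hφ : Continuous φ) (hM : ∀ x, |φ x| ≤ M)
    (h : CH ν T₀ δ A φ W) (h' : CH ν T₀ δ A' φ W') {σ : ℝ} (hσ : σ ∈ Ioo (0 : ℝ) 1) :
    DifferentiableOn ℂ (fun p => cI ν T₀ W W' p σ) (cone ν T₀ δ) := by
  obtain ⟨C, hC, hU⟩ := Uc_bound
  obtain ⟨u1, u2⟩ := h.Uc_diff hν hT₀ hφ hM
  have hc : ∀ w, Differentiable ℂ fun p => cpt T₀ σ p w := fun w => by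
    unfold cpt
    fun_prop
  have hm : ∀ w, MapsTo (fun p => cpt T₀ σ p w) (cone ν T₀ δ) (cone ν T₀ δ) := fun w p hp =>
    cpt_mem_cone hν hp hσ w
  have hw : Continuous fun w : ℝ × ℝ => (σ, w) := by fun_prop
  refine DifferentiableOn.mul (by fun_prop) (dvc_diff (cone_open ν T₀ δ) (by fun_prop)
    (by fun_prop) (by fun_prop) (fun p hp => adm_cone hν hp hσ)
    (fun p hp => (((cF_contOn hν hT₀ hφ hM h h' hp).1.comp_continuous hw
      fun w => ⟨hσ, mem_univ _⟩).aestronglyMeasurable))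
    (fun p hp => (((cF_contOn hν hT₀ hφ hM h h' hp).2.comp_continuous hw
      fun w => ⟨hσ, mem_univ _⟩).aestronglyMeasurable))
    (fun w => (u1.comp (hc w).differentiableOn (hm w)).mul
      (h'.diff.comp (hc w).differentiableOn (hm w)))
    (fun w => (u2.comp (hc w).differentiableOn (hm w)).mul
      (h'.diff.comp (hc w).differentiableOn (hm w))) fun p₀ hp₀ => ?_)
  have h0 : 0 < p₀.1.re - T₀ := sub_pos.2 hp₀.1
  have c1 : Continuous fun p : C3 => p.1.re - T₀ := by fun_prop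
  obtain ⟨ε, hε, h1⟩ := Metric.eventually_nhds_iff.1
    (c1.continuousAt.eventually_const_le (half_lt_self h0))
  obtain ⟨s, hs⟩ : ∃ s, s = 2 * (ν * (σ * ((p₀.1.re - T₀) / 2))) := ⟨_, rfl⟩
  have h2 : 0 < s := by
    have := hσ.1
    rw [hs]
    positivity
  refine ⟨ε, hε, C * A * (1 + 1 / √(√s)) * (A' * (1 / √s)), fun p hp hd w => ?_⟩
  have h3 : s ≤ 2 * (ν * (cpt T₀ σ p w).1.re) := by
    have e : (cpt T₀ σ p w).1.re = T₀ + σ * (p.1.re - T₀) := by simp [cpt]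
    rw [hs, e]
    have := mul_le_mul_of_nonneg_left (h1 hd) hσ.1.le
    gcongr
    linarith
  have hA := h.nonneg
  have hA' := h'.nonneg
  have h4 : C * A * (1 + 1 / √(√(2 * (ν * (cpt T₀ σ p w).1.re)))) ≤ C * A * (1 + 1 / √(√s)) := by
    gcongr
  have h5 : ‖W' (cpt T₀ σ p w)‖ ≤ A' * (1 / √s) := by
    refine (h'.bd _ (hm w hp)).trans (mul_le_mul_of_nonneg_left
      ((gm_le hφ (h2.trans_le h3) _ _).trans ?_) hA')
    gcongr
  obtain ⟨h6, h7⟩ := hU hν hT₀ hφ h _ (hm w hp)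
  rw [norm_mul, norm_mul]
  exact ⟨mul_le_mul (h6.trans h4) h5 (norm_nonneg _) (by positivity),
    mul_le_mul (h7.trans h4) h5 (norm_nonneg _) (by positivity)⟩

/-- `hol_integral` with the bound `cI_bound` (`gm_le`, `tw_int` at `t = 1`). -/
theorem cB_diff (hν : 0 < ν) (hT₀ : 0 ≤ T₀) (hφ : Continuous φ) (hM : ∀ x, |φ x| ≤ M)
    (h : CH ν T₀ δ A φ W) (h' : CH ν T₀ δ A' φ W') :
    DifferentiableOn ℂ (cB ν T₀ W W') (cone ν T₀ δ) := by
  obtain ⟨C, hC, hI⟩ := cI_bound hν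
  obtain ⟨C', -, ht⟩ := tw_int
  refine hol_integral (cone_open ν T₀ δ) (fun p hp => cI_meas hν hT₀ hφ hM h h' hp)
    ((ae_restrict_mem measurableSet_Ioo).mono fun σ hσ => cI_diff hν hT₀ hφ hM h h' hσ)
    fun p₀ hp₀ => ?_
  have h0 : 0 < p₀.1.re := hT₀.trans_lt hp₀.1
  have c1 : Continuous fun p : C3 => p.1.re := by fun_prop
  obtain ⟨ε, hε, h1⟩ := Metric.eventually_nhds_iff.1
    (c1.continuousAt.eventually_const_le (half_lt_self h0))
  refine ⟨ε, hε, fun σ => C * A * A' * (√δ + √(√δ)) * (1 / √(2 * (ν * (p₀.1.re / 2)))) * tw 1 σ,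
    (ht 1 one_pos).1.const_mul _,
    (ae_restrict_mem measurableSet_Ioo).mono fun σ hσ p hp hd => ?_⟩
  have h2 := h1 hd
  have h3 : 0 < p.1.re := hT₀.trans_lt hp.1
  have h4 : p.1.re - T₀ ≤ δ := by linarith [hp.2.1]
  have hA := h.nonneg
  have hA' := h'.nonneg
  have h5 := tw_nonneg 1 σ
  have h6 : gm φ (2 * (ν * p.1.re)) p.2.1.re p.2.2.re ≤ 1 / √(2 * (ν * (p₀.1.re / 2))) := by
    refine (gm_le hφ (by positivity) _ _).trans ?_
    gcongr
  have h7 := gm_nonneg φ (show 0 ≤ 2 * (ν * p.1.re) by positivity) p.2.1.re p.2.2.re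
  refine (hI hT₀ hφ hM h h' p hp σ hσ).trans ?_
  rw [mul_right_comm _ (tw 1 σ)]
  beta_reduce
  gcongr

end Pool.Agent.Lib.MP_3d41d4_an
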