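import Pool.Agent.Lib.MP_3d41d4_an.ECone2

open MeasureTheory Set Filter Topology Real
open scoped ENNReal

namespace Pool.Agent.Lib.MP_3d41d4_an

variable {ν T₀ δ A A' M : ℝ} {φ : ℝ → ℝ} {W W' : C3 → ℂ}

theorem ECone4_int (hν : 0 < ν) (hT₀ : 0 ≤ T₀) (hφ : Continuous φ) (hM : ∀ x, |φ x| ≤ M)
    (h : CH ν T₀ δ A φ W) (h' : CH ν T₀ δ A' φ W') {p : C3} (hp : p ∈ cone ν T₀ δ) {σ : ℝ}
    (hσ : σ ∈ Ioo (0 : ℝ) 1) :
    Integrable (fun w : ℝ × ℝ => Gcx ((ν : ℂ) * ((1 - σ) * (p.1 - T₀))) ((1 - σ) * p.2.1 - w.1)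
        ((1 - σ) * p.2.2 - w.2) * (Uc1 W (cpt T₀ σ p w) * W' (cpt T₀ σ p w)) +
      Gcy ((ν : ℂ) * ((1 - σ) * (p.1 - T₀))) ((1 - σ) * p.2.1 - w.1)
        ((1 - σ) * p.2.2 - w.2) * (Uc2 W (cpt T₀ σ p w) * W' (cpt T₀ σ p w))) := by
  obtain ⟨C, -, hC⟩ := dvc_bound
  obtain ⟨D, hD0, hD⟩ := Uc_bound
  have hc := cF_contOn hν hT₀ hφ hM h h' hp
  have hi : Continuous fun w : ℝ × ℝ => (σ, w) := continuous_const.prodMk continuous_id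
  have hm : ∀ w : ℝ × ℝ, (σ, w) ∈ Ioo (0 : ℝ) 1 ×ˢ (univ : Set (ℝ × ℝ)) := fun w => ⟨hσ, trivial⟩
  have c1 := hc.1.comp_continuous hi hm
  have c2 := hc.2.comp_continuous hi hm
  have e1 : ∀ w : ℝ × ℝ, (cpt T₀ σ p w).1.re = T₀ + σ * (p.1.re - T₀) := fun w => by simp [cpt]
  have e2 : ∀ w : ℝ × ℝ, (cpt T₀ σ p w).2.1.re = σ * p.2.1.re + w.1 := fun w => by simp [cpt]
  have e3 : ∀ w : ℝ × ℝ, (cpt T₀ σ p w).2.2.re = σ * p.2.2.re + w.2 := fun w => by simp [cpt]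
  have hs : 0 < T₀ + σ * (p.1.re - T₀) :=
    add_pos_of_nonneg_of_pos hT₀ (mul_pos hσ.1 (sub_pos.2 hp.1))
  have hB : 0 ≤ D * A * (1 + 1 / √(√(2 * (ν * (T₀ + σ * (p.1.re - T₀)))))) :=
    mul_nonneg (mul_nonneg hD0.le h.nonneg) (by positivity)
  have hb : ∀ (w : ℝ × ℝ) (z : ℂ),
      ‖z‖ ≤ D * A * (1 + 1 / √(√(2 * (ν * (cpt T₀ σ p w).1.re)))) →
      ‖z * W' (cpt T₀ σ p w)‖ ≤
        D * A * (1 + 1 / √(√(2 * (ν * (T₀ + σ * (p.1.re - T₀)))))) * A' *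
          gm φ (2 * (ν * (T₀ + σ * (p.1.re - T₀)))) (σ * p.2.1.re + w.1)
            (σ * p.2.2.re + w.2) := fun w z hz => by
    have h1 := h'.bd _ (cpt_mem_cone hν hp hσ w)
    rw [e1, e2, e3] at h1
    rw [e1] at hz
    rw [norm_mul, mul_assoc _ A']
    exact mul_le_mul hz h1 (norm_nonneg _) hB
  obtain ⟨i1, i2, -⟩ := hC φ hφ _ _ _ (adm_cone hν hp hσ) _ _ (σ * p.2.1.re) (σ * p.2.2.re)
    (fun w => Uc1 W (cpt T₀ σ p w) * W' (cpt T₀ σ p w))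
    (fun w => Uc2 W (cpt T₀ σ p w) * W' (cpt T₀ σ p w)) (by positivity)
    (mul_nonneg hB h'.nonneg) c1.aestronglyMeasurable c2.aestronglyMeasurable
    (fun w => hb w _ (hD hν hT₀ hφ h _ (cpt_mem_cone hν hp hσ w)).1)
    (fun w => hb w _ (hD hν hT₀ hφ h _ (cpt_mem_cone hν hp hσ w)).2)
  exact i1.add i2

/-- Bilinear splitting `U W * W - U W' * W' = U (W - W') * W + U W' * (W - W')`
(`Uc_sub`, integrability from `dvc_bound` and `cB_bound`). -/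
theorem cB_sub (hν : 0 < ν) (hT₀ : 0 ≤ T₀) (hφ : Continuous φ) (hM : ∀ x, |φ x| ≤ M) {E : ℝ}
    (h : CH ν T₀ δ A φ W) (h' : CH ν T₀ δ A' φ W') (hE : CH ν T₀ δ E φ fun q => W q - W' q)
    {p : C3} (hp : p ∈ cone ν T₀ δ) :
    cB ν T₀ W W p - cB ν T₀ W' W' p
      = cB ν T₀ (fun q => W q - W' q) W p + cB ν T₀ W' (fun q => W q - W' q) p := by
  obtain ⟨C, -, hC⟩ := cB_bound hν
  rw [cB, cB, cB, cB, ← integral_sub (hC hT₀ hφ hM h h p hp).1 (hC hT₀ hφ hM h' h' p hp).1,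
    ← integral_add (hC hT₀ hφ hM hE h p hp).1 (hC hT₀ hφ hM h' hE p hp).1]
  refine setIntegral_congr_fun measurableSet_Ioo fun σ hσ => ?_
  simp only [cI, dvc]
  rw [← mul_sub, ← mul_add,
    ← integral_sub (ECone4_int hν hT₀ hφ hM h h hp hσ) (ECone4_int hν hT₀ hφ hM h' h' hp hσ),
    ← integral_add (ECone4_int hν hT₀ hφ hM hE h hp hσ) (ECone4_int hν hT₀ hφ hM h' hE hp hσ)]
  refine congrArg _ (integral_congr_ae (Eventually.of_forall fun w => ?_))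
  obtain ⟨u1, u2⟩ := Uc_sub hν hT₀ hφ h h' (cpt_mem_cone hν hp hσ w)
  simp only [u1, u2]
  ring

/-- Sketch: translate `w₁` by `(1 - σ) 2π` (`dvc_shift`), then `CH.per`, `CH.Uc_per`. -/
theorem cB_per (hν : 0 < ν) (h : CH ν T₀ δ A φ W) (h' : CH ν T₀ δ A' φ W') {p : C3}
    (hp : p ∈ cone ν T₀ δ) :
    cB ν T₀ W W' (p.1, p.2.1 + 2 * (π : ℂ), p.2.2) = cB ν T₀ W W' p := by
  refine setIntegral_congr_fun measurableSet_Ioo fun σ hσ => ?_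
  have e : ∀ w : ℝ × ℝ, cpt T₀ σ (p.1, p.2.1 + 2 * (π : ℂ), p.2.2) ((1 - σ) * (2 * π) + w.1, 0 + w.2)
      = ((cpt T₀ σ p w).1, (cpt T₀ σ p w).2.1 + 2 * (π : ℂ), (cpt T₀ σ p w).2.2) := fun w => by
    simp only [cpt, Prod.mk.injEq, true_and]
    push_cast
    exact ⟨by ring, by ring⟩
  have h1 := dvc_shift ((ν : ℂ) * ((1 - σ) * (p.1 - T₀))) ((1 - σ) * p.2.1) ((1 - σ) * p.2.2)
    (fun w => Uc1 W (cpt T₀ σ (p.1, p.2.1 + 2 * (π : ℂ), p.2.2) w) *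
      W' (cpt T₀ σ (p.1, p.2.1 + 2 * (π : ℂ), p.2.2) w))
    (fun w => Uc2 W (cpt T₀ σ (p.1, p.2.1 + 2 * (π : ℂ), p.2.2) w) *
      W' (cpt T₀ σ (p.1, p.2.1 + 2 * (π : ℂ), p.2.2) w)) ((1 - σ) * (2 * π)) 0
  have e1 : (1 - (σ : ℂ)) * p.2.1 + (((1 - σ) * (2 * π) : ℝ) : ℂ) =
      (1 - σ) * (p.2.1 + 2 * (π : ℂ)) := by
    push_cast
    ring
  have f0 : ∀ w : ℝ × ℝ, W' ((cpt T₀ σ p w).1, (cpt T₀ σ p w).2.1 + 2 * (π : ℂ),
      (cpt T₀ σ p w).2.2) = W' (cpt T₀ σ p w) := fun w => h'.per _ (cpt_mem_cone hν hp hσ w)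
  have f1 : ∀ w : ℝ × ℝ, Uc1 W ((cpt T₀ σ p w).1, (cpt T₀ σ p w).2.1 + 2 * (π : ℂ),
      (cpt T₀ σ p w).2.2) = Uc1 W (cpt T₀ σ p w) :=
    fun w => (h.Uc_per (cpt_mem_cone hν hp hσ w)).1
  have f2 : ∀ w : ℝ × ℝ, Uc2 W ((cpt T₀ σ p w).1, (cpt T₀ σ p w).2.1 + 2 * (π : ℂ),
      (cpt T₀ σ p w).2.2) = Uc2 W (cpt T₀ σ p w) :=
    fun w => (h.Uc_per (cpt_mem_cone hν hp hσ w)).2
  simp only [e, f0, f1, f2] at h1
  rw [e1, Complex.ofReal_zero, add_zero] at h1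
  simp only [cI]
  rw [h1]

/-- On real points the cone term is the Duhamel integral over `(T₀, t)`. Sketch: `Uc_real`,
`dvc_shift`, `dvc_ofReal` give `cI = (t - T₀) * duh (ν (t - s)) (f s) x y` at
`s = T₀ + σ (t - T₀)`; then the affine change of variables
(`intervalIntegral.integral_comp_mul_add`, no integrability needed). -/
theorem cB_real {t : ℝ} (ht : T₀ < t) {f : ℝ → ℝ → ℝ → ℝ}
    (hf : ∀ s ∈ Ioo T₀ t, ∀ x y, W (rp s x y) = (f s x y : ℝ)) (x y : ℝ) :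
    cB ν T₀ W W (rp t x y) = ((∫ s in Ioo T₀ t, duh (ν * (t - s)) (f s) x y : ℝ) : ℂ) := by
  have hb : 0 < t - T₀ := sub_pos.2 ht
  have key : ∀ σ ∈ Ioo (0 : ℝ) 1, cI ν T₀ W W (rp t x y) σ =
      (((t - T₀) * duh (ν * (t - ((t - T₀) * σ + T₀))) (f ((t - T₀) * σ + T₀)) x y : ℝ) : ℂ) := by
    intro σ hσ
    obtain ⟨s, hs⟩ : ∃ s, s = (t - T₀) * σ + T₀ := ⟨_, rfl⟩
    have hm : s ∈ Ioo T₀ t := by
      have h1 := mul_pos hb hσ.1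
      have h2 := mul_pos hb (sub_pos.2 hσ.2)
      constructor <;> nlinarith
    have e : ∀ w : ℝ × ℝ, cpt T₀ σ (rp t x y) w = rp s (σ * x + w.1) (σ * y + w.2) := fun w => by
      simp only [cpt, rp, hs, Prod.mk.injEq]
      push_cast
      exact ⟨by ring, rfl, rfl⟩
    have h1 := dvc_shift ((ν * (t - s) : ℝ) : ℂ) ((1 - σ) * x) ((1 - σ) * y)
      (fun w => ((U1 (f s) w.1 w.2 * f s w.1 w.2 : ℝ) : ℂ))
      (fun w => ((U2 (f s) w.1 w.2 * f s w.1 w.2 : ℝ) : ℂ)) (σ * x) (σ * y)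
    have e1 : ∀ z : ℝ, (1 - (σ : ℂ)) * z + ((σ * z : ℝ) : ℂ) = z := fun z => by
      push_cast
      ring
    have e2 : (ν : ℂ) * ((1 - σ) * ((t : ℂ) - T₀)) = ((ν * (t - s) : ℝ) : ℂ) := by
      rw [hs]
      push_cast
      ring
    have h2 := duhc_ofReal (ν * (t - s)) x y (f s)
    rw [duhc, ← e1 x, ← e1 y, ← h1] at h2
    have g1 : ∀ a b, Uc1 W (rp s a b) = (U1 (f s) a b : ℝ) := fun a b => (Uc_real (hf s hm) a b).1
    have g2 : ∀ a b, Uc2 W (rp s a b) = (U2 (f s) a b : ℝ) := fun a b => (Uc_real (hf s hm) a b).2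
    rw [← hs, Complex.ofReal_mul, ← h2, cI]
    simp only [e, g1, g2, hf s hm, Complex.ofReal_mul, Complex.ofReal_sub]
    simp only [rp]
    rw [e2]
    simp only [Complex.ofReal_mul, Complex.ofReal_sub]
  rw [cB, setIntegral_congr_fun measurableSet_Ioo key, integral_complex_ofReal, integral_const_mul,
    ← integral_Ioc_eq_integral_Ioo, ← integral_Ioc_eq_integral_Ioo,
    ← intervalIntegral.integral_of_le zero_le_one, ← intervalIntegral.integral_of_le ht.le,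
    intervalIntegral.mul_integral_comp_mul_add (f := fun s => duh (ν * (t - s)) (f s) x y)]
  simp

end Pool.Agent.Lib.MP_3d41d4_an
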