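import Pool.Agent.Lib.MP_3d41d4_an.EVel

open MeasureTheory Set Filter Topology Real
open scoped ENNReal

namespace Pool.Agent.Lib.MP_3d41d4_an

variable {B : ℝ} {h h₁ h₂ : ℝ → ℝ → ℝ}

theorem EDC1_bd {ε : ℝ} (hε : 0 < ε) : ∃ C : ℝ, 0 ≤ C ∧ ∀ s : ℂ, ε ≤ s.im →
    DifferentiableAt ℂ kc s ∧ ‖kc s‖ ≤ C := by
  have h1 : 0 < 1 - Real.exp (-ε) := sub_pos.2 (Real.exp_lt_one_iff.2 (neg_lt_zero.2 hε))
  refine ⟨2 / (1 - Real.exp (-ε)) / (4 * π), by positivity, fun s hs => ⟨?_, ?_⟩⟩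
  · refine differentiableAt_kc fun e => ?_
    obtain ⟨k, rfl⟩ := (sin_half_eq_zero_iff s).1 e
    simp at hs
    linarith
  · have hq : ‖Complex.exp (2 * Complex.I * (s / 2))‖ ≤ Real.exp (-ε) := by
      have e : 2 * Complex.I * (s / 2) = Complex.I * s := by ring
      rw [Complex.norm_exp, e]
      simpa using hs
    rw [kc, Complex.cot_eq_exp_ratio, norm_div, norm_div, norm_mul, norm_mul, norm_mul,
      Complex.norm_I, one_mul, mul_one, Complex.norm_real, Real.norm_of_nonneg Real.pi_pos.le,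
      Complex.norm_ofNat]
    refine div_le_div_of_nonneg_right ?_ (by positivity)
    refine div_le_div₀ zero_le_two ((norm_add_le _ _).trans ?_) h1 ?_
    · rw [norm_one]
      linarith
    · refine le_trans ?_ (norm_sub_norm_le _ _)
      rw [norm_one]
      linarith

/-- The derivative of the kernel is bounded away from the real axis. Sketch: for
`Im s > 0`, `q = exp (i s)`, `‖q‖ ≤ exp (-ε) < 1` and `kc s = -1 / (4π) - q / (2π (1 - q))`
(`Complex.cot_eq_exp_ratio`), so the derivative is `-i q / (2π (1 - q)²)`. -/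
theorem kc_strip {ε : ℝ} (hε : 0 < ε) : ∃ C : ℝ, ∀ s : ℂ, ε ≤ s.im →
    DifferentiableAt ℂ kc s ∧ ‖kc s‖ ≤ C ∧ ‖deriv kc s‖ ≤ C := by
  obtain ⟨C, h0, hC⟩ := EDC1_bd (half_pos hε)
  have hb : ∀ s : ℂ, ε ≤ s.im → ∀ z ∈ Metric.closedBall s (ε / 2), ε / 2 ≤ z.im := by
    intro s hs z hz
    have h1 := (Complex.abs_im_le_norm (z - s)).trans (mem_closedBall_iff_norm.1 hz)
    rw [Complex.sub_im] at h1
    linarith [(abs_le.1 h1).1]
  refine ⟨C + C / (ε / 2), fun s hs => ⟨(hC s (by linarith)).1,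
    (hC s (by linarith)).2.trans (le_add_of_nonneg_right (by positivity)),
    le_trans ?_ (le_add_of_nonneg_left h0)⟩⟩
  refine Complex.norm_deriv_le_of_forall_mem_sphere_norm_le (half_pos hε)
    (DifferentiableOn.diffContOnCl ?_) fun z hz =>
      (hC z (hb s hs z (Metric.sphere_subset_closedBall hz))).2
  rw [closure_ball _ (half_pos hε).ne']
  exact fun z hz => (hC z (hb s hs z hz)).1.differentiableWithinAt

theorem EDC1_le {ε C : ℝ} (hε : 0 < ε) {F : ℂ → ℂ} (hC : ∀ s : ℂ, ε ≤ s.im → ‖F s‖ ≤ C)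
    {g : ℝ → ℝ → ℝ} (hg : ∀ x y, |g x y| ≤ B * Real.exp (-|y|)) (a : ℝ) {b : ℝ} (hb : ε ≤ b) :
    ‖F ((a : ℂ) + Complex.I * (b : ℂ)) * (g a b : ℝ)‖ ≤ C * B * Real.exp (-b) := by
  have h1 := hC ((a : ℂ) + Complex.I * (b : ℂ)) (by simpa using hb)
  have h2 := hg a b
  rw [abs_of_pos (hε.trans_le hb)] at h2
  rw [norm_mul, Complex.norm_real, mul_assoc]
  exact mul_le_mul h1 h2 (norm_nonneg _) ((norm_nonneg _).trans h1)

theorem EDC1_int {ε C : ℝ} (hε : 0 < ε) {F : ℂ → ℂ} (hF : Measurable F)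
    (hC : ∀ s : ℂ, ε ≤ s.im → ‖F s‖ ≤ C) {g : ℝ → ℝ → ℝ}
    (hc : Continuous fun p : ℝ × ℝ => g p.1 p.2) (hg : ∀ x y, |g x y| ≤ B * Real.exp (-|y|)) :
    Integrable (fun w : ℝ × ℝ => F ((w.1 : ℂ) + Complex.I * (w.2 : ℂ)) * (g w.1 w.2 : ℝ))
      ((volume.restrict (Ioc (-π) π)).prod (volume.restrict (Ioi ε))) := by
  have h1 : Integrable (fun w : ℝ × ℝ => C * B * Real.exp (-w.2))
      ((volume.restrict (Ioc (-π) π)).prod (volume.restrict (Ioi ε))) :=
    (integrable_const (C * B)).mul_prod (integrableOn_exp_neg_Ioi ε)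
  refine h1.mono' (Measurable.aestronglyMeasurable ?_) ?_
  · exact (hF.comp (by fun_prop)).mul (Complex.measurable_ofReal.comp hc.measurable)
  · rw [Measure.prod_restrict]
    refine (ae_restrict_mem (measurableSet_Ioc.prod measurableSet_Ioi)).mono fun w hw => ?_
    exact EDC1_le hε hC hg w.1 hw.2.le

/-- Green's formula on the half strip. Sketch: with `P (a, b) = kc (a + i b) h a b` one has
`∂ₐ P + i ∂_b P = kc (h₁ + i h₂)`; both partial derivatives are integrable on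
`Ioc (-π) π ×ˢ Ioi ε`; Fubini, `∫ ∂ₐ P da = 0` by periodicity
(`intervalIntegral.integral_eq_sub_of_hasDerivAt`), `∫ ∂_b P db = - P (a, ε)`
(`integral_Ioi_of_hasDerivAt_of_tendsto`). -/
theorem green_strip (hh : Dec B h h₁ h₂) {ε : ℝ} (hε : 0 < ε) :
    ∫ w in Ioc (-π) π ×ˢ Ioi ε, kc ((w.1 : ℂ) + Complex.I * (w.2 : ℂ)) *
        ((h₁ w.1 w.2 : ℝ) + Complex.I * (h₂ w.1 w.2 : ℝ))
      = -Complex.I * ∫ a in (-π)..π, kc ((a : ℂ) + Complex.I * (ε : ℂ)) * (h a ε : ℝ) := by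
  obtain ⟨C, hC⟩ := kc_strip hε
  have i0 := EDC1_int hε (measurable_deriv kc) (fun s hs => (hC s hs).2.2) hh.c0 hh.b0
  have i1 := EDC1_int hε measurable_kc (fun s hs => (hC s hs).2.1) hh.cx hh.bx
  have i2 := EDC1_int hε measurable_kc (fun s hs => (hC s hs).2.1) hh.cy hh.by'
  have ia := i0.add i1
  have ib := (i0.const_mul Complex.I).add i2
  have hπ : -π ≤ π := by linarith [Real.pi_pos]
  have ea : ∫ w, (deriv kc ((w.1 : ℂ) + Complex.I * (w.2 : ℂ)) * (h w.1 w.2 : ℝ) +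
      kc ((w.1 : ℂ) + Complex.I * (w.2 : ℂ)) * (h₁ w.1 w.2 : ℝ))
      ∂((volume.restrict (Ioc (-π) π)).prod (volume.restrict (Ioi ε))) = 0 := by
    refine (integral_prod_symm _ ia).trans (integral_eq_zero_of_ae ?_)
    filter_upwards [ia.prod_left_ae, ae_restrict_mem measurableSet_Ioi] with b hb hb'
    have hd : ∀ a ∈ uIcc (-π) π, HasDerivAt
        (fun a : ℝ => kc ((a : ℂ) + Complex.I * (b : ℂ)) * (h a b : ℝ))
        (deriv kc ((a : ℂ) + Complex.I * (b : ℂ)) * (h a b : ℝ) +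
          kc ((a : ℂ) + Complex.I * (b : ℂ)) * (h₁ a b : ℝ)) a := fun a _ =>
      ((hC _ (by simpa using hb'.le)).1.hasDerivAt.comp_add_const
        (a : ℂ) (Complex.I * (b : ℂ))).comp_ofReal.mul (hh.dx a b).ofReal_comp
    have h1 := intervalIntegral.integral_eq_sub_of_hasDerivAt hd
      ((intervalIntegrable_iff_integrableOn_Ioc_of_le hπ).2 hb)
    rw [intervalIntegral.integral_of_le hπ] at h1
    have e1 : ((π : ℝ) : ℂ) + Complex.I * (b : ℂ) =
        ((-π : ℝ) : ℂ) + Complex.I * (b : ℂ) + 2 * (π : ℂ) := by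
      push_cast
      ring
    have e2 : h π b = h (-π) b := by
      rw [← hh.per (-π) b]
      ring_nf
    rw [e1, kc_add_two_pi, e2, sub_self] at h1
    exact h1
  have eb : ∫ w, (Complex.I * (deriv kc ((w.1 : ℂ) + Complex.I * (w.2 : ℂ)) * (h w.1 w.2 : ℝ)) +
      kc ((w.1 : ℂ) + Complex.I * (w.2 : ℂ)) * (h₂ w.1 w.2 : ℝ))
      ∂((volume.restrict (Ioc (-π) π)).prod (volume.restrict (Ioi ε))) =
      -∫ a in (-π)..π, kc ((a : ℂ) + Complex.I * (ε : ℂ)) * (h a ε : ℝ) := by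
    rw [intervalIntegral.integral_of_le hπ, ← integral_neg]
    refine (integral_prod _ ib).trans (integral_congr_ae ?_)
    filter_upwards [ib.prod_right_ae] with a ha
    have hd : ∀ b ∈ Ici ε, HasDerivAt
        (fun b : ℝ => kc ((a : ℂ) + Complex.I * (b : ℂ)) * (h a b : ℝ))
        (Complex.I * (deriv kc ((a : ℂ) + Complex.I * (b : ℂ)) * (h a b : ℝ)) +
          kc ((a : ℂ) + Complex.I * (b : ℂ)) * (h₂ a b : ℝ)) b := fun b hb => by
      have h1 : HasDerivAt (fun z : ℂ => (a : ℂ) + Complex.I * z) Complex.I (b : ℂ) := by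
        simpa using ((hasDerivAt_id (b : ℂ)).const_mul Complex.I).const_add (a : ℂ)
      have h2 := (((hC _ (by simpa using hb)).1.hasDerivAt.comp (b : ℂ) h1).comp_ofReal).mul
        (hh.dy a b).ofReal_comp
      refine h2.congr_deriv ?_
      simp only [Function.comp]
      ring
    have ht : Tendsto (fun b : ℝ => kc ((a : ℂ) + Complex.I * (b : ℂ)) * (h a b : ℝ)) atTop
        (𝓝 0) := by
      refine squeeze_zero_norm' ((eventually_ge_atTop ε).mono fun b hb =>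
        EDC1_le hε (fun s hs => (hC s hs).2.1) hh.b0 a hb) ?_
      simpa using Real.tendsto_exp_neg_atTop_nhds_zero.const_mul (C * B)
    exact (integral_Ioi_of_hasDerivAt_of_tendsto' hd ha ht).trans (zero_sub _)
  rw [Measure.volume_eq_prod, ← Measure.prod_restrict, neg_mul, ← mul_neg, ← eb,
    ← zero_add (Complex.I * _), ← ea, ← integral_const_mul]
  refine (integral_congr_ae (Eventually.of_forall fun w => ?_)).trans
    (integral_add ia (ib.const_mul Complex.I))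
  linear_combination (-deriv kc ((w.1 : ℂ) + Complex.I * (w.2 : ℂ)) * (h w.1 w.2 : ℝ)) *
    Complex.I_mul_I

end Pool.Agent.Lib.MP_3d41d4_an
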