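import Pool.Agent.Lib.MP_3d41d4_an.EVel
import Pool.Agent.Lib.MP_3d41d4_an.Gauss2

open MeasureTheory Set Filter Topology Real
open scoped ENNReal

namespace Pool.Agent.Lib.MP_3d41d4_an

theorem EDC2_cont {a b : ℝ} (ha : |a| ≤ π) (h : a ≠ 0 ∨ b ≠ 0) :
    ContinuousAt kc ((a : ℂ) + Complex.I * (b : ℂ)) := by
  refine (differentiableAt_kc (sin_half_ne_zero (fun e => ?_) ?_)).continuousAt
  · have h1 := congrArg Complex.re e
    have h2 := congrArg Complex.im e
    simp at h1 h2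
    tauto
  · simpa using ha.trans_lt (by linarith [Real.pi_pos])

theorem EDC2_int {ε : ℝ} (hε : 0 < ε) :
    ContinuousOn (fun a : ℝ => kc ((a : ℂ) + Complex.I * (ε : ℂ))) (uIcc (-π) π) := by
  intro a ha
  rw [uIcc_of_le (by linarith [Real.pi_pos])] at ha
  exact (ContinuousAt.comp (f := fun a : ℝ => (a : ℂ) + Complex.I * (ε : ℂ))
    (EDC2_cont (abs_le.2 ha) (.inr hε.ne')) (by fun_prop)).continuousWithinAt

/-- Sketch: for `Im s > 0`, with `q = exp (i s)`, `cot (s / 2) = i (q + 1) / (q - 1)`, so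
`kc s = -1 / (4π) - q / (2π (1 - q))`, and `q / (1 - q) = i d/da log (1 - q)` with `1 - q` in the
slit plane (`‖q‖ < 1`); the logarithm is `2π`-periodic in `a`. -/
theorem kc_mean {ε : ℝ} (hε : 0 < ε) :
    ∫ a in (-π)..π, kc ((a : ℂ) + Complex.I * (ε : ℂ)) = -1 / 2 := by
  have hπ : (π : ℂ) ≠ 0 := Complex.ofReal_ne_zero.2 Real.pi_ne_zero
  have hd : ∀ a : ℝ, HasDerivAt (fun a : ℝ => -(a : ℂ) / (4 * π) - Complex.I / (2 * π) *
      Complex.log (1 - Complex.exp (Complex.I * ((a : ℂ) + Complex.I * (ε : ℂ)))))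
      (kc ((a : ℂ) + Complex.I * (ε : ℂ))) a := fun a => by
    have h1 : ‖Complex.exp (Complex.I * ((a : ℂ) + Complex.I * (ε : ℂ)))‖ < 1 := by
      rw [Complex.norm_exp]
      simpa using hε
    have h2 : 1 - Complex.exp (Complex.I * ((a : ℂ) + Complex.I * (ε : ℂ))) ∈
        Complex.slitPlane := by
      rw [sub_eq_add_neg]
      exact Complex.mem_slitPlane_of_norm_lt_one (by rwa [norm_neg])
    have h3 := ((((hasDerivAt_id (a : ℂ)).add_const (Complex.I * (ε : ℂ))).const_mul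
      Complex.I).cexp.const_sub 1).clog h2
    have h4 := (((hasDerivAt_id (a : ℂ)).neg.div_const (4 * (π : ℂ))).sub
      (h3.const_mul (Complex.I / (2 * π)))).comp_ofReal
    refine h4.congr_deriv (Eq.symm ?_)
    have h5 := Complex.slitPlane_ne_zero h2
    rw [kc, Complex.cot_eq_exp_ratio, show 2 * Complex.I * (((a : ℂ) + Complex.I * (ε : ℂ)) / 2) =
      Complex.I * ((a : ℂ) + Complex.I * (ε : ℂ)) by ring]
    simp only [id]
    generalize Complex.exp (Complex.I * ((a : ℂ) + Complex.I * (ε : ℂ))) = q at h5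
    field_simp
    linear_combination 2 * (1 + q - 2 * q * Complex.I ^ 2) * Complex.I_sq
  rw [intervalIntegral.integral_eq_sub_of_hasDerivAt (fun a _ => hd a)
    (EDC2_int hε).intervalIntegrable, show Complex.I * (((π : ℝ) : ℂ) + Complex.I * (ε : ℂ)) =
      Complex.I * (((-π : ℝ) : ℂ) + Complex.I * (ε : ℂ)) + 2 * π * Complex.I by push_cast; ring,
    Complex.exp_add, Complex.exp_two_pi_mul_I, mul_one]
  push_cast
  field_simp
  ring

theorem EDC2_lip {B : ℝ} {h h₁ h₂ : ℝ → ℝ → ℝ} (hh : Dec B h h₁ h₂) :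
    0 ≤ B ∧ (∀ a b, |h a b| ≤ B) ∧ ∀ a b, |h a b - h 0 0| ≤ B * (|a| + |b|) := by
  have hB : 0 ≤ B := by simpa using (abs_nonneg _).trans (hh.b0 0 0)
  have e : ∀ y : ℝ, B * Real.exp (-|y|) ≤ B := fun y =>
    mul_le_of_le_one_right hB (Real.exp_le_one_iff.2 (neg_nonpos.2 (abs_nonneg y)))
  refine ⟨hB, fun a b => (hh.b0 a b).trans (e b), fun a b => ?_⟩
  have h1 := convex_univ.norm_image_sub_le_of_norm_hasDerivWithin_le
    (fun x _ => (hh.dx x b).hasDerivWithinAt) (fun x _ => (hh.bx x b).trans (e b))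
    (mem_univ 0) (mem_univ a)
  have h2 := convex_univ.norm_image_sub_le_of_norm_hasDerivWithin_le
    (fun y _ => (hh.dy 0 y).hasDerivWithinAt) (fun y _ => (hh.by' 0 y).trans (e y))
    (mem_univ 0) (mem_univ b)
  simp only [Real.norm_eq_abs, sub_zero] at h1 h2
  linarith [abs_sub_le (h a b) (h 0 b) (h 0 0)]

/-- Sketch: `R ε a = h a ε + h (-a) (-ε) - 2 h 0 0` satisfies `|R| ≤ 4 |B| (|a| + ε)` (mean value
inequality in each variable), so `kc (a + i ε) R ε a` is bounded for `ε ≤ 1` (`norm_kc_le`) and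
tends to `kc a * R 0 a`, an odd function of `a` (`kc_neg`); dominated convergence, `kc_mean`. -/
theorem kc_boundary {B : ℝ} {h h₁ h₂ : ℝ → ℝ → ℝ} (hh : Dec B h h₁ h₂) :
    Tendsto (fun ε : ℝ => ∫ a in (-π)..π, kc ((a : ℂ) + Complex.I * (ε : ℂ)) *
      ((h a ε + h (-a) (-ε) : ℝ) : ℂ)) (𝓝[>] 0) (𝓝 (-(h 0 0 : ℝ) : ℂ)) := by
  obtain ⟨hB, b0, b1⟩ := EDC2_lip hh
  obtain ⟨C, hC, hk⟩ := norm_kc_le
  have hπ := Real.pi_pos
  obtain ⟨R, hR⟩ : ∃ R : ℝ × ℝ → ℝ, R = fun p => h p.1 p.2 + h (-p.1) (-p.2) - 2 * h 0 0 := ⟨_, rfl⟩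
  have hc : Continuous R :=
    hR ▸ (hh.c0.add (hh.c0.comp continuous_neg)).sub continuous_const
  have hi : ∀ ε : ℝ, 0 < ε → ContinuousOn (fun a : ℝ => kc ((a : ℂ) + Complex.I * (ε : ℂ)) *
      (R (a, ε) : ℂ)) (uIcc (-π) π) := fun ε hε => (EDC2_int hε).mul (by fun_prop)
  have h0 : ∫ a in (-π)..π, kc ((a : ℂ) + Complex.I * ((0 : ℝ) : ℂ)) * (R (a, 0) : ℂ) = 0 := by
    have e := intervalIntegral.integral_comp_neg (a := -π) (b := π)
      fun a : ℝ => kc ((a : ℂ) + Complex.I * ((0 : ℝ) : ℂ)) * (R (a, 0) : ℂ)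
    rw [neg_neg, intervalIntegral.integral_congr (g := fun a : ℝ =>
      -(kc ((a : ℂ) + Complex.I * ((0 : ℝ) : ℂ)) * (R (a, 0) : ℂ))) fun a _ => by
        simp [kc_neg, hR, add_comm], intervalIntegral.integral_neg] at e
    linear_combination -e / 2
  have h1 : Tendsto (fun ε : ℝ => ∫ a in (-π)..π, kc ((a : ℂ) + Complex.I * (ε : ℂ)) *
      (R (a, ε) : ℂ)) (𝓝[>] 0) (𝓝 0) := by
    rw [← h0]
    refine intervalIntegral.tendsto_integral_filter_of_dominated_convergence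
      (fun _ => C * (8 * B)) ?_ ?_ intervalIntegrable_const ?_
    · filter_upwards [self_mem_nhdsWithin] with ε hε
      exact ((hi ε hε).mono uIoc_subset_uIcc).aestronglyMeasurable measurableSet_uIoc
    · filter_upwards [self_mem_nhdsWithin] with ε hε
      refine Eventually.of_forall fun a ha => ?_
      rw [uIoc_of_le (by linarith)] at ha
      have e1 := Complex.abs_re_le_norm ((a : ℂ) + Complex.I * (ε : ℂ))
      have e2 := Complex.abs_im_le_norm ((a : ℂ) + Complex.I * (ε : ℂ))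
      have e3 := hk ((a : ℂ) + Complex.I * (ε : ℂ))
      simp only [Complex.add_re, Complex.ofReal_re, Complex.I_mul_re, Complex.ofReal_im, neg_zero,
        add_zero, Complex.add_im, Complex.I_mul_im, zero_add] at e1 e2 e3
      have e4 : 0 < ‖(a : ℂ) + Complex.I * (ε : ℂ)‖ := (abs_pos.2 (ne_of_gt hε)).trans_le e2
      replace e3 := e3 (norm_pos_iff.1 e4) (abs_le.2 ⟨by linarith [ha.1], by linarith [ha.2]⟩)
      rw [norm_mul, Complex.norm_real, Real.norm_eq_abs]
      generalize ‖(a : ℂ) + Complex.I * (ε : ℂ)‖ = n at e1 e2 e3 e4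
      have r1 : |R (a, ε)| ≤ 4 * B := by
        have := abs_le.1 (b0 a ε)
        have := abs_le.1 (b0 (-a) (-ε))
        have := abs_le.1 (b0 0 0)
        rw [hR, abs_le]
        constructor <;> linarith
      have r2 : |R (a, ε)| ≤ 4 * B * n := by
        have p1 := abs_le.1 (b1 a ε)
        have p2 := abs_le.1 (b1 (-a) (-ε))
        rw [abs_neg, abs_neg] at p2
        have := mul_le_mul_of_nonneg_left (add_le_add e1 e2) hB
        rw [hR, abs_le]
        constructor <;> linarith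
      refine (mul_le_mul_of_nonneg_right e3 (abs_nonneg _)).trans ?_
      rw [mul_assoc, add_mul, one_mul, one_div_mul_eq_div]
      refine mul_le_mul_of_nonneg_left ?_ hC.le
      linarith [(div_le_iff₀ e4).2 r2]
    · filter_upwards [compl_mem_ae_iff.2 (measure_singleton (0 : ℝ))] with a ha ha'
      rw [uIoc_of_le (by linarith)] at ha'
      exact (((ContinuousAt.comp (f := fun ε : ℝ => (a : ℂ) + Complex.I * (ε : ℂ))
        (EDC2_cont (abs_le.2 ⟨ha'.1.le, ha'.2⟩) (.inl ha)) (by fun_prop)).mul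
          (g := fun ε : ℝ => (R (a, ε) : ℂ)) (by fun_prop)).tendsto).mono_left nhdsWithin_le_nhds
  have h2 := h1.sub_const (h 0 0 : ℂ)
  rw [zero_sub] at h2
  refine h2.congr' ?_
  filter_upwards [self_mem_nhdsWithin] with ε hε
  rw [intervalIntegral.integral_congr (f := fun a : ℝ => kc ((a : ℂ) + Complex.I * (ε : ℂ)) *
      ((h a ε + h (-a) (-ε) : ℝ) : ℂ)) (g := fun a : ℝ => kc ((a : ℂ) + Complex.I * (ε : ℂ)) *
      (R (a, ε) : ℂ) + kc ((a : ℂ) + Complex.I * (ε : ℂ)) * (2 * (h 0 0 : ℂ))) fun a _ => by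
        simp only [hR]
        push_cast
        ring,
    intervalIntegral.integral_add (hi ε hε).intervalIntegrable
      ((EDC2_int hε).intervalIntegrable.mul_const _), intervalIntegral.integral_mul_const,
    kc_mean hε]
  ring

end Pool.Agent.Lib.MP_3d41d4_an
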