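import Pool.Agent.Lib.MP_3d41d4_an.EDC1
import Pool.Agent.Lib.MP_3d41d4_an.EDC2
import Pool.Agent.Lib.MP_3d41d4_an.EBiot

open MeasureTheory Set Filter Topology Real
open scoped ENNReal

namespace Pool.Agent.Lib.MP_3d41d4_an

variable {B : ℝ} {f fx fy : ℝ → ℝ → ℝ}

theorem EDC3_K1 (w : ℝ × ℝ) : |K1 w.1 w.2| ≤ Kn w := le_add_of_nonneg_right (abs_nonneg _)

theorem EDC3_K2 (w : ℝ × ℝ) : |K2 w.1 w.2| ≤ Kn w := le_add_of_nonneg_left (abs_nonneg _)

theorem EDC3_nonneg (hf : Dec B f fx fy) : 0 ≤ B :=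
  nonneg_of_mul_nonneg_left ((abs_nonneg _).trans (hf.b0 0 0)) (Real.exp_pos _)

theorem EDC3_exp (y b : ℝ) : Real.exp (-|y - b|) ≤ Real.exp |y| * Real.exp (-|b|) := by
  rw [← Real.exp_add]
  refine Real.exp_le_exp.2 ?_
  have h := abs_sub_abs_le_abs_sub b y
  rw [abs_sub_comm] at h
  linarith

theorem EDC3_refl (hf : Dec B f fx fy) (x y : ℝ) :
    Dec (B * Real.exp |y|) (fun a b => f (x - a) (y - b)) (fun a b => -fx (x - a) (y - b))
      (fun a b => -fy (x - a) (y - b)) := by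
  have hc : Continuous fun p : ℝ × ℝ => (x - p.1, y - p.2) := by fun_prop
  have hb : ∀ b, B * Real.exp (-|y - b|) ≤ B * Real.exp |y| * Real.exp (-|b|) := fun b => by
    rw [mul_assoc]
    exact mul_le_mul_of_nonneg_left (EDC3_exp y b) (EDC3_nonneg hf)
  refine ⟨hf.c0.comp hc, (hf.cx.comp hc).neg, (hf.cy.comp hc).neg, fun a b => ?_, fun a b => ?_,
    fun a b => ?_, fun a b => (hf.b0 _ _).trans (hb b), fun a b => ?_, fun a b => ?_⟩
  · rw [← hf.per (x - (a + 2 * π))]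
    congr 1
    ring
  · exact (hf.dx (x - a) (y - b)).comp_const_sub x a
  · exact (hf.dy (x - a) (y - b)).comp_const_sub y b
  · rw [abs_neg]
    exact (hf.bx _ _).trans (hb b)
  · rw [abs_neg]
    exact (hf.by' _ _).trans (hb b)

theorem EDC3_add {B' : ℝ} {g gx gy : ℝ → ℝ → ℝ} (hf : Dec B f fx fy) (hg : Dec B' g gx gy) :
    Dec (B + B') (fun a b => f a b + g a b) (fun a b => fx a b + gx a b)
      (fun a b => fy a b + gy a b) := by
  refine ⟨hf.c0.add hg.c0, hf.cx.add hg.cx, hf.cy.add hg.cy, fun a b => ?_,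
    fun a b => (hf.dx a b).add (hg.dx a b), fun a b => (hf.dy a b).add (hg.dy a b),
    fun a b => ?_, fun a b => ?_, fun a b => ?_⟩
  · rw [hf.per, hg.per]
  · rw [add_mul]
    exact (abs_add_le _ _).trans (add_le_add (hf.b0 a b) (hg.b0 a b))
  · rw [add_mul]
    exact (abs_add_le _ _).trans (add_le_add (hf.bx a b) (hg.bx a b))
  · rw [add_mul]
    exact (abs_add_le _ _).trans (add_le_add (hf.by' a b) (hg.by' a b))

theorem EDC3_bound (A y : ℝ) :
    IntegrableOn (fun w : ℝ × ℝ => Kn w * (A * Real.exp (-|y - w.2|))) cyl0 := by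
  obtain ⟨C, -, hC⟩ := Kn_exp
  refine IntegrableOn.congr_fun ((hC y).1.const_mul A) (fun w _ => ?_) measurableSet_cyl0
  exact mul_left_comm _ _ _

theorem EDC3_le {K F : ℝ × ℝ → ℝ} (hK : ∀ w, |K w| ≤ Kn w) {w : ℝ × ℝ} {A : ℝ}
    (h : |F w| ≤ A) : ‖K w * F w‖ ≤ Kn w * A := by
  rw [Real.norm_eq_abs, abs_mul]
  exact mul_le_mul (hK w) h (abs_nonneg _) (Kn_nonneg w)

theorem EDC3_int0 {K F : ℝ × ℝ → ℝ} (hm : Measurable K) (hK : ∀ w, |K w| ≤ Kn w)
    (hF : Continuous F) {A y : ℝ} (hb : ∀ w, |F w| ≤ A * Real.exp (-|y - w.2|)) :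
    IntegrableOn (fun w => K w * F w) cyl0 :=
  (EDC3_bound A y).mono' (hm.mul hF.measurable).aestronglyMeasurable
    (Eventually.of_forall fun w => EDC3_le hK (hb w))

/-- The integrand of the Cauchy-Pompeiu formula. -/
noncomputable def EDC3_Phi (fx fy : ℝ → ℝ → ℝ) (w : ℝ × ℝ) : ℂ :=
  kc ((w.1 : ℂ) + Complex.I * (w.2 : ℂ)) * ((fx w.1 w.2 : ℝ) + Complex.I * (fy w.1 w.2 : ℝ))

theorem EDC3_Phi_eq (fx fy : ℝ → ℝ → ℝ) (w : ℝ × ℝ) : EDC3_Phi fx fy w =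
    ((K1 w.1 w.2 * fx w.1 w.2 + K2 w.1 w.2 * fy w.1 w.2 : ℝ) : ℂ) +
      ((K1 w.1 w.2 * fy w.1 w.2 - K2 w.1 w.2 * fx w.1 w.2 : ℝ) : ℂ) * Complex.I := by
  rw [EDC3_Phi, kc_eq]
  push_cast
  linear_combination (-(K2 w.1 w.2 : ℂ) * (fy w.1 w.2 : ℂ)) * Complex.I_mul_I

theorem EDC3_four (hf : Dec B f fx fy) :
    IntegrableOn (fun w : ℝ × ℝ => K1 w.1 w.2 * fx w.1 w.2) cyl0 ∧
    IntegrableOn (fun w : ℝ × ℝ => K2 w.1 w.2 * fy w.1 w.2) cyl0 ∧
    IntegrableOn (fun w : ℝ × ℝ => K1 w.1 w.2 * fy w.1 w.2) cyl0 ∧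
    IntegrableOn (fun w : ℝ × ℝ => K2 w.1 w.2 * fx w.1 w.2) cyl0 := by
  have bx : ∀ w : ℝ × ℝ, |fx w.1 w.2| ≤ B * Real.exp (-|0 - w.2|) := fun w => by
    rw [zero_sub, abs_neg]
    exact hf.bx _ _
  have by' : ∀ w : ℝ × ℝ, |fy w.1 w.2| ≤ B * Real.exp (-|0 - w.2|) := fun w => by
    rw [zero_sub, abs_neg]
    exact hf.by' _ _
  exact ⟨EDC3_int0 K1_meas EDC3_K1 hf.cx bx, EDC3_int0 K2_meas EDC3_K2 hf.cy by',
    EDC3_int0 K1_meas EDC3_K1 hf.cy by', EDC3_int0 K2_meas EDC3_K2 hf.cx bx⟩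

theorem EDC3_int (hf : Dec B f fx fy) : IntegrableOn (EDC3_Phi fx fy) cyl0 := by
  obtain ⟨h1, h2, h3, h4⟩ := EDC3_four hf
  exact IntegrableOn.congr_fun ((h1.add h2).ofReal.add ((h3.sub h4).ofReal.mul_const Complex.I))
    (fun w _ => (EDC3_Phi_eq fx fy w).symm) measurableSet_cyl0

theorem EDC3_upper (hf : Dec B f fx fy) :
    Tendsto (fun n : ℕ => ∫ w in Ioc (-π) π ×ˢ Ioi (1 / ((n : ℝ) + 1)), EDC3_Phi fx fy w) atTop
      (𝓝 (∫ w in Ioc (-π) π ×ˢ Ioi (0 : ℝ), EDC3_Phi fx fy w)) := by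
  have e : Ioc (-π) π ×ˢ Ioi (0 : ℝ) = ⋃ n : ℕ, Ioc (-π) π ×ˢ Ioi (1 / ((n : ℝ) + 1)) := by
    rw [← prod_iUnion]
    congr 1
    ext b
    simp only [mem_Ioi, mem_iUnion]
    exact ⟨exists_nat_one_div_lt, fun ⟨n, hn⟩ => lt_trans (by positivity) hn⟩
  rw [e]
  refine tendsto_setIntegral_of_monotone (fun n => measurableSet_Ioc.prod measurableSet_Ioi)
    (fun n m h => prod_mono le_rfl (Ioi_subset_Ioi (Nat.one_div_le_one_div h))) ?_
  rw [← e]
  exact (EDC3_int hf).mono_set (prod_mono le_rfl (subset_univ _))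

theorem EDC3_lower (Φ : ℝ × ℝ → ℂ) :
    ∫ w in Ioc (-π) π ×ˢ Ioi (0 : ℝ), Φ (-w) = ∫ w in Ioc (-π) π ×ˢ Iic (0 : ℝ), Φ w := by
  have e : Ioc (-π) π ×ˢ Ioi (0 : ℝ) = Neg.neg ⁻¹' (Ico (-π) π ×ˢ Iio (0 : ℝ)) := by
    ext w
    simp only [mem_prod, mem_Ioc, mem_Ioi, mem_preimage, mem_Ico, mem_Iio, Prod.fst_neg,
      Prod.snd_neg]
    constructor
    · rintro ⟨⟨h1, h2⟩, h3⟩
      exact ⟨⟨by linarith, by linarith⟩, by linarith⟩
    · rintro ⟨⟨h1, h2⟩, h3⟩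
      exact ⟨⟨by linarith, by linarith⟩, by linarith⟩
  rw [e, (Measure.measurePreserving_neg (volume : Measure (ℝ × ℝ))).setIntegral_preimage_emb
    (MeasurableEquiv.neg (ℝ × ℝ)).measurableEmbedding]
  exact setIntegral_congr_set (Measure.set_prod_ae_eq Ico_ae_eq_Ioc Iio_ae_eq_Iic)

/-- Cauchy-Pompeiu formula on the cylinder. Sketch: the integrand is integrable on `cyl0`
(`norm_kc_le_Kn`, `Kn_exp`); the integrals over `|b| > ε` tend to the integral over `cyl0`; the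
lower half strip is the upper half strip of `(a, b) ↦ f (-a) (-b)` (`kc_neg`, reflection of the
measure, `Ioc` versus `Ico`); `green_strip` twice and `kc_boundary`. -/
theorem pompeiu (hf : Dec B f fx fy) :
    ∫ w in cyl0, kc ((w.1 : ℂ) + Complex.I * (w.2 : ℂ)) *
        ((fx w.1 w.2 : ℝ) + Complex.I * (fy w.1 w.2 : ℝ)) = Complex.I * (f 0 0 : ℝ) := by
  have hg := EDC3_refl hf 0 0
  simp only [zero_sub] at hg
  have hs := EDC3_add hf hg
  have hu : Tendsto (fun n : ℕ => 1 / ((n : ℝ) + 1)) atTop (𝓝[>] 0) :=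
    tendsto_nhdsWithin_iff.2 ⟨tendsto_one_div_add_atTop_nhds_zero_nat,
      Eventually.of_forall fun n => mem_Ioi.2 (by positivity)⟩
  have h1 := (((kc_boundary hf).comp hu).const_mul (-Complex.I)).congr fun n : ℕ =>
    (green_strip hs (ε := 1 / ((n : ℝ) + 1)) (by positivity)).symm
  have h2 := tendsto_nhds_unique (EDC3_upper hs) h1
  have e1 : ∀ w : ℝ × ℝ, EDC3_Phi (fun a b => -fx (-a) (-b)) (fun a b => -fy (-a) (-b)) w =
      EDC3_Phi fx fy (-w) := fun w => by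
    have e : (((-w).1 : ℝ) : ℂ) + Complex.I * (((-w).2 : ℝ) : ℂ) =
        -((w.1 : ℂ) + Complex.I * (w.2 : ℂ)) := by
      rw [Prod.fst_neg, Prod.snd_neg]
      push_cast
      ring
    rw [EDC3_Phi, EDC3_Phi, e, kc_neg, Prod.fst_neg, Prod.snd_neg]
    push_cast
    ring
  have e2 : ∀ w : ℝ × ℝ, EDC3_Phi (fun a b => fx a b + -fx (-a) (-b))
      (fun a b => fy a b + -fy (-a) (-b)) w = EDC3_Phi fx fy w +
        EDC3_Phi (fun a b => -fx (-a) (-b)) (fun a b => -fy (-a) (-b)) w := fun w => by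
    simp only [EDC3_Phi]
    push_cast
    ring
  have hsub : ∀ s : Set ℝ, Ioc (-π) π ×ˢ s ⊆ cyl0 := fun s => prod_mono le_rfl (subset_univ _)
  simp only [e2] at h2
  rw [integral_add ((EDC3_int hf).mono_set (hsub _)) ((EDC3_int hg).mono_set (hsub _))] at h2
  simp only [e1] at h2
  rw [EDC3_lower, ← setIntegral_union
    (Set.disjoint_prod.2 (Or.inr (Iic_disjoint_Ioi le_rfl).symm))
    (measurableSet_Ioc.prod measurableSet_Iic) ((EDC3_int hf).mono_set (hsub _))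
    ((EDC3_int hf).mono_set (hsub _)), ← prod_union, Ioi_union_Iic, neg_mul_neg] at h2
  exact h2

theorem EDC3_der {K : ℝ × ℝ → ℝ} (hm : Measurable K) (hK : ∀ w, |K w| ≤ Kn w)
    {F F' : ℝ → ℝ × ℝ → ℝ} (hF : ∀ s, Continuous (F s)) (hF' : ∀ s, Continuous (F' s))
    {A A' y s₀ : ℝ} (hb : ∀ w, |F s₀ w| ≤ A * Real.exp (-|y - w.2|))
    (hb' : ∀ s ∈ Metric.ball s₀ 1, ∀ w, |F' s w| ≤ A' * Real.exp (-|y - w.2|))
    (hd : ∀ s w, HasDerivAt (fun s => F s w) (F' s w) s) :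
    HasDerivAt (fun s => ∫ w in cyl0, K w * F s w) (∫ w in cyl0, K w * F' s₀ w) s₀ :=
  (hasDerivAt_integral_of_dominated_loc_of_deriv_le (F := fun s w => K w * F s w)
    (F' := fun s w => K w * F' s w) (Metric.ball_mem_nhds s₀ one_pos)
    (Eventually.of_forall fun s => (hm.mul (hF s).measurable).aestronglyMeasurable)
    (EDC3_int0 hm hK (hF s₀) hb) (hm.mul (hF' s₀).measurable).aestronglyMeasurable
    (Eventually.of_forall fun w s hs => EDC3_le hK (hb' s hs w)) (EDC3_bound A' y)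
    (Eventually.of_forall fun w s _ => (hd s w).const_mul (K w))).2

theorem EDC3_dxy {K : ℝ × ℝ → ℝ} (hm : Measurable K) (hK : ∀ w, |K w| ≤ Kn w)
    (hf : Dec B f fx fy) (x y : ℝ) :
    HasDerivAt (fun x' => ∫ w in cyl0, K w * f (x' - w.1) (y - w.2))
      (∫ w in cyl0, K w * fx (x - w.1) (y - w.2)) x ∧
    HasDerivAt (fun y' => ∫ w in cyl0, K w * f (x - w.1) (y' - w.2))
      (∫ w in cyl0, K w * fy (x - w.1) (y - w.2)) y := by
  have hc : ∀ x y : ℝ, Continuous fun p : ℝ × ℝ => (x - p.1, y - p.2) := fun x y => by fun_prop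
  refine ⟨EDC3_der hm hK (F := fun s w => f (s - w.1) (y - w.2))
    (F' := fun s w => fx (s - w.1) (y - w.2)) (fun s => hf.c0.comp (hc s y))
    (fun s => hf.cx.comp (hc s y)) (fun w => hf.b0 _ _) (fun s _ w => hf.bx _ _)
    fun s w => (hf.dx (s - w.1) (y - w.2)).comp_sub_const s w.1,
    EDC3_der hm hK (F := fun s w => f (x - w.1) (s - w.2))
    (F' := fun s w => fy (x - w.1) (s - w.2)) (fun s => hf.c0.comp (hc x s))
    (fun s => hf.cy.comp (hc x s)) (fun w => hf.b0 _ _) (A' := B * Real.exp 1)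
    (fun s hs w => (hf.by' _ _).trans ?_)
    fun s w => (hf.dy (x - w.1) (s - w.2)).comp_sub_const s w.2⟩
  rw [mul_assoc, ← Real.exp_add]
  refine mul_le_mul_of_nonneg_left (Real.exp_le_exp.2 ?_) (EDC3_nonneg hf)
  have h1 := abs_sub_le y s w.2
  have h2 : |y - s| < 1 := by rwa [Metric.mem_ball, dist_comm, Real.dist_eq] at hs
  linarith

/-- Differentiation under the integral sign
(`hasDerivAt_integral_of_dominated_loc_of_deriv_le`, `Kn_exp`). -/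
theorem U_hasDerivAt (hf : Dec B f fx fy) (x y : ℝ) :
    HasDerivAt (fun x' => U1 f x' y) (U1 fx x y) x ∧
    HasDerivAt (fun y' => U1 f x y') (U1 fy x y) y ∧
    HasDerivAt (fun x' => U2 f x' y) (U2 fx x y) x ∧
    HasDerivAt (fun y' => U2 f x y') (U2 fy x y) y :=
  ⟨(EDC3_dxy K1_meas EDC3_K1 hf x y).1, (EDC3_dxy K1_meas EDC3_K1 hf x y).2,
    (EDC3_dxy K2_meas EDC3_K2 hf x y).1, (EDC3_dxy K2_meas EDC3_K2 hf x y).2⟩

/-- `pompeiu` for `h a b = f (x - a) (y - b)` (in `Dec (B * exp |y|)`), real and imaginary parts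
(`kc_eq`). -/
theorem div_curl (hf : Dec B f fx fy) (x y : ℝ) :
    U1 fx x y + U2 fy x y = 0 ∧ U2 fx x y - U1 fy x y = f x y := by
  have hg := EDC3_refl hf x y
  obtain ⟨h1, h2, h3, h4⟩ := EDC3_four hg
  have h5 : ∫ w in cyl0, EDC3_Phi (fun a b => -fx (x - a) (y - b))
      (fun a b => -fy (x - a) (y - b)) w = _ := pompeiu hg
  simp only [EDC3_Phi_eq] at h5
  have h8 : IntegrableOn (fun w : ℝ × ℝ => ((K1 w.1 w.2 * -fx (x - w.1) (y - w.2) +
      K2 w.1 w.2 * -fy (x - w.1) (y - w.2) : ℝ) : ℂ)) cyl0 := (h1.add h2).ofReal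
  have h9 : IntegrableOn (fun w : ℝ × ℝ => ((K1 w.1 w.2 * -fy (x - w.1) (y - w.2) -
      K2 w.1 w.2 * -fx (x - w.1) (y - w.2) : ℝ) : ℂ)) cyl0 := (h3.sub h4).ofReal
  rw [integral_add h8 (h9.mul_const Complex.I), integral_mul_const, integral_complex_ofReal,
    integral_complex_ofReal, integral_add h1 h2, integral_sub h3 h4] at h5
  simp only [mul_neg, integral_neg, sub_zero] at h5
  have h6 := congrArg Complex.re h5
  have h7 := congrArg Complex.im h5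
  simp only [Complex.add_re, Complex.add_im, Complex.mul_re, Complex.mul_im, Complex.ofReal_re,
    Complex.ofReal_im, Complex.I_re, Complex.I_im] at h6 h7
  unfold U1 U2
  constructor <;> linarith

end Pool.Agent.Lib.MP_3d41d4_an
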