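import Pool.Agent.Lib.MP_3d41d4_an.Defs

/-!
Internal definitions for the existence and uniqueness of the Navier-Stokes solution.
-/

open MeasureTheory Set Filter Topology Real
open scoped ENNReal

namespace Pool.Agent.Lib.MP_3d41d4_an

/-- Complex space-time points `(t, x, y)`. -/
abbrev C3 : Type := ℂ × ℂ × ℂ

/-- A real space-time point. -/
def rp (t x y : ℝ) : C3 := ((t : ℂ), (x : ℂ), (y : ℂ))

/-- Continuous periodic data bounded by `M`. -/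
structure Dat (M : ℝ) (φ γ : ℝ → ℝ) : Prop where
  one_le : 1 ≤ M
  cφ : Continuous φ
  pφ : Function.Periodic φ (2 * π)
  cγ : Continuous γ
  pγ : Function.Periodic γ (2 * π)
  bφ : ∀ x, |φ x| ≤ M
  bγ : ∀ x, |γ x| ≤ M

/-! ### Heat kernels -/

/-- First partial derivative of the heat kernel. -/
noncomputable def Gx (a r Y : ℝ) : ℝ := -r / (2 * a) * G a r Y

/-- Second partial derivative of the heat kernel. -/
noncomputable def Gy (a r Y : ℝ) : ℝ := -Y / (2 * a) * G a r Y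

/-- The heat kernel at complex arguments. -/
noncomputable def Gc (a X Y : ℂ) : ℂ :=
  Complex.exp (-((X ^ 2 + Y ^ 2) / (4 * a))) / (4 * (π : ℂ) * a)

noncomputable def Gcx (a X Y : ℂ) : ℂ := -X / (2 * a) * Gc a X Y

noncomputable def Gcy (a X Y : ℂ) : ℂ := -Y / (2 * a) * Gc a X Y

/-- Admissible complex arguments of the heat kernel. -/
def adm (a X Y : ℂ) : Prop :=
  0 < a.re ∧ 4 * |a.im| ≤ a.re ∧ X.im ^ 2 ≤ a.re ∧ Y.im ^ 2 ≤ a.re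

/-- The majorant: heat evolution of the measure `dx` on the graph of `φ`. -/
noncomputable def gm (φ : ℝ → ℝ) (a x y : ℝ) : ℝ := ∫ r, G a (x - r) (y - φ r)

/-- Heat evolution of the initial measure. -/
noncomputable def lin (φ γ : ℝ → ℝ) (a x y : ℝ) : ℝ := ∫ r, G a (x - r) (y - φ r) * γ r

noncomputable def linc (φ γ : ℝ → ℝ) (a X Y : ℂ) : ℂ :=
  ∫ r : ℝ, Gc a (X - r) (Y - (φ r : ℝ)) * (γ r : ℝ)

/-- The heat semigroup. -/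
noncomputable def hc (a : ℝ) (f : ℝ → ℝ → ℝ) (x y : ℝ) : ℝ :=
  ∫ q : ℝ × ℝ, G a (x - q.1) (y - q.2) * f q.1 q.2

/-- `∇ G_a * (F₁, F₂)`. -/
noncomputable def dv (a : ℝ) (F₁ F₂ : ℝ → ℝ → ℝ) (x y : ℝ) : ℝ :=
  ∫ q : ℝ × ℝ, (Gx a (x - q.1) (y - q.2) * F₁ q.1 q.2 + Gy a (x - q.1) (y - q.2) * F₂ q.1 q.2)

noncomputable def dvc (a X Y : ℂ) (F₁ F₂ : ℝ × ℝ → ℂ) : ℂ :=
  ∫ w : ℝ × ℝ, (Gcx a (X - w.1) (Y - w.2) * F₁ w + Gcy a (X - w.1) (Y - w.2) * F₂ w)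

/-! ### Biot-Savart law in translation form -/

/-- Size of the Biot-Savart kernel. -/
noncomputable def Kn (w : ℝ × ℝ) : ℝ := |K1 w.1 w.2| + |K2 w.1 w.2|

noncomputable def U1 (f : ℝ → ℝ → ℝ) (x y : ℝ) : ℝ :=
  ∫ w in cyl0, K1 w.1 w.2 * f (x - w.1) (y - w.2)

noncomputable def U2 (f : ℝ → ℝ → ℝ) (x y : ℝ) : ℝ :=
  ∫ w in cyl0, K2 w.1 w.2 * f (x - w.1) (y - w.2)

/-- Real translation of the space variables. -/
def sh (p : C3) (w : ℝ × ℝ) : C3 := (p.1, p.2.1 - w.1, p.2.2 - w.2)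

noncomputable def Uc1 (W : C3 → ℂ) (p : C3) : ℂ := ∫ w in cyl0, (K1 w.1 w.2 : ℝ) * W (sh p w)

noncomputable def Uc2 (W : C3 → ℂ) (p : C3) : ℂ := ∫ w in cyl0, (K2 w.1 w.2 : ℝ) * W (sh p w)

/-! ### Mild solutions -/

/-- The Duhamel integrand `∇ G_a * (u f)`, `u` the velocity of `f`. -/
noncomputable def duh (a : ℝ) (f : ℝ → ℝ → ℝ) (x y : ℝ) : ℝ :=
  dv a (fun x' y' => U1 f x' y' * f x' y') (fun x' y' => U2 f x' y' * f x' y') x y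

noncomputable def duhc (a X Y : ℂ) (f : ℝ → ℝ → ℝ) : ℂ :=
  dvc a X Y (fun w => ((U1 f w.1 w.2 * f w.1 w.2 : ℝ) : ℂ))
    (fun w => ((U2 f w.1 w.2 * f w.1 w.2 : ℝ) : ℂ))

/-- Mild solution on `(0, T)` dominated by `N` times the majorant. -/
structure Mild (ν T N : ℝ) (φ γ : ℝ → ℝ) (ω : ℝ → ℝ → ℝ → ℝ) : Prop where
  nonneg : 0 ≤ N
  meas : Measurable fun p : ℝ × ℝ × ℝ => ω p.1 p.2.1 p.2.2
  per : ∀ t ∈ Ioo 0 T, ∀ x y, ω t (x + 2 * π) y = ω t x y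
  bd : ∀ t ∈ Ioo 0 T, ∀ x y, |ω t x y| ≤ N * gm φ (2 * (ν * t)) x y
  eq : ∀ t ∈ Ioo 0 T, ∀ x y,
    ω t x y = lin φ γ (ν * t) x y - ∫ s in Ioo 0 t, duh (ν * (t - s)) (ω s) x y

/-- The time weight. -/
noncomputable def tw (t s : ℝ) : ℝ := 1 / √(t - s) * (1 + 1 / √(√s))

/-! ### The complex cone -/

/-- The cone with vertex `T₀`. -/
def cone (ν T₀ δ : ℝ) : Set C3 :=
  {p | T₀ < p.1.re ∧ p.1.re < T₀ + δ ∧ 4 * |p.1.im| < p.1.re - T₀ ∧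
    p.2.1.im ^ 2 < ν * (p.1.re - T₀) ∧ p.2.2.im ^ 2 < ν * (p.1.re - T₀)}

/-- Holomorphic functions on the cone dominated by `A` times the majorant. -/
structure CH (ν T₀ δ A : ℝ) (φ : ℝ → ℝ) (W : C3 → ℂ) : Prop where
  nonneg : 0 ≤ A
  diff : DifferentiableOn ℂ W (cone ν T₀ δ)
  per : ∀ p ∈ cone ν T₀ δ, W (p.1, p.2.1 + 2 * (π : ℂ), p.2.2) = W p
  bd : ∀ p ∈ cone ν T₀ δ, ‖W p‖ ≤ A * gm φ (2 * (ν * p.1.re)) p.2.1.re p.2.2.re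
  real : ∀ t x y : ℝ, rp t x y ∈ cone ν T₀ δ → (W (rp t x y)).im = 0

/-- The integration point of the Duhamel term inside the cone. -/
def cpt (T₀ σ : ℝ) (p : C3) (w : ℝ × ℝ) : C3 :=
  ((T₀ : ℂ) + σ * (p.1 - T₀), σ * p.2.1 + w.1, σ * p.2.2 + w.2)

/-- The Duhamel integrand inside the cone (velocity of `W`, vorticity `W'`). -/
noncomputable def cI (ν T₀ : ℝ) (W W' : C3 → ℂ) (p : C3) (σ : ℝ) : ℂ :=
  (p.1 - T₀) * dvc ((ν : ℂ) * ((1 - σ) * (p.1 - T₀))) ((1 - σ) * p.2.1) ((1 - σ) * p.2.2)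
    (fun w => Uc1 W (cpt T₀ σ p w) * W' (cpt T₀ σ p w))
    (fun w => Uc2 W (cpt T₀ σ p w) * W' (cpt T₀ σ p w))

/-- The Duhamel term inside the cone. -/
noncomputable def cB (ν T₀ : ℝ) (W W' : C3 → ℂ) (p : C3) : ℂ :=
  ∫ σ in Ioo (0 : ℝ) 1, cI ν T₀ W W' p σ

/-- The contribution of the times before the vertex of the cone. -/
noncomputable def hist (ν T₀ : ℝ) (φ γ : ℝ → ℝ) (ω : ℝ → ℝ → ℝ → ℝ) (p : C3) : ℂ :=
  linc φ γ ((ν : ℂ) * p.1) p.2.1 p.2.2 -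
    ∫ s in Ioo 0 T₀, duhc ((ν : ℂ) * (p.1 - s)) p.2.1 p.2.2 (ω s)

/-! ### Regularity classes -/

/-- A complex neighbourhood of a time interval times the plane. -/
def slab (t₁ r : ℝ) : Set C3 := {p | ‖p.1 - t₁‖ < r ∧ |p.2.1.im| < r ∧ |p.2.2.im| < r}

/-- Holomorphic on a slab with exponential weight `κ`. -/
structure Reg (κ t₁ r B : ℝ) (W : C3 → ℂ) : Prop where
  diff : DifferentiableOn ℂ W (slab t₁ r)
  bd : ∀ p ∈ slab t₁ r, ‖W p‖ ≤ B * Real.exp (-(κ * |p.2.2.re|))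

noncomputable def dT (f : ℝ → ℝ → ℝ → ℝ) (t x y : ℝ) : ℝ := deriv (fun s => f s x y) t

noncomputable def dX (f : ℝ → ℝ → ℝ → ℝ) (t x y : ℝ) : ℝ := deriv (fun x' => f t x' y) x

noncomputable def dY (f : ℝ → ℝ → ℝ → ℝ) (t x y : ℝ) : ℝ := deriv (fun y' => f t x y') y

/-- Continuous on `I × ℝ²` and bounded by `B exp (-κ |y|)`. -/
structure Sm0 (κ : ℝ) (I : Set ℝ) (B : ℝ) (f : ℝ → ℝ → ℝ → ℝ) : Prop where
  cont : ContinuousOn (fun p : ℝ × ℝ × ℝ => f p.1 p.2.1 p.2.2) (I ×ˢ univ)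
  bd : ∀ t ∈ I, ∀ x y, |f t x y| ≤ B * Real.exp (-(κ * |y|))

/-- The three partial derivatives exist on `I × ℝ²`. -/
structure Dif (I : Set ℝ) (f : ℝ → ℝ → ℝ → ℝ) : Prop where
  dt : ∀ t ∈ I, ∀ x y, HasDerivAt (fun s => f s x y) (dT f t x y) t
  dx : ∀ t ∈ I, ∀ x y, HasDerivAt (fun x' => f t x' y) (dX f t x y) x
  dy : ∀ t ∈ I, ∀ x y, HasDerivAt (fun y' => f t x y') (dY f t x y) y

/-- All iterated partial derivatives up to the order `n` are in `Sm0`. -/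
def Sm (κ : ℝ) (I : Set ℝ) (B : ℝ) : ℕ → (ℝ → ℝ → ℝ → ℝ) → Prop
  | 0, f => Sm0 κ I B f
  | n + 1, f => Sm0 κ I B f ∧ Dif I f ∧ Sm κ I B n (dT f) ∧ Sm κ I B n (dX f) ∧ Sm κ I B n (dY f)

/-- Classical regularity of a vorticity and its velocity on `(0, T)`. -/
structure Cl (T : ℝ) (ω u v : ℝ → ℝ → ℝ → ℝ) : Prop where
  cω : ContDiffOn ℝ 2 (fun p : ℝ × ℝ × ℝ => ω p.1 p.2.1 p.2.2) (Ioo 0 T ×ˢ univ)
  cu : ContDiffOn ℝ 1 (fun p : ℝ × ℝ × ℝ => u p.1 p.2.1 p.2.2) (Ioo 0 T ×ˢ univ)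
  cv : ContDiffOn ℝ 1 (fun p : ℝ × ℝ × ℝ => v p.1 p.2.1 p.2.2) (Ioo 0 T ×ˢ univ)
  loc : ∀ t₁ ∈ Ioo 0 T, ∃ r B : ℝ, 0 < r ∧ 0 ≤ B ∧ Ioo (t₁ - r) (t₁ + r) ⊆ Ioo 0 T ∧
    Sm 1 (Ioo (t₁ - r) (t₁ + r)) B 3 ω ∧ Sm 0 (Ioo (t₁ - r) (t₁ + r)) B 2 u ∧
      Sm 0 (Ioo (t₁ - r) (t₁ + r)) B 2 v

/-- A `C¹` function of `(x, y)` with exponential decay, with its partial derivatives. -/
structure Dec (B : ℝ) (f fx fy : ℝ → ℝ → ℝ) : Prop where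
  c0 : Continuous fun p : ℝ × ℝ => f p.1 p.2
  cx : Continuous fun p : ℝ × ℝ => fx p.1 p.2
  cy : Continuous fun p : ℝ × ℝ => fy p.1 p.2
  per : ∀ x y, f (x + 2 * π) y = f x y
  dx : ∀ x y, HasDerivAt (fun x' => f x' y) (fx x y) x
  dy : ∀ x y, HasDerivAt (fun y' => f x y') (fy x y) y
  b0 : ∀ x y, |f x y| ≤ B * Real.exp (-|y|)
  bx : ∀ x y, |fx x y| ≤ B * Real.exp (-|y|)
  by' : ∀ x y, |fy x y| ≤ B * Real.exp (-|y|)

/-- The vorticity equation and incompressibility on `(0, T)`. -/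
structure Pde (ν T : ℝ) (ω u v : ℝ → ℝ → ℝ → ℝ) : Prop where
  pde : ∀ t ∈ Ioo 0 T, ∀ x y, dT ω t x y + u t x y * dX ω t x y + v t x y * dY ω t x y
    = ν * (dX (dX ω) t x y + dY (dY ω) t x y)
  div : ∀ t ∈ Ioo 0 T, ∀ x y, dX u t x y + dY v t x y = 0

end Pool.Agent.Lib.MP_3d41d4_an
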