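import Pool.Agent.Lib.MP_3d41d4_an.EGm
import Pool.Agent.Lib.MP_3d41d4_an.EHol1

open MeasureTheory Set Filter Topology Real
open scoped ENNReal

namespace Pool.Agent.Lib.MP_3d41d4_an

variable {φ γ : ℝ → ℝ} {M : ℝ}

theorem linc_ofReal (φ γ : ℝ → ℝ) (a x y : ℝ) : linc φ γ a x y = (lin φ γ a x y : ℝ) := by
  unfold linc lin
  rw [← integral_complex_ofReal]
  refine integral_congr_ae (Eventually.of_forall fun r => ?_)
  simp only []
  rw [← Complex.ofReal_sub, ← Complex.ofReal_sub, Gc_ofReal, Complex.ofReal_mul]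

theorem ELin_pt {C : ℝ} (hC : ∀ a X Y : ℂ, adm a X Y → ‖Gc a X Y‖ ≤ C * G (2 * a.re) X.re Y.re)
    (h : Dat M φ γ) {a X Y : ℂ} (ha : adm a X Y) (r : ℝ) :
    ‖Gc a (X - r) (Y - (φ r : ℝ)) * (γ r : ℝ)‖ ≤
      C * M * G (2 * a.re) (X.re - r) (Y.re - φ r) := by
  have h1 := hC a _ _ (ha.sub_ofReal r (φ r))
  simp only [Complex.sub_re, Complex.ofReal_re] at h1
  rw [norm_mul, Complex.norm_real, Real.norm_eq_abs, mul_right_comm]
  exact mul_le_mul h1 (h.bγ r) (abs_nonneg _) ((norm_nonneg _).trans h1)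

theorem ELin_int (h : Dat M φ γ) {a : ℝ} (ha : 0 < a) (x y : ℝ) :
    Integrable fun r => G a (x - r) (y - φ r) * γ r :=
  (gm_integrable h.cφ ha x y).mul_bdd h.cγ.aestronglyMeasurable (Eventually.of_forall h.bγ)



theorem linc_bound : ∃ C : ℝ, 0 < C ∧ ∀ {M : ℝ} {φ γ : ℝ → ℝ}, Dat M φ γ → ∀ a X Y : ℂ,
    adm a X Y → ‖linc φ γ a X Y‖ ≤ C * M * gm φ (2 * a.re) X.re Y.re := by
  obtain ⟨C, hC, h1⟩ := ker_bound
  refine ⟨C, hC, fun {M φ γ} h a X Y ha => ?_⟩
  unfold linc gm
  rw [← integral_const_mul]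
  exact norm_integral_le_of_norm_le
    ((gm_integrable h.cφ (mul_pos two_pos ha.1) X.re Y.re).const_mul _)
    (Eventually.of_forall (ELin_pt (fun a X Y h => (h1 a X Y h).1) h ha))

theorem lin_bound : ∃ C : ℝ, 0 < C ∧ ∀ {M : ℝ} {φ γ : ℝ → ℝ}, Dat M φ γ → ∀ a x y : ℝ, 0 < a →
    Integrable (fun r => G a (x - r) (y - φ r) * γ r) ∧
      |lin φ γ a x y| ≤ C * M * gm φ (2 * a) x y := by
  obtain ⟨C, hC, h1⟩ := linc_bound
  refine ⟨C, hC, fun {M φ γ} h a x y ha => ⟨ELin_int h ha x y, ?_⟩⟩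
  have := h1 h a x y (adm_ofReal ha x y)
  rwa [linc_ofReal, Complex.norm_real, Real.norm_eq_abs, Complex.ofReal_re, Complex.ofReal_re,
    Complex.ofReal_re] at this

theorem linc_per (h : Dat M φ γ) (a X Y : ℂ) :
    linc φ γ a (X + 2 * (π : ℂ)) Y = linc φ γ a X Y := by
  unfold linc
  rw [← integral_add_right_eq_self _ (2 * π)]
  refine integral_congr_ae (Eventually.of_forall fun r => ?_)
  have e : X + 2 * (π : ℂ) - ((r + 2 * π : ℝ) : ℂ) = X - r := by
    push_cast
    ring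
  simp only []
  rw [h.pφ r, h.pγ r, e]

theorem lin_meas (h : Dat M φ γ) {Λ : Type} [MeasurableSpace Λ] {a x y : Λ → ℝ}
    (ha : Measurable a) (hx : Measurable x) (hy : Measurable y) :
    Measurable fun l => lin φ γ (a l) (x l) (y l) := by
  have h1 := h.cφ.measurable
  have h2 := h.cγ.measurable
  have : Measurable fun q : Λ × ℝ => G (a q.1) (x q.1 - q.2) (y q.1 - φ q.2) * γ q.2 :=
    (measurable_G (by fun_prop) (by fun_prop) (by fun_prop)).mul (by fun_prop)
  exact (this.stronglyMeasurable.integral_prod_right' (ν := volume)).measurable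

/-- Sketch: `hol_integral`, `ker_diffAt`, `ker_bound`; local domination by a Gaussian in `r`
from `G_loc` (continuity of `a, X, Y` at `p₀`; take `w₂ = φ r` and `exp (-c w₂²) ≤ 1`). -/
theorem linc_diff (h : Dat M φ γ) {D : Set C3} (hD : IsOpen D) {a X Y : C3 → ℂ}
    (ha : Differentiable ℂ a) (hX : Differentiable ℂ X) (hY : Differentiable ℂ Y)
    (hadm : ∀ p ∈ D, adm (a p) (X p) (Y p)) :
    DifferentiableOn ℂ (fun p => linc φ γ (a p) (X p) (Y p)) D := by
  obtain ⟨C, hC, h1⟩ := ker_bound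
  have m1 := h.cφ.measurable
  have m2 := h.cγ.measurable
  refine hol_integral (F := fun p r => Gc (a p) (X p - (r : ℝ)) (Y p - (φ r : ℝ)) * (γ r : ℝ)) hD
    (fun p _ => ?_) (Eventually.of_forall fun r p hp => ?_) fun p₀ hp₀ => ?_
  · exact ((ker_meas (a := fun _ => a p) (X := fun r : ℝ => X p - r)
      (Y := fun r : ℝ => Y p - (φ r : ℝ)) (by fun_prop) (by fun_prop) (by fun_prop)).1.mul
      (by fun_prop)).aestronglyMeasurable
  · have h0 : a p ≠ 0 := fun e => by
      have := (hadm p hp).1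
      rw [e] at this
      exact lt_irrefl _ this
    exact ((ker_diffAt (X := fun q => X q - r) (Y := fun q => Y q - (φ r : ℝ)) (ha p)
      ((hX p).sub_const _) ((hY p).sub_const _) h0).1.mul_const _).differentiableWithinAt
  · have hb := (hadm p₀ hp₀).1
    obtain ⟨K, c, hK, hc, h2⟩ := G_loc hb (3 * (a p₀).re) (|(X p₀).re| + |(Y p₀).re| + 1)
    have c1 : Continuous fun p => 2 * (a p).re :=
      continuous_const.mul (Complex.continuous_re.comp ha.continuous)
    have c2 : Continuous fun p => |(X p).re| := (Complex.continuous_re.comp hX.continuous).abs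
    have c3 : Continuous fun p => |(Y p).re| := (Complex.continuous_re.comp hY.continuous).abs
    have n1 := abs_nonneg (X p₀).re
    have n2 := abs_nonneg (Y p₀).re
    have e1 : ∀ᶠ p in 𝓝 p₀, 2 * (a p).re ∈ Icc (a p₀).re (3 * (a p₀).re) :=
      c1.continuousAt.eventually_mem (Icc_mem_nhds (by linarith) (by linarith))
    have e2 : ∀ᶠ p in 𝓝 p₀, |(X p).re| ≤ |(X p₀).re| + |(Y p₀).re| + 1 :=
      c2.continuousAt.eventually_mem (Iic_mem_nhds (by linarith))
    have e3 : ∀ᶠ p in 𝓝 p₀, |(Y p).re| ≤ |(X p₀).re| + |(Y p₀).re| + 1 :=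
      c3.continuousAt.eventually_mem (Iic_mem_nhds (by linarith))
    obtain ⟨ε, hε, h3⟩ := Metric.eventually_nhds_iff.1 (e1.and (e2.and e3))
    refine ⟨ε, hε, fun r => C * M * (K * Real.exp (-c * r ^ 2)),
      ((integrable_exp_neg_mul_sq hc).const_mul _).const_mul _,
      Eventually.of_forall fun r p hp hd => ?_⟩
    obtain ⟨h4, h5, h6⟩ := h3 hd
    refine (ELin_pt (fun a X Y h => (h1 a X Y h).1) h (hadm p hp) r).trans
      (mul_le_mul_of_nonneg_left ((h2 _ h4 _ _ h5 h6 r (φ r)).trans ?_)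
        (mul_nonneg hC.le (zero_le_one.trans h.one_le)))
    rw [neg_mul]
    exact mul_le_mul_of_nonneg_left (mul_le_of_le_one_right (Real.exp_pos _).le
      (Real.exp_le_one_iff.2 (neg_nonpos.2 (by positivity)))) hK.le

/-- Semigroup property (Fubini and `G_conv`). -/
theorem hc_lin (h : Dat M φ γ) {κ a : ℝ} (hκ : 0 < κ) (ha : 0 < a) (x y : ℝ) :
    hc κ (lin φ γ a) x y = lin φ γ (a + κ) x y := by
  have m1 := h.cφ.measurable
  have m2 := h.cγ.measurable
  have hm : Measurable fun z : (ℝ × ℝ) × ℝ =>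
      G κ (x - z.1.1) (y - z.1.2) * G a (z.1.1 - z.2) (z.1.2 - φ z.2) * γ z.2 :=
    ((measurable_G (by fun_prop) (by fun_prop) (by fun_prop)).mul
      (measurable_G (by fun_prop) (by fun_prop) (by fun_prop))).mul (by fun_prop)
  have hi : Integrable (Function.uncurry fun (q : ℝ × ℝ) (r : ℝ) =>
      G κ (x - q.1) (y - q.2) * G a (q.1 - r) (q.2 - φ r) * γ r) (volume.prod volume) := by
    refine (integrable_prod_iff' hm.aestronglyMeasurable).2 ⟨Eventually.of_forall fun r =>
      (G_conv hκ ha x y r (φ r)).1.mul_const (γ r), ?_⟩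
    refine (ELin_int h (add_pos hκ ha) x y).norm.congr (Eventually.of_forall fun r => ?_)
    simp only []
    rw [norm_mul, Real.norm_of_nonneg (G_nonneg (add_pos hκ ha).le _ _),
      ← (G_conv hκ ha x y r (φ r)).2, ← integral_mul_const]
    refine integral_congr_ae (Eventually.of_forall fun q => ?_)
    simp only []
    rw [norm_mul, Real.norm_of_nonneg (mul_nonneg (G_nonneg hκ.le _ _) (G_nonneg ha.le _ _))]
  have := integral_integral_swap hi
  unfold hc lin
  simp only [← integral_const_mul, ← mul_assoc]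
  rw [this, add_comm a κ]
  refine integral_congr_ae (Eventually.of_forall fun r => ?_)
  simp only []
  rw [integral_mul_const, (G_conv hκ ha x y r (φ r)).2]

end Pool.Agent.Lib.MP_3d41d4_an
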