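import Pool.Agent.Lib.MP_3d41d4_an.EDv2
import Pool.Agent.Lib.MP_3d41d4_an.ETime
import Pool.Agent.Lib.MP_3d41d4_an.ELin

open MeasureTheory Set Filter Topology Real
open scoped ENNReal

namespace Pool.Agent.Lib.MP_3d41d4_an

variable {ν T N M : ℝ} {φ γ : ℝ → ℝ} {ω : ℝ → ℝ → ℝ → ℝ}

theorem Mild.mono_T (h : Mild ν T N φ γ ω) {T' : ℝ} (hT : T' ≤ T) : Mild ν T' N φ γ ω := by
  have hI : Ioo 0 T' ⊆ Ioo 0 T := Ioo_subset_Ioo_right hT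
  exact ⟨h.nonneg, h.meas, fun t ht => h.per t (hI ht), fun t ht => h.bd t (hI ht),
    fun t ht => h.eq t (hI ht)⟩

theorem Mild.mono_N (h : Mild ν T N φ γ ω) (hν : 0 < ν) {N' : ℝ} (hN : N ≤ N') :
    Mild ν T N' φ γ ω := by
  refine ⟨h.nonneg.trans hN, h.meas, h.per, fun t ht x y => (h.bd t ht x y).trans ?_, h.eq⟩
  have := ht.1
  exact mul_le_mul_of_nonneg_right hN (gm_nonneg φ (by positivity) x y)

theorem Mild.slice (h : Mild ν T N φ γ ω) (s : ℝ) : Measurable fun p : ℝ × ℝ => ω s p.1 p.2 := by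
  exact h.meas.comp (f := fun p : ℝ × ℝ => (s, p)) measurable_prodMk_left

theorem mild_zero (ν : ℝ) (φ γ : ℝ → ℝ) : Mild ν 0 0 φ γ fun _ _ _ => 0 := by
  exact ⟨le_rfl, measurable_const, fun _ _ _ _ => rfl, fun t ht => (ht.1.trans ht.2).false.elim,
    fun t ht => (ht.1.trans ht.2).false.elim⟩

theorem EDuh_dv (hν : 0 < ν) : ∃ C : ℝ, 0 < C ∧ ∀ φ : ℝ → ℝ, Continuous φ →
    ∀ (F₁ F₂ : ℝ → ℝ → ℝ) (B κ t s : ℝ), (Measurable fun p : ℝ × ℝ => F₁ p.1 p.2) →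
      (Measurable fun p : ℝ × ℝ => F₂ p.1 p.2) → 0 ≤ B → 0 ≤ κ → 0 < s → s < t →
      (∀ x y, |F₁ x y| ≤ B * (1 + 1 / √(√s)) * gm φ (2 * (ν * s)) x y) →
      (∀ x y, |F₂ x y| ≤ B * (1 + 1 / √(√s)) * gm φ (2 * (ν * s)) x y) → ∀ x y,
      |dv (ν * (t - s) + κ) F₁ F₂ x y| ≤ C * B * tw t s * gm φ (2 * (ν * t + κ)) x y := by
  obtain ⟨C₁, h₁, H₁⟩ := dv_bound
  obtain ⟨C₂, h₂, -, H₂⟩ := tw_nu hν
  refine ⟨C₁ * C₂, mul_pos h₁ h₂, fun φ hφ F₁ F₂ B κ t s m₁ m₂ hB hκ hs hst b₁ b₂ x y => ?_⟩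
  have h0 : 0 < ν * (t - s) := mul_pos hν (sub_pos.2 hst)
  have h1 := H₁ φ hφ (ν * (t - s) + κ) (2 * (ν * s)) _ F₁ F₂ (by positivity) (by positivity)
    (by positivity) m₁ m₂ b₁ b₂ x y
  rw [show 2 * (ν * (t - s) + κ) + 2 * (ν * s) = 2 * (ν * t + κ) by ring] at h1
  have ht : 0 < t := hs.trans hst
  refine h1.trans (mul_le_mul_of_nonneg_right ?_ (gm_nonneg φ (by positivity) x y))
  calc C₁ * (B * (1 + 1 / √(√s))) / √(ν * (t - s) + κ)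
      = C₁ * (B * (1 + 1 / √(√s))) * (1 / √(ν * (t - s) + κ)) := by ring
    _ ≤ C₁ * (B * (1 + 1 / √(√s))) * (C₂ * (1 / √(t - s))) :=
        mul_le_mul_of_nonneg_left (H₂ _ _ (sub_pos.2 hst) (le_add_of_nonneg_right hκ))
          (by positivity)
    _ = C₁ * C₂ * B * tw t s := by rw [tw]; ring

theorem EDuh_mul {u f a b : ℝ} (hu : |u| ≤ a) (hf : |f| ≤ b) : |u * f| ≤ a * b := by
  rw [abs_mul]
  exact mul_le_mul hu hf (abs_nonneg _) ((abs_nonneg _).trans hu)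

theorem EDuh_sub {u v w f g c e a r m : ℝ} (h : w = u - v) (hw : |w| ≤ c * e * r)
    (hv : |v| ≤ c * a * r) (hf : |f| ≤ a * m) (hd : |f - g| ≤ e * m) :
    |u * f - v * g| ≤ 2 * c * a * e * r * m := by
  rw [show u * f - v * g = w * f + v * (f - g) by rw [h]; ring]
  refine (abs_add_le _ _).trans ((add_le_add (EDuh_mul hw hf) (EDuh_mul hv hd)).trans_eq ?_)
  ring

/-- Bound of the Duhamel integrand when the velocity bound is known; `κ ≥ 0` is an extra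
smoothing time. `dv_bound`, `U_meas2`, `tw_nu`. -/
theorem duh_le (hν : 0 < ν) : ∃ C : ℝ, 0 < C ∧ ∀ φ : ℝ → ℝ, Continuous φ →
    ∀ (f : ℝ → ℝ → ℝ) (A R κ t s : ℝ), (Measurable fun p : ℝ × ℝ => f p.1 p.2) → 0 ≤ A → 0 ≤ R →
      0 ≤ κ → 0 < s → s < t → (∀ x y, |f x y| ≤ A * gm φ (2 * (ν * s)) x y) →
      (∀ x y, |U1 f x y| ≤ R * (1 + 1 / √(√s)) ∧ |U2 f x y| ≤ R * (1 + 1 / √(√s))) → ∀ x y,
      |duh (ν * (t - s) + κ) f x y| ≤ C * R * A * tw t s * gm φ (2 * (ν * t + κ)) x y := by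
  obtain ⟨C, hC, H⟩ := EDuh_dv hν
  refine ⟨C, hC, fun φ hφ f A R κ t s mf hA hR hκ hs hst bf bU x y => ?_⟩
  have h1 := H φ hφ (fun x' y' => U1 f x' y' * f x' y') (fun x' y' => U2 f x' y' * f x' y')
    (R * A) κ t s ((U_meas2 mf).1.mul mf) ((U_meas2 mf).2.mul mf) (mul_nonneg hR hA) hκ hs hst
    (fun x y => (EDuh_mul (bU x y).1 (bf x y)).trans_eq (by ring))
    (fun x y => (EDuh_mul (bU x y).2 (bf x y)).trans_eq (by ring)) x y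
  rwa [← mul_assoc C] at h1

/-- Velocity bound from the majorant (`U_gm`, `tw_nu`). -/
theorem U_le (hν : 0 < ν) : ∃ C : ℝ, 0 < C ∧ ∀ φ : ℝ → ℝ, Continuous φ →
    ∀ (f : ℝ → ℝ → ℝ) (A s : ℝ), (Measurable fun p : ℝ × ℝ => f p.1 p.2) → 0 ≤ A → 0 < s →
      (∀ x y, |f x y| ≤ A * gm φ (2 * (ν * s)) x y) → ∀ x y,
      |U1 f x y| ≤ C * A * (1 + 1 / √(√s)) ∧ |U2 f x y| ≤ C * A * (1 + 1 / √(√s)) := by
  obtain ⟨C₁, h₁, H₁⟩ := U_gm
  obtain ⟨C₂, h₂, H₂, -⟩ := tw_nu hν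
  refine ⟨C₁ * C₂, mul_pos h₁ h₂, fun φ hφ f A s mf hA hs bf x y => ?_⟩
  have h1 := H₁ φ hφ (2 * (ν * s)) A (by positivity) hA f mf bf x y
  have h2 : C₁ * A * (1 + 1 / √(√(2 * (ν * s)))) ≤ C₁ * C₂ * A * (1 + 1 / √(√s)) :=
    (mul_le_mul_of_nonneg_left (H₂ s hs) (by positivity)).trans_eq (by ring)
  exact ⟨h1.1.trans h2, h1.2.trans h2⟩

/-- Lipschitz bound: `U f * f - U g * g = U (f - g) * f + U g * (f - g)`; `dv_sub`, `U_sub_gm`,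
`dv_bound`, `gm_le` for boundedness. -/
theorem duh_sub_le (hν : 0 < ν) : ∃ C : ℝ, 0 < C ∧ ∀ φ : ℝ → ℝ, Continuous φ →
    ∀ (f g : ℝ → ℝ → ℝ) (A E t s : ℝ), (Measurable fun p : ℝ × ℝ => f p.1 p.2) →
      (Measurable fun p : ℝ × ℝ => g p.1 p.2) → 0 ≤ A → 0 ≤ E → 0 < s → s < t →
      (∀ x y, |f x y| ≤ A * gm φ (2 * (ν * s)) x y) →
      (∀ x y, |g x y| ≤ A * gm φ (2 * (ν * s)) x y) →
      (∀ x y, |f x y - g x y| ≤ E * gm φ (2 * (ν * s)) x y) → ∀ x y,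
      |duh (ν * (t - s)) f x y - duh (ν * (t - s)) g x y|
        ≤ C * A * E * tw t s * gm φ (2 * (ν * t)) x y := by
  obtain ⟨C₁, h₁, H₁⟩ := EDuh_dv hν
  obtain ⟨C₂, h₂, H₂⟩ := U_le hν
  refine ⟨C₁ * (2 * C₂), by positivity, fun φ hφ f g A E t s mf mg hA hE hs hst bf bg bd x y => ?_⟩
  have hc : 0 < 2 * (ν * s) := by positivity
  have uf := H₂ φ hφ f A s mf hA hs bf
  have ug := H₂ φ hφ g A s mg hA hs bg
  have ud := H₂ φ hφ (fun x y => f x y - g x y) E s (mf.sub mg) hE hs bd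
  have us := U_sub_gm hφ hc mf mg bf bg
  have cf := fun x y => (bf x y).trans (mul_le_mul_of_nonneg_left (gm_le hφ hc x y) hA)
  have cg := fun x y => (bg x y).trans (mul_le_mul_of_nonneg_left (gm_le hφ hc x y) hA)
  have h1 := H₁ φ hφ (fun x y => U1 f x y * f x y - U1 g x y * g x y)
    (fun x y => U2 f x y * f x y - U2 g x y * g x y) (2 * C₂ * A * E) 0 t s
    (((U_meas2 mf).1.mul mf).sub ((U_meas2 mg).1.mul mg))
    (((U_meas2 mf).2.mul mf).sub ((U_meas2 mg).2.mul mg)) (by positivity) le_rfl hs hst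
    (fun x y => EDuh_sub (us x y).1 (ud x y).1 (ug x y).1 (bf x y) (bd x y))
    (fun x y => EDuh_sub (us x y).2 (ud x y).2 (ug x y).2 (bf x y) (bd x y)) x y
  rw [add_zero, add_zero, dv_sub (mul_pos hν (sub_pos.2 hst)) ((U_meas2 mf).1.mul mf)
    ((U_meas2 mf).2.mul mf) ((U_meas2 mg).1.mul mg) ((U_meas2 mg).2.mul mg)
    (fun x y => EDuh_mul (uf x y).1 (cf x y)) (fun x y => EDuh_mul (uf x y).2 (cf x y))
    (fun x y => EDuh_mul (ug x y).1 (cg x y)) (fun x y => EDuh_mul (ug x y).2 (cg x y))] at h1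
  exact h1.trans_eq (by ring)

/-- Integrability in time of the Duhamel integrand up to any time `t ≤ T`, and its size. -/
theorem Mild.duh_int (hν : 0 < ν) : ∃ C : ℝ, 0 < C ∧ ∀ {T N : ℝ} {φ γ : ℝ → ℝ}
    {ω : ℝ → ℝ → ℝ → ℝ}, Continuous φ → Mild ν T N φ γ ω → ∀ κ t : ℝ, 0 ≤ κ → 0 < t → t ≤ T →
      ∀ x y, IntegrableOn (fun s => duh (ν * (t - s) + κ) (ω s) x y) (Ioo 0 t) ∧
        |∫ s in Ioo 0 t, duh (ν * (t - s) + κ) (ω s) x y|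
          ≤ C * N ^ 2 * (√t + √(√t)) * gm φ (2 * (ν * t + κ)) x y := by
  obtain ⟨C₁, h₁, H₁⟩ := duh_le hν
  obtain ⟨C₂, h₂, H₂⟩ := U_le hν
  obtain ⟨C₃, h₃, H₃⟩ := tw_int
  refine ⟨C₁ * C₂ * C₃, by positivity, fun {T N φ γ ω} hφ h κ t hκ ht hT x y => ?_⟩
  have hN := h.nonneg
  have hg : 0 ≤ gm φ (2 * (ν * t + κ)) x y := gm_nonneg φ (by positivity) x y
  have hm : Measurable fun s => duh (ν * (t - s) + κ) (ω s) x y :=
    duh_meas (by fun_prop) measurable_const measurable_const h.meas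
  have hi : IntegrableOn (fun s => C₁ * (C₂ * N) * N * tw t s * gm φ (2 * (ν * t + κ)) x y)
      (Ioo 0 t) := ((H₃ t ht).1.const_mul _).mul_const _
  have hb : ∀ᵐ s ∂volume.restrict (Ioo 0 t), ‖duh (ν * (t - s) + κ) (ω s) x y‖ ≤
      C₁ * (C₂ * N) * N * tw t s * gm φ (2 * (ν * t + κ)) x y :=
    ae_restrict_of_forall_mem measurableSet_Ioo fun s hs => by
      have b := h.bd s ⟨hs.1, hs.2.trans_le hT⟩
      exact H₁ φ hφ (ω s) N (C₂ * N) κ t s (h.slice s) hN (by positivity) hκ hs.1 hs.2 b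
        (H₂ φ hφ (ω s) N s (h.slice s) hN hs.1 b) x y
  refine ⟨hi.mono' hm.aestronglyMeasurable hb, (norm_integral_le_of_norm_le hi hb).trans ?_⟩
  rw [integral_mul_const, integral_const_mul]
  refine mul_le_mul_of_nonneg_right ?_ hg
  exact (mul_le_mul_of_nonneg_left (H₃ t ht).2 (by positivity)).trans_eq (by ring)

end Pool.Agent.Lib.MP_3d41d4_an
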