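import Pool.Agent.Lib.MP_3d41d4_an.EBiot

open MeasureTheory Set Filter Topology Real
open scoped ENNReal

namespace Pool.Agent.Lib.MP_3d41d4_an

theorem dvc_ofReal (a x y : ℝ) (F₁ F₂ : ℝ → ℝ → ℝ) :
    dvc a x y (fun w => (F₁ w.1 w.2 : ℝ)) (fun w => (F₂ w.1 w.2 : ℝ)) = (dv a F₁ F₂ x y : ℝ) := by
  rw [dvc, dv, ← integral_complex_ofReal]
  refine integral_congr_ae (Eventually.of_forall fun w => ?_)
  simp only [← Complex.ofReal_sub, Gcx_ofReal, Gcy_ofReal, Complex.ofReal_add, Complex.ofReal_mul]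

theorem duhc_ofReal (a x y : ℝ) (f : ℝ → ℝ → ℝ) : duhc a x y f = (duh a f x y : ℝ) :=
  dvc_ofReal a x y (fun x' y' => U1 f x' y' * f x' y') fun x' y' => U2 f x' y' * f x' y'

theorem EDv_dom {E : Type} [NormedRing E] [NormedSpace ℝ E] [SecondCountableTopology E]
    {K₁ K₂ F₁ F₂ : ℝ × ℝ → E} {k g : ℝ × ℝ → ℝ} {D B : ℝ} (hK₁ : AEStronglyMeasurable K₁ volume)
    (hK₂ : AEStronglyMeasurable K₂ volume) (hF₁ : AEStronglyMeasurable F₁ volume)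
    (hF₂ : AEStronglyMeasurable F₂ volume) (bK₁ : ∀ w, ‖K₁ w‖ ≤ D * k w)
    (bK₂ : ∀ w, ‖K₂ w‖ ≤ D * k w) (bF₁ : ∀ w, ‖F₁ w‖ ≤ B * g w) (bF₂ : ∀ w, ‖F₂ w‖ ≤ B * g w)
    (hg : Integrable fun w => k w * g w) :
    Integrable (fun w => K₁ w * F₁ w) ∧ Integrable (fun w => K₂ w * F₂ w) ∧
      ‖∫ w, (K₁ w * F₁ w + K₂ w * F₂ w)‖ ≤ 2 * D * B * ∫ w, k w * g w := by
  have key : ∀ {K F : ℝ × ℝ → E}, (∀ w, ‖K w‖ ≤ D * k w) → (∀ w, ‖F w‖ ≤ B * g w) →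
      ∀ w, ‖K w * F w‖ ≤ D * B * (k w * g w) := fun bK bF w =>
    (norm_mul_le _ _).trans ((mul_le_mul (bK w) (bF w) (norm_nonneg _)
      ((norm_nonneg _).trans (bK w))).trans_eq (by ring))
  refine ⟨(hg.const_mul (D * B)).mono' (hK₁.mul hF₁) (.of_forall (key bK₁ bF₁)),
    (hg.const_mul (D * B)).mono' (hK₂.mul hF₂) (.of_forall (key bK₂ bF₂)), ?_⟩
  rw [← integral_const_mul]
  refine norm_integral_le_of_norm_le (hg.const_mul _) (.of_forall fun w => ?_)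
  have h1 := key bK₁ bF₁ w
  have h2 := key bK₂ bF₂ w
  have h3 := norm_add_le (K₁ w * F₁ w) (K₂ w * F₂ w)
  linarith

/-- The key bound: `ker_bound` and `gm_conv`. -/
theorem dvc_bound : ∃ C : ℝ, 0 < C ∧ ∀ φ : ℝ → ℝ, Continuous φ → ∀ a X Y : ℂ, adm a X Y →
    ∀ (c B x₀ y₀ : ℝ) (F₁ F₂ : ℝ × ℝ → ℂ), 0 < c → 0 ≤ B →
      AEStronglyMeasurable F₁ volume → AEStronglyMeasurable F₂ volume →
      (∀ w, ‖F₁ w‖ ≤ B * gm φ c (x₀ + w.1) (y₀ + w.2)) →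
      (∀ w, ‖F₂ w‖ ≤ B * gm φ c (x₀ + w.1) (y₀ + w.2)) →
      Integrable (fun w : ℝ × ℝ => Gcx a (X - w.1) (Y - w.2) * F₁ w) ∧
      Integrable (fun w : ℝ × ℝ => Gcy a (X - w.1) (Y - w.2) * F₂ w) ∧
      ‖dvc a X Y F₁ F₂‖ ≤ C * B / √a.re * gm φ (2 * a.re + c) (x₀ + X.re) (y₀ + Y.re) := by
  obtain ⟨C, hC, h⟩ := ker_bound
  refine ⟨2 * C, by positivity, fun φ hφ a X Y ha c B x₀ y₀ F₁ F₂ hc _ m₁ m₂ b₁ b₂ => ?_⟩
  have hm := ker_meas (a := fun _ : ℝ × ℝ => a) (X := fun w => X - w.1) (Y := fun w => Y - w.2)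
    measurable_const (by fun_prop) (by fun_prop)
  have hb := fun w : ℝ × ℝ => h a _ _ (ha.sub_ofReal w.1 w.2)
  simp only [Complex.sub_re, Complex.ofReal_re] at hb
  obtain ⟨h1, h2⟩ := gm_conv hφ (mul_pos two_pos ha.1) hc X.re Y.re x₀ y₀
  obtain ⟨h3, h4, h5⟩ := EDv_dom hm.2.1.aestronglyMeasurable hm.2.2.aestronglyMeasurable m₁ m₂
    (fun w => (hb w).2.1) (fun w => (hb w).2.2) b₁ b₂ h1
  refine ⟨h3, h4, h5.trans_eq ?_⟩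
  rw [h2]
  ring

theorem dv_bound : ∃ C : ℝ, 0 < C ∧ ∀ φ : ℝ → ℝ, Continuous φ → ∀ (a c B : ℝ)
    (F₁ F₂ : ℝ → ℝ → ℝ), 0 < a → 0 < c → 0 ≤ B → (Measurable fun p : ℝ × ℝ => F₁ p.1 p.2) →
      (Measurable fun p : ℝ × ℝ => F₂ p.1 p.2) → (∀ x y, |F₁ x y| ≤ B * gm φ c x y) →
      (∀ x y, |F₂ x y| ≤ B * gm φ c x y) → ∀ x y,
      |dv a F₁ F₂ x y| ≤ C * B / √a * gm φ (2 * a + c) x y := by
  obtain ⟨C, hC, h⟩ := ker_bound_real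
  refine ⟨2 * C, by positivity, fun φ hφ a c B F₁ F₂ ha hc _ m₁ m₂ b₁ b₂ x y => ?_⟩
  have hm := ker_meas_real (a := fun _ : ℝ × ℝ => a) (r := fun w => x - w.1)
    (Y := fun w => y - w.2) measurable_const (by fun_prop) (by fun_prop)
  obtain ⟨h1, h2⟩ := gm_conv hφ (mul_pos two_pos ha) hc x y 0 0
  simp only [zero_add] at h1 h2
  obtain ⟨-, -, h5⟩ := EDv_dom hm.1.aestronglyMeasurable hm.2.aestronglyMeasurable
    m₁.aestronglyMeasurable m₂.aestronglyMeasurable (fun w => (h a _ _ ha).2.1)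
    (fun w => (h a _ _ ha).2.2) (fun w => b₁ w.1 w.2) (fun w => b₂ w.1 w.2) h1
  refine h5.trans_eq ?_
  rw [h2]
  ring

theorem dv_bdd : ∃ C : ℝ, 0 < C ∧ ∀ (a B : ℝ) (F₁ F₂ : ℝ → ℝ → ℝ), 0 < a →
    (Measurable fun p : ℝ × ℝ => F₁ p.1 p.2) → (Measurable fun p : ℝ × ℝ => F₂ p.1 p.2) →
    (∀ x y, |F₁ x y| ≤ B) → (∀ x y, |F₂ x y| ≤ B) → ∀ x y,
      Integrable (fun q : ℝ × ℝ => Gx a (x - q.1) (y - q.2) * F₁ q.1 q.2) ∧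
      Integrable (fun q : ℝ × ℝ => Gy a (x - q.1) (y - q.2) * F₂ q.1 q.2) ∧
      |dv a F₁ F₂ x y| ≤ C * B / √a := by
  obtain ⟨C, hC, h⟩ := ker_bound_real
  refine ⟨2 * C, by positivity, fun a B F₁ F₂ ha m₁ m₂ b₁ b₂ x y => ?_⟩
  have hm := ker_meas_real (a := fun _ : ℝ × ℝ => a) (r := fun w => x - w.1)
    (Y := fun w => y - w.2) measurable_const (by fun_prop) (by fun_prop)
  have h2 := G_integral (mul_pos two_pos ha) x y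
  obtain ⟨h3, h4, h5⟩ := EDv_dom (g := fun _ => 1) (B := B) hm.1.aestronglyMeasurable
    hm.2.aestronglyMeasurable m₁.aestronglyMeasurable m₂.aestronglyMeasurable
    (fun w => (h a _ _ ha).2.1) (fun w => (h a _ _ ha).2.2)
    (fun w => (b₁ w.1 w.2).trans_eq (mul_one B).symm)
    (fun w => (b₂ w.1 w.2).trans_eq (mul_one B).symm)
    ((G_integrable (mul_pos two_pos ha) x y).mul_const 1)
  refine ⟨h3, h4, h5.trans_eq ?_⟩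
  simp only [mul_one, h2]
  ring

theorem dv_sub {a B B' : ℝ} {F₁ F₂ F₁' F₂' : ℝ → ℝ → ℝ} (ha : 0 < a)
    (m₁ : Measurable fun p : ℝ × ℝ => F₁ p.1 p.2) (m₂ : Measurable fun p : ℝ × ℝ => F₂ p.1 p.2)
    (m₁' : Measurable fun p : ℝ × ℝ => F₁' p.1 p.2) (m₂' : Measurable fun p : ℝ × ℝ => F₂' p.1 p.2)
    (b₁ : ∀ x y, |F₁ x y| ≤ B) (b₂ : ∀ x y, |F₂ x y| ≤ B) (b₁' : ∀ x y, |F₁' x y| ≤ B')
    (b₂' : ∀ x y, |F₂' x y| ≤ B') (x y : ℝ) :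
    dv a (fun x' y' => F₁ x' y' - F₁' x' y') (fun x' y' => F₂ x' y' - F₂' x' y') x y
      = dv a F₁ F₂ x y - dv a F₁' F₂' x y := by
  obtain ⟨C, -, h⟩ := dv_bdd
  obtain ⟨h1, h2, -⟩ := h a B F₁ F₂ ha m₁ m₂ b₁ b₂ x y
  obtain ⟨h3, h4, -⟩ := h a B' F₁' F₂' ha m₁' m₂' b₁' b₂' x y
  refine Eq.trans (integral_congr_ae (Eventually.of_forall fun w => ?_))
    (integral_sub (h1.add h2) (h3.add h4))
  simp only
  ring

end Pool.Agent.Lib.MP_3d41d4_an
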