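import Pool.Agent.Lib.MP_3d41d4_an.EHol1

open MeasureTheory Set Filter Topology Real
open scoped ENNReal

namespace Pool.Agent.Lib.MP_3d41d4_an

lemma EHol2_ball {D : Set C3} (hD : IsOpen D) {p : C3} (hp : p ∈ D) :
    ∃ r > 0, Metric.closedBall p (2 * r) ⊆ D := by
  obtain ⟨ε, hε, h⟩ := Metric.isOpen_iff.1 hD p hp
  exact ⟨ε / 4, by positivity, (Metric.closedBall_subset_ball (by linarith)).trans h⟩

/-- Weierstrass' theorem in three variables.
Sketch: on a closed ball inside `D` the convergence is uniform (compactness); by `hol_fderiv_le`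
applied to `F n - F m` the derivatives are uniformly Cauchy on a smaller ball, hence converge
uniformly; `hasFDerivAt_of_tendstoUniformlyOn`. -/
theorem hol_lim {D : Set C3} (hD : IsOpen D) {F : ℕ → C3 → ℂ} {f : C3 → ℂ}
    (hF : ∀ n, DifferentiableOn ℂ (F n) D) (hl : TendstoLocallyUniformlyOn F f atTop D) :
    DifferentiableOn ℂ f D := by
  intro p hp
  obtain ⟨r, hr, hsub⟩ := EHol2_ball hD hp
  have hu := ((tendstoLocallyUniformlyOn_iff_forall_isCompact hD).1 hl _ hsub
    (isCompact_closedBall p (2 * r))).uniformCauchySeqOn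
  have hb : Metric.ball p r ⊆ D := fun x hx =>
    hsub (Metric.mem_closedBall.2 (by have := Metric.mem_ball.1 hx; linarith))
  have hat : ∀ n, ∀ x ∈ D, DifferentiableAt ℂ (F n) x := fun n x hx =>
    (hF n x hx).differentiableAt (hD.mem_nhds hx)
  have hc : UniformCauchySeqOn (fun n => fderiv ℂ (F n)) atTop (Metric.ball p r) := by
    rw [Metric.uniformCauchySeqOn_iff] at hu ⊢
    intro ε hε
    obtain ⟨N, hN⟩ := hu (ε / 2 * r) (by positivity)
    refine ⟨N, fun m hm n hn x hx => ?_⟩
    have hx2 : Metric.closedBall x r ⊆ Metric.closedBall p (2 * r) :=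
      Metric.closedBall_subset_closedBall' (by have := Metric.mem_ball.1 hx; linarith)
    have h1 := hol_fderiv_le hD ((hF m).sub (hF n)) hr (hx2.trans hsub) (B := ε / 2 * r)
      (fun q hq => by
        have := hN m hm n hn q (hx2 hq)
        rw [dist_eq_norm] at this
        exact this.le)
    rw [fderiv_sub (hat m x (hb hx)) (hat n x (hb hx)), mul_div_cancel_right₀ _ hr.ne'] at h1
    rw [dist_eq_norm]
    linarith
  have ht := hc.tendstoUniformlyOn_of_tendsto
    (f := fun x => limUnder atTop (fun n => fderiv ℂ (F n) x))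
    (fun x hx => (hc.cauchySeq hx).tendsto_limUnder)
  exact (hasFDerivAt_of_tendstoUniformlyOn Metric.isOpen_ball ht
    (fun n x hx => (hat n x (hb hx)).hasFDerivAt) (fun x hx => hl.tendsto_at (hb hx))
    (Metric.mem_ball_self hr)).differentiableAt.differentiableWithinAt

/-- Directional derivatives of a holomorphic function are holomorphic.
Sketch: near `p₀`, for a small fixed `ρ`, `fderiv ℂ f p e` is the derivative at `0` of
`l ↦ f (p + l • e)`, given by the Cauchy formula
(`Complex.two_pi_I_inv_smul_circleIntegral_sub_sq_inv_smul_of_differentiable_on_off_countable` or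
`DifferentiableOn.deriv_eq_smul_circleIntegral`-like lemmas); unfold the circle integral to an
integral over `Ioc 0 (2π)` and use `hol_integral` on the small ball. -/
theorem hol_fderiv_apply {D : Set C3} (hD : IsOpen D) {f : C3 → ℂ} (hf : DifferentiableOn ℂ f D)
    (e : C3) : DifferentiableOn ℂ (fun p => fderiv ℂ f p e) D := by
  intro p₀ hp₀
  obtain ⟨r, hr, hsub⟩ := EHol2_ball hD hp₀
  have hat : ∀ x ∈ D, DifferentiableAt ℂ f x := fun x hx =>
    (hf x hx).differentiableAt (hD.mem_nhds hx)
  set ρ : ℝ := r / (‖e‖ + 1) with hρ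
  have hρ0 : 0 < ρ := by positivity
  have hρe : ρ * ‖e‖ ≤ r := by
    rw [hρ, div_mul_eq_mul_div, div_le_iff₀ (by positivity)]
    nlinarith [norm_nonneg e]
  have hin : ∀ p ∈ Metric.ball p₀ r, ∀ l : ℂ, ‖l‖ ≤ ρ →
      p + l • e ∈ Metric.closedBall p₀ (2 * r) := by
    intro p hp l hl
    have h1 := Metric.mem_ball.1 hp
    have h2 : dist (p + l • e) p ≤ r := by
      rw [dist_eq_norm, add_sub_cancel_left, norm_smul]
      exact (mul_le_mul_of_nonneg_right hl (norm_nonneg e)).trans hρe
    have h3 := dist_triangle (p + l • e) p p₀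
    exact Metric.mem_closedBall.2 (by linarith)
  have hcm : ∀ θ : ℝ, ‖circleMap 0 ρ θ‖ = ρ := fun θ => by
    rw [norm_circleMap_zero, abs_of_pos hρ0]
  obtain ⟨B, hB⟩ := (isCompact_closedBall p₀ (2 * r)).exists_bound_of_continuousOn
    (hf.continuousOn.mono hsub)
  let c : ℝ → ℂ := fun θ => circleMap 0 ρ θ * Complex.I * (1 / (circleMap 0 ρ θ) ^ 2)
  have hc : Continuous c := by
    refine ((continuous_circleMap 0 ρ).mul continuous_const).mul
      (continuous_const.div ((continuous_circleMap 0 ρ).pow 2) fun θ => ?_)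
    exact pow_ne_zero _ (circleMap_ne_center hρ0.ne')
  have hcn : ∀ θ, ‖c θ‖ = ρ * (1 / ρ ^ 2) := fun θ => by
    simp only [c, norm_mul, norm_div, norm_pow, hcm, Complex.norm_I, norm_one, mul_one]
  have key := hol_integral (μ := volume.restrict (Ioc (0 : ℝ) (2 * π))) (D := Metric.ball p₀ r)
    Metric.isOpen_ball (F := fun p θ => c θ * f (p + circleMap 0 ρ θ • e))
    (fun p hp => by
      refine (hc.mul ?_).aestronglyMeasurable
      refine hf.continuousOn.comp_continuous (by fun_prop) fun θ => ?_
      exact hsub (hin p hp _ (hcm θ).le))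
    (Eventually.of_forall fun θ p hp => by
      refine DifferentiableAt.differentiableWithinAt ?_
      refine (differentiableAt_const _).mul ?_
      exact (hat _ (hsub (hin p hp _ (hcm θ).le))).comp p (differentiableAt_id.add_const _))
    (fun p hp => ⟨1, one_pos, fun _ => ρ * (1 / ρ ^ 2) * B, integrable_const _,
      Eventually.of_forall fun θ q hq _ => by
        rw [norm_mul, hcn]
        exact mul_le_mul_of_nonneg_left (hB _ (hin q hq _ (hcm θ).le)) (by positivity)⟩)
  have heq : ∀ p ∈ Metric.ball p₀ r, fderiv ℂ f p e = (2 * π * Complex.I)⁻¹ *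
      ∫ θ in Ioc (0 : ℝ) (2 * π), c θ * f (p + circleMap 0 ρ θ • e) := by
    intro p hp
    have hg : ∀ l : ℂ, ‖l‖ ≤ ρ →
        HasDerivAt (fun l : ℂ => f (p + l • e)) (fderiv ℂ f (p + l • e) e) l := by
      intro l hl
      have h1 : HasDerivAt (fun l : ℂ => p + l • e) e l := by
        simpa using ((hasDerivAt_id l).smul_const e).const_add p
      exact (hat _ (hsub (hin p hp l hl))).hasFDerivAt.comp_hasDerivAt l h1
    have hd : DifferentiableOn ℂ (fun l : ℂ => f (p + l • e)) (Metric.closedBall 0 ρ) :=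
      fun l hl => (hg l (by simpa using hl)).differentiableAt.differentiableWithinAt
    have h2 := hd.deriv_eq_smul_circleIntegral hρ0
    rw [(hg 0 (by simpa using hρ0.le)).deriv, circleIntegral,
      intervalIntegral.integral_of_le (by positivity)] at h2
    simp only [deriv_circleMap, smul_eq_mul, sub_zero, zero_smul, add_zero] at h2
    simp only [c, mul_assoc] at h2 ⊢
    rw [h2, ← mul_assoc, ← mul_assoc, ← mul_assoc, ← mul_assoc, mul_assoc _ (2 : ℂ),
      mul_assoc _ (2 * (π : ℂ)), inv_mul_cancel₀ Complex.two_pi_I_ne_zero, one_mul]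
  have hfin : DifferentiableOn ℂ (fun p => fderiv ℂ f p e) (Metric.ball p₀ r) :=
    (key.const_mul _).congr heq
  exact ((hfin p₀ (Metric.mem_ball_self hr)).differentiableAt
    (Metric.ball_mem_nhds p₀ hr)).differentiableWithinAt

/-- Holomorphic functions of three variables are smooth.
Sketch: induction on `n` for all `f`; `contDiffOn_succ_iff_fderiv_of_isOpen`, and
`contDiffOn_clm_apply` (finite dimension) reduces `fderiv ℂ f` to `fun p => fderiv ℂ f p e`. -/
theorem hol_contDiffOn {D : Set C3} (hD : IsOpen D) {f : C3 → ℂ} (hf : DifferentiableOn ℂ f D)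
    (n : ℕ) : ContDiffOn ℂ n f D := by
  induction n generalizing f with
  | zero => simpa using hf.continuousOn
  | succ n ih =>
    rw [Nat.cast_succ, contDiffOn_succ_iff_fderiv_of_isOpen hD]
    refine ⟨hf, fun h => by simp at h, contDiffOn_clm_apply.2 fun e => ?_⟩
    exact ih (hol_fderiv_apply hD hf e)

end Pool.Agent.Lib.MP_3d41d4_an
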