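import Pool.Agent.Lib.MP_3d41d4_an.EHist
import Pool.Agent.Lib.MP_3d41d4_an.ECone4
import Pool.Agent.Lib.MP_3d41d4_an.EHol2

open MeasureTheory Set Filter Topology Real
open scoped ENNReal

namespace Pool.Agent.Lib.MP_3d41d4_an

variable {ν T₀ δ A : ℝ} {φ : ℝ → ℝ}

/-- The class is closed under limits dominated by the majorant (`hol_lim`; the majorant is
locally bounded on the cone by `gm_le`). -/
theorem CH_lim (hν : 0 < ν) (hT₀ : 0 ≤ T₀) (hφ : Continuous φ) {F : ℕ → C3 → ℂ} {W : C3 → ℂ}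
    (hF : ∀ n, CH ν T₀ δ A φ (F n)) {e : ℕ → ℝ} (he : Tendsto e atTop (𝓝 0))
    (hb : ∀ n, ∀ p ∈ cone ν T₀ δ,
      ‖F n p - W p‖ ≤ e n * gm φ (2 * (ν * p.1.re)) p.2.1.re p.2.2.re) : CH ν T₀ δ A φ W := by
  have hl : ∀ p ∈ cone ν T₀ δ, Tendsto (fun n => F n p) atTop (𝓝 (W p)) := fun p hp =>
    tendsto_iff_norm_sub_tendsto_zero.2 (squeeze_zero (fun _ => norm_nonneg _)
      (fun n => hb n p hp) (by simpa using he.mul_const _))
  refine ⟨(hF 0).nonneg, hol_lim (cone_open ν T₀ δ) (fun n => (hF n).diff) ?_, fun p hp =>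
    tendsto_nhds_unique (hl _ (per_mem_cone hp)) ((hl p hp).congr fun n => ((hF n).per p hp).symm),
    fun p hp => le_of_tendsto' (hl p hp).norm fun n => (hF n).bd p hp, fun t x y hp =>
    tendsto_nhds_unique ((Complex.continuous_im.tendsto _).comp (hl _ hp))
      (tendsto_const_nhds.congr fun n => ((hF n).real t x y hp).symm)⟩
  refine Metric.tendstoLocallyUniformlyOn_iff.2 fun ε hε p₀ hp₀ => ?_
  have h0 : 0 < p₀.1.re := hT₀.trans_lt hp₀.1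
  refine ⟨cone ν T₀ δ ∩ {p | p₀.1.re / 2 < p.1.re}, inter_mem_nhdsWithin _
    ((isOpen_lt continuous_const (by fun_prop)).mem_nhds (half_lt_self h0)), ?_⟩
  have h1 : Tendsto (fun n => |e n| * (1 / √(ν * p₀.1.re))) atTop (𝓝 0) := by
    simpa using he.abs.mul_const (1 / √(ν * p₀.1.re))
  filter_upwards [h1.eventually (gt_mem_nhds hε)] with n hn p hp
  have h2 : p₀.1.re / 2 < p.1.re := hp.2
  have h3 : ν * p₀.1.re ≤ 2 * (ν * p.1.re) := by nlinarith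
  have h4 : 0 < ν * p₀.1.re := mul_pos hν h0
  rw [dist_comm, dist_eq_norm]
  refine ((hb n p hp.1).trans ?_).trans_lt hn
  exact mul_le_mul (le_abs_self _) ((gm_le hφ (h4.trans_le h3) _ _).trans
    (one_div_le_one_div_of_le (Real.sqrt_pos.2 h4) (Real.sqrt_le_sqrt h3)))
    (gm_nonneg φ (h4.le.trans h3) _ _) (abs_nonneg _)

theorem EFix_gm (hν : 0 < ν) (hT₀ : 0 ≤ T₀) (φ : ℝ → ℝ) {p : C3} (hp : p ∈ cone ν T₀ δ) :
    0 ≤ gm φ (2 * (ν * p.1.re)) p.2.1.re p.2.2.re :=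
  gm_nonneg φ (mul_nonneg zero_le_two (mul_nonneg hν.le (hT₀.trans hp.1.le))) _ _

/-- Abstract Picard iteration. Sketch: `F n = Φ^[n] 0`, `‖F (n+1) p - F n p‖ ≤ A 2⁻ⁿ g p`,
`W p = limUnder`, `cauchySeq_of_le_geometric_two`-type bounds, `CH_lim`. -/
theorem CH_picard (hν : 0 < ν) (hT₀ : 0 ≤ T₀) (hφ : Continuous φ) (hA : 0 ≤ A)
    {Φ : (C3 → ℂ) → C3 → ℂ} (hmap : ∀ W, CH ν T₀ δ A φ W → CH ν T₀ δ A φ (Φ W))
    (hlip : ∀ W W' (E : ℝ), CH ν T₀ δ A φ W → CH ν T₀ δ A φ W' → 0 ≤ E →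
      (∀ p ∈ cone ν T₀ δ, ‖W p - W' p‖ ≤ E * gm φ (2 * (ν * p.1.re)) p.2.1.re p.2.2.re) →
      ∀ p ∈ cone ν T₀ δ, ‖Φ W p - Φ W' p‖ ≤ E / 2 * gm φ (2 * (ν * p.1.re)) p.2.1.re p.2.2.re) :
    ∃ W, CH ν T₀ δ A φ W ∧ ∀ p ∈ cone ν T₀ δ, W p = Φ W p := by
  obtain ⟨F, h0, hs⟩ : ∃ F : ℕ → C3 → ℂ, F 0 = (fun _ => 0) ∧ ∀ n, F (n + 1) = Φ (F n) :=
    ⟨fun n => Φ^[n] fun _ => 0, rfl, fun n => Function.iterate_succ_apply' _ _ _⟩
  have hF : ∀ n, CH ν T₀ δ A φ (F n) := fun n => by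
    induction n with
    | zero =>
      rw [h0]
      exact ⟨hA, differentiableOn_const _, fun _ _ => rfl, fun p hp => by
        rw [norm_zero]
        exact mul_nonneg hA (EFix_gm hν hT₀ φ hp), fun _ _ _ _ => rfl⟩
    | succ n ih => exact hs n ▸ hmap _ ih
  have hd : ∀ n, ∀ p ∈ cone ν T₀ δ,
      ‖F n p - F (n + 1) p‖ ≤ A / 2 ^ n * gm φ (2 * (ν * p.1.re)) p.2.1.re p.2.2.re := fun n => by
    induction n with
    | zero =>
      intro p hp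
      rw [h0, zero_sub, norm_neg, pow_zero, div_one]
      exact (hF _).bd p hp
    | succ n ih =>
      intro p hp
      have h := hlip _ _ _ (hF n) (hF (n + 1)) (by positivity) ih p hp
      rwa [← hs, ← hs, div_div, ← pow_succ] at h
  have hg : ∀ p ∈ cone ν T₀ δ, ∀ n, dist (F n p) (F (n + 1) p) ≤
      2 * A * gm φ (2 * (ν * p.1.re)) p.2.1.re p.2.2.re / 2 / 2 ^ n := fun p hp n => by
    rw [dist_eq_norm]
    exact (hd n p hp).trans_eq (by ring)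
  have hl : ∀ p ∈ cone ν T₀ δ, Tendsto (fun n => F n p) atTop
      (𝓝 (limUnder atTop fun n => F n p)) := fun p hp =>
    (cauchySeq_of_le_geometric_two (hg p hp)).tendsto_limUnder
  have hb : ∀ n, ∀ p ∈ cone ν T₀ δ, ‖F n p - limUnder atTop fun n => F n p‖ ≤
      2 * A / 2 ^ n * gm φ (2 * (ν * p.1.re)) p.2.1.re p.2.2.re := fun n p hp => by
    rw [← dist_eq_norm]
    exact (dist_le_of_le_geometric_two_of_tendsto (hg p hp) (hl p hp) n).trans_eq (by ring)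
  have he : Tendsto (fun n : ℕ => 2 * A / 2 ^ n) atTop (𝓝 0) :=
    tendsto_const_nhds.div_atTop (tendsto_pow_atTop_atTop_of_one_lt one_lt_two)
  have hW := CH_lim hν hT₀ hφ hF he hb
  refine ⟨_, hW, fun p hp => tendsto_nhds_unique ((tendsto_add_atTop_iff_nat 1).2 (hl p hp)) ?_⟩
  refine tendsto_iff_norm_sub_tendsto_zero.2 (squeeze_zero (fun _ => norm_nonneg _) (fun n => ?_)
    (by simpa using (he.div_const 2).mul_const (gm φ (2 * (ν * p.1.re)) p.2.1.re p.2.2.re)))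
  rw [hs]
  exact hlip _ _ _ (hF n) hW (by positivity) (hb n) p hp

theorem EFix_small {c : ℝ} (hc : 0 < c) : ∃ δ : ℝ, 0 < δ ∧ δ ≤ 1 ∧ c * (√δ + √(√δ)) ≤ 1 := by
  obtain ⟨η, h0, h1, h2⟩ : ∃ η : ℝ, 0 < η ∧ η ≤ 1 ∧ η ≤ 1 / (2 * c) :=
    ⟨min 1 (1 / (2 * c)), lt_min one_pos (by positivity), min_le_left _ _, min_le_right _ _⟩
  refine ⟨(η ^ 2) ^ 2, by positivity, pow_le_one₀ (by positivity) (pow_le_one₀ h0.le h1), ?_⟩
  rw [Real.sqrt_sq (by positivity), Real.sqrt_sq h0.le]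
  rw [le_div_iff₀ (by positivity)] at h2
  nlinarith [mul_nonneg (mul_nonneg hc.le h0.le) (sub_nonneg.2 h1)]

/-- One step. Sketch: `A = 2 A₀` (`hist_CH`), `δ ≤ 1` with `C (√δ + √√δ) 8 A₀ ≤ 1`
(`cB_bound`); `Φ W = hist - cB W W`; `cB_diff`, `cB_per`, `cB_real` (with
`f s x y = (W (rp s x y)).re`), `cB_sub`, `CH.sub`. -/
theorem step (hν : 0 < ν) (M N Tb : ℝ) : ∃ δ A : ℝ, 0 < δ ∧ δ ≤ 1 ∧ ∀ {T T₀ : ℝ} {φ γ : ℝ → ℝ}
    {ω : ℝ → ℝ → ℝ → ℝ}, Dat M φ γ → Mild ν T N φ γ ω → 0 ≤ T₀ → T₀ ≤ T → T₀ ≤ Tb →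
      ∃ W, CH ν T₀ δ A φ W ∧
        ∀ p ∈ cone ν T₀ δ, W p = hist ν T₀ φ γ ω p - cB ν T₀ W W p := by
  obtain ⟨A₀, hA₀, hH⟩ := hist_CH hν M N Tb
  obtain ⟨C, hC, hB⟩ := cB_bound hν
  obtain ⟨δ, h0, h1, h2⟩ := EFix_small (c := 8 * C * A₀) (by positivity)
  refine ⟨δ, 2 * A₀, h0, h1, fun {T T₀ φ γ ω} hd h hT₀ hT hTb => ?_⟩
  have hh := hH hd h hT₀ hT hTb h1
  refine CH_picard hν hT₀ hd.cφ (by positivity)
    (Φ := fun W p => hist ν T₀ φ γ ω p - cB ν T₀ W W p) (fun W hW => ?_)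
    fun W W' E hW hW' hE hb p hp => ?_
  · refine ⟨by positivity, hh.diff.sub (cB_diff hν hT₀ hd.cφ hd.bφ hW hW), fun p hp => ?_,
      fun p hp => ?_, fun t x y hp => ?_⟩
    · rw [hh.per p hp, cB_per hν hW hW hp]
    · have h3 := (hB hT₀ hd.cφ hd.bφ hW hW p hp).2
      have h4 := hh.bd p hp
      have h5 := mul_nonneg hA₀.le (EFix_gm hν hT₀ φ hp)
      have h6 := mul_le_mul_of_nonneg_right h2 h5
      refine (norm_sub_le _ _).trans ?_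
      nlinarith
    · have ht := (rp_mem_cone hν x y).1 hp
      rw [Complex.sub_im, hh.real t x y hp, cB_real ht.1 (f := fun s x y => (W (rp s x y)).re)
        (fun s hs x y => Complex.ext rfl
          (hW.real s x y ((rp_mem_cone hν x y).2 ⟨hs.1, hs.2.trans ht.2⟩))),
        Complex.ofReal_im, sub_zero]
  · have hD := hW.sub hW' hE hb
    have h3 := (hB hT₀ hd.cφ hd.bφ hD hW p hp).2
    have h4 := (hB hT₀ hd.cφ hd.bφ hW' hD p hp).2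
    have h5 := mul_nonneg hE (EFix_gm hν hT₀ φ hp)
    have h6 := mul_le_mul_of_nonneg_right h2 h5
    rw [sub_sub_sub_cancel_left, norm_sub_rev, cB_sub hν hT₀ hd.cφ hd.bφ hW hW' hD hp]
    refine (norm_add_le _ _).trans ?_
    nlinarith

end Pool.Agent.Lib.MP_3d41d4_an
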