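import Pool.Agent.Lib.MP_3d41d4_an.Gauss

open MeasureTheory Set Filter Topology Real
open scoped ENNReal

namespace Pool.Agent.Lib.MP_3d41d4_an

variable {a r Y : ℝ}

theorem Gd_zero (a r Y : ℝ) : Gd 0 a r Y = G a r Y := by
  simp [Gd, hp]

theorem G_nonneg (ha : 0 ≤ a) (r Y : ℝ) : 0 ≤ G a r Y := by
  unfold G
  positivity

theorem G_eq (ha : 0 < a) (r Y : ℝ) : G a r Y = H a r * H a Y := by
  unfold G H
  rw [div_mul_div_comm, ← Real.exp_add, Real.mul_self_sqrt (by positivity)]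
  congr 2
  ring

theorem measurable_G {Λ : Type} [MeasurableSpace Λ] {a r Y : Λ → ℝ} (ha : Measurable a)
    (hr : Measurable r) (hY : Measurable Y) : Measurable fun l => G (a l) (r l) (Y l) := by
  unfold G
  fun_prop

theorem Gcalc_measurable_hp {Λ : Type} [MeasurableSpace Λ] (j : ℕ) {a Y : Λ → ℝ}
    (ha : Measurable a) (hY : Measurable Y) : Measurable fun l => hp j (a l) (Y l) := by
  match j with
  | 0 => exact measurable_const
  | 1 => simp only [hp]; fun_prop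
  | 2 => simp only [hp]; fun_prop
  | 3 => simp only [hp]; fun_prop
  | _ + 4 => exact measurable_const

theorem measurable_Gd {Λ : Type} [MeasurableSpace Λ] (j : ℕ) {a r Y : Λ → ℝ} (ha : Measurable a)
    (hr : Measurable r) (hY : Measurable Y) : Measurable fun l => Gd j (a l) (r l) (Y l) :=
  (Gcalc_measurable_hp j ha hY).mul (measurable_G ha hr hY)

theorem continuousAt_Gd {X : Type} [TopologicalSpace X] (j : ℕ) {a r Y : X → ℝ} {x : X}
    (ha : ContinuousAt a x) (hr : ContinuousAt r x) (hY : ContinuousAt Y x) (h0 : a x ≠ 0) :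
    ContinuousAt (fun l => Gd j (a l) (r l) (Y l)) x := by
  have hπ := Real.pi_pos
  have h1 : ContinuousAt (fun l => G (a l) (r l) (Y l)) x := by
    unfold G
    fun_prop (disch := positivity)
  have h2 : ContinuousAt (fun l => hp j (a l) (Y l)) x := by
    match j with
    | 0 => exact continuousAt_const
    | 1 => simp only [hp]; fun_prop (disch := positivity)
    | 2 => simp only [hp]; fun_prop (disch := positivity)
    | 3 => simp only [hp]; fun_prop (disch := positivity)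
    | _ + 4 => exact continuousAt_const
  exact h2.mul h1

theorem Gcalc_hasDerivAt_G (a : ℝ) {r Y : ℝ → ℝ} {r' Y' s : ℝ}
    (hr : HasDerivAt r r' s) (hY : HasDerivAt Y Y' s) :
    HasDerivAt (fun u => G a (r u) (Y u))
      ((r' * (-r s / (2 * a)) + Y' * (-Y s / (2 * a))) * G a (r s) (Y s)) s := by
  have h := ((((hr.fun_pow 2).fun_add (hY.fun_pow 2)).div_const (4 * a)).fun_neg.exp).div_const
    (4 * π * a)
  refine h.congr_deriv ?_
  unfold G
  simp only [Nat.cast_ofNat, Nat.add_one_sub_one, pow_one]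
  ring

theorem Gcalc_hasDerivAt_hp {j : ℕ} (hj : j ≤ 2) (a : ℝ) {Y : ℝ → ℝ} {Y' s : ℝ}
    (hY : HasDerivAt Y Y' s) :
    HasDerivAt (fun u => hp j a (Y u))
      (Y' * (hp (j + 1) a (Y s) - -Y s / (2 * a) * hp j a (Y s))) s := by
  match j, hj with
  | 0, _ =>
    simp only [hp]
    refine (hasDerivAt_const s (1 : ℝ)).congr_deriv ?_
    ring
  | 1, _ =>
    simp only [hp]
    refine (hY.fun_neg.div_const (2 * a)).congr_deriv ?_
    ring
  | 2, _ =>
    simp only [hp]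
    refine (((hY.fun_pow 2).div_const (4 * a ^ 2)).sub_const (1 / (2 * a))).congr_deriv ?_
    simp only [Nat.cast_ofNat, Nat.add_one_sub_one, pow_one]
    ring

/-- Chain rule in the space variables. -/
theorem hasDerivAt_Gd_comp {j : ℕ} (hj : j ≤ 2) (a : ℝ) {r Y : ℝ → ℝ} {r' Y' s : ℝ}
    (hr : HasDerivAt r r' s) (hY : HasDerivAt Y Y' s) :
    HasDerivAt (fun u => Gd j a (r u) (Y u))
      (r' * (-r s / (2 * a)) * Gd j a (r s) (Y s) + Y' * Gd (j + 1) a (r s) (Y s)) s := by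
  refine ((Gcalc_hasDerivAt_hp hj a hY).fun_mul (Gcalc_hasDerivAt_G a hr hY)).congr_deriv ?_
  unfold Gd
  ring

/-- Chain rule in time (heat equation). -/
theorem hasDerivAt_Gd_time {a Y : ℝ → ℝ} {a' Y' s : ℝ} (r : ℝ) (ha : HasDerivAt a a' s)
    (hY : HasDerivAt Y Y' s) (h0 : 0 < a s) :
    HasDerivAt (fun u => Gd 0 (a u) r (Y u))
      (a' * ((r ^ 2 / (4 * a s ^ 2) - 1 / (2 * a s)) * Gd 0 (a s) r (Y s) + Gd 2 (a s) r (Y s))
        + Y' * Gd 1 (a s) r (Y s)) s := by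
  have hπ := Real.pi_pos
  have h := ((((hY.fun_pow 2).const_add (r ^ 2)).fun_div (ha.const_mul 4)
    (by positivity)).fun_neg.exp).fun_div (ha.const_mul (4 * π)) (by positivity)
  simp only [Gd, hp, one_mul, G]
  refine h.congr_deriv ?_
  simp only [Nat.cast_ofNat, Nat.add_one_sub_one, pow_one]
  field_simp
  ring

theorem Gcalc_integrable_pow (ha : 0 < a) (r : ℝ) (n : ℕ) :
    Integrable fun Y => Y ^ n * G a r Y := by
  have h := (integrable_rpow_mul_exp_neg_mul_sq (b := 1 / (4 * a)) (by positivity)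
    (s := (n : ℝ)) (by linarith [(Nat.cast_nonneg n : (0 : ℝ) ≤ n)])).const_mul
      (Real.exp (-(r ^ 2 / (4 * a))) / (4 * π * a))
  refine h.congr (Eventually.of_forall fun Y => ?_)
  simp only [Real.rpow_natCast, G]
  rw [show -((r ^ 2 + Y ^ 2) / (4 * a)) = -(r ^ 2 / (4 * a)) + -(1 / (4 * a)) * Y ^ 2 by ring,
    Real.exp_add]
  ring

theorem integrable_Gd (j : ℕ) (ha : 0 < a) (r : ℝ) : Integrable (Gd j a r) := by
  have h := Gcalc_integrable_pow ha r
  match j with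
  | 0 =>
    refine (h 0).congr (Eventually.of_forall fun Y => ?_)
    simp only [Gd, hp]
    ring
  | 1 =>
    refine ((h 1).const_mul (-1 / (2 * a))).congr (Eventually.of_forall fun Y => ?_)
    simp only [Gd, hp]
    ring
  | 2 =>
    refine (((h 2).const_mul (1 / (4 * a ^ 2))).sub ((h 0).const_mul (1 / (2 * a)))).congr
      (Eventually.of_forall fun Y => ?_)
    simp only [Gd, hp, Pi.sub_apply]
    ring
  | 3 =>
    refine (((h 1).const_mul (3 / (4 * a ^ 2))).sub ((h 3).const_mul (1 / (8 * a ^ 3)))).congr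
      (Eventually.of_forall fun Y => ?_)
    simp only [Gd, hp, Pi.sub_apply]
    ring
  | _ + 4 =>
    refine (integrable_zero ℝ ℝ volume).congr (Eventually.of_forall fun Y => ?_)
    simp only [Gd, hp, Pi.zero_apply, zero_mul]

theorem integral_Gd_zero (ha : 0 < a) (r : ℝ) : ∫ Y, Gd 0 a r Y = H a r := by
  simp only [Gd_zero, G_eq ha]
  rw [integral_const_mul, integral_H ha, mul_one]

theorem Gcalc_integral_succ {j : ℕ} (hj : j ≤ 2) (ha : 0 < a) (r : ℝ) :
    ∫ Y, Gd (j + 1) a r Y = 0 := by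
  refine integral_eq_zero_of_hasDerivAt_of_integrable (f := Gd j a r) (fun Y => ?_)
    (integrable_Gd (j + 1) ha r) (integrable_Gd j ha r)
  refine (hasDerivAt_Gd_comp hj a (hasDerivAt_const Y r) (hasDerivAt_id' Y)).congr_deriv ?_
  ring

theorem integral_Gd_one (ha : 0 < a) (r : ℝ) : ∫ Y, Gd 1 a r Y = 0 :=
  Gcalc_integral_succ (j := 0) (by norm_num) ha r

theorem integral_Gd_two (ha : 0 < a) (r : ℝ) : ∫ Y, Gd 2 a r Y = 0 :=
  Gcalc_integral_succ (j := 1) (by norm_num) ha r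

theorem Gcalc_pow_le (x : ℝ) {i : ℕ} (hi : i ≤ 4) : |x| ^ i ≤ (1 + |x|) ^ 4 :=
  (pow_le_pow_left₀ (abs_nonneg x) (by linarith) i).trans
    (pow_le_pow_right₀ (by linarith [abs_nonneg x]) hi)

theorem Gcalc_hp_le (ha : 0 < a) (j : ℕ) (Y : ℝ) :
    |hp j a Y| ≤ (1 + a⁻¹) ^ 3 * (1 + |Y|) ^ 4 := by
  have ht : 0 < a⁻¹ := inv_pos.2 ha
  have h0 := Gcalc_pow_le Y (i := 0) (by norm_num)
  have h1 := Gcalc_pow_le Y (i := 1) (by norm_num)
  have h2 := Gcalc_pow_le Y (i := 2) (by norm_num)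
  have h3 := Gcalc_pow_le Y (i := 3) (by norm_num)
  rw [pow_zero] at h0
  rw [pow_one] at h1
  generalize (1 + |Y|) ^ 4 = w at h0 h1 h2 h3 ⊢
  have key : ∀ u v c e : ℝ, 0 ≤ c → 0 ≤ e → |u| ≤ w → |v| ≤ w → c + e ≤ (1 + a⁻¹) ^ 3 →
      |c * u - e * v| ≤ (1 + a⁻¹) ^ 3 * w := fun u v c e hc he hu hv h => by
    refine (abs_sub _ _).trans ?_
    rw [abs_mul, abs_mul, abs_of_nonneg hc, abs_of_nonneg he]
    nlinarith [mul_le_mul_of_nonneg_left hu hc, mul_le_mul_of_nonneg_left hv he]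
  have hone : |(1 : ℝ)| ≤ w := by rwa [abs_one]
  have ht2 := pow_pos ht 2
  have ht3 := pow_pos ht 3
  match j with
  | 0 =>
    refine le_of_eq_of_le ?_ (key 1 1 1 0 zero_le_one le_rfl hone hone (by nlinarith))
    simp only [hp]
    congr 1
    ring
  | 1 =>
    refine le_of_eq_of_le ?_ (key 1 Y 0 (a⁻¹ / 2) le_rfl (by positivity) hone h1 (by nlinarith))
    simp only [hp]
    congr 1
    ring
  | 2 =>
    refine le_of_eq_of_le ?_ (key (Y ^ 2) 1 (a⁻¹ ^ 2 / 4) (a⁻¹ / 2) (by positivity)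
      (by positivity) (by rwa [abs_pow]) hone (by nlinarith))
    simp only [hp]
    congr 1
    ring
  | 3 =>
    refine le_of_eq_of_le ?_ (key Y (Y ^ 3) (3 * a⁻¹ ^ 2 / 4) (a⁻¹ ^ 3 / 8) (by positivity)
      (by positivity) h1 (by rwa [abs_pow]) (by nlinarith))
    simp only [hp]
    congr 1
    ring
  | _ + 4 =>
    simp only [hp, abs_zero]
    have : 0 ≤ w := by linarith
    positivity

/-- Crude bounds on a compact range of diffusion times. -/
theorem Gd_crude {a₀ a₁ : ℝ} (h0 : 0 < a₀) :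
    ∃ K c : ℝ, 0 < K ∧ 0 < c ∧ ∀ a ∈ Icc a₀ a₁, ∀ i ≤ 2, ∀ j : ℕ, ∀ r Y : ℝ,
      |r ^ i * Gd j a r Y| ≤ K * Real.exp (-(c * r ^ 2)) := by
  have hπ := Real.pi_pos
  have hA : 0 < max a₀ a₁ := lt_max_of_lt_left h0
  have hm : 0 < 1 / (8 * max a₀ a₁) := by positivity
  obtain ⟨C, hC, h⟩ := poly_mul_gs_le hm
  refine ⟨(1 + a₀⁻¹) ^ 3 * C * C / (4 * π * a₀), 1 / (8 * max a₀ a₁), by positivity, hm,
    fun a ha i hi j r Y => ?_⟩
  have ha0 : 0 < a := h0.trans_le ha.1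
  have h1 : ∀ y : ℝ, (1 + |y|) ^ 4 * Real.exp (-(y ^ 2 / (4 * a))) ≤
      C * Real.exp (-(1 / (8 * max a₀ a₁) * y ^ 2)) := fun y => by
    have h2 := h 1 one_pos y
    simp only [gs, Real.sqrt_one, div_one] at h2
    refine le_trans (mul_le_mul_of_nonneg_left (Real.exp_le_exp.2 (neg_le_neg ?_))
      (by positivity)) h2
    rw [show 2 * (1 / (8 * max a₀ a₁)) * y ^ 2 = y ^ 2 / (4 * max a₀ a₁) by field_simp; ring]
    exact div_le_div_of_nonneg_left (sq_nonneg y) (by positivity)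
      (by linarith [ha.2, le_max_right a₀ a₁])
  have h2 : (1 + |Y|) ^ 4 * Real.exp (-(Y ^ 2 / (4 * a))) ≤ C :=
    (h1 Y).trans (mul_le_of_le_one_right hC.le (Real.exp_le_one_iff.2 (by
      have : 0 ≤ 1 / (8 * max a₀ a₁) * Y ^ 2 := by positivity
      linarith)))
  have h3 : |hp j a Y| ≤ (1 + a₀⁻¹) ^ 3 * (1 + |Y|) ^ 4 := by
    refine (Gcalc_hp_le ha0 j Y).trans ?_
    have : a⁻¹ ≤ a₀⁻¹ := inv_anti₀ h0 ha.1
    gcongr
  have h4 : G a r Y ≤
      Real.exp (-(r ^ 2 / (4 * a))) * Real.exp (-(Y ^ 2 / (4 * a))) / (4 * π * a₀) := by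
    unfold G
    rw [← Real.exp_add, show -(r ^ 2 / (4 * a)) + -(Y ^ 2 / (4 * a)) =
      -((r ^ 2 + Y ^ 2) / (4 * a)) by ring]
    exact div_le_div_of_nonneg_left (Real.exp_pos _).le (by positivity)
      (mul_le_mul_of_nonneg_left ha.1 (by positivity))
  have h5 := Gcalc_pow_le r (i := i) (by omega)
  calc |r ^ i * Gd j a r Y| = |r| ^ i * (|hp j a Y| * G a r Y) := by
        rw [Gd, abs_mul, abs_mul, abs_pow, abs_of_nonneg (G_nonneg ha0.le r Y)]
    _ ≤ (1 + |r|) ^ 4 * ((1 + a₀⁻¹) ^ 3 * (1 + |Y|) ^ 4 *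
        (Real.exp (-(r ^ 2 / (4 * a))) * Real.exp (-(Y ^ 2 / (4 * a))) / (4 * π * a₀))) := by
        have := G_nonneg ha0.le r Y
        gcongr
    _ = (1 + a₀⁻¹) ^ 3 * ((1 + |Y|) ^ 4 * Real.exp (-(Y ^ 2 / (4 * a)))) *
        ((1 + |r|) ^ 4 * Real.exp (-(r ^ 2 / (4 * a)))) / (4 * π * a₀) := by ring
    _ ≤ (1 + a₀⁻¹) ^ 3 * C * (C * Real.exp (-(1 / (8 * max a₀ a₁) * r ^ 2))) / (4 * π * a₀) := by
        have := h1 r
        gcongr
    _ = _ := by ring

end Pool.Agent.Lib.MP_3d41d4_an
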