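import Pool.Agent.Lib.MP_3d41d4_an.Cyl
import Pool.Agent.Lib.MP_3d41d4_an.Gcalc

open MeasureTheory Set Filter Topology Real
open scoped ENNReal

namespace Pool.Agent.Lib.MP_3d41d4_an

theorem Lim1_scale {κ : ℝ} (hκ : 0 < κ) (r Y : ℝ) :
    κ * G κ (√κ * r) (√κ * Y) = G 1 r Y := by
  unfold G
  have h1 : ((√κ * r) ^ 2 + (√κ * Y) ^ 2) / (4 * κ) = (r ^ 2 + Y ^ 2) / (4 * 1) := by
    rw [mul_pow, mul_pow, Real.sq_sqrt hκ.le]
    field_simp
  rw [h1]
  have := pi_pos
  field_simp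

theorem Lim1_eq {ψ : ℝ → ℝ} (hψ : Continuous ψ) (f : ℝ → ℝ → ℝ) (η x : ℝ) {κ : ℝ} (hκ : 0 < κ) :
    smo ψ κ f η x = ∫ q : ℝ × ℝ,
      G 1 q.1 q.2 * f (√κ * q.2 - (ch ψ x (√κ * q.1) - η)) (x + √κ * q.1) := by
  have hm : Measurable fun r => ch ψ x r - η := by
    have : Continuous fun r => ch ψ x r - η := by
      unfold ch
      fun_prop
    exact this.measurable
  set h : ℝ × ℝ → ℝ := fun q => G κ q.1 q.2 * f (q.2 - (ch ψ x q.1 - η)) (x + q.1) with hh
  have e1 : smo ψ κ f η x = ∫ q, h q := by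
    rw [← integral_shear hm 0 h]
    unfold smo
    refine integral_congr_ae (Eventually.of_forall fun p => ?_)
    simp only [hh, zero_add, add_sub_cancel_right]
    congr 1
    unfold G
    congr 4
    ring
  have e2 := Measure.integral_comp_smul (volume : Measure (ℝ × ℝ)) h (√κ)
  have e3 : Module.finrank ℝ (ℝ × ℝ) = 2 := by simp
  rw [e3, Real.sq_sqrt hκ.le, abs_of_pos (inv_pos.2 hκ), smul_eq_mul] at e2
  have e4 : ∫ q, h q = κ * ∫ q, h (√κ • q) := by
    rw [e2]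
    field_simp
  rw [e1, e4, ← integral_const_mul]
  refine integral_congr_ae (Eventually.of_forall fun q => ?_)
  simp only [hh, Prod.smul_fst, Prod.smul_snd, smul_eq_mul]
  rw [← mul_assoc, Lim1_scale hκ]

/-- Approximate identity. -/
theorem smo_tendsto {ψ : ℝ → ℝ} (hψ : Continuous ψ) {f : ℝ → ℝ → ℝ}
    (hf : Continuous fun p : ℝ × ℝ => f p.1 p.2) {B : ℝ} (hB : ∀ η x, |f η x| ≤ B) (η x : ℝ) :
    Tendsto (fun κ => smo ψ κ f η x) (𝓝[>] 0) (𝓝 (f η x)) := by
  have hG : (fun q : ℝ × ℝ => G 1 q.1 q.2) = fun q => H 1 q.1 * H 1 q.2 :=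
    funext fun q => G_eq one_pos _ _
  have hGi : Integrable fun q : ℝ × ℝ => G 1 q.1 q.2 := by
    rw [hG]
    exact Integrable.mul_prod (integrable_H one_pos) (integrable_H one_pos)
  have hG1 : ∫ q : ℝ × ℝ, G 1 q.1 q.2 = 1 := by
    rw [hG, Measure.volume_eq_prod, integral_prod_mul (H 1) (H 1), integral_H one_pos, one_mul]
  have hc : Continuous fun z : ℝ × (ℝ × ℝ) =>
      f (√z.1 * z.2.2 - (ch ψ x (√z.1 * z.2.1) - η)) (x + √z.1 * z.2.1) := by
    have h1 : Continuous fun z : ℝ × (ℝ × ℝ) =>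
        ((√z.1 * z.2.2 - (ch ψ x (√z.1 * z.2.1) - η), x + √z.1 * z.2.1) : ℝ × ℝ) := by
      unfold ch
      fun_prop
    exact hf.comp h1
  have key : Tendsto (fun κ => ∫ q : ℝ × ℝ,
      G 1 q.1 q.2 * f (√κ * q.2 - (ch ψ x (√κ * q.1) - η)) (x + √κ * q.1)) (𝓝[>] 0)
      (𝓝 (∫ q : ℝ × ℝ, G 1 q.1 q.2 * f η x)) := by
    refine tendsto_integral_filter_of_dominated_convergence (fun q => G 1 q.1 q.2 * B) ?_ ?_
      (hGi.mul_const B) ?_
    · refine Eventually.of_forall fun κ => ?_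
      refine hGi.aestronglyMeasurable.mul ?_
      exact (hc.comp (Continuous.prodMk_right κ)).aestronglyMeasurable
    · refine Eventually.of_forall fun κ => Eventually.of_forall fun q => ?_
      rw [Real.norm_eq_abs, abs_mul, abs_of_nonneg (G_nonneg zero_le_one _ _)]
      exact mul_le_mul_of_nonneg_left (hB _ _) (G_nonneg zero_le_one _ _)
    · refine Eventually.of_forall fun q => ?_
      refine Tendsto.const_mul _ ?_
      have h2 := (hc.comp (Continuous.prodMk_left q)).tendsto 0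
      have h3 : Tendsto (fun κ : ℝ => f (√κ * q.2 - (ch ψ x (√κ * q.1) - η)) (x + √κ * q.1))
          (𝓝 0) (𝓝 (f η x)) := by
        simpa [Function.comp_def, ch] using h2
      exact h3.mono_left nhdsWithin_le_nhds
  rw [integral_mul_const, hG1, one_mul] at key
  refine key.congr' ?_
  filter_upwards [self_mem_nhdsWithin] with κ hκ
  exact (Lim1_eq hψ f η x hκ).symm

end Pool.Agent.Lib.MP_3d41d4_an
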