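import Pool.Agent.Lib.MP_3d41d4_an.EKer
import Pool.Agent.Lib.MP_3d41d4_an.Lim1

open MeasureTheory Set Filter Topology Real
open scoped ENNReal

namespace Pool.Agent.Lib.MP_3d41d4_an

variable {a b : ℝ}

theorem EGG_sq (ha : 0 < a) (hb : 0 < b) (x x' w : ℝ) :
    H a (x - w) * H b (w - x') =
      H (a + b) (x - x') * H (a * b / (a + b)) (w - (x' + b * (x - x') / (a + b))) := by
  have hab : 0 < a + b := by positivity
  have hc : 0 < a * b / (a + b) := by positivity
  have h := Gauss0_square ha hb (1 / 4) (x - x') (w - x')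
  rw [show x - x' - (w - x') = x - w by ring,
    show w - x' - b * (x - x') / (a + b) = w - (x' + b * (x - x') / (a + b)) by ring] at h
  rw [H_eq ha, H_eq hb, H_eq hab, H_eq hc, mul_mul_mul_comm, h, mul_mul_mul_comm]

theorem EGG_int0 (ha : 0 < a) (hb : 0 < b) (x x' : ℝ) :
    Integrable (fun w => H a (x - w) * H b (w - x')) ∧
      ∫ w, H a (x - w) * H b (w - x') = H (a + b) (x - x') := by
  have hc : 0 < a * b / (a + b) := by positivity
  simp only [EGG_sq ha hb]
  refine ⟨((integrable_H hc).comp_sub_right _).const_mul _, ?_⟩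
  rw [integral_const_mul, integral_sub_right_eq_self (H (a * b / (a + b))), integral_H hc, mul_one]

theorem EGG_odd (ha : 0 < a) : Integrable (fun u => u * H a u) ∧ ∫ u, u * H a u = 0 := by
  constructor
  · refine (integrable_abs_mul_H ha).mono' ?_ (Eventually.of_forall fun u => ?_)
    · exact (measurable_id.mul (measurable_H measurable_const measurable_id)).aestronglyMeasurable
    · rw [Real.norm_eq_abs, abs_mul, abs_of_nonneg (H_nonneg a u)]
  · have h := integral_neg_eq_self (fun u => u * H a u) (volume : Measure ℝ)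
    have e : ∀ u : ℝ, -u * H a (-u) = -(u * H a u) := fun u => by
      unfold H
      rw [neg_sq, neg_mul]
    simp only [e, integral_neg] at h
    linarith

theorem EGG_int1 (ha : 0 < a) (hb : 0 < b) (x x' : ℝ) :
    Integrable (fun w => H a (x - w) * (-(w - x') / (2 * b) * H b (w - x'))) ∧
      ∫ w, H a (x - w) * (-(w - x') / (2 * b) * H b (w - x'))
        = -(x - x') / (2 * (a + b)) * H (a + b) (x - x') := by
  have hab : 0 < a + b := by positivity
  have hc : 0 < a * b / (a + b) := by positivity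
  set m := x' + b * (x - x') / (a + b) with hm
  set c := a * b / (a + b) with hcdef
  have e : ∀ w, H a (x - w) * (-(w - x') / (2 * b) * H b (w - x')) =
      -H (a + b) (x - x') / (2 * b) * ((w - m) * H c (w - m))
        + -(x - x') / (2 * (a + b)) * H (a + b) (x - x') * H c (w - m) := fun w => by
    have h := EGG_sq ha hb x x' w
    rw [← hm, ← hcdef] at h
    have h2 : w - x' = (w - m) + b * (x - x') / (a + b) := by rw [hm]; ring
    rw [mul_left_comm, h]
    generalize H c (w - m) = u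
    generalize H (a + b) (x - x') = v
    rw [h2]
    field_simp
    ring
  have i1 : Integrable fun w => (w - m) * H c (w - m) := (EGG_odd hc).1.comp_sub_right m
  have i2 : Integrable fun w => H c (w - m) := (integrable_H hc).comp_sub_right m
  simp only [e]
  refine ⟨(i1.const_mul _).add (i2.const_mul _), ?_⟩
  rw [integral_add (i1.const_mul _) (i2.const_mul _), integral_const_mul, integral_const_mul,
    integral_sub_right_eq_self (fun u => u * H c u) m, (EGG_odd hc).2,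
    integral_sub_right_eq_self (H c) m, integral_H hc, mul_zero, zero_add, mul_one]

theorem EGG_prod {f g : ℝ → ℝ} (hf : Integrable f) (hg : Integrable g) {F : ℝ × ℝ → ℝ}
    (hF : ∀ w, F w = f w.1 * g w.2) : Integrable F ∧ ∫ w, F w = (∫ u, f u) * ∫ u, g u := by
  have e : F = fun w => f w.1 * g w.2 := funext hF
  rw [e]
  exact ⟨Integrable.mul_prod hf hg, by rw [Measure.volume_eq_prod, integral_prod_mul f g]⟩

theorem EGG_G (ha : 0 < a) (x y : ℝ) :
    (Integrable fun w : ℝ × ℝ => G a (x - w.1) (y - w.2)) ∧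
      ∫ w : ℝ × ℝ, G a (x - w.1) (y - w.2) = 1 := by
  have h := EGG_prod ((integrable_H ha).comp_sub_left x) ((integrable_H ha).comp_sub_left y)
    (F := fun w : ℝ × ℝ => G a (x - w.1) (y - w.2)) fun w => G_eq ha _ _
  rw [integral_sub_left_eq_self (H a) volume x, integral_sub_left_eq_self (H a) volume y,
    integral_H ha, one_mul] at h
  exact h

theorem EGG_scale {κ : ℝ} (hκ : 0 < κ) (f : ℝ → ℝ → ℝ) (x y : ℝ) :
    hc κ f x y = ∫ q : ℝ × ℝ, G 1 q.1 q.2 * f (x - √κ * q.1) (y - √κ * q.2) := by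
  set h : ℝ × ℝ → ℝ := fun q => G κ q.1 q.2 * f (x - q.1) (y - q.2) with hh
  have e1 : hc κ f x y = ∫ q, h q := by
    rw [← integral_sub_left_eq_self h volume ((x, y) : ℝ × ℝ)]
    unfold hc
    refine integral_congr_ae (Eventually.of_forall fun p => ?_)
    simp only [hh, Prod.fst_sub, Prod.snd_sub, sub_sub_cancel]
  have e2 := Measure.integral_comp_smul (volume : Measure (ℝ × ℝ)) h (√κ)
  have e3 : Module.finrank ℝ (ℝ × ℝ) = 2 := by simp
  rw [e3, Real.sq_sqrt hκ.le, abs_of_pos (inv_pos.2 hκ), smul_eq_mul] at e2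
  have e4 : ∫ q, h q = κ * ∫ q, h (√κ • q) := by
    rw [e2]
    field_simp
  rw [e1, e4, ← integral_const_mul]
  refine integral_congr_ae (Eventually.of_forall fun q => ?_)
  simp only [hh, Prod.smul_fst, Prod.smul_snd, smul_eq_mul]
  rw [← mul_assoc, Lim1_scale hκ]

theorem G_integrable (ha : 0 < a) (x y : ℝ) :
    Integrable fun w : ℝ × ℝ => G a (x - w.1) (y - w.2) := by
  exact (EGG_G ha x y).1

theorem G_integral (ha : 0 < a) (x y : ℝ) : ∫ w : ℝ × ℝ, G a (x - w.1) (y - w.2) = 1 := by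
  exact (EGG_G ha x y).2

/-- Semigroup property. Sketch: `G_eq`, `H_eq`, `integral_prod_mul`, `integral_gs_conv`. -/
theorem G_conv (ha : 0 < a) (hb : 0 < b) (x y x' y' : ℝ) :
    Integrable (fun w : ℝ × ℝ => G a (x - w.1) (y - w.2) * G b (w.1 - x') (w.2 - y')) ∧
    ∫ w : ℝ × ℝ, G a (x - w.1) (y - w.2) * G b (w.1 - x') (w.2 - y')
      = G (a + b) (x - x') (y - y') := by
  have h := EGG_prod (EGG_int0 ha hb x x').1 (EGG_int0 ha hb y y').1
    (F := fun w : ℝ × ℝ => G a (x - w.1) (y - w.2) * G b (w.1 - x') (w.2 - y')) fun w => by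
      rw [G_eq ha, G_eq hb]
      ring
  rw [(EGG_int0 ha hb x x').2, (EGG_int0 ha hb y y').2, ← G_eq (add_pos ha hb)] at h
  exact h

/-- Sketch: by `Gauss0_square` the one dimensional product `H a (η - w) * H b w` is
`H (a + b) η * H (a b / (a + b)) (w - b η / (a + b))`, whose first moment in `w` is
`b η / (a + b)` (an odd integrable function has integral zero). -/
theorem Gx_conv (ha : 0 < a) (hb : 0 < b) (x y x' y' : ℝ) :
    Integrable (fun w : ℝ × ℝ => G a (x - w.1) (y - w.2) * Gx b (w.1 - x') (w.2 - y')) ∧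
    ∫ w : ℝ × ℝ, G a (x - w.1) (y - w.2) * Gx b (w.1 - x') (w.2 - y')
      = Gx (a + b) (x - x') (y - y') := by
  have h := EGG_prod (EGG_int1 ha hb x x').1 (EGG_int0 ha hb y y').1
    (F := fun w : ℝ × ℝ => G a (x - w.1) (y - w.2) * Gx b (w.1 - x') (w.2 - y')) fun w => by
      unfold Gx
      rw [G_eq ha, G_eq hb]
      ring
  rw [(EGG_int1 ha hb x x').2, (EGG_int0 ha hb y y').2, mul_assoc, ← G_eq (add_pos ha hb)] at h
  exact h

theorem Gy_conv (ha : 0 < a) (hb : 0 < b) (x y x' y' : ℝ) :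
    Integrable (fun w : ℝ × ℝ => G a (x - w.1) (y - w.2) * Gy b (w.1 - x') (w.2 - y')) ∧
    ∫ w : ℝ × ℝ, G a (x - w.1) (y - w.2) * Gy b (w.1 - x') (w.2 - y')
      = Gy (a + b) (x - x') (y - y') := by
  have h := EGG_prod (EGG_int0 ha hb x x').1 (EGG_int1 ha hb y y').1
    (F := fun w : ℝ × ℝ => G a (x - w.1) (y - w.2) * Gy b (w.1 - x') (w.2 - y')) fun w => by
      unfold Gy
      rw [G_eq ha, G_eq hb]
      ring
  rw [(EGG_int0 ha hb x x').2, (EGG_int1 ha hb y y').2, mul_left_comm,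
    ← G_eq (add_pos ha hb)] at h
  exact h

/-- The heat semigroup on bounded measurable functions. -/
theorem hc_bdd (ha : 0 < a) {f : ℝ → ℝ → ℝ} (hf : Measurable fun p : ℝ × ℝ => f p.1 p.2) {B : ℝ}
    (hB : ∀ x y, |f x y| ≤ B) (x y : ℝ) :
    Integrable (fun q : ℝ × ℝ => G a (x - q.1) (y - q.2) * f q.1 q.2) ∧ |hc a f x y| ≤ B := by
  have hb : ∀ q : ℝ × ℝ, ‖G a (x - q.1) (y - q.2) * f q.1 q.2‖ ≤ G a (x - q.1) (y - q.2) * B :=
    fun q => by
      rw [Real.norm_eq_abs, abs_mul, abs_of_nonneg (G_nonneg ha.le _ _)]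
      exact mul_le_mul_of_nonneg_left (hB _ _) (G_nonneg ha.le _ _)
  have hi := (G_integrable ha x y).mul_const B
  refine ⟨hi.mono' ((G_integrable ha x y).aestronglyMeasurable.mul hf.aestronglyMeasurable)
    (Eventually.of_forall hb), ?_⟩
  have h := norm_integral_le_of_norm_le hi (Eventually.of_forall hb)
  rw [integral_mul_const, G_integral ha, one_mul] at h
  exact h

theorem hc_sub (ha : 0 < a) {f g : ℝ → ℝ → ℝ} (hf : Measurable fun p : ℝ × ℝ => f p.1 p.2)
    (hg : Measurable fun p : ℝ × ℝ => g p.1 p.2) {B B' : ℝ} (hB : ∀ x y, |f x y| ≤ B)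
    (hB' : ∀ x y, |g x y| ≤ B') (x y : ℝ) :
    hc a (fun x' y' => f x' y' - g x' y') x y = hc a f x y - hc a g x y := by
  unfold hc
  rw [← integral_sub (hc_bdd ha hf hB x y).1 (hc_bdd ha hg hB' x y).1]
  simp only [mul_sub]

/-- Approximate identity with a parameter. Sketch: `w = (x, y) - √a z`, dominated convergence
along the filter (see `Lim1_scale`, `smo_tendsto` in `Lim1`). -/
theorem hc_tendsto {I : Set ℝ} (hI : IsOpen I) {h : ℝ → ℝ → ℝ → ℝ}
    (hh : ContinuousOn (fun p : ℝ × ℝ × ℝ => h p.1 p.2.1 p.2.2) (I ×ˢ univ)) {B : ℝ}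
    (hB : ∀ s ∈ I, ∀ x y, |h s x y| ≤ B) {t : ℝ} (ht : t ∈ I) (x y : ℝ) :
    Tendsto (fun q : ℝ × ℝ => hc q.1 (h q.2) x y) ((𝓝[>] 0) ×ˢ 𝓝 t) (𝓝 (h t x y)) := by
  have hGi : Integrable fun q : ℝ × ℝ => G 1 q.1 q.2 :=
    (EGG_prod (integrable_H one_pos) (integrable_H one_pos) fun w => G_eq one_pos _ _).1
  have hG1 : ∫ q : ℝ × ℝ, G 1 q.1 q.2 = 1 := by
    rw [(EGG_prod (integrable_H one_pos) (integrable_H one_pos)
      (F := fun q : ℝ × ℝ => G 1 q.1 q.2) fun w => G_eq one_pos _ _).2, integral_H one_pos, one_mul]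
  have hev : ∀ᶠ q : ℝ × ℝ in (𝓝[>] (0 : ℝ)) ×ˢ 𝓝 t, q.2 ∈ I :=
    tendsto_snd.eventually (hI.mem_nhds ht)
  have hev0 : ∀ᶠ q : ℝ × ℝ in (𝓝[>] (0 : ℝ)) ×ˢ 𝓝 t, 0 < q.1 :=
    tendsto_fst.eventually self_mem_nhdsWithin
  have key : Tendsto (fun z : ℝ × ℝ => ∫ q : ℝ × ℝ,
      G 1 q.1 q.2 * h z.2 (x - √z.1 * q.1) (y - √z.1 * q.2)) ((𝓝[>] 0) ×ˢ 𝓝 t)
      (𝓝 (∫ q : ℝ × ℝ, G 1 q.1 q.2 * h t x y)) := by
    refine tendsto_integral_filter_of_dominated_convergence (fun q => G 1 q.1 q.2 * B) ?_ ?_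
      (hGi.mul_const B) ?_
    · filter_upwards [hev] with z hz
      refine hGi.aestronglyMeasurable.mul ?_
      have h1 : Continuous fun q : ℝ × ℝ =>
          ((z.2, x - √z.1 * q.1, y - √z.1 * q.2) : ℝ × ℝ × ℝ) := by fun_prop
      exact (hh.comp_continuous h1 fun q => ⟨hz, mem_univ _⟩).aestronglyMeasurable
    · filter_upwards [hev] with z hz
      refine Eventually.of_forall fun q => ?_
      rw [Real.norm_eq_abs, abs_mul, abs_of_nonneg (G_nonneg zero_le_one _ _)]
      exact mul_le_mul_of_nonneg_left (hB _ hz _ _) (G_nonneg zero_le_one _ _)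
    · refine Eventually.of_forall fun q => Tendsto.const_mul _ ?_
      have h1 : Continuous fun z : ℝ × ℝ =>
          ((z.2, x - √z.1 * q.1, y - √z.1 * q.2) : ℝ × ℝ × ℝ) := by fun_prop
      have h2 : Tendsto (fun z : ℝ × ℝ => ((z.2, x - √z.1 * q.1, y - √z.1 * q.2) : ℝ × ℝ × ℝ))
          (𝓝 (0, t)) (𝓝 (t, x, y)) := by
        simpa using h1.tendsto (0, t)
      have h3 : ContinuousAt (fun p : ℝ × ℝ × ℝ => h p.1 p.2.1 p.2.2) (t, x, y) :=
        hh.continuousAt ((hI.prod isOpen_univ).mem_nhds ⟨ht, mem_univ _⟩)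
      refine (h3.tendsto.comp h2).mono_left ?_
      rw [nhds_prod_eq]
      exact Filter.prod_mono nhdsWithin_le_nhds le_rfl
  rw [integral_mul_const, hG1, one_mul] at key
  refine key.congr' ?_
  filter_upwards [hev0] with z hz
  exact (EGG_scale hz (h z.2) x y).symm

theorem hc_tendsto' {f : ℝ → ℝ → ℝ} (hf : Continuous fun p : ℝ × ℝ => f p.1 p.2) {B : ℝ}
    (hB : ∀ x y, |f x y| ≤ B) (x y : ℝ) :
    Tendsto (fun a => hc a f x y) (𝓝[>] 0) (𝓝 (f x y)) := by
  have h0 : Continuous fun p : ℝ × ℝ × ℝ => f p.2.1 p.2.2 := hf.comp continuous_snd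
  have h : Tendsto (fun q : ℝ × ℝ => hc q.1 f x y) ((𝓝[>] 0) ×ˢ 𝓝 0) (𝓝 (f x y)) :=
    hc_tendsto (I := univ) isOpen_univ (h := fun _ => f) h0.continuousOn (B := B)
      (fun _ _ => hB) (mem_univ (0 : ℝ)) x y
  have h1 : Tendsto (fun a : ℝ => ((a, 0) : ℝ × ℝ)) (𝓝[>] 0) ((𝓝[>] 0) ×ˢ 𝓝 0) :=
    tendsto_id.prodMk tendsto_const_nhds
  simpa only [Function.comp_def] using h.comp h1

end Pool.Agent.Lib.MP_3d41d4_an
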