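import Pool.Agent.Lib.MP_3d41d4_an.EHol2
import Pool.Agent.Lib.MP_3d41d4_an.ECone1

open MeasureTheory Set Filter Topology Real
open scoped ENNReal

namespace Pool.Agent.Lib.MP_3d41d4_an

variable {κ t₁ r B : ℝ} {W : C3 → ℂ} {f : ℝ → ℝ → ℝ → ℝ}

theorem slab_open (t₁ r : ℝ) : IsOpen (slab t₁ r) :=
  (isOpen_lt (by fun_prop) continuous_const).and ((isOpen_lt (by fun_prop) continuous_const).and
    (isOpen_lt (by fun_prop) continuous_const))

theorem rp_mem_slab (hr : 0 < r) {t : ℝ} (x y : ℝ) :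
    rp t x y ∈ slab t₁ r ↔ t ∈ Ioo (t₁ - r) (t₁ + r) := by
  simp only [slab, rp, mem_ofPred_eq, ← Complex.ofReal_sub, Complex.norm_real, Real.norm_eq_abs,
    Complex.ofReal_im, abs_zero, hr, and_true, mem_Ioo]
  rw [abs_lt]
  constructor <;> rintro ⟨h1, h2⟩ <;> constructor <;> linarith

theorem EReg_mono {I J : Set ℝ} {B B' : ℝ} (hJ : J ⊆ I) (hB : B ≤ B') (h : Sm0 κ I B f) :
    Sm0 κ J B' f :=
  ⟨h.cont.mono (prod_mono hJ le_rfl), fun t ht x y =>
    (h.bd t (hJ ht) x y).trans (mul_le_mul_of_nonneg_right hB (Real.exp_pos _).le)⟩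

theorem Sm.mono {I J : Set ℝ} {B B' : ℝ} (hJ : J ⊆ I) (hB : B ≤ B') :
    ∀ {n : ℕ} {f : ℝ → ℝ → ℝ → ℝ}, Sm κ I B n f → Sm κ J B' n f := by
  intro n
  induction n with
  | zero => exact fun h => EReg_mono hJ hB h
  | succ n ih =>
    rintro f ⟨h0, h1, h2, h3, h4⟩
    exact ⟨EReg_mono hJ hB h0, ⟨fun t ht => h1.dt t (hJ ht), fun t ht => h1.dx t (hJ ht),
      fun t ht => h1.dy t (hJ ht)⟩, ih h2, ih h3, ih h4⟩

theorem Sm.sm0 {I : Set ℝ} {n : ℕ} (h : Sm κ I B n f) : Sm0 κ I B f := by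
  cases n with
  | zero => exact h
  | succ n => exact h.1

theorem Sm.pred {I : Set ℝ} : ∀ {n : ℕ} {f : ℝ → ℝ → ℝ → ℝ}, Sm κ I B (n + 1) f → Sm κ I B n f := by
  intro n
  induction n with
  | zero => exact fun h => h.1
  | succ n ih => exact fun ⟨h0, h1, h2, h3, h4⟩ => ⟨h0, h1, ih h2, ih h3, ih h4⟩

/-- Derivatives stay in the class on a smaller slab (`hol_fderiv_apply`, `hol_fderiv_le` on the
closed ball of radius `r / 4`; the norm of `C3` is the sup norm). -/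
theorem Reg.deriv_reg (hr : 0 < r) (hκ : 0 ≤ κ) (hB : 0 ≤ B) (h : Reg κ t₁ r B W) {e : C3}
    (he : ‖e‖ ≤ 1) :
    Reg κ t₁ (r / 2) (B * Real.exp (κ * r) * (4 / r)) fun p => fderiv ℂ W p e := by
  have key : ∀ p ∈ slab t₁ (r / 2), ∀ q ∈ Metric.closedBall p (r / 4),
      q ∈ slab t₁ r ∧ |p.2.2.re| ≤ |q.2.2.re| + r := by
    rintro p ⟨h1, h2, h3⟩ q hq
    rw [mem_closedBall_iff_norm] at hq
    have a1 : ‖q.1 - p.1‖ ≤ r / 4 := (norm_fst_le (q - p)).trans hq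
    have a2 : ‖q.2.1 - p.2.1‖ ≤ r / 4 :=
      (norm_fst_le (q - p).2).trans ((norm_snd_le (q - p)).trans hq)
    have a3 : ‖q.2.2 - p.2.2‖ ≤ r / 4 :=
      (norm_snd_le (q - p).2).trans ((norm_snd_le (q - p)).trans hq)
    have b1 := norm_sub_le_norm_sub_add_norm_sub q.1 p.1 t₁
    have b2 := (abs_sub_abs_le_abs_sub _ _).trans ((Complex.abs_im_le_norm _).trans a2)
    have b3 := (abs_sub_abs_le_abs_sub _ _).trans ((Complex.abs_im_le_norm _).trans a3)
    have b4 := (abs_abs_sub_abs_le_abs_sub _ _).trans ((Complex.abs_re_le_norm _).trans a3)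
    exact ⟨⟨by linarith, by linarith, by linarith⟩, by linarith [(abs_le.1 b4).1]⟩
  refine ⟨(hol_fderiv_apply (slab_open t₁ r) h.diff e).mono fun p hp =>
    (key p hp p (Metric.mem_closedBall_self (by positivity))).1, fun p hp => ?_⟩
  have h1 := hol_fderiv_le (slab_open t₁ r) h.diff (by positivity : 0 < r / 4)
    (fun q hq => (key p hp q hq).1) (B := B * Real.exp (κ * r) * Real.exp (-(κ * |p.2.2.re|)))
    fun q hq => (h.bd q (key p hp q hq).1).trans (by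
      rw [mul_assoc, ← Real.exp_add]
      exact mul_le_mul_of_nonneg_left (Real.exp_le_exp.2 (by
        nlinarith [mul_le_mul_of_nonneg_left (key p hp q hq).2 hκ])) hB)
  refine ((fderiv ℂ W p).le_opNorm e).trans
    ((mul_le_of_le_one_right (norm_nonneg _) he).trans (h1.trans_eq ?_))
  field_simp

theorem EReg_line {g : ℝ → C3} {e : C3} {s : ℝ} {φ : ℝ → ℝ} (hg : HasDerivAt g e s)
    (hW : DifferentiableAt ℂ W (g s)) (h : ∀ᶠ s' in 𝓝 s, W (g s') = φ s') :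
    HasDerivAt φ (deriv φ s) s ∧ fderiv ℂ W (g s) e = (deriv φ s : ℝ) := by
  have h2 : HasDerivAt (fun s' => (φ s' : ℂ)) (fderiv ℂ W (g s) e) s :=
    ((hW.hasFDerivAt.restrictScalars ℝ).comp_hasDerivAt s hg).congr_of_eventuallyEq
      (h.mono fun _ e => e.symm)
  have h3 : HasDerivAt φ (fderiv ℂ W (g s) e).re s :=
    Complex.reCLM.hasFDerivAt.comp_hasDerivAt s h2
  exact ⟨h3.differentiableAt.hasDerivAt, h2.unique h3.differentiableAt.hasDerivAt.ofReal_comp⟩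

/-- Real traces of the partial derivatives. -/
theorem Reg.trace (hr : 0 < r) (h : Reg κ t₁ r B W)
    (hf : ∀ t ∈ Ioo (t₁ - r) (t₁ + r), ∀ x y, W (rp t x y) = (f t x y : ℝ)) :
    Dif (Ioo (t₁ - r) (t₁ + r)) f ∧ ∀ t ∈ Ioo (t₁ - r) (t₁ + r), ∀ x y,
      fderiv ℂ W (rp t x y) (1, 0, 0) = (dT f t x y : ℝ) ∧
      fderiv ℂ W (rp t x y) (0, 1, 0) = (dX f t x y : ℝ) ∧
      fderiv ℂ W (rp t x y) (0, 0, 1) = (dY f t x y : ℝ) := by
  have hW : ∀ t ∈ Ioo (t₁ - r) (t₁ + r), ∀ x y, DifferentiableAt ℂ W (rp t x y) := fun t ht x y =>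
    h.diff.differentiableAt ((slab_open t₁ r).mem_nhds ((rp_mem_slab hr x y).2 ht))
  have h1 : ∀ s : ℝ, HasDerivAt (fun s' : ℝ => (s' : ℂ)) 1 s := fun s =>
    (hasDerivAt_id s).ofReal_comp
  have a1 := fun t ht x y => EReg_line (g := fun s => rp s x y) (φ := fun s => f s x y)
    ((h1 t).prodMk ((hasDerivAt_const t _).prodMk (hasDerivAt_const t _))) (hW t ht x y)
    (Filter.mem_of_superset (isOpen_Ioo.mem_nhds ht) fun s hs => hf s hs x y)
  have a2 := fun t ht x y => EReg_line (g := fun s => rp t s y) (φ := fun s => f t s y)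
    ((hasDerivAt_const x _).prodMk ((h1 x).prodMk (hasDerivAt_const x _))) (hW t ht x y)
    (.of_forall fun s => hf t ht s y)
  have a3 := fun t ht x y => EReg_line (g := fun s => rp t x s) (φ := fun s => f t x s)
    ((hasDerivAt_const y _).prodMk ((hasDerivAt_const y _).prodMk (h1 y))) (hW t ht x y)
    (.of_forall fun s => hf t ht x s)
  exact ⟨⟨fun t ht x y => (a1 t ht x y).1, fun t ht x y => (a2 t ht x y).1,
    fun t ht x y => (a3 t ht x y).1⟩,
    fun t ht x y => ⟨(a1 t ht x y).2, (a2 t ht x y).2, (a3 t ht x y).2⟩⟩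

end Pool.Agent.Lib.MP_3d41d4_an
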