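import Pool.Agent.Lib.MP_3d41d4_an.Defs

open MeasureTheory Set Filter Topology Real
open scoped ENNReal

namespace Pool.Agent.Lib.MP_3d41d4_an

/-- The closed box. -/
def T0_box (R : ℝ) : Set (ℝ × ℝ) := Icc (-R) R ×ˢ Icc (-R) R

lemma T0_box_compact (R : ℝ) : IsCompact (T0_box R) := isCompact_Icc.prod isCompact_Icc

lemma T0_box_closed (R : ℝ) : IsClosed (T0_box R) := (T0_box_compact R).isClosed

lemma T0_not_mem {R : ℝ} {p : ℝ × ℝ} (hp : p ∉ T0_box R) : R ≤ |p.1| ∨ R ≤ |p.2| := by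
  by_contra hc
  push Not at hc
  apply hp
  have h1 := abs_lt.1 hc.1
  have h2 := abs_lt.1 hc.2
  exact ⟨⟨h1.1.le, h1.2.le⟩, ⟨h2.1.le, h2.2.le⟩⟩

lemma T0_van_x {R : ℝ} {f f' : ℝ → ℝ → ℝ} (hf : ∀ p ∉ T0_box R, f p.1 p.2 = 0)
    (hd : ∀ x y, HasDerivAt (fun x' => f x' y) (f' x y) x) :
    ∀ p ∉ T0_box R, f' p.1 p.2 = 0 := by
  intro p hp
  have hc : Continuous fun x' : ℝ => (x', p.2) := by fun_prop
  have hev : ∀ᶠ x' in 𝓝 p.1, (x', p.2) ∈ (T0_box R)ᶜ :=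
    hc.continuousAt.preimage_mem_nhds ((T0_box_closed R).isOpen_compl.mem_nhds hp)
  have h0 : HasDerivAt (fun x' => f x' p.2) 0 p.1 :=
    (hasDerivAt_const p.1 (0 : ℝ)).congr_of_eventuallyEq (hev.mono fun x' hx' => hf _ hx')
  exact (hd p.1 p.2).unique h0

lemma T0_van_y {R : ℝ} {f f' : ℝ → ℝ → ℝ} (hf : ∀ p ∉ T0_box R, f p.1 p.2 = 0)
    (hd : ∀ x y, HasDerivAt (fun y' => f x y') (f' x y) y) :
    ∀ p ∉ T0_box R, f' p.1 p.2 = 0 := by
  intro p hp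
  have hc : Continuous fun y' : ℝ => (p.1, y') := by fun_prop
  have hev : ∀ᶠ y' in 𝓝 p.2, (p.1, y') ∈ (T0_box R)ᶜ :=
    hc.continuousAt.preimage_mem_nhds ((T0_box_closed R).isOpen_compl.mem_nhds hp)
  have h0 : HasDerivAt (fun y' => f p.1 y') 0 p.2 :=
    (hasDerivAt_const p.2 (0 : ℝ)).congr_of_eventuallyEq (hev.mono fun y' hy' => hf _ hy')
  exact (hd p.1 p.2).unique h0

/-- Bounded measurable functions supported in the box. -/
structure T0_Good (R K : ℝ) (f : ℝ × ℝ → ℝ) : Prop where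
  meas : AEStronglyMeasurable f volume
  bd : ∀ p, |f p| ≤ K
  van : ∀ p ∉ T0_box R, f p = 0

lemma T0_Good.int {R K : ℝ} {f g : ℝ × ℝ → ℝ} (hf : T0_Good R K f) (hg : Continuous g) :
    Integrable (fun p => f p * g p) := by
  have h1 : IntegrableOn g (T0_box R) := hg.continuousOn.integrableOn_compact (T0_box_compact R)
  have h2 : IntegrableOn (fun p => f p * g p) (T0_box R) :=
    Integrable.bdd_mul (c := K) h1 hf.meas.restrict (Eventually.of_forall fun p => hf.bd p)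
  refine (integrableOn_iff_integrable_of_support_subset ?_).1 h2
  intro p hp
  by_contra hc
  exact hp (by simp [hf.van p hc])

lemma T0_int_zero {F F' : ℝ × ℝ → ℝ} (w : ℝ × ℝ) (hF : Integrable F) (hF' : Integrable F')
    (hd : ∀ p, HasLineDerivAt ℝ F (F' p) p w) : ∫ p, F' p = 0 := by
  have := integral_bilinear_hasLineDerivAt_right_eq_neg_left_of_integrable (μ := volume)
    (f := fun _ : ℝ × ℝ => (1 : ℝ)) (f' := fun _ => (0 : ℝ)) (g := F) (g' := F') (v := w)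
    (B := ContinuousLinearMap.mul ℝ ℝ) (by simp) (by simpa using hF') (by simpa using hF)
    (fun p _ => by
      unfold HasLineDerivAt
      exact hasDerivAt_const _ _) (fun p _ => hd p)
  simpa using this

lemma T0_int_zero_x {F F' : ℝ × ℝ → ℝ} (hF : Integrable F) (hF' : Integrable F')
    (hd : ∀ x y, HasDerivAt (fun x' => F (x', y)) (F' (x, y)) x) : ∫ p, F' p = 0 := by
  refine T0_int_zero (1, 0) hF hF' fun p => ?_
  unfold HasLineDerivAt
  have h1 : HasDerivAt (fun x' => F (x', p.2)) (F' p) (p.1 + 0) := by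
    simpa using hd p.1 p.2
  have h2 := h1.comp_const_add p.1 0
  convert h2 using 2 with r
  congr 1
  ext <;> simp

lemma T0_int_zero_y {F F' : ℝ × ℝ → ℝ} (hF : Integrable F) (hF' : Integrable F')
    (hd : ∀ x y, HasDerivAt (fun y' => F (x, y')) (F' (x, y)) y) : ∫ p, F' p = 0 := by
  refine T0_int_zero (0, 1) hF hF' fun p => ?_
  unfold HasLineDerivAt
  have h1 : HasDerivAt (fun y' => F (p.1, y')) (F' p) (p.2 + 0) := by
    simpa using hd p.1 p.2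
  have h2 := h1.comp_const_add p.2 0
  convert h2 using 2 with r
  congr 1
  ext <;> simp

/-- Directional derivative. -/
noncomputable def T0_D (F : ℝ × ℝ × ℝ → ℝ) (e : ℝ × ℝ × ℝ) (p : ℝ × ℝ × ℝ) : ℝ := fderiv ℝ F p e

lemma T0_open (T : ℝ) : IsOpen (Ioo (0 : ℝ) T ×ˢ (univ : Set (ℝ × ℝ))) :=
  isOpen_Ioo.prod isOpen_univ

lemma T0_D_smooth {T : ℝ} {F : ℝ × ℝ × ℝ → ℝ} (hF : ContDiffOn ℝ 2 F (Ioo 0 T ×ˢ univ))
    (e : ℝ × ℝ × ℝ) : ContDiffOn ℝ 1 (T0_D F e) (Ioo 0 T ×ˢ univ) := by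
  have h1 : ContDiffOn ℝ 1 (fderiv ℝ F) (Ioo 0 T ×ˢ univ) :=
    hF.fderiv_of_isOpen (T0_open T) (by norm_num)
  exact h1.clm_apply contDiffOn_const

lemma T0_D_cont {T : ℝ} {F : ℝ × ℝ × ℝ → ℝ} (hF : ContDiffOn ℝ 1 F (Ioo 0 T ×ˢ univ))
    (e : ℝ × ℝ × ℝ) : ContinuousOn (T0_D F e) (Ioo 0 T ×ˢ univ) := by
  have h1 : ContinuousOn (fderiv ℝ F) (Ioo 0 T ×ˢ univ) :=
    hF.continuousOn_fderiv_of_isOpen (T0_open T) le_rfl
  exact h1.clm_apply continuousOn_const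

lemma T0_fd {T : ℝ} {F : ℝ × ℝ × ℝ → ℝ} (hF : ContDiffOn ℝ 1 F (Ioo 0 T ×ˢ univ))
    {s : ℝ} (hs : s ∈ Ioo 0 T) (x y : ℝ) : HasFDerivAt F (fderiv ℝ F (s, x, y)) (s, x, y) := by
  have hm : ((s, x, y) : ℝ × ℝ × ℝ) ∈ Ioo (0 : ℝ) T ×ˢ (univ : Set (ℝ × ℝ)) := ⟨hs, trivial⟩
  exact ((hF.differentiableOn (by norm_num)).differentiableAt
    ((T0_open T).mem_nhds hm)).hasFDerivAt

lemma T0_ds {T : ℝ} {F : ℝ × ℝ × ℝ → ℝ} (hF : ContDiffOn ℝ 1 F (Ioo 0 T ×ˢ univ))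
    {s : ℝ} (hs : s ∈ Ioo 0 T) (x y : ℝ) :
    HasDerivAt (fun s' => F (s', x, y)) (T0_D F (1, 0, 0) (s, x, y)) s := by
  have h1 : HasDerivAt (fun s' : ℝ => ((s', x, y) : ℝ × ℝ × ℝ)) (1, 0, 0) s :=
    (hasDerivAt_id s).prodMk (hasDerivAt_const s (x, y))
  exact (T0_fd hF hs x y).comp_hasDerivAt s h1

lemma T0_dx {T : ℝ} {F : ℝ × ℝ × ℝ → ℝ} (hF : ContDiffOn ℝ 1 F (Ioo 0 T ×ˢ univ))
    {s : ℝ} (hs : s ∈ Ioo 0 T) (x y : ℝ) :
    HasDerivAt (fun x' => F (s, x', y)) (T0_D F (0, 1, 0) (s, x, y)) x := by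
  have h1 : HasDerivAt (fun x' : ℝ => ((s, x', y) : ℝ × ℝ × ℝ)) (0, 1, 0) x :=
    (hasDerivAt_const x s).prodMk ((hasDerivAt_id x).prodMk (hasDerivAt_const x y))
  exact (T0_fd hF hs x y).comp_hasDerivAt x h1

lemma T0_dy {T : ℝ} {F : ℝ × ℝ × ℝ → ℝ} (hF : ContDiffOn ℝ 1 F (Ioo 0 T ×ˢ univ))
    {s : ℝ} (hs : s ∈ Ioo 0 T) (x y : ℝ) :
    HasDerivAt (fun y' => F (s, x, y')) (T0_D F (0, 0, 1) (s, x, y)) y := by
  have h1 : HasDerivAt (fun y' : ℝ => ((s, x, y') : ℝ × ℝ × ℝ)) (0, 0, 1) y :=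
    (hasDerivAt_const y s).prodMk ((hasDerivAt_const y x).prodMk (hasDerivAt_id y))
  exact (T0_fd hF hs x y).comp_hasDerivAt y h1

lemma T0_slice {S : Set ℝ} {F : ℝ × ℝ × ℝ → ℝ} (hF : ContinuousOn F (S ×ˢ univ))
    {s : ℝ} (hs : s ∈ S) : Continuous fun p : ℝ × ℝ => F (s, p.1, p.2) := by
  have hc : Continuous fun p : ℝ × ℝ => ((s, p.1, p.2) : ℝ × ℝ × ℝ) := by fun_prop
  exact hF.comp_continuous hc fun p => ⟨hs, trivial⟩

lemma T0_bdd {T a b R : ℝ} {F : ℝ × ℝ × ℝ → ℝ} (hF : ContinuousOn F (Ioo 0 T ×ˢ univ))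
    (ha : 0 < a) (hb : b < T) :
    ∃ M : ℝ, 0 ≤ M ∧ ∀ s ∈ Icc a b, ∀ p ∈ T0_box R, |F (s, p.1, p.2)| ≤ M := by
  have hK : IsCompact (Icc a b ×ˢ T0_box R) := isCompact_Icc.prod (T0_box_compact R)
  have hsub : Icc a b ×ˢ T0_box R ⊆ Ioo 0 T ×ˢ univ := fun q hq =>
    ⟨⟨ha.trans_le hq.1.1, hq.1.2.trans_lt hb⟩, trivial⟩
  obtain ⟨M, hM⟩ := hK.exists_bound_of_continuousOn (hF.mono hsub)
  refine ⟨max M 0, le_max_right _ _, fun s hs p hp => ?_⟩
  exact (hM (s, p) ⟨hs, hp⟩).trans (le_max_left _ _)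

lemma T0_ind_int (R C : ℝ) : Integrable ((T0_box R).indicator fun _ => C) := by
  rw [integrable_indicator_iff (T0_box_closed R).measurableSet]
  exact integrableOn_const (T0_box_compact R).measure_lt_top.ne

variable {ν T t K c x₀ R : ℝ} {φ₀ γ₀ : ℝ → ℝ} {ω u v θ θs θx θy θxx θyy : ℝ → ℝ → ℝ → ℝ}

lemma T0_exp_le (hθ : TestFn t K c x₀ θ θs θx θy θxx θyy) {a x : ℝ}
    (h : |a| ≤ K * Real.exp (-(c * (x - x₀) ^ 2))) : |a| ≤ K := by
  have he : 0 < Real.exp (-(c * (x - x₀) ^ 2)) := Real.exp_pos _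
  have hK : 0 ≤ K := by
    by_contra hc
    push Not at hc
    have := mul_neg_of_neg_of_pos hc he
    linarith [abs_nonneg a]
  have h1 : Real.exp (-(c * (x - x₀) ^ 2)) ≤ 1 := by
    rw [Real.exp_le_one_iff]
    have := hθ.c_pos
    have : 0 ≤ c * (x - x₀) ^ 2 := by positivity
    linarith
  calc |a| ≤ K * Real.exp (-(c * (x - x₀) ^ 2)) := h
    _ ≤ K * 1 := by gcongr
    _ = K := mul_one K

lemma T0_good0 (hθ : TestFn t K c x₀ θ θs θx θy θxx θyy)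
    (hR : ∀ s ∈ Icc 0 t, ∀ x y, R ≤ |x| ∨ R ≤ |y| → θ s x y = 0) {s : ℝ} (hs : s ∈ Icc 0 t) :
    T0_Good R K fun p => θ s p.1 p.2 :=
  ⟨(T0_slice (F := fun p : ℝ × ℝ × ℝ => θ p.1 p.2.1 p.2.2) hθ.cont hs).aestronglyMeasurable,
    fun p => T0_exp_le hθ (hθ.b0 s hs p.1 p.2), fun _ hp => hR s hs _ _ (T0_not_mem hp)⟩

lemma T0_good1 (hθ : TestFn t K c x₀ θ θs θx θy θxx θyy)
    (hR : ∀ s ∈ Icc 0 t, ∀ x y, R ≤ |x| ∨ R ≤ |y| → θ s x y = 0) {s : ℝ} (hs : s ∈ Ioo 0 t) :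
    (T0_Good R K fun p => θs s p.1 p.2) ∧ (T0_Good R K fun p => θx s p.1 p.2) ∧
    (T0_Good R K fun p => θy s p.1 p.2) ∧ (T0_Good R K fun p => θxx s p.1 p.2) ∧
    (T0_Good R K fun p => θyy s p.1 p.2) := by
  have h0 := (T0_good0 hθ hR (Ioo_subset_Icc_self hs)).van
  have hx := T0_van_x (f := θ s) (f' := θx s) h0 (hθ.dx s hs)
  have hy := T0_van_y (f := θ s) (f' := θy s) h0 (hθ.dy s hs)
  have hxx := T0_van_x (f := θx s) (f' := θxx s) hx (hθ.dxx s hs)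
  have hyy := T0_van_y (f := θy s) (f' := θyy s) hy (hθ.dyy s hs)
  have hss : ∀ p ∉ T0_box R, θs s p.1 p.2 = 0 := by
    intro p hp
    have hev : ∀ᶠ s' in 𝓝 s, s' ∈ Icc 0 t := Icc_mem_nhds hs.1 hs.2
    have h1 : HasDerivAt (fun s' => θ s' p.1 p.2) 0 s :=
      (hasDerivAt_const s (0 : ℝ)).congr_of_eventuallyEq
        (hev.mono fun s' hs' => hR s' hs' _ _ (T0_not_mem hp))
    exact (hθ.ds s hs p.1 p.2).unique h1
  exact ⟨⟨(hθ.ms s hs).aestronglyMeasurable, fun p => T0_exp_le hθ (hθ.b1 s hs p.1 p.2).1, hss⟩,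
    ⟨(hθ.mx s hs).aestronglyMeasurable, fun p => T0_exp_le hθ (hθ.b1 s hs p.1 p.2).2.1, hx⟩,
    ⟨(hθ.my s hs).aestronglyMeasurable, fun p => T0_exp_le hθ (hθ.b1 s hs p.1 p.2).2.2.1, hy⟩,
    ⟨(hθ.mxx s hs).aestronglyMeasurable, fun p => T0_exp_le hθ (hθ.b1 s hs p.1 p.2).2.2.2.1, hxx⟩,
    ⟨(hθ.myy s hs).aestronglyMeasurable, fun p => T0_exp_le hθ (hθ.b1 s hs p.1 p.2).2.2.2.2, hyy⟩⟩

/-- Classical solutions satisfy the weak formulation for compactly supported test functions. -/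
theorem weak_compact (h : IsNS ν T φ₀ γ₀ ω u v) (ht0 : 0 < t) (htT : t < T)
    (hθ : TestFn t K c x₀ θ θs θx θy θxx θyy)
    (hR : ∀ s ∈ Icc 0 t, ∀ x y, R ≤ |x| ∨ R ≤ |y| → θ s x y = 0) :
    (∀ s ∈ Ioo 0 t, Integrable (wI ν ω u v θs θx θy θxx θyy s) ∧
      HasDerivAt (fun s' => ∫ p : ℝ × ℝ, θ s' p.1 p.2 * ω s' p.1 p.2)
        (∫ p, wI ν ω u v θs θx θy θxx θyy s p) s) ∧
    Tendsto (fun s' => ∫ p : ℝ × ℝ, θ s' p.1 p.2 * ω s' p.1 p.2) (𝓝[<] t)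
      (𝓝 (∫ p : ℝ × ℝ, θ t p.1 p.2 * ω t p.1 p.2)) := by
  set W : ℝ × ℝ × ℝ → ℝ := fun p => ω p.1 p.2.1 p.2.2 with hWdef
  set U : ℝ × ℝ × ℝ → ℝ := fun p => u p.1 p.2.1 p.2.2 with hUdef
  set V : ℝ × ℝ × ℝ → ℝ := fun p => v p.1 p.2.1 p.2.2 with hVdef
  have hW2 : ContDiffOn ℝ 2 W (Ioo 0 T ×ˢ univ) := h.smooth_ω
  have hW1 : ContDiffOn ℝ 1 W (Ioo 0 T ×ˢ univ) := hW2.of_le (by norm_num)
  have hU1 : ContDiffOn ℝ 1 U (Ioo 0 T ×ˢ univ) := h.smooth_u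
  have hV1 : ContDiffOn ℝ 1 V (Ioo 0 T ×ˢ univ) := h.smooth_v
  have hK0 : 0 ≤ K :=
    (abs_nonneg _).trans ((T0_good0 hθ hR (left_mem_Icc.2 ht0.le)).bd (0, 0))
  refine ⟨fun s hs => ?_, ?_⟩
  · have hsT : s ∈ Ioo 0 T := ⟨hs.1, hs.2.trans htT⟩
    have g0 := T0_good0 hθ hR (Ioo_subset_Icc_self hs)
    obtain ⟨gs', gx, gy, gxx, gyy⟩ := T0_good1 hθ hR hs
    have hWx := T0_D_smooth hW2 (0, 1, 0)
    have hWy := T0_D_smooth hW2 (0, 0, 1)
    set Ws := T0_D W (1, 0, 0) with hWs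
    set Wx := T0_D W (0, 1, 0) with hWxd
    set Wy := T0_D W (0, 0, 1) with hWyd
    set Wxx := T0_D Wx (0, 1, 0) with hWxx
    set Wyy := T0_D Wy (0, 0, 1) with hWyy
    set Ux := T0_D U (0, 1, 0) with hUx
    set Vy := T0_D V (0, 0, 1) with hVy
    have cW : Continuous fun p : ℝ × ℝ => ω s p.1 p.2 := T0_slice hW1.continuousOn hsT
    have cU : Continuous fun p : ℝ × ℝ => u s p.1 p.2 := T0_slice hU1.continuousOn hsT
    have cV : Continuous fun p : ℝ × ℝ => v s p.1 p.2 := T0_slice hV1.continuousOn hsT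
    have cWs : Continuous fun p : ℝ × ℝ => Ws (s, p.1, p.2) := T0_slice (T0_D_cont hW1 _) hsT
    have cWx : Continuous fun p : ℝ × ℝ => Wx (s, p.1, p.2) := T0_slice (T0_D_cont hW1 _) hsT
    have cWy : Continuous fun p : ℝ × ℝ => Wy (s, p.1, p.2) := T0_slice (T0_D_cont hW1 _) hsT
    have cWxx : Continuous fun p : ℝ × ℝ => Wxx (s, p.1, p.2) := T0_slice (T0_D_cont hWx _) hsT
    have cWyy : Continuous fun p : ℝ × ℝ => Wyy (s, p.1, p.2) := T0_slice (T0_D_cont hWy _) hsT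
    have cUx : Continuous fun p : ℝ × ℝ => Ux (s, p.1, p.2) := T0_slice (T0_D_cont hU1 _) hsT
    have cVy : Continuous fun p : ℝ × ℝ => Vy (s, p.1, p.2) := T0_slice (T0_D_cont hV1 _) hsT
    have dWx : ∀ x y, HasDerivAt (fun x' => ω s x' y) (Wx (s, x, y)) x := T0_dx hW1 hsT
    have dWy : ∀ x y, HasDerivAt (fun y' => ω s x y') (Wy (s, x, y)) y := T0_dy hW1 hsT
    have dWxx : ∀ x y, HasDerivAt (fun x' => Wx (s, x', y)) (Wxx (s, x, y)) x := T0_dx hWx hsT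
    have dWyy : ∀ x y, HasDerivAt (fun y' => Wy (s, x, y')) (Wyy (s, x, y)) y := T0_dy hWy hsT
    have dUx : ∀ x y, HasDerivAt (fun x' => u s x' y) (Ux (s, x, y)) x := T0_dx hU1 hsT
    have dVy : ∀ x y, HasDerivAt (fun y' => v s x y') (Vy (s, x, y)) y := T0_dy hV1 hsT
    have dWs : ∀ s' ∈ Ioo 0 T, ∀ x y, HasDerivAt (fun s'' => ω s'' x y) (Ws (s', x, y)) s' :=
      fun s' hs' => T0_ds hW1 hs'
    have hpde : ∀ x y, Ws (s, x, y) + u s x y * Wx (s, x, y) + v s x y * Wy (s, x, y)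
        = ν * (Wxx (s, x, y) + Wyy (s, x, y)) := by
      intro x y
      have h1 := h.pde s hsT x y
      have e1 : (deriv fun x' => ω s x' y) = fun x' => Wx (s, x', y) :=
        funext fun x' => (dWx x' y).deriv
      have e2 : (deriv fun y' => ω s x y') = fun y' => Wy (s, x, y') :=
        funext fun y' => (dWy x y').deriv
      rw [e1, e2, (dWs s hsT x y).deriv, (dWxx x y).deriv, (dWyy x y).deriv] at h1
      exact h1
    have hdiv : ∀ x y, Ux (s, x, y) + Vy (s, x, y) = 0 := by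
      intro x y
      have h1 := h.div_free s hsT x y
      rw [(dUx x y).deriv, (dVy x y).deriv] at h1
      exact h1
    -- integrability of the weak integrand
    have hwI : Integrable (wI ν ω u v θs θx θy θxx θyy s) := by
      have h1 := ((((gs'.int cW).add (gx.int (cW.mul cU))).add (gy.int (cW.mul cV))).add
        (gxx.int (cW.const_mul ν))).add (gyy.int (cW.const_mul ν))
      refine h1.congr (Eventually.of_forall fun p => ?_)
      simp only [wI, Pi.add_apply, Pi.mul_apply]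
      ring
    refine ⟨hwI, ?_⟩
    -- differentiation under the integral
    obtain ⟨a, ha0, has⟩ := exists_between hs.1
    obtain ⟨b, hsb, hbt⟩ := exists_between hs.2
    obtain ⟨M1, hM10, hM1⟩ := T0_bdd (R := R) hW1.continuousOn ha0 (hbt.trans htT)
    obtain ⟨M2, hM20, hM2⟩ := T0_bdd (R := R) (T0_D_cont hW1 (1, 0, 0)) ha0 (hbt.trans htT)
    have hsub : ∀ s' ∈ Icc a b, s' ∈ Ioo 0 t := fun s' hs' =>
      ⟨ha0.trans_le hs'.1, hs'.2.trans_lt hbt⟩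
    have hsubT : ∀ s' ∈ Icc a b, s' ∈ Ioo 0 T := fun s' hs' =>
      ⟨(hsub s' hs').1, (hsub s' hs').2.trans htT⟩
    have hnh : Icc a b ∈ 𝓝 s := Icc_mem_nhds has hsb
    have hder := hasDerivAt_integral_of_dominated_loc_of_deriv_le (μ := volume)
      (F := fun s' (p : ℝ × ℝ) => θ s' p.1 p.2 * ω s' p.1 p.2)
      (F' := fun s' (p : ℝ × ℝ) => θs s' p.1 p.2 * ω s' p.1 p.2 + θ s' p.1 p.2 * Ws (s', p.1, p.2))
      (bound := (T0_box R).indicator fun _ => K * M1 + K * M2) hnh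
      (Filter.mem_of_superset hnh fun s' hs' =>
        ((T0_good0 hθ hR (Ioo_subset_Icc_self (hsub s' hs'))).int
          (T0_slice hW1.continuousOn (hsubT s' hs'))).aestronglyMeasurable)
      (g0.int cW) ((gs'.int cW).add (g0.int cWs)).aestronglyMeasurable
      (Eventually.of_forall fun p s' hs' => by
        have q0 := T0_good0 hθ hR (Ioo_subset_Icc_self (hsub s' hs'))
        have q1 := (T0_good1 hθ hR (hsub s' hs')).1
        by_cases hp : p ∈ T0_box R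
        · rw [indicator_of_mem hp, Real.norm_eq_abs]
          refine (abs_add_le _ _).trans ?_
          rw [abs_mul, abs_mul]
          exact add_le_add (mul_le_mul (q1.bd p) (hM1 s' hs' p hp) (abs_nonneg _) hK0)
            (mul_le_mul (q0.bd p) (hM2 s' hs' p hp) (abs_nonneg _) hK0)
        · have z0 : θ s' p.1 p.2 = 0 := q0.van p hp
          have z1 : θs s' p.1 p.2 = 0 := q1.van p hp
          rw [indicator_of_notMem hp, z0, z1]
          simp)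
      (T0_ind_int R _)
      (Eventually.of_forall fun p s' hs' =>
        (hθ.ds s' (hsub s' hs') p.1 p.2).mul (dWs s' (hsubT s' hs') p.1 p.2))
    -- integration by parts
    have hAi : Integrable fun p : ℝ × ℝ => (θx s p.1 p.2 * (-(u s p.1 p.2 * ω s p.1 p.2))
        + θ s p.1 p.2 * (-(Ux (s, p.1, p.2) * ω s p.1 p.2 + u s p.1 p.2 * Wx (s, p.1, p.2))
          + ν * Wxx (s, p.1, p.2))
        + θxx s p.1 p.2 * (-(ν * ω s p.1 p.2))) :=
      ((gx.int (cU.mul cW).neg).add (g0.int (((cUx.mul cW).add (cU.mul cWx)).neg.add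
        (cWxx.const_mul ν)))).add (gxx.int (cW.const_mul ν).neg)
    have hA : ∫ p : ℝ × ℝ, (θx s p.1 p.2 * (-(u s p.1 p.2 * ω s p.1 p.2))
        + θ s p.1 p.2 * (-(Ux (s, p.1, p.2) * ω s p.1 p.2 + u s p.1 p.2 * Wx (s, p.1, p.2))
          + ν * Wxx (s, p.1, p.2))
        + θxx s p.1 p.2 * (-(ν * ω s p.1 p.2))) = 0 := by
      refine T0_int_zero_x (F := fun p : ℝ × ℝ =>
        θ s p.1 p.2 * (-(u s p.1 p.2 * ω s p.1 p.2) + ν * Wx (s, p.1, p.2))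
          + θx s p.1 p.2 * (-(ν * ω s p.1 p.2))) ?_ ?_ ?_
      · exact (g0.int ((cU.mul cW).neg.add (cWx.const_mul ν))).add (gx.int (cW.const_mul ν).neg)
      · exact hAi
      · intro x y
        have h1 := ((hθ.dx s hs x y).mul (((dUx x y).mul (dWx x y)).neg.add
          ((dWxx x y).const_mul ν))).add ((hθ.dxx s hs x y).mul ((dWx x y).const_mul ν).neg)
        refine h1.congr_deriv ?_
        simp only [Pi.add_apply, Pi.mul_apply, Pi.neg_apply]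
        ring
    have hBi : Integrable fun p : ℝ × ℝ => (θy s p.1 p.2 * (-(v s p.1 p.2 * ω s p.1 p.2))
        + θ s p.1 p.2 * (-(Vy (s, p.1, p.2) * ω s p.1 p.2 + v s p.1 p.2 * Wy (s, p.1, p.2))
          + ν * Wyy (s, p.1, p.2))
        + θyy s p.1 p.2 * (-(ν * ω s p.1 p.2))) :=
      ((gy.int (cV.mul cW).neg).add (g0.int (((cVy.mul cW).add (cV.mul cWy)).neg.add
        (cWyy.const_mul ν)))).add (gyy.int (cW.const_mul ν).neg)
    have hB : ∫ p : ℝ × ℝ, (θy s p.1 p.2 * (-(v s p.1 p.2 * ω s p.1 p.2))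
        + θ s p.1 p.2 * (-(Vy (s, p.1, p.2) * ω s p.1 p.2 + v s p.1 p.2 * Wy (s, p.1, p.2))
          + ν * Wyy (s, p.1, p.2))
        + θyy s p.1 p.2 * (-(ν * ω s p.1 p.2))) = 0 := by
      refine T0_int_zero_y (F := fun p : ℝ × ℝ =>
        θ s p.1 p.2 * (-(v s p.1 p.2 * ω s p.1 p.2) + ν * Wy (s, p.1, p.2))
          + θy s p.1 p.2 * (-(ν * ω s p.1 p.2))) ?_ ?_ ?_
      · exact (g0.int ((cV.mul cW).neg.add (cWy.const_mul ν))).add (gy.int (cW.const_mul ν).neg)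
      · exact hBi
      · intro x y
        have h1 := ((hθ.dy s hs x y).mul (((dVy x y).mul (dWy x y)).neg.add
          ((dWyy x y).const_mul ν))).add ((hθ.dyy s hs x y).mul ((dWy x y).const_mul ν).neg)
        refine h1.congr_deriv ?_
        simp only [Pi.add_apply, Pi.mul_apply, Pi.neg_apply]
        ring
    have hsum := integral_add (hwI.add hAi) hBi
    have hsum2 := integral_add hwI hAi
    simp only [Pi.add_apply] at hsum
    rw [hsum2, hA, hB, add_zero, add_zero] at hsum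
    rw [← hsum]
    refine hder.2.congr_deriv (integral_congr_ae (Eventually.of_forall fun p => ?_))
    have e1 := hpde p.1 p.2
    have e2 := hdiv p.1 p.2
    simp only [wI]
    linear_combination (θ s p.1 p.2) * e1 + θ s p.1 p.2 * ω s p.1 p.2 * e2
  · have ht2 : 0 < t / 2 := by linarith
    obtain ⟨M1, hM10, hM1⟩ := T0_bdd (R := R) hW1.continuousOn ht2 htT
    have hnh : Icc (t / 2) t ∈ 𝓝[<] t := Icc_mem_nhdsLT (by linarith)
    have hsub : ∀ s' ∈ Icc (t / 2) t, s' ∈ Icc 0 t := fun s' hs' => ⟨ht2.le.trans hs'.1, hs'.2⟩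
    have hsubT : ∀ s' ∈ Icc (t / 2) t, s' ∈ Ioo 0 T := fun s' hs' =>
      ⟨ht2.trans_le hs'.1, hs'.2.trans_lt htT⟩
    refine tendsto_integral_filter_of_dominated_convergence
      ((T0_box R).indicator fun _ => K * M1) ?_ ?_ (T0_ind_int R _) ?_
    · exact Filter.mem_of_superset hnh fun s' hs' =>
        ((T0_good0 hθ hR (hsub s' hs')).int
          (T0_slice hW1.continuousOn (hsubT s' hs'))).aestronglyMeasurable
    · filter_upwards [hnh] with s' hs'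
      refine Eventually.of_forall fun p => ?_
      have q0 := T0_good0 hθ hR (hsub s' hs')
      by_cases hp : p ∈ T0_box R
      · rw [indicator_of_mem hp, Real.norm_eq_abs, abs_mul]
        exact mul_le_mul (q0.bd p) (hM1 s' hs' p hp) (abs_nonneg _) hK0
      · have z0 : θ s' p.1 p.2 = 0 := q0.van p hp
        rw [indicator_of_notMem hp, z0]
        simp
    · refine Eventually.of_forall fun p => ?_
      have hc : Continuous fun s' : ℝ => ((s', p.1, p.2) : ℝ × ℝ × ℝ) := by fun_prop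
      have h1 : ContinuousOn (fun s' => θ s' p.1 p.2) (Icc 0 t) :=
        hθ.cont.comp hc.continuousOn fun s' hs' => ⟨hs', trivial⟩
      have h2 : Tendsto (fun s' => θ s' p.1 p.2) (𝓝[<] t) (𝓝 (θ t p.1 p.2)) :=
        ((h1 t (right_mem_Icc.2 ht0.le)).mono_of_mem_nhdsWithin (Icc_mem_nhdsLT ht0)).tendsto
      have h3 : Tendsto (fun s' => ω s' p.1 p.2) (𝓝[<] t) (𝓝 (ω t p.1 p.2)) :=
        ((T0_ds hW1 ⟨ht0, htT⟩ p.1 p.2).continuousAt.tendsto).mono_left nhdsWithin_le_nhds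
      exact h2.mul h3

end Pool.Agent.Lib.MP_3d41d4_an
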