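import Pool.Agent.Lib.MP_3d41d4_an.EGG
import Pool.Agent.Lib.MP_3d41d4_an.EReg
import Pool.Agent.Lib.MP_3d41d4_an.T0

open MeasureTheory Set Filter Topology Real
open scoped ENNReal

namespace Pool.Agent.Lib.MP_3d41d4_an

theorem EGen_mono {b c : ℝ} (hb : 0 < b) (hbc : b ≤ c) (r Y : ℝ) : G b r Y ≤ c / b * G c r Y := by
  have hc : 0 < c := hb.trans_le hbc
  have hπ := Real.pi_pos
  have e : c / b * G c r Y = Real.exp (-((r ^ 2 + Y ^ 2) / (4 * c))) / (4 * π * b) := by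
    unfold G
    field_simp
  rw [e]
  unfold G
  refine div_le_div_of_nonneg_right (Real.exp_le_exp.2 (neg_le_neg ?_)) (by positivity)
  exact div_le_div_of_nonneg_left (by positivity) (by positivity) (by linarith)

theorem EGen_sq {a : ℝ} (ha : 0 < a) (r Y : ℝ) :
    (r ^ 2 + Y ^ 2) * G a r Y ≤ 16 * a * G (2 * a) r Y := by
  have hπ := Real.pi_pos
  obtain ⟨s, hs⟩ : ∃ s, s = (r ^ 2 + Y ^ 2) / (8 * a) := ⟨_, rfl⟩
  have e0 : r ^ 2 + Y ^ 2 = 8 * a * s := by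
    rw [hs]
    field_simp
  have e1 : G a r Y = Real.exp (-s) * Real.exp (-s) / (4 * π * a) := by
    unfold G
    rw [← Real.exp_add, e0]
    congr 2
    field_simp
    ring
  have e2 : G (2 * a) r Y = Real.exp (-s) / (8 * π * a) := by
    unfold G
    rw [e0]
    congr 1
    · congr 2
      field_simp
      ring
    · ring
  have h1 : s * Real.exp (-s) ≤ 1 := by
    have := Real.add_one_le_exp s
    rw [Real.exp_neg, mul_inv_le_iff₀ (Real.exp_pos s)]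
    linarith
  rw [e1, e2, e0]
  have e3 : 8 * a * s * (Real.exp (-s) * Real.exp (-s) / (4 * π * a)) =
      s * Real.exp (-s) * (16 * a * (Real.exp (-s) / (8 * π * a))) := by
    field_simp
    ring
  rw [e3]
  exact mul_le_of_le_one_left (by positivity) h1

theorem EGen_two {a s c r Y : ℝ} (ha : 0 < a) (h0 : 0 ≤ s) (h1 : s ≤ r ^ 2 + Y ^ 2) (h2 : 0 ≤ c)
    (h3 : c ≤ 1 / a) : |(s / (4 * a ^ 2) - c) * G a r Y| ≤ 6 / a * G (2 * a) r Y := by
  have g0 := G_nonneg ha.le r Y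
  have g1 := EGen_sq ha r Y
  have g2 := EGen_mono ha (by linarith : a ≤ 2 * a) r Y
  rw [mul_div_cancel_right₀ _ ha.ne'] at g2
  have g3 : s / (4 * a ^ 2) * G a r Y ≤ 4 / a * G (2 * a) r Y := by
    have : s / (4 * a ^ 2) * G a r Y = s * G a r Y / (4 * a ^ 2) := by ring
    rw [this, div_le_iff₀ (by positivity)]
    have e : 4 / a * G (2 * a) r Y * (4 * a ^ 2) = 16 * a * G (2 * a) r Y := by
      field_simp
      ring
    rw [e]
    exact (mul_le_mul_of_nonneg_right h1 g0).trans g1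
  have g4 : c * G a r Y ≤ 2 / a * G (2 * a) r Y := by
    have e : 2 / a * G (2 * a) r Y = 1 / a * (2 * G (2 * a) r Y) := by ring
    rw [e]
    exact mul_le_mul h3 g2 g0 (by positivity)
  have g5 : 0 ≤ s / (4 * a ^ 2) * G a r Y := by positivity
  have g6 : 0 ≤ c * G a r Y := mul_nonneg h2 g0
  have e : 6 / a * G (2 * a) r Y = 4 / a * G (2 * a) r Y + 2 / a * G (2 * a) r Y := by ring
  rw [sub_mul, e, abs_le]
  constructor <;> linarith

theorem EGen_int {K : ℝ → ℝ → ℝ} {b C : ℝ} (hb : 0 < b) (x y : ℝ)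
    (hm : Measurable fun w : ℝ × ℝ => K (x - w.1) (y - w.2)) (h : ∀ r Y, |K r Y| ≤ C * G b r Y) :
    Integrable fun w : ℝ × ℝ => K (x - w.1) (y - w.2) :=
  ((G_integrable hb x y).const_mul C).mono' hm.aestronglyMeasurable
    (Eventually.of_forall fun _ => h _ _)

theorem EGen_ints {a : ℝ} (ha : 0 < a) (x y : ℝ) :
    (Integrable fun w : ℝ × ℝ => Gx a (x - w.1) (y - w.2)) ∧
    (Integrable fun w : ℝ × ℝ => Gy a (x - w.1) (y - w.2)) ∧
    (Integrable fun w : ℝ × ℝ =>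
      ((x - w.1) ^ 2 / (4 * a ^ 2) - 1 / (2 * a)) * G a (x - w.1) (y - w.2)) ∧
    Integrable fun w : ℝ × ℝ =>
      ((y - w.2) ^ 2 / (4 * a ^ 2) - 1 / (2 * a)) * G a (x - w.1) (y - w.2) := by
  obtain ⟨C, -, hC⟩ := ker_bound_real
  have h2 : 0 < 2 * a := by linarith
  have m := ker_meas_real (a := fun _ : ℝ × ℝ => a) (r := fun w => x - w.1) (Y := fun w => y - w.2)
    (by fun_prop) (by fun_prop) (by fun_prop)
  have m' := measurable_G (a := fun _ : ℝ × ℝ => a) (r := fun w => x - w.1)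
    (Y := fun w => y - w.2) (by fun_prop) (by fun_prop) (by fun_prop)
  have hc : 1 / (2 * a) ≤ 1 / a := one_div_le_one_div_of_le ha (by linarith)
  exact ⟨EGen_int (K := Gx a) h2 x y m.1 fun r Y => (hC a r Y ha).2.1,
    EGen_int (K := Gy a) h2 x y m.2 fun r Y => (hC a r Y ha).2.2,
    EGen_int (K := fun r Y => (r ^ 2 / (4 * a ^ 2) - 1 / (2 * a)) * G a r Y) h2 x y
      (Measurable.mul (by fun_prop) m') fun r Y => EGen_two ha (sq_nonneg r)
        (le_add_of_nonneg_right (sq_nonneg Y)) (by positivity) hc,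
    EGen_int (K := fun r Y => (Y ^ 2 / (4 * a ^ 2) - 1 / (2 * a)) * G a r Y) h2 x y
      (Measurable.mul (by fun_prop) m') fun r Y => EGen_two ha (sq_nonneg Y)
        (le_add_of_nonneg_left (sq_nonneg r)) (by positivity) hc⟩

theorem EGen_mul {K : ℝ × ℝ → ℝ} (hK : Integrable K) {F : ℝ → ℝ → ℝ} {B : ℝ}
    (c : Continuous fun p : ℝ × ℝ => F p.1 p.2) (hb : ∀ x y, |F x y| ≤ B) :
    Integrable fun w : ℝ × ℝ => K w * F w.1 w.2 :=
  hK.mul_bdd c.aestronglyMeasurable (Eventually.of_forall fun w => hb w.1 w.2)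

theorem EGen_px {K K' F D : ℝ → ℝ → ℝ} {B x y : ℝ}
    (hK : ∀ r Y, HasDerivAt (fun r' => K r' Y) (K' r Y) r)
    (i : Integrable fun w : ℝ × ℝ => K (x - w.1) (y - w.2))
    (i' : Integrable fun w : ℝ × ℝ => K' (x - w.1) (y - w.2))
    (c : Continuous fun p : ℝ × ℝ => F p.1 p.2) (e : Continuous fun p : ℝ × ℝ => D p.1 p.2)
    (d : ∀ x y, HasDerivAt (fun x' => F x' y) (D x y) x) (b : ∀ x y, |F x y| ≤ B)
    (b' : ∀ x y, |D x y| ≤ B) : ∫ w : ℝ × ℝ, K' (x - w.1) (y - w.2) * F w.1 w.2 =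
      ∫ w : ℝ × ℝ, K (x - w.1) (y - w.2) * D w.1 w.2 := by
  have h := T0_int_zero_x (F := fun w => K (x - w.1) (y - w.2) * F w.1 w.2)
    (F' := fun w => K (x - w.1) (y - w.2) * D w.1 w.2 - K' (x - w.1) (y - w.2) * F w.1 w.2)
    (EGen_mul i c b) ((EGen_mul i e b').sub (EGen_mul i' c b)) fun p q =>
      (((hK (x - p) (y - q)).comp_const_sub x p).mul (d p q)).congr_deriv (by ring)
  rw [integral_sub (EGen_mul i e b') (EGen_mul i' c b)] at h
  linarith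

theorem EGen_py {K K' F D : ℝ → ℝ → ℝ} {B x y : ℝ}
    (hK : ∀ r Y, HasDerivAt (fun Y' => K r Y') (K' r Y) Y)
    (i : Integrable fun w : ℝ × ℝ => K (x - w.1) (y - w.2))
    (i' : Integrable fun w : ℝ × ℝ => K' (x - w.1) (y - w.2))
    (c : Continuous fun p : ℝ × ℝ => F p.1 p.2) (e : Continuous fun p : ℝ × ℝ => D p.1 p.2)
    (d : ∀ x y, HasDerivAt (fun y' => F x y') (D x y) y) (b : ∀ x y, |F x y| ≤ B)
    (b' : ∀ x y, |D x y| ≤ B) : ∫ w : ℝ × ℝ, K' (x - w.1) (y - w.2) * F w.1 w.2 =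
      ∫ w : ℝ × ℝ, K (x - w.1) (y - w.2) * D w.1 w.2 := by
  have h := T0_int_zero_y (F := fun w => K (x - w.1) (y - w.2) * F w.1 w.2)
    (F' := fun w => K (x - w.1) (y - w.2) * D w.1 w.2 - K' (x - w.1) (y - w.2) * F w.1 w.2)
    (EGen_mul i c b) ((EGen_mul i e b').sub (EGen_mul i' c b)) fun p q =>
      (((hK (x - p) (y - q)).comp_const_sub y q).mul (d p q)).congr_deriv (by ring)
  rw [integral_sub (EGen_mul i e b') (EGen_mul i' c b)] at h
  linarith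



/-- Integration by parts (`T0_int_zero_x`, `T0_int_zero_y`, `G_hasDerivAt`, `ker_bound_real`). -/
theorem dv_parts {a B : ℝ} (ha : 0 < a) {F₁ F₂ D₁ D₂ : ℝ → ℝ → ℝ}
    (c₁ : Continuous fun p : ℝ × ℝ => F₁ p.1 p.2) (c₂ : Continuous fun p : ℝ × ℝ => F₂ p.1 p.2)
    (e₁ : Continuous fun p : ℝ × ℝ => D₁ p.1 p.2) (e₂ : Continuous fun p : ℝ × ℝ => D₂ p.1 p.2)
    (d₁ : ∀ x y, HasDerivAt (fun x' => F₁ x' y) (D₁ x y) x)
    (d₂ : ∀ x y, HasDerivAt (fun y' => F₂ x y') (D₂ x y) y)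
    (hb : ∀ x y, |F₁ x y| ≤ B ∧ |F₂ x y| ≤ B ∧ |D₁ x y| ≤ B ∧ |D₂ x y| ≤ B) (x y : ℝ) :
    dv a F₁ F₂ x y = hc a (fun x' y' => D₁ x' y' + D₂ x' y') x y := by
  obtain ⟨i1, i2, -, -⟩ := EGen_ints ha x y
  have i0 := G_integrable ha x y
  have b1 := fun x y => (hb x y).1
  have b2 := fun x y => (hb x y).2.1
  have b3 := fun x y => (hb x y).2.2.1
  have b4 := fun x y => (hb x y).2.2.2
  unfold dv hc
  simp only [mul_add]
  rw [integral_add (EGen_mul i1 c₁ b1) (EGen_mul i2 c₂ b2),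
    integral_add (EGen_mul i0 e₁ b3) (EGen_mul i0 e₂ b4),
    EGen_px (K := G a) (fun r Y => (G_hasDerivAt ha r Y).1) i0 i1 c₁ e₁ d₁ b1 b3,
    EGen_py (K := G a) (fun r Y => (G_hasDerivAt ha r Y).2.1) i0 i2 c₂ e₂ d₂ b2 b4]

/-- The heat equation for the semigroup. Sketch: differentiate under the integral sign in `a`
(`G_hasDerivAt`, Gaussian domination for `a` in a compact subset of `(0, ∞)`), write
`∂ₐ G = ∂ₓ Gx + ∂_y Gy` and integrate by parts once, which gives `dv a fx fy`. -/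
theorem hc_hasDerivAt {a B : ℝ} (ha : 0 < a) {f fx fy : ℝ → ℝ → ℝ}
    (c₀ : Continuous fun p : ℝ × ℝ => f p.1 p.2) (c₁ : Continuous fun p : ℝ × ℝ => fx p.1 p.2)
    (c₂ : Continuous fun p : ℝ × ℝ => fy p.1 p.2)
    (d₁ : ∀ x y, HasDerivAt (fun x' => f x' y) (fx x y) x)
    (d₂ : ∀ x y, HasDerivAt (fun y' => f x y') (fy x y) y)
    (hb : ∀ x y, |f x y| ≤ B ∧ |fx x y| ≤ B ∧ |fy x y| ≤ B) (x y : ℝ) :
    HasDerivAt (fun a' => hc a' f x y) (dv a fx fy x y) a := by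
  obtain ⟨i1, i2, i3, i4⟩ := EGen_ints ha x y
  have b0 := fun x y => (hb x y).1
  have b1 := fun x y => (hb x y).2.1
  have b2 := fun x y => (hb x y).2.2
  have hB : 0 ≤ B := (abs_nonneg _).trans (b0 0 0)
  have m0 := c₀.measurable
  have m' : ∀ a' : ℝ, Measurable fun w : ℝ × ℝ => G a' (x - w.1) (y - w.2) := fun a' =>
    measurable_G (a := fun _ : ℝ × ℝ => a') (by fun_prop) (by fun_prop) (by fun_prop)
  have h := (hasDerivAt_integral_of_dominated_loc_of_deriv_le (μ := volume)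
    (F := fun (a' : ℝ) (q : ℝ × ℝ) => G a' (x - q.1) (y - q.2) * f q.1 q.2)
    (F' := fun (a' : ℝ) (q : ℝ × ℝ) => (((x - q.1) ^ 2 + (y - q.2) ^ 2) / (4 * a' ^ 2) - 1 / a') *
      G a' (x - q.1) (y - q.2) * f q.1 q.2)
    (bound := fun q : ℝ × ℝ => 48 / a * G (4 * a) (x - q.1) (y - q.2) * B)
    (Ioo_mem_nhds (by linarith : a / 2 < a) (by linarith : a < 2 * a))
    (Eventually.of_forall fun a' => ((m' a').mul m0).aestronglyMeasurable)
    (EGen_mul (G_integrable ha x y) c₀ b0)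
    (((Measurable.mul (by fun_prop) (m' a)).mul m0).aestronglyMeasurable)
    (Eventually.of_forall fun q a' h' => ?_)
    (((G_integrable (by linarith) x y).const_mul _).mul_const _)
    (Eventually.of_forall fun q a' h' =>
      (G_hasDerivAt (by linarith [h'.1]) _ _).2.2.2.2.mul_const _)).2
  · refine h.congr_deriv ?_
    unfold dv
    rw [integral_add (EGen_mul i1 c₁ b1) (EGen_mul i2 c₂ b2),
      ← EGen_px (K := Gx a) (K' := fun r Y => (r ^ 2 / (4 * a ^ 2) - 1 / (2 * a)) * G a r Y)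
        (fun r Y => (G_hasDerivAt ha r Y).2.2.1) i1 i3 c₀ c₁ d₁ b0 b1,
      ← EGen_py (K := Gy a) (K' := fun r Y => (Y ^ 2 / (4 * a ^ 2) - 1 / (2 * a)) * G a r Y)
        (fun r Y => (G_hasDerivAt ha r Y).2.2.2.1) i2 i4 c₀ c₂ d₂ b0 b2,
      ← integral_add (EGen_mul i3 c₀ b0) (EGen_mul i4 c₀ b0)]
    refine integral_congr_ae (Eventually.of_forall fun q => ?_)
    simp only []
    field_simp
    ring
  · have h0 : 0 < a' := by linarith [h'.1]
    have g0 := G_nonneg (by linarith : 0 ≤ 4 * a) (x - q.1) (y - q.2)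
    rw [norm_mul, Real.norm_eq_abs, Real.norm_eq_abs]
    refine mul_le_mul ((EGen_two h0 (by positivity) le_rfl (by positivity) le_rfl).trans ?_)
      (b0 _ _) (abs_nonneg _) (by positivity)
    have g1 := EGen_mono (by linarith : 0 < 2 * a') (by linarith [h'.2] : 2 * a' ≤ 4 * a)
      (x - q.1) (y - q.2)
    have g2 : 4 * a / (2 * a') ≤ 4 := by
      rw [div_le_iff₀ (by linarith)]
      linarith [h'.1]
    have g3 : 6 / a' ≤ 12 / a := by
      rw [div_le_div_iff₀ h0 ha]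
      linarith [h'.1]
    have e : 48 / a * G (4 * a) (x - q.1) (y - q.2) =
        12 / a * (4 * G (4 * a) (x - q.1) (y - q.2)) := by ring
    rw [e]
    exact mul_le_mul g3 (g1.trans (mul_le_mul_of_nonneg_right g2 g0))
      (G_nonneg (by linarith) _ _) (by positivity)

theorem EGen_sm0 {κ B : ℝ} {I : Set ℝ} {g : ℝ → ℝ → ℝ → ℝ} (hκ : 0 ≤ κ) (h : Sm0 κ I B g) {t : ℝ}
    (ht : t ∈ I) : (Continuous fun p : ℝ × ℝ => g t p.1 p.2) ∧ ∀ x y, |g t x y| ≤ |B| :=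
  ⟨h.cont.comp_continuous (f := fun p : ℝ × ℝ => (t, p)) (by fun_prop) fun _ => ⟨ht, mem_univ _⟩,
    fun x y => (h.bd t ht x y).trans ((mul_le_mul_of_nonneg_right (le_abs_self B)
      (Real.exp_pos _).le).trans (mul_le_of_le_one_right (abs_nonneg B)
        (Real.exp_le_one_iff.2 (neg_nonpos.2 (by positivity)))))⟩



/-- The generator. Sketch: `hc_hasDerivAt`, `dv_parts`, `hc_tendsto'` (for `f` and for the
Laplacian) and L'Hôpital (`HasDerivAt.lhopital_zero_nhdsGT`) or the mean value theorem. -/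
theorem hc_generator {κ B : ℝ} {I : Set ℝ} {f : ℝ → ℝ → ℝ → ℝ} (hκ : 0 ≤ κ) (hS : Sm κ I B 2 f)
    {t : ℝ} (ht : t ∈ I) (x y : ℝ) :
    Tendsto (fun a => (hc a (f t) x y - f t x y) / a) (𝓝[>] 0)
      (𝓝 (dX (dX f) t x y + dY (dY f) t x y)) := by
  obtain ⟨s0, d0, -, ⟨s1, d1, -, s11, -⟩, s2, d2, -, -, s22⟩ := hS
  obtain ⟨c0, b0⟩ := EGen_sm0 hκ s0 ht
  obtain ⟨c1, b1⟩ := EGen_sm0 hκ s1 ht
  obtain ⟨c2, b2⟩ := EGen_sm0 hκ s2 ht
  obtain ⟨c3, b3⟩ := EGen_sm0 hκ s11 ht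
  obtain ⟨c4, b4⟩ := EGen_sm0 hκ s22 ht
  refine HasDerivAt.lhopital_zero_nhdsGT
    (f' := fun a => hc a (fun x' y' => dX (dX f) t x' y' + dY (dY f) t x' y') x y)
    (g' := fun _ => 1) (eventually_nhdsWithin_of_forall fun a ha => ?_)
    (Eventually.of_forall fun a => hasDerivAt_id a) (Eventually.of_forall fun _ => one_ne_zero) ?_
    (tendsto_nhdsWithin_of_tendsto_nhds tendsto_id) ?_
  · rw [← dv_parts ha c1 c2 c3 c4 (d1.dx t ht) (d2.dy t ht)
      (fun x y => ⟨b1 x y, b2 x y, b3 x y, b4 x y⟩)]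
    exact (hc_hasDerivAt ha c0 c1 c2 (d0.dx t ht) (d0.dy t ht)
      (fun x y => ⟨b0 x y, b1 x y, b2 x y⟩) x y).sub_const _
  · simpa using (hc_tendsto' c0 b0 x y).sub_const (f t x y)
  · simp only [div_one]
    exact hc_tendsto' (f := fun x' y' => dX (dX f) t x' y' + dY (dY f) t x' y') (c3.add c4)
      (fun x y => (abs_add_le _ _).trans (add_le_add (b3 x y) (b4 x y))) x y

end Pool.Agent.Lib.MP_3d41d4_an
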