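import Pool.Agent.Lib.MP_3d41d4_an.EBeta

open MeasureTheory Set Filter Topology Real
open scoped ENNReal

namespace Pool.Agent.Lib.MP_3d41d4_an

variable {ν T : ℝ} {ω u v : ℝ → ℝ → ℝ → ℝ}

theorem EMax_sqrt {ε : ℝ} (hε : 0 < ε) (s : ℝ) :
    HasDerivAt (fun s => √(ε ^ 2 + s ^ 2)) (s / √(ε ^ 2 + s ^ 2)) s := by
  have h := ((hasDerivAt_pow 2 s).const_add (ε ^ 2)).sqrt (by positivity)
  convert h using 1
  rw [Nat.cast_ofNat, show 2 - 1 = 1 from rfl, pow_one, mul_div_mul_left _ _ two_ne_zero]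

theorem EMax_eps (hν : 0 ≤ ν) (hc : Cl T ω u v) (hp : Pde ν T ω u v)
    (pω : ∀ t ∈ Ioo 0 T, ∀ x y, ω t (x + 2 * π) y = ω t x y)
    (pu : ∀ t ∈ Ioo 0 T, ∀ x y, u t (x + 2 * π) y = u t x y) {ε : ℝ} (hε : 0 < ε) :
    (∀ t ∈ Ioo 0 T, IntegrableOn (fun p : ℝ × ℝ => √(ε ^ 2 + ω t p.1 p.2 ^ 2) - ε) cyl) ∧
      AntitoneOn (fun t => ∫ p in cyl, (√(ε ^ 2 + ω t p.1 p.2 ^ 2) - ε)) (Ioo 0 T) := by
  have h0 : ∀ s : ℝ, 0 < √(ε ^ 2 + s ^ 2) := fun s => by positivity
  refine beta_antitone hν hc hp pω pu (β := fun s => √(ε ^ 2 + s ^ 2) - ε)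
    (fun s => (EMax_sqrt hε s).sub_const ε)
    (fun s => (hasDerivAt_id' s).div (EMax_sqrt hε s) (h0 s).ne') ?_ (fun s => ?_) ?_
  · exact Continuous.div (Continuous.sub (by fun_prop) (continuous_id.mul
      (continuous_id.div (by fun_prop) fun s => (h0 s).ne'))) (by fun_prop)
      fun s => pow_ne_zero _ (h0 s).ne'
  · refine div_nonneg (sub_nonneg.2 ?_) (sq_nonneg _)
    rw [one_mul, ← mul_div_assoc, div_le_iff₀ (h0 s), Real.mul_self_sqrt (by positivity)]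
    nlinarith [sq_nonneg ε]
  · simp [Real.sqrt_sq hε.le]

/-- `beta_antitone` with `β s = √(ε² + s²) - ε`, then `ε = 1 / (n + 1) → 0` by dominated
convergence (`0 ≤ β s ≤ |s|`). -/
theorem l1_antitone (hν : 0 ≤ ν) (hc : Cl T ω u v) (hp : Pde ν T ω u v)
    (pω : ∀ t ∈ Ioo 0 T, ∀ x y, ω t (x + 2 * π) y = ω t x y)
    (pu : ∀ t ∈ Ioo 0 T, ∀ x y, u t (x + 2 * π) y = u t x y) {s t : ℝ} (hs : s ∈ Ioo 0 T)
    (ht : t ∈ Ioo 0 T) (hst : s ≤ t) : ∫ p in cyl, |ω t p.1 p.2| ≤ ∫ p in cyl, |ω s p.1 p.2| := by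
  have hI := (beta_antitone hν hc hp pω pu (β := fun s => s) (fun s => hasDerivAt_id' s)
    (fun s => hasDerivAt_const s (1 : ℝ)) continuous_const (fun _ => le_rfl) rfl).1
  have h0 : ∀ n : ℕ, (0 : ℝ) < 1 / (n + 1) := fun n => by positivity
  have hl : ∀ τ ∈ Ioo 0 T, Tendsto (fun n : ℕ => ∫ p in cyl,
      (√((1 / (n + 1) : ℝ) ^ 2 + ω τ p.1 p.2 ^ 2) - 1 / (n + 1))) atTop
      (𝓝 (∫ p in cyl, |ω τ p.1 p.2|)) := fun τ hτ => by
    refine tendsto_integral_of_dominated_convergence _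
      (fun n => ((EMax_eps hν hc hp pω pu (h0 n)).1 τ hτ).aestronglyMeasurable) (hI τ hτ).abs
      (fun n => Eventually.of_forall fun p => ?_) (Eventually.of_forall fun p => ?_)
    · have h1 := h0 n
      generalize (1 / (n + 1) : ℝ) = ε at h1 ⊢
      generalize ω τ p.1 p.2 = z
      rw [Real.norm_eq_abs, abs_of_nonneg
        (sub_nonneg.2 (Real.le_sqrt_of_sq_le (le_add_of_nonneg_right (sq_nonneg z)))),
        sub_le_iff_le_add]
      exact Real.sqrt_le_iff.2 ⟨by positivity, by nlinarith [sq_abs z, abs_nonneg z]⟩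
    · have h1 : Continuous fun ε : ℝ => √(ε ^ 2 + ω τ p.1 p.2 ^ 2) - ε := by fun_prop
      have h2 := (h1.tendsto 0).comp tendsto_one_div_add_atTop_nhds_zero_nat
      rw [zero_pow two_ne_zero, zero_add, sub_zero, Real.sqrt_sq_eq_abs] at h2
      exact h2
  exact le_of_tendsto_of_tendsto' (hl t ht) (hl s hs) fun n =>
    (EMax_eps hν hc hp pω pu (h0 n)).2 hs ht hst

theorem EMax_pow (n : ℕ) (z : ℝ) :
    HasDerivAt (fun z : ℝ => max z 0 ^ (n + 2)) ((n + 2 : ℕ) * max z 0 ^ (n + 1)) z := by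
  rcases lt_trichotomy z 0 with h | rfl | h
  · rw [max_eq_right h.le, zero_pow n.succ_ne_zero, mul_zero]
    refine (hasDerivAt_const z (0 : ℝ)).congr_of_eventuallyEq ?_
    filter_upwards [Iio_mem_nhds h] with w hw
    rw [max_eq_right (le_of_lt hw), zero_pow (n + 1).succ_ne_zero]
  · have h1 : HasDerivWithinAt (fun z : ℝ => max z 0 ^ (n + 2)) 0 (Iic 0) 0 :=
      (hasDerivWithinAt_const (0 : ℝ) _ (0 : ℝ)).congr
        (fun w hw => by rw [max_eq_right hw, zero_pow (n + 1).succ_ne_zero]) (by simp)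
    have h2 : HasDerivWithinAt (fun z : ℝ => max z 0 ^ (n + 2)) 0 (Ici 0) 0 := by
      have h3 := (hasDerivAt_pow (n + 2) (0 : ℝ)).hasDerivWithinAt (s := Ici 0)
      rw [show n + 2 - 1 = n + 1 from rfl, zero_pow n.succ_ne_zero, mul_zero] at h3
      exact h3.congr (fun w hw => by rw [max_eq_left hw]) (by rw [max_self])
    have h3 := h1.union h2
    rw [Iic_union_Ici, hasDerivWithinAt_univ] at h3
    rwa [max_self, zero_pow n.succ_ne_zero, mul_zero]
  · rw [max_eq_left h.le]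
    refine (hasDerivAt_pow (n + 2) z).congr_of_eventuallyEq ?_
    filter_upwards [Ioi_mem_nhds h] with w hw
    rw [max_eq_left (le_of_lt hw)]

theorem EMax_p (n : ℕ) (B z : ℝ) :
    HasDerivAt (fun z : ℝ => max (z - B) 0 ^ (n + 2)) ((n + 2 : ℕ) * max (z - B) 0 ^ (n + 1)) z :=
  (EMax_pow n (z - B)).comp_sub_const z B

theorem EMax_m (n : ℕ) (B z : ℝ) : HasDerivAt (fun z : ℝ => max (-z - B) 0 ^ (n + 2))
    (-((n + 2 : ℕ) * max (-z - B) 0 ^ (n + 1))) z := by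
  have h := (EMax_p n B (-z)).comp z (hasDerivAt_neg' z)
  rw [mul_neg_one] at h
  exact h

/-- `beta_antitone` with `β z = (max (z - B) 0) ^ 3 + (max (-z - B) 0) ^ 3`: the integral
vanishes at `s`, hence at `t`; a continuous nonnegative function with zero integral over `cyl`
vanishes on the open strip, hence on its closure, hence everywhere by periodicity. -/
theorem linf_bound (hν : 0 ≤ ν) (hc : Cl T ω u v) (hp : Pde ν T ω u v)
    (pω : ∀ t ∈ Ioo 0 T, ∀ x y, ω t (x + 2 * π) y = ω t x y)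
    (pu : ∀ t ∈ Ioo 0 T, ∀ x y, u t (x + 2 * π) y = u t x y) {s t B : ℝ} (hs : s ∈ Ioo 0 T)
    (ht : t ∈ Ioo 0 T) (hst : s ≤ t) (hB : ∀ x y, |ω s x y| ≤ B) (x y : ℝ) : |ω t x y| ≤ B := by
  have hz : ∀ z : ℝ, |z| ≤ B → max (z - B) 0 ^ (1 + 2) + max (-z - B) 0 ^ (1 + 2) = 0 :=
    fun z h => by
      rw [max_eq_right (by linarith [le_abs_self z]), max_eq_right (by linarith [neg_le_abs z])]
      norm_num
  obtain ⟨hI, hA⟩ := beta_antitone hν hc hp pω pu
    (β := fun z => max (z - B) 0 ^ (1 + 2) + max (-z - B) 0 ^ (1 + 2))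
    (fun z => (EMax_p 1 B z).add (EMax_m 1 B z))
    (fun z => ((EMax_p 0 B z).const_mul _).add ((EMax_m 0 B z).const_mul _).neg) (by fun_prop)
    (fun z => by
      rw [mul_neg, neg_neg]
      positivity) (hz 0 (abs_zero.trans_le ((abs_nonneg _).trans (hB 0 0))))
  have h1 := hA hs ht hst
  simp only [hz _ (hB _ _), integral_zero] at h1
  have h0 : ∀ p : ℝ × ℝ, 0 ≤ max (ω t p.1 p.2 - B) 0 ^ (1 + 2) +
      max (-ω t p.1 p.2 - B) 0 ^ (1 + 2) := fun p => by positivity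
  have h2 := (integral_eq_zero_iff_of_nonneg h0 (hI t ht)).1
    (le_antisymm h1 (integral_nonneg h0))
  have h3 : Continuous fun p : ℝ × ℝ => ω t p.1 p.2 :=
    hc.cω.continuousOn.comp_continuous (continuous_const.prodMk continuous_id)
      fun p => ⟨ht, trivial⟩
  have h4 := Measure.eqOn_of_ae_eq h2 (Continuous.continuousOn (by fun_prop)) continuousOn_const
    (by
      rw [cyl, interior_prod_eq, closure_prod_eq, interior_Ioc, closure_Ioo two_pi_pos.ne,
        interior_univ, closure_univ]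
      exact prod_mono Ioc_subset_Icc_self subset_rfl)
  obtain ⟨x', hx', e⟩ := Function.Periodic.exists_mem_Ioc (f := fun x => ω t x y)
    (fun x => pω t ht x y) two_pi_pos x 0
  rw [zero_add] at hx'
  have h5 : max (ω t x' y - B) 0 ^ (1 + 2) + max (-ω t x' y - B) 0 ^ (1 + 2) = 0 :=
    h4 (x := (x', y)) ⟨hx', trivial⟩
  rw [add_eq_zero_iff_of_nonneg (by positivity) (by positivity), pow_eq_zero_iff (by norm_num),
    pow_eq_zero_iff (by norm_num), max_eq_right_iff, max_eq_right_iff] at h5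
  rw [show ω t x y = ω t x' y from e, abs_le]
  exact ⟨by linarith [h5.2], by linarith [h5.1]⟩

end Pool.Agent.Lib.MP_3d41d4_an
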