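import Pool.Agent.Lib.MP_3d41d4_an.EPde
import Pool.Agent.Lib.MP_3d41d4_an.EMax

open MeasureTheory Set Filter Topology Real
open scoped ENNReal

namespace Pool.Agent.Lib.MP_3d41d4_an

variable {ν T N M : ℝ} {φ γ : ℝ → ℝ} {ω : ℝ → ℝ → ℝ → ℝ}

theorem Mild.l1 (hν : 0 < ν) (hφ : Continuous φ) (h : Mild ν T N φ γ ω) {t : ℝ}
    (ht : t ∈ Ioo 0 T) : IntegrableOn (fun p : ℝ × ℝ => ω t p.1 p.2) cyl ∧
      ∫ p in cyl, |ω t p.1 p.2| ≤ N * (2 * π) := by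
  obtain ⟨hi, hm⟩ := gm_mass hφ (a := 2 * (ν * t)) (by have := ht.1; positivity)
  have h1 : IntegrableOn (fun p : ℝ × ℝ => ω t p.1 p.2) cyl :=
    (hi.const_mul N).mono' (h.slice t).aestronglyMeasurable
      (ae_of_all _ fun p => h.bd t ht p.1 p.2)
  refine ⟨h1, ?_⟩
  rw [← hm, ← integral_const_mul]
  exact integral_mono h1.abs (hi.const_mul N) fun p => h.bd t ht p.1 p.2

/-- A priori velocity bound. Sketch: `extend` from `mild_zero` gives a solution on `(0, δ₀)` with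
constant `N₀`; by `mild_unique` every mild solution has the bound `N₀` on `(0, min T δ₀)`; for
`s < δ₀` use `U_le`, for `s ≥ δ₀` compare with the time `δ₀ / 2` (`l1_antitone`, `linf_bound`,
`Mild.l1`, `gm_le`, `U_biot`). -/
theorem apriori_vel (hν : 0 < ν) (M : ℝ) : ∃ R : ℝ, 0 ≤ R ∧ ∀ {T N : ℝ} {φ γ : ℝ → ℝ}
    {ω : ℝ → ℝ → ℝ → ℝ}, Dat M φ γ → Mild ν T N φ γ ω → ∀ s ∈ Ioo 0 T, ∀ x y,
      |U1 (ω s) x y| ≤ R * (1 + 1 / √(√s)) ∧ |U2 (ω s) x y| ≤ R * (1 + 1 / √(√s)) := by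
  obtain ⟨δ, N₀, hδ, hext⟩ := extend hν M 0 0
  obtain ⟨C₁, hC₁, h₁⟩ := U_le hν
  obtain ⟨C₂, hC₂, h₂⟩ := U_biot
  have n0 : 0 ≤ max N₀ 0 := le_max_right _ _
  set N₁ := max N₀ 0
  have r2 : 0 ≤ C₂ * (N₁ * (2 * π) + N₁ * (1 / √(2 * (ν * (δ / 2))))) := by positivity
  refine ⟨C₁ * N₁ + C₂ * (N₁ * (2 * π) + N₁ * (1 / √(2 * (ν * (δ / 2))))), by positivity, ?_⟩
  intro T N φ γ ω hd h s hs x y
  obtain ⟨ω', h'⟩ := hext hd (mild_zero ν φ γ) le_rfl le_rfl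
  rw [zero_add] at h'
  have h'' := h'.mono_N hν (le_max_left N₀ 0)
  have e : ∀ t ∈ Ioo 0 T, t < δ → ω t = ω' t := fun t ht htδ =>
    mild_unique hν hd.cφ (h.mono_T (min_le_left T δ)) (h'.mono_T (min_le_right T δ)) t
      ⟨ht.1, lt_min ht.2 htδ⟩
  have w : 1 ≤ 1 + 1 / √(√s) := le_add_of_nonneg_right (by positivity)
  rcases lt_or_ge s δ with hlt | hge
  · have := h₁ φ hd.cφ (ω s) N₁ s (h.slice s) n0 hs.1
      (by rw [e s hs hlt]; exact h''.bd s ⟨hs.1, hlt⟩) x y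
    have k := mul_le_mul_of_nonneg_right (le_add_of_nonneg_right (a := C₁ * N₁) r2)
      (zero_le_one.trans w)
    exact ⟨this.1.trans k, this.2.trans k⟩
  · have m : δ / 2 ∈ Ioo 0 δ := ⟨half_pos hδ, half_lt_self hδ⟩
    have m' : δ / 2 ∈ Ioo 0 T := ⟨m.1, (m.2.trans_le hge).trans hs.2⟩
    have le : δ / 2 ≤ s := m.2.le.trans hge
    have pu : ∀ t ∈ Ioo 0 T, ∀ x y, U1 (ω t) (x + 2 * π) y = U1 (ω t) x y := fun t ht x y =>
      (U_per (h.per t ht) x y).1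
    have a1 := l1_antitone hν.le (mild_Cl hν hd h) (mild_pde hν hd h) h.per pu m' hs le
    have a2 := linf_bound hν.le (mild_Cl hν hd h) (mild_pde hν hd h) h.per pu m' hs le
      (B := N₁ * (1 / √(2 * (ν * (δ / 2))))) fun x y => by
        rw [e _ m' m.2]
        exact (h''.bd _ m x y).trans
          (mul_le_mul_of_nonneg_left (gm_le hd.cφ (by positivity) x y) n0)
    rw [e _ m' m.2] at a1
    obtain ⟨-, -, -, -, b1, b2⟩ := h₂ (ω s) _ _ (h.slice s) (h.per s hs) a2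
      (h.l1 hν hd.cφ hs).1 (a1.trans (h''.l1 hν hd.cφ m).2) x y
    have k := (le_add_of_nonneg_left (b := C₁ * N₁) (by positivity)).trans
      (le_mul_of_one_le_right (add_nonneg (by positivity) r2) w)
    exact ⟨b1.trans k, b2.trans k⟩

/-- Global existence: `apriori_vel`, `mild_gronwall`, `extend`, induction on `n` for the times
`min T (n δ)`. -/
theorem mild_exists (hν : 0 < ν) (hd : Dat M φ γ) (T : ℝ) :
    ∃ (N : ℝ) (ω : ℝ → ℝ → ℝ → ℝ), Mild ν T N φ γ ω := by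
  rcases le_total T 0 with hT | hT
  · exact ⟨0, _, (mild_zero ν φ γ).mono_T hT⟩
  obtain ⟨R, hR, hv⟩ := apriori_vel hν M
  obtain ⟨Ψ, hΨ⟩ := mild_gronwall hν M R T hR
  obtain ⟨δ, N', hδ, hext⟩ := extend hν M Ψ T
  have key : ∀ n : ℕ, ∃ ω, Mild ν (min T (n * δ)) Ψ φ γ ω := fun n => by
    induction n with
    | zero =>
      have h := (mild_zero ν φ γ).mono_T (T' := min T ((0 : ℕ) * δ)) (by simp)
      exact ⟨_, hΨ hd (min_le_left _ _) h (hv hd h)⟩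
    | succ n ih =>
      obtain ⟨ω, h⟩ := ih
      obtain ⟨ω', h'⟩ := hext hd h (le_min hT (by positivity)) (min_le_left _ _)
      have h1 := h'.mono_T (T' := min T ((n + 1 : ℕ) * δ)) (by
        rw [← min_add_add_right]
        exact min_le_min (by linarith) (by push_cast; linarith))
      exact ⟨_, hΨ hd (min_le_left _ _) h1 (hv hd h1)⟩
  obtain ⟨n, hn⟩ := exists_nat_ge (T / δ)
  obtain ⟨ω, h⟩ := key n
  rw [min_eq_left ((div_le_iff₀ hδ).1 hn)] at h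
  exact ⟨_, _, h⟩

end Pool.Agent.Lib.MP_3d41d4_an
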