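import Pool.Agent.Lib.MP_3d41d4_an.EGG
import Pool.Agent.Lib.MP_3d41d4_an.Cyl0

open MeasureTheory Set Filter Topology Real
open scoped ENNReal

namespace Pool.Agent.Lib.MP_3d41d4_an

variable {φ γ : ℝ → ℝ} {a : ℝ}

theorem EGm_H (ha : 0 < a) (Y : ℝ) : H a Y ≤ Real.exp (-(Y ^ 2 / (4 * a))) / √a := by
  unfold H
  refine div_le_div_of_nonneg_left (Real.exp_pos _).le (Real.sqrt_pos.2 ha) (Real.sqrt_le_sqrt ?_)
  nlinarith [Real.pi_gt_three]

theorem EGm_H' (ha : 0 < a) (Y : ℝ) : H a Y ≤ 1 / √a :=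
  (EGm_H ha Y).trans (div_le_div_of_nonneg_right
    (Real.exp_le_one_iff.2 (neg_nonpos.2 (by positivity))) (Real.sqrt_nonneg _))

theorem EGm_meas (hφ : Continuous φ) {Λ : Type} [MeasurableSpace Λ] {a x y : Λ → ℝ}
    (ha : Measurable a) (hx : Measurable x) (hy : Measurable y) :
    Measurable fun q : Λ × ℝ => G (a q.1) (x q.1 - q.2) (y q.1 - φ q.2) :=
  measurable_G (ha.comp measurable_fst) ((hx.comp measurable_fst).sub measurable_snd)
    ((hy.comp measurable_fst).sub (hφ.measurable.comp measurable_snd))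

theorem gm_integrable (hφ : Continuous φ) (ha : 0 < a) (x y : ℝ) :
    Integrable fun r => G a (x - r) (y - φ r) := by
  refine (((integrable_H ha).comp_sub_left x).mul_const (1 / √a)).mono'
    (measurable_G measurable_const (measurable_const.sub measurable_id)
      (measurable_const.sub hφ.measurable)).aestronglyMeasurable (ae_of_all _ fun r => ?_)
  rw [Real.norm_of_nonneg (G_nonneg ha.le _ _), G_eq ha]
  exact mul_le_mul_of_nonneg_left (EGm_H' ha _) (H_nonneg _ _)

theorem gm_nonneg (φ : ℝ → ℝ) (ha : 0 ≤ a) (x y : ℝ) : 0 ≤ gm φ a x y :=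
  integral_nonneg fun _ => G_nonneg ha _ _

theorem EGm_le (hφ : Continuous φ) (ha : 0 < a) (x y : ℝ) {K : ℝ}
    (hK : ∀ r, H a (y - φ r) ≤ K) : gm φ a x y ≤ K := by
  have h := integral_mono (gm_integrable hφ ha x y)
    (((integrable_H ha).comp_sub_left x).mul_const K) fun r => by
      simp only [G_eq ha]
      exact mul_le_mul_of_nonneg_left (hK r) (H_nonneg _ _)
  rwa [integral_mul_const, integral_sub_left_eq_self (H a), integral_H ha, one_mul] at h

/-- Sketch: `G = H * H`, `H a Y ≤ 1 / √(4 π a) ≤ 1 / √a`, `∫ H = 1`. -/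
theorem gm_le (hφ : Continuous φ) (ha : 0 < a) (x y : ℝ) : gm φ a x y ≤ 1 / √a :=
  EGm_le hφ ha x y fun _ => EGm_H' ha _

theorem gm_per (hφ : Function.Periodic φ (2 * π)) (a x y : ℝ) :
    gm φ a (x + 2 * π) y = gm φ a x y := by
  unfold gm
  rw [← integral_add_right_eq_self _ (2 * π)]
  simp only [hφ _, add_sub_add_right_eq_sub]

theorem gm_meas (hφ : Continuous φ) {Λ : Type} [MeasurableSpace Λ] {a x y : Λ → ℝ}
    (ha : Measurable a) (hx : Measurable x) (hy : Measurable y) :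
    Measurable fun l => gm φ (a l) (x l) (y l) :=
  ((EGm_meas hφ ha hx hy).stronglyMeasurable.integral_prod_right' (ν := volume)).measurable

theorem EGm_y (hφ : Continuous φ) (ha : 0 < a) (x : ℝ) :
    Integrable (gm φ a x) ∧ ∫ y, gm φ a x y = 1 := by
  have h1 : ∀ r, ∫ y, G a (x - r) (y - φ r) = H a (x - r) := fun r => by
    simp only [G_eq ha]
    rw [integral_const_mul, integral_sub_right_eq_self (H a), integral_H ha, mul_one]
  have h2 : Integrable (fun q : ℝ × ℝ => G a (x - q.2) (q.1 - φ q.2)) (volume.prod volume) := by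
    have hm : Measurable fun q : ℝ × ℝ => G a (x - q.2) (q.1 - φ q.2) :=
      measurable_G measurable_const (measurable_const.sub measurable_snd)
        (measurable_fst.sub (hφ.measurable.comp measurable_snd))
    refine (integrable_prod_iff' hm.aestronglyMeasurable).2 ⟨ae_of_all _ fun r => ?_, ?_⟩
    · simp only [G_eq ha]
      exact ((integrable_H ha).comp_sub_right _).const_mul _
    · simp only [Real.norm_of_nonneg (G_nonneg ha.le _ _), h1]
      exact (integrable_H ha).comp_sub_left x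
  refine ⟨h2.integral_prod_left, ?_⟩
  unfold gm
  rw [integral_integral_swap h2]
  simp only [h1]
  rw [integral_sub_left_eq_self (H a), integral_H ha]

theorem EGm_strip {u v : ℝ} (huv : u ≤ v) {f : ℝ × ℝ → ℝ} (hf : Measurable f) (h0 : ∀ p, 0 ≤ f p)
    (h1 : ∀ x, Integrable (fun y => f (x, y)) ∧ ∫ y, f (x, y) = 1) :
    IntegrableOn f (Ioc u v ×ˢ univ) ∧ ∫ p in Ioc u v ×ˢ univ, f p = v - u := by
  have h2 : Integrable f ((volume.restrict (Ioc u v)).prod volume) := by
    rw [integrable_prod_iff hf.aestronglyMeasurable]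
    refine ⟨ae_of_all _ fun x => (h1 x).1, ?_⟩
    simp only [Real.norm_of_nonneg (h0 _), (h1 _).2]
    exact integrable_const _
  rw [IntegrableOn, Cyl0_restrict, integral_prod _ h2]
  refine ⟨h2, ?_⟩
  simp [(h1 _).2, huv]

/-- Sketch: Tonelli, integrate first in `y`, then in `r`. -/
theorem gm_mass (hφ : Continuous φ) (ha : 0 < a) :
    IntegrableOn (fun p : ℝ × ℝ => gm φ a p.1 p.2) cyl ∧ ∫ p in cyl, gm φ a p.1 p.2 = 2 * π := by
  have h := EGm_strip (u := 0) (v := 2 * π) (by positivity)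
    (gm_meas hφ (a := fun _ => a) measurable_const measurable_fst measurable_snd)
    (fun p => gm_nonneg φ ha.le _ _) fun x => EGm_y hφ ha x
  rwa [sub_zero] at h

theorem gm_mass0 (hφ : Continuous φ) (ha : 0 < a) (x y : ℝ) :
    IntegrableOn (fun w : ℝ × ℝ => gm φ a (x - w.1) (y - w.2)) cyl0 ∧
      ∫ w in cyl0, gm φ a (x - w.1) (y - w.2) = 2 * π := by
  have h := EGm_strip (u := -π) (v := π) (by linarith [Real.pi_pos])
    (gm_meas hφ (a := fun _ => a) (x := fun w : ℝ × ℝ => x - w.1) (y := fun w => y - w.2)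
      measurable_const (measurable_const.sub measurable_fst) (measurable_const.sub measurable_snd))
    (fun p => gm_nonneg φ ha.le _ _) fun r =>
      ⟨(EGm_y hφ ha (x - r)).1.comp_sub_left y,
        (integral_sub_left_eq_self (gm φ a (x - r)) volume y).trans (EGm_y hφ ha (x - r)).2⟩
  rwa [sub_neg_eq_add, ← two_mul] at h

/-- Semigroup property of the majorant (Fubini and `G_conv`). -/
theorem gm_conv (hφ : Continuous φ) {b c : ℝ} (hb : 0 < b) (hc : 0 < c) (x y x₀ y₀ : ℝ) :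
    Integrable (fun w : ℝ × ℝ => G b (x - w.1) (y - w.2) * gm φ c (x₀ + w.1) (y₀ + w.2)) ∧
    ∫ w : ℝ × ℝ, G b (x - w.1) (y - w.2) * gm φ c (x₀ + w.1) (y₀ + w.2)
      = gm φ (b + c) (x₀ + x) (y₀ + y) := by
  have h1 : ∀ r, Integrable (fun w : ℝ × ℝ =>
        G b (x - w.1) (y - w.2) * G c (x₀ + w.1 - r) (y₀ + w.2 - φ r)) ∧
      ∫ w : ℝ × ℝ, G b (x - w.1) (y - w.2) * G c (x₀ + w.1 - r) (y₀ + w.2 - φ r)
        = G (b + c) (x₀ + x - r) (y₀ + y - φ r) := fun r => by
    have e : ∀ s t z : ℝ, s - (z - t) = t + s - z := fun s t z => by ring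
    simpa only [e] using G_conv hb hc x y (r - x₀) (φ r - y₀)
  have h2 : Integrable (fun q : (ℝ × ℝ) × ℝ => G b (x - q.1.1) (y - q.1.2) *
      G c (x₀ + q.1.1 - q.2) (y₀ + q.1.2 - φ q.2)) (volume.prod volume) := by
    have hm : Measurable fun q : (ℝ × ℝ) × ℝ => G b (x - q.1.1) (y - q.1.2) *
        G c (x₀ + q.1.1 - q.2) (y₀ + q.1.2 - φ q.2) := by
      have := hφ.measurable
      refine Measurable.mul ?_ ?_ <;> refine measurable_G ?_ ?_ ?_ <;> fun_prop
    refine (integrable_prod_iff' hm.aestronglyMeasurable).2 ⟨ae_of_all _ fun r => (h1 r).1, ?_⟩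
    simp only [Real.norm_of_nonneg (mul_nonneg (G_nonneg hb.le _ _) (G_nonneg hc.le _ _)),
      (h1 _).2]
    exact gm_integrable hφ (add_pos hb hc) _ _
  unfold gm
  simp only [← integral_const_mul]
  refine ⟨h2.integral_prod_left, ?_⟩
  rw [integral_integral_swap h2]
  simp only [(h1 _).2]

/-- Sketch: `H a (y - φ r) ≤ exp (-(y - φ r)² / (4 a₁)) / √a₀` and
`(y - z)² / (4 a₁) ≥ |y - z| - a₁ ≥ |y| - M - a₁`. -/
theorem gm_decay (hφ : Continuous φ) {M : ℝ} (hM : ∀ x, |φ x| ≤ M) {a₀ : ℝ} (ha₀ : 0 < a₀)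
    (a₁ : ℝ) : ∃ B : ℝ, 0 < B ∧ ∀ a ∈ Icc a₀ a₁, ∀ x y, gm φ a x y ≤ B * Real.exp (-|y|) := by
  refine ⟨Real.exp (M + a₁) / √a₀, by positivity, fun a ha x y => ?_⟩
  have h0 : 0 < a := ha₀.trans_le ha.1
  refine EGm_le hφ h0 x y fun r => (EGm_H h0 _).trans ?_
  rw [div_mul_eq_mul_div, ← Real.exp_add]
  refine div_le_div₀ (Real.exp_pos _).le (Real.exp_le_exp.2 ?_) (Real.sqrt_pos.2 ha₀)
    (Real.sqrt_le_sqrt ha.1)
  have h1 : |y - φ r| - a ≤ (y - φ r) ^ 2 / (4 * a) := by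
    rw [le_div_iff₀ (by positivity), ← sq_abs]
    nlinarith [sq_nonneg (|y - φ r| - 2 * a)]
  have h2 := abs_sub_abs_le_abs_sub y (φ r)
  linarith [hM r, ha.2]

end Pool.Agent.Lib.MP_3d41d4_an
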