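import Pool.Agent.Lib.MP_3d41d4_an.ECone3
import Pool.Agent.Lib.MP_3d41d4_an.EDuh

open MeasureTheory Set Filter Topology Real
open scoped ENNReal

namespace Pool.Agent.Lib.MP_3d41d4_an

variable {ν T T₀ δ N M : ℝ} {φ γ : ℝ → ℝ} {ω : ℝ → ℝ → ℝ → ℝ}

theorem EHist_flux (hν : 0 < ν) : ∃ C : ℝ, 0 < C ∧ ∀ {T N : ℝ} {φ γ : ℝ → ℝ}
    {ω : ℝ → ℝ → ℝ → ℝ}, Continuous φ → Mild ν T N φ γ ω → ∀ s ∈ Ioo 0 T, ∀ w : ℝ × ℝ,
      ‖((U1 (ω s) w.1 w.2 * ω s w.1 w.2 : ℝ) : ℂ)‖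
        ≤ C * N * (1 + 1 / √(√s)) * N * gm φ (2 * (ν * s)) w.1 w.2 ∧
      ‖((U2 (ω s) w.1 w.2 * ω s w.1 w.2 : ℝ) : ℂ)‖
        ≤ C * N * (1 + 1 / √(√s)) * N * gm φ (2 * (ν * s)) w.1 w.2 := by
  obtain ⟨C, hC, hU⟩ := U_le hν
  refine ⟨C, hC, ?_⟩
  intro T N φ γ ω hφ h s hs w
  have hb := hU φ hφ (ω s) N s (h.slice s) h.nonneg hs.1 (h.bd s hs) w.1 w.2
  have hN := h.nonneg
  have h0 : 0 ≤ C * N * (1 + 1 / √(√s)) := by positivity
  have hω := h.bd s hs w.1 w.2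
  constructor
  · rw [Complex.norm_real, Real.norm_eq_abs, abs_mul, mul_assoc (C * N * (1 + 1 / √(√s)))]
    exact mul_le_mul hb.1 hω (abs_nonneg _) h0
  · rw [Complex.norm_real, Real.norm_eq_abs, abs_mul, mul_assoc (C * N * (1 + 1 / √(√s)))]
    exact mul_le_mul hb.2 hω (abs_nonneg _) h0

theorem EHist_meas (h : Mild ν T N φ γ ω) (s : ℝ) :
    AEStronglyMeasurable (fun w : ℝ × ℝ => ((U1 (ω s) w.1 w.2 * ω s w.1 w.2 : ℝ) : ℂ)) volume ∧
    AEStronglyMeasurable (fun w : ℝ × ℝ => ((U2 (ω s) w.1 w.2 * ω s w.1 w.2 : ℝ) : ℂ)) volume := by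
  have hm := h.slice s
  have hU := U_meas2 hm
  exact ⟨(Complex.measurable_ofReal.comp (hU.1.mul hm)).aestronglyMeasurable,
    (Complex.measurable_ofReal.comp (hU.2.mul hm)).aestronglyMeasurable⟩

theorem EHist_re (ν s : ℝ) (z : ℂ) : ((ν : ℂ) * (z - s)).re = ν * (z.re - s) := by
  simp

/-- `dvc_bound` with `x₀ = y₀ = 0`, `c = 2 ν s`; `U_le`, `adm_hist`, `tw_nu`. -/
theorem duhc_bound (hν : 0 < ν) : ∃ C : ℝ, 0 < C ∧ ∀ {T T₀ δ N : ℝ} {φ γ : ℝ → ℝ}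
    {ω : ℝ → ℝ → ℝ → ℝ}, Continuous φ → Mild ν T N φ γ ω → T₀ ≤ T → ∀ p ∈ cone ν T₀ δ,
      ∀ s ∈ Ioo 0 T₀, ‖duhc ((ν : ℂ) * (p.1 - s)) p.2.1 p.2.2 (ω s)‖
        ≤ C * N ^ 2 * tw p.1.re s * gm φ (2 * (ν * p.1.re)) p.2.1.re p.2.2.re := by
  obtain ⟨C₁, hC₁, hdv⟩ := dvc_bound
  obtain ⟨C₂, hC₂, hfl⟩ := EHist_flux hν
  obtain ⟨C₃, hC₃, -, hnu⟩ := tw_nu hν
  refine ⟨C₁ * C₂ * C₃, by positivity, ?_⟩
  intro T T₀ δ N φ γ ω hφ h hT p hp s hs
  have hs' : s ∈ Ioo 0 T := ⟨hs.1, lt_of_lt_of_le hs.2 hT⟩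
  have hN := h.nonneg
  have hs0 := hs.1
  have hc : 0 < 2 * (ν * s) := by positivity
  have hB : 0 ≤ C₂ * N * (1 + 1 / √(√s)) * N := by positivity
  have hts : 0 < p.1.re - s := by have := hp.1; have := hs.2; linarith
  have key := (hdv φ hφ _ _ _ (adm_hist hν hp hs.2.le) (2 * (ν * s))
    (C₂ * N * (1 + 1 / √(√s)) * N) 0 0 _ _ hc hB (EHist_meas h s).1 (EHist_meas h s).2
    (fun w => by simpa only [zero_add] using (hfl hφ h s hs' w).1)
    (fun w => by simpa only [zero_add] using (hfl hφ h s hs' w).2)).2.2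
  rw [EHist_re, zero_add, zero_add] at key
  have e : 2 * (ν * (p.1.re - s)) + 2 * (ν * s) = 2 * (ν * p.1.re) := by ring
  rw [e] at key
  have hg : 0 ≤ gm φ (2 * (ν * p.1.re)) p.2.1.re p.2.2.re := by
    apply gm_nonneg
    have : 0 < p.1.re := by linarith
    positivity
  have h1 := hnu (ν * (p.1.re - s)) (p.1.re - s) hts le_rfl
  refine le_trans key (mul_le_mul_of_nonneg_right ?_ hg)
  have h2 : C₁ * (C₂ * N * (1 + 1 / √(√s)) * N) / √(ν * (p.1.re - s))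
      = C₁ * (C₂ * N * (1 + 1 / √(√s)) * N) * (1 / √(ν * (p.1.re - s))) := by ring
  rw [h2]
  refine le_trans (mul_le_mul_of_nonneg_left h1 (by positivity)) (le_of_eq ?_)
  unfold tw
  ring

theorem hist_real (ν T₀ : ℝ) (φ γ : ℝ → ℝ) (ω : ℝ → ℝ → ℝ → ℝ) (t x y : ℝ) :
    hist ν T₀ φ γ ω (rp t x y)
      = ((lin φ γ (ν * t) x y - ∫ s in Ioo 0 T₀, duh (ν * (t - s)) (ω s) x y : ℝ) : ℂ) := by
  have e1 : linc φ γ ((ν : ℂ) * (t : ℂ)) x y = (lin φ γ (ν * t) x y : ℝ) := by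
    rw [← linc_ofReal, Complex.ofReal_mul]
  have e2 : ∀ s : ℝ, duhc ((ν : ℂ) * ((t : ℂ) - s)) x y (ω s)
      = (duh (ν * (t - s)) (ω s) x y : ℝ) := by
    intro s
    rw [← duhc_ofReal, Complex.ofReal_mul, Complex.ofReal_sub]
  show linc φ γ ((ν : ℂ) * (t : ℂ)) x y
    - ∫ s in Ioo 0 T₀, duhc ((ν : ℂ) * ((t : ℂ) - s)) x y (ω s) = _
  rw [e1, Complex.ofReal_sub]
  simp_rw [e2]
  rw [integral_complex_ofReal]

/-- Sketch: `linc_diff`; `hol_integral` in `s` with `dvc_diff` (fluxes independent of `p`),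
`duhc_meas`, `duhc_bound` (near `p₀`, `p.1.re - s ≥ p.1.re - T₀` is bounded below, so
`integrableOn_one_add` dominates). -/
theorem hist_diff (hν : 0 < ν) (hT₀ : 0 ≤ T₀) (hd : Dat M φ γ) (h : Mild ν T N φ γ ω)
    (hT : T₀ ≤ T) : DifferentiableOn ℂ (hist ν T₀ φ γ ω) (cone ν T₀ δ) := by
  obtain ⟨C, hC, hdb⟩ := duhc_bound hν
  obtain ⟨C₂, hC₂, hfl⟩ := EHist_flux hν
  have hN := h.nonneg
  have hD := cone_open ν T₀ δ
  have d1 : DifferentiableOn ℂ (fun p : C3 => linc φ γ ((ν : ℂ) * p.1) p.2.1 p.2.2)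
      (cone ν T₀ δ) := by
    refine linc_diff hd hD (a := fun p : C3 => (ν : ℂ) * p.1) (X := fun p : C3 => p.2.1)
      (Y := fun p : C3 => p.2.2) (by fun_prop) (by fun_prop) (by fun_prop) ?_
    intro p hp
    simpa using adm_hist hν hp hT₀
  have d2 : DifferentiableOn ℂ
      (fun p : C3 => ∫ s in Ioo 0 T₀, duhc ((ν : ℂ) * (p.1 - s)) p.2.1 p.2.2 (ω s))
      (cone ν T₀ δ) := by
    refine hol_integral (μ := volume.restrict (Ioo 0 T₀)) hD
      (F := fun (p : C3) (s : ℝ) => duhc ((ν : ℂ) * (p.1 - s)) p.2.1 p.2.2 (ω s)) ?_ ?_ ?_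
    · intro p _
      exact (duhc_meas (Λ := ℝ) (a := fun s : ℝ => (ν : ℂ) * (p.1 - s)) (X := fun _ => p.2.1)
        (Y := fun _ => p.2.2) (F := ω) (by fun_prop) measurable_const measurable_const
        h.meas).aestronglyMeasurable
    · filter_upwards [ae_restrict_mem measurableSet_Ioo] with s hs
      have hs' : s ∈ Ioo 0 T := ⟨hs.1, lt_of_lt_of_le hs.2 hT⟩
      have hs0 := hs.1
      have hc : 0 < 2 * (ν * s) := by positivity
      have hB : 0 ≤ C₂ * N * (1 + 1 / √(√s)) * N := by positivity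
      refine dvc_diff hD (a := fun p : C3 => (ν : ℂ) * (p.1 - s)) (X := fun p : C3 => p.2.1)
        (Y := fun p : C3 => p.2.2) (by fun_prop) (by fun_prop) (by fun_prop)
        (fun p hp => adm_hist hν hp hs.2.le)
        (F₁ := fun _ w => ((U1 (ω s) w.1 w.2 * ω s w.1 w.2 : ℝ) : ℂ))
        (F₂ := fun _ w => ((U2 (ω s) w.1 w.2 * ω s w.1 w.2 : ℝ) : ℂ))
        (fun _ _ => (EHist_meas h s).1) (fun _ _ => (EHist_meas h s).2)
        (fun _ => differentiableOn_const _) (fun _ => differentiableOn_const _) ?_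
      intro p₀ _
      refine ⟨1, one_pos, C₂ * N * (1 + 1 / √(√s)) * N * (1 / √(2 * (ν * s))), ?_⟩
      intro p _ _ w
      have hg := mul_le_mul_of_nonneg_left (gm_le hd.cφ hc w.1 w.2) hB
      exact ⟨le_trans (hfl hd.cφ h s hs' w).1 hg, le_trans (hfl hd.cφ h s hs' w).2 hg⟩
    · intro p₀ hp₀
      have hε : 0 < (p₀.1.re - T₀) / 2 := by have := hp₀.1; linarith
      set ε := (p₀.1.re - T₀) / 2 with hεdef
      refine ⟨ε, hε, fun s => C * N ^ 2 * (1 / √ε) * (1 / √(2 * (ν * ε))) * (1 + 1 / √(√s)),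
        (integrableOn_one_add T₀).const_mul _, ?_⟩
      filter_upwards [ae_restrict_mem measurableSet_Ioo] with s hs p hp hdist
      have hre : |p.1.re - p₀.1.re| < ε := by
        have h1 : dist p.1 p₀.1 ≤ dist p p₀ := by
          rw [Prod.dist_eq]; exact le_max_left _ _
        have h2 : |(p.1 - p₀.1).re| ≤ ‖p.1 - p₀.1‖ := Complex.abs_re_le_norm _
        rw [Complex.sub_re] at h2
        rw [dist_eq_norm] at h1
        linarith
      have hlow : T₀ + ε ≤ p.1.re := by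
        have := (abs_lt.mp hre).1
        linarith
      have hs0 := hs.1
      have hts : ε ≤ p.1.re - s := by have := hs.2; linarith
      have hpe : ε ≤ p.1.re := by linarith
      have hp0 : 0 < p.1.re := by linarith
      have htw : tw p.1.re s ≤ 1 / √ε * (1 + 1 / √(√s)) := by
        unfold tw
        refine mul_le_mul_of_nonneg_right ?_ (by positivity)
        exact one_div_le_one_div_of_le (Real.sqrt_pos.mpr hε) (Real.sqrt_le_sqrt hts)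
      have hgm : gm φ (2 * (ν * p.1.re)) p.2.1.re p.2.2.re ≤ 1 / √(2 * (ν * ε)) := by
        refine le_trans (gm_le hd.cφ (by positivity) _ _) ?_
        refine one_div_le_one_div_of_le (Real.sqrt_pos.mpr (by positivity))
          (Real.sqrt_le_sqrt ?_)
        have := mul_le_mul_of_nonneg_left hpe hν.le
        linarith
      have hg0 : 0 ≤ gm φ (2 * (ν * p.1.re)) p.2.1.re p.2.2.re :=
        gm_nonneg φ (by positivity) _ _
      refine le_trans (hdb hd.cφ h hT p hp s hs) ?_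
      calc C * N ^ 2 * tw p.1.re s * gm φ (2 * (ν * p.1.re)) p.2.1.re p.2.2.re
          ≤ C * N ^ 2 * (1 / √ε * (1 + 1 / √(√s))) * (1 / √(2 * (ν * ε))) :=
            mul_le_mul (mul_le_mul_of_nonneg_left htw (by positivity)) hgm hg0 (by positivity)
        _ = _ := by ring
  exact d1.sub d2

/-- `linc_bound`, `duhc_bound`, `tw_int` (monotonicity of the set of integration), `linc_per`,
`dvc_per`, `U_per`, `hist_real`. -/
theorem hist_CH (hν : 0 < ν) (M N Tb : ℝ) : ∃ A₀ : ℝ, 0 < A₀ ∧ ∀ {T T₀ δ : ℝ} {φ γ : ℝ → ℝ}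
    {ω : ℝ → ℝ → ℝ → ℝ}, Dat M φ γ → Mild ν T N φ γ ω → 0 ≤ T₀ → T₀ ≤ T → T₀ ≤ Tb → δ ≤ 1 →
      CH ν T₀ δ A₀ φ (hist ν T₀ φ γ ω) := by
  obtain ⟨C, hC, hdb⟩ := duhc_bound hν
  obtain ⟨C₁, hC₁, hlb⟩ := linc_bound
  obtain ⟨C₂, hC₂, htw⟩ := tw_int
  refine ⟨C₁ * |M| + C * N ^ 2 * (C₂ * (√(Tb + 1) + √(√(Tb + 1)))) + 1, by positivity, ?_⟩
  intro T T₀ δ φ γ ω hd h hT₀ hT hTb hδ
  refine ⟨by positivity, hist_diff hν hT₀ hd h hT, ?_, ?_, ?_⟩
  · intro p hp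
    show linc φ γ ((ν : ℂ) * p.1) (p.2.1 + 2 * (π : ℂ)) p.2.2
      - ∫ s in Ioo 0 T₀, duhc ((ν : ℂ) * (p.1 - s)) (p.2.1 + 2 * (π : ℂ)) p.2.2 (ω s)
      = linc φ γ ((ν : ℂ) * p.1) p.2.1 p.2.2
      - ∫ s in Ioo 0 T₀, duhc ((ν : ℂ) * (p.1 - s)) p.2.1 p.2.2 (ω s)
    rw [linc_per hd]
    congr 1
    refine setIntegral_congr_fun measurableSet_Ioo ?_
    intro s hs
    have hs' : s ∈ Ioo 0 T := ⟨hs.1, lt_of_lt_of_le hs.2 hT⟩
    have hper := h.per s hs'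
    refine dvc_per _ _ _ ?_ ?_
    · intro x y
      simp only [(U_per hper x y).1, hper x y]
    · intro x y
      simp only [(U_per hper x y).2, hper x y]
  · intro p hp
    have hp0 : 0 < p.1.re := lt_of_le_of_lt hT₀ hp.1
    have hp1 : p.1.re ≤ Tb + 1 := by have := hp.2.1; linarith
    have hg0 : 0 ≤ gm φ (2 * (ν * p.1.re)) p.2.1.re p.2.2.re :=
      gm_nonneg φ (by positivity) _ _
    set g := gm φ (2 * (ν * p.1.re)) p.2.1.re p.2.2.re with hg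
    have hadm : adm ((ν : ℂ) * p.1) p.2.1 p.2.2 := by simpa using adm_hist hν hp hT₀
    have b1 : ‖linc φ γ ((ν : ℂ) * p.1) p.2.1 p.2.2‖ ≤ C₁ * |M| * g := by
      have h1 := hlb hd _ _ _ hadm
      have e : ((ν : ℂ) * p.1).re = ν * p.1.re := by simp
      rw [e] at h1
      refine le_trans h1 (mul_le_mul_of_nonneg_right ?_ hg0)
      exact mul_le_mul_of_nonneg_left (le_abs_self M) hC₁.le
    obtain ⟨hti, htb⟩ := htw p.1.re hp0
    have hsub : Ioo 0 T₀ ⊆ Ioo 0 p.1.re := Ioo_subset_Ioo_right hp.1.le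
    have b2 : ‖∫ s in Ioo 0 T₀, duhc ((ν : ℂ) * (p.1 - s)) p.2.1 p.2.2 (ω s)‖
        ≤ C * N ^ 2 * (C₂ * (√(Tb + 1) + √(√(Tb + 1)))) * g := by
      have hi : IntegrableOn (fun s => C * N ^ 2 * g * tw p.1.re s) (Ioo 0 T₀) :=
        (hti.mono_set hsub).const_mul _
      have h1 : ‖∫ s in Ioo 0 T₀, duhc ((ν : ℂ) * (p.1 - s)) p.2.1 p.2.2 (ω s)‖
          ≤ ∫ s in Ioo 0 T₀, C * N ^ 2 * g * tw p.1.re s := by
        refine norm_integral_le_of_norm_le hi ?_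
        filter_upwards [ae_restrict_mem measurableSet_Ioo] with s hs
        refine le_trans (hdb hd.cφ h hT p hp s hs) (le_of_eq ?_)
        ring
      have h2 : ∫ s in Ioo 0 T₀, tw p.1.re s ≤ ∫ s in Ioo 0 p.1.re, tw p.1.re s :=
        setIntegral_mono_set hti (Eventually.of_forall fun s => tw_nonneg _ _) hsub.eventuallyLE
      have h3 : √p.1.re + √(√p.1.re) ≤ √(Tb + 1) + √(√(Tb + 1)) :=
        add_le_add (Real.sqrt_le_sqrt hp1) (Real.sqrt_le_sqrt (Real.sqrt_le_sqrt hp1))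
      have h4 : ∫ s in Ioo 0 T₀, tw p.1.re s ≤ C₂ * (√(Tb + 1) + √(√(Tb + 1))) :=
        le_trans h2 (le_trans htb (mul_le_mul_of_nonneg_left h3 hC₂.le))
      rw [integral_const_mul] at h1
      refine le_trans h1 (le_trans (mul_le_mul_of_nonneg_left h4 (by positivity)) (le_of_eq ?_))
      ring
    refine le_trans (norm_sub_le _ _) ?_
    nlinarith
  · intro t x y _
    rw [hist_real, Complex.ofReal_im]

end Pool.Agent.Lib.MP_3d41d4_an
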