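import Pool.Agent.Lib.MP_3d41d4_an.Vel
import Pool.Agent.Lib.MP_3d41d4_an.Cyl

open MeasureTheory Set Filter Topology Real
open scoped ENNReal

namespace Pool.Agent.Lib.MP_3d41d4_an

variable {ρ L M₀ T : ℝ} {φ γ : ℝ → ℝ → ℝ}

theorem Fin_restrict : (volume : Measure (ℝ × ℝ)).restrict cyl =
    ((volume : Measure ℝ).restrict (Ioc 0 (2 * π))).prod volume := by
  rw [cyl, Measure.volume_eq_prod, ← Measure.prod_restrict, Measure.restrict_univ]

theorem Fin_int_gs {c b : ℝ} (hc : 0 < c) (hb : 0 < b) :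
    IntegrableOn (fun p : ℝ × ℝ => gs c b p.2) cyl := by
  rw [IntegrableOn, Fin_restrict]
  exact (integrable_gs hc hb).comp_snd _

theorem Fin_integral_gs {c b : ℝ} (hc : 0 < c) (hb : 0 < b) :
    ∫ p in cyl, gs c b p.2 = 2 * π * √(π / c) := by
  rw [Fin_restrict, integral_fun_snd, integral_gs hc hb]
  simp [Real.pi_pos.le]

theorem Fin_bound {β T' ν M : ℝ} {Ω Θ : ℝ → ℝ → ℝ → ℝ}
    (hP : Par ρ L T β T' ν) (hI : Inv ρ L β T' ν M γ Ω Θ) {s : ℝ} (hs : s ∈ Ioc 0 T')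
    (y x : ℝ) : |Ω s y x| ≤ 4 * |M| * gs (cg L / 4) (ν * s) y := by
  have hb : 0 < ν * s := mul_pos hP.ν_pos hs.1
  have h1 := (hI.w0 s hs y).abs_le (hP.rad_pos hs.2).le (by norm_num) x
  have h2 := gs_anti (hP.mm_ge hs.2) hb y
  have h3 : M * gs (mm L β s) (ν * s) y ≤ |M| * gs (cg L / 4) (ν * s) y :=
    mul_le_mul (le_abs_self M) h2 (gs_nonneg _ _ _) (abs_nonneg M)
  linarith

theorem Fin_meas {β T' ν M : ℝ} {Ω Θ : ℝ → ℝ → ℝ → ℝ} (hI : Inv ρ L β T' ν M γ Ω Θ) (s : ℝ) :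
    Measurable fun p : ℝ × ℝ => Ω s p.2 p.1 :=
  hI.measΩ.comp (f := fun p : ℝ × ℝ => (s, p.2, p.1)) (by fun_prop)

theorem Fin_test_bound {η : ℝ → ℝ → ℝ} (hη : IsTest η) :
    ∃ B : ℝ, 0 ≤ B ∧ ∀ x ∈ Icc 0 (2 * π), ∀ y, |η x y| ≤ B := by
  obtain ⟨R, hR⟩ := hη.supp
  obtain ⟨B, hB⟩ := ((isCompact_Icc (a := (0 : ℝ)) (b := 2 * π)).prod
    (isCompact_Icc (a := -R) (b := R))).exists_bound_of_continuousOn hη.cont.continuousOn
  refine ⟨max B 0, le_max_right _ _, fun x hx y => ?_⟩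
  rcases le_total R |y| with h | h
  · rw [hR x y h, abs_zero]
    exact le_max_right _ _
  · exact (hB (x, y) ⟨hx, abs_le.1 h⟩).trans (le_max_left _ _)

theorem Fin_modulus {η : ℝ → ℝ → ℝ} (hη : IsTest η) {ψ : ℝ → ℝ} (hψ : Continuous ψ) {δ : ℝ}
    (hδ : 0 < δ) : ∃ A : ℝ, 0 ≤ A ∧ ∀ x ∈ Icc 0 (2 * π), ∀ y,
      |η x (y + ψ x) - η x (ψ x)| ≤ δ + A * |y| := by
  obtain ⟨B, hB0, hB⟩ := Fin_test_bound hη
  have hc : Continuous fun p : ℝ × ℝ => η p.1 (p.2 + ψ p.1) :=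
    hη.cont.comp (f := fun p : ℝ × ℝ => (p.1, p.2 + ψ p.1)) (by fun_prop)
  have hu := ((isCompact_Icc (a := (0 : ℝ)) (b := 2 * π)).prod
    (isCompact_Icc (a := (-1 : ℝ)) (b := 1))).uniformContinuousOn_of_continuous hc.continuousOn
  obtain ⟨r, hr, h⟩ := Metric.uniformContinuousOn_iff.1 hu δ hδ
  have hr1 : 0 < min r 1 := lt_min hr one_pos
  refine ⟨2 * B / min r 1, by positivity, fun x hx y => ?_⟩
  rcases lt_or_ge |y| (min r 1) with hy | hy
  · have h1 := h (x, y) ⟨hx, abs_le.1 (hy.le.trans (min_le_right _ _))⟩ (x, 0)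
      ⟨hx, by norm_num⟩ (by
        rw [Prod.dist_eq, dist_self, Real.dist_eq, sub_zero, max_eq_right (abs_nonneg y)]
        exact hy.trans_le (min_le_left _ _))
    simp only [Real.dist_eq, zero_add] at h1
    have : 0 ≤ 2 * B / min r 1 * |y| := by positivity
    linarith
  · have h1 : 2 * B ≤ 2 * B / min r 1 * |y| := by
      rw [div_mul_eq_mul_div, le_div_iff₀ hr1]
      exact mul_le_mul_of_nonneg_left hy (by linarith)
    have h2 := abs_sub (η x (y + ψ x)) (η x (ψ x))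
    linarith [hB x hx (y + ψ x), hB x hx (ψ x)]

theorem lintegral_Ω_le (hS : Sheet ρ L M₀ T φ γ) {β T' ν M : ℝ} {Ω Θ : ℝ → ℝ → ℝ → ℝ}
    (hP : Par ρ L T β T' ν) (hI : Inv ρ L β T' ν M γ Ω Θ) :
    ∃ A : ℝ, ∀ s ∈ Ioc 0 T', ∫⁻ p in cyl, ‖Ω s p.2 p.1‖ₑ ≤ ENNReal.ofReal A := by
  have hc : 0 < cg L / 4 := by linarith [cg_pos L]
  refine ⟨4 * |M| * (2 * π * √(π / (cg L / 4))), fun s hs => ?_⟩
  have hb : 0 < ν * s := mul_pos hP.ν_pos hs.1
  rw [← Fin_integral_gs hc hb, ← integral_const_mul,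
    ofReal_integral_eq_lintegral_ofReal ((Fin_int_gs hc hb).const_mul _)
      (Eventually.of_forall fun p => mul_nonneg (by positivity) (gs_nonneg _ _ _))]
  refine lintegral_mono fun p => ?_
  rw [← ofReal_norm, Real.norm_eq_abs]
  exact ENNReal.ofReal_le_ofReal (Fin_bound hP hI hs p.2 p.1)

/-- Functions satisfying the invariant concentrate on the sheet. -/
theorem concentrate (hS : Sheet ρ L M₀ T φ γ) (M β T' : ℝ) {η : ℝ → ℝ → ℝ} (hη : IsTest η)
    {t : ℝ} (ht : t ∈ Ioc 0 T') {ε : ℝ} (hε : 0 < ε) :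
    ∃ ν₀ : ℝ, 0 < ν₀ ∧ ∀ ν, ν < ν₀ → Par ρ L T β T' ν → ∀ Ω Θ : ℝ → ℝ → ℝ → ℝ,
      Inv ρ L β T' ν M γ Ω Θ →
        IntegrableOn (fun p : ℝ × ℝ => Ω t p.2 p.1) cyl ∧
        |(∫ p in cyl, η p.1 (p.2 + φ t p.1) * Ω t p.2 p.1)
          - ∫ x in (0 : ℝ)..(2 * π), η x (φ t x) * γ t x| ≤ ε := by
  have hc : 0 < cg L / 4 := by linarith [cg_pos L]
  set c := cg L / 4 with hcdef
  have hψ : Continuous (φ t) := (hS.curve t).continuous
  obtain ⟨B, hB0, hB⟩ := Fin_test_bound hη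
  set K₁ : ℝ := 2 * π * (4 * |M| * √(π / c)) with hK₁
  have hK₁0 : 0 ≤ K₁ := by positivity
  obtain ⟨A, hA0, hA⟩ := Fin_modulus hη hψ (δ := ε / 2 / (K₁ + 1)) (by positivity)
  set δ := ε / 2 / (K₁ + 1) with hδ
  set K₂ : ℝ := 2 * π * (4 * |M| * (A / c + B)) with hK₂
  have hK₂0 : 0 ≤ K₂ := by positivity
  have ht0 : 0 < t := ht.1
  refine ⟨(ε / 2 / (K₂ + 1)) ^ 2 / t, by positivity, fun ν hν hP Ω Θ hI => ?_⟩
  have hb : 0 < ν * t := mul_pos hP.ν_pos ht0
  have hsq : √(ν * t) ≤ ε / 2 / (K₂ + 1) :=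
    Real.sqrt_le_iff.2 ⟨by positivity, ((lt_div_iff₀ ht0).1 hν).le⟩
  have hΩ : IntegrableOn (fun p : ℝ × ℝ => Ω t p.2 p.1) cyl :=
    Integrable.mono' ((Fin_int_gs hc hb).const_mul (4 * |M|)) (Fin_meas hI t).aestronglyMeasurable
      (Eventually.of_forall fun p => Fin_bound hP hI ht p.2 p.1)
  refine ⟨hΩ, ?_⟩
  have hcη : Continuous fun p : ℝ × ℝ => η p.1 (p.2 + φ t p.1) :=
    hη.cont.comp (f := fun p : ℝ × ℝ => (p.1, p.2 + φ t p.1)) (by fun_prop)
  have hF : IntegrableOn (fun p : ℝ × ℝ => η p.1 (p.2 + φ t p.1) * Ω t p.2 p.1) cyl := by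
    refine Integrable.bdd_mul (c := B) hΩ hcη.aestronglyMeasurable ?_
    filter_upwards [ae_restrict_mem measurableSet_cyl] with p hp
    exact hB p.1 (Ioc_subset_Icc_self hp.1) _
  rw [IntegrableOn, Fin_restrict] at hF
  have hg : Continuous fun x => η x (φ t x) * γ t x :=
    (hη.cont.comp (f := fun x : ℝ => (x, φ t x)) (by fun_prop)).mul (hS.wγ t).cont
  rw [Fin_restrict, integral_prod _ hF, intervalIntegral.integral_of_le (by positivity),
    ← integral_sub hF.integral_prod_left (hg.integrableOn_Icc.mono_set Ioc_subset_Icc_self)]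
  have hpt : ∀ x ∈ Ioc 0 (2 * π),
      ‖(∫ y, η x (y + φ t x) * Ω t y x) - η x (φ t x) * γ t x‖ ≤
        4 * |M| * (δ * √(π / c) + A * (√(ν * t) / c)) + B * (4 * (|M| * √(ν * t))) := by
    intro x hx
    have hx' : x ∈ Icc 0 (2 * π) := Ioc_subset_Icc_self hx
    have hi := integrable_Ω hS hP hI ht x
    have hcx : Continuous fun y => η x (y + φ t x) :=
      hη.cont.comp (f := fun y : ℝ => (x, y + φ t x)) (by fun_prop)
    have hi1 : Integrable fun y => η x (y + φ t x) * Ω t y x :=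
      hi.bdd_mul (c := B) hcx.aestronglyMeasurable (Eventually.of_forall fun y => hB x hx' _)
    have e : (∫ y, η x (y + φ t x) * Ω t y x) - η x (φ t x) * γ t x =
        (∫ y, (η x (y + φ t x) - η x (φ t x)) * Ω t y x) +
          η x (φ t x) * (SS Ω t x - γ t x) := by
      simp only [sub_mul]
      rw [integral_sub hi1 (hi.const_mul _), integral_const_mul, SS]
      ring
    have hg1 := integrable_gs hc hb
    have hg2 : Integrable fun y => |y| * gs c (ν * t) y := by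
      simpa using integrable_abs_mul_gs hc hb 0
    have h1 : ‖∫ y, (η x (y + φ t x) - η x (φ t x)) * Ω t y x‖ ≤
        ∫ y, 4 * |M| * (δ * gs c (ν * t) y + A * (|y| * gs c (ν * t) y)) := by
      refine norm_integral_le_of_norm_le (((hg1.const_mul δ).add (hg2.const_mul A)).const_mul _)
        (Eventually.of_forall fun y => ?_)
      rw [Real.norm_eq_abs, abs_mul]
      have h2 := mul_le_mul (hA x hx' y) (Fin_bound hP hI ht y x) (abs_nonneg _) (by positivity)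
      refine h2.trans (le_of_eq ?_)
      ring
    rw [integral_const_mul, integral_add (hg1.const_mul δ) (hg2.const_mul A), integral_const_mul,
      integral_const_mul, integral_gs hc hb, integral_abs_mul_gs hc hb] at h1
    have h3 := (hI.wδ t ht).abs_le (hP.rad_pos ht.2).le le_rfl x
    have h4 : M * √(ν * t) ≤ |M| * √(ν * t) :=
      mul_le_mul_of_nonneg_right (le_abs_self M) (Real.sqrt_nonneg _)
    have h5 : ‖η x (φ t x) * (SS Ω t x - γ t x)‖ ≤ B * (4 * (|M| * √(ν * t))) := by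
      rw [Real.norm_eq_abs, abs_mul]
      exact mul_le_mul (hB x hx' _) (by linarith) (abs_nonneg _) hB0
    rw [e]
    exact (norm_add_le _ _).trans (add_le_add h1 h5)
  have hfin := norm_setIntegral_le_of_norm_le_const (μ := volume)
    (s := Ioc (0 : ℝ) (2 * π)) measure_Ioc_lt_top hpt
  rw [Real.norm_eq_abs, Real.volume_real_Ioc_of_le (by positivity), sub_zero] at hfin
  refine hfin.trans ?_
  have e : (4 * |M| * (δ * √(π / c) + A * (√(ν * t) / c)) + B * (4 * (|M| * √(ν * t)))) * (2 * π) =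
      K₁ * δ + K₂ * √(ν * t) := by
    rw [hK₁, hK₂]
    ring
  have h6 : K₁ * δ ≤ ε / 2 := by
    rw [hδ, ← mul_div_assoc, div_le_iff₀ (by positivity)]
    nlinarith
  have h7 : K₂ * √(ν * t) ≤ ε / 2 := by
    refine (mul_le_mul_of_nonneg_left hsq hK₂0).trans ?_
    rw [← mul_div_assoc, div_le_iff₀ (by positivity)]
    nlinarith
  rw [e]
  linarith

end Pool.Agent.Lib.MP_3d41d4_an
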