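import Pool.Agent.Lib.MP_3d41d4_an.EDuh
import Pool.Agent.Lib.MP_3d41d4_an.Fin

open MeasureTheory Set Filter Topology Real
open scoped ENNReal

namespace Pool.Agent.Lib.MP_3d41d4_an

variable {ν T N M : ℝ} {φ γ : ℝ → ℝ} {ω : ℝ → ℝ → ℝ → ℝ}

theorem EInit_bdd {η : ℝ → ℝ → ℝ} (hη : IsTest η) : ∃ B : ℝ, 0 ≤ B ∧ ∀ x y, |η x y| ≤ B := by
  obtain ⟨B, h0, hB⟩ := Fin_test_bound hη
  refine ⟨B, h0, fun x y => ?_⟩
  have hp : Function.Periodic (fun x => η x y) (2 * π) := fun x => hη.per x y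
  obtain ⟨z, hz, e⟩ := hp.exists_mem_Ico₀ two_pi_pos x
  exact (congrArg abs e).trans_le (hB z (Ico_subset_Icc_self hz) y)

theorem EInit_even (a r Y : ℝ) : G a (-r) Y = G a r Y ∧ G a r (-Y) = G a r Y := by
  simp [G]

theorem EInit_swap {k : ℝ → ℝ → ℝ} (hm : Measurable fun p : ℝ × ℝ => k p.1 p.2)
    (hp : ∀ ρ, Function.Periodic (k ρ) (2 * π)) {g : ℝ → ℝ} (hg : Integrable g)
    (hb : ∀ ρ x, |k ρ x| ≤ g ρ) :
    ∫ x in Ioc 0 (2 * π), ∫ ρ, k ρ x = ∫ r in Ioc 0 (2 * π), ∫ ρ, k ρ (r - ρ) := by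
  have hi : Integrable (fun p : ℝ × ℝ => g p.2) ((volume.restrict (Ioc 0 (2 * π))).prod volume) :=
    hg.comp_snd _
  have h1 : Integrable (Function.uncurry fun x ρ => k ρ x)
      ((volume.restrict (Ioc 0 (2 * π))).prod volume) :=
    hi.mono' (hm.comp measurable_swap).aestronglyMeasurable (.of_forall fun p => hb _ _)
  have h2 : Integrable (Function.uncurry fun r ρ => k ρ (r - ρ))
      ((volume.restrict (Ioc 0 (2 * π))).prod volume) :=
    hi.mono' (hm.comp (measurable_snd.prodMk (measurable_fst.sub measurable_snd))).aestronglyMeasurable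
      (.of_forall fun p => hb _ _)
  rw [integral_integral_swap h1, integral_integral_swap h2]
  refine integral_congr_ae (.of_forall fun ρ => ?_)
  have h3 := (hp ρ).intervalIntegral_add_eq 0 (0 - ρ)
  simp only [← intervalIntegral.integral_of_le two_pi_pos.le]
  rw [intervalIntegral.integral_comp_sub_right (k ρ) ρ, show 2 * π - ρ = 0 - ρ + 2 * π by ring, ← h3,
    zero_add]

theorem EInit_lin_int (hd : Dat M φ γ) {η : ℝ → ℝ → ℝ} (hη : IsTest η) {a : ℝ} (ha : 0 < a) :
    IntegrableOn (fun p : ℝ × ℝ => η p.1 p.2 * lin φ γ a p.1 p.2) cyl := by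
  obtain ⟨B, h0, hB⟩ := EInit_bdd hη
  obtain ⟨C, -, hC⟩ := lin_bound
  refine ((gm_mass hd.cφ (a := 2 * a) (by positivity)).1.const_mul (B * (C * M))).mono'
    (hη.cont.measurable.mul (lin_meas hd measurable_const measurable_fst
      measurable_snd)).aestronglyMeasurable (.of_forall fun p => ?_)
  rw [Real.norm_eq_abs, abs_mul, mul_assoc]
  exact mul_le_mul (hB _ _) (hC hd a _ _ ha).2 (abs_nonneg _) h0

/-- Unfolding. Sketch: for a kernel `k` invariant under the diagonal shift by `2π`,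
`∫_{x ∈ period} ∫_r k x r = ∫_{r ∈ period} ∫_x k x r` (put `r = x + ρ`, Fubini, move the period,
Fubini); here `k x r = (∫ y, η x y * G a (x - r) (y - φ r)) * γ r`, and `G` is even. -/
theorem lin_unfold (hd : Dat M φ γ) {η : ℝ → ℝ → ℝ} (hη : IsTest η) {a : ℝ} (ha : 0 < a) :
    ∫ p in cyl, η p.1 p.2 * lin φ γ a p.1 p.2
      = ∫ r in (0 : ℝ)..(2 * π), hc a η r (φ r) * γ r := by
  obtain ⟨B, h0, hB⟩ := EInit_bdd hη
  have hM : 0 ≤ M := zero_le_one.trans hd.one_le
  have mη := hη.cont.measurable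
  have mφ := hd.cφ.measurable
  have mγ := hd.cγ.measurable
  have hF : Measurable fun q : (ℝ × ℝ) × ℝ =>
      η q.1.2 q.2 * (G a q.1.1 (q.2 - φ (q.1.2 + q.1.1)) * γ (q.1.2 + q.1.1)) :=
    (mη.comp (measurable_fst.snd.prodMk measurable_snd)).mul
      ((measurable_G measurable_const measurable_fst.fst (by fun_prop)).mul (by fun_prop))
  have hb : ∀ ρ x y, ‖η x y * (G a ρ (y - φ (x + ρ)) * γ (x + ρ))‖
      ≤ B * M * G a ρ (y - φ (x + ρ)) := fun ρ x y => by
    have hG := G_nonneg ha.le ρ (y - φ (x + ρ))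
    rw [Real.norm_eq_abs, abs_mul, abs_mul, abs_of_nonneg hG, mul_assoc, mul_comm M]
    exact mul_le_mul (hB _ _) (mul_le_mul_of_nonneg_left (hd.bγ _) hG) (by positivity) h0
  have key := EInit_swap (k := fun ρ x => ∫ y, η x y * (G a ρ (y - φ (x + ρ)) * γ (x + ρ)))
    hF.stronglyMeasurable.integral_prod_right'.measurable
    (fun ρ x => by simp only [add_right_comm x (2 * π) ρ, hd.pφ _, hd.pγ _, hη.per])
    ((integrable_H ha).const_mul (B * M)) fun ρ x => by
      have h1 : Integrable fun y => B * M * H a ρ * H a (y - φ (x + ρ)) :=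
        ((integrable_H ha).comp_sub_right _).const_mul _
      rw [← Real.norm_eq_abs]
      refine (norm_integral_le_of_norm_le h1 (.of_forall fun y => ?_)).trans_eq ?_
      · rw [mul_assoc _ (H a ρ), ← G_eq ha]
        exact hb ρ x y
      · rw [integral_const_mul, integral_sub_right_eq_self (H a), integral_H ha, mul_one]
  have h2 := EInit_lin_int hd hη ha
  rw [IntegrableOn, Fin_restrict] at h2
  rw [Fin_restrict, integral_prod _ h2, intervalIntegral.integral_of_le two_pi_pos.le]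
  refine (integral_congr_ae (.of_forall fun x => ?_)).trans
    (key.trans (integral_congr_ae (.of_forall fun r => ?_)))
  · have h3 : Integrable fun p : ℝ × ℝ => G a p.1 (p.2 - φ (x + p.1)) := by
      have := (integrable_shear (ψ := fun ρ => -φ (x + ρ)) (by fun_prop) 0 _).2 (G_integrable ha 0 0)
      simpa only [zero_sub, zero_add, (EInit_even _ _ _).1, (EInit_even _ _ _).2,
        ← sub_eq_add_neg] using this
    have h4 : Integrable (Function.uncurry fun ρ y =>
        η x y * (G a ρ (y - φ (x + ρ)) * γ (x + ρ))) (volume.prod volume) :=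
      (h3.const_mul (B * M)).mono' (hF.comp ((measurable_fst.prodMk measurable_const).prodMk
        measurable_snd)).aestronglyMeasurable (.of_forall fun p => hb _ _ _)
    refine Eq.trans (integral_congr_ae (.of_forall fun y => ?_)) (integral_integral_swap h4).symm
    simp only [lin]
    rw [integral_const_mul, ← integral_add_left_eq_self _ x]
    simp only [sub_add_cancel_left, (EInit_even _ _ _).1]
  · have h3 := (hc_bdd ha mη hB r (φ r)).1
    simp only [hc, sub_add_cancel]
    rw [Measure.volume_eq_prod] at h3 ⊢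
    rw [integral_prod _ h3, ← integral_sub_left_eq_self _ _ r, ← integral_mul_const]
    refine integral_congr_ae (.of_forall fun ρ => ?_)
    simp only [← integral_mul_const, sub_sub_cancel]
    refine integral_congr_ae (.of_forall fun y => ?_)
    simp only [← neg_sub y (φ r), (EInit_even _ _ _).2]
    ring

theorem IsTest.bdd {η : ℝ → ℝ → ℝ} (hη : IsTest η) : ∃ B : ℝ, 0 ≤ B ∧ ∀ x y, |η x y| ≤ B := by
  exact EInit_bdd hη

/-- `lin_unfold`, `hc_tendsto'`, `hc_bdd`, dominated convergence; the Duhamel part is at most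
`C N² (√t + √√t) 2π sup |η|` (`Mild.duh_int` with `κ = 0`, `gm_mass`). -/
theorem mild_init (hν : 0 < ν) (hT : 0 < T) (hd : Dat M φ γ) (h : Mild ν T N φ γ ω)
    {η : ℝ → ℝ → ℝ} (hη : IsTest η) :
    Tendsto (fun t => ∫ p in cyl, η p.1 p.2 * ω t p.1 p.2) (𝓝[>] 0)
      (𝓝 (∫ x in (0 : ℝ)..(2 * π), η x (φ x) * γ x)) := by
  obtain ⟨B, h0, hB⟩ := hη.bdd
  obtain ⟨C, hC0, hC⟩ := Mild.duh_int hν
  have mη := hη.cont.measurable
  have hν0 : Tendsto (fun t : ℝ => ν * t) (𝓝[>] 0) (𝓝[>] 0) := by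
    refine tendsto_nhdsWithin_iff.2 ⟨?_, ?_⟩
    · exact ((continuous_const.mul continuous_id).tendsto' 0 0 (mul_zero ν)).mono_left
        nhdsWithin_le_nhds
    · filter_upwards [self_mem_nhdsWithin] with t ht using mul_pos hν ht
  have h1 : Tendsto (fun a => ∫ r in (0 : ℝ)..(2 * π), hc a η r (φ r) * γ r) (𝓝[>] 0)
      (𝓝 (∫ x in (0 : ℝ)..(2 * π), η x (φ x) * γ x)) := by
    refine intervalIntegral.tendsto_integral_filter_of_dominated_convergence (fun _ => B * M)
      (.of_forall fun a => ?_) ?_ intervalIntegrable_const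
      (.of_forall fun r _ => (hc_tendsto' hη.cont hB r (φ r)).mul_const _)
    · have mφ := hd.cφ.measurable
      have hF : Measurable fun q : ℝ × ℝ × ℝ =>
          G a (q.1 - q.2.1) (φ q.1 - q.2.2) * η q.2.1 q.2.2 :=
        (measurable_G measurable_const (by fun_prop) (by fun_prop)).mul (mη.comp measurable_snd)
      exact (hF.stronglyMeasurable.integral_prod_right'.measurable.mul
        hd.cγ.measurable).aestronglyMeasurable
    · filter_upwards [self_mem_nhdsWithin] with a ha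
      refine .of_forall fun r _ => ?_
      rw [Real.norm_eq_abs, abs_mul]
      exact mul_le_mul (hc_bdd ha mη hB _ _).2 (hd.bγ r) (abs_nonneg _) h0
  have h2 : Tendsto (fun t : ℝ => B * (C * N ^ 2 * (√t + √(√t))) * (2 * π)) (𝓝[>] 0) (𝓝 0) :=
    (Continuous.tendsto' (by fun_prop) 0 0 (by simp)).mono_left nhdsWithin_le_nhds
  refine (h1.comp hν0).congr_dist (squeeze_zero' (.of_forall fun _ => dist_nonneg) ?_ h2)
  filter_upwards [Ioo_mem_nhdsGT hT] with t ht
  have ha : 0 < ν * t := mul_pos hν ht.1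
  obtain ⟨m1, m2⟩ := gm_mass hd.cφ (a := 2 * (ν * t)) (by positivity)
  have i1 := EInit_lin_int hd hη ha
  have i2 : IntegrableOn (fun p : ℝ × ℝ => η p.1 p.2 * ω t p.1 p.2) cyl := by
    refine (m1.const_mul (B * N)).mono' (mη.mul (h.slice t)).aestronglyMeasurable
      (.of_forall fun p => ?_)
    rw [Real.norm_eq_abs, abs_mul, mul_assoc]
    exact mul_le_mul (hB _ _) (h.bd t ht _ _) (abs_nonneg _) h0
  rw [Function.comp_apply, ← lin_unfold hd hη ha, dist_eq_norm, ← integral_sub i1 i2, ← m2,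
    ← integral_const_mul]
  refine norm_integral_le_of_norm_le (m1.const_mul _) (.of_forall fun p => ?_)
  have h3 := (hC hd.cφ h 0 t le_rfl ht.1 ht.2.le p.1 p.2).2
  simp only [add_zero] at h3
  rw [← mul_sub, h.eq t ht, sub_sub_cancel, Real.norm_eq_abs, abs_mul, mul_assoc B]
  exact mul_le_mul (hB _ _) h3 (abs_nonneg _) h0

end Pool.Agent.Lib.MP_3d41d4_an
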