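import Pool.Agent.Lib.MP_3d41d4_an.EDefs
import Pool.Agent.Lib.MP_3d41d4_an.Gcalc

open MeasureTheory Set Filter Topology Real
open scoped ENNReal

namespace Pool.Agent.Lib.MP_3d41d4_an

theorem Gc_ofReal (a r Y : ℝ) : Gc a r Y = (G a r Y : ℝ) := by
  unfold Gc G
  push_cast
  rfl

theorem Gcx_ofReal (a r Y : ℝ) : Gcx a r Y = (Gx a r Y : ℝ) := by
  unfold Gcx Gx
  rw [Gc_ofReal]
  push_cast
  rfl

theorem Gcy_ofReal (a r Y : ℝ) : Gcy a r Y = (Gy a r Y : ℝ) := by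
  unfold Gcy Gy
  rw [Gc_ofReal]
  push_cast
  rfl

theorem adm_ofReal {a : ℝ} (ha : 0 < a) (x y : ℝ) : adm a x y := by
  simp [adm, ha, ha.le]

theorem adm.sub_ofReal {a X Y : ℂ} (h : adm a X Y) (x y : ℝ) : adm a (X - x) (Y - y) := by
  obtain ⟨h1, h2, h3, h4⟩ := h
  exact ⟨h1, h2, by simpa using h3, by simpa using h4⟩

theorem EKer_re {a X : ℂ} (h1 : 0 < a.re) (h2 : 4 * |a.im| ≤ a.re) (h3 : X.im ^ 2 ≤ a.re) :
    3 / 17 * (X.re ^ 2 / a.re) - 5 / 16 ≤ (X ^ 2 / (4 * a)).re := by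
  obtain ⟨b, hb⟩ : ∃ b, b = a.re := ⟨_, rfl⟩
  obtain ⟨c, hc⟩ : ∃ c, c = a.im := ⟨_, rfl⟩
  obtain ⟨x, hx⟩ : ∃ x, x = X.re := ⟨_, rfl⟩
  obtain ⟨e, he⟩ : ∃ e, e = X.im := ⟨_, rfl⟩
  rw [← hb, ← hc] at h2
  rw [← hb] at h1
  rw [← hb, ← he] at h3
  have hn : 0 < b ^ 2 + c ^ 2 := by positivity
  have e1 : (X ^ 2 / (4 * a)).re = ((x ^ 2 - e ^ 2) * b + 2 * x * e * c) / (4 * (b ^ 2 + c ^ 2)) := by
    rw [Complex.div_re, Complex.normSq_apply]
    simp only [pow_two, Complex.mul_re, Complex.mul_im, Complex.re_ofNat, Complex.im_ofNat, ← hb, ← hc,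
      ← hx, ← he]
    have : 4 * b - 0 * c = 4 * b := by ring
    have hn' : b * b + c * c ≠ 0 := by nlinarith
    have hn2 : (4 * b - 0 * c) * (4 * b - 0 * c) + (4 * c + 0 * b) * (4 * c + 0 * b)
        = 16 * (b * b + c * c) := by ring
    rw [hn2]
    field_simp
    ring
  rw [e1, ← hb, ← hx]
  have hc2 : 16 * c ^ 2 ≤ b ^ 2 := by
    have := abs_nonneg c
    have h4 : (4 * |c|) ^ 2 ≤ b ^ 2 := pow_le_pow_left₀ (by positivity) h2 2
    rw [mul_pow, sq_abs] at h4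
    linarith
  have hcr : -(b * ((x ^ 2 + e ^ 2) / 4)) ≤ 2 * x * e * c := by
    have h5 : |2 * x * e * c| ≤ b * ((x ^ 2 + e ^ 2) / 4) := by
      have h6 : |2 * x * e| ≤ x ^ 2 + e ^ 2 := by
        rw [abs_le]
        constructor <;> nlinarith [sq_nonneg (x + e), sq_nonneg (x - e)]
      rw [abs_mul]
      have h7 : |c| ≤ b / 4 := by linarith
      calc |2 * x * e| * |c| ≤ (x ^ 2 + e ^ 2) * (b / 4) :=
            mul_le_mul h6 h7 (abs_nonneg _) (by positivity)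
        _ = _ := by ring
    exact (abs_le.1 h5).1
  have hA : 3 / 17 * (x ^ 2 / b) ≤ 3 / 4 * b * x ^ 2 / (4 * (b ^ 2 + c ^ 2)) := by
    rw [← mul_div_assoc, div_le_div_iff₀ h1 (by positivity)]
    nlinarith [mul_nonneg (sq_nonneg x) (sub_nonneg.2 hc2)]
  have hB : 5 / 4 * b * e ^ 2 / (4 * (b ^ 2 + c ^ 2)) ≤ 5 / 16 := by
    rw [div_le_iff₀ (by positivity)]
    nlinarith [mul_le_mul_of_nonneg_left h3 h1.le, sq_nonneg c]
  have hC : 3 / 4 * b * x ^ 2 / (4 * (b ^ 2 + c ^ 2)) - 5 / 4 * b * e ^ 2 / (4 * (b ^ 2 + c ^ 2))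
      ≤ ((x ^ 2 - e ^ 2) * b + 2 * x * e * c) / (4 * (b ^ 2 + c ^ 2)) := by
    rw [← sub_div]
    exact div_le_div_of_nonneg_right (by nlinarith) (by positivity)
  linarith

theorem EKer_norm {a X Y : ℂ} (h : adm a X Y) :
    ‖Gc a X Y‖ ≤ 6 * (Real.exp (-(X.re ^ 2 / a.re / 20)) * Real.exp (-(Y.re ^ 2 / a.re / 20))) *
      G (2 * a.re) X.re Y.re := by
  obtain ⟨h1, h2, h3, h4⟩ := h
  have hπ := Real.pi_pos
  have hx := EKer_re h1 h2 h3
  have hy := EKer_re h1 h2 h4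
  have ha : a.re ≤ ‖a‖ := Complex.re_le_norm a
  have hx0 : 0 ≤ X.re ^ 2 / a.re := by positivity
  have hy0 : 0 ≤ Y.re ^ 2 / a.re := by positivity
  unfold Gc G
  rw [norm_div, Complex.norm_exp, norm_mul, norm_mul, Complex.norm_real, Real.norm_of_nonneg hπ.le,
    Complex.norm_ofNat, add_div, Complex.neg_re, Complex.add_re]
  have e1 : (X.re ^ 2 + Y.re ^ 2) / (4 * (2 * a.re)) = (X.re ^ 2 / a.re + Y.re ^ 2 / a.re) / 8 := by
    field_simp
    ring
  rw [e1]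
  have h5 : Real.exp (-((X ^ 2 / (4 * a)).re + (Y ^ 2 / (4 * a)).re)) ≤
      Real.exp 1 * (Real.exp (-(X.re ^ 2 / a.re / 20)) * Real.exp (-(Y.re ^ 2 / a.re / 20))) *
        Real.exp (-((X.re ^ 2 / a.re + Y.re ^ 2 / a.re) / 8)) := by
    rw [← Real.exp_add, ← Real.exp_add, ← Real.exp_add]
    exact Real.exp_le_exp.2 (by linarith)
  have h6 : Real.exp 1 ≤ 3 := Real.exp_one_lt_d9.le.trans (by norm_num)
  set E := Real.exp (-(X.re ^ 2 / a.re / 20)) * Real.exp (-(Y.re ^ 2 / a.re / 20)) with hE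
  set F := Real.exp (-((X.re ^ 2 / a.re + Y.re ^ 2 / a.re) / 8)) with hF
  have hE0 : 0 < E := by positivity
  have hF0 : 0 < F := by positivity
  calc _ ≤ 3 * E * F / (4 * π * a.re) := by
        refine div_le_div₀ (by positivity) (h5.trans ?_) (by positivity) (by gcongr)
        gcongr
    _ = _ := by
        field_simp
        ring

theorem EKer_fac {a X : ℂ} (h1 : 0 < a.re) (h3 : X.im ^ 2 ≤ a.re) :
    ‖-X / (2 * a)‖ * Real.exp (-(X.re ^ 2 / a.re / 20)) ≤ 4 / √a.re := by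
  have hs : 0 < √a.re := Real.sqrt_pos.2 h1
  have hss : √a.re * √a.re = a.re := Real.mul_self_sqrt h1.le
  have ha : a.re ≤ ‖a‖ := Complex.re_le_norm a
  have hi : |X.im| ≤ √a.re := Real.abs_le_sqrt h3
  have hX : ‖X‖ ≤ |X.re| + √a.re := (Complex.norm_le_abs_re_add_abs_im X).trans (by linarith)
  obtain ⟨u, hu⟩ : ∃ u, u = |X.re| / √a.re := ⟨_, rfl⟩
  have hu0 : 0 ≤ u := by rw [hu]; positivity
  have hu1 : |X.re| = u * √a.re := by rw [hu]; field_simp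
  have hu2 : X.re ^ 2 / a.re = u ^ 2 := by
    rw [← sq_abs, hu1, mul_pow, Real.sq_sqrt h1.le]
    field_simp
  have h5 : (u + 1) * Real.exp (-(u ^ 2 / 20)) ≤ 8 := by
    rw [Real.exp_neg, ← div_eq_mul_inv, div_le_iff₀ (Real.exp_pos _)]
    have := Real.add_one_le_exp (u ^ 2 / 20)
    nlinarith [sq_nonneg (u - 2)]
  have h6 : ‖-X / (2 * a)‖ ≤ (u + 1) / (2 * √a.re) := by
    rw [norm_div, norm_neg, norm_mul, Complex.norm_ofNat]
    calc ‖X‖ / (2 * ‖a‖) ≤ (u * √a.re + √a.re) / (2 * a.re) :=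
          div_le_div₀ (by positivity) (by rw [← hu1]; exact hX) (by positivity) (by linarith)
      _ = _ := by
          rw [div_eq_div_iff (by positivity) (by positivity)]
          nlinarith
  rw [hu2]
  calc _ ≤ (u + 1) / (2 * √a.re) * Real.exp (-(u ^ 2 / 20)) := by gcongr
    _ = (u + 1) * Real.exp (-(u ^ 2 / 20)) / (2 * √a.re) := by ring
    _ ≤ 8 / (2 * √a.re) := by gcongr
    _ = _ := by
        field_simp
        ring

theorem ker_bound : ∃ C : ℝ, 0 < C ∧ ∀ a X Y : ℂ, adm a X Y →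
    ‖Gc a X Y‖ ≤ C * G (2 * a.re) X.re Y.re ∧
    ‖Gcx a X Y‖ ≤ C / √a.re * G (2 * a.re) X.re Y.re ∧
    ‖Gcy a X Y‖ ≤ C / √a.re * G (2 * a.re) X.re Y.re := by
  refine ⟨24, by norm_num, fun a X Y h => ?_⟩
  have hn := EKer_norm h
  obtain ⟨h1, -, h3, h4⟩ := h
  have hx := EKer_fac h1 h3
  have hy := EKer_fac h1 h4
  have hG : 0 ≤ G (2 * a.re) X.re Y.re := G_nonneg (by positivity) _ _
  have e1 : Real.exp (-(X.re ^ 2 / a.re / 20)) ≤ 1 := Real.exp_le_one_iff.2 (by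
    have : 0 ≤ X.re ^ 2 / a.re / 20 := by positivity
    linarith)
  have e2 : Real.exp (-(Y.re ^ 2 / a.re / 20)) ≤ 1 := Real.exp_le_one_iff.2 (by
    have : 0 ≤ Y.re ^ 2 / a.re / 20 := by positivity
    linarith)
  set E₁ := Real.exp (-(X.re ^ 2 / a.re / 20)) with hE₁
  set E₂ := Real.exp (-(Y.re ^ 2 / a.re / 20)) with hE₂
  have p1 : 0 < E₁ := Real.exp_pos _
  have p2 : 0 < E₂ := Real.exp_pos _
  set g := G (2 * a.re) X.re Y.re with hg
  refine ⟨hn.trans ?_, ?_, ?_⟩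
  · have : E₁ * E₂ ≤ 1 := mul_le_one₀ e1 p2.le e2
    exact mul_le_mul_of_nonneg_right (by linarith) hG
  · unfold Gcx
    rw [norm_mul]
    calc _ ≤ ‖-X / (2 * a)‖ * (6 * (E₁ * E₂) * g) := by gcongr
      _ = 6 * (‖-X / (2 * a)‖ * E₁) * E₂ * g := by ring
      _ ≤ 6 * (4 / √a.re) * 1 * g := by gcongr
      _ = _ := by ring
  · unfold Gcy
    rw [norm_mul]
    calc _ ≤ ‖-Y / (2 * a)‖ * (6 * (E₁ * E₂) * g) := by gcongr
      _ = 6 * (‖-Y / (2 * a)‖ * E₂) * E₁ * g := by ring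
      _ ≤ 6 * (4 / √a.re) * 1 * g := by gcongr
      _ = _ := by ring

/-- The real case of `ker_bound`. -/
theorem ker_bound_real : ∃ C : ℝ, 0 < C ∧ ∀ a r Y : ℝ, 0 < a →
    G a r Y ≤ C * G (2 * a) r Y ∧ |Gx a r Y| ≤ C / √a * G (2 * a) r Y ∧
    |Gy a r Y| ≤ C / √a * G (2 * a) r Y := by
  obtain ⟨C, hC, h⟩ := ker_bound
  refine ⟨C, hC, fun a r Y ha => ?_⟩
  obtain ⟨h1, h2, h3⟩ := h a r Y (adm_ofReal ha r Y)
  rw [Gc_ofReal] at h1
  rw [Gcx_ofReal] at h2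
  rw [Gcy_ofReal] at h3
  simp only [Complex.norm_real, Complex.ofReal_re, Real.norm_eq_abs] at h1 h2 h3
  exact ⟨(le_abs_self _).trans h1, h2, h3⟩

theorem ker_diffAt {a X Y : C3 → ℂ} {p : C3} (ha : DifferentiableAt ℂ a p)
    (hX : DifferentiableAt ℂ X p) (hY : DifferentiableAt ℂ Y p) (h0 : a p ≠ 0) :
    DifferentiableAt ℂ (fun q => Gc (a q) (X q) (Y q)) p ∧
    DifferentiableAt ℂ (fun q => Gcx (a q) (X q) (Y q)) p ∧
    DifferentiableAt ℂ (fun q => Gcy (a q) (X q) (Y q)) p := by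
  have hπ : (π : ℂ) ≠ 0 := Complex.ofReal_ne_zero.2 Real.pi_ne_zero
  have hi : DifferentiableAt ℂ (fun q => (a q)⁻¹) p := ha.inv h0
  have h1 : DifferentiableAt ℂ (fun q => Gc (a q) (X q) (Y q)) p := by
    unfold Gc
    simp only [div_eq_mul_inv, mul_inv]
    fun_prop
  refine ⟨h1, ?_, ?_⟩
  · unfold Gcx
    refine DifferentiableAt.mul ?_ h1
    simp only [div_eq_mul_inv, mul_inv]
    fun_prop
  · unfold Gcy
    refine DifferentiableAt.mul ?_ h1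
    simp only [div_eq_mul_inv, mul_inv]
    fun_prop

theorem ker_meas {Λ : Type} [MeasurableSpace Λ] {a X Y : Λ → ℂ} (ha : Measurable a)
    (hX : Measurable X) (hY : Measurable Y) :
    Measurable (fun q => Gc (a q) (X q) (Y q)) ∧ Measurable (fun q => Gcx (a q) (X q) (Y q)) ∧
    Measurable (fun q => Gcy (a q) (X q) (Y q)) := by
  have h1 : Measurable (fun q => Gc (a q) (X q) (Y q)) := by
    unfold Gc
    exact (Complex.measurable_exp.comp
      (((hX.pow_const 2).add (hY.pow_const 2)).div (ha.const_mul 4)).neg).div (ha.const_mul _)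
  exact ⟨h1, (hX.neg.div (ha.const_mul 2)).mul h1, (hY.neg.div (ha.const_mul 2)).mul h1⟩

theorem ker_meas_real {Λ : Type} [MeasurableSpace Λ] {a r Y : Λ → ℝ} (ha : Measurable a)
    (hr : Measurable r) (hY : Measurable Y) :
    Measurable (fun q => Gx (a q) (r q) (Y q)) ∧ Measurable (fun q => Gy (a q) (r q) (Y q)) :=
  ⟨(hr.neg.div (ha.const_mul 2)).mul (measurable_G ha hr hY),
    (hY.neg.div (ha.const_mul 2)).mul (measurable_G ha hr hY)⟩

/-- Locally uniform Gaussian domination. -/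
theorem G_loc {b₀ : ℝ} (hb₀ : 0 < b₀) (b₁ R : ℝ) : ∃ K c : ℝ, 0 < K ∧ 0 < c ∧
    ∀ b ∈ Icc b₀ b₁, ∀ x y : ℝ, |x| ≤ R → |y| ≤ R → ∀ w₁ w₂ : ℝ,
      G b (x - w₁) (y - w₂) ≤ K * (Real.exp (-(c * w₁ ^ 2)) * Real.exp (-(c * w₂ ^ 2))) := by
  have hπ := Real.pi_pos
  obtain ⟨m, hm⟩ : ∃ m, m = max b₀ b₁ := ⟨_, rfl⟩
  have hm0 : 0 < m := by rw [hm]; exact lt_max_of_lt_left hb₀
  refine ⟨Real.exp (R ^ 2 / (2 * m)) / (4 * π * b₀), 1 / (8 * m), by positivity, by positivity,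
    fun b hb x y hx hy w₁ w₂ => ?_⟩
  have hb0 : 0 < b := hb₀.trans_le hb.1
  have hbm : b ≤ m := by rw [hm]; exact hb.2.trans (le_max_right _ _)
  have hx2 : x ^ 2 ≤ R ^ 2 := by rw [← sq_abs x]; exact pow_le_pow_left₀ (abs_nonneg _) hx 2
  have hy2 : y ^ 2 ≤ R ^ 2 := by rw [← sq_abs y]; exact pow_le_pow_left₀ (abs_nonneg _) hy 2
  unfold G
  rw [div_mul_eq_mul_div, ← Real.exp_add, ← Real.exp_add]
  refine div_le_div₀ (by positivity) (Real.exp_le_exp.2 ?_) (by positivity) (by gcongr; exact hb.1)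
  have h1 : ((x - w₁) ^ 2 + (y - w₂) ^ 2) / (4 * m) ≤ ((x - w₁) ^ 2 + (y - w₂) ^ 2) / (4 * b) :=
    div_le_div_of_nonneg_left (by positivity) (by positivity) (by linarith)
  have h2 : (w₁ ^ 2 / 2 + w₂ ^ 2 / 2 - 2 * R ^ 2) / (4 * m)
      ≤ ((x - w₁) ^ 2 + (y - w₂) ^ 2) / (4 * m) :=
    div_le_div_of_nonneg_right (by nlinarith [sq_nonneg (2 * x - w₁), sq_nonneg (2 * y - w₂)])
      (by positivity)
  have h3 : R ^ 2 / (2 * m) + (-(1 / (8 * m) * w₁ ^ 2) + -(1 / (8 * m) * w₂ ^ 2))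
      = -((w₁ ^ 2 / 2 + w₂ ^ 2 / 2 - 2 * R ^ 2) / (4 * m)) := by
    field_simp
    ring
  linarith

theorem integrable_gauss2 {c : ℝ} (hc : 0 < c) :
    Integrable fun w : ℝ × ℝ => Real.exp (-(c * w.1 ^ 2)) * Real.exp (-(c * w.2 ^ 2)) := by
  have h : Integrable fun x : ℝ => Real.exp (-(c * x ^ 2)) := by
    simpa only [neg_mul] using integrable_exp_neg_mul_sq hc
  exact h.mul_prod h

/-- The heat equation for the kernel and its first derivatives. -/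
theorem G_hasDerivAt {a : ℝ} (ha : 0 < a) (r Y : ℝ) :
    HasDerivAt (fun r' => G a r' Y) (Gx a r Y) r ∧ HasDerivAt (fun Y' => G a r Y') (Gy a r Y) Y ∧
    HasDerivAt (fun r' => Gx a r' Y) ((r ^ 2 / (4 * a ^ 2) - 1 / (2 * a)) * G a r Y) r ∧
    HasDerivAt (fun Y' => Gy a r Y') ((Y ^ 2 / (4 * a ^ 2) - 1 / (2 * a)) * G a r Y) Y ∧
    HasDerivAt (fun a' => G a' r Y) (((r ^ 2 + Y ^ 2) / (4 * a ^ 2) - 1 / a) * G a r Y) a := by
  have hπ := Real.pi_pos
  have h1 : HasDerivAt (fun r' => G a r' Y) (Gx a r Y) r := by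
    have h := (((((hasDerivAt_pow 2 r).add_const (Y ^ 2)).div_const (4 * a)).neg).exp).div_const
      (4 * π * a)
    refine h.congr_deriv ?_
    unfold Gx G
    simp only [Pi.neg_apply]
    field_simp
    ring
  have h2 : HasDerivAt (fun Y' => G a r Y') (Gy a r Y) Y := by
    have h := (((((hasDerivAt_pow 2 Y).const_add (r ^ 2)).div_const (4 * a)).neg).exp).div_const
      (4 * π * a)
    refine h.congr_deriv ?_
    unfold Gy G
    simp only [Pi.neg_apply]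
    field_simp
    ring
  refine ⟨h1, h2, ?_, ?_, ?_⟩
  · have h := (((hasDerivAt_id r).neg).div_const (2 * a)).mul h1
    refine h.congr_deriv ?_
    unfold Gx
    simp only [Pi.neg_apply, id]
    field_simp
    ring
  · have h := (((hasDerivAt_id Y).neg).div_const (2 * a)).mul h2
    refine h.congr_deriv ?_
    unfold Gy
    simp only [Pi.neg_apply, id]
    field_simp
    ring
  · have h4 : HasDerivAt (fun a' : ℝ => 4 * a') 4 a := by
      simpa using (hasDerivAt_id a).const_mul 4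
    have h5 : HasDerivAt (fun a' : ℝ => 4 * π * a') (4 * π) a := by
      simpa using (hasDerivAt_id a).const_mul (4 * π)
    have h := ((((hasDerivAt_const a (r ^ 2 + Y ^ 2)).div h4 (by positivity)).neg).exp).div h5
      (by positivity)
    refine h.congr_deriv ?_
    unfold G
    simp only [Pi.neg_apply, Pi.div_apply]
    field_simp
    ring

end Pool.Agent.Lib.MP_3d41d4_an
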