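import Pool.Agent.Lib.MP_3d41d4_an.EDv2
import Pool.Agent.Lib.MP_3d41d4_an.Cyl

open MeasureTheory Set Filter Topology Real
open scoped ENNReal

namespace Pool.Agent.Lib.MP_3d41d4_an

theorem EUq2_en {a c : ℝ} (h : |a| ≤ c) : ‖a‖ₑ ≤ ENNReal.ofReal c := by
  rw [Real.enorm_eq_ofReal_abs]
  exact ENNReal.ofReal_le_ofReal h

theorem EUq2_pt {a b c x y : ℝ} (ha : |a| ≤ c) (hb : |b| ≤ c) :
    ‖a * x + b * y‖ₑ ≤ ENNReal.ofReal c * (‖x‖ₑ + ‖y‖ₑ) := by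
  refine (enorm_add_le _ _).trans ?_
  rw [enorm_mul, enorm_mul, mul_add]
  exact add_le_add (mul_le_mul_left (EUq2_en ha) _) (mul_le_mul_left (EUq2_en hb) _)

/-- `L¹` bound on the cylinder. Sketch: `‖dv‖ₑ ≤ ∫⁻ C / √a G (2a) (‖F₁‖ₑ + ‖F₂‖ₑ)`
(`ker_bound_real`), `G = H * H`, `lintegral_gs_conv` after translating the first variable. -/
theorem dv_l1 : ∃ C : ℝ, 0 < C ∧ ∀ (a : ℝ) (F₁ F₂ : ℝ → ℝ → ℝ), 0 < a →
    (Measurable fun p : ℝ × ℝ => F₁ p.1 p.2) → (Measurable fun p : ℝ × ℝ => F₂ p.1 p.2) →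
    (∀ x y, F₁ (x + 2 * π) y = F₁ x y) → (∀ x y, F₂ (x + 2 * π) y = F₂ x y) →
      ∫⁻ p in cyl, ‖dv a F₁ F₂ p.1 p.2‖ₑ ≤ ENNReal.ofReal (C / √a) *
        ∫⁻ p in cyl, (‖F₁ p.1 p.2‖ₑ + ‖F₂ p.1 p.2‖ₑ) := by
  obtain ⟨C, hC, hk⟩ := ker_bound_real
  refine ⟨C * (1 / √(4 * π) * (1 / √(4 * π))) * (π / (1 / 4)), by positivity,
    fun a F₁ F₂ ha m₁ m₂ p₁ p₂ => ?_⟩
  have h2 : 0 < 2 * a := by positivity
  have key := lintegral_gs_conv (c := 1 / 4) (by norm_num) h2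
    (h := fun p => ‖F₁ p.1 p.2‖ₑ + ‖F₂ p.1 p.2‖ₑ) (m₁.enorm.add m₂.enorm) fun x y => by
      simp only [p₁, p₂]
  set K := C / √a * (1 / √(4 * π) * (1 / √(4 * π))) with hK
  have hK0 : 0 ≤ K := by positivity
  have pt : ∀ z : ℝ × ℝ, ‖dv a F₁ F₂ z.1 z.2‖ₑ ≤ ENNReal.ofReal K * ∫⁻ p : ℝ × ℝ,
      ENNReal.ofReal (gs (1 / 4) (2 * a) p.1 * gs (1 / 4) (2 * a) (z.2 - p.2)) *
        (‖F₁ (z.1 + p.1) p.2‖ₑ + ‖F₂ (z.1 + p.1) p.2‖ₑ) := fun z => by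
    rw [← lintegral_const_mul' _ _ ENNReal.ofReal_ne_top]
    refine (enorm_integral_le_lintegral_enorm _).trans ?_
    rw [← lintegral_add_left_eq_self _ ((z.1, 0) : ℝ × ℝ)]
    refine lintegral_mono fun p => ?_
    have e : C / √a * G (2 * a) (z.1 - (z.1 + p.1)) (z.2 - p.2) =
        K * (gs (1 / 4) (2 * a) p.1 * gs (1 / 4) (2 * a) (z.2 - p.2)) := by
      rw [G_eq h2, H_eq h2, H_eq h2, hK, sub_add_cancel_left, gs, neg_sq, ← gs]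
      ring
    simp only [Prod.fst_add, Prod.snd_add, zero_add]
    rw [← mul_assoc, ← ENNReal.ofReal_mul hK0, ← e]
    exact EUq2_pt (hk a _ _ ha).2.1 (hk a _ _ ha).2.2
  refine (lintegral_mono pt).trans_eq ?_
  rw [lintegral_const_mul' _ _ ENNReal.ofReal_ne_top, key, ← mul_assoc, ← ENNReal.ofReal_mul hK0,
    hK]
  congr 2
  ring

/-- The velocity of `D` weighted by the majorant. Sketch: Tonelli;
`∫⁻_{p ∈ cyl} g p ∫⁻_{q ∈ cyl} Kn (p - q) |D q|`, and for fixed `q`,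
`∫⁻_{p ∈ cyl} Kn (p - q) g p = ∫⁻_{w ∈ cyl0} Kn w g (q - w)` by `lintegral_cyl0_refl`, `K_per`,
`K_neg`, `gm_per`; `Kn_gm`. -/
theorem vel_l1 : ∃ C : ℝ, 0 < C ∧ ∀ φ : ℝ → ℝ, Continuous φ → Function.Periodic φ (2 * π) →
    ∀ (c : ℝ) (D : ℝ × ℝ → ℝ), 0 < c → Measurable D →
      ∫⁻ p in cyl, ENNReal.ofReal (gm φ c p.1 p.2) *
          ∫⁻ q in cyl, ENNReal.ofReal (Kn (p.1 - q.1, p.2 - q.2)) * ‖D q‖ₑ
        ≤ ENNReal.ofReal (C * (1 + 1 / √(√c))) * ∫⁻ q in cyl, ‖D q‖ₑ := by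
  obtain ⟨C, hC, hk⟩ := Kn_gm
  refine ⟨C, hC, fun φ hφ pφ c D hc hD => ?_⟩
  have mg : Measurable fun p : ℝ × ℝ => ENNReal.ofReal (gm φ c p.1 p.2) :=
    (gm_meas hφ measurable_const measurable_fst measurable_snd).ennreal_ofReal
  have mk : Measurable fun z : (ℝ × ℝ) × ℝ × ℝ =>
      ENNReal.ofReal (Kn (z.1.1 - z.2.1, z.1.2 - z.2.2)) :=
    (Kn_meas.comp (by fun_prop)).ennreal_ofReal
  have inner : ∀ q : ℝ × ℝ, ∫⁻ p in cyl, ENNReal.ofReal (gm φ c p.1 p.2) *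
      ENNReal.ofReal (Kn (p.1 - q.1, p.2 - q.2)) ≤ ENNReal.ofReal (C * (1 + 1 / √(√c))) := by
    intro q
    rw [← lintegral_cyl0_refl (h := fun p => ENNReal.ofReal (gm φ c p.1 p.2) *
      ENNReal.ofReal (Kn (p.1 - q.1, p.2 - q.2))) (mg.mul (Kn_meas.comp
        ((measurable_fst.sub_const _).prodMk (measurable_snd.sub_const _))).ennreal_ofReal)
      (fun x y => by simp only [gm_per pφ, Kn, add_sub_right_comm, K_per]) q.1 q.2]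
    obtain ⟨h1, h2⟩ := hk φ hφ c hc q.1 q.2
    refine le_trans (le_of_eq ?_) (ENNReal.ofReal_le_ofReal h2)
    rw [ofReal_integral_eq_lintegral_ofReal h1
      (ae_of_all _ fun w => mul_nonneg (Kn_nonneg w) (gm_nonneg φ hc.le _ _))]
    refine lintegral_congr fun w => ?_
    rw [ENNReal.ofReal_mul (Kn_nonneg w), mul_comm]
    simp only [Kn, sub_sub_cancel_left, K_neg, abs_neg]
  simp only [← lintegral_const_mul' _ _ ENNReal.ofReal_ne_top]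
  rw [lintegral_lintegral_swap
    ((mg.comp measurable_fst).mul (mk.mul (hD.enorm.comp measurable_snd))).aemeasurable]
  refine lintegral_mono fun q => ?_
  simp only [← mul_assoc]
  rw [lintegral_mul_const' _ _ enorm_ne_top]
  exact mul_le_mul_left (inner q) _

theorem EUq2_meas {ν T : ℝ} {φ γ : ℝ → ℝ} {V u v : ℝ → ℝ → ℝ → ℝ} (h : IsNS ν T φ γ V u v)
    {s : ℝ} (hs : s ∈ Ioo 0 T) : Measurable fun p : ℝ × ℝ => V s p.1 p.2 :=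
  (h.smooth_ω.continuousOn.comp_continuous (f := fun p : ℝ × ℝ => (s, p)) (by fun_prop)
    fun _ => ⟨hs, trivial⟩).measurable

/-- One time slice of the stability estimate. Sketch:
`u V - u' ω = u (V - ω) + (u - u') ω`, `|u - u'| ≤ ∫⁻ Kn |V - ω|` by the two Biot-Savart laws,
`vel_l1`. -/
theorem flux_l1 : ∃ C : ℝ, 0 < C ∧ ∀ {ν T N : ℝ} {φ γ : ℝ → ℝ} {V u v ω u' v' : ℝ → ℝ → ℝ → ℝ},
    Continuous φ → Function.Periodic φ (2 * π) → IsNS ν T φ γ V u v → IsNS ν T φ γ ω u' v' →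
    ∀ s ∈ Ioo 0 T, ∀ c R : ℝ, 0 < c → 0 ≤ N → 0 ≤ R → (∀ x y, |ω s x y| ≤ N * gm φ c x y) →
      (∀ x y, |u s x y| ≤ R ∧ |v s x y| ≤ R) →
      ∫⁻ p in cyl, (‖u s p.1 p.2 * V s p.1 p.2 - u' s p.1 p.2 * ω s p.1 p.2‖ₑ +
          ‖v s p.1 p.2 * V s p.1 p.2 - v' s p.1 p.2 * ω s p.1 p.2‖ₑ)
        ≤ ENNReal.ofReal (2 * R + C * N * (1 + 1 / √(√c))) *
          ∫⁻ p in cyl, ‖V s p.1 p.2 - ω s p.1 p.2‖ₑ := by
  obtain ⟨C, hC, hk⟩ := vel_l1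
  refine ⟨C, hC, fun {ν T N φ γ V u v ω u' v'} hφ pφ h h' s hs c R hc hN hR hω huv => ?_⟩
  have mD : Measurable fun p : ℝ × ℝ => V s p.1 p.2 - ω s p.1 p.2 :=
    (EUq2_meas h hs).sub (EUq2_meas h' hs)
  have vel : ∀ p : ℝ × ℝ, ‖u s p.1 p.2 - u' s p.1 p.2‖ₑ + ‖v s p.1 p.2 - v' s p.1 p.2‖ₑ ≤
      ∫⁻ q in cyl, ENNReal.ofReal (Kn (p.1 - q.1, p.2 - q.2)) *
        ‖V s q.1 q.2 - ω s q.1 q.2‖ₑ := fun p => by
    obtain ⟨a1, a2, a3, a4⟩ := h.biot s hs p.1 p.2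
    obtain ⟨b1, b2, b3, b4⟩ := h'.biot s hs p.1 p.2
    rw [a3, a4, b3, b4, ← integral_sub a1 b1, ← integral_sub a2 b2]
    refine (add_le_add (enorm_integral_le_lintegral_enorm _)
      (enorm_integral_le_lintegral_enorm _)).trans_eq ?_
    refine (lintegral_add_left' (a1.sub b1).aestronglyMeasurable.enorm _).symm.trans
      (lintegral_congr fun q => ?_)
    rw [Kn, ENNReal.ofReal_add (abs_nonneg _) (abs_nonneg _), add_mul, ← Real.enorm_eq_ofReal_abs,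
      ← Real.enorm_eq_ofReal_abs, ← enorm_mul, ← enorm_mul, mul_sub, mul_sub]
    rfl
  have one : ∀ {a a' b b' : ℝ}, |a| ≤ R → ‖a * b - a' * b'‖ₑ ≤
      ENNReal.ofReal R * ‖b - b'‖ₑ + ‖b'‖ₑ * ‖a - a'‖ₑ := fun {a a' b b'} ha => by
    rw [show a * b - a' * b' = a * (b - b') + b' * (a - a') by ring]
    refine (enorm_add_le _ _).trans ?_
    rw [enorm_mul, enorm_mul]
    exact add_le_add_left (mul_le_mul_left (EUq2_en ha) _) _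
  have pt : ∀ p : ℝ × ℝ, ‖u s p.1 p.2 * V s p.1 p.2 - u' s p.1 p.2 * ω s p.1 p.2‖ₑ +
      ‖v s p.1 p.2 * V s p.1 p.2 - v' s p.1 p.2 * ω s p.1 p.2‖ₑ ≤
      ENNReal.ofReal (2 * R) * ‖V s p.1 p.2 - ω s p.1 p.2‖ₑ + ENNReal.ofReal N *
        (ENNReal.ofReal (gm φ c p.1 p.2) * ∫⁻ q in cyl,
          ENNReal.ofReal (Kn (p.1 - q.1, p.2 - q.2)) * ‖V s q.1 q.2 - ω s q.1 q.2‖ₑ) := fun p => by
    refine (add_le_add (one (huv _ _).1) (one (huv _ _).2)).trans ?_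
    rw [add_add_add_comm, ← add_mul, ← mul_add, ← ENNReal.ofReal_add hR hR, ← two_mul, ← mul_assoc,
      ← ENNReal.ofReal_mul hN]
    exact add_le_add_right (mul_le_mul' (EUq2_en (hω _ _)) (vel p)) _
  refine (lintegral_mono pt).trans ?_
  rw [lintegral_add_left (mD.enorm.const_mul _), lintegral_const_mul' _ _ ENNReal.ofReal_ne_top,
    lintegral_const_mul' _ _ ENNReal.ofReal_ne_top,
    ENNReal.ofReal_add (by positivity) (by positivity), add_mul, mul_right_comm C, mul_comm _ N,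
    ENNReal.ofReal_mul hN, mul_assoc]
  exact add_le_add_right (mul_le_mul_right (hk φ hφ pφ c _ hc mD) _) _

/-- The velocity of a solution is periodic (`IsNS.biot`, `K_per`). -/
theorem IsNS.per_uv {ν T : ℝ} {φ γ : ℝ → ℝ} {V u v : ℝ → ℝ → ℝ → ℝ} (h : IsNS ν T φ γ V u v)
    {s : ℝ} (hs : s ∈ Ioo 0 T) (x y : ℝ) :
    u s (x + 2 * π) y = u s x y ∧ v s (x + 2 * π) y = v s x y := by
  rw [(h.biot s hs _ _).2.2.1, (h.biot s hs _ _).2.2.2, (h.biot s hs x y).2.2.1,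
    (h.biot s hs x y).2.2.2]
  simp only [add_sub_right_comm, K_per, and_self]

end Pool.Agent.Lib.MP_3d41d4_an
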