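import Pool.Agent.Lib.MP_3d41d4_an.EUq1
import Pool.Agent.Lib.MP_3d41d4_an.EUq2
import Pool.Agent.Lib.MP_3d41d4_an.ETime

open MeasureTheory Set Filter Topology Real
open scoped ENNReal

namespace Pool.Agent.Lib.MP_3d41d4_an

theorem EUq3_meas {T : ℝ} {P : ℝ → ℝ → ℝ → ℝ}
    (h : ContinuousOn (fun p : ℝ × ℝ × ℝ => P p.1 p.2.1 p.2.2) (Ioo 0 T ×ˢ univ)) :
    ∃ P' : ℝ → ℝ → ℝ → ℝ, (Measurable fun p : ℝ × ℝ × ℝ => P' p.1 p.2.1 p.2.2) ∧
      ∀ s ∈ Ioo 0 T, P' s = P s := by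
  classical
  exact ⟨fun s x y => (Ioo 0 T ×ˢ univ).piecewise (fun p : ℝ × ℝ × ℝ => P p.1 p.2.1 p.2.2)
    (fun _ => 0) (s, x, y), h.measurable_piecewise continuousOn_const
      (measurableSet_Ioo.prod MeasurableSet.univ),
    fun s hs => funext₂ fun x y => piecewise_eq_of_mem _ _ _ ⟨hs, trivial⟩⟩

theorem EUq3_hc (a : ℝ) {f : ℝ → ℝ → ℝ} (hf : Measurable fun p : ℝ × ℝ => f p.1 p.2) :
    Measurable fun z : ℝ × ℝ => hc a f z.1 z.2 := by
  have hm : Measurable fun l : (ℝ × ℝ) × ℝ × ℝ =>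
      G a (l.1.1 - l.2.1) (l.1.2 - l.2.2) * f l.2.1 l.2.2 :=
    (measurable_G measurable_const (by fun_prop) (by fun_prop)).mul (hf.comp measurable_snd)
  exact (hm.stronglyMeasurable.integral_prod_right' (ν := volume)).measurable

/-- At a fixed time the fluxes are continuous and bounded. -/
theorem EUq3_flux {ν T s : ℝ} {φ γ : ℝ → ℝ} {V u v : ℝ → ℝ → ℝ → ℝ} (h : IsNS ν T φ γ V u v)
    (hs : s ∈ Ioo 0 T) : (Measurable fun p : ℝ × ℝ => u s p.1 p.2 * V s p.1 p.2) ∧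
      (Measurable fun p : ℝ × ℝ => v s p.1 p.2 * V s p.1 p.2) ∧
      ∃ B : ℝ, (∀ x y, |u s x y * V s x y| ≤ B) ∧ ∀ x y, |v s x y * V s x y| ≤ B := by
  have cV := T2_slice h.smooth_ω.continuousOn hs
  obtain ⟨B, hB⟩ := h.bdd s hs
  obtain ⟨D, hD⟩ := h.vel 1 one_pos
  exact ⟨((T2_slice h.smooth_u.continuousOn hs).mul cV).measurable,
    ((T2_slice h.smooth_v.continuousOn hs).mul cV).measurable, (1 / √s + D) * B,
    fun x y => T3_abs (hD s hs x y).1 (hB x y), fun x y => T3_abs (hD s hs x y).2 (hB x y)⟩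

/-- One step of the stability estimate. Sketch: subtract the two formulas `isNS_duhamel`
(`hc_sub`, `dv_sub`; at a fixed time all functions are bounded and continuous), bound the norm
of the time integral by the `lintegral` of the norm, Tonelli in `(p, s)` (extend the fluxes by
zero outside `Ioo 0 T` to make them measurable, `dv_meas`), `dv_l1`, `flux_l1`, `tw_nu`; the
bound does not depend on `κ`; Fatou along `κ = 1 / (n + 1)` (`lintegral_liminf_le`,
`hc_tendsto'`). -/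
theorem stab_step {ν T N M : ℝ} {φ γ : ℝ → ℝ} {V u v ω u' v' : ℝ → ℝ → ℝ → ℝ} (hν : 0 < ν)
    (hd : Dat M φ γ) (hV : IsNS ν T φ γ V u v) (hω : IsNS ν T φ γ ω u' v') (hN : 0 ≤ N)
    (hb : ∀ t ∈ Ioo 0 T, ∀ x y, |ω t x y| ≤ N * gm φ (2 * (ν * t)) x y) :
    ∃ C : ℝ, 0 < C ∧ ∀ ε D : ℝ, 0 ≤ ε → 0 ≤ D →
      (∀ s ∈ Ioo 0 T, ∀ x y, |u s x y| ≤ ε / √s + D ∧ |v s x y| ≤ ε / √s + D) →
      ∀ t ∈ Ioo 0 T, ∫⁻ p in cyl, ‖V t p.1 p.2 - ω t p.1 p.2‖ₑ ≤ ∫⁻ s in Ioo 0 t,
        ENNReal.ofReal (C / √(t - s) * (1 + ε / √s + D + 1 / √(√s))) *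
          ∫⁻ p in cyl, ‖V s p.1 p.2 - ω s p.1 p.2‖ₑ := by
  obtain ⟨C₁, hC₁, h1⟩ := dv_l1
  obtain ⟨C₂, hC₂, h2⟩ := flux_l1
  obtain ⟨C₃, hC₃, h3, h4⟩ := tw_nu hν
  obtain ⟨P, mP, eP⟩ := EUq3_meas (P := fun s x y => u s x y * V s x y - u' s x y * ω s x y)
    ((hV.smooth_u.continuousOn.mul hV.smooth_ω.continuousOn).sub
      (hω.smooth_u.continuousOn.mul hω.smooth_ω.continuousOn))
  obtain ⟨Q, mQ, eQ⟩ := EUq3_meas (P := fun s x y => v s x y * V s x y - v' s x y * ω s x y)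
    ((hV.smooth_v.continuousOn.mul hV.smooth_ω.continuousOn).sub
      (hω.smooth_v.continuousOn.mul hω.smooth_ω.continuousOn))
  refine ⟨C₁ * C₃ * (2 + C₂ * N * C₃), by positivity, fun ε D hε hD hu t ht => ?_⟩
  have hsub : ∀ s ∈ Ioo 0 t, s ∈ Ioo 0 T := fun s hs => ⟨hs.1, hs.2.trans ht.2⟩
  have cV := T2_slice hV.smooth_ω.continuousOn ht
  have cω := T2_slice hω.smooth_ω.continuousOn ht
  obtain ⟨B, hB⟩ := hV.bdd t ht
  obtain ⟨B', hB'⟩ := hω.bdd t ht
  have stepA : ∀ κ, 0 < κ → ∫⁻ z in cyl, ‖hc κ (fun x y => V t x y - ω t x y) z.1 z.2‖ₑ ≤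
      ∫⁻ s in Ioo 0 t, ENNReal.ofReal (C₁ * C₃ * (2 + C₂ * N * C₃) / √(t - s) *
        (1 + ε / √s + D + 1 / √(√s))) * ∫⁻ p in cyl, ‖V s p.1 p.2 - ω s p.1 p.2‖ₑ := by
    intro κ hκ
    have ha : ∀ s ∈ Ioo 0 t, 0 < ν * (t - s) + κ := fun s hs => by
      have := sub_pos.2 hs.2
      positivity
    have hm : Measurable fun l : (ℝ × ℝ) × ℝ =>
        ‖dv (ν * (t - l.2) + κ) (P l.2) (Q l.2) l.1.1 l.1.2‖ₑ :=
      (dv_meas (F₁ := fun l : (ℝ × ℝ) × ℝ => P l.2) (F₂ := fun l : (ℝ × ℝ) × ℝ => Q l.2)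
        (by fun_prop) (by fun_prop) (by fun_prop)
        (mP.comp (f := fun p : ((ℝ × ℝ) × ℝ) × ℝ × ℝ => (p.1.2, p.2)) (by fun_prop))
        (mQ.comp (f := fun p : ((ℝ × ℝ) × ℝ) × ℝ × ℝ => (p.1.2, p.2)) (by fun_prop))).enorm
    calc _ ≤ ∫⁻ z in cyl, ∫⁻ s in Ioo 0 t, ‖dv (ν * (t - s) + κ) (P s) (Q s) z.1 z.2‖ₑ := by
          refine lintegral_mono fun z => ?_
          obtain ⟨i1, e1⟩ := isNS_duhamel hν hd hV ht hκ z.1 z.2
          obtain ⟨i2, e2⟩ := isNS_duhamel hν hd hω ht hκ z.1 z.2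
          rw [hc_sub hκ cV.measurable cω.measurable hB hB', e1, e2, sub_sub_sub_cancel_left,
            enorm_sub_rev, ← integral_sub i1 i2]
          refine (enorm_integral_le_lintegral_enorm _).trans
            (setLIntegral_mono' measurableSet_Ioo fun s hs => le_of_eq ?_)
          obtain ⟨m1, m2, b, b1, b2⟩ := EUq3_flux hV (hsub s hs)
          obtain ⟨m3, m4, b', b3, b4⟩ := EUq3_flux hω (hsub s hs)
          rw [eP s (hsub s hs), eQ s (hsub s hs), dv_sub (ha s hs) m1 m2 m3 m4 b1 b2 b3 b4]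
      _ = ∫⁻ s in Ioo 0 t, ∫⁻ z in cyl, ‖dv (ν * (t - s) + κ) (P s) (Q s) z.1 z.2‖ₑ :=
          lintegral_lintegral_swap hm.aemeasurable
      _ ≤ _ := by
          refine setLIntegral_mono' measurableSet_Ioo fun s hs => ?_
          have hs' := hsub s hs
          have hs0 := hs.1
          have hR : 0 ≤ ε / √s + D := by positivity
          refine (h1 _ _ _ (ha s hs) (mP.comp (measurable_const.prodMk measurable_id))
            (mQ.comp (measurable_const.prodMk measurable_id))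
            (fun x y => by simp only [eP s hs', hV.per s hs', hω.per s hs', hV.per_uv hs',
              hω.per_uv hs'])
            (fun x y => by simp only [eQ s hs', hV.per s hs', hω.per s hs', hV.per_uv hs',
              hω.per_uv hs'])).trans ?_
          rw [eP s hs', eQ s hs']
          refine (mul_le_mul' le_rfl (h2 hd.cφ hd.pφ hV hω s hs' _ _ (by positivity) hN hR
            (hb s hs') (hu s hs'))).trans ?_
          rw [← mul_assoc, ← ENNReal.ofReal_mul (by positivity)]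
          refine mul_le_mul' (ENNReal.ofReal_le_ofReal ?_) le_rfl
          have k1 := h4 _ _ (sub_pos.2 hs.2) (le_add_of_nonneg_right hκ.le)
          have k2 := mul_le_mul_of_nonneg_left (h3 s hs0) (mul_nonneg hC₂.le hN)
          have k3 : 0 ≤ 1 / √(√s) := by positivity
          have k4 : 0 ≤ C₂ * N * C₃ := by positivity
          have k5 : 2 * (ε / √s + D) + C₂ * N * (1 + 1 / √(√(2 * (ν * s)))) ≤
              (2 + C₂ * N * C₃) * (1 + ε / √s + D + 1 / √(√s)) := by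
            nlinarith [mul_nonneg k4 hR]
          calc _ = C₁ * (1 / √(ν * (t - s) + κ)) *
                (2 * (ε / √s + D) + C₂ * N * (1 + 1 / √(√(2 * (ν * s))))) := by ring
            _ ≤ C₁ * (C₃ * (1 / √(t - s))) *
                ((2 + C₂ * N * C₃) * (1 + ε / √s + D + 1 / √(√s))) :=
              mul_le_mul (mul_le_mul_of_nonneg_left k1 hC₁.le) k5 (by positivity) (by positivity)
            _ = _ := by ring
  have hlim : ∀ z : ℝ × ℝ, ‖V t z.1 z.2 - ω t z.1 z.2‖ₑ = liminf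
      (fun κ => ‖hc κ (fun x y => V t x y - ω t x y) z.1 z.2‖ₑ) (𝓝[>] (0 : ℝ)) := fun z =>
    ((hc_tendsto' (f := fun x y => V t x y - ω t x y) (cV.sub cω)
      (fun x y => (abs_sub _ _).trans (add_le_add (hB x y) (hB' x y))) z.1
      z.2).enorm.liminf_eq).symm
  refine (lintegral_congr hlim).trans_le ((lintegral_liminf_le fun κ =>
    (EUq3_hc κ (f := fun x y => V t x y - ω t x y) (cV.sub cω).measurable).enorm).trans ?_)
  refine liminf_le_of_frequently_le' (Eventually.frequently ?_)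
  filter_upwards [self_mem_nhdsWithin] with κ hκ using stepA κ hκ

/-- `gronwall_iter` with a constant sequence on `(0, t]`; a continuous periodic function with
zero `L¹` norm on `cyl` vanishes. -/
theorem isNS_unique_of_bd {ν T N M : ℝ} {φ γ : ℝ → ℝ} {V u v ω u' v' : ℝ → ℝ → ℝ → ℝ}
    (hν : 0 < ν) (hd : Dat M φ γ) (hV : IsNS ν T φ γ V u v) (hω : IsNS ν T φ γ ω u' v')
    (hN : 0 ≤ N) (hb : ∀ t ∈ Ioo 0 T, ∀ x y, |ω t x y| ≤ N * gm φ (2 * (ν * t)) x y) :
    ∀ t ∈ Ioo 0 T, V t = ω t := by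
  intro t ht
  obtain ⟨C, hC, h⟩ := stab_step hν hd hV hω hN hb
  obtain ⟨A, hA⟩ := hV.mass
  obtain ⟨A', hA'⟩ := hω.mass
  have hsub : ∀ s ∈ Ioc 0 t, s ∈ Ioo 0 T := fun s hs => ⟨hs.1, hs.2.trans_lt ht.2⟩
  have h1 := gronwall_iter (E₀ := A + A')
    (e := fun _ s => ∫⁻ p in cyl, ‖V s p.1 p.2 - ω s p.1 p.2‖ₑ) ht.1 hC
    (fun s hs => by
      obtain ⟨i1, l1⟩ := hA s (hsub s hs)
      obtain ⟨i2, l2⟩ := hA' s (hsub s hs)
      refine (ofReal_integral_norm_eq_lintegral_enorm (i1.sub i2)).symm.trans_le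
        (ENNReal.ofReal_le_ofReal ((integral_mono (i1.sub i2).norm (i1.abs.add i2.abs)
          fun p => abs_sub _ _).trans ?_))
      simp only [Pi.add_apply]
      rw [integral_add i1.abs i2.abs]
      exact add_le_add l1 l2)
    (fun ε hε => by
      obtain ⟨D, hD⟩ := hV.vel ε hε
      refine ⟨max D 0, le_max_right _ _, fun _ s hs => h ε _ hε.le (le_max_right _ _)
        (fun r hr x y => ?_) s (hsub s hs)⟩
      have := le_max_left D 0
      exact ⟨by linarith [(hD r hr x y).1], by linarith [(hD r hr x y).2]⟩) t ⟨ht.1, le_rfl⟩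
  have cd := (T2_slice hV.smooth_ω.continuousOn ht).sub (T2_slice hω.smooth_ω.continuousOn ht)
  have h2 := (lintegral_eq_zero_iff cd.measurable.enorm).1
    (tendsto_nhds_unique tendsto_const_nhds h1)
  have h3 := Measure.eqOn_of_ae_eq (μ := volume) (s := cyl) (g := fun _ => 0)
    (h2.mono fun p hp => enorm_eq_zero.1 hp) cd.continuousOn continuousOn_const (by
      unfold cyl
      rw [interior_prod_eq, closure_prod_eq, interior_Ioc, closure_Ioo (by positivity),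
        interior_univ, closure_univ]
      exact prod_mono Ioc_subset_Icc_self le_rfl)
  funext x y
  have hper : Function.Periodic (fun x => V t x y - ω t x y) (2 * π) := fun x => by
    simp only [hV.per t ht, hω.per t ht]
  obtain ⟨x', hx', e⟩ := hper.exists_mem_Ioc (by positivity) x 0
  rw [zero_add] at hx'
  exact sub_eq_zero.1 (e.trans (h3 (x := (x', y)) ⟨hx', trivial⟩))

end Pool.Agent.Lib.MP_3d41d4_an
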