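import Pool.Agent.Lib.MP_3d41d4_an.ENS
import Pool.Agent.Lib.MP_3d41d4_an.EUq3

open MeasureTheory Set Filter Topology Real
open scoped ENNReal

namespace Pool.Agent.Lib.MP_3d41d4_an

theorem exists_dat {φ γ : ℝ → ℝ} (cφ : Continuous φ) (pφ : Function.Periodic φ (2 * π))
    (cγ : Continuous γ) (pγ : Function.Periodic γ (2 * π)) : ∃ M, Dat M φ γ := by
  have h2 : (2 * π : ℝ) ≠ 0 := by positivity
  obtain ⟨A, hA⟩ := (pφ.isBounded_of_continuous h2 cφ).exists_norm_le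
  obtain ⟨B, hB⟩ := (pγ.isBounded_of_continuous h2 cγ).exists_norm_le
  refine ⟨max 1 (max A B), le_max_left _ _, cφ, pφ, cγ, pγ, fun x => ?_, fun x => ?_⟩
  · exact (hA _ (mem_range_self x)).trans ((le_max_left _ _).trans (le_max_right _ _))
  · exact (hB _ (mem_range_self x)).trans ((le_max_right _ _).trans (le_max_right _ _))

/-- Global existence and uniqueness in the class `IsNS`. -/
theorem ns_exists_unique {ν : ℝ} (hν : 0 < ν) {φ γ : ℝ → ℝ} (cφ : Continuous φ)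
    (pφ : Function.Periodic φ (2 * π)) (cγ : Continuous γ) (pγ : Function.Periodic γ (2 * π)) :
    ∃ ω u v : ℝ → ℝ → ℝ → ℝ, ∀ T > 0, IsNS ν T φ γ ω u v ∧
      ∀ ω' u' v', IsNS ν T φ γ ω' u' v' → ∀ t ∈ Ioo 0 T, ω' t = ω t := by
  obtain ⟨M, hd⟩ := exists_dat cφ pφ cγ pγ
  choose N w hw using fun T : ℝ => mild_exists hν hd T
  have key : ∀ T : ℝ, ∀ t ∈ Ioo 0 T, w (t + 1) t = w T t := fun T t ht =>
    mild_unique hν cφ ((hw (t + 1)).mono_T (min_le_left _ T)) ((hw T).mono_T (min_le_right _ _)) t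
      ⟨ht.1, lt_min (lt_add_one t) ht.2⟩
  refine ⟨fun t => w (t + 1) t, fun t => U1 (w (t + 1) t), fun t => U2 (w (t + 1) t),
    fun T hT => ⟨?_, fun ω' u' v' h' t ht => ?_⟩⟩
  · exact (mild_isNS hν hT hd (hw T)).congr hT (key T) (fun t ht => by rw [key T t ht])
      fun t ht => by rw [key T t ht]
  · exact (isNS_unique_of_bd hν hd h' (mild_isNS hν hT hd (hw T)) (hw T).nonneg (hw T).bd t
      ht).trans (key T t ht).symm

end Pool.Agent.Lib.MP_3d41d4_an
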