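import Pool.Agent.Lib.MP_3d41d4_an.EGlob
import Pool.Agent.Lib.MP_3d41d4_an.EInit

open MeasureTheory Set Filter Topology Real
open scoped ENNReal

namespace Pool.Agent.Lib.MP_3d41d4_an

variable {ν T N M : ℝ} {φ γ : ℝ → ℝ} {ω : ℝ → ℝ → ℝ → ℝ}

/-- Assembly: `mild_Cl`, `mild_pde`, `mild_div_curl`, `U_biot`, `Mild.l1`, `gm_le`, `U_le`,
`quarter_le`, `mild_init`. -/
theorem mild_isNS (hν : 0 < ν) (hT : 0 < T) (hd : Dat M φ γ) (h : Mild ν T N φ γ ω) :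
    IsNS ν T φ γ ω (fun t => U1 (ω t)) (fun t => U2 (ω t)) := by
  have hc := mild_Cl hν hd h
  have hp := mild_pde hν hd h
  have hb : ∀ t ∈ Ioo 0 T, ∀ x y, |ω t x y| ≤ N * (1 / √(2 * (ν * t))) := fun t ht x y =>
    (h.bd t ht x y).trans (mul_le_mul_of_nonneg_left
      (gm_le hd.cφ (by have := ht.1; positivity) x y) h.nonneg)
  obtain ⟨C₀, -, h₀⟩ := U_biot
  obtain ⟨C, hC, h₁⟩ := U_le hν
  refine ⟨h.per, hc.cω, hc.cu, hc.cv, hp.pde, hp.div,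
    fun t ht x y => (mild_div_curl hν hd h ht x y).2, fun t ht x y => ?_,
    ⟨_, fun t ht => h.l1 hν hd.cφ ht⟩, fun t ht => ⟨_, hb t ht⟩, fun ε hε => ?_,
    fun η hη => mild_init hν hT hd h hη⟩
  · obtain ⟨a1, a2, a3, a4, -⟩ := h₀ (ω t) _ _ (h.slice t) (h.per t ht) (hb t ht)
      (h.l1 hν hd.cφ ht).1 (h.l1 hν hd.cφ ht).2 x y
    exact ⟨a1, a2, a3, a4⟩
  · have hK : 0 ≤ C * N := mul_nonneg hC.le h.nonneg
    obtain ⟨D, hD, h₂⟩ := quarter_le (ε := ε / (C * N + 1)) (by positivity)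
    refine ⟨C * N * (1 + D), fun t ht x y => ?_⟩
    have h3 : C * N * (1 + 1 / √(√t)) ≤ ε / √t + C * N * (1 + D) := by
      have h4 := mul_le_mul_of_nonneg_left (h₂ t ht.1) hK
      have h5 : C * N * (ε / (C * N + 1) / √t) ≤ ε / √t := by
        rw [← mul_div_assoc, ← mul_div_assoc]
        refine div_le_div_of_nonneg_right ?_ (Real.sqrt_nonneg _)
        rw [div_le_iff₀ (by positivity)]
        nlinarith
      nlinarith
    have h6 := h₁ φ hd.cφ (ω t) N t (h.slice t) h.nonneg ht.1 (h.bd t ht) x y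
    exact ⟨h6.1.trans h3, h6.2.trans h3⟩

/-- `IsNS` only depends on the values on `(0, T)`. -/
theorem IsNS.congr {u v ω' u' v' : ℝ → ℝ → ℝ → ℝ} (hT : 0 < T) (h : IsNS ν T φ γ ω u v)
    (eω : ∀ t ∈ Ioo 0 T, ω' t = ω t) (eu : ∀ t ∈ Ioo 0 T, u' t = u t)
    (ev : ∀ t ∈ Ioo 0 T, v' t = v t) : IsNS ν T φ γ ω' u' v' := by
  have c : ∀ {n : WithTop ℕ∞} {f f' : ℝ → ℝ → ℝ → ℝ}, (∀ t ∈ Ioo 0 T, f' t = f t) →
      ContDiffOn ℝ n (fun p : ℝ × ℝ × ℝ => f p.1 p.2.1 p.2.2) (Ioo 0 T ×ˢ univ) →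
      ContDiffOn ℝ n (fun p : ℝ × ℝ × ℝ => f' p.1 p.2.1 p.2.2) (Ioo 0 T ×ˢ univ) :=
    fun e hf => hf.congr fun p hp => by rw [e _ hp.1]
  obtain ⟨A, hA⟩ := h.mass
  refine ⟨fun t ht => eω t ht ▸ h.per t ht, c eω h.smooth_ω, c eu h.smooth_u, c ev h.smooth_v,
    fun t ht x y => ?_, fun t ht x y => ?_, fun t ht x y => ?_, fun t ht x y => ?_,
    ⟨A, fun t ht => eω t ht ▸ hA t ht⟩, fun t ht => eω t ht ▸ h.bdd t ht, fun ε hε => ?_,
    fun η hη => (h.init η hη).congr' ?_⟩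
  · have e : (fun s => ω' s x y) =ᶠ[𝓝 t] fun s => ω s x y := by
      filter_upwards [isOpen_Ioo.mem_nhds ht] with s hs
      rw [eω s hs]
    rw [e.deriv_eq, eω t ht, eu t ht, ev t ht]
    exact h.pde t ht x y
  · rw [eu t ht, ev t ht]
    exact h.div_free t ht x y
  · rw [eω t ht, eu t ht, ev t ht]
    exact h.curl t ht x y
  · rw [eω t ht, eu t ht, ev t ht]
    exact h.biot t ht x y
  · obtain ⟨D, hD⟩ := h.vel ε hε
    exact ⟨D, fun t ht => by rw [eu t ht, ev t ht]; exact hD t ht⟩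
  · filter_upwards [Ioo_mem_nhdsGT hT] with s hs
    rw [eω s hs]

end Pool.Agent.Lib.MP_3d41d4_an
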