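import Pool.Agent.Lib.MP_3d41d4_an.ESemi
import Pool.Agent.Lib.MP_3d41d4_an.EGen
import Pool.Agent.Lib.MP_3d41d4_an.ECl
import Pool.Agent.Lib.MP_3d41d4_an.EDC3

open MeasureTheory Set Filter Topology Real
open scoped ENNReal

namespace Pool.Agent.Lib.MP_3d41d4_an

variable {ν T N M : ℝ} {φ γ : ℝ → ℝ} {ω : ℝ → ℝ → ℝ → ℝ}

/-- `Sm.dec`, `U_hasDerivAt`, `div_curl`. -/
theorem mild_div_curl (hν : 0 < ν) (hd : Dat M φ γ) (h : Mild ν T N φ γ ω) {t : ℝ}
    (ht : t ∈ Ioo 0 T) (x y : ℝ) :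
    dX (fun t => U1 (ω t)) t x y + dY (fun t => U2 (ω t)) t x y = 0 ∧
    dX (fun t => U2 (ω t)) t x y - dY (fun t => U1 (ω t)) t x y = ω t x y := by
  obtain ⟨r, B, hr, -, -, hS, -⟩ := (mild_Cl hν hd h).loc t ht
  have hD := hS.dec (t := t) ⟨by linarith, by linarith⟩ (h.per t ht)
  obtain ⟨d1, d2, d3, d4⟩ := U_hasDerivAt hD x y
  simp only [dX, dY] at d1 d2 d3 d4 ⊢
  rw [d1.deriv, d2.deriv, d3.deriv, d4.deriv]
  exact div_curl hD x y

/-- Averages of a function with a limit at the corner. -/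
theorem avg_tendsto {g : ℝ × ℝ → ℝ} {t L ν : ℝ} (hν : 0 < ν)
    (hg : Tendsto g ((𝓝[>] 0) ×ˢ 𝓝 t) (𝓝 L))
    (hi : ∀ᶠ k in 𝓝[>] (0 : ℝ), IntegrableOn (fun s => g (ν * (t + k - s), s)) (Ioo t (t + k))) :
    Tendsto (fun k => (∫ s in Ioo t (t + k), g (ν * (t + k - s), s)) / k) (𝓝[>] 0) (𝓝 L) := by
  rw [Metric.tendsto_nhds] at hg ⊢
  intro ε hε
  obtain ⟨pa, ha, pb, hb, hab⟩ := Filter.eventually_prod_iff.1 (hg (ε / 2) (by positivity))
  obtain ⟨δ₁, h1, ha'⟩ := (mem_nhdsGT_iff_exists_Ioo_subset).1 ha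
  obtain ⟨δ₂, h2, hb'⟩ := Metric.eventually_nhds_iff.1 hb
  have h1' : 0 < δ₁ / ν := div_pos h1 hν
  filter_upwards [hi, Ioo_mem_nhdsGT h1', Ioo_mem_nhdsGT h2] with k hk k1 k2
  have hv : (volume : Measure ℝ).real (Ioo t (t + k)) = k := by
    rw [Real.volume_real_Ioo_of_le (by linarith [k1.1]), add_sub_cancel_left]
  have hn := norm_setIntegral_le_of_norm_le_const (μ := volume) (s := Ioo t (t + k))
    (f := fun s => g (ν * (t + k - s), s) - L) (C := ε / 2) (by simp) fun s hs => by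
      have q := (lt_div_iff₀' hν).1 k1.2
      refine (hab (ha' ⟨mul_pos hν (sub_pos.2 hs.2), ?_⟩) (hb' ?_)).le
      · nlinarith [hs.1]
      · rw [Real.dist_eq, abs_of_pos (sub_pos.2 hs.1)]
        linarith [hs.2, k2.2]
  rw [integral_sub hk (integrableOn_const (by simp)), setIntegral_const, hv, smul_eq_mul,
    Real.norm_eq_abs] at hn
  have hk0 := k1.1
  rw [Real.dist_eq, div_sub' hk0.ne', abs_div, abs_of_pos hk0, div_lt_iff₀ hk0]
  nlinarith

theorem EPde_abs {a b A B : ℝ} (ha : |a| ≤ A) (hb : |b| ≤ B) : |a * b| ≤ A * B := by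
  rw [abs_mul]
  exact mul_le_mul ha hb (abs_nonneg _) ((abs_nonneg _).trans ha)

theorem EPde_bd {κ B t : ℝ} {I : Set ℝ} {f : ℝ → ℝ → ℝ → ℝ} (h : Sm0 κ I B f) (hκ : 0 ≤ κ)
    (hB : 0 ≤ B) (ht : t ∈ I) (x y : ℝ) : |f t x y| ≤ B :=
  (h.bd t ht x y).trans (mul_le_of_le_one_right hB
    (Real.exp_le_one_iff.2 (neg_nonpos.2 (by positivity))))

/-- The vorticity equation. Sketch: the slope `(ω (t + k) - ω t) / k` tends to `dT ω` as
`k → 0+`; by `mild_restart` it is `ν (hc (ν k) - id) / (ν k)` minus an average of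
`duh a (ω s) = hc a (div (u ω) s)` (`dv_parts` on the interval given by `Cl.loc`);
`hc_generator`, `hc_tendsto`, `avg_tendsto`, product rule and `mild_div_curl`. -/
theorem mild_pde (hν : 0 < ν) (hd : Dat M φ γ) (h : Mild ν T N φ γ ω) :
    Pde ν T ω (fun t => U1 (ω t)) (fun t => U2 (ω t)) := by
  refine ⟨fun t ht x y => ?_, fun t ht x y => (mild_div_curl hν hd h ht x y).1⟩
  obtain ⟨r, B, hr, hB, hI, Sω, Su, Sv⟩ := (mild_Cl hν hd h).loc t ht
  have hdiv := (mild_div_curl hν hd h ht x y).1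
  set u : ℝ → ℝ → ℝ → ℝ := fun t => U1 (ω t) with hu
  set v : ℝ → ℝ → ℝ → ℝ := fun t => U2 (ω t) with hv
  set I := Ioo (t - r) (t + r) with hIdef
  have htI : t ∈ I := ⟨by linarith, by linarith⟩
  obtain ⟨w0, wd, -, wx, wy⟩ := id Sω
  obtain ⟨u0, ud, -, ux, -⟩ := Su
  obtain ⟨v0, vd, -, -, vy⟩ := Sv
  have c₁ := u0.cont.mul w0.cont
  have c₂ := v0.cont.mul w0.cont
  have e₁ := (ux.sm0.cont.mul w0.cont).add (u0.cont.mul wx.sm0.cont)
  have e₂ := (vy.sm0.cont.mul w0.cont).add (v0.cont.mul wy.sm0.cont)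
  have hBB : B * B ≤ B * B + B * B := le_add_of_nonneg_right (by positivity)
  have hb : ∀ s ∈ I, ∀ x y, |u s x y * ω s x y| ≤ B * B + B * B ∧
      |v s x y * ω s x y| ≤ B * B + B * B ∧
      |dX u s x y * ω s x y + u s x y * dX ω s x y| ≤ B * B + B * B ∧
      |dY v s x y * ω s x y + v s x y * dY ω s x y| ≤ B * B + B * B := fun s hs x y => by
    have b0 := EPde_bd w0 zero_le_one hB hs x y
    have b1 := EPde_bd u0 le_rfl hB hs x y
    have b2 := EPde_bd v0 le_rfl hB hs x y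
    exact ⟨(EPde_abs b1 b0).trans hBB, (EPde_abs b2 b0).trans hBB,
      (abs_add_le _ _).trans (add_le_add (EPde_abs (EPde_bd ux.sm0 le_rfl hB hs x y) b0)
        (EPde_abs b1 (EPde_bd wx.sm0 zero_le_one hB hs x y))),
      (abs_add_le _ _).trans (add_le_add (EPde_abs (EPde_bd vy.sm0 le_rfl hB hs x y) b0)
        (EPde_abs b2 (EPde_bd wy.sm0 zero_le_one hB hs x y)))⟩
  set D : ℝ → ℝ → ℝ → ℝ := fun s x y => (dX u s x y * ω s x y + u s x y * dX ω s x y)
    + (dY v s x y * ω s x y + v s x y * dY ω s x y) with hD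
  have key : ∀ k ∈ Ioo 0 r, ∀ s ∈ Ioo t (t + k),
      duh (ν * (t + k - s)) (ω s) x y = hc (ν * (t + k - s)) (D s) x y := fun k hk s hs => by
    have hs' : s ∈ I := ⟨by linarith [hs.1], by linarith [hs.2, hk.2]⟩
    exact dv_parts (mul_pos hν (sub_pos.2 hs.2)) (T0_slice c₁ hs') (T0_slice c₂ hs')
      (T0_slice e₁ hs') (T0_slice e₂ hs') (fun x y => (ud.dx s hs' x y).mul (wd.dx s hs' x y))
      (fun x y => (vd.dy s hs' x y).mul (wd.dy s hs' x y)) (hb s hs') x y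
  have hre := fun k (hk : k ∈ Ioo 0 r) => mild_restart hν hd h ht.1 hk.1
    (hI (show t + k ∈ I from ⟨by linarith [hk.1], by linarith [hk.2]⟩)).2 x y
  have l1 := avg_tendsto (g := fun q => hc q.1 (D q.2) x y) hν
    (hc_tendsto isOpen_Ioo (h := D) (e₁.add e₂) (fun s hs x y =>
      (abs_add_le _ _).trans (add_le_add (hb s hs x y).2.2.1 (hb s hs x y).2.2.2)) htI x y)
    (by
      filter_upwards [Ioo_mem_nhdsGT hr] with k hk
      exact (hre k hk).1.congr_fun (key k hk) measurableSet_Ioo)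
  have l0 : Tendsto (fun k : ℝ => ν * k) (𝓝[>] 0) (𝓝[>] 0) := by
    refine tendsto_nhdsWithin_iff.2 ⟨?_, eventually_mem_nhdsWithin.mono fun k hk => mul_pos hν hk⟩
    have : Tendsto (fun k : ℝ => ν * k) (𝓝 0) (𝓝 (ν * 0)) := Continuous.tendsto (by fun_prop) 0
    simpa using this.mono_left nhdsWithin_le_nhds
  have l2 := ((hc_generator zero_le_one Sω.pred htI x y).comp l0).const_mul ν
  have l3 := tendsto_nhds_unique (wd.dt t htI x y).tendsto_slope_zero_right ((l2.sub l1).congr' (by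
    filter_upwards [Ioo_mem_nhdsGT hr] with k hk
    have hk0 := hk.1.ne'
    rw [(hre k hk).2, setIntegral_congr_fun measurableSet_Ioo (key k hk)]
    simp only [Function.comp_apply, smul_eq_mul]
    field_simp
    ring))
  simp only [hD] at l3
  linear_combination l3 - ω t x y * hdiv

end Pool.Agent.Lib.MP_3d41d4_an
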