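import Pool.Agent.Lib.MP_3d41d4_an.EReg

open MeasureTheory Set Filter Topology Real
open scoped ENNReal

namespace Pool.Agent.Lib.MP_3d41d4_an

variable {κ t₁ r B : ℝ} {W : C3 → ℂ} {f : ℝ → ℝ → ℝ → ℝ}

lemma EReg2_cd (hr : 0 < r) (h : Reg κ t₁ r B W)
    (hf : ∀ t ∈ Ioo (t₁ - r) (t₁ + r), ∀ x y, W (rp t x y) = (f t x y : ℝ)) (n : ℕ) :
    ContDiffOn ℝ n (fun p : ℝ × ℝ × ℝ => f p.1 p.2.1 p.2.2)
      (Ioo (t₁ - r) (t₁ + r) ×ˢ univ) := by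
  have hrp : ContDiff ℝ n (fun p : ℝ × ℝ × ℝ => rp p.1 p.2.1 p.2.2) :=
    (Complex.ofRealCLM.contDiff.comp contDiff_fst).prodMk
      ((Complex.ofRealCLM.contDiff.comp (contDiff_fst.comp contDiff_snd)).prodMk
        (Complex.ofRealCLM.contDiff.comp (contDiff_snd.comp contDiff_snd)))
  have h1 : ContDiffOn ℝ n (fun p : ℝ × ℝ × ℝ => W (rp p.1 p.2.1 p.2.2))
      (Ioo (t₁ - r) (t₁ + r) ×ˢ univ) :=
    ((hol_contDiffOn (slab_open t₁ r) h.diff n).restrict_scalars ℝ).comp hrp.contDiffOn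
      fun p hp => (rp_mem_slab hr _ _).2 hp.1
  refine (Complex.reCLM.contDiff.comp_contDiffOn h1).congr fun p hp => ?_
  simp [hf p.1 hp.1]

lemma EReg2_sm0 (hr : 0 < r) (h : Reg κ t₁ r B W)
    (hf : ∀ t ∈ Ioo (t₁ - r) (t₁ + r), ∀ x y, W (rp t x y) = (f t x y : ℝ)) :
    Sm0 κ (Ioo (t₁ - r) (t₁ + r)) B f := by
  refine ⟨(EReg2_cd hr h hf 0).continuousOn, fun t ht x y => ?_⟩
  have h1 := h.bd _ ((rp_mem_slab hr x y).2 ht)
  rw [hf t ht] at h1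
  simpa [rp] using h1

/-- Induction on `n` for all `r B W f`. -/
theorem Reg.sm (hκ : 0 ≤ κ) (n : ℕ) : ∀ {r B : ℝ} {W : C3 → ℂ} {f : ℝ → ℝ → ℝ → ℝ}, 0 < r → 0 ≤ B →
    Reg κ t₁ r B W → (∀ t ∈ Ioo (t₁ - r) (t₁ + r), ∀ x y, W (rp t x y) = (f t x y : ℝ)) →
      ∃ r' B' : ℝ, 0 < r' ∧ r' ≤ r ∧ 0 ≤ B' ∧ Sm κ (Ioo (t₁ - r') (t₁ + r')) B' n f := by
  induction n with
  | zero =>
    intro r B W f hr hB h hf
    exact ⟨r, B, hr, le_rfl, hB, EReg2_sm0 hr h hf⟩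
  | succ n ih =>
    intro r B W f hr hB h hf
    obtain ⟨hd, ht⟩ := h.trace hr hf
    have hsub : ∀ {a b : ℝ}, a ≤ b → Ioo (t₁ - a) (t₁ + a) ⊆ Ioo (t₁ - b) (t₁ + b) :=
      fun hab => Ioo_subset_Ioo (by linarith) (by linarith)
    have hr2 : r / 2 ≤ r := by linarith
    have hB1 : 0 ≤ B * Real.exp (κ * r) * (4 / r) := by positivity
    obtain ⟨r₁, B₁, hr₁, hr₁', hB₁, h₁⟩ := ih (f := dT f) (half_pos hr) hB1
      (h.deriv_reg hr hκ hB (e := (1, 0, 0)) (by simp [Prod.norm_def]))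
      (fun t ht' x y => (ht t (hsub hr2 ht') x y).1)
    obtain ⟨r₂, B₂, hr₂, hr₂', hB₂, h₂⟩ := ih (f := dX f) (half_pos hr) hB1
      (h.deriv_reg hr hκ hB (e := (0, 1, 0)) (by simp [Prod.norm_def]))
      (fun t ht' x y => (ht t (hsub hr2 ht') x y).2.1)
    obtain ⟨r₃, B₃, hr₃, hr₃', hB₃, h₃⟩ := ih (f := dY f) (half_pos hr) hB1
      (h.deriv_reg hr hκ hB (e := (0, 0, 1)) (by simp [Prod.norm_def]))
      (fun t ht' x y => (ht t (hsub hr2 ht') x y).2.2)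
    have m₁ : min r₁ (min r₂ r₃) ≤ r₁ := min_le_left _ _
    have m₂ : min r₁ (min r₂ r₃) ≤ r₂ := (min_le_right _ _).trans (min_le_left _ _)
    have m₃ : min r₁ (min r₂ r₃) ≤ r₃ := (min_le_right _ _).trans (min_le_right _ _)
    have m₀ : min r₁ (min r₂ r₃) ≤ r := m₁.trans (hr₁'.trans hr2)
    refine ⟨min r₁ (min r₂ r₃), B + B₁ + B₂ + B₃, lt_min hr₁ (lt_min hr₂ hr₃), m₀, by positivity,
      Sm.mono (n := 0) (hsub m₀) (by linarith) (EReg2_sm0 hr h hf),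
      ⟨fun t ht' => hd.dt t (hsub m₀ ht'), fun t ht' => hd.dx t (hsub m₀ ht'),
        fun t ht' => hd.dy t (hsub m₀ ht')⟩,
      Sm.mono (hsub m₁) (by linarith) h₁, Sm.mono (hsub m₂) (by linarith) h₂,
      Sm.mono (hsub m₃) (by linarith) h₃⟩

/-- `hol_contDiffOn`, `ContDiffOn.restrict_scalars`, composition with `rp` and `Complex.reCLM`. -/
theorem Reg.contDiffOn_real (hr : 0 < r) (h : Reg κ t₁ r B W)
    (hf : ∀ t ∈ Ioo (t₁ - r) (t₁ + r), ∀ x y, W (rp t x y) = (f t x y : ℝ)) (n : ℕ) :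
    ContDiffOn ℝ n (fun p : ℝ × ℝ × ℝ => f p.1 p.2.1 p.2.2) (Ioo (t₁ - r) (t₁ + r) ×ˢ univ) := by
  exact EReg2_cd hr h hf n

/-- The velocity of a regular vorticity (`Uc_diff_gen`, `K_dom`, `Kn_exp`). -/
theorem Reg.Uc (hB : 0 ≤ B) (h : Reg 1 t₁ r B W) :
    ∃ B' : ℝ, 0 ≤ B' ∧ Reg 0 t₁ r B' (Uc1 W) ∧ Reg 0 t₁ r B' (Uc2 W) := by
  obtain ⟨C, hC, hK⟩ := Kn_exp
  have hsh : ∀ p ∈ slab t₁ r, ∀ w, sh p w ∈ slab t₁ r := by
    intro p hp w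
    simpa [slab, sh] using hp
  have hbd : ∀ p ∈ slab t₁ r, ∀ w : ℝ × ℝ,
      ‖W (sh p w)‖ ≤ B * Real.exp (-|p.2.2.re - w.2|) := by
    intro p hp w
    simpa [sh] using h.bd _ (hsh p hp w)
  have hdiff := Uc_diff_gen (slab_open t₁ r) hsh h.diff (fun p₀ _ =>
    ⟨1, one_pos, B * Real.exp (|p₀.2.2.re| + 1), fun p hp hd w => by
      refine (hbd p hp w).trans ?_
      rw [mul_assoc, ← Real.exp_add]
      refine mul_le_mul_of_nonneg_left (Real.exp_le_exp.2 ?_) hB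
      have h1 : dist p.2.2 p₀.2.2 < 1 := by
        rw [Prod.dist_eq, max_lt_iff, Prod.dist_eq, max_lt_iff] at hd
        exact hd.2.2
      have h2 : |p.2.2.re - p₀.2.2.re| < 1 := by
        rw [dist_eq_norm] at h1
        have h3 := Complex.abs_re_le_norm (p.2.2 - p₀.2.2)
        rw [Complex.sub_re] at h3
        linarith
      have h3 := abs_sub_abs_le_abs_sub w.2 p.2.2.re
      have h4 := abs_sub_abs_le_abs_sub p.2.2.re p₀.2.2.re
      rw [abs_sub_comm w.2] at h3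
      linarith⟩)
  have key : ∀ p ∈ slab t₁ r, ‖Uc1 W p‖ ≤ B * C ∧ ‖Uc2 W p‖ ≤ B * C := by
    intro p hp
    have hc : Continuous fun w : ℝ × ℝ => W (sh p w) :=
      h.diff.continuousOn.comp_continuous (by unfold sh; fun_prop) (hsh p hp)
    have he : (fun w : ℝ × ℝ => Kn w * (B * Real.exp (-|p.2.2.re - w.2|)))
        = fun w => B * (Kn w * Real.exp (-|p.2.2.re - w.2|)) := by
      funext w; ring
    have hi : IntegrableOn (fun w : ℝ × ℝ => Kn w * (B * Real.exp (-|p.2.2.re - w.2|))) cyl0 := by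
      rw [he]; exact (hK p.2.2.re).1.const_mul B
    have hle : ∫ w in cyl0, Kn w * (B * Real.exp (-|p.2.2.re - w.2|)) ≤ B * C := by
      rw [he, integral_const_mul]
      exact mul_le_mul_of_nonneg_left (hK p.2.2.re).2 hB
    obtain ⟨-, -, h1, h2⟩ := K_dom hc.aestronglyMeasurable hi (hbd p hp)
    exact ⟨h1.trans hle, h2.trans hle⟩
  exact ⟨B * C, by positivity, ⟨hdiff.1, fun p hp => by simpa using (key p hp).1⟩,
    ⟨hdiff.2, fun p hp => by simpa using (key p hp).2⟩⟩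

end Pool.Agent.Lib.MP_3d41d4_an
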