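import Pool.Agent.Lib.MP_3d41d4_an.EDuh

open MeasureTheory Set Filter Topology Real
open scoped ENNReal

namespace Pool.Agent.Lib.MP_3d41d4_an

variable {ν T N M : ℝ} {φ γ : ℝ → ℝ} {ω : ℝ → ℝ → ℝ → ℝ}

theorem ESemi_bd (hν : 0 < ν) (hφ : Continuous φ) (h : Mild ν T N φ γ ω) {s : ℝ}
    (hs : s ∈ Ioo 0 T) (x y : ℝ) : |ω s x y| ≤ N * (1 / √(2 * (ν * s))) :=
  (h.bd s hs x y).trans
    (mul_le_mul_of_nonneg_left (gm_le hφ (mul_pos two_pos (mul_pos hν hs.1)) x y) h.nonneg)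

theorem ESemi_hc (hν : 0 < ν) (hφ : Continuous φ) (h : Mild ν T N φ γ ω) {s a κ : ℝ}
    (hs : s ∈ Ioo 0 T) (ha : 0 < a) (hκ : 0 < κ) (x y : ℝ) :
    hc κ (duh a (ω s)) x y = duh (a + κ) (ω s) x y := by
  obtain ⟨C, -, hC⟩ := U_le hν
  have h1 := hC φ hφ (ω s) N s (h.slice s) h.nonneg hs.1 (h.bd s hs)
  have h2 := U_meas2 (h.slice s)
  have h3 : ∀ {u : ℝ} (x y : ℝ), |u| ≤ C * N * (1 + 1 / √(√s)) →
      |u * ω s x y| ≤ C * N * (1 + 1 / √(√s)) * (N * (1 / √(2 * (ν * s)))) := fun x y hu => by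
    rw [abs_mul]
    exact mul_le_mul hu (ESemi_bd hν hφ h hs x y) (abs_nonneg _) ((abs_nonneg _).trans hu)
  exact hc_dv hκ ha (h2.1.mul (h.slice s)) (h2.2.mul (h.slice s))
    (fun x y => h3 x y (h1 x y).1) (fun x y => h3 x y (h1 x y).2) x y

theorem ESemi_int (hν : 0 < ν) (hφ : Continuous φ) (h : Mild ν T N φ γ ω) {t κ : ℝ}
    (ht : t ∈ Ioo 0 T) (hκ : 0 < κ) (x y : ℝ) :
    Integrable (Function.uncurry fun (q : ℝ × ℝ) (s : ℝ) =>
      G κ (x - q.1) (y - q.2) * duh (ν * (t - s)) (ω s) q.1 q.2)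
      (volume.prod (volume.restrict (Ioo 0 t))) := by
  obtain ⟨C, hC0, hC⟩ := U_le hν
  obtain ⟨D, hD0, hD⟩ := duh_le hν
  obtain ⟨E, -, hE⟩ := tw_int
  have hN := h.nonneg
  have h1 := (G_integrable hκ x y).mul_prod
    (((hE t ht.1).1.const_mul (D * (C * N) * N)).mul_const (1 / √(2 * (ν * t))))
  have h2 : Measurable fun p : (ℝ × ℝ) × ℝ => duh (ν * (t - p.2)) (ω p.2) p.1.1 p.1.2 :=
    duh_meas (F := fun p : (ℝ × ℝ) × ℝ => ω p.2) (by fun_prop) (by fun_prop) (by fun_prop)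
      (h.meas.comp (f := fun p : ((ℝ × ℝ) × ℝ) × ℝ × ℝ => (p.1.2, p.2.1, p.2.2)) (by fun_prop))
  have h3 : Measurable fun p : (ℝ × ℝ) × ℝ => G κ (x - p.1.1) (y - p.1.2) := by
    unfold G
    fun_prop
  refine h1.mono' (h3.mul h2).aestronglyMeasurable ?_
  filter_upwards [Measure.quasiMeasurePreserving_snd.ae (ae_restrict_mem measurableSet_Ioo)]
    with p hp
  have hs : p.2 ∈ Ioo 0 T := ⟨hp.1, hp.2.trans ht.2⟩
  have h4 := hD φ hφ (ω p.2) N (C * N) 0 t p.2 (h.slice _) hN (by positivity) le_rfl hp.1 hp.2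
    (h.bd _ hs) (hC φ hφ (ω p.2) N p.2 (h.slice _) hN hp.1 (h.bd _ hs)) p.1.1 p.1.2
  rw [add_zero, add_zero] at h4
  have h5 := tw_nonneg t p.2
  rw [Function.uncurry, Real.norm_eq_abs, abs_mul, abs_of_nonneg (G_nonneg hκ.le _ _)]
  exact mul_le_mul_of_nonneg_left (h4.trans (mul_le_mul_of_nonneg_left
    (gm_le hφ (mul_pos two_pos (mul_pos hν ht.1)) _ _) (by positivity))) (G_nonneg hκ.le _ _)

/-- Smoothing the mild equation. Sketch: `h.eq` as an identity of functions of `(x, y)`, `hc_lin`,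
Fubini in `(q, s)` (`duh_le`, `gm_le`, `tw_int`, `duh_meas`), `hc_dv`. -/
theorem mild_smooth (hν : 0 < ν) (hd : Dat M φ γ) (h : Mild ν T N φ γ ω) {t κ : ℝ}
    (ht : t ∈ Ioo 0 T) (hκ : 0 < κ) (x y : ℝ) :
    hc κ (ω t) x y
      = lin φ γ (ν * t + κ) x y - ∫ s in Ioo 0 t, duh (ν * (t - s) + κ) (ω s) x y := by
  obtain ⟨C, hC0, hC⟩ := lin_bound
  have ha := mul_pos hν ht.1
  have hM := hd.one_le
  have h1 := hc_sub hκ (lin_meas hd (a := fun _ => ν * t) measurable_const measurable_fst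
    measurable_snd) (h.slice t) (fun x y => (hC hd _ x y ha).2.trans (mul_le_mul_of_nonneg_left
      (gm_le hd.cφ (mul_pos two_pos ha) x y) (by positivity))) (ESemi_bd hν hd.cφ h ht) x y
  have h2 : hc κ (fun x' y' => lin φ γ (ν * t) x' y' - ω t x' y') x y
      = ∫ s in Ioo 0 t, duh (ν * (t - s) + κ) (ω s) x y := by
    simp only [hc, h.eq t ht, sub_sub_cancel, ← integral_const_mul]
    rw [integral_integral_swap (ESemi_int hν hd.cφ h ht hκ x y)]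
    exact setIntegral_congr_fun measurableSet_Ioo fun s hs =>
      ESemi_hc hν hd.cφ h ⟨hs.1, hs.2.trans ht.2⟩ (mul_pos hν (sub_pos.2 hs.2)) hκ x y
  rw [← h2, h1, hc_lin hd hκ ha, sub_sub_cancel]

/-- Restart formula: `mild_smooth` with `κ = ν k`, `h.eq` at `t + k`, `Mild.duh_int`. -/
theorem mild_restart (hν : 0 < ν) (hd : Dat M φ γ) (h : Mild ν T N φ γ ω) {t k : ℝ} (ht : 0 < t)
    (hk : 0 < k) (htk : t + k < T) (x y : ℝ) :
    IntegrableOn (fun s => duh (ν * (t + k - s)) (ω s) x y) (Ioo t (t + k)) ∧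
    ω (t + k) x y
      = hc (ν * k) (ω t) x y - ∫ s in Ioo t (t + k), duh (ν * (t + k - s)) (ω s) x y := by
  obtain ⟨C, -, hC⟩ := Mild.duh_int hν
  have h0 : t < t + k := lt_add_of_pos_right t hk
  have h1 := (hC hd.cφ h 0 (t + k) le_rfl (ht.trans h0) htk.le x y).1
  simp only [add_zero] at h1
  have h2 := h1.mono_set (Ioo_subset_Ioo_left ht.le)
  refine ⟨h2, ?_⟩
  have h3 : ∀ s, ν * (t - s) + ν * k = ν * (t + k - s) := fun s => by ring
  rw [mild_smooth hν hd h ⟨ht, h0.trans htk⟩ (mul_pos hν hk), h.eq _ ⟨ht.trans h0, htk⟩, ← mul_add,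
    sub_sub, ← Ioo_union_Ico_eq_Ioo ht h0.le, setIntegral_union
      (Set.disjoint_left.2 fun s h1 h2 => h1.2.not_ge h2.1) measurableSet_Ico
      (h1.mono_set (Ioo_subset_Ioo_right h0.le))
      (h1.mono_set (Ico_subset_Ioo_left ht)), integral_Ico_eq_integral_Ioo]
  simp only [h3]

end Pool.Agent.Lib.MP_3d41d4_an
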