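import Pool.Agent.Lib.MP_3d41d4_an.T2

open MeasureTheory Set Filter Topology Real
open scoped ENNReal

namespace Pool.Agent.Lib.MP_3d41d4_an

variable {ν T t K c x₀ R : ℝ} {φ₀ γ₀ : ℝ → ℝ} {ω u v θ θs θx θy θxx θyy : ℝ → ℝ → ℝ → ℝ}

theorem T3_dom {α : Type*} [MeasurableSpace α] {μ : Measure α} {F : ℕ → α → ℝ} {f b : α → ℝ}
    (hF : ∀ n, AEStronglyMeasurable (F n) μ) (hb : Integrable b μ)
    (hle : ∀ n, ∀ᵐ a ∂μ, |F n a| ≤ b a)
    (hlim : ∀ᵐ a ∂μ, Tendsto (fun n => F n a) atTop (𝓝 (f a))) :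
    Integrable f μ ∧ Tendsto (fun n => ∫ a, F n a ∂μ) atTop (𝓝 (∫ a, f a ∂μ)) := by
  refine ⟨hb.mono' (aestronglyMeasurable_of_tendsto_ae atTop hF hlim) ?_,
    tendsto_integral_of_dominated_convergence b hF hb hle hlim⟩
  filter_upwards [hlim, ae_all_iff.2 hle] with a h1 h2
  exact le_of_tendsto' h1.abs h2

/-- A fixed bump function with two bounded derivatives. -/
theorem T3_bump : ∃ (χ χ1 χ2 : ℝ → ℝ) (B : ℝ), 1 ≤ B ∧ (∀ x, HasDerivAt χ (χ1 x) x) ∧
    (∀ x, HasDerivAt χ1 (χ2 x) x) ∧ Continuous χ2 ∧ χ 0 = 1 ∧ (∀ x, 2 ≤ |x| → χ x = 0) ∧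
    ∀ x, |χ x| ≤ B ∧ |χ1 x| ≤ B ∧ |χ2 x| ≤ B := by
  let f : ContDiffBump (0 : ℝ) := ⟨1, 2, one_pos, one_lt_two⟩
  have h0 : ContDiff ℝ (2 : ℕ∞) f := f.contDiff
  have h1 : ContDiff ℝ 1 (deriv f) := by
    have h : ContDiff ℝ (1 + 1) f := h0
    exact (contDiff_succ_iff_deriv.1 h).2.2
  have h2 : Continuous (deriv (deriv f)) := h1.continuous_deriv le_rfl
  have s0 : HasCompactSupport f := f.hasCompactSupport
  obtain ⟨C1, hC1⟩ := h1.continuous.bounded_above_of_compact_support s0.deriv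
  obtain ⟨C2, hC2⟩ := h2.bounded_above_of_compact_support s0.deriv.deriv
  refine ⟨f, deriv f, deriv (deriv f), max 1 (max C1 C2), le_max_left _ _,
    fun x => (h0.differentiable (by norm_num) x).hasDerivAt,
    fun x => (h1.differentiable (by norm_num) x).hasDerivAt, h2,
    f.one_of_mem_closedBall (Metric.mem_closedBall_self zero_le_one), fun x hx => ?_, fun x => ?_⟩
  · refine f.zero_of_le_dist ?_
    simpa using hx
  · refine ⟨?_, (hC1 x).trans ((le_max_left _ _).trans (le_max_right _ _)),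
      (hC2 x).trans ((le_max_right _ _).trans (le_max_right _ _))⟩
    rw [abs_of_nonneg f.nonneg]
    exact f.le_one.trans (le_max_left _ _)

/-- Cut-off functions at scale `n + 1`. -/
theorem T3_cut : ∃ (a a1 a2 : ℕ → ℝ → ℝ) (B : ℝ), 1 ≤ B ∧ (∀ n x, HasDerivAt (a n) (a1 n x) x) ∧
    (∀ n x, HasDerivAt (a1 n) (a2 n x) x) ∧ (∀ n, Continuous (a2 n)) ∧
    (∀ (n : ℕ) x, 2 * ((n : ℝ) + 1) ≤ |x| → a n x = 0) ∧
    (∀ n x, |a n x| ≤ B ∧ |a1 n x| ≤ B ∧ |a2 n x| ≤ B) ∧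
    ∀ x, Tendsto (fun n => a n x) atTop (𝓝 1) ∧ Tendsto (fun n => a1 n x) atTop (𝓝 0) ∧
      Tendsto (fun n => a2 n x) atTop (𝓝 0) := by
  obtain ⟨χ, χ1, χ2, B, hB, d0, d1, c2, e0, z0, b⟩ := T3_bump
  have hp : ∀ n : ℕ, 0 < 1 / ((n : ℝ) + 1) := fun n => by positivity
  have hle : ∀ n : ℕ, 1 / ((n : ℝ) + 1) ≤ 1 := fun n => by
    rw [div_le_one (by positivity)]
    linarith [Nat.cast_nonneg (α := ℝ) n]
  have hl : ∀ (n : ℕ) (x : ℝ), HasDerivAt (fun x => 1 / ((n : ℝ) + 1) * x) (1 / ((n : ℝ) + 1)) x :=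
    fun n x => by simpa using (hasDerivAt_id x).const_mul (1 / ((n : ℝ) + 1))
  have b1 : ∀ (n : ℕ) (x : ℝ), |χ1 x * (1 / ((n : ℝ) + 1))| ≤ B * (1 / ((n : ℝ) + 1)) :=
    fun n x => by
      rw [abs_mul, abs_of_pos (hp n)]
      exact mul_le_mul_of_nonneg_right (b x).2.1 (hp n).le
  have b2 : ∀ (n : ℕ) (x : ℝ), |χ2 x * (1 / ((n : ℝ) + 1)) * (1 / ((n : ℝ) + 1))| ≤
      B * (1 / ((n : ℝ) + 1)) := fun n x => by
    rw [abs_mul, abs_mul, abs_of_pos (hp n)]
    refine mul_le_mul_of_nonneg_right ?_ (hp n).le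
    exact (mul_le_of_le_one_right (abs_nonneg _) (hle n)).trans (b x).2.2
  have b3 : ∀ n : ℕ, B * (1 / ((n : ℝ) + 1)) ≤ B := fun n =>
    mul_le_of_le_one_right (by linarith) (hle n)
  have t0 : Tendsto (fun n : ℕ => 1 / ((n : ℝ) + 1)) atTop (𝓝 0) :=
    tendsto_one_div_add_atTop_nhds_zero_nat
  have t1 : Tendsto (fun n : ℕ => B * (1 / ((n : ℝ) + 1))) atTop (𝓝 0) := by
    simpa using t0.const_mul B
  refine ⟨fun n x => χ (1 / ((n : ℝ) + 1) * x),
    fun n x => χ1 (1 / ((n : ℝ) + 1) * x) * (1 / ((n : ℝ) + 1)),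
    fun n x => χ2 (1 / ((n : ℝ) + 1) * x) * (1 / ((n : ℝ) + 1)) * (1 / ((n : ℝ) + 1)), B, hB,
    fun n x => (d0 _).comp x (hl n x), fun n x => ((d1 _).comp x (hl n x)).mul_const _,
    fun n => by fun_prop, fun n x hx => z0 _ ?_,
    fun n x => ⟨(b _).1, (b1 n _).trans (b3 n), (b2 n _).trans (b3 n)⟩, fun x => ⟨?_, ?_, ?_⟩⟩
  · rw [abs_mul, abs_of_pos (hp n), one_div, inv_mul_eq_div, le_div_iff₀ (by positivity)]
    exact hx
  · have h1 : Tendsto (fun n : ℕ => 1 / ((n : ℝ) + 1) * x) atTop (𝓝 0) := by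
      simpa using t0.mul_const x
    have h2 := ((d0 0).continuousAt.tendsto).comp h1
    rw [e0] at h2
    exact h2
  · exact squeeze_zero_norm (fun n => b1 n _) t1
  · exact squeeze_zero_norm (fun n => b2 n _) t1

theorem T3_abs {a b B E : ℝ} (ha : |a| ≤ B) (hb : |b| ≤ E) : |a * b| ≤ B * E := by
  rw [abs_mul]
  exact mul_le_mul ha hb (abs_nonneg _) ((abs_nonneg _).trans ha)

theorem T3_cont (hθ : TestFn t K c x₀ θ θs θx θy θxx θyy) {s : ℝ} (hs : s ∈ Icc 0 t) :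
    Continuous fun p : ℝ × ℝ => θ s p.1 p.2 :=
  hθ.cont.comp_continuous (f := fun p : ℝ × ℝ => (s, p)) (by fun_prop)
    fun p => ⟨hs, mem_univ _⟩

/-- The product of a test function with a cut-off function. -/
theorem T3_test (hθ : TestFn t K c x₀ θ θs θx θy θxx θyy) {a a1 a2 : ℝ → ℝ} {B : ℝ} (hB : 1 ≤ B)
    (d0 : ∀ x, HasDerivAt a (a1 x) x) (d1 : ∀ x, HasDerivAt a1 (a2 x) x) (c2 : Continuous a2)
    (b : ∀ x, |a x| ≤ B ∧ |a1 x| ≤ B ∧ |a2 x| ≤ B) :
    TestFn t (4 * B ^ 2 * K) c x₀ (fun s x y => a y * (a x * θ s x y))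
      (fun s x y => a y * (a x * θs s x y))
      (fun s x y => a y * (a1 x * θ s x y + a x * θx s x y))
      (fun s x y => a x * (a1 y * θ s x y + a y * θy s x y))
      (fun s x y => a y * (a2 x * θ s x y + a1 x * θx s x y + (a1 x * θx s x y + a x * θxx s x y)))
      (fun s x y =>
        a x * (a2 y * θ s x y + a1 y * θy s x y + (a1 y * θy s x y + a y * θyy s x y))) := by
  have c0 : Continuous a := continuous_iff_continuousAt.2 fun x => (d0 x).continuousAt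
  have c1 : Continuous a1 := continuous_iff_continuousAt.2 fun x => (d1 x).continuousAt
  have m0 := c0.measurable
  have m1 := c1.measurable
  have m2 := c2.measurable
  have mθ : ∀ s ∈ Ioo 0 t, Measurable fun p : ℝ × ℝ => θ s p.1 p.2 := fun s hs =>
    (T3_cont hθ (Ioo_subset_Icc_self hs)).measurable
  have key : ∀ {E e p q : ℝ}, 0 ≤ K * e → |p| ≤ B → |q| ≤ E → E ≤ 4 * (B * (K * e)) →
      |p * q| ≤ 4 * B ^ 2 * K * e := by
    intro E e p q h0 hp hq hE
    refine (T3_abs hp (hq.trans hE)).trans (le_of_eq ?_)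
    ring
  refine ⟨hθ.c_pos, ?_, fun s hs x y => ((hθ.ds s hs x y).const_mul _).const_mul _,
    fun s hs x y => ((d0 x).mul (hθ.dx s hs x y)).const_mul _, fun s hs x y => ?_,
    fun s hs x y => (((d1 x).mul (hθ.dx s hs x y)).add ((d0 x).mul (hθ.dxx s hs x y))).const_mul _,
    fun s hs x y => (((d1 y).mul (hθ.dy s hs x y)).add ((d0 y).mul (hθ.dyy s hs x y))).const_mul _,
    fun s hs => ?_, fun s hs => ?_, fun s hs => ?_, fun s hs => ?_, fun s hs => ?_,
    fun s hs x y => ?_, fun s hs x y => ?_⟩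
  · exact (c0.comp (by fun_prop)).continuousOn.mul
      ((c0.comp (by fun_prop)).continuousOn.mul hθ.cont)
  · have h1 := ((d0 y).mul (hθ.dy s hs x y)).const_mul (a x)
    refine h1.congr_of_eventuallyEq (Eventually.of_forall fun y' => ?_)
    simp only [Pi.mul_apply]
    ring
  · have := hθ.ms s hs
    fun_prop
  · have := hθ.mx s hs
    have := mθ s hs
    fun_prop
  · have := hθ.my s hs
    have := mθ s hs
    fun_prop
  · have := hθ.mx s hs
    have := hθ.mxx s hs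
    have := mθ s hs
    fun_prop
  · have := hθ.my s hs
    have := hθ.myy s hs
    have := mθ s hs
    fun_prop
  · have h0 := hθ.b0 s hs x y
    have h1 := (abs_nonneg _).trans h0
    have h2 : 0 ≤ B * (K * Real.exp (-(c * (x - x₀) ^ 2))) := mul_nonneg (by linarith) h1
    exact key h1 (b y).1 (T3_abs (b x).1 h0) (by linarith)
  · have h0 := hθ.b0 s (Ioo_subset_Icc_self hs) x y
    have h1 := (abs_nonneg _).trans h0
    have h2 : 0 ≤ B * (K * Real.exp (-(c * (x - x₀) ^ 2))) := mul_nonneg (by linarith) h1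
    obtain ⟨g1, g2, g3, g4, g5⟩ := hθ.b1 s hs x y
    refine ⟨key h1 (b y).1 (T3_abs (b x).1 g1) (by linarith),
      key h1 (b y).1 ((abs_add_le _ _).trans
        (add_le_add (T3_abs (b x).2.1 h0) (T3_abs (b x).1 g2))) (by linarith),
      key h1 (b x).1 ((abs_add_le _ _).trans
        (add_le_add (T3_abs (b y).2.1 h0) (T3_abs (b y).1 g3))) (by linarith),
      key h1 (b y).1 ((abs_add_le _ _).trans (add_le_add ((abs_add_le _ _).trans
        (add_le_add (T3_abs (b x).2.2 h0) (T3_abs (b x).2.1 g2))) ((abs_add_le _ _).trans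
        (add_le_add (T3_abs (b x).2.1 g2) (T3_abs (b x).1 g4))))) (by linarith),
      key h1 (b x).1 ((abs_add_le _ _).trans (add_le_add ((abs_add_le _ _).trans
        (add_le_add (T3_abs (b y).2.2 h0) (T3_abs (b y).2.1 g3))) ((abs_add_le _ _).trans
        (add_le_add (T3_abs (b y).2.1 g3) (T3_abs (b y).1 g5))))) (by linarith)⟩

theorem T3_wI_le (hν : 0 < ν) (hθ : TestFn t K c x₀ θ θs θx θy θxx θyy) {s U : ℝ}
    (hs : s ∈ Ioo 0 t) (hU : ∀ x y, |u s x y| ≤ U ∧ |v s x y| ≤ U) (p : ℝ × ℝ) :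
    |wI ν ω u v θs θx θy θxx θyy s p| ≤
      K * (1 + 2 * U + 2 * ν) * (Real.exp (-(c * (p.1 - x₀) ^ 2)) * |ω s p.1 p.2|) := by
  obtain ⟨g1, g2, g3, g4, g5⟩ := hθ.b1 s hs p.1 p.2
  have h1 := T3_abs (hU p.1 p.2).1 g2
  have h2 := T3_abs (hU p.1 p.2).2 g3
  have h3 := T3_abs (abs_of_pos hν).le ((abs_add_le _ _).trans (add_le_add g4 g5))
  have h4 := (abs_add_le _ _).trans (add_le_add ((abs_add_le _ _).trans
    (add_le_add ((abs_add_le _ _).trans (add_le_add g1 h1)) h2)) h3)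
  refine (T3_abs le_rfl h4).trans (le_of_eq ?_)
  ring

/-- The weak formulation for test functions with Gaussian decay in `x`. -/
theorem weakId (h : IsNS ν T φ₀ γ₀ ω u v) (hν : 0 < ν) (ht0 : 0 < t) (htT : t < T)
    (hφc : Continuous φ₀) (hφp : Function.Periodic φ₀ (2 * π)) (hγc : Continuous γ₀)
    (hγp : Function.Periodic γ₀ (2 * π)) (hθ : TestFn t K c x₀ θ θs θx θy θxx θyy) :
    WeakId ν t φ₀ γ₀ ω u v θ θs θx θy θxx θyy := by
  obtain ⟨a, a1, a2, B, hB, d0, d1, c2, z0, b, l⟩ := T3_cut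
  have hT := fun n => T3_test hθ hB (d0 n) (d1 n) (c2 n) (b n)
  have hW := fun n : ℕ =>
    weakId_compact (R := 2 * ((n : ℝ) + 1)) h hν ht0 htT hφc hφp hγc hγp (hT n)
    (fun s _ x y hxy => by
      rcases hxy with h1 | h1
      · simp only [z0 n x h1, zero_mul, mul_zero]
      · simp only [z0 n y h1, zero_mul])
  obtain ⟨A, hA0, hA⟩ := h.gauss_mass hθ.c_pos
  obtain ⟨D, hD⟩ := h.vel 1 one_pos
  have hsub : ∀ s ∈ Ioo 0 t, s ∈ Ioo 0 T := fun s hs => ⟨hs.1, hs.2.trans htT⟩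
  have hK : 0 ≤ 4 * B ^ 2 * K := by
    have h1 := (abs_nonneg _).trans (hθ.b0 0 ⟨le_rfl, ht0.le⟩ x₀ 0)
    have h2 : 0 ≤ K := by simpa using h1
    positivity
  have hin := fun s (hs : s ∈ Ioo 0 t) => T3_dom (f := wI ν ω u v θs θx θy θxx θyy s)
    (fun n => ((hW n).1 s hs).aestronglyMeasurable)
    ((hA s (hsub s hs) x₀).1.const_mul (4 * B ^ 2 * K * (1 + 2 * (1 / √s + D) + 2 * ν)))
    (fun n => ae_of_all _ fun p => T3_wI_le hν (hT n) hs (hD s (hsub s hs)) p)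
    (ae_of_all _ fun p => by
      obtain ⟨x1, x2, x3⟩ := l p.1
      obtain ⟨y1, y2, y3⟩ := l p.2
      have h1 := (((y1.mul (x1.mul_const (θs s p.1 p.2))).add
        ((y1.mul ((x2.mul_const (θ s p.1 p.2)).add (x1.mul_const (θx s p.1 p.2)))).const_mul
          (u s p.1 p.2))).add
        ((x1.mul ((y2.mul_const (θ s p.1 p.2)).add (y1.mul_const (θy s p.1 p.2)))).const_mul
          (v s p.1 p.2))).add
        (((y1.mul (((x3.mul_const (θ s p.1 p.2)).add (x2.mul_const (θx s p.1 p.2))).add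
          ((x2.mul_const (θx s p.1 p.2)).add (x1.mul_const (θxx s p.1 p.2))))).add
          (x1.mul (((y3.mul_const (θ s p.1 p.2)).add (y2.mul_const (θy s p.1 p.2))).add
          ((y2.mul_const (θy s p.1 p.2)).add (y1.mul_const (θyy s p.1 p.2)))))).const_mul ν)
      have h2 := h1.const_mul (ω s p.1 p.2)
      simp only [one_mul, zero_mul, zero_add] at h2
      exact h2)
  have hout := T3_dom (μ := volume.restrict (Ioo 0 t))
    (f := fun s => ∫ p, wI ν ω u v θs θx θy θxx θyy s p)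
    (b := fun s => 4 * B ^ 2 * K * (1 + 2 * (1 / √s + D) + 2 * ν) * A)
    (fun n => (hW n).2.1.aestronglyMeasurable)
    (by
      have h1 : IntegrableOn (fun s => 1 / √s) (Ioo 0 t) := integrableOn_inv_sqrt t
      have h2 : ∀ r : ℝ, Integrable (fun _ : ℝ => r) (volume.restrict (Ioo 0 t)) := fun r =>
        integrable_const r
      exact ((((h2 1).add ((h1.add (h2 D)).const_mul 2)).add (h2 (2 * ν))).const_mul _).mul_const _)
    (fun n => (ae_restrict_iff' measurableSet_Ioo).2 (ae_of_all _ fun s hs => by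
      have h1 := norm_integral_le_of_norm_le
        ((hA s (hsub s hs) x₀).1.const_mul (4 * B ^ 2 * K * (1 + 2 * (1 / √s + D) + 2 * ν)))
        (ae_of_all _ fun p => (Real.norm_eq_abs _).le.trans
          (T3_wI_le (ω := ω) hν (hT n) hs (hD s (hsub s hs)) p))
      rw [integral_const_mul] at h1
      have h2 : 0 ≤ 1 / √s + D := (abs_nonneg _).trans (hD s (hsub s hs) 0 0).1
      exact h1.trans (mul_le_mul_of_nonneg_left (hA s (hsub s hs) x₀).2 (by positivity))))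
    ((ae_restrict_iff' measurableSet_Ioo).2 (ae_of_all _ fun s hs => (hin s hs).2))
  have hωc : Continuous fun p : ℝ × ℝ => ω t p.1 p.2 :=
    h.smooth_ω.continuousOn.comp_continuous (f := fun p : ℝ × ℝ => (t, p)) (by fun_prop)
      fun p => ⟨⟨ht0, htT⟩, mem_univ _⟩
  have hend := T3_dom (f := fun p : ℝ × ℝ => θ t p.1 p.2 * ω t p.1 p.2)
    (F := fun n (p : ℝ × ℝ) => a n p.2 * (a n p.1 * θ t p.1 p.2) * ω t p.1 p.2)
    (fun n => ((T3_cont (hT n) ⟨ht0.le, le_rfl⟩).mul hωc).aestronglyMeasurable)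
    ((hA t ⟨ht0, htT⟩ x₀).1.const_mul (4 * B ^ 2 * K))
    (fun n => ae_of_all _ fun p =>
      (T3_abs ((hT n).b0 t ⟨ht0.le, le_rfl⟩ p.1 p.2) le_rfl).trans (le_of_eq (by ring)))
    (ae_of_all _ fun p => by
      simpa using ((l p.2).1.mul ((l p.1).1.mul_const (θ t p.1 p.2))).mul_const (ω t p.1 p.2))
  obtain ⟨G, hG⟩ : ∃ G, ∀ x, |γ₀ x| ≤ G := by
    obtain ⟨G, hG⟩ := (hγp.isBounded_of_continuous (by positivity) hγc).exists_norm_le
    exact ⟨G, fun x => hG _ (mem_range_self x)⟩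
  have hgau : Integrable fun x : ℝ => Real.exp (-(c * (x - x₀) ^ 2)) := by
    have h1 := (integrable_exp_neg_mul_sq hθ.c_pos).comp_sub_right x₀
    simpa only [neg_mul] using h1
  have hini := T3_dom (f := fun x => θ 0 x (φ₀ x) * γ₀ x)
    (F := fun n x => a n (φ₀ x) * (a n x * θ 0 x (φ₀ x)) * γ₀ x)
    (fun n => (((T3_cont (hT n) ⟨le_rfl, ht0.le⟩).comp
      (continuous_id.prodMk hφc)).mul hγc).aestronglyMeasurable)
    ((hgau.const_mul (4 * B ^ 2 * K)).mul_const G)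
    (fun n => ae_of_all _ fun x => T3_abs ((hT n).b0 0 ⟨le_rfl, ht0.le⟩ x (φ₀ x)) (hG x))
    (ae_of_all _ fun x => by
      simpa using ((l (φ₀ x)).1.mul ((l x).1.mul_const (θ 0 x (φ₀ x)))).mul_const (γ₀ x))
  refine ⟨fun s hs => (hin s hs).1, hout.1, tendsto_nhds_unique hend.2 ?_⟩
  exact (hini.2.add hout.2).congr fun n => (hW n).2.2.symm

end Pool.Agent.Lib.MP_3d41d4_an
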