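import Pool.Agent.Lib.MP_3d41d4_an.Meas

open MeasureTheory Set Filter Topology Real
open scoped ENNReal

namespace Pool.Agent.Lib.MP_3d41d4_an

variable {ρ L M₀ T : ℝ} {φ γ : ℝ → ℝ → ℝ}

theorem T4a_mul {x y X Y : ℝ} (hx : |x| ≤ X) (hy : |y| ≤ Y) : |x * y| ≤ X * Y := by
  rw [abs_mul]
  exact mul_le_mul hx hy (abs_nonneg _) ((abs_nonneg _).trans hx)

theorem T4a_add {x y X Y : ℝ} (hx : |x| ≤ X) (hy : |y| ≤ Y) : |x + y| ≤ X + Y :=
  (abs_add_le _ _).trans (add_le_add hx hy)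

theorem T4a_sub {x y X Y : ℝ} (hx : |x| ≤ X) (hy : |y| ≤ Y) : |x - y| ≤ X + Y :=
  (abs_sub _ _).trans (add_le_add hx hy)

theorem T4a_bounds {a r g0 g1 g2 h1 h2 p ν B Z : ℝ} (ha : 0 < a) (hB : 1 ≤ B) (haB : 1 / a ≤ B)
    (hν : |ν| ≤ B) (hp : |p| ≤ B) (hh1 : |h1| ≤ B) (hh2 : |h2| ≤ B) (b0 : |g0| ≤ Z)
    (b1 : |r * g0| ≤ Z) (b2 : |r ^ 2 * g0| ≤ Z) (b3 : |g1| ≤ Z) (b4 : |r * g1| ≤ Z)
    (b5 : |g2| ≤ Z) :
    |-ν * ((r ^ 2 / (4 * a ^ 2) - 1 / (2 * a)) * g0 + g2) + p * g1| ≤ 10 * B ^ 3 * Z ∧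
    |-r / (2 * a) * g0 - h1 * g1| ≤ 10 * B ^ 3 * Z ∧
    |-g1| ≤ 10 * B ^ 3 * Z ∧
    |(r ^ 2 / (4 * a ^ 2) - 1 / (2 * a)) * g0 - 2 * h1 * (-r / (2 * a)) * g1 + h1 ^ 2 * g2
      - h2 * g1| ≤ 10 * B ^ 3 * Z ∧
    |g2| ≤ 10 * B ^ 3 * Z := by
  have hZ : 0 ≤ Z := (abs_nonneg _).trans b0
  have hw : |1 / a| ≤ B := by rwa [abs_of_pos (by positivity)]
  have hw2 : |1 / (2 * a)| ≤ B := by
    rw [abs_of_pos (by positivity)]
    refine le_trans ?_ haB
    exact one_div_le_one_div_of_le ha (by linarith)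
  have z1 : Z ≤ B * Z := le_mul_of_one_le_left hZ hB
  have z2 : B * Z ≤ B * (B * Z) := le_mul_of_one_le_left (by positivity) hB
  have z3 : B * (B * Z) ≤ B * (B * (B * Z)) := le_mul_of_one_le_left (by positivity) hB
  have e : 10 * B ^ 3 * Z = 10 * (B * (B * (B * Z))) := by ring
  have hrr : |(r ^ 2 / (4 * a ^ 2) - 1 / (2 * a)) * g0| ≤ B * (B * Z) + B * Z := by
    have : (r ^ 2 / (4 * a ^ 2) - 1 / (2 * a)) * g0 =
        1 / (2 * a) * (1 / (2 * a) * (r ^ 2 * g0)) - 1 / (2 * a) * g0 := by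
      field_simp; ring
    rw [this]
    exact T4a_sub (T4a_mul hw2 (T4a_mul hw2 b2)) (T4a_mul hw2 b0)
  rw [e]
  refine ⟨?_, ?_, ?_, ?_, ?_⟩
  · have hν' : |-ν| ≤ B := by rwa [abs_neg]
    have := T4a_add (T4a_mul hν' (T4a_add hrr b5)) (T4a_mul hp b3)
    refine this.trans ?_
    have e2 : B * (B * (B * Z) + B * Z + Z) = B * (B * (B * Z)) + B * (B * Z) + B * Z := by ring
    rw [e2]; linarith
  · have e1 : -r / (2 * a) * g0 = -(1 / (2 * a) * (r * g0)) := by field_simp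
    have f1 : |-r / (2 * a) * g0| ≤ B * Z := by rw [e1, abs_neg]; exact T4a_mul hw2 b1
    have := T4a_sub f1 (T4a_mul hh1 b3)
    linarith
  · rw [abs_neg]; linarith
  · have e1 : 2 * h1 * (-r / (2 * a)) * g1 = -(h1 * (1 / a * (r * g1))) := by field_simp
    have e3 : h1 ^ 2 * g2 = h1 * (h1 * g2) := by ring
    have f1 : |2 * h1 * (-r / (2 * a)) * g1| ≤ B * (B * Z) := by
      rw [e1, abs_neg]; exact T4a_mul hh1 (T4a_mul hw b4)
    have f2 : |h1 ^ 2 * g2| ≤ B * (B * Z) := by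
      rw [e3]; exact T4a_mul hh1 (T4a_mul hh1 b5)
    have := T4a_sub (T4a_add (T4a_sub hrr f1) f2) (T4a_mul hh2 b3)
    linarith
  · linarith

/-- The normal argument of the kernel. -/
def T4a_Y (φ : ℝ → ℝ → ℝ) (t η x s x' y' : ℝ) : ℝ := η - (y' - φ s x') - ch (φ t) x (x' - x)

theorem T4a_Y_dx (hS : Sheet ρ L M₀ T φ γ) (t η x s x' y' : ℝ) :
    HasDerivAt (fun u => T4a_Y φ t η x s u y') (-(deriv (φ t) x' - deriv (φ s) x')) x' := by
  have h1 := ((hS.curve s).differentiable x').hasDerivAt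
  have h2 := ((hS.curve t).differentiable x').hasDerivAt
  have h3 := (((h1.const_sub y').const_sub η).sub (h2.sub_const (φ t x)))
  have e : (fun u => T4a_Y φ t η x s u y') =
      (fun u => η - (y' - φ s u)) - fun u => φ t u - φ t x := by
    funext u; simp [T4a_Y, ch]
  rw [e]
  exact h3.congr_deriv (by ring)

theorem T4a_Y_dy (t η x s x' y' : ℝ) :
    HasDerivAt (fun u => T4a_Y φ t η x s x' u) (-1) y' := by
  have h3 := (((hasDerivAt_id y').sub_const (φ s x')).const_sub η).sub_const (ch (φ t) x (x' - x))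
  exact h3

theorem T4a_Y_ds (hS : Sheet ρ L M₀ T φ γ) (t η x : ℝ) {s : ℝ} (hs : s ∈ Ioo 0 T) (x' y' : ℝ) :
    HasDerivAt (fun u => T4a_Y φ t η x u x' y') (pt φ γ s x') s := by
  have h3 := (((hS.eqφ s hs x').const_sub y').const_sub η).sub_const (ch (φ t) x (x' - x))
  rw [neg_neg] at h3
  exact h3

theorem T4a_Y_meas (hS : Sheet ρ L M₀ T φ γ) (t η x s : ℝ) :
    Measurable fun p : ℝ × ℝ => T4a_Y φ t η x s p.1 p.2 := by
  have h1 : Measurable fun p : ℝ × ℝ => φ s p.1 := hS.measφ measurable_const measurable_fst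
  have h2 : Measurable fun p : ℝ × ℝ => ch (φ t) x (p.1 - x) :=
    hS.meas_ch measurable_const measurable_const (measurable_fst.sub_const x)
  exact (measurable_const.sub (measurable_snd.sub h1)).sub h2

theorem T4a_Y_cont (hS : Sheet ρ L M₀ T φ γ) (t η x : ℝ) :
    Continuous fun p : ℝ × ℝ × ℝ => T4a_Y φ t η x p.1 p.2.1 p.2.2 := by
  have h1 : Continuous fun p : ℝ × ℝ × ℝ => φ p.1 p.2.1 :=
    hS.contφ.comp (f := fun p : ℝ × ℝ × ℝ => (p.1, p.2.1)) (by fun_prop)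
  have h2 : Continuous fun p : ℝ × ℝ × ℝ => ch (φ t) x (p.2.1 - x) :=
    ((hS.curve t).continuous.comp (by fun_prop)).sub continuous_const
  exact (continuous_const.sub (continuous_snd.snd.sub h1)).sub h2

/-- The moving heat kernel is an admissible test function. -/
theorem gauss_testFn (hS : Sheet ρ L M₀ T φ γ) {ν κ t : ℝ} (hν : 0 < ν) (hκ : 0 < κ) (ht0 : 0 < t)
    (htT : t ≤ T) (η x : ℝ) :
    ∃ (K c : ℝ) (θs θx θy θxx θyy : ℝ → ℝ → ℝ → ℝ),
      TestFn t K c x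
        (fun s x' y' => G (aa ν κ t s) (x' - x) (η - (y' - φ s x') - ch (φ t) x (x' - x)))
        θs θx θy θxx θyy ∧
      ∀ s ∈ Ioo 0 t, ∀ x' y' a b : ℝ,
        θs s x' y' + a * θx s x' y' + b * θy s x' y' + ν * (θxx s x' y' + θyy s x' y')
          = Kw φ γ ν κ t s η x (x' - x, y' - φ s x') ((a : ℂ) - Complex.I * (b : ℂ)) := by
  obtain ⟨K, c, hK, hc, hKc⟩ := Gd_crude (a₀ := κ) (a₁ := ν * t + κ) hκ
  obtain ⟨C, hC, hCb⟩ := hS.bounds
  have hL : 1 ≤ L := (hS.curve 0).one_le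
  have hκ' : 0 < 1 / κ := by positivity
  set B : ℝ := 1 + 1 / κ + ν + 4 * C + 2 * L with hB
  have haa : ∀ s ∈ Icc 0 t, aa ν κ t s ∈ Icc κ (ν * t + κ) := fun s hs => by
    have h1 := mul_nonneg hν.le (sub_nonneg.2 hs.2)
    have h2 := mul_nonneg hν.le hs.1
    unfold aa
    constructor <;> nlinarith
  have hpos : ∀ s ∈ Icc 0 t, 0 < aa ν κ t s := fun s hs => lt_of_lt_of_le hκ (haa s hs).1
  have hB1 : 1 ≤ B := by rw [hB]; linarith
  have hG : ∀ j s, Measurable fun p : ℝ × ℝ =>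
      Gd j (aa ν κ t s) (p.1 - x) (T4a_Y φ t η x s p.1 p.2) := fun j s =>
    measurable_Gd j measurable_const (measurable_fst.sub_const x) (T4a_Y_meas hS t η x s)
  have hm1 : ∀ s, Measurable fun p : ℝ × ℝ => deriv (φ s) p.1 := fun s =>
    hS.meas_d1 measurable_const measurable_fst
  have hm2 : ∀ s, Measurable fun p : ℝ × ℝ => deriv (deriv (φ s)) p.1 := fun s =>
    hS.meas_d2 measurable_const measurable_fst
  have hm3 : ∀ s, Measurable fun p : ℝ × ℝ => pt φ γ s p.1 := fun s =>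
    hS.meas_pt measurable_const measurable_fst
  have hr : ∀ x' : ℝ, HasDerivAt (fun u : ℝ => u - x) 1 x' := fun x' =>
    (hasDerivAt_id x').sub_const x
  have hfun : (fun s x' y' => G (aa ν κ t s) (x' - x) (η - (y' - φ s x') - ch (φ t) x (x' - x))) =
      fun s x' y' => Gd 0 (aa ν κ t s) (x' - x) (T4a_Y φ t η x s x' y') := by
    funext s x' y'; rw [Gd_zero]; rfl
  rw [hfun]
  refine ⟨10 * B ^ 3 * K, c,
    fun s x' y' => -ν * (((x' - x) ^ 2 / (4 * aa ν κ t s ^ 2) - 1 / (2 * aa ν κ t s)) *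
        Gd 0 (aa ν κ t s) (x' - x) (T4a_Y φ t η x s x' y') +
        Gd 2 (aa ν κ t s) (x' - x) (T4a_Y φ t η x s x' y')) +
      pt φ γ s x' * Gd 1 (aa ν κ t s) (x' - x) (T4a_Y φ t η x s x' y'),
    fun s x' y' => -(x' - x) / (2 * aa ν κ t s) *
        Gd 0 (aa ν κ t s) (x' - x) (T4a_Y φ t η x s x' y') -
      (deriv (φ t) x' - deriv (φ s) x') * Gd 1 (aa ν κ t s) (x' - x) (T4a_Y φ t η x s x' y'),
    fun s x' y' => -Gd 1 (aa ν κ t s) (x' - x) (T4a_Y φ t η x s x' y'),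
    fun s x' y' => ((x' - x) ^ 2 / (4 * aa ν κ t s ^ 2) - 1 / (2 * aa ν κ t s)) *
        Gd 0 (aa ν κ t s) (x' - x) (T4a_Y φ t η x s x' y') -
      2 * (deriv (φ t) x' - deriv (φ s) x') * (-(x' - x) / (2 * aa ν κ t s)) *
        Gd 1 (aa ν κ t s) (x' - x) (T4a_Y φ t η x s x' y') +
      (deriv (φ t) x' - deriv (φ s) x') ^ 2 * Gd 2 (aa ν κ t s) (x' - x) (T4a_Y φ t η x s x' y') -
      (deriv (deriv (φ t)) x' - deriv (deriv (φ s)) x') *
        Gd 1 (aa ν κ t s) (x' - x) (T4a_Y φ t η x s x' y'),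
    fun s x' y' => Gd 2 (aa ν κ t s) (x' - x) (T4a_Y φ t η x s x' y'),
    ⟨hc, ?_, ?_, ?_, ?_, ?_, ?_, ?_, ?_, ?_, ?_, ?_, ?_, ?_⟩, ?_⟩
  · intro p hp
    refine (continuousAt_Gd 0 ?_ ?_ (T4a_Y_cont hS t η x).continuousAt
      (hpos p.1 hp.1).ne').continuousWithinAt
    · unfold aa; fun_prop
    · fun_prop
  · intro s hs x' y'
    have ha : HasDerivAt (fun u => aa ν κ t u) (-ν) s := by
      have := (((hasDerivAt_id s).const_sub t).const_mul ν).add_const κ
      rw [mul_neg, mul_one] at this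
      exact this
    exact hasDerivAt_Gd_time (x' - x) ha
      (T4a_Y_ds hS t η x ⟨hs.1, lt_of_lt_of_le hs.2 htT⟩ x' y') (hpos s (Ioo_subset_Icc_self hs))
  · intro s _ x' y'
    have := hasDerivAt_Gd_comp (j := 0) (by norm_num) (aa ν κ t s) (hr x')
      (T4a_Y_dx hS t η x s x' y')
    convert this using 1
    ring
  · intro s _ x' y'
    have := hasDerivAt_Gd_comp (j := 0) (by norm_num) (aa ν κ t s)
      (hasDerivAt_const y' (x' - x)) (T4a_Y_dy (φ := φ) t η x s x' y')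
    convert this using 1
    ring
  · intro s hs x' y'
    have ha := (hpos s (Ioo_subset_Icc_self hs)).ne'
    have g0 := hasDerivAt_Gd_comp (j := 0) (by norm_num) (aa ν κ t s) (hr x')
      (T4a_Y_dx hS t η x s x' y')
    have g1 := hasDerivAt_Gd_comp (j := 1) (by norm_num) (aa ν κ t s) (hr x')
      (T4a_Y_dx hS t η x s x' y')
    have d1 := ((hS.curve t).differentiable_deriv x').hasDerivAt.sub
      ((hS.curve s).differentiable_deriv x').hasDerivAt
    have d2 := (hr x').neg.div_const (2 * aa ν κ t s)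
    refine ((d2.mul g0).sub (d1.mul g1)).congr_deriv ?_
    simp only [Pi.neg_apply, Pi.sub_apply, zero_add, Nat.reduceAdd]
    field_simp
    ring
  · intro s _ x' y'
    have := (hasDerivAt_Gd_comp (j := 1) (by norm_num) (aa ν κ t s)
      (hasDerivAt_const y' (x' - x)) (T4a_Y_dy (φ := φ) t η x s x' y')).neg
    exact this.congr_deriv (by ring)
  · intro s _
    have := hG 0 s; have := hG 1 s; have := hG 2 s; have := hm3 s
    fun_prop
  · intro s _
    have := hG 0 s; have := hG 1 s; have := hm1 s; have := hm1 t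
    fun_prop
  · intro s _
    exact (hG 1 s).neg
  · intro s _
    have := hG 0 s; have := hG 1 s; have := hG 2 s; have := hm1 s; have := hm1 t
    have := hm2 s; have := hm2 t
    fun_prop
  · intro s _
    exact hG 2 s
  · intro s hs x' y'
    have h := hKc _ (haa s hs) 0 (by norm_num) 0 (x' - x) (T4a_Y φ t η x s x' y')
    rw [pow_zero, one_mul] at h
    refine h.trans (mul_le_mul_of_nonneg_right ?_ (Real.exp_pos _).le)
    have : 1 ≤ B ^ 3 := one_le_pow₀ hB1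
    nlinarith
  · intro s hs x' y'
    have hs' := Ioo_subset_Icc_self hs
    have h := fun i hi j => hKc _ (haa s hs') i hi j (x' - x) (T4a_Y φ t η x s x' y')
    have hd1 := T4a_sub ((hS.curve t).abs_deriv_le x') ((hS.curve s).abs_deriv_le x')
    have hd2 := T4a_sub ((hS.curve t).abs_deriv2_le x') ((hS.curve s).abs_deriv2_le x')
    have hp : |pt φ γ s x'| ≤ 4 * C := (hCb s).2.1.abs_le hS.ρ_pos.le (by norm_num) x'
    have := T4a_bounds (r := x' - x) (ν := ν) (B := B) (hpos s hs') hB1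
      ((one_div_le_one_div_of_le hκ (haa s hs').1).trans (by rw [hB]; linarith))
      (by rw [abs_of_pos hν, hB]; linarith) (hp.trans (by rw [hB]; linarith))
      (hd1.trans (by rw [hB]; linarith)) (hd2.trans (by rw [hB]; linarith))
      (by simpa only [pow_zero, one_mul] using h 0 (by norm_num) 0)
      (by simpa only [pow_one] using h 1 (by norm_num) 0) (h 2 le_rfl 0)
      (by simpa only [pow_zero, one_mul] using h 0 (by norm_num) 1)
      (by simpa only [pow_one] using h 1 (by norm_num) 1)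
      (by simpa only [pow_zero, one_mul] using h 0 (by norm_num) 2)
    simpa only [mul_assoc] using this
  · intro s _ x' y' a b
    have e : x + (x' - x) = x' := by ring
    simp only [Kw, Rk, vof, zp, T4a_Y, e, zero_add, Complex.sub_re,
      Complex.ofReal_re, Complex.mul_re, Complex.I_re, Complex.I_im, Complex.ofReal_im,
      Complex.mul_im, Complex.add_re, Complex.add_im, Complex.one_re, Complex.one_im,
      Complex.sub_im]
    ring

end Pool.Agent.Lib.MP_3d41d4_an
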