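import Pool.Agent.Lib.MP_3d41d4_an.EDv2
import Pool.Agent.Lib.MP_3d41d4_an.T3
import Pool.Agent.Lib.MP_3d41d4_an.T4a

open MeasureTheory Set Filter Topology Real
open scoped ENNReal

namespace Pool.Agent.Lib.MP_3d41d4_an

theorem EUq1_even (a x x' Y : ℝ) : G a (x' - x) Y = G a (x - x') Y := by
  unfold G
  rw [show (x' - x) ^ 2 = (x - x') ^ 2 by ring]

/-- The backward heat kernel is an admissible test function. -/
theorem EUq1_test {ν κ t : ℝ} (hν : 0 < ν) (hκ : 0 < κ) (x y : ℝ) : ∃ K c : ℝ,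
    TestFn t K c x (fun s x' y' => Gd 0 (aa ν κ t s) (x' - x) (y - y'))
      (fun s x' y' => -ν * (((x' - x) ^ 2 / (4 * aa ν κ t s ^ 2) - 1 / (2 * aa ν κ t s)) *
        Gd 0 (aa ν κ t s) (x' - x) (y - y') + Gd 2 (aa ν κ t s) (x' - x) (y - y')))
      (fun s x' y' => -(x' - x) / (2 * aa ν κ t s) * Gd 0 (aa ν κ t s) (x' - x) (y - y'))
      (fun s x' y' => -Gd 1 (aa ν κ t s) (x' - x) (y - y'))
      (fun s x' y' => ((x' - x) ^ 2 / (4 * aa ν κ t s ^ 2) - 1 / (2 * aa ν κ t s)) *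
        Gd 0 (aa ν κ t s) (x' - x) (y - y'))
      (fun s x' y' => Gd 2 (aa ν κ t s) (x' - x) (y - y')) := by
  obtain ⟨K, c, hK, hc, hKc⟩ := Gd_crude (a₀ := κ) (a₁ := ν * t + κ) hκ
  have hκ' : 0 < 1 / κ := by positivity
  obtain ⟨B, hB⟩ : ∃ B : ℝ, B = 1 + 1 / κ + ν := ⟨_, rfl⟩
  have haa : ∀ s ∈ Icc 0 t, aa ν κ t s ∈ Icc κ (ν * t + κ) := fun s hs => by
    have h1 := mul_nonneg hν.le (sub_nonneg.2 hs.2)
    have h2 := mul_nonneg hν.le hs.1
    unfold aa
    constructor <;> nlinarith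
  have hpos : ∀ s ∈ Icc 0 t, 0 < aa ν κ t s := fun s hs => lt_of_lt_of_le hκ (haa s hs).1
  have hB1 : 1 ≤ B := by linarith
  have hG : ∀ j s, Measurable fun p : ℝ × ℝ => Gd j (aa ν κ t s) (p.1 - x) (y - p.2) := fun j s =>
    measurable_Gd j measurable_const (measurable_fst.sub_const x) (measurable_snd.const_sub y)
  have hr : ∀ x' : ℝ, HasDerivAt (fun u : ℝ => u - x) 1 x' := fun x' =>
    (hasDerivAt_id x').sub_const x
  have hY : ∀ y' : ℝ, HasDerivAt (fun u : ℝ => y - u) (-1) y' := fun y' =>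
    (hasDerivAt_id y').const_sub y
  refine ⟨10 * B ^ 3 * K, c, hc, fun p hp => ?_, fun s hs x' y' => ?_, fun s _ x' y' => ?_,
    fun s _ x' y' => ?_, fun s hs x' y' => ?_, fun s _ x' y' => ?_, fun s _ => ?_, fun s _ => ?_,
    fun s _ => (hG 1 s).neg, fun s _ => ?_, fun s _ => hG 2 s, fun s hs x' y' => ?_,
    fun s hs x' y' => ?_⟩
  · refine (continuousAt_Gd 0 (a := fun p : ℝ × ℝ × ℝ => aa ν κ t p.1) (r := fun p => p.2.1 - x)
      (Y := fun p => y - p.2.2) ?_ (by fun_prop) (by fun_prop)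
      (hpos p.1 hp.1).ne').continuousWithinAt
    unfold aa
    fun_prop
  · have ha : HasDerivAt (fun u => aa ν κ t u) (-ν) s := by
      have := (((hasDerivAt_id s).const_sub t).const_mul ν).add_const κ
      rw [mul_neg, mul_one] at this
      exact this
    exact (hasDerivAt_Gd_time (x' - x) ha (hasDerivAt_const s (y - y'))
      (hpos s (Ioo_subset_Icc_self hs))).congr_deriv (by ring)
  · exact (hasDerivAt_Gd_comp (j := 0) (by norm_num) (aa ν κ t s) (hr x')
      (hasDerivAt_const x' (y - y'))).congr_deriv (by ring)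
  · exact (hasDerivAt_Gd_comp (j := 0) (by norm_num) (aa ν κ t s)
      (hasDerivAt_const y' (x' - x)) (hY y')).congr_deriv (by ring)
  · have ha := (hpos s (Ioo_subset_Icc_self hs)).ne'
    refine (((hr x').neg.div_const (2 * aa ν κ t s)).mul (hasDerivAt_Gd_comp (j := 0)
      (by norm_num) (aa ν κ t s) (hr x') (hasDerivAt_const x' (y - y')))).congr_deriv ?_
    simp only [Pi.neg_apply]
    field_simp
    ring
  · exact (hasDerivAt_Gd_comp (j := 1) (by norm_num) (aa ν κ t s)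
      (hasDerivAt_const y' (x' - x)) (hY y')).neg.congr_deriv (by ring)
  · have := hG 0 s
    have := hG 2 s
    fun_prop
  · have := hG 0 s
    fun_prop
  · have := hG 0 s
    fun_prop
  · have h := hKc _ (haa s hs) 0 (by norm_num) 0 (x' - x) (y - y')
    rw [pow_zero, one_mul] at h
    refine h.trans (mul_le_mul_of_nonneg_right ?_ (Real.exp_pos _).le)
    have : 1 ≤ B ^ 3 := one_le_pow₀ hB1
    nlinarith
  · have hs' := Ioo_subset_Icc_self hs
    have h := fun i hi j => hKc _ (haa s hs') i hi j (x' - x) (y - y')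
    have h0 : |(0 : ℝ)| ≤ B := by rw [abs_zero]; linarith
    have := T4a_bounds (r := x' - x) (ν := ν) (B := B) (hpos s hs') hB1
      ((one_div_le_one_div_of_le hκ (haa s hs').1).trans (by linarith))
      (by rw [abs_of_pos hν]; linarith) h0 h0 h0
      (by simpa only [pow_zero, one_mul] using h 0 (by norm_num) 0)
      (by simpa only [pow_one] using h 1 (by norm_num) 0) (h 2 le_rfl 0)
      (by simpa only [pow_zero, one_mul] using h 0 (by norm_num) 1)
      (by simpa only [pow_one] using h 1 (by norm_num) 1)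
      (by simpa only [pow_zero, one_mul] using h 0 (by norm_num) 2)
    simpa only [mul_assoc, zero_mul, mul_zero, add_zero, sub_zero, sq (0 : ℝ)] using this

/-- The smoothed Duhamel formula for a solution in the class `IsNS`. Sketch: `weakId` with
`θ s x' y' = G (ν (t - s) + κ) (x - x') (y - y')` (`G_hasDerivAt`; the bounds of `TestFn` as in
`gauss_testFn`, from `Gd_crude` or `ker_bound_real`); `θs + ν (θxx + θyy) = 0`, `θx = -Gx`,
`θy = -Gy`. -/
theorem isNS_duhamel {ν T M : ℝ} {φ γ : ℝ → ℝ} {V u v : ℝ → ℝ → ℝ → ℝ} (hν : 0 < ν)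
    (hd : Dat M φ γ) (h : IsNS ν T φ γ V u v) {t κ : ℝ} (ht : t ∈ Ioo 0 T) (hκ : 0 < κ)
    (x y : ℝ) :
    IntegrableOn (fun s => dv (ν * (t - s) + κ) (fun x' y' => u s x' y' * V s x' y')
      (fun x' y' => v s x' y' * V s x' y') x y) (Ioo 0 t) ∧
    hc κ (V t) x y = lin φ γ (ν * t + κ) x y -
      ∫ s in Ioo 0 t, dv (ν * (t - s) + κ) (fun x' y' => u s x' y' * V s x' y')
        (fun x' y' => v s x' y' * V s x' y') x y := by
  obtain ⟨K, c, hT⟩ := EUq1_test (t := t) hν hκ x y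
  obtain ⟨-, h2, h3⟩ := weakId h hν ht.1 ht.2 hd.cφ hd.pφ hd.cγ hd.pγ hT
  have e : ∀ s, ∫ p, wI ν V u v
      (fun s x' y' => -ν * (((x' - x) ^ 2 / (4 * aa ν κ t s ^ 2) - 1 / (2 * aa ν κ t s)) *
        Gd 0 (aa ν κ t s) (x' - x) (y - y') + Gd 2 (aa ν κ t s) (x' - x) (y - y')))
      (fun s x' y' => -(x' - x) / (2 * aa ν κ t s) * Gd 0 (aa ν κ t s) (x' - x) (y - y'))
      (fun s x' y' => -Gd 1 (aa ν κ t s) (x' - x) (y - y'))
      (fun s x' y' => ((x' - x) ^ 2 / (4 * aa ν κ t s ^ 2) - 1 / (2 * aa ν κ t s)) *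
        Gd 0 (aa ν κ t s) (x' - x) (y - y'))
      (fun s x' y' => Gd 2 (aa ν κ t s) (x' - x) (y - y')) s p =
      -dv (ν * (t - s) + κ) (fun x' y' => u s x' y' * V s x' y')
        (fun x' y' => v s x' y' * V s x' y') x y := fun s => by
    rw [dv, ← integral_neg]
    refine integral_congr_ae (Eventually.of_forall fun p => ?_)
    simp only [wI, Gx, Gy, Gd, hp, aa, EUq1_even _ x p.1]
    ring
  simp only [e] at h2 h3
  refine ⟨integrable_neg_iff.1 h2, ?_⟩
  rw [integral_neg] at h3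
  simpa only [hc, lin, Gd_zero, aa, sub_self, mul_zero, zero_add, sub_zero, EUq1_even _ x,
    sub_eq_add_neg (∫ _, _)] using h3

end Pool.Agent.Lib.MP_3d41d4_an
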