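import Pool.Agent.Lib.MP_3d41d4_an.Defs

open MeasureTheory Set Filter Topology Real
open scoped ENNReal

namespace Pool.Agent.Lib.MP_3d41d4_an

theorem Kc_cot (a b : ℝ) : Complex.cot (((a : ℂ) + Complex.I * (b : ℂ)) / 2) =
    ((Real.sin a : ℂ) - Complex.I * (Real.sinh b : ℂ)) / ((Real.cosh b - Real.cos a : ℝ) : ℂ) := by
  set w : ℂ := ((a : ℂ) + Complex.I * (b : ℂ)) / 2 with hw
  have hc : (starRingEnd ℂ) w = ((a : ℂ) - Complex.I * (b : ℂ)) / 2 := by
    simp [hw, map_div₀, sub_eq_add_neg, map_ofNat]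
  have e1 : w + (starRingEnd ℂ) w = a := by rw [hc, hw]; ring
  have e2 : w - (starRingEnd ℂ) w = b * Complex.I := by rw [hc, hw]; ring
  have h1 : ((Complex.normSq (Complex.sin w) : ℝ) : ℂ) =
      ((Real.cosh b - Real.cos a : ℝ) : ℂ) / 2 := by
    rw [← Complex.mul_conj, ← Complex.sin_conj]
    push_cast
    rw [← Complex.cos_mul_I, ← e1, ← e2, Complex.cos_add, Complex.cos_sub]
    ring
  have h2 : Complex.cos w * (starRingEnd ℂ) (Complex.sin w) =
      ((Real.sin a : ℂ) - Complex.I * (Real.sinh b : ℂ)) / 2 := by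
    rw [← Complex.sin_conj]
    push_cast
    rw [mul_comm Complex.I, ← Complex.sin_mul_I, ← e1, ← e2, Complex.sin_add, Complex.sin_sub]
    ring
  rw [Complex.cot_eq_cos_div_sin, div_eq_mul_inv, Complex.inv_def, ← mul_assoc, h2,
    Complex.ofReal_inv, h1, inv_div]
  ring

theorem kc_eq (a b : ℝ) :
    kc ((a : ℂ) + Complex.I * (b : ℂ)) = (K1 a b : ℂ) - Complex.I * (K2 a b : ℂ) := by
  rw [kc, Kc_cot, K1, K2, div_eq_mul_inv _ (4 * (π : ℂ) * Complex.I), mul_inv, Complex.inv_I]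
  push_cast
  simp only [div_eq_mul_inv, mul_inv]
  linear_combination (Complex.sinh b * (Complex.cosh b - Complex.cos a)⁻¹ * 4⁻¹ * (π : ℂ)⁻¹) *
    Complex.I_mul_I

theorem kc_add_two_pi (s : ℂ) : kc (s + 2 * (π : ℂ)) = kc s := by
  have e : (s + 2 * (π : ℂ)) / 2 = s / 2 + π := by ring
  rw [kc, kc, e, Complex.cot_eq_cos_div_sin, Complex.cot_eq_cos_div_sin, Complex.cos_add_pi,
    Complex.sin_add_pi, neg_div_neg_eq]

theorem kc_neg (s : ℂ) : kc (-s) = -kc s := by
  rw [kc, kc, neg_div, Complex.cot_eq_cos_div_sin, Complex.cot_eq_cos_div_sin, Complex.cos_neg,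
    Complex.sin_neg, div_neg, neg_div]

theorem measurable_kc : Measurable kc := by
  have e : kc = fun s => Complex.cos (s / 2) / Complex.sin (s / 2) / (4 * (π : ℂ) * Complex.I) :=
    funext fun s => by rw [kc, Complex.cot_eq_cos_div_sin]
  rw [e]
  exact ((by fun_prop : Continuous fun s : ℂ => Complex.cos (s / 2)).measurable.div
    (by fun_prop : Continuous fun s : ℂ => Complex.sin (s / 2)).measurable).div_const _

theorem sin_half_eq_zero_iff (s : ℂ) :
    Complex.sin (s / 2) = 0 ↔ ∃ k : ℤ, s = 2 * (π : ℂ) * (k : ℂ) := by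
  rw [Complex.sin_eq_zero_iff]
  exact exists_congr fun k => ⟨fun h => by linear_combination 2 * h, fun h => by rw [h]; ring⟩

theorem sin_half_ne_zero {s : ℂ} (h0 : s ≠ 0) (h : |s.re| < 2 * π) :
    Complex.sin (s / 2) ≠ 0 := by
  intro e
  obtain ⟨k, rfl⟩ := (sin_half_eq_zero_iff s).1 e
  have e1 : (2 * (π : ℂ) * (k : ℂ)).re = 2 * π * k := by simp
  have hk : k ≠ 0 := fun e => h0 (by simp [e])
  have h1 : (1 : ℝ) ≤ |(k : ℝ)| := by exact_mod_cast Int.one_le_abs hk
  rw [e1, abs_mul, abs_of_pos Real.two_pi_pos] at h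
  nlinarith [Real.pi_pos]

theorem differentiableAt_kc {s : ℂ} (h : Complex.sin (s / 2) ≠ 0) :
    DifferentiableAt ℂ kc s := by
  have e : kc = fun s => Complex.cos (s / 2) / Complex.sin (s / 2) / (4 * (π : ℂ) * Complex.I) :=
    funext fun s => by rw [kc, Complex.cot_eq_cos_div_sin]
  rw [e]
  exact ((by fun_prop : DifferentiableAt ℂ (fun s : ℂ => Complex.cos (s / 2)) s).div
    (by fun_prop : DifferentiableAt ℂ (fun s : ℂ => Complex.sin (s / 2)) s) h).div_const _

theorem differentiableOn_kc : DifferentiableOn ℂ kc {s | Complex.sin (s / 2) ≠ 0} :=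
  fun _ h => (differentiableAt_kc h).differentiableWithinAt

theorem Kc_far {s : ℂ} (h : 1 ≤ |s.im|) : ‖kc s‖ ≤ 1 := by
  have hD : 3 / 2 ≤ Real.cosh s.im := by
    rw [← Real.cosh_abs]
    refine le_trans ?_ (Real.cosh_le_cosh.2 (by rwa [abs_one, abs_abs]) :
      Real.cosh 1 ≤ Real.cosh |s.im|)
    have h1 := Real.exp_one_gt_d9
    have h2 := Real.exp_neg_one_gt_d9
    rw [Real.cosh_eq]
    linarith
  have hs : |Real.sinh s.im| ≤ Real.cosh s.im := by
    rw [Real.abs_sinh, ← Real.cosh_abs]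
    exact (Real.sinh_lt_cosh _).le
  have h1 := Real.cos_le_one s.re
  have hp : 0 < 4 * π * (Real.cosh s.im - Real.cos s.re) :=
    mul_pos (by positivity) (by linarith)
  have e : s = (s.re : ℂ) + Complex.I * (s.im : ℂ) := by rw [mul_comm, Complex.re_add_im]
  rw [e, kc_eq]
  refine (norm_sub_le _ _).trans ?_
  rw [norm_mul, Complex.norm_I, one_mul, Complex.norm_real, Complex.norm_real, K1, K2,
    Real.norm_eq_abs, Real.norm_eq_abs, abs_div, abs_div, abs_neg, abs_of_pos hp, ← add_div,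
    div_le_one hp]
  have h2 := Real.abs_sin_le_one s.re
  nlinarith [Real.pi_gt_three]

theorem Kc_compact : ∃ C : ℝ, ∀ w : ℂ, w ≠ 0 → |w.re| ≤ 3 * π / 4 → |w.im| ≤ 1 →
    ‖Complex.cot w - 1 / w‖ ≤ C := by
  set f : ℂ → ℂ := fun w => w * Complex.cos w - Complex.sin w with hf
  have hd : DifferentiableOn ℂ f univ := by
    rw [hf]
    fun_prop
  have h0 : deriv f 0 = 0 := by
    have : HasDerivAt f _ 0 :=
      ((hasDerivAt_id (0 : ℂ)).mul (Complex.hasDerivAt_cos 0)).sub (Complex.hasDerivAt_sin 0)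
    rw [this.deriv]
    simp
  have c1 : ContinuousOn (dslope (dslope f 0) 0) univ :=
    ((Complex.differentiableOn_dslope univ_mem).2
      ((Complex.differentiableOn_dslope univ_mem).2 hd)).continuousOn
  have c2 : ContinuousOn (dslope Complex.sin 0) univ :=
    ((Complex.differentiableOn_dslope univ_mem).2
      Complex.differentiable_sin.differentiableOn).continuousOn
  have hne : ∀ w : ℂ, w ≠ 0 → |w.re| ≤ 3 * π / 4 → Complex.sin w ≠ 0 := fun w hw h => by
    have := sin_half_ne_zero (s := 2 * w) (by simpa using hw) (by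
      rw [show (2 * w).re = 2 * w.re by simp, abs_mul, abs_two]
      linarith [Real.pi_pos])
    rwa [mul_div_cancel_left₀ _ two_ne_zero] at this
  have hK : IsCompact (Icc (-(3 * π / 4)) (3 * π / 4) ×ℂ Icc (-1 : ℝ) 1) :=
    isCompact_Icc.reProdIm isCompact_Icc
  obtain ⟨C, hC⟩ := hK.exists_bound_of_continuousOn
    (f := fun w => dslope (dslope f 0) 0 w / dslope Complex.sin 0 w)
    ((c1.mono (subset_univ _)).div (c2.mono (subset_univ _)) fun w hw => by
      rcases eq_or_ne w 0 with rfl | h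
      · simp
      · rw [dslope_of_ne _ h, slope_def_field, Complex.sin_zero, sub_zero, sub_zero]
        exact div_ne_zero (hne w h (abs_le.2 hw.1)) h)
  refine ⟨C, fun w hw h1 h2 => le_of_eq_of_le ?_ (hC w ⟨abs_le.1 h1, abs_le.1 h2⟩)⟩
  have h3 := hne w hw h1
  congr 1
  simp only [dslope_of_ne _ hw, slope_def_field, dslope_same, h0]
  simp only [hf, Complex.sin_zero, sub_zero, zero_mul, Complex.cot_eq_cos_div_sin]
  field_simp

/-- The kernel is the Cauchy kernel up to a bounded error. -/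
theorem kc_near : ∃ C : ℝ, 0 < C ∧ ∀ s : ℂ, s ≠ 0 → |s.re| ≤ 3 * π / 2 →
    ‖kc s - 1 / (2 * (π : ℂ) * Complex.I * s)‖ ≤ C := by
  obtain ⟨C, hC⟩ := Kc_compact
  have hπ : (π : ℂ) ≠ 0 := Complex.ofReal_ne_zero.2 Real.pi_ne_zero
  refine ⟨|C| + 2, by positivity, fun s hs h => ?_⟩
  rcases le_total 1 |s.im| with h1 | h1
  · refine (norm_sub_le _ _).trans ?_
    have h2 : 1 ≤ ‖s‖ := h1.trans (Complex.abs_im_le_norm s)
    have h3 : ‖1 / (2 * (π : ℂ) * Complex.I * s)‖ ≤ 1 := by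
      rw [norm_div, norm_one]
      refine div_le_one_of_le₀ ?_ (norm_nonneg _)
      rw [norm_mul, norm_mul, norm_mul, Complex.norm_I, Complex.norm_real, Complex.norm_two,
        Real.norm_eq_abs, abs_of_pos Real.pi_pos]
      nlinarith [Real.pi_gt_three]
    linarith [Kc_far h1, abs_nonneg C]
  · have h2 := hC (s / 2) (by simpa using hs)
      (by rw [show (s / 2).re = s.re / 2 by simp, abs_div, abs_two]; linarith)
      (by rw [show (s / 2).im = s.im / 2 by simp, abs_div, abs_two]; linarith)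
    have e : kc s - 1 / (2 * (π : ℂ) * Complex.I * s) =
        (Complex.cot (s / 2) - 1 / (s / 2)) / (4 * (π : ℂ) * Complex.I) := by
      rw [kc]
      field_simp
      ring
    have h3 : 1 ≤ ‖4 * (π : ℂ) * Complex.I‖ := by
      rw [norm_mul, norm_mul, Complex.norm_I, Complex.norm_real, Complex.norm_ofNat,
        Real.norm_eq_abs, abs_of_pos Real.pi_pos]
      linarith [Real.pi_gt_three]
    rw [e, norm_div]
    refine (div_le_self (norm_nonneg _) h3).trans ?_
    linarith [le_abs_self C]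

theorem norm_kc_le : ∃ C : ℝ, 0 < C ∧ ∀ s : ℂ, s ≠ 0 → |s.re| ≤ 3 * π / 2 →
    ‖kc s‖ ≤ C * (1 + 1 / ‖s‖) := by
  obtain ⟨C, h0, hC⟩ := kc_near
  refine ⟨C + 1, by positivity, fun s hs h => ?_⟩
  have h1 : 0 < ‖s‖ := norm_pos_iff.2 hs
  have h2 : ‖1 / (2 * (π : ℂ) * Complex.I * s)‖ ≤ 1 / ‖s‖ := by
    rw [norm_div, norm_one]
    refine one_div_le_one_div_of_le h1 ?_
    rw [norm_mul, norm_mul, norm_mul, Complex.norm_I, Complex.norm_real, Complex.norm_two,
      Real.norm_eq_abs, abs_of_pos Real.pi_pos]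
    nlinarith [Real.pi_gt_three]
  have h3 := norm_sub_norm_le (kc s) (1 / (2 * (π : ℂ) * Complex.I * s))
  have h4 : 0 < 1 / ‖s‖ := by positivity
  nlinarith [hC s hs h]

end Pool.Agent.Lib.MP_3d41d4_an
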