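import Pool.Agent.Lib.MP_3d41d4_an.EGm
import Pool.Agent.Lib.MP_3d41d4_an.Kc
import Pool.Agent.Lib.MP_3d41d4_an.Gauss2

open MeasureTheory Set Filter Topology Real
open scoped ENNReal

namespace Pool.Agent.Lib.MP_3d41d4_an

theorem K1_meas : Measurable fun w : ℝ × ℝ => K1 w.1 w.2 := by
  unfold K1
  fun_prop

theorem K2_meas : Measurable fun w : ℝ × ℝ => K2 w.1 w.2 := by
  unfold K2
  fun_prop

theorem Kn_meas : Measurable Kn := by
  exact K1_meas.abs.add K2_meas.abs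

theorem Kn_nonneg (w : ℝ × ℝ) : 0 ≤ Kn w := by
  exact add_nonneg (abs_nonneg _) (abs_nonneg _)

theorem K_per (a b : ℝ) : K1 (a + 2 * π) b = K1 a b ∧ K2 (a + 2 * π) b = K2 a b := by
  simp only [K1, K2, Real.cos_add_two_pi, Real.sin_add_two_pi, and_self]

theorem K_neg (a b : ℝ) : K1 (-a) (-b) = -K1 a b ∧ K2 (-a) (-b) = -K2 a b := by
  simp only [K1, K2, Real.cos_neg, Real.sin_neg, Real.cosh_neg, Real.sinh_neg, neg_div, and_self]

theorem norm_kc_le_Kn (a b : ℝ) : ‖kc ((a : ℂ) + Complex.I * (b : ℂ))‖ ≤ Kn (a, b) := by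
  rw [kc_eq]
  refine (norm_sub_le _ _).trans (le_of_eq ?_)
  simp [Kn]

/-- The truncated inverse square root. -/
noncomputable def EVel_s (ρ : ℝ) : ℝ → ℝ := (Ioc (-ρ) ρ).indicator fun u => 1 / √|u|

theorem EVel_nonneg (ρ u : ℝ) : 0 ≤ EVel_s ρ u :=
  indicator_nonneg (fun _ _ => by positivity) u

theorem EVel_int {ρ : ℝ} (hρ : 0 ≤ ρ) :
    Integrable (EVel_s ρ) ∧ ∫ u, EVel_s ρ u = 4 * √ρ := by
  obtain ⟨h1, h2⟩ := Gauss2_abs hρ
  rw [intervalIntegrable_iff_integrableOn_Ioc_of_le (by linarith)] at h1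
  rw [intervalIntegral.integral_of_le (by linarith)] at h2
  exact ⟨(integrable_indicator_iff measurableSet_Ioc).2 h1,
    (integral_indicator measurableSet_Ioc).trans h2⟩

theorem EVel_point : ∃ C : ℝ, 0 < C ∧ ∀ ρ : ℝ, 0 < ρ → ρ ≤ 1 → ∀ w ∈ cyl0, w.1 ≠ 0 → w.2 ≠ 0 →
    Kn w ≤ C * (2 / ρ + EVel_s ρ w.1 * EVel_s ρ w.2) := by
  obtain ⟨C, hC, hK⟩ := norm_kc_le
  refine ⟨2 * C, by positivity, fun ρ hρ h1 ⟨a, b⟩ hw ha hb => ?_⟩
  set s : ℂ := (a : ℂ) + Complex.I * (b : ℂ) with hs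
  have e1 : |a| ≤ ‖s‖ := by simpa [hs] using Complex.abs_re_le_norm s
  have e2 : |b| ≤ ‖s‖ := by simpa [hs] using Complex.abs_im_le_norm s
  have a0 : 0 < |a| := abs_pos.2 ha
  have b0 : 0 < |b| := abs_pos.2 hb
  have e3 := hK s (norm_pos_iff.1 (a0.trans_le e1)) (by
    have : |a| ≤ π := abs_le.2 ⟨hw.1.1.le, hw.1.2⟩
    simp only [hs, Complex.add_re, Complex.ofReal_re, Complex.mul_re, Complex.I_re, zero_mul,
      Complex.I_im, Complex.ofReal_im, mul_zero, sub_zero, add_zero]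
    linarith [Real.pi_pos])
  have e4 : |K1 a b| ≤ ‖kc s‖ := by simpa [hs, kc_eq] using Complex.abs_re_le_norm (kc s)
  have e5 : |K2 a b| ≤ ‖kc s‖ := by simpa [hs, kc_eq] using Complex.abs_im_le_norm (kc s)
  have e6 : 1 / ‖s‖ ≤ 1 / ρ + EVel_s ρ a * EVel_s ρ b := by
    have f0 := mul_nonneg (EVel_nonneg ρ a) (EVel_nonneg ρ b)
    have f1 : ∀ u : ℝ, |u| ≤ ‖s‖ → u ∉ Ioc (-ρ) ρ → 1 / ‖s‖ ≤ 1 / ρ := fun u hu hn => by
      refine one_div_le_one_div_of_le hρ (le_trans (not_lt.1 fun hl => hn ?_) hu)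
      exact ⟨(abs_lt.1 hl).1, (abs_lt.1 hl).2.le⟩
    by_cases m1 : a ∈ Ioc (-ρ) ρ
    · by_cases m2 : b ∈ Ioc (-ρ) ρ
      · refine le_add_of_nonneg_of_le (by positivity) ?_
        rw [EVel_s, indicator_of_mem m1, indicator_of_mem m2, one_div_mul_one_div]
        refine one_div_le_one_div_of_le (by positivity) ?_
        rw [← Real.mul_self_sqrt (norm_nonneg s)]
        exact mul_le_mul (Real.sqrt_le_sqrt e1) (Real.sqrt_le_sqrt e2) (by positivity)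
          (by positivity)
      · linarith [f1 b e2 m2]
    · linarith [f1 a e1 m1]
  have e7 : 1 ≤ 1 / ρ := one_le_one_div hρ h1
  have e8 : 1 + 1 / ‖s‖ ≤ 2 / ρ + EVel_s ρ a * EVel_s ρ b := by
    have : 2 / ρ = 1 / ρ + 1 / ρ := by ring
    linarith
  have e9 := mul_le_mul_of_nonneg_left e8 hC.le
  change |K1 a b| + |K2 a b| ≤ _
  linarith

/-- The basic interpolation bound. Sketch: for `w ≠ 0` in `cyl0`, `Kn w ≤ C (1 + 1 / ‖w‖)`
(`kc_eq`, `norm_kc_le`); if `|w₁| < ρ` and `|w₂| < ρ` use `1 / ‖w‖ ≤ 1 / (√|w₁| √|w₂|)` whose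
integral over the square is `16 ρ` (`Gauss2_abs`, `Gauss2_lint`), otherwise `1 / ‖w‖ ≤ 1 / ρ`. -/
theorem Kn_int : ∃ C : ℝ, 0 < C ∧ ∀ (h : ℝ × ℝ → ℝ) (A B ρ : ℝ), IntegrableOn h cyl0 →
    (∀ w, 0 ≤ h w) → (∀ w, h w ≤ B) → ∫ w in cyl0, h w ≤ A → 0 < ρ → ρ ≤ 1 →
      IntegrableOn (fun w => Kn w * h w) cyl0 ∧ ∫ w in cyl0, Kn w * h w ≤ C * (A / ρ + ρ * B) := by
  obtain ⟨C, hC, hK⟩ := EVel_point
  refine ⟨32 * C, by positivity, fun h A B ρ hi h0 hB hA hρ h1 => ?_⟩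
  obtain ⟨s1, s2⟩ := EVel_int hρ.le
  have hB0 : 0 ≤ B := (h0 0).trans (hB 0)
  have hA0 : 0 ≤ A := (integral_nonneg h0).trans hA
  have hS : Integrable (fun w : ℝ × ℝ => EVel_s ρ w.1 * EVel_s ρ w.2) := s1.mul_prod s1
  have hS0 : ∀ w : ℝ × ℝ, 0 ≤ EVel_s ρ w.1 * EVel_s ρ w.2 := fun w =>
    mul_nonneg (EVel_nonneg _ _) (EVel_nonneg _ _)
  have hS2 : ∫ w in cyl0, EVel_s ρ w.1 * EVel_s ρ w.2 ≤ 16 * ρ := by
    refine (setIntegral_le_integral hS (ae_of_all _ hS0)).trans (le_of_eq ?_)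
    rw [Measure.volume_eq_prod, integral_prod_mul, s2]
    nlinarith [Real.mul_self_sqrt hρ.le]
  have hM : IntegrableOn (fun w : ℝ × ℝ =>
      C * (2 / ρ * h w + B * (EVel_s ρ w.1 * EVel_s ρ w.2))) cyl0 :=
    ((hi.const_mul _).add (hS.integrableOn.const_mul _)).const_mul _
  have hle : ∀ᵐ w ∂(volume.restrict cyl0),
      Kn w * h w ≤ C * (2 / ρ * h w + B * (EVel_s ρ w.1 * EVel_s ρ w.2)) := by
    have a1 : ∀ᵐ w : ℝ × ℝ, w.1 ≠ 0 :=
      Measure.quasiMeasurePreserving_fst.ae (Measure.ae_ne volume (0 : ℝ))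
    have a2 : ∀ᵐ w : ℝ × ℝ, w.2 ≠ 0 :=
      Measure.quasiMeasurePreserving_snd.ae (Measure.ae_ne volume (0 : ℝ))
    filter_upwards [ae_restrict_mem measurableSet_cyl0, ae_restrict_of_ae a1,
      ae_restrict_of_ae a2] with w hw b1 b2
    have e1 := mul_le_mul_of_nonneg_right (hK ρ hρ h1 w hw b1 b2) (h0 w)
    have e2 := mul_le_mul_of_nonneg_left (mul_le_mul_of_nonneg_left (hB w) (hS0 w)) hC.le
    nlinarith
  have hI : IntegrableOn (fun w => Kn w * h w) cyl0 :=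
    hM.mono' (Kn_meas.aestronglyMeasurable.mul hi.aestronglyMeasurable)
      (hle.mono fun w hw => by rwa [Real.norm_of_nonneg (mul_nonneg (Kn_nonneg w) (h0 w))])
  refine ⟨hI, (integral_mono_ae hI hM hle).trans ?_⟩
  rw [integral_const_mul, integral_add (hi.const_mul _) (hS.integrableOn.const_mul _),
    integral_const_mul, integral_const_mul]
  have e1 : 2 / ρ * ∫ w in cyl0, h w ≤ 2 * (A / ρ) :=
    (mul_le_mul_of_nonneg_left hA (by positivity)).trans (le_of_eq (by ring))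
  have e2 := mul_le_mul_of_nonneg_left hS2 hB0
  have e3 : 0 ≤ A / ρ := by positivity
  have e4 : 0 ≤ ρ * B := by positivity
  rw [mul_comm 32 C, mul_assoc]
  exact mul_le_mul_of_nonneg_left (by linarith) hC.le

/-- `Kn_int` with `ρ = min 1 √√c`, `gm_mass0`, `gm_le`. -/
theorem Kn_gm : ∃ C : ℝ, 0 < C ∧ ∀ φ : ℝ → ℝ, Continuous φ → ∀ c : ℝ, 0 < c → ∀ x y : ℝ,
    IntegrableOn (fun w : ℝ × ℝ => Kn w * gm φ c (x - w.1) (y - w.2)) cyl0 ∧
      ∫ w in cyl0, Kn w * gm φ c (x - w.1) (y - w.2) ≤ C * (1 + 1 / √(√c)) := by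
  obtain ⟨C, hC, hK⟩ := Kn_int
  refine ⟨C * (2 * π + 1), by positivity, fun φ hφ c hc x y => ?_⟩
  have hs : 0 < √(√c) := by positivity
  have hρ : 0 < min 1 √(√c) := lt_min one_pos hs
  obtain ⟨h1, h2⟩ := hK (fun w => gm φ c (x - w.1) (y - w.2)) (2 * π) (1 / √c) _
    (gm_mass0 hφ hc x y).1 (fun w => gm_nonneg φ hc.le _ _) (fun w => gm_le hφ hc _ _)
    (gm_mass0 hφ hc x y).2.le hρ (min_le_left _ _)
  refine ⟨h1, h2.trans ?_⟩
  rw [mul_assoc]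
  refine mul_le_mul_of_nonneg_left ?_ hC.le
  have e0 : 0 < 1 / √(√c) := by positivity
  have e1 : 1 / min 1 √(√c) ≤ 1 + 1 / √(√c) := by
    rcases min_choice 1 √(√c) with e | e <;> rw [e] <;> linarith
  have e2 : min 1 √(√c) * (1 / √c) ≤ 1 / √(√c) := by
    refine (mul_le_mul_of_nonneg_right (min_le_right _ _) (by positivity)).trans (le_of_eq ?_)
    have := Real.mul_self_sqrt (Real.sqrt_nonneg c)
    generalize √(√c) = r at *
    rw [← this]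
    field_simp
  have e3 := mul_le_mul_of_nonneg_left e1 (by positivity : 0 ≤ 2 * π)
  rw [mul_one_div] at e3
  nlinarith [Real.pi_pos]

theorem Kn_exp : ∃ C : ℝ, 0 < C ∧ ∀ y : ℝ,
    IntegrableOn (fun w : ℝ × ℝ => Kn w * Real.exp (-|y - w.2|)) cyl0 ∧
      ∫ w in cyl0, Kn w * Real.exp (-|y - w.2|) ≤ C := by
  obtain ⟨C, hC, hK⟩ := Kn_int
  have hE : Integrable fun v : ℝ => Real.exp (-|v|) := by
    rw [← integrableOn_univ, ← Iic_union_Ioi (a := (0 : ℝ))]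
    refine ((integrableOn_exp_Iic 0).congr_fun (fun v hv => ?_) measurableSet_Iic).union
      ((integrableOn_exp_neg_Ioi 0).congr_fun (fun v hv => ?_) measurableSet_Ioi)
    · simp only [abs_of_nonpos (mem_Iic.1 hv), neg_neg]
    · simp only [abs_of_pos (mem_Ioi.1 hv)]
  have h0 : 0 ≤ (volume.restrict (Ioc (-π) π)).real univ * ∫ v : ℝ, Real.exp (-|v|) :=
    mul_nonneg measureReal_nonneg (integral_nonneg fun v => (Real.exp_pos _).le)
  refine ⟨C * (_ / 1 + 1 * 1), mul_pos hC ?_, fun y =>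
    hK (fun w => Real.exp (-|y - w.2|))
      ((volume.restrict (Ioc (-π) π)).real univ * ∫ v : ℝ, Real.exp (-|v|)) 1 1 ?_
      (fun w => (Real.exp_pos _).le) (fun w => ?_) (le_of_eq ?_) one_pos le_rfl⟩
  · positivity
  · rw [IntegrableOn, cyl0, Cyl0_restrict]
    exact (hE.comp_sub_left y).comp_snd _
  · exact Real.exp_le_one_iff.2 (neg_nonpos.2 (abs_nonneg _))
  · rw [cyl0, Cyl0_restrict, integral_fun_snd fun v => Real.exp (-|y - v|),
      integral_sub_left_eq_self (fun v => Real.exp (-|v|)), smul_eq_mul]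

/-- Domination principle for complex valued densities. -/
theorem K_dom {F : ℝ × ℝ → ℂ} (hF : AEStronglyMeasurable F (volume.restrict cyl0))
    {h : ℝ × ℝ → ℝ} (hh : IntegrableOn (fun w => Kn w * h w) cyl0) (hle : ∀ w, ‖F w‖ ≤ h w) :
    IntegrableOn (fun w : ℝ × ℝ => ((K1 w.1 w.2 : ℝ) : ℂ) * F w) cyl0 ∧
    IntegrableOn (fun w : ℝ × ℝ => ((K2 w.1 w.2 : ℝ) : ℂ) * F w) cyl0 ∧
    ‖∫ w in cyl0, ((K1 w.1 w.2 : ℝ) : ℂ) * F w‖ ≤ ∫ w in cyl0, Kn w * h w ∧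
    ‖∫ w in cyl0, ((K2 w.1 w.2 : ℝ) : ℂ) * F w‖ ≤ ∫ w in cyl0, Kn w * h w := by
  have key : ∀ k : ℝ × ℝ → ℝ, Measurable k → (∀ w, |k w| ≤ Kn w) →
      IntegrableOn (fun w => ((k w : ℝ) : ℂ) * F w) cyl0 ∧
        ‖∫ w in cyl0, ((k w : ℝ) : ℂ) * F w‖ ≤ ∫ w in cyl0, Kn w * h w := fun k hk hb => by
    have e : ∀ᵐ w ∂(volume.restrict cyl0), ‖((k w : ℝ) : ℂ) * F w‖ ≤ Kn w * h w :=
      ae_of_all _ fun w => by
        rw [norm_mul, Complex.norm_real, Real.norm_eq_abs]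
        exact mul_le_mul (hb w) (hle w) (norm_nonneg _) (Kn_nonneg w)
    exact ⟨hh.mono' ((Complex.measurable_ofReal.comp hk).aestronglyMeasurable.mul hF) e,
      norm_integral_le_of_norm_le hh e⟩
  obtain ⟨h1, h2⟩ := key _ K1_meas fun w => le_add_of_nonneg_right (abs_nonneg _)
  obtain ⟨h3, h4⟩ := key _ K2_meas fun w => le_add_of_nonneg_left (abs_nonneg _)
  exact ⟨h1, h3, h2, h4⟩

/-- Domination principle for real densities. -/
theorem K_dom_real {F : ℝ × ℝ → ℝ} (hF : AEStronglyMeasurable F (volume.restrict cyl0))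
    {h : ℝ × ℝ → ℝ} (hh : IntegrableOn (fun w => Kn w * h w) cyl0) (hle : ∀ w, |F w| ≤ h w) :
    IntegrableOn (fun w : ℝ × ℝ => K1 w.1 w.2 * F w) cyl0 ∧
    IntegrableOn (fun w : ℝ × ℝ => K2 w.1 w.2 * F w) cyl0 ∧
    |∫ w in cyl0, K1 w.1 w.2 * F w| ≤ ∫ w in cyl0, Kn w * h w ∧
    |∫ w in cyl0, K2 w.1 w.2 * F w| ≤ ∫ w in cyl0, Kn w * h w := by
  have key : ∀ k : ℝ × ℝ → ℝ, Measurable k → (∀ w, |k w| ≤ Kn w) →
      IntegrableOn (fun w => k w * F w) cyl0 ∧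
        |∫ w in cyl0, k w * F w| ≤ ∫ w in cyl0, Kn w * h w := fun k hk hb => by
    have e : ∀ᵐ w ∂(volume.restrict cyl0), ‖k w * F w‖ ≤ Kn w * h w :=
      ae_of_all _ fun w => by
        rw [Real.norm_eq_abs, abs_mul]
        exact mul_le_mul (hb w) (hle w) (abs_nonneg _) (Kn_nonneg w)
    exact ⟨hh.mono' (hk.aestronglyMeasurable.mul hF) e, norm_integral_le_of_norm_le hh e⟩
  obtain ⟨h1, h2⟩ := key _ K1_meas fun w => le_add_of_nonneg_right (abs_nonneg _)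
  obtain ⟨h3, h4⟩ := key _ K2_meas fun w => le_add_of_nonneg_left (abs_nonneg _)
  exact ⟨h1, h3, h2, h4⟩

end Pool.Agent.Lib.MP_3d41d4_an
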