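import Pool.Agent.Lib.MP_3d41d4_an.NB

open MeasureTheory Set Filter Topology Real
open scoped ENNReal

namespace Pool.Agent.Lib.MP_3d41d4_an

variable {ρ L M₀ T : ℝ} {φ γ : ℝ → ℝ → ℝ}

theorem Lim2_ev : ∀ᶠ κ : ℝ in 𝓝[>] 0, κ ∈ Icc (0 : ℝ) 1 := by
  filter_upwards [Ioc_mem_nhdsGT (zero_lt_one : (0 : ℝ) < 1)] with κ hκ
  exact ⟨hκ.1.le, hκ.2⟩

theorem Lim2_gs_le {c a₀ a : ℝ} (hc : 0 ≤ c) (h0 : 0 < a₀) (h1 : a₀ ≤ a) (h2 : a ≤ a₀ + 1)
    (r : ℝ) : gs c a r ≤ √(a₀ + 1) / √a₀ * gs c (a₀ + 1) r := by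
  have ha : 0 < a := h0.trans_le h1
  have s0 : 0 < √a₀ := Real.sqrt_pos.mpr h0
  have s1 : 0 < √(a₀ + 1) := Real.sqrt_pos.mpr (by linarith)
  have e1 : √(a₀ + 1) / √a₀ * gs c (a₀ + 1) r = Real.exp (-(c * r ^ 2 / (a₀ + 1))) / √a₀ := by
    unfold gs
    field_simp
  rw [e1]
  unfold gs
  refine div_le_div₀ (Real.exp_pos _).le ?_ s0 (Real.sqrt_le_sqrt h1)
  refine Real.exp_le_exp.mpr (neg_le_neg ?_)
  exact div_le_div_of_nonneg_left (by positivity) ha h2

theorem Lim2_Ak (hS : Sheet ρ L M₀ T φ γ) {ν t : ℝ} (h0 : 0 < ν * t) (η x : ℝ) :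
    Tendsto (fun κ => Ak φ γ ν 0 κ t η x) (𝓝[>] 0) (𝓝 (Ak φ γ ν 0 0 t η x)) := by
  obtain ⟨K, c, hK, hc, hG⟩ := Gd_crude (a₀ := ν * t) (a₁ := ν * t + 1) h0
  have hρ : 0 ≤ ρ := (hS.curve 0).1.le
  have hφ : Continuous (φ t) := hS.contφ.comp (Continuous.prodMk_right t)
  have hγ : Continuous (γ 0) := hS.contγ.comp (Continuous.prodMk_right 0)
  unfold Ak
  refine tendsto_integral_filter_of_dominated_convergence
    (fun r => K * Real.exp (-c * r ^ 2) * (4 * M₀)) ?_ ?_ ?_ ?_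
  · refine Eventually.of_forall fun κ => Measurable.aestronglyMeasurable ?_
    refine Measurable.mul (measurable_Gd 0 measurable_const measurable_id ?_) (by fun_prop)
    unfold ch
    fun_prop
  · filter_upwards [Lim2_ev] with κ hκ
    refine Eventually.of_forall fun r => ?_
    have h1 := hG (ν * t + κ) ⟨by linarith [hκ.1], by linarith [hκ.2]⟩ 0 (by norm_num) 0 r
      (η - ch (φ t) x r)
    have h2 := (hS.wγ 0).abs_le hρ (by norm_num) (x + r)
    rw [pow_zero, one_mul] at h1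
    rw [Real.norm_eq_abs, abs_mul, neg_mul]
    exact mul_le_mul h1 h2 (abs_nonneg _) (by positivity)
  · exact ((integrable_exp_neg_mul_sq hc).const_mul K).mul_const _
  · refine Eventually.of_forall fun r => ?_
    refine Tendsto.mono_left (ContinuousAt.tendsto (f := fun κ : ℝ =>
      Gd 0 (ν * t + κ) r (η - ch (φ t) x r) * γ 0 (x + r)) ?_) nhdsWithin_le_nhds
    refine ContinuousAt.mul (continuousAt_Gd 0 (by fun_prop) (by fun_prop) (by fun_prop) ?_)
      continuousAt_const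
    simpa using h0.ne'

theorem Lim2_nI {ν t s : ℝ} (h0 : 0 < ν * (t - s)) (Ω Θ : ℝ → ℝ → ℝ → ℝ) (η x : ℝ)
    (p : ℝ × ℝ) : ContinuousAt (fun κ => nI φ γ ν Ω Θ 0 κ t s η x p) 0 := by
  have ha : ContinuousAt (fun κ => aa ν κ t s) 0 := by
    unfold aa
    fun_prop
  have hne : aa ν 0 t s ≠ 0 := by
    unfold aa
    simpa using h0.ne'
  have hG : ∀ (j : ℕ) (r Y : ℝ), ContinuousAt (fun κ => Gd j (aa ν κ t s) r Y) 0 :=
    fun j r Y => continuousAt_Gd j ha continuousAt_const continuousAt_const hne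
  have hq : ContinuousAt (fun κ => -p.1 / (2 * aa ν κ t s)) 0 :=
    continuousAt_const.div (continuousAt_const.mul ha) (mul_ne_zero two_ne_zero hne)
  unfold nI Rk
  refine ((hG _ _ _).neg.mul continuousAt_const).add
    (ContinuousAt.mul (continuousAt_const.mul ?_) continuousAt_const)
  exact (((continuousAt_const.mul hq).mul (hG _ _ _)).add
    (continuousAt_const.mul (hG _ _ _))).sub (continuousAt_const.mul (hG _ _ _))

theorem Lim2_Nk (hS : Sheet ρ L M₀ T φ γ) {β T' ν M : ℝ} {Ω Θ : ℝ → ℝ → ℝ → ℝ}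
    (hP : Par ρ L T β T' ν) (hI : Inv ρ L β T' ν M γ Ω Θ)
    {t s : ℝ} (ht : t ∈ Ioc 0 T') (hs : s ∈ Ioo 0 t) (η x : ℝ) :
    Tendsto (fun κ => Nk φ γ ν Ω Θ 0 κ t s η x) (𝓝[>] 0) (𝓝 (Nk φ γ ν Ω Θ 0 0 t s η x)) := by
  obtain ⟨C, hC, hb⟩ := nI_WR hS M
  have hsT : s ≤ T' := hs.2.le.trans ht.2
  have h0 : 0 < ν * (t - s) := mul_pos hP.ν_pos (sub_pos.mpr hs.2)
  have hνs : 0 < ν * s := mul_pos hP.ν_pos hs.1
  have hcg := cg_pos L
  have hm : 0 < mm L β s := lt_of_lt_of_le (by positivity) (hP.mm_ge hsT)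
  set a₀ := ν * (t - s) with ha₀
  have s0 : 0 < √a₀ := Real.sqrt_pos.mpr h0
  unfold Nk
  refine tendsto_integral_filter_of_dominated_convergence
    (fun p : ℝ × ℝ => 4 * C * (√(a₀ + 1) / √a₀) * (1 / √a₀) *
      (gs (cg L) (a₀ + 1) p.1 * gs (mm L β s) (ν * s) p.2)) ?_ ?_ ?_ ?_
  · refine Eventually.of_forall fun κ => Measurable.aestronglyMeasurable ?_
    exact meas_nI hS ν hI.measΩ hI.measΘ 0 measurable_const measurable_const measurable_const
      measurable_const measurable_const measurable_id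
  · filter_upwards [Lim2_ev] with κ hκ
    refine Eventually.of_forall fun p => ?_
    have h1 := (hb hP hI κ hκ t ht s hs 0 (by norm_num) η p).abs_le (hP.rad_pos hsT).le le_rfl x
    have l1 : a₀ ≤ aa ν κ t s := by
      unfold aa
      linarith [hκ.1]
    have l2 : aa ν κ t s ≤ a₀ + 1 := by
      unfold aa
      linarith [hκ.2]
    have g1 := Lim2_gs_le hcg.le h0 l1 l2 p.1
    have g2 : gs (cg L) (aa ν κ t s) (η - p.2) ≤ 1 / √a₀ :=
      (gs_le hcg.le (h0.trans_le l1) _).trans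
        (one_div_le_one_div_of_le s0 (Real.sqrt_le_sqrt l1))
    have g3 := gs_nonneg (mm L β s) (ν * s) p.2
    have g4 := gs_nonneg (cg L) (aa ν κ t s) (η - p.2)
    have g5 := gs_nonneg (cg L) (a₀ + 1) p.1
    rw [Real.norm_eq_abs]
    refine h1.trans ?_
    have g6 : gs (cg L) (aa ν κ t s) p.1 *
        (gs (cg L) (aa ν κ t s) (η - p.2) * gs (mm L β s) (ν * s) p.2) ≤
        (√(a₀ + 1) / √a₀ * gs (cg L) (a₀ + 1) p.1) * (1 / √a₀ * gs (mm L β s) (ν * s) p.2) :=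
      mul_le_mul g1 (mul_le_mul_of_nonneg_right g2 g3) (mul_nonneg g4 g3) (by positivity)
    have g7 := mul_le_mul_of_nonneg_left g6 (show 0 ≤ 4 * C by positivity)
    rw [pow_zero, mul_one]
    linarith
  · refine Integrable.const_mul ?_ _
    exact (integrable_gs hcg (by linarith)).mul_prod (integrable_gs hm hνs)
  · exact Eventually.of_forall fun p =>
      (Lim2_nI h0 Ω Θ η x p).tendsto.mono_left nhdsWithin_le_nhds

theorem Om_tendsto (hS : Sheet ρ L M₀ T φ γ) {β T' ν M : ℝ} {Ω Θ : ℝ → ℝ → ℝ → ℝ}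
    (hP : Par ρ L T β T' ν) (hI : Inv ρ L β T' ν M γ Ω Θ)
    {t : ℝ} (ht : t ∈ Ioc 0 T') (η x : ℝ) :
    Tendsto (fun κ => Om φ γ ν Ω Θ 0 κ t η x) (𝓝[>] 0) (𝓝 (Om φ γ ν Ω Θ 0 0 t η x)) := by
  obtain ⟨C, hC, hb⟩ := Nk_WR hS M
  have h0 : 0 < ν * t := mul_pos hP.ν_pos ht.1
  have hcg := cg_pos L
  unfold Om
  refine (Lim2_Ak hS h0 η x).add ?_
  refine tendsto_integral_filter_of_dominated_convergence
    (fun _ => 4 * (C * (1 / √(ν * t)))) ?_ ?_ ?_ ?_
  · refine Eventually.of_forall fun κ => Measurable.aestronglyMeasurable ?_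
    exact meas_Nk hS ν hI.measΩ hI.measΘ 0 measurable_const measurable_const measurable_id
      measurable_const measurable_const
  · filter_upwards [Lim2_ev] with κ hκ
    refine (ae_restrict_iff' measurableSet_Ioo).mpr (Eventually.of_forall fun s hs => ?_)
    have hsT : s ≤ T' := hs.2.le.trans ht.2
    have hm : 0 < mm L β s := lt_of_lt_of_le (by positivity) (hP.mm_ge hsT)
    have h1 := (hb hP hI κ hκ t ht s hs 0 (by norm_num) η).abs_le (hP.rad_pos hsT).le le_rfl x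
    have l1 : ν * t ≤ ν * t + κ := by linarith [hκ.1]
    have g2 : gs (mm L β s) (ν * t + κ) η ≤ 1 / √(ν * t) :=
      (gs_le hm.le (h0.trans_le l1) _).trans
        (one_div_le_one_div_of_le (Real.sqrt_pos.mpr h0) (Real.sqrt_le_sqrt l1))
    rw [Real.norm_eq_abs]
    refine h1.trans ?_
    rw [pow_zero, mul_one]
    have := mul_le_mul_of_nonneg_left g2 hC.le
    linarith
  · exact integrableOn_const (by simp)
  · exact (ae_restrict_iff' measurableSet_Ioo).mpr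
      (Eventually.of_forall fun s hs => Lim2_Nk hS hP hI ht hs η x)

end Pool.Agent.Lib.MP_3d41d4_an
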