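import Pool.Agent.Lib.MP_3d41d4_an.ErrPt
import Pool.Agent.Lib.MP_3d41d4_an.Lim2

open MeasureTheory Set Filter Topology Real
open scoped ENNReal

namespace Pool.Agent.Lib.MP_3d41d4_an

variable {ρ L M₀ T : ℝ} {φ γ : ℝ → ℝ → ℝ}

/-- The density which is smoothed in the pointwise bound; a function of `s` and `(x, η)`. -/
noncomputable def Err_h (φ : ℝ → ℝ → ℝ) (L β ν C t : ℝ) (U : ℝ → ℝ) (V Ω : ℝ → ℝ → ℝ → ℝ)
    (s : ℝ) (q : ℝ × ℝ) : ℝ≥0∞ :=
  ENNReal.ofReal (C / √(ν * (t - s)) * (1 + U s)) * ‖V s q.2 q.1 - Ω s q.2 q.1‖ₑ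
    + ENNReal.ofReal (C / √(ν * (t - s))) *
      (ENNReal.ofReal (gs (mm L β s) (ν * s) q.2) *
        Dw (φ s) (fun η' x' => V s η' x' - Ω s η' x') q.2 q.1)

theorem Err_meas_diff {V Ω : ℝ → ℝ → ℝ → ℝ}
    (hV : Measurable fun p : ℝ × ℝ × ℝ => V p.1 p.2.1 p.2.2)
    (hΩ : Measurable fun p : ℝ × ℝ × ℝ => Ω p.1 p.2.1 p.2.2) :
    Measurable fun p : ℝ × ℝ × ℝ =>
      (fun s η' x' => V s η' x' - Ω s η' x') p.1 p.2.1 p.2.2 := hV.sub hΩ

theorem Err_h_meas (hS : Sheet ρ L M₀ T φ γ) (β ν C t : ℝ) {U : ℝ → ℝ} (hU : Measurable U)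
    {V Ω : ℝ → ℝ → ℝ → ℝ}
    (hV : Measurable fun p : ℝ × ℝ × ℝ => V p.1 p.2.1 p.2.2)
    (hΩ : Measurable fun p : ℝ × ℝ × ℝ => Ω p.1 p.2.1 p.2.2)
    {Λ : Type} [MeasurableSpace Λ] {s : Λ → ℝ} {q : Λ → ℝ × ℝ} (hs : Measurable s)
    (hq : Measurable q) :
    Measurable fun l => Err_h φ L β ν C t U V Ω (s l) (q l) := by
  have h1 : Measurable fun l => (q l).1 := hq.fst
  have h2 : Measurable fun l => (q l).2 := hq.snd
  have hB : Measurable fun l => C / √(ν * (t - s l)) :=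
    measurable_const.div ((measurable_const.mul (measurable_const.sub hs)).sqrt)
  have hd : Measurable fun l => V (s l) (q l).2 (q l).1 - Ω (s l) (q l).2 (q l).1 :=
    (meas3 hV hs h2 h1).sub (meas3 hΩ hs h2 h1)
  have hg : Measurable fun l => gs (mm L β (s l)) (ν * s l) (q l).2 :=
    measurable_gs (measurable_const.sub (measurable_const.mul hs)) (measurable_const.mul hs) h2
  have hD : Measurable fun l =>
      Dw (φ (s l)) (fun η' x' => V (s l) η' x' - Ω (s l) η' x') (q l).2 (q l).1 :=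
    meas_Dw hS (Ω := fun s η' x' => V s η' x' - Ω s η' x') (Err_meas_diff hV hΩ) hs h2 h1
  unfold Err_h
  exact ((hB.mul (measurable_const.add (hU.comp hs))).ennreal_ofReal.mul hd.enorm).add
    (hB.ennreal_ofReal.mul (hg.ennreal_ofReal.mul hD))

theorem Err_arith {c C₁ C₂ ν τ s U : ℝ} (hc : 0 ≤ c) (h1 : 0 ≤ C₁) (h2 : 0 ≤ C₂) (hν : 0 ≤ ν)
    (hU : 0 ≤ U) :
    c * (C₁ / √(ν * τ) * (1 + U) + C₁ / √(ν * τ) * (C₂ * (1 + 1 / √(√(ν * s)))))
      ≤ c * (C₁ / √ν) * (1 + C₂ + C₂ * (1 / √(√ν))) / √τ * (1 + U + 1 / √(√s)) := by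
  have e1 : C₁ / √(ν * τ) = C₁ / √ν * (1 / √τ) := by
    rw [Real.sqrt_mul hν, div_mul_div_comm, mul_one]
  have e2 : 1 / √(√(ν * s)) = 1 / √(√ν) * (1 / √(√s)) := by
    rw [Real.sqrt_mul hν, Real.sqrt_mul (Real.sqrt_nonneg ν), div_mul_div_comm, mul_one]
  rw [e1, e2, div_eq_mul_one_div (c * (C₁ / √ν) * (1 + C₂ + C₂ * (1 / √(√ν)))) (√τ)]
  have ha : 0 ≤ C₁ / √ν := by positivity
  have hb : 0 ≤ 1 / √τ := by positivity
  have hk : 0 ≤ 1 / √(√ν) := by positivity
  have hq : 0 ≤ 1 / √(√s) := by positivity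
  generalize C₁ / √ν = a at ha ⊢
  generalize 1 / √τ = b at hb ⊢
  generalize 1 / √(√ν) = k at hk ⊢
  generalize 1 / √(√s) = q at hq ⊢
  have key : (1 + U) + C₂ * (1 + k * q) ≤ (1 + C₂ + C₂ * k) * (1 + U + q) := by
    have a1 := mul_nonneg h2 hU
    have a2 := mul_nonneg h2 hq
    have a3 := mul_nonneg h2 hk
    have a4 := mul_nonneg a3 hU
    nlinarith
  have hp : 0 ≤ c * a * b := by positivity
  calc c * (a * b * (1 + U) + a * b * (C₂ * (1 + k * q)))
      = c * a * b * ((1 + U) + C₂ * (1 + k * q)) := by ring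
    _ ≤ c * a * b * ((1 + C₂ + C₂ * k) * (1 + U + q)) := mul_le_mul_of_nonneg_left key hp
    _ = c * a * (1 + C₂ + C₂ * k) * b * (1 + U + q) := by ring

/-- One step of the `L¹` comparison with the true solution. -/
theorem err_step (hS : Sheet ρ L M₀ T φ γ) (M : ℝ) {β T' ν : ℝ} (hP : Par ρ L T β T' ν) :
    ∃ C : ℝ, 0 < C ∧ ∀ {Ω Θ : ℝ → ℝ → ℝ → ℝ}, Inv ρ L β T' ν M γ Ω Θ →
      ∀ {V : ℝ → ℝ → ℝ → ℝ} {w : ℝ → ℝ → ℝ → ℂ}, TrueSol T' ν φ γ V w →
      ∀ ε D : ℝ, 0 ≤ ε → 0 ≤ D → (∀ s ∈ Ioc 0 T', ∀ η x, ‖w s η x‖ ≤ ε / √s + D) →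
      ∀ t ∈ Ioc 0 T', err V (Om φ γ ν Ω Θ 0 0) t ≤ ∫⁻ s in Ioo 0 t,
        ENNReal.ofReal (C / √(t - s) * (1 + ε / √s + D + 1 / √(√s))) * err V Ω s := by
  obtain ⟨C₁, hC₁, hpt⟩ := err_pointwise hS M
  have hcg := cg_pos L
  have hν := hP.ν_pos
  obtain ⟨C₂, hC₂, hDw⟩ := lintegral_gs_Dw ρ L (m₀ := cg L / 4) (by positivity)
  refine ⟨π / cg L * (C₁ / √ν) * (1 + C₂ + C₂ * (1 / √(√ν))), by positivity, ?_⟩
  intro Ω Θ hI V w hV ε D hε hD hw t ht
  set U : ℝ → ℝ := fun s => ε / √s + D with hUdef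
  have hU : Measurable U := (measurable_const.div measurable_id.sqrt).add measurable_const
  have hU0 : ∀ s, 0 ≤ U s := fun s => by
    simp only [hUdef]
    positivity
  -- the bound for the regularised difference
  have stepA : ∀ κ ∈ Ioc (0 : ℝ) 1,
      ∫⁻ z in cyl, ‖smo (φ t) κ (V t) z.2 z.1 - Om φ γ ν Ω Θ 0 κ t z.2 z.1‖ₑ
        ≤ ∫⁻ s in Ioo 0 t,
          ENNReal.ofReal (π / cg L * (C₁ / √ν) * (1 + C₂ + C₂ * (1 / √(√ν))) / √(t - s) *
            (1 + ε / √s + D + 1 / √(√s))) * err V Ω s := by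
    intro κ hκ
    have hmeas : Measurable fun l : ((ℝ × ℝ) × ℝ) × (ℝ × ℝ) =>
        ENNReal.ofReal (gs (cg L) (aa ν κ t l.1.2) l.2.1 *
            gs (cg L) (aa ν κ t l.1.2) (l.1.1.2 - l.2.2)) *
          Err_h φ L β ν C₁ t U V Ω l.1.2 (l.1.1.1 + l.2.1, l.2.2) := by
      have ha : Measurable fun l : ((ℝ × ℝ) × ℝ) × (ℝ × ℝ) => aa ν κ t l.1.2 := by
        unfold aa
        fun_prop
      refine Measurable.mul (Measurable.ennreal_ofReal (Measurable.mul ?_ ?_)) ?_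
      · exact measurable_gs measurable_const ha (by fun_prop)
      · exact measurable_gs measurable_const ha (by fun_prop)
      · exact Err_h_meas hS β ν C₁ t hU hV.meas hI.measΩ (by fun_prop) (by fun_prop)
    have hmeas2 : Measurable fun l : (ℝ × ℝ) × ℝ => ∫⁻ p : ℝ × ℝ,
        ENNReal.ofReal (gs (cg L) (aa ν κ t l.2) p.1 *
            gs (cg L) (aa ν κ t l.2) (l.1.2 - p.2)) *
          Err_h φ L β ν C₁ t U V Ω l.2 (l.1.1 + p.1, p.2) :=
      hmeas.lintegral_prod_right'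
    calc ∫⁻ z in cyl, ‖smo (φ t) κ (V t) z.2 z.1 - Om φ γ ν Ω Θ 0 κ t z.2 z.1‖ₑ
        ≤ ∫⁻ z in cyl, ∫⁻ s in Ioo 0 t, ∫⁻ p : ℝ × ℝ,
            ENNReal.ofReal (gs (cg L) (aa ν κ t s) p.1 * gs (cg L) (aa ν κ t s) (z.2 - p.2)) *
              Err_h φ L β ν C₁ t U V Ω s (z.1 + p.1, p.2) :=
          lintegral_mono fun z => hpt hP hI hV U hw κ hκ t ht z.2 z.1
      _ = ∫⁻ s in Ioo 0 t, ∫⁻ z in cyl, ∫⁻ p : ℝ × ℝ,
            ENNReal.ofReal (gs (cg L) (aa ν κ t s) p.1 * gs (cg L) (aa ν κ t s) (z.2 - p.2)) *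
              Err_h φ L β ν C₁ t U V Ω s (z.1 + p.1, p.2) :=
          lintegral_lintegral_swap hmeas2.aemeasurable
      _ ≤ _ := by
          refine setLIntegral_mono' measurableSet_Ioo fun s hs => ?_
          have hs' : s ∈ Ioc 0 T' := ⟨hs.1, hs.2.le.trans ht.2⟩
          have ha : 0 < aa ν κ t s := by
            unfold aa
            have := mul_pos hν (sub_pos.2 hs.2)
            linarith [hκ.1]
          have hdper : ∀ η, Function.Periodic (fun x' => V s η x' - Ω s η x') (2 * π) :=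
            fun η x => by
              show V s η (x + 2 * π) - Ω s η (x + 2 * π) = V s η x - Ω s η x
              rw [hV.per s η x, (hI.w0 s hs' η).per x]
          have hm : Measurable (Err_h φ L β ν C₁ t U V Ω s) :=
            Err_h_meas hS β ν C₁ t hU hV.meas hI.measΩ measurable_const measurable_id
          have hper : ∀ x y, Err_h φ L β ν C₁ t U V Ω s (x + 2 * π, y)
              = Err_h φ L β ν C₁ t U V Ω s (x, y) := by
            intro x y
            have e1 : V s y (x + 2 * π) - Ω s y (x + 2 * π) = V s y x - Ω s y x := hdper y x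
            have e2 := Dw_per (hS.curve s).per (d := fun η' x' => V s η' x' - Ω s η' x') hdper y x
            simp only [Err_h]
            rw [e1, e2]
          rw [lintegral_gs_conv hcg ha hm hper]
          have hdm : Measurable fun p : ℝ × ℝ => V s p.1 p.2 - Ω s p.1 p.2 :=
            (meas3 hV.meas measurable_const measurable_fst measurable_snd).sub
              (meas3 hI.measΩ measurable_const measurable_fst measurable_snd)
          have hdm' : Measurable fun p : ℝ × ℝ => ‖V s p.2 p.1 - Ω s p.2 p.1‖ₑ :=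
            ((meas3 hV.meas measurable_const measurable_snd measurable_fst).sub
              (meas3 hI.measΩ measurable_const measurable_snd measurable_fst)).enorm
          have hD2 := hDw (φ s) (hS.curve s) (fun η' x' => V s η' x' - Ω s η' x') hdm hdper
            (mm L β s) (hP.mm_ge hs'.2) (ν * s) (mul_pos hν hs.1)
          have hB : 0 ≤ C₁ / √(ν * (t - s)) := by positivity
          have hA : 0 ≤ C₁ / √(ν * (t - s)) * (1 + U s) :=
            mul_nonneg hB (by linarith [hU0 s])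
          have hE : 0 ≤ C₂ * (1 + 1 / √(√(ν * s))) := by positivity
          have hint : ∫⁻ z in cyl, Err_h φ L β ν C₁ t U V Ω s z
              ≤ ENNReal.ofReal (C₁ / √(ν * (t - s)) * (1 + U s)
                  + C₁ / √(ν * (t - s)) * (C₂ * (1 + 1 / √(√(ν * s))))) * err V Ω s := by
            unfold Err_h
            have hdm'' : Measurable fun p : ℝ × ℝ =>
                ENNReal.ofReal (C₁ / √(ν * (t - s)) * (1 + U s)) *
                  ‖V s p.2 p.1 - Ω s p.2 p.1‖ₑ := measurable_const.mul hdm'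
            rw [lintegral_add_left hdm'',
              lintegral_const_mul' _ _ ENNReal.ofReal_ne_top,
              lintegral_const_mul' _ _ ENNReal.ofReal_ne_top,
              ENNReal.ofReal_add hA (mul_nonneg hB hE), add_mul, ENNReal.ofReal_mul hB (q := C₂ * _),
              mul_assoc (ENNReal.ofReal (C₁ / √(ν * (t - s))))]
            exact add_le_add le_rfl (mul_le_mul' le_rfl hD2)
          have hc : 0 ≤ π / cg L := by positivity
          calc ENNReal.ofReal (π / cg L) * ∫⁻ z in cyl, Err_h φ L β ν C₁ t U V Ω s z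
              ≤ ENNReal.ofReal (π / cg L) * (ENNReal.ofReal (C₁ / √(ν * (t - s)) * (1 + U s)
                  + C₁ / √(ν * (t - s)) * (C₂ * (1 + 1 / √(√(ν * s))))) * err V Ω s) :=
                mul_le_mul' le_rfl hint
            _ = ENNReal.ofReal (π / cg L * (C₁ / √(ν * (t - s)) * (1 + U s)
                  + C₁ / √(ν * (t - s)) * (C₂ * (1 + 1 / √(√(ν * s)))))) * err V Ω s := by
                rw [ENNReal.ofReal_mul hc, mul_assoc]
            _ ≤ _ := by
                refine mul_le_mul' (ENNReal.ofReal_le_ofReal ?_) le_rfl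
                have := Err_arith (τ := t - s) (s := s) hc hC₁.le hC₂.le hν.le (hU0 s)
                have e : 1 + ε / √s + D + 1 / √(√s) = 1 + U s + 1 / √(√s) := by
                  simp only [hUdef]
                  ring
                rw [e]
                exact this
  -- Fatou
  have hm : ∀ κ : ℝ, Measurable fun z : ℝ × ℝ =>
      ‖smo (φ t) κ (V t) z.2 z.1 - Om φ γ ν Ω Θ 0 κ t z.2 z.1‖ₑ := fun κ =>
    ((meas_smo hS hV.meas (κ := fun _ => κ) (t := fun _ => t) measurable_const measurable_const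
      measurable_snd measurable_fst).sub
      (meas_Om hS ν hI.measΩ hI.measΘ 0 (κ := fun _ => κ) (t := fun _ => t) measurable_const
        measurable_const measurable_snd measurable_fst)).enorm
  have hlim : ∀ z : ℝ × ℝ, ‖V t z.2 z.1 - Om φ γ ν Ω Θ 0 0 t z.2 z.1‖ₑ
      = liminf (fun κ => ‖smo (φ t) κ (V t) z.2 z.1 - Om φ γ ν Ω Θ 0 κ t z.2 z.1‖ₑ)
        (𝓝[>] (0 : ℝ)) := fun z =>
    (((hV.lim t ht z.2 z.1).sub (Om_tendsto hS hP hI ht z.2 z.1)).enorm.liminf_eq).symm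
  calc err V (Om φ γ ν Ω Θ 0 0) t
      = ∫⁻ z in cyl, liminf (fun κ =>
          ‖smo (φ t) κ (V t) z.2 z.1 - Om φ γ ν Ω Θ 0 κ t z.2 z.1‖ₑ) (𝓝[>] (0 : ℝ)) :=
        lintegral_congr hlim
    _ ≤ liminf (fun κ => ∫⁻ z in cyl,
          ‖smo (φ t) κ (V t) z.2 z.1 - Om φ γ ν Ω Θ 0 κ t z.2 z.1‖ₑ) (𝓝[>] (0 : ℝ)) :=
        lintegral_liminf_le hm
    _ ≤ _ := by
        refine liminf_le_of_frequently_le' (Eventually.frequently ?_)
        filter_upwards [Ioc_mem_nhdsGT (zero_lt_one' ℝ)] with κ hκ using stepA κ hκ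

end Pool.Agent.Lib.MP_3d41d4_an
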