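import Pool.Agent.Lib.MP_3d41d4_an.Sing0

open MeasureTheory Set Filter Topology Real
open scoped ENNReal

namespace Pool.Agent.Lib.MP_3d41d4_an

variable {ρ L M₀ T : ℝ} {φ γ : ℝ → ℝ → ℝ}

/-- The vertical integral of the kernel against a Gaussian. -/
theorem Sing_eta {m b c C₁ X r : ℝ} (hm : 0 < m) (hb : 0 < b) (hC₁ : 0 ≤ C₁) {K : ℝ → ℂ}
    (hK : ∀ η, η ≠ c → ‖K η‖ ≤ C₁ * (1 + 1 / √|r| * (1 / √|η - c|)))
    (hX : ∫⁻ y, ENNReal.ofReal (gs m b y * (1 / √|y - c|)) ≤ ENNReal.ofReal X) :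
    ∫⁻ η, ENNReal.ofReal (gs m b η) * ‖K η‖ₑ ≤ ENNReal.ofReal (C₁ * √(π / m)) +
      ENNReal.ofReal C₁ * ENNReal.ofReal X * ENNReal.ofReal (1 / √|r|) := by
  have h1 : ∀ᵐ η : ℝ, ENNReal.ofReal (gs m b η) * ‖K η‖ₑ ≤
      ENNReal.ofReal C₁ * ENNReal.ofReal (gs m b η) + ENNReal.ofReal C₁ *
        ENNReal.ofReal (1 / √|r|) * ENNReal.ofReal (gs m b η * (1 / √|η - c|)) := by
    filter_upwards [Measure.ae_ne volume c] with η hη
    have h0 := gs_nonneg m b η
    rw [← ofReal_norm, ← ENNReal.ofReal_mul h0, ← ENNReal.ofReal_mul hC₁,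
      ← ENNReal.ofReal_mul hC₁, ← ENNReal.ofReal_mul (by positivity),
      ← ENNReal.ofReal_add (by positivity) (by positivity)]
    refine ENNReal.ofReal_le_ofReal ((mul_le_mul_of_nonneg_left (hK η hη) h0).trans (le_of_eq ?_))
    ring
  refine (lintegral_mono_ae h1).trans ?_
  rw [lintegral_add_left ((continuous_gs m b).measurable.ennreal_ofReal.const_mul _),
    lintegral_const_mul' _ _ ENNReal.ofReal_ne_top,
    lintegral_const_mul' _ _ (ENNReal.mul_ne_top ENNReal.ofReal_ne_top ENNReal.ofReal_ne_top),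
    ← ofReal_integral_eq_lintegral_ofReal (integrable_gs hm hb)
      (Eventually.of_forall (gs_nonneg m b)), integral_gs hm hb, ENNReal.ofReal_mul hC₁,
    mul_right_comm]
  gcongr

/-- A weight in the horizontal variable against a periodic density. -/
theorem Sing_conv {w : ℝ → ℝ≥0∞} (hw : Measurable w) {D : ℝ → ℝ → ℝ≥0∞}
    (hD : Measurable fun p : ℝ × ℝ => D p.1 p.2) (hp : ∀ η, Function.Periodic (D η) (2 * π)) :
    ∫⁻ x in Ioc 0 (2 * π), ∫⁻ p in cyl0, w p.1 * D p.2 (x + p.1) =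
      (∫⁻ r in Ioc (-π) π, w r) * ∫⁻ z in cyl, D z.2 z.1 := by
  have hD1 : ∀ η, Measurable (D η) := fun η => hD.comp (measurable_const.prodMk measurable_id)
  have hD2 : Measurable fun z : ℝ × ℝ => D z.2 z.1 := hD.comp measurable_swap
  have hm : Measurable fun q : ℝ × (ℝ × ℝ) => w q.2.1 * D q.2.2 (q.1 + q.2.1) :=
    (hw.comp measurable_snd.fst).mul
      (hD.comp (measurable_snd.snd.prodMk (measurable_fst.add measurable_snd.fst)))
  rw [lintegral_lintegral_swap hm.aemeasurable]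
  have h1 : ∀ p : ℝ × ℝ, ∫⁻ x in Ioc 0 (2 * π), w p.1 * D p.2 (x + p.1) =
      w p.1 * ∫⁻ x in Ioc 0 (2 * π), D p.2 x := fun p => by
    rw [← lintegral_Ioc_translate (hD1 p.2) (hp p.2) p.1]
    exact lintegral_const_mul _ ((hD1 p.2).comp (measurable_id.add_const p.1))
  simp only [h1]
  rw [cyl0, cyl, Measure.volume_eq_prod, ← Measure.restrict_prod_eq_prod_univ,
    ← Measure.restrict_prod_eq_prod_univ, lintegral_prod_symm' _ hD2]
  exact lintegral_prod_mul (g := fun η => ∫⁻ x in Ioc 0 (2 * π), D η x) hw.aemeasurable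
    hD.lintegral_prod_right'.aemeasurable

/-- The velocity induced by an integrable density, averaged over a Gaussian layer. -/
theorem lintegral_gs_Dw (ρ L : ℝ) {m₀ : ℝ} (hm₀ : 0 < m₀) : ∃ C : ℝ, 0 < C ∧
    ∀ ψ : ℝ → ℝ, Curve ρ L ψ → ∀ d : ℝ → ℝ → ℝ, (Measurable fun p : ℝ × ℝ => d p.1 p.2) →
      (∀ η, Function.Periodic (d η) (2 * π)) → ∀ m, m₀ ≤ m → ∀ b, 0 < b →
        ∫⁻ z in cyl, ENNReal.ofReal (gs m b z.2) * Dw ψ d z.2 z.1
          ≤ ENNReal.ofReal (C * (1 + 1 / √(√b))) * ∫⁻ z in cyl, ‖d z.2 z.1‖ₑ := by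
  obtain ⟨C₁, hC₁, h₁⟩ := norm_kc_sarg_le L
  obtain ⟨C₂, hC₂, h₂⟩ := lintegral_gs_inv_sqrt hm₀
  refine ⟨C₁ * √(π / m₀) * (2 * π) + C₁ * C₂ * 8, by positivity, ?_⟩
  intro ψ hψ d hd hper m hm b hb
  have hm0 : 0 < m := hm₀.trans_le hm
  set A := ENNReal.ofReal (C₁ * √(π / m)) with hA
  set B := ENNReal.ofReal C₁ * ENNReal.ofReal (C₂ / √(√b)) with hB
  have hw0 : Measurable fun r : ℝ => ENNReal.ofReal (1 / √|r|) := by fun_prop
  set w : ℝ → ℝ≥0∞ := fun r => if r = 0 then ⊤ else A + B * ENNReal.ofReal (1 / √|r|) with hw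
  have hwm : Measurable w :=
    Measurable.ite (measurableSet_singleton 0) measurable_const ((hw0.const_mul B).const_add A)
  have hwi : ∫⁻ r in Ioc (-π) π, w r ≤
      ENNReal.ofReal ((C₁ * √(π / m₀) * (2 * π) + C₁ * C₂ * 8) * (1 + 1 / √(√b))) := by
    have e1 : ∀ᵐ r ∂(volume.restrict (Ioc (-π) π)), w r = A + B * ENNReal.ofReal (1 / √|r|) := by
      filter_upwards [ae_restrict_of_ae (Measure.ae_ne volume (0 : ℝ))] with r hr
      exact if_neg hr
    rw [lintegral_congr_ae e1, lintegral_add_left measurable_const, lintegral_const_mul _ hw0,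
      setLIntegral_const, Real.volume_Ioc]
    refine (add_le_add_right (mul_le_mul_right lintegral_inv_sqrt_abs B) _).trans ?_
    rw [hA, hB, ← ENNReal.ofReal_mul (by positivity), ← ENNReal.ofReal_mul hC₁.le,
      ← ENNReal.ofReal_mul (by positivity), ← ENNReal.ofReal_add
        (mul_nonneg (by positivity) (by linarith [pi_pos])) (by positivity)]
    refine ENNReal.ofReal_le_ofReal ?_
    have e2 : √(π / m) ≤ √(π / m₀) := by gcongr
    have e3 : C₁ * √(π / m) * (π - -π) ≤ C₁ * √(π / m₀) * (2 * π) := by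
      rw [sub_neg_eq_add, ← two_mul]
      gcongr
    have e4 : 0 ≤ C₁ * √(π / m₀) * (2 * π) * (1 / √(√b)) := by positivity
    have e5 : 0 ≤ C₁ * C₂ * 8 := by positivity
    have e6 : C₁ * (C₂ / √(√b)) * 8 = C₁ * C₂ * 8 * (1 / √(√b)) := by ring
    nlinarith
  have hψm : Measurable ψ := hψ.continuous.measurable
  have hx : ∀ x, ∫⁻ η, ENNReal.ofReal (gs m b η) * Dw ψ d η x ≤
      ∫⁻ p in cyl0, w p.1 * ‖d p.2 (x + p.1)‖ₑ := by
    intro x
    have hk : Measurable fun q : ℝ × (ℝ × ℝ) => ENNReal.ofReal (gs m b q.1) *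
        ‖kc (sarg q.2.1 (q.1 - q.2.2) (ch ψ x q.2.1))‖ₑ := by
      refine ((continuous_gs m b).measurable.comp measurable_fst).ennreal_ofReal.mul
        (measurable_kc.comp ?_).enorm
      unfold sarg ch
      fun_prop
    have hd' : Measurable fun q : ℝ × (ℝ × ℝ) => ‖d q.2.2 (x + q.2.1)‖ₑ :=
      (hd.comp (measurable_snd.snd.prodMk (measurable_snd.fst.const_add x))).enorm
    simp only [Dw, ← lintegral_const_mul' _ _ ENNReal.ofReal_ne_top, ← mul_assoc]
    rw [lintegral_lintegral_swap (hk.mul hd').aemeasurable]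
    refine setLIntegral_mono' measurableSet_cyl0 fun p hp => ?_
    rw [lintegral_mul_const' _ _ enorm_ne_top]
    refine mul_le_mul_left ?_ _
    by_cases h0 : p.1 = 0
    · simp only [hw, if_pos h0, le_top]
    · simp only [hw, if_neg h0]
      exact Sing_eta hm0 hb hC₁.le (fun η hη => h₁ _ _ (hψ.chord x) p.1 (η - p.2)
        (abs_le.2 ⟨hp.1.1.le, hp.1.2⟩) h0 (sub_ne_zero.2 hη)) (h₂ m hm b hb p.2)
  have h3 := Sing_conv hwm (D := fun η x => ‖d η x‖ₑ) hd.enorm fun η x => by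
    simp only [hper η x]
  refine le_trans ?_ (h3.le.trans (mul_le_mul_left hwi _))
  rw [cyl, Measure.volume_eq_prod, ← Measure.restrict_prod_eq_prod_univ]
  exact (lintegral_prod_le _).trans (lintegral_mono hx)

end Pool.Agent.Lib.MP_3d41d4_an
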