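import Pool.Agent.Lib.MP_3d41d4_an.ByParts
import Pool.Agent.Lib.MP_3d41d4_an.Sing

open MeasureTheory Set Filter Topology Real
open scoped ENNReal

namespace Pool.Agent.Lib.MP_3d41d4_an

variable {ρ L M₀ T : ℝ} {φ γ : ℝ → ℝ → ℝ}

/-- The difference of the two velocities is bounded by the majorant of the difference of the
densities. -/
theorem ErrPt_vel (hS : Sheet ρ L M₀ T φ γ) {β T' ν M : ℝ} {Ω Θ : ℝ → ℝ → ℝ → ℝ}
    (hP : Par ρ L T β T' ν) (hI : Inv ρ L β T' ν M γ Ω Θ)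
    {V : ℝ → ℝ → ℝ → ℝ} {w : ℝ → ℝ → ℝ → ℂ} (hV : TrueSol T' ν φ γ V w)
    {s : ℝ} (hs : s ∈ Ioc 0 T') (η x : ℝ) :
    ‖w s η x - wt φ Ω s η x‖ₑ ≤ Dw (φ s) (fun η' x' => V s η' x' - Ω s η' x') η x := by
  obtain ⟨h1, h2⟩ := hV.biot s hs η x
  obtain ⟨h3, h4⟩ := wt_eq_cyl0 hS hP hI hs η x
  rw [h2, h4, ← integral_sub h1 h3]
  refine (enorm_integral_le_lintegral_enorm _).trans (le_of_eq ?_)
  unfold Dw
  refine lintegral_congr fun p => ?_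
  rw [← mul_sub, enorm_mul, ← Complex.ofReal_sub]
  congr 1
  rw [← ofReal_norm, ← ofReal_norm, Complex.norm_real]

/-- The pointwise algebra. -/
theorem ErrPt_alg {v o k k' g A B N e : ℝ} {D : ℝ≥0∞} (hg : 0 ≤ g) (hA : 0 ≤ A) (hB : 0 ≤ B)
    (hN : 0 ≤ N) (hk : |k| ≤ g * A) (hkk : |o| * |k - k'| ≤ g * (B * (N * e)))
    (hD : ENNReal.ofReal e ≤ D) :
    ‖v * k - o * k'‖ₑ ≤ ENNReal.ofReal g *
      (ENNReal.ofReal A * ‖v - o‖ₑ + ENNReal.ofReal B * (ENNReal.ofReal N * D)) := by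
  have h1 : |v * k - o * k'| ≤ g * (A * |v - o|) + g * (B * (N * e)) := by
    have e1 : v * k - o * k' = (v - o) * k + o * (k - k') := by ring
    rw [e1]
    refine (abs_add_le _ _).trans (add_le_add ?_ ?_)
    · rw [abs_mul]
      calc |v - o| * |k| ≤ |v - o| * (g * A) := by gcongr
        _ = g * (A * |v - o|) := by ring
    · rw [abs_mul]; exact hkk
  calc ‖v * k - o * k'‖ₑ = ENNReal.ofReal |v * k - o * k'| := by
        rw [← ofReal_norm, Real.norm_eq_abs]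
    _ ≤ ENNReal.ofReal (g * (A * |v - o|) + g * (B * (N * e))) := ENNReal.ofReal_le_ofReal h1
    _ ≤ ENNReal.ofReal (g * (A * |v - o|)) + ENNReal.ofReal (g * (B * (N * e))) :=
        ENNReal.ofReal_add_le
    _ ≤ _ := by
        rw [mul_add, ENNReal.ofReal_mul hg, ENNReal.ofReal_mul hg, ENNReal.ofReal_mul hA,
          ENNReal.ofReal_mul hB, ENNReal.ofReal_mul hN, ← Real.norm_eq_abs, ofReal_norm]
        gcongr

/-- Pointwise bound on the regularised difference between the true solution and the next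
iterate. -/
theorem err_pointwise (hS : Sheet ρ L M₀ T φ γ) (M : ℝ) : ∃ C : ℝ, 0 < C ∧
    ∀ {β T' ν : ℝ} {Ω Θ : ℝ → ℝ → ℝ → ℝ}, Par ρ L T β T' ν → Inv ρ L β T' ν M γ Ω Θ →
      ∀ {V : ℝ → ℝ → ℝ → ℝ} {w : ℝ → ℝ → ℝ → ℂ}, TrueSol T' ν φ γ V w →
      ∀ U : ℝ → ℝ, (∀ s ∈ Ioc 0 T', ∀ η x, ‖w s η x‖ ≤ U s) →
      ∀ κ ∈ Ioc (0 : ℝ) 1, ∀ t ∈ Ioc 0 T', ∀ η x : ℝ,
        ‖smo (φ t) κ (V t) η x - Om φ γ ν Ω Θ 0 κ t η x‖ₑ ≤ ∫⁻ s in Ioo 0 t, ∫⁻ p : ℝ × ℝ,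
          ENNReal.ofReal (gs (cg L) (aa ν κ t s) p.1 * gs (cg L) (aa ν κ t s) (η - p.2)) *
            (ENNReal.ofReal (C / √(ν * (t - s)) * (1 + U s)) *
                ‖V s p.2 (x + p.1) - Ω s p.2 (x + p.1)‖ₑ
              + ENNReal.ofReal (C / √(ν * (t - s))) *
                (ENNReal.ofReal (gs (mm L β s) (ν * s) p.2) *
                  Dw (φ s) (fun η' x' => V s η' x' - Ω s η' x') p.2 (x + p.1))) := by
  obtain ⟨Ck, hCk, hK⟩ := Kw_le hS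
  refine ⟨Ck * (1 + 4 * |M|), by positivity, ?_⟩
  intro β T' ν Ω Θ hP hI V w hV U hU κ hκ t ht η x
  have hκ' : κ ∈ Icc (0 : ℝ) 1 := ⟨hκ.1.le, hκ.2⟩
  have hν := hP.ν_pos
  have e1 : smo (φ t) κ (V t) η x - Om φ γ ν Ω Θ 0 κ t η x = ∫ s in Ioo 0 t,
      ((∫ p : ℝ × ℝ, V s p.2 (x + p.1) * Kw φ γ ν κ t s η x p (w s p.2 (x + p.1)))
        - Nk φ γ ν Ω Θ 0 κ t s η x) := by
    rw [integral_sub (hV.int_s κ hκ.1 t ht η x) (Nk_integrableOn hS hP hI hκ' ht zero_le_one η x),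
      hV.ident κ hκ.1 t ht η x, Om]
    ring
  rw [e1]
  refine (enorm_integral_le_lintegral_enorm _).trans ?_
  refine lintegral_mono_ae ?_
  filter_upwards [ae_restrict_mem measurableSet_Ioo] with s hs
  have hs' : s ∈ Ioc 0 T' := ⟨hs.1, hs.2.le.trans ht.2⟩
  obtain ⟨hi, he⟩ := Nk_weak hS hP hI hκ' ht hs η x
  rw [he, ← integral_sub (hV.int_p κ hκ.1 t ht η x s hs) hi]
  refine (enorm_integral_le_lintegral_enorm _).trans (lintegral_mono fun p => ?_)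
  obtain ⟨k1, k2⟩ := hK ν κ t s hν hP.ν_le hκ.1.le hκ.2 hs.1.le hs.2
    (ht.2.trans hP.T'_le_one) η x p (w s p.2 (x + p.1)) (wt φ Ω s p.2 (x + p.1))
  have hts : 0 < ν * (t - s) := mul_pos hν (sub_pos.2 hs.2)
  have hsq : 1 / √(aa ν κ t s) ≤ 1 / √(ν * (t - s)) := by
    refine one_div_le_one_div_of_le (Real.sqrt_pos.2 hts) (Real.sqrt_le_sqrt ?_)
    unfold aa
    linarith [hκ.1]
  have hg : 0 ≤ gs (cg L) (aa ν κ t s) p.1 * gs (cg L) (aa ν κ t s) (η - p.2) :=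
    mul_nonneg (gs_nonneg _ _ _) (gs_nonneg _ _ _)
  have hw := hU s hs' p.2 (x + p.1)
  have hU0 : 0 ≤ U s := (norm_nonneg _).trans hw
  have hN : 0 ≤ gs (mm L β s) (ν * s) p.2 := gs_nonneg _ _ _
  have hΩ : |Ω s p.2 (x + p.1)| ≤ 4 * |M| * gs (mm L β s) (ν * s) p.2 := by
    have := (hI.w0 s hs' p.2).abs_le (hP.rad_pos hs'.2).le (by norm_num) (x + p.1)
    calc _ ≤ 4 * (M * gs (mm L β s) (ν * s) p.2) := this
      _ ≤ 4 * (|M| * gs (mm L β s) (ν * s) p.2) := by gcongr; exact le_abs_self M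
      _ = _ := by ring
  have hM : 0 ≤ |M| := abs_nonneg M
  refine ErrPt_alg (e := ‖w s p.2 (x + p.1) - wt φ Ω s p.2 (x + p.1)‖) hg (by positivity)
    (by positivity) hN ?_ ?_ ?_
  · refine k1.trans ?_
    rw [mul_comm]
    refine mul_le_mul_of_nonneg_left ?_ hg
    calc Ck * (1 / √(aa ν κ t s)) * (1 + ‖w s p.2 (x + p.1)‖)
        ≤ Ck * (1 + 4 * |M|) * (1 / √(ν * (t - s))) * (1 + U s) := by
          gcongr
          nlinarith
      _ = _ := by ring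
  · calc |Ω s p.2 (x + p.1)| * |Kw φ γ ν κ t s η x p (w s p.2 (x + p.1))
            - Kw φ γ ν κ t s η x p (wt φ Ω s p.2 (x + p.1))|
        ≤ ((1 + 4 * |M|) * gs (mm L β s) (ν * s) p.2) * (Ck * (1 / √(ν * (t - s))) *
            ‖w s p.2 (x + p.1) - wt φ Ω s p.2 (x + p.1)‖ *
            (gs (cg L) (aa ν κ t s) p.1 * gs (cg L) (aa ν κ t s) (η - p.2))) := by
          refine mul_le_mul (hΩ.trans ?_) (k2.trans ?_) (abs_nonneg _) (by positivity)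
          · gcongr
            linarith
          · gcongr
      _ = _ := by ring
  · rw [ofReal_norm]
    exact ErrPt_vel hS hP hI hV hs' p.2 (x + p.1)

end Pool.Agent.Lib.MP_3d41d4_an
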