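import Pool.Agent.Lib.MP_3d41d4_an.VelD

open MeasureTheory Set Filter Topology Real
open scoped ENNReal

namespace Pool.Agent.Lib.MP_3d41d4_an

variable {ρ L M₀ T : ℝ} {φ γ : ℝ → ℝ → ℝ}

theorem Flux0_meas_sign : Measurable Real.sign := by
  unfold Real.sign
  exact Measurable.ite measurableSet_Iio measurable_const
    (Measurable.ite measurableSet_Ioi measurable_const measurable_const)

theorem Flux0_abs_sign_le (r : ℝ) : |Real.sign r| ≤ 1 := by
  rcases Real.sign_apply_eq r with h | h | h <;> rw [h] <;> norm_num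

/-- The jump term does not contribute to the flux. -/
theorem Flux0_jump {f : ℝ → ℝ} (hm : Measurable f) (hf : Integrable f) :
    Integrable (fun η => (∫ η', Real.sign (η - η') * f η') * f η) ∧
      ∫ η, (∫ η', Real.sign (η - η') * f η') * f η = 0 := by
  have hF : Integrable (fun p : ℝ × ℝ => Real.sign (p.1 - p.2) * f p.2 * f p.1)
      ((volume : Measure ℝ).prod volume) := by
    have h1 : Integrable (fun p : ℝ × ℝ => f p.1 * f p.2) ((volume : Measure ℝ).prod volume) :=
      hf.mul_prod hf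
    refine h1.mono ?_ (Eventually.of_forall fun p => ?_)
    · exact (((Flux0_meas_sign.comp (measurable_fst.sub measurable_snd)).mul
        (hm.comp measurable_snd)).mul (hm.comp measurable_fst)).aestronglyMeasurable
    · simp only [Real.norm_eq_abs, abs_mul]
      have h2 := Flux0_abs_sign_le (p.1 - p.2)
      have h3 : 0 ≤ |f p.1| * |f p.2| := by positivity
      calc |Real.sign (p.1 - p.2)| * |f p.2| * |f p.1|
          = |Real.sign (p.1 - p.2)| * (|f p.1| * |f p.2|) := by ring
        _ ≤ 1 * (|f p.1| * |f p.2|) := mul_le_mul_of_nonneg_right h2 h3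
        _ = |f p.1| * |f p.2| := one_mul _
  have e1 : (fun η => (∫ η', Real.sign (η - η') * f η') * f η)
      = fun η => ∫ η', Real.sign (η - η') * f η' * f η := by
    funext η
    rw [integral_mul_const]
  refine ⟨?_, ?_⟩
  · rw [e1]
    exact hF.integral_prod_left
  · rw [e1]
    have hs : ∫ η, ∫ η', Real.sign (η - η') * f η' * f η
        = ∫ η', ∫ η, Real.sign (η - η') * f η' * f η :=
      integral_integral_swap (f := fun η η' => Real.sign (η - η') * f η' * f η) hF
    have hn : ∫ η', ∫ η, Real.sign (η - η') * f η' * f η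
        = -∫ η, ∫ η', Real.sign (η - η') * f η' * f η := by
      rw [← integral_neg]
      refine integral_congr_ae (Eventually.of_forall fun a => ?_)
      have : ∀ b : ℝ, Real.sign (b - a) * f a * f b = -(Real.sign (a - b) * f b * f a) := by
        intro b
        rw [← neg_sub a b, Real.sign_neg]
        ring
      simp only [this, integral_neg]
    linarith

theorem QQ_sub_WR (hS : Sheet ρ L M₀ T φ γ) (M : ℝ) : ∃ C : ℝ, 0 < C ∧
    ∀ {β T' ν : ℝ} {Ω Θ : ℝ → ℝ → ℝ → ℝ}, Par ρ L T β T' ν → Inv ρ L β T' ν M γ Ω Θ →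
      ∀ s ∈ Ioc 0 T',
        WR (ρ - β * s) 2 (C * √(ν * s)) fun x => QQ φ Ω s x - fl φ γ s x := by
  obtain ⟨CZ, hCZ, hZ⟩ := ZZ_W hS M
  obtain ⟨CS, hCS, hSS⟩ := SS_WR hS M
  obtain ⟨Cp, hCp, hp⟩ := pv_W ρ L
  have hc : 0 < cg L / 4 := by have := cg_pos L; positivity
  have hM₀ := hS.M_pos
  refine ⟨64 * CZ * |M| * (√(π / (cg L / 4)) + 1 / (cg L / 4)) + 64 * |M| * (Cp * CS)
    + 64 * M₀ * (Cp * |M|) + 1, by positivity, ?_⟩
  intro β T' ν Ω Θ hP hI s hs
  have hr : 0 < ρ - β * s := hP.rad_pos hs.2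
  have hrl : ρ - β * s ≤ ρ := hP.rad_le hs.1.le
  have hb : 0 < ν * s := mul_pos hP.ν_pos hs.1
  have hmm : cg L / 4 ≤ mm L β s := hP.mm_ge hs.2
  have hm0 : 0 < mm L β s := hc.trans_le hmm
  have hl : 0 < √(ν * s) := Real.sqrt_pos.mpr hb
  -- the small part
  have hmeas : Measurable fun p : ℝ × ℝ => (ZZ φ Ω s p.1 p.2).re * Ω s p.1 p.2 :=
    (Complex.measurable_re.comp
      (meas_ZZ hS hI.measΩ measurable_const measurable_fst measurable_snd)).mul
      (meas3 hI.measΩ measurable_const measurable_fst measurable_snd)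
  have hi1 : Integrable fun η => gs (mm L β s) (ν * s) η := integrable_gs hm0 hb
  have hi2 : Integrable fun η => |η| * gs (mm L β s) (ν * s) η := by
    have := integrable_abs_mul_gs hm0 hb 0
    simpa only [zero_sub, abs_neg] using this
  have hmint : Integrable fun η => 64 * CZ * |M| *
      (√(ν * s) * gs (mm L β s) (ν * s) η + |η| * gs (mm L β s) (ν * s) η) :=
    ((hi1.const_mul _).add hi2).const_mul _
  have hW : ∀ η, WR (ρ - β * s) 2 (64 * CZ * |M| *
      (√(ν * s) * gs (mm L β s) (ν * s) η + |η| * gs (mm L β s) (ν * s) η))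
      fun x => (ZZ φ Ω s η x).re * Ω s η x := by
    intro η
    have h1 := (hZ hP hI s hs η).re
    have hg := gs_nonneg (mm L β s) (ν * s) η
    have h2 : WR (ρ - β * s) 2 (|M| * gs (mm L β s) (ν * s) η) (Ω s η) :=
      (hI.w0 s hs η).mono le_rfl (by norm_num) (mul_le_mul_of_nonneg_right (le_abs_self M) hg)
    refine (WR.mul hr.le le_rfl (by norm_num) h1 h2).mono le_rfl le_rfl (le_of_eq ?_)
    ring
  have hA := WR.integral (μ := volume) hr (f := fun η x => (ZZ φ Ω s η x).re * Ω s η x) hmeas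
    hmint (Eventually.of_forall hW)
  have hAi := WR.integrable (μ := volume) hr (f := fun η x => (ZZ φ Ω s η x).re * Ω s η x) hmeas
    hmint (Eventually.of_forall hW)
  have hA' : WR (ρ - β * s) 2
      (64 * CZ * |M| * (√(π / (cg L / 4)) + 1 / (cg L / 4)) * √(ν * s))
      fun x => ∫ η, (ZZ φ Ω s η x).re * Ω s η x := by
    refine hA.mono le_rfl le_rfl ?_
    rw [integral_const_mul, integral_add (hi1.const_mul _) hi2, integral_const_mul,
      integral_gs hm0 hb, integral_abs_mul_gs hm0 hb]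
    have h1 : √(π / mm L β s) ≤ √(π / (cg L / 4)) :=
      Real.sqrt_le_sqrt (div_le_div_of_nonneg_left Real.pi_pos.le hc hmm)
    have h2 : √(ν * s) / mm L β s ≤ √(ν * s) / (cg L / 4) :=
      div_le_div_of_nonneg_left hl.le hc hmm
    have h3 : √(ν * s) * √(π / mm L β s) ≤ √(ν * s) * √(π / (cg L / 4)) :=
      mul_le_mul_of_nonneg_left h1 hl.le
    have h4 : 0 ≤ 64 * CZ * |M| := by positivity
    calc 64 * CZ * |M| * (√(ν * s) * √(π / mm L β s) + √(ν * s) / mm L β s)
        ≤ 64 * CZ * |M| * (√(ν * s) * √(π / (cg L / 4)) + √(ν * s) / (cg L / 4)) :=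
          mul_le_mul_of_nonneg_left (add_le_add h3 h2) h4
      _ = 64 * CZ * |M| * (√(π / (cg L / 4)) + 1 / (cg L / 4)) * √(ν * s) := by ring
  -- the principal value parts
  have hS3 := hSS hP hI s hs
  have hS2 : WR (ρ - β * s) 2 CS (SS Ω s) := hS3.mono le_rfl (by norm_num) le_rfl
  have hδ : WR (ρ - β * s) 2 (|M| * √(ν * s)) fun x => SS Ω s x - γ s x :=
    (hI.wδ s hs).mono le_rfl le_rfl (mul_le_mul_of_nonneg_right (le_abs_self M) hl.le)
  have hγ : WR (ρ - β * s) 2 M₀ (γ s) := (hS.wγ s).mono hrl (by norm_num) le_rfl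
  have hpS := (hp (φ s) (hS.curve s) _ hr hrl 2 le_rfl (by norm_num) _ _ hS2).re
  have hpδ := (hp (φ s) (hS.curve s) _ hr hrl 2 le_rfl (by norm_num) _ _ hδ).re
  have hB := WR.mul hr.le le_rfl (by norm_num) hδ hpS
  have hC := WR.mul hr.le le_rfl (by norm_num) hγ hpδ
  have hall := (hA'.add hB).add hC
  have heq : (fun x => QQ φ Ω s x - fl φ γ s x) = fun x =>
      (∫ η, (ZZ φ Ω s η x).re * Ω s η x)
        + (SS Ω s x - γ s x) * (pv (φ s) (SS Ω s) x).re
        + γ s x * (pv (φ s) (fun y => SS Ω s y - γ s y) x).re := by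
    funext x
    have hΩi := integrable_Ω hS hP hI hs x
    have hΩm : Measurable fun η => Ω s η x :=
      meas3 hI.measΩ measurable_const measurable_id measurable_const
    obtain ⟨hJi, hJ0⟩ := Flux0_jump hΩm hΩi
    have e1 : ∀ η, u1 φ Ω s η x * Ω s η x
        = (ZZ φ Ω s η x).re * Ω s η x + (pv (φ s) (SS Ω s) x).re * Ω s η x
          - ((2 * zp (φ s) x)⁻¹).re * ((∫ η', Real.sign (η - η') * Ω s η' x) * Ω s η x) := by
      intro η
      unfold u1
      rw [wt_split hS hP hI hs η x, Complex.sub_re, Complex.add_re, div_eq_mul_inv,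
        Complex.re_ofReal_mul]
      ring
    have e2 : QQ φ Ω s x = (∫ η, (ZZ φ Ω s η x).re * Ω s η x)
        + (pv (φ s) (SS Ω s) x).re * SS Ω s x := by
      unfold QQ
      simp only [e1]
      have hsum : Integrable fun η =>
          (ZZ φ Ω s η x).re * Ω s η x + (pv (φ s) (SS Ω s) x).re * Ω s η x :=
        (hAi x).add (hΩi.const_mul _)
      rw [integral_sub hsum (hJi.const_mul _),
        integral_add (hAi x) (hΩi.const_mul _), integral_const_mul, integral_const_mul, hJ0,
        mul_zero, sub_zero]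
      rfl
    rw [e2, pv_sub (hS.curve s) hr hS2 hγ x, Complex.sub_re]
    unfold fl
    ring
  rw [heq]
  refine hall.mono le_rfl le_rfl ?_
  nlinarith [hl]

end Pool.Agent.Lib.MP_3d41d4_an
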