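import Pool.Agent.Lib.MP_3d41d4_an.Geo
import Pool.Agent.Lib.MP_3d41d4_an.Gcalc

open MeasureTheory Set Filter Topology Real
open scoped ENNReal

namespace Pool.Agent.Lib.MP_3d41d4_an

/-- Complex Hermite factors. -/
noncomputable def GK_hp : ℕ → ℝ → ℂ → ℂ
  | 0, _, _ => 1
  | 1, a, Y => -Y / (2 * a)
  | 2, a, Y => Y ^ 2 / (4 * a ^ 2) - 1 / (2 * a)
  | 3, a, Y => 3 * Y / (4 * a ^ 2) - Y ^ 3 / (8 * a ^ 3)
  | _, _, _ => 0

/-- Complex heat kernel. -/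
noncomputable def GK_G (a r : ℝ) (Y : ℂ) : ℂ :=
  Complex.exp (-(((r : ℂ) ^ 2 + Y ^ 2) / (4 * a))) / (4 * π * a)

theorem GK_hp_real (j : ℕ) (a Y : ℝ) : GK_hp j a Y = (hp j a Y : ℝ) := by
  match j with
  | 0 => simp [GK_hp, hp]
  | 1 => simp [GK_hp, hp]
  | 2 => simp [GK_hp, hp]
  | 3 => simp [GK_hp, hp]
  | n + 4 => simp [GK_hp, hp]

theorem GK_G_real (a r Y : ℝ) : GK_G a r Y = (G a r Y : ℝ) := by
  simp [GK_G, G]

theorem GK_hp_diff (j : ℕ) (a : ℝ) : Differentiable ℂ (GK_hp j a) := by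
  match j with
  | 0 => exact differentiable_const _
  | 1 =>
    change Differentiable ℂ fun Y : ℂ => -Y / (2 * a)
    fun_prop
  | 2 =>
    change Differentiable ℂ fun Y : ℂ => Y ^ 2 / (4 * a ^ 2) - 1 / (2 * a)
    fun_prop
  | 3 =>
    change Differentiable ℂ fun Y : ℂ => 3 * Y / (4 * a ^ 2) - Y ^ 3 / (8 * a ^ 3)
    fun_prop
  | n + 4 => exact differentiable_const _

theorem GK_G_diff (a r : ℝ) : Differentiable ℂ (GK_G a r) := by
  unfold GK_G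
  fun_prop

theorem GK_hp_norm {j : ℕ} (hj : j ≤ 3) {s B : ℝ} (hs : 0 < s) (hB : 1 ≤ B) {Y : ℂ}
    (hY : ‖Y‖ ≤ B * s) : ‖GK_hp j (s ^ 2) Y‖ ≤ (1 / s) ^ j * B ^ 3 := by
  obtain ⟨y, hy⟩ : ∃ y : ℝ, ‖Y‖ = y * s := ⟨‖Y‖ / s, by field_simp⟩
  have hy0 : 0 ≤ y := by
    have := norm_nonneg Y
    rw [hy] at this
    exact nonneg_of_mul_nonneg_left this hs
  have hyB : y ≤ B := by
    rw [hy] at hY
    exact le_of_mul_le_mul_right hY hs
  have h1 : 1 ≤ B ^ 3 := one_le_pow₀ hB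
  have hB1 : B ≤ B ^ 3 := by nlinarith [sq_nonneg (B - 1), sq_nonneg B]
  have hB2 : B ^ 2 ≤ B ^ 3 := pow_le_pow_right₀ hB (by norm_num)
  have hy2 : y ^ 2 ≤ B ^ 2 := pow_le_pow_left₀ hy0 hyB 2
  have hy3 : y ^ 3 ≤ B ^ 3 := pow_le_pow_left₀ hy0 hyB 3
  have hn : ‖((s ^ 2 : ℝ) : ℂ)‖ = s ^ 2 := by
    rw [Complex.norm_real, Real.norm_of_nonneg (by positivity)]
  interval_cases j
  · simpa [GK_hp] using h1
  · have e : ‖GK_hp 1 (s ^ 2) Y‖ = (1 / s) ^ 1 * (y / 2) := by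
      simp only [GK_hp, norm_div, norm_neg, norm_mul, hn, hy, Complex.norm_ofNat]
      field_simp
    rw [e]
    exact mul_le_mul_of_nonneg_left (by linarith) (by positivity)
  · have e : ‖GK_hp 2 (s ^ 2) Y‖ ≤ (1 / s) ^ 2 * (y ^ 2 / 4 + 1 / 2) := by
      refine (norm_sub_le _ _).trans (le_of_eq ?_)
      simp only [norm_div, norm_mul, norm_pow, hn, hy, Complex.norm_ofNat, norm_one]
      field_simp
    exact e.trans (mul_le_mul_of_nonneg_left (by linarith) (by positivity))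
  · have e : ‖GK_hp 3 (s ^ 2) Y‖ ≤ (1 / s) ^ 3 * (3 * y / 4 + y ^ 3 / 8) := by
      refine (norm_sub_le _ _).trans (le_of_eq ?_)
      simp only [norm_div, norm_mul, norm_pow, hn, hy, Complex.norm_ofNat]
      field_simp
    exact e.trans (mul_le_mul_of_nonneg_left (by linarith) (by positivity))

theorem GK_G_norm {L a r σ : ℝ} (ha : 0 < a) {q : ℂ} (h1 : ‖q‖ ≤ L * |r|)
    (h2 : |q.im| ≤ |r| / 2) :
    ‖GK_G a r (σ - q)‖ ≤ gs (2 * cg L) a r * gs (2 * cg L) a σ := by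
  have hp2 : q.re ^ 2 ≤ L ^ 2 * r ^ 2 := by
    have h3 := pow_le_pow_left₀ (abs_nonneg _) ((Complex.abs_re_le_norm q).trans h1) 2
    rwa [sq_abs, mul_pow, sq_abs] at h3
  have hs2 : q.im ^ 2 ≤ r ^ 2 / 4 := by
    have h3 := pow_le_pow_left₀ (abs_nonneg _) h2 2
    rw [sq_abs, div_pow, sq_abs] at h3
    linarith
  have hre : (-(((r : ℂ) ^ 2 + ((σ : ℂ) - q) ^ 2) / (4 * a))).re =
      -((r ^ 2 + (σ - q.re) ^ 2 - q.im ^ 2) / (4 * a)) := by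
    have e : (4 * (a : ℂ)) = ((4 * a : ℝ) : ℂ) := by push_cast; ring
    rw [e, Complex.neg_re, Complex.div_ofReal_re]
    simp [sq]
    ring
  have hD : 0 < 16 + 32 * L ^ 2 := by positivity
  have key : 8 * cg L * (r ^ 2 + σ ^ 2) ≤ r ^ 2 + (σ - q.re) ^ 2 - q.im ^ 2 := by
    have e : 8 * cg L * (r ^ 2 + σ ^ 2) = (r ^ 2 + σ ^ 2) / (2 + 4 * L ^ 2) := by
      unfold cg
      field_simp
      ring
    rw [e, div_le_iff₀ (by positivity)]
    have h4 : σ ^ 2 ≤ 2 * (σ - q.re) ^ 2 + 2 * q.re ^ 2 := by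
      nlinarith [sq_nonneg (σ - 2 * q.re)]
    have h5 : 3 / 4 * r ^ 2 + (σ - q.re) ^ 2 ≤ r ^ 2 + (σ - q.re) ^ 2 - q.im ^ 2 := by linarith
    have h6 := mul_le_mul_of_nonneg_right h5 (by positivity : (0 : ℝ) ≤ 2 + 4 * L ^ 2)
    nlinarith [mul_nonneg (sq_nonneg L) (sq_nonneg r), mul_nonneg (sq_nonneg L)
      (sq_nonneg (σ - q.re)), sq_nonneg r]
  have hn : ‖(4 * (π : ℂ) * a)‖ = 4 * π * a := by
    have e : (4 * (π : ℂ) * a) = ((4 * π * a : ℝ) : ℂ) := by push_cast; ring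
    rw [e, Complex.norm_real, Real.norm_of_nonneg (by positivity)]
  have hg : gs (2 * cg L) a r * gs (2 * cg L) a σ =
      Real.exp (-(8 * cg L * (r ^ 2 + σ ^ 2) / (4 * a))) / a := by
    unfold gs
    rw [div_mul_div_comm, Real.mul_self_sqrt ha.le, ← Real.exp_add]
    congr 2
    field_simp
    ring
  rw [hg, GK_G, norm_div, Complex.norm_exp, hre, hn]
  have hπ : a ≤ 4 * π * a := by nlinarith [Real.pi_gt_three]
  refine div_le_div₀ (Real.exp_pos _).le (Real.exp_le_exp.2 ?_) ha hπ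
  exact neg_le_neg (div_le_div_of_nonneg_right key (by positivity))

theorem GK_bound {L a r σ C : ℝ} (hL : 1 ≤ L) (ha : 0 < a)
    (hC : ∀ y, (1 + |y| / √a) ^ 4 * gs (2 * cg L) a y ≤ C * gs (cg L) a y)
    {i j : ℕ} (hi : i ≤ 1) (hj : j ≤ 3) {q : ℂ} (h1 : ‖q‖ ≤ L * |r|) (h2 : |q.im| ≤ |r| / 2) :
    ‖(((-r / (2 * a)) ^ i : ℝ) : ℂ) * (GK_hp j a (σ - q) * GK_G a r (σ - q))‖ ≤
      L ^ 3 * C ^ 2 * (1 / √a) ^ (i + j) * gs (cg L) a r * gs (cg L) a σ := by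
  have hG := GK_G_norm (σ := σ) ha h1 h2
  have hr := hC r
  have hσ := hC σ
  obtain ⟨s, hs, rfl⟩ : ∃ s : ℝ, 0 < s ∧ a = s ^ 2 :=
    ⟨√a, Real.sqrt_pos.2 ha, (Real.sq_sqrt ha.le).symm⟩
  rw [Real.sqrt_sq hs.le] at hr hσ ⊢
  obtain ⟨u, hu⟩ : ∃ u : ℝ, u = |r| / s := ⟨_, rfl⟩
  obtain ⟨w, hw⟩ : ∃ w : ℝ, w = |σ| / s := ⟨_, rfl⟩
  rw [← hu] at hr
  rw [← hw] at hσ
  have hu0 : 0 ≤ u := by rw [hu]; positivity
  have hw0 : 0 ≤ w := by rw [hw]; positivity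
  have hru : |r| = u * s := by rw [hu]; field_simp
  have hσw : |σ| = w * s := by rw [hw]; field_simp
  have huw : 0 ≤ u * w := mul_nonneg hu0 hw0
  have hP : 1 ≤ (1 + u) * (1 + w) := by nlinarith
  have hB : 1 ≤ L * ((1 + u) * (1 + w)) := one_le_mul_of_one_le_of_one_le hL hP
  have hY : ‖(σ : ℂ) - q‖ ≤ L * ((1 + u) * (1 + w)) * s := by
    refine (norm_sub_le _ _).trans ?_
    rw [Complex.norm_real, Real.norm_eq_abs, hσw]
    rw [hru] at h1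
    have h3 : w + L * u ≤ L * ((1 + u) * (1 + w)) := by
      nlinarith [mul_nonneg (sub_nonneg.2 hL) hw0, mul_nonneg (zero_le_one.trans hL) huw]
    nlinarith [mul_le_mul_of_nonneg_right h3 hs.le]
  have hH := GK_hp_norm hj hs hB hY
  have hF : ‖(((-r / (2 * s ^ 2)) ^ i : ℝ) : ℂ)‖ ≤ (1 / s) ^ i * (1 + u) := by
    rw [Complex.norm_real, Real.norm_eq_abs]
    interval_cases i
    · simpa using hu0
    · have e : |(-r / (2 * s ^ 2)) ^ 1| = (1 / s) ^ 1 * (u / 2) := by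
        rw [pow_one, abs_div, abs_neg, hru, abs_of_pos (by positivity : 0 < 2 * s ^ 2)]
        field_simp
      rw [e]
      exact mul_le_mul_of_nonneg_left (by linarith) (by positivity)
  have g1 := gs_nonneg (2 * cg L) (s ^ 2) r
  have g2 := gs_nonneg (2 * cg L) (s ^ 2) σ
  have hL0 : 0 ≤ L := zero_le_one.trans hL
  rw [norm_mul, norm_mul]
  calc _ ≤ ((1 / s) ^ i * (1 + u)) * (((1 / s) ^ j * (L * ((1 + u) * (1 + w))) ^ 3) *
        (gs (2 * cg L) (s ^ 2) r * gs (2 * cg L) (s ^ 2) σ)) :=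
        mul_le_mul hF (mul_le_mul hH hG (norm_nonneg _) (by positivity)) (by positivity)
          (by positivity)
    _ = L ^ 3 * (1 / s) ^ (i + j) * (((1 + u) ^ 4 * gs (2 * cg L) (s ^ 2) r) *
        ((1 + w) ^ 3 * gs (2 * cg L) (s ^ 2) σ)) := by ring
    _ ≤ L ^ 3 * (1 / s) ^ (i + j) * ((C * gs (cg L) (s ^ 2) r) * (C * gs (cg L) (s ^ 2) σ)) := by
        refine mul_le_mul_of_nonneg_left (mul_le_mul hr (le_trans ?_ hσ) (by positivity)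
          (le_trans (by positivity) hr)) (by positivity)
        exact mul_le_mul_of_nonneg_right (pow_le_pow_right₀ (by linarith) (by norm_num)) g2
    _ = _ := by ring

/-- The heat kernel and its derivatives along an analytic curve. -/
theorem Gd_WR (ρ L : ℝ) : ∃ C : ℝ, 0 < C ∧ ∀ φ, Curve ρ L φ → ∀ a, 0 < a → ∀ i ≤ 1, ∀ j ≤ 3,
    ∀ r σ : ℝ, WR ρ 4 (C * (1 / √a) ^ (i + j) * gs (cg L) a r * gs (cg L) a σ)
      fun x => (-r / (2 * a)) ^ i * Gd j a r (σ - ch φ x r) := by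
  by_cases hρ : 0 < ρ ∧ 1 ≤ L
  swap
  · exact ⟨1, one_pos, fun φ h => absurd ⟨h.1, h.2.1⟩ hρ⟩
  obtain ⟨hρ, hL⟩ := hρ
  obtain ⟨C1, hC1, hn⟩ := W.nice hρ
  obtain ⟨C2, hC2, hp2⟩ := poly_mul_gs_le (cg_pos L)
  refine ⟨C1 * (L ^ 3 * C2 ^ 2), by positivity, ?_⟩
  rintro φ ⟨-, -, hs, Φ, hΦ⟩ a ha i hi j hj r σ
  have hq : DifferentiableOn ℂ (fun z => (σ : ℂ) - (Φ (z + r) - Φ z)) (strip (2 * ρ)) := by
    refine (differentiableOn_const _).sub (DifferentiableOn.sub ?_ hΦ.diff)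
    exact hΦ.diff.comp (by fun_prop) fun z hz => add_real_mem_strip hz r
  have h := hn (fun z => (((-r / (2 * a)) ^ i : ℝ) : ℂ) *
      (GK_hp j a (σ - (Φ (z + r) - Φ z)) * GK_G a r (σ - (Φ (z + r) - Φ z))))
    (L ^ 3 * C2 ^ 2 * (1 / √a) ^ (i + j) * gs (cg L) a r * gs (cg L) a σ)
    ((differentiableOn_const _).mul (((GK_hp_diff j a).comp_differentiableOn hq).mul
      ((GK_G_diff a r).comp_differentiableOn hq)))
    (fun z _ => by
      have e : z + 2 * (π : ℂ) + r = z + r + 2 * (π : ℂ) := by ring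
      simp only [e, hΦ.per])
    (fun z hz => by
      have hc := hΦ.chord hρ hL hs hz
      exact GK_bound hL ha (hp2 a ha) hi hj (hc.n1 r) (hc.im r))
  have e1 : C1 * (L ^ 3 * C2 ^ 2) * (1 / √a) ^ (i + j) * gs (cg L) a r * gs (cg L) a σ =
      C1 * (L ^ 3 * C2 ^ 2 * (1 / √a) ^ (i + j) * gs (cg L) a r * gs (cg L) a σ) := by ring
  have e2 : (fun x : ℝ => (((-r / (2 * a)) ^ i * Gd j a r (σ - ch φ x r) : ℝ) : ℂ)) =
      fun x : ℝ => (((-r / (2 * a)) ^ i : ℝ) : ℂ) *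
        (GK_hp j a (σ - (Φ (x + r) - Φ x)) * GK_G a r (σ - (Φ (x + r) - Φ x))) := by
    funext x
    have e3 : (σ : ℂ) - (Φ (x + r) - Φ x) = ((σ - ch φ x r : ℝ) : ℂ) := by
      rw [← Complex.ofReal_add, hΦ.real, hΦ.real, ch]
      push_cast
      ring
    rw [e3, GK_hp_real, GK_G_real, Gd, Complex.ofReal_mul, Complex.ofReal_mul]
  rw [WR, e1, e2]
  exact h

end Pool.Agent.Lib.MP_3d41d4_an
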