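import Pool.Agent.Lib.MP_3d41d4_an.Gauss0

open MeasureTheory Set Filter Topology Real
open scoped ENNReal

namespace Pool.Agent.Lib.MP_3d41d4_an

variable {m m' a b y : ℝ}

theorem Gauss_aux (hm : 0 < m) (u : ℝ) (hu : 0 ≤ u) :
    (1 + u) ^ 4 * Real.exp (-(m * u ^ 2)) ≤ 8 * (1 + 2 / m ^ 2) := by
  have h1 : (1 + u) ^ 4 ≤ 8 * (1 + u ^ 4) := by
    have := add_pow_le (zero_le_one' ℝ) hu 4
    norm_num at this
    linarith
  have h2 : m * u ^ 2 ≥ 0 := by positivity
  have h3 : (m * u ^ 2) ^ 2 / 2 ≤ Real.exp (m * u ^ 2) := by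
    have := Real.pow_div_factorial_le_exp (m * u ^ 2) h2 2
    simpa using this
  have h4 : 1 ≤ Real.exp (m * u ^ 2) := Real.one_le_exp h2
  have h5 : u ^ 4 ≤ 2 / m ^ 2 * Real.exp (m * u ^ 2) := by
    rw [div_mul_eq_mul_div, le_div_iff₀ (by positivity)]
    nlinarith
  rw [Real.exp_neg, ← div_eq_mul_inv, div_le_iff₀ (Real.exp_pos _)]
  nlinarith

/-- Polynomial factors are absorbed by halving the exponent. -/
theorem poly_mul_gs_le (hm : 0 < m) :
    ∃ C : ℝ, 0 < C ∧ ∀ b, 0 < b → ∀ y, (1 + |y| / √b) ^ 4 * gs (2 * m) b y ≤ C * gs m b y := by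
  refine ⟨8 * (1 + 2 / m ^ 2), by positivity, fun b hb y => ?_⟩
  have hs : 0 < √b := Real.sqrt_pos.mpr hb
  have e : gs (2 * m) b y = Real.exp (-(m * (|y| / √b) ^ 2)) * gs m b y := by
    unfold gs
    rw [div_pow, sq_abs, Real.sq_sqrt hb.le, ← mul_div_assoc (Real.exp _), ← Real.exp_add]
    congr 2
    ring
  rw [e, ← mul_assoc]
  exact mul_le_mul_of_nonneg_right (Gauss_aux hm _ (by positivity)) (gs_nonneg _ _ _)

theorem hasDerivAt_gs (m : ℝ) (b y : ℝ) :
    HasDerivAt (gs m b) (-(2 * m * y / b) * gs m b y) y := by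
  have h1 : HasDerivAt (fun y : ℝ => -(m * y ^ 2 / b)) (-(2 * m * y / b)) y := by
    have := (((hasDerivAt_pow 2 y).const_mul m).div_const b).neg
    refine this.congr_deriv ?_
    simp
    ring
  have h2 := h1.exp.div_const (√b)
  refine h2.congr_deriv ?_
  unfold gs
  ring

theorem H_eq (ha : 0 < a) (r : ℝ) : H a r = 1 / √(4 * π) * gs (1 / 4) a r := by
  unfold H gs
  rw [Real.sqrt_mul (by positivity : (0 : ℝ) ≤ 4 * π) a]
  have e : -(r ^ 2 / (4 * a)) = -(1 / 4 * r ^ 2 / a) := by field_simp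
  rw [e]
  have : 0 < √(4 * π) := Real.sqrt_pos.mpr (by positivity)
  have : 0 < √a := Real.sqrt_pos.mpr ha
  field_simp

theorem H_nonneg (a r : ℝ) : 0 ≤ H a r := by
  unfold H
  positivity

theorem integrable_H (ha : 0 < a) : Integrable (H a) := by
  have : H a = fun r => 1 / √(4 * π) * gs (1 / 4) a r := funext (H_eq ha)
  rw [this]
  exact (integrable_gs (by norm_num) ha).const_mul _

theorem integral_H (ha : 0 < a) : ∫ r, H a r = 1 := by
  simp only [H_eq ha]
  rw [integral_const_mul, integral_gs (by norm_num) ha]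
  have e : π / (1 / 4) = 4 * π := by ring
  have : 0 < √(4 * π) := Real.sqrt_pos.mpr (by positivity)
  rw [e]
  field_simp

theorem integrable_abs_mul_H (ha : 0 < a) : Integrable fun r => |r| * H a r := by
  have h := (integrable_abs_mul_gs (m := 1 / 4) (by norm_num) ha 0).const_mul (1 / √(4 * π))
  refine h.congr (Eventually.of_forall fun r => ?_)
  simp only [H_eq ha, zero_sub, abs_neg]
  ring

theorem integral_abs_mul_H_le (ha : 0 < a) : ∫ r, |r| * H a r ≤ 2 * √a := by
  have e : ∀ r, |r| * H a r = 1 / √(4 * π) * (|r| * gs (1 / 4) a r) := fun r => by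
    rw [H_eq ha]; ring
  simp only [e]
  rw [integral_const_mul, integral_abs_mul_gs (by norm_num) ha]
  have h2 : 2 ≤ √(4 * π) := by
    apply Real.le_sqrt_of_sq_le
    nlinarith [Real.pi_gt_three]
  have h3 : 0 ≤ √a := Real.sqrt_nonneg a
  rw [div_mul_eq_mul_div, div_le_iff₀ (by linarith)]
  nlinarith

theorem measurable_H {Λ : Type} [MeasurableSpace Λ] {a r : Λ → ℝ} (ha : Measurable a)
    (hr : Measurable r) : Measurable fun l => H (a l) (r l) := by
  unfold H
  fun_prop

end Pool.Agent.Lib.MP_3d41d4_an
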