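import Pool.Agent.Lib.MP_3d41d4_an.Defs

open MeasureTheory Set Filter Topology Real
open scoped ENNReal

namespace Pool.Agent.Lib.MP_3d41d4_an

variable {m m' a b y : ℝ}

theorem cg_pos (L : ℝ) : 0 < cg L := by
  unfold cg
  positivity

theorem cg_le (L : ℝ) : cg L ≤ 1 / 16 := by
  unfold cg
  exact one_div_le_one_div_of_le (by norm_num) (by nlinarith [sq_nonneg L])

theorem Par.rad_ge {ρ L T β T' ν s : ℝ} (h : Par ρ L T β T' ν) (hs : s ≤ T') :
    ρ / 2 ≤ ρ - β * s := by
  have h1 := mul_le_mul_of_nonneg_left hs h.β_pos.le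
  have h2 := h.rad
  linarith

theorem Par.rad_pos {ρ L T β T' ν s : ℝ} (h : Par ρ L T β T' ν) (hs : s ≤ T') :
    0 < ρ - β * s := by
  have h1 := h.rad_ge hs
  have h2 := h.rad
  have h3 := mul_pos h.β_pos h.T'_pos
  linarith

theorem Par.rad_le {ρ L T β T' ν s : ℝ} (h : Par ρ L T β T' ν) (hs : 0 ≤ s) :
    ρ - β * s ≤ ρ := by
  have h1 := mul_nonneg h.β_pos.le hs
  linarith

theorem Par.mm_ge {ρ L T β T' ν s : ℝ} (h : Par ρ L T β T' ν) (hs : s ≤ T') :
    cg L / 4 ≤ mm L β s := by
  have h1 := mul_le_mul_of_nonneg_left hs h.β_pos.le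
  have h2 := h.gau
  unfold mm
  linarith

theorem Par.mm_le {ρ L T β T' ν s : ℝ} (h : Par ρ L T β T' ν) (hs : 0 ≤ s) :
    mm L β s ≤ cg L / 2 := by
  have h1 := mul_nonneg h.β_pos.le hs
  unfold mm
  linarith

theorem gs_nonneg (m b y : ℝ) : 0 ≤ gs m b y := by
  unfold gs
  positivity

theorem gs_pos (hb : 0 < b) (m y : ℝ) : 0 < gs m b y := by
  unfold gs
  positivity

theorem gs_neg (m b y : ℝ) : gs m b (-y) = gs m b y := by
  unfold gs
  rw [neg_sq]

theorem gs_le (hm : 0 ≤ m) (hb : 0 < b) (y : ℝ) : gs m b y ≤ 1 / √b := by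
  unfold gs
  refine div_le_div_of_nonneg_right (Real.exp_le_one_iff.2 ?_) (Real.sqrt_nonneg _)
  have : 0 ≤ m * y ^ 2 / b := by positivity
  linarith

theorem gs_anti (hm : m ≤ m') (hb : 0 < b) (y : ℝ) : gs m' b y ≤ gs m b y := by
  unfold gs
  refine div_le_div_of_nonneg_right (Real.exp_le_exp.2 (neg_le_neg ?_)) (Real.sqrt_nonneg _)
  exact div_le_div_of_nonneg_right (mul_le_mul_of_nonneg_right hm (sq_nonneg y)) hb.le

theorem measurable_gs {Λ : Type} [MeasurableSpace Λ] {m b y : Λ → ℝ} (hm : Measurable m)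
    (hb : Measurable b) (hy : Measurable y) : Measurable fun a => gs (m a) (b a) (y a) := by
  unfold gs
  fun_prop

theorem continuous_gs (m b : ℝ) : Continuous (gs m b) := by
  unfold gs
  fun_prop

theorem Gauss0_eq (m b : ℝ) : gs m b = fun y => Real.exp (-(m / b) * y ^ 2) * (√b)⁻¹ := by
  funext y
  unfold gs
  rw [div_eq_mul_inv _ (√b)]
  congr 2
  ring

theorem integrable_gs (hm : 0 < m) (hb : 0 < b) : Integrable (gs m b) := by
  rw [Gauss0_eq]
  exact (integrable_exp_neg_mul_sq (div_pos hm hb)).mul_const _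

theorem integral_gs (hm : 0 < m) (hb : 0 < b) : ∫ y, gs m b y = √(π / m) := by
  rw [Gauss0_eq]
  simp only
  rw [integral_mul_const, integral_gaussian]
  have h : π / (m / b) = π / m * b := by field_simp
  have hs : √b ≠ 0 := (Real.sqrt_pos.2 hb).ne'
  rw [h, Real.sqrt_mul (by positivity), mul_assoc, mul_inv_cancel₀ hs, mul_one]

theorem Gauss0_square (ha : 0 < a) (hb : 0 < b) (m η y : ℝ) :
    gs m a (η - y) * gs m b y =
      gs m (a + b) η * gs m (a * b / (a + b)) (y - b * η / (a + b)) := by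
  unfold gs
  have hab : 0 < a + b := by positivity
  rw [div_mul_div_comm, div_mul_div_comm, ← Real.exp_add, ← Real.exp_add,
    ← Real.sqrt_mul ha.le, ← Real.sqrt_mul hab.le]
  congr 2
  · field_simp
    ring
  · field_simp

theorem integrable_gs_conv (hm : 0 < m) (ha : 0 < a) (hb : 0 < b) (η : ℝ) :
    Integrable fun y => gs m a (η - y) * gs m b y := by
  simp only [Gauss0_square ha hb]
  exact ((integrable_gs hm (by positivity)).comp_sub_right _).const_mul _

theorem integral_gs_conv (hm : 0 < m) (ha : 0 < a) (hb : 0 < b) (η : ℝ) :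
    ∫ y, gs m a (η - y) * gs m b y = √(π / m) * gs m (a + b) η := by
  simp only [Gauss0_square ha hb]
  rw [integral_const_mul, integral_sub_right_eq_self (gs m (a * b / (a + b))),
    integral_gs hm (by positivity), mul_comm]

theorem Gauss0_integrable_abs (hm : 0 < m) (hb : 0 < b) :
    Integrable fun y => |y| * gs m b y := by
  have h := ((integrable_mul_exp_neg_mul_sq (div_pos hm hb)).mul_const (√b)⁻¹).abs
  refine h.congr (Eventually.of_forall fun y => ?_)
  simp only [Gauss0_eq]
  rw [mul_assoc, abs_mul, abs_of_nonneg (a := _ * (√b)⁻¹) (by positivity)]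

theorem integrable_abs_mul_gs (hm : 0 < m) (hb : 0 < b) (η : ℝ) :
    Integrable fun y => |η - y| * gs m b y := by
  refine (((integrable_gs hm hb).const_mul |η|).add (Gauss0_integrable_abs hm hb)).mono'
    (Continuous.aestronglyMeasurable ?_) (Eventually.of_forall fun y => ?_)
  · have := continuous_gs m b
    fun_prop
  · rw [Real.norm_eq_abs, abs_of_nonneg (mul_nonneg (abs_nonneg _) (gs_nonneg _ _ _))]
    simp only [Pi.add_apply]
    rw [← add_mul]
    exact mul_le_mul_of_nonneg_right (abs_sub _ _) (gs_nonneg _ _ _)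

theorem integral_abs_mul_gs (hm : 0 < m) (hb : 0 < b) : ∫ y, |y| * gs m b y = √b / m := by
  have hc : 0 < m / b := div_pos hm hb
  have h1 : ∫ y, |y| * gs m b y = 2 * ∫ y in Ioi (0 : ℝ), y * gs m b y := by
    rw [← integral_comp_abs (f := fun y => y * gs m b y)]
    congr 1
    funext y
    unfold gs
    rw [sq_abs]
  have h2 : ∫ y in Ioi (0 : ℝ), y * Real.exp (-(m / b) * y ^ 2) =
      0 - -(Real.exp (-(m / b) * 0 ^ 2) / (2 * (m / b))) := by
    refine integral_Ioi_of_hasDerivAt_of_tendsto'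
      (f := fun y => -(Real.exp (-(m / b) * y ^ 2) / (2 * (m / b)))) (fun y _ => ?_)
      (integrable_mul_exp_neg_mul_sq hc).integrableOn ?_
    · have h := ((((hasDerivAt_pow 2 y).const_mul (-(m / b))).exp).div_const (2 * (m / b))).neg
      refine h.congr_deriv ?_
      field_simp
      norm_num [mul_comm]
    · have h : Tendsto (fun y : ℝ => -(m / b) * y ^ 2) atTop atBot :=
        (tendsto_pow_atTop two_ne_zero).const_mul_atTop_of_neg (neg_lt_zero.2 hc)
      have h' := ((Real.tendsto_exp_atBot.comp h).div_const (2 * (m / b))).neg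
      simpa using h'
  rw [h1]
  simp only [Gauss0_eq, ← mul_assoc]
  rw [integral_mul_const, h2]
  have hs : 0 < √b := Real.sqrt_pos.2 hb
  have hq : √b * √b = b := Real.mul_self_sqrt hb.le
  simp only [ne_eq, OfNat.ofNat_ne_zero, not_false_eq_true, zero_pow, mul_zero, Real.exp_zero]
  field_simp
  nlinarith

theorem integral_abs_sub_mul_gs_le (hm : 0 < m) (hb : 0 < b) (η : ℝ) :
    ∫ y, |η - y| * gs m b y ≤ √(π / m) * |η| + √b / m := by
  rw [← integral_abs_mul_gs hm hb, ← integral_gs hm hb, mul_comm, ← integral_const_mul,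
    ← integral_add ((integrable_gs hm hb).const_mul _) (Gauss0_integrable_abs hm hb)]
  refine integral_mono (integrable_abs_mul_gs hm hb η)
    (((integrable_gs hm hb).const_mul |η|).add (Gauss0_integrable_abs hm hb)) fun y => ?_
  simp only
  rw [← add_mul]
  exact mul_le_mul_of_nonneg_right (abs_sub _ _) (gs_nonneg _ _ _)

end Pool.Agent.Lib.MP_3d41d4_an
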