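import Pool.Agent.Lib.MP_3d41d4_an.Geo0

open MeasureTheory Set Filter Topology Real
open scoped ENNReal

namespace Pool.Agent.Lib.MP_3d41d4_an

variable {ρ L : ℝ} {φ : ℝ → ℝ} {Φ : ℂ → ℂ}

theorem zp_ne_zero (φ : ℝ → ℝ) (x : ℝ) : zp φ x ≠ 0 := by
  intro h
  have := congrArg Complex.re h
  simp [zp] at this

theorem Curve.norm_zp_le (h : Curve ρ L φ) (x : ℝ) : ‖zp φ x‖ ≤ 1 + L := by
  have h1 := h.abs_deriv_le x
  calc ‖zp φ x‖ ≤ ‖(1 : ℂ)‖ + ‖Complex.I * ((deriv φ x : ℝ) : ℂ)‖ := norm_add_le _ _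
    _ = 1 + |deriv φ x| := by simp
    _ ≤ 1 + L := by linarith

theorem geo_sarg_re (r σ : ℝ) (q : ℂ) : (sarg r σ q).re = -r + q.im := by
  simp [sarg]

theorem geo_sarg_im (r σ : ℝ) (q : ℂ) : (sarg r σ q).im = σ - q.re := by
  simp [sarg]

theorem Chord.re_sarg {q : ℝ → ℂ} {b : ℂ} (h : Chord L q b) (r σ : ℝ) :
    |r| / 2 ≤ |(sarg r σ (q r)).re| ∧ |(sarg r σ (q r)).re| ≤ 3 * |r| / 2 := by
  rw [geo_sarg_re]
  have h1 := h.im r
  have h2 : |r| ≤ |-r + (q r).im| + |(q r).im| := by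
    have := abs_sub (-r + (q r).im) ((q r).im)
    simpa using this
  have h3 : |-r + (q r).im| ≤ |r| + |(q r).im| := by
    have := abs_add_le (-r) ((q r).im)
    simpa using this
  constructor <;> linarith

theorem Chord.norm_sarg {q : ℝ → ℂ} {b : ℂ} (h : Chord L q b) (r σ : ℝ) :
    |r| + |σ| ≤ (3 + 2 * L) * ‖sarg r σ (q r)‖ := by
  have h1 := (h.re_sarg r σ).1
  have h2 := Complex.abs_re_le_norm (sarg r σ (q r))
  have h3 := Complex.abs_im_le_norm (sarg r σ (q r))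
  rw [geo_sarg_im] at h3
  have h4 : |σ| ≤ |σ - (q r).re| + |(q r).re| := by
    have := abs_add_le (σ - (q r).re) ((q r).re)
    simpa using this
  have h5 := Complex.abs_re_le_norm (q r)
  have h6 := h.n1 r
  have hL := h.one_le
  have h7 : L * |r| ≤ L * (2 * ‖sarg r σ (q r)‖) :=
    mul_le_mul_of_nonneg_left (by linarith) (by linarith)
  nlinarith

theorem Chord.geo_sarg_ne_zero {q : ℝ → ℂ} {b : ℂ} (h : Chord L q b) {r σ : ℝ}
    (h0 : r ≠ 0 ∨ σ ≠ 0) : sarg r σ (q r) ≠ 0 := by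
  intro hs
  have h1 := h.norm_sarg r σ
  rw [hs, norm_zero, mul_zero] at h1
  rcases h0 with h0 | h0
  · have := abs_pos.mpr h0
    have := abs_nonneg σ
    linarith
  · have := abs_pos.mpr h0
    have := abs_nonneg r
    linarith

theorem Chord.sin_ne_zero {q : ℝ → ℂ} {b : ℂ} (h : Chord L q b) {r σ : ℝ} (hr : |r| ≤ π)
    (h0 : r ≠ 0 ∨ σ ≠ 0) : Complex.sin (sarg r σ (q r) / 2) ≠ 0 := by
  refine sin_half_ne_zero (h.geo_sarg_ne_zero h0) ?_
  have h1 := (h.re_sarg r σ).2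
  have := Real.pi_pos
  linarith

/-- Pointwise size of the kernel. -/
theorem norm_kc_sarg_le (L : ℝ) : ∃ C : ℝ, 0 < C ∧ ∀ (q : ℝ → ℂ) (b : ℂ), Chord L q b →
    ∀ r σ : ℝ, |r| ≤ π → r ≠ 0 → σ ≠ 0 →
      ‖kc (sarg r σ (q r))‖ ≤ C * (1 + 1 / √|r| * (1 / √|σ|)) := by
  obtain ⟨C, hC, hk⟩ := norm_kc_le
  refine ⟨C * (3 + 2 * |L|), by positivity, ?_⟩
  intro q b h r σ hr hr0 hσ0
  have hL := h.one_le
  have hLa : |L| = L := abs_of_nonneg (by linarith)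
  rw [hLa]
  have hs := h.geo_sarg_ne_zero (σ := σ) (Or.inl hr0)
  have h1 := (h.re_sarg r σ).2
  have h2 := hk _ hs (by linarith)
  have h3 := h.norm_sarg r σ
  have hn : 0 < ‖sarg r σ (q r)‖ := norm_pos_iff.mpr hs
  have ha : 0 < √|r| := Real.sqrt_pos.mpr (abs_pos.mpr hr0)
  have hb : 0 < √|σ| := Real.sqrt_pos.mpr (abs_pos.mpr hσ0)
  have ha2 : √|r| ^ 2 = |r| := Real.sq_sqrt (abs_nonneg r)
  have hb2 : √|σ| ^ 2 = |σ| := Real.sq_sqrt (abs_nonneg σ)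
  have h4 : √|r| * √|σ| ≤ (3 + 2 * L) * ‖sarg r σ (q r)‖ := by
    nlinarith [sq_nonneg (√|r| - √|σ|), mul_pos ha hb]
  have h5 : 1 / ‖sarg r σ (q r)‖ ≤ (3 + 2 * L) * (1 / √|r| * (1 / √|σ|)) := by
    have : (3 + 2 * L) * (1 / √|r| * (1 / √|σ|)) = (3 + 2 * L) / (√|r| * √|σ|) := by
      field_simp
    rw [this, div_le_div_iff₀ hn (mul_pos ha hb)]
    linarith
  have h6 : 1 + 1 / ‖sarg r σ (q r)‖ ≤ (3 + 2 * L) * (1 + 1 / √|r| * (1 / √|σ|)) := by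
    nlinarith
  calc ‖kc (sarg r σ (q r))‖ ≤ C * (1 + 1 / ‖sarg r σ (q r)‖) := h2
    _ ≤ C * ((3 + 2 * L) * (1 + 1 / √|r| * (1 / √|σ|))) := mul_le_mul_of_nonneg_left h6 hC.le
    _ = _ := by ring

theorem CurveExt.geo_deriv_per (h : CurveExt ρ L φ Φ) (z : ℂ) :
    deriv Φ (z + 2 * (π : ℂ)) = deriv Φ z := by
  have h1 : (fun w => Φ (w + 2 * (π : ℂ))) = Φ := funext h.per
  rw [← deriv_comp_add_const Φ (2 * (π : ℂ)) z, h1]

/-- The slope, `z'` and `1 / z'` are in the class. -/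
theorem zp_W (ρ L : ℝ) : ∃ C : ℝ, 0 < C ∧ ∀ φ, Curve ρ L φ →
    WR ρ 4 C (deriv φ) ∧ W ρ 4 C (zp φ) ∧ W ρ 4 C fun x => (zp φ x)⁻¹ := by
  by_cases hρ : 0 < ρ
  swap
  · exact ⟨1, one_pos, fun φ h => absurd h.1 hρ⟩
  obtain ⟨C, hC, hn⟩ := W.nice hρ
  refine ⟨C * (1 + |L|), by positivity, ?_⟩
  rintro φ ⟨-, hL, hs, Φ, h⟩
  have hLa : |L| = L := abs_of_nonneg (by linarith)
  rw [hLa]
  have hd : DifferentiableOn ℂ (deriv Φ) (strip (2 * ρ)) := h.diff.deriv (isOpen_strip _)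
  have hreal : ∀ x : ℝ, ((deriv φ x : ℝ) : ℂ) = deriv Φ x := fun x => (h.deriv_real hρ x).2.1
  have hz : ∀ x : ℝ, zp φ x = 1 + Complex.I * deriv Φ x := fun x => by rw [zp, hreal]
  have hlow : ∀ z ∈ strip (2 * ρ), (1 : ℝ) / 2 ≤ ‖1 + Complex.I * deriv Φ z‖ := by
    intro z hz
    have h1 := (h.chord hρ hL hs hz).bim
    have h2 := Complex.re_le_norm (1 + Complex.I * deriv Φ z)
    have h3 : (1 + Complex.I * deriv Φ z).re = 1 - (deriv Φ z).im := by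
      simp [sub_eq_add_neg]
    have h4 := le_abs_self (deriv Φ z).im
    linarith
  have hne : ∀ z ∈ strip (2 * ρ), 1 + Complex.I * deriv Φ z ≠ 0 := by
    intro z hz h0
    have := hlow z hz
    rw [h0, norm_zero] at this
    linarith
  have hd2 : DifferentiableOn ℂ (fun z => 1 + Complex.I * deriv Φ z) (strip (2 * ρ)) :=
    (differentiableOn_const _).add ((differentiableOn_const _).mul hd)
  refine ⟨?_, ?_, ?_⟩
  · have := hn (deriv Φ) (1 + L) hd (fun z _ => h.geo_deriv_per z)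
      (fun z hz => (h.d1 z hz).trans (by linarith))
    have e : (fun x : ℝ => ((deriv φ x : ℝ) : ℂ)) = fun x : ℝ => deriv Φ x := funext hreal
    unfold WR
    rw [e]
    exact this
  · have := hn (fun z => 1 + Complex.I * deriv Φ z) (1 + L) hd2
      (fun z _ => by rw [h.geo_deriv_per z])
      (fun z hz => by
        have h1 := h.d1 z hz
        calc ‖1 + Complex.I * deriv Φ z‖ ≤ ‖(1 : ℂ)‖ + ‖Complex.I * deriv Φ z‖ := norm_add_le _ _
          _ = 1 + ‖deriv Φ z‖ := by simp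
          _ ≤ 1 + L := by linarith)
    have e : zp φ = fun x : ℝ => 1 + Complex.I * deriv Φ x := funext hz
    rw [e]
    exact this
  · have := hn (fun z => (1 + Complex.I * deriv Φ z)⁻¹) (1 + L) (hd2.inv hne)
      (fun z _ => by rw [h.geo_deriv_per z])
      (fun z hz => by
        have h1 := hlow z hz
        rw [norm_inv]
        have h2 : ‖1 + Complex.I * deriv Φ z‖⁻¹ ≤ ((1 : ℝ) / 2)⁻¹ :=
          inv_anti₀ (by norm_num) h1
        have h3 : ((1 : ℝ) / 2)⁻¹ = 2 := by norm_num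
        linarith)
    have e : (fun x : ℝ => (zp φ x)⁻¹) = fun x : ℝ => (1 + Complex.I * deriv Φ x)⁻¹ :=
      funext fun x => by rw [hz]
    rw [e]
    exact this

end Pool.Agent.Lib.MP_3d41d4_an
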