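import Pool.Agent.Lib.MP_3d41d4_an.WInv

open MeasureTheory Set Filter Topology Real
open scoped ENNReal

namespace Pool.Agent.Lib.MP_3d41d4_an

variable {w : ℤ → ℝ} {n : ℕ} {ρ M N : ℝ}

theorem WMul_term (hw : ∀ j k, w (j + k) ≤ w j + w k) (hn4 : n ≤ 4) (k j : ℤ) :
    wgt w n j * wgt w n (k - j) ≤
      8 * wgt w n k * (wgt (fun _ => 0) n j + wgt (fun _ => 0) n (k - j)) := by
  unfold wgt
  set A : ℝ := 1 + |(j : ℝ)| with hA
  set B : ℝ := 1 + |((k - j : ℤ) : ℝ)| with hB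
  set K : ℝ := 1 + |(k : ℝ)| with hK
  have hA0 : 0 < A := by positivity
  have hB0 : 0 < B := by positivity
  have hK0 : 0 < K := by positivity
  have hKAB : K ≤ A + B := by
    have h1 : |(k : ℝ)| ≤ |(j : ℝ)| + |((k - j : ℤ) : ℝ)| := by
      have h2 : (k : ℝ) = (j : ℝ) + ((k - j : ℤ) : ℝ) := by push_cast; ring
      conv_lhs => rw [h2]
      exact abs_add_le _ _
    linarith
  have h2 : K ^ n ≤ 8 * (A ^ n + B ^ n) := by
    calc K ^ n ≤ (A + B) ^ n := pow_le_pow_left₀ hK0.le hKAB n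
      _ ≤ 2 ^ (n - 1) * (A ^ n + B ^ n) := add_pow_le hA0.le hB0.le n
      _ ≤ 8 * (A ^ n + B ^ n) := by
          refine mul_le_mul_of_nonneg_right ?_ (by positivity)
          calc (2 : ℝ) ^ (n - 1) ≤ 2 ^ 3 := pow_le_pow_right₀ (by norm_num) (by omega)
            _ = 8 := by norm_num
  have h3 : Real.exp (-w j) * Real.exp (-w (k - j)) ≤ Real.exp (-w k) := by
    rw [← Real.exp_add]
    refine Real.exp_le_exp.mpr ?_
    have h4 := hw j (k - j)
    rw [add_sub_cancel] at h4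
    linarith
  have hAn : 0 < A ^ n := by positivity
  have hBn : 0 < B ^ n := by positivity
  have hKn : 0 < K ^ n := by positivity
  have e1 : Real.exp (-w j) / A ^ n * (Real.exp (-w (k - j)) / B ^ n) =
      Real.exp (-w j) * Real.exp (-w (k - j)) * (1 / (A ^ n * B ^ n)) := by
    field_simp
  have e2 : 8 * (Real.exp (-w k) / K ^ n) * (Real.exp (-0) / A ^ n + Real.exp (-0) / B ^ n) =
      Real.exp (-w k) * (8 * (A ^ n + B ^ n) / K ^ n * (1 / (A ^ n * B ^ n))) := by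
    rw [neg_zero, Real.exp_zero]
    field_simp
    ring
  rw [e1, e2]
  refine mul_le_mul h3 ?_ (by positivity) (Real.exp_pos _).le
  refine le_mul_of_one_le_left (by positivity) ?_
  rw [le_div_iff₀ hKn, one_mul]
  exact h2

/-- The convolution inequality for the weights. -/
theorem conv_wgt (hw0 : ∀ k, 0 ≤ w k) (hw : ∀ j k, w (j + k) ≤ w j + w k) (hn2 : 2 ≤ n)
    (hn4 : n ≤ 4) (k : ℤ) :
    Summable (fun j => wgt w n j * wgt w n (k - j)) ∧
      ∑' j, wgt w n j * wgt w n (k - j) ≤ 64 * wgt w n k := by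
  have _h := hw0
  have s1 : Summable (wgt (fun _ => 0) n) := summable_wgt_of_two (fun _ => le_rfl) hn2
  have t1 : ∑' j, wgt (fun _ => 0) n j ≤ 4 := tsum_wgt_le_of_two (fun _ => le_rfl) hn2
  have s2 : Summable fun j => wgt (fun _ => 0) n (k - j) :=
    ((Equiv.subLeft k).summable_iff (f := wgt (fun _ => 0) n)).mpr s1
  have t2 : ∑' j, wgt (fun _ => 0) n (k - j) = ∑' j, wgt (fun _ => 0) n j :=
    (Equiv.subLeft k).tsum_eq (wgt (fun _ => 0) n)
  have s3 : Summable fun j =>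
      8 * wgt w n k * (wgt (fun _ => 0) n j + wgt (fun _ => 0) n (k - j)) :=
    (s1.add s2).mul_left _
  have s4 : Summable fun j => wgt w n j * wgt w n (k - j) :=
    Summable.of_nonneg_of_le (fun j => mul_nonneg (wgt_pos _ _ _).le (wgt_pos _ _ _).le)
      (WMul_term hw hn4 k) s3
  refine ⟨s4, (s4.tsum_le_tsum (WMul_term hw hn4 k) s3).trans ?_⟩
  rw [tsum_mul_left, s1.tsum_add s2, t2]
  have h0 := wgt_pos w n k
  generalize ∑' j, wgt (fun _ => 0) n j = S at t1 ⊢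
  generalize wgt w n k = a at h0 ⊢
  nlinarith

/-- Pseudo-differential operators with symbols `b j` uniformly in the class. -/
theorem Wg.pdo (hw0 : ∀ k, 0 ≤ w k) (hw : ∀ j k, w (j + k) ≤ w j + w k) (hn2 : 2 ≤ n)
    (hn4 : n ≤ 4) {c : ℤ → ℂ} (hc : ∀ j, ‖c j‖ ≤ M * wgt w n j) {b : ℤ → ℝ → ℂ}
    (hb : ∀ j, Wg w n N (b j)) :
    Wg w n (64 * M * N) fun x =>
      ∑' j : ℤ, c j * b j x * Complex.exp ((j : ℂ) * (x : ℂ) * Complex.I) := by
  have hN : 0 ≤ N := (hb 0).nonneg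
  have hM : 0 ≤ M :=
    (mul_nonneg_iff_of_pos_right (wgt_pos w n 0)).mp ((norm_nonneg _).trans (hc 0))
  have hcont : ∀ j : ℤ, Continuous fun x : ℝ =>
      c j * b j x * Complex.exp ((j : ℂ) * (x : ℂ) * Complex.I) := fun j => by
    have := (hb j).1
    fun_prop
  have hbd : ∀ (j : ℤ) (x : ℝ), ‖c j * b j x * Complex.exp ((j : ℂ) * (x : ℂ) * Complex.I)‖ ≤
      M * wgt w n j * (4 * N) := fun j x => by
    have e : (j : ℂ) * (x : ℂ) * Complex.I = (((j : ℝ) * x : ℝ) : ℂ) * Complex.I := by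
      push_cast; ring
    rw [norm_mul, norm_mul, e, Complex.norm_exp_ofReal_mul_I, mul_one]
    exact mul_le_mul (hc j) ((hb j).norm_le_four hw0 hn2 x) (norm_nonneg _)
      (mul_nonneg hM (wgt_pos _ _ _).le)
  have hs : Summable fun j => M * wgt w n j * (4 * N) :=
    ((summable_wgt_of_two hw0 hn2).mul_left M).mul_right _
  refine ⟨continuous_tsum hcont hs hbd, fun x => ?_, fun k => ?_⟩
  · refine tsum_congr fun j => ?_
    have e : (j : ℂ) * ((x + 2 * π : ℝ) : ℂ) * Complex.I =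
        (j : ℂ) * (x : ℂ) * Complex.I + j * (2 * π * Complex.I) := by
      push_cast; ring
    rw [(hb j).2.1 x, e, Complex.exp_add, Complex.exp_int_mul_two_pi_mul_I, mul_one]
  · have h1 := fc_tsum hcont hbd hs k
    have e : ∀ j : ℤ, fc (fun x : ℝ => c j * b j x * Complex.exp ((j : ℂ) * (x : ℂ) * Complex.I)) k
        = c j * fc (b j) (k - j) := fun j => by
      rw [fc_mul_exp (fun x => c j * b j x) j k, fc_const_mul]
    simp only [e] at h1
    obtain ⟨s1, t1⟩ := conv_wgt hw0 hw hn2 hn4 k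
    have h2 : ∀ j, ‖c j * fc (b j) (k - j)‖ ≤ M * N * (wgt w n j * wgt w n (k - j)) := fun j => by
      rw [norm_mul]
      calc ‖c j‖ * ‖fc (b j) (k - j)‖ ≤ (M * wgt w n j) * (N * wgt w n (k - j)) :=
            mul_le_mul (hc j) ((hb j).2.2 _) (norm_nonneg _) (mul_nonneg hM (wgt_pos _ _ _).le)
        _ = _ := by ring
    refine (h1.norm_le_of_bounded (s1.mul_left (M * N)).hasSum h2).trans ?_
    rw [tsum_mul_left]
    calc M * N * ∑' j, wgt w n j * wgt w n (k - j) ≤ M * N * (64 * wgt w n k) :=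
          mul_le_mul_of_nonneg_left t1 (mul_nonneg hM hN)
      _ = 64 * M * N * wgt w n k := by ring

theorem Wg.mul (hw0 : ∀ k, 0 ≤ w k) (hw : ∀ j k, w (j + k) ≤ w j + w k) (hn2 : 2 ≤ n)
    (hn4 : n ≤ 4) {f g : ℝ → ℂ} (hf : Wg w n M f) (hg : Wg w n N g) :
    Wg w n (64 * M * N) fun x => f x * g x := by
  have h := Wg.pdo hw0 hw hn2 hn4 hf.2.2 (b := fun _ => g) (fun _ => hg)
  have e : (fun x => f x * g x) = fun x : ℝ =>
      ∑' j : ℤ, fc f j * g x * Complex.exp ((j : ℂ) * (x : ℂ) * Complex.I) := by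
    funext x
    rw [← ((hf.hasSum (summable_wgt_of_two hw0 hn2) x).mul_right (g x)).tsum_eq]
    exact tsum_congr fun j => by ring
  rw [e]
  exact h

theorem WMul_sub (hρ : 0 ≤ ρ) (j k : ℤ) :
    ρ * |((j + k : ℤ) : ℝ)| ≤ ρ * |(j : ℝ)| + ρ * |(k : ℝ)| := by
  rw [← mul_add, Int.cast_add]
  exact mul_le_mul_of_nonneg_left (abs_add_le _ _) hρ

theorem W.pdo (hρ : 0 ≤ ρ) (hn2 : 2 ≤ n) (hn4 : n ≤ 4) {f : ℝ → ℂ} (hf : W ρ n M f)
    {b : ℤ → ℝ → ℂ} (hb : ∀ j, W ρ n N (b j)) :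
    W ρ n (64 * M * N) fun x =>
      ∑' j : ℤ, fc f j * b j x * Complex.exp ((j : ℂ) * (x : ℂ) * Complex.I) :=
  Wg.pdo (fun _ => mul_nonneg hρ (abs_nonneg _)) (WMul_sub hρ) hn2 hn4 hf.2.2 hb

theorem W.mul (hρ : 0 ≤ ρ) (hn2 : 2 ≤ n) (hn4 : n ≤ 4) {f g : ℝ → ℂ} (hf : W ρ n M f)
    (hg : W ρ n N g) : W ρ n (64 * M * N) fun x => f x * g x :=
  Wg.mul (fun _ => mul_nonneg hρ (abs_nonneg _)) (WMul_sub hρ) hn2 hn4 hf hg

theorem WR.mul (hρ : 0 ≤ ρ) (hn2 : 2 ≤ n) (hn4 : n ≤ 4) {f g : ℝ → ℝ} (hf : WR ρ n M f)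
    (hg : WR ρ n N g) : WR ρ n (64 * M * N) fun x => f x * g x := by
  have h := W.mul hρ hn2 hn4 hf hg
  unfold WR
  simp only [Complex.ofReal_mul]
  exact h

end Pool.Agent.Lib.MP_3d41d4_an
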