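import Pool.Agent.Lib.MP_3d41d4_an.WBasic

open MeasureTheory Set Filter Topology Real
open scoped ENNReal

namespace Pool.Agent.Lib.MP_3d41d4_an

theorem wnice_shift {a b τ : ℝ} (ha : a < 0) (hb : 0 < b) (hτ : τ ∈ Ioo a b)
    {F : ℂ → ℂ} (hd : DifferentiableOn ℂ F {z | a < z.im ∧ z.im < b})
    (hp : ∀ z : ℂ, a < z.im → z.im < b → F (z + 2 * (π : ℂ)) = F z) (c : ℝ) :
    ∫ x in c..(c + 2 * π), F x = ∫ x in c..(c + 2 * π), F ((x : ℂ) + (τ : ℂ) * Complex.I) := by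
  have hy : ∀ y ∈ uIcc (0 : ℝ) τ, a < y ∧ y < b := fun y hy =>
    (ordConnected_Ioo.uIcc_subset (show (0 : ℝ) ∈ Ioo a b from ⟨ha, hb⟩) hτ hy : y ∈ Ioo a b)
  have h := Complex.integral_boundary_rect_eq_zero_of_differentiableOn F ⟨c, 0⟩ ⟨c + 2 * π, τ⟩
    (hd.mono fun z hz => hy _ hz.2)
  have h2 : ∫ y in (0 : ℝ)..τ, F (((c + 2 * π : ℝ) : ℂ) + y * Complex.I) =
      ∫ y in (0 : ℝ)..τ, F ((c : ℂ) + y * Complex.I) := by
    refine intervalIntegral.integral_congr fun y hy' => ?_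
    have h3 := hp ((c : ℂ) + y * Complex.I) (by simpa using (hy y hy').1)
      (by simpa using (hy y hy').2)
    show F _ = F _
    rw [← h3]
    congr 1
    push_cast
    ring
  simp only [Complex.ofReal_zero, zero_mul, add_zero] at h
  rw [h2, add_sub_cancel_right, sub_eq_zero] at h
  exact h

/-- Shifting the contour in the Fourier coefficient. -/
theorem norm_fc_le_shift {a b τ A : ℝ} (ha : a < 0) (hb : 0 < b) (hτ : τ ∈ Ioo a b) {F : ℂ → ℂ}
    (hd : DifferentiableOn ℂ F {z | a < z.im ∧ z.im < b})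
    (hp : ∀ z : ℂ, a < z.im → z.im < b → F (z + 2 * (π : ℂ)) = F z)
    (hA : ∀ x : ℝ, ‖F ((x : ℂ) + (τ : ℂ) * Complex.I)‖ ≤ A) (k : ℤ) :
    ‖fc (fun x => F x) k‖ ≤ A * Real.exp ((k : ℝ) * τ) := by
  have h := wnice_shift ha hb hτ (F := fun z => F z * Complex.exp (-((k : ℂ) * z * Complex.I)))
    (hd.mul (by fun_prop)) (fun z h1 h2 => by
      rw [hp z h1 h2, show -((k : ℂ) * (z + 2 * (π : ℂ)) * Complex.I) =
        -((k : ℂ) * z * Complex.I) + ((-k : ℤ) : ℂ) * (2 * π * Complex.I) by push_cast; ring,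
        Complex.exp_add, Complex.exp_int_mul_two_pi_mul_I, mul_one]) 0
  rw [zero_add] at h
  have h2 := intervalIntegral.norm_integral_le_of_norm_le_const (a := 0) (b := 2 * π)
    (C := A * Real.exp ((k : ℝ) * τ))
    (f := fun x : ℝ => F ((x : ℂ) + (τ : ℂ) * Complex.I) *
      Complex.exp (-((k : ℂ) * ((x : ℂ) + (τ : ℂ) * Complex.I) * Complex.I))) (fun x _ => by
      rw [norm_mul, Complex.norm_exp]
      have h3 : (-((k : ℂ) * ((x : ℂ) + (τ : ℂ) * Complex.I) * Complex.I)).re = (k : ℝ) * τ := by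
        simp
      rw [h3]
      exact mul_le_mul_of_nonneg_right (hA x) (Real.exp_pos _).le)
  have h4 : ‖(1 / (2 * (π : ℂ)))‖ = 1 / (2 * π) := by
    simp [abs_of_pos Real.pi_pos]
  rw [fc, h, norm_mul, h4]
  rw [sub_zero, abs_of_pos Real.two_pi_pos] at h2
  rw [one_div, inv_mul_le_iff₀ Real.two_pi_pos]
  exact h2.trans_eq (mul_comm _ _)

/-- Shifting the contour in an integral over one period. -/
theorem integral_shift_contour {a b τ : ℝ} (ha : a < 0) (hb : 0 < b) (hτ : τ ∈ Ioo a b)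
    {F : ℂ → ℂ} (hd : DifferentiableOn ℂ F {z | a < z.im ∧ z.im < b})
    (hp : ∀ z : ℂ, a < z.im → z.im < b → F (z + 2 * (π : ℂ)) = F z) (c : ℝ) :
    ∫ x in c..(c + 2 * π), F x = ∫ x in c..(c + 2 * π), F ((x : ℂ) + (τ : ℂ) * Complex.I) :=
  wnice_shift ha hb hτ hd hp c

/-- Bounded periodic holomorphic functions on the double strip are in the class. -/
theorem W.nice {ρ : ℝ} (hρ : 0 < ρ) :
    ∃ C : ℝ, 0 < C ∧ ∀ (F : ℂ → ℂ) (A : ℝ), DifferentiableOn ℂ F (strip (2 * ρ)) →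
      (∀ z ∈ strip (2 * ρ), F (z + 2 * (π : ℂ)) = F z) → (∀ z ∈ strip (2 * ρ), ‖F z‖ ≤ A) →
      W ρ 4 (C * A) fun x => F x := by
  obtain ⟨C, hC, h⟩ := W.level (ρ := 3 / 2 * ρ) (ρ' := ρ) (by linarith) 4
  refine ⟨C, hC, fun F A hd hp hA => h A _ ⟨?_, ?_, fun k => ?_⟩⟩
  · refine hd.continuousOn.comp_continuous Complex.continuous_ofReal fun x => ?_
    simpa [strip] using hρ
  · intro x
    have h1 := hp x (by simpa [strip] using hρ)
    show F _ = F _
    rw [← h1]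
    congr 1
    push_cast
    ring
  · have key : ∀ τ : ℝ, |τ| < 2 * ρ → ‖fc (fun x => F x) k‖ ≤ A * Real.exp ((k : ℝ) * τ) :=
      fun τ hτ => norm_fc_le_shift (a := -(2 * ρ)) (b := 2 * ρ) (by linarith) (by linarith)
        (abs_lt.1 hτ) (hd.mono fun z hz => abs_lt.2 hz) (fun z h1 h2 => hp z (abs_lt.2 ⟨h1, h2⟩))
        (fun x => hA _ (by simpa [strip] using hτ)) k
    simp only [wgt, pow_zero, div_one]
    rcases le_total 0 (k : ℝ) with hk | hk
    · have h1 := key (-(3 / 2 * ρ)) (by rw [abs_neg, abs_of_pos (by linarith)]; linarith)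
      rwa [show (k : ℝ) * -(3 / 2 * ρ) = -(3 / 2 * ρ * |(k : ℝ)|) by
        rw [abs_of_nonneg hk]; ring] at h1
    · have h1 := key (3 / 2 * ρ) (by rw [abs_of_pos (by linarith)]; linarith)
      rwa [show (k : ℝ) * (3 / 2 * ρ) = -(3 / 2 * ρ * |(k : ℝ)|) by
        rw [abs_of_nonpos hk]; ring] at h1

end Pool.Agent.Lib.MP_3d41d4_an
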