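import Pool.Agent.Lib.MP_3d41d4_an.Kc
import Pool.Agent.Lib.MP_3d41d4_an.WNice
import Pool.Agent.Lib.MP_3d41d4_an.WMul

open MeasureTheory Set Filter Topology Real
open scoped ENNReal

namespace Pool.Agent.Lib.MP_3d41d4_an

variable {ρ L : ℝ} {φ : ℝ → ℝ} {Φ : ℂ → ℂ}

theorem add_real_mem_strip {z : ℂ} (hz : z ∈ strip ρ) (r : ℝ) : z + (r : ℂ) ∈ strip ρ := by
  simpa [strip] using hz

theorem real_mem_strip (hρ : 0 < ρ) (x : ℝ) : (x : ℂ) ∈ strip ρ := by
  simpa [strip] using hρ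

theorem isOpen_strip (ρ : ℝ) : IsOpen (strip ρ) :=
  isOpen_lt (by fun_prop) continuous_const

theorem Geo0_convex (ρ : ℝ) : Convex ℝ (strip ρ) := by
  have : strip ρ = {z : ℂ | z.im < ρ} ∩ {z : ℂ | -ρ < z.im} := by
    ext z; simp only [strip, mem_ofPred_eq, mem_inter_iff, abs_lt]; tauto
  rw [this]
  exact (convex_halfSpace_im_lt ρ).inter (convex_halfSpace_im_gt (-ρ))

theorem Geo0_diffAt {Ψ : ℂ → ℂ} {s : ℝ} (h : DifferentiableOn ℂ Ψ (strip s)) {z : ℂ}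
    (hz : z ∈ strip s) : DifferentiableAt ℂ Ψ z :=
  h.differentiableAt ((isOpen_strip s).mem_nhds hz)

theorem Geo0_mv {Ψ : ℂ → ℂ} {s C : ℝ} (h : DifferentiableOn ℂ Ψ (strip s))
    (hb : ∀ z ∈ strip s, ‖deriv Ψ z‖ ≤ C) {z w : ℂ} (hz : z ∈ strip s) (hw : w ∈ strip s) :
    ‖Ψ w - Ψ z‖ ≤ C * ‖w - z‖ :=
  (Geo0_convex s).norm_image_sub_le_of_norm_deriv_le (fun _ hx => Geo0_diffAt h hx) hb hz hw

theorem Geo0_real {Ψ : ℂ → ℂ} {f : ℝ → ℝ} {s : ℝ} (hs : 0 < s)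
    (h : DifferentiableOn ℂ Ψ (strip s)) (hr : ∀ x : ℝ, Ψ x = f x) (x : ℝ) :
    HasDerivAt f (deriv f x) x ∧ ((deriv f x : ℝ) : ℂ) = deriv Ψ x := by
  have h1 : HasDerivAt Ψ (deriv Ψ x) x := (Geo0_diffAt h (real_mem_strip hs x)).hasDerivAt
  have h2 : HasDerivAt (fun y : ℝ => Ψ y) (deriv Ψ x) x := h1.comp_ofReal
  have h3 : HasDerivAt f (deriv Ψ x).re x := by
    have := h1.real_of_complex
    simpa [hr] using this
  have h4 : HasDerivAt (fun y : ℝ => ((f y : ℝ) : ℂ)) (((deriv Ψ x).re : ℝ) : ℂ) x :=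
    h3.ofReal_comp
  have h5 : (fun y : ℝ => Ψ y) = fun y : ℝ => ((f y : ℝ) : ℂ) := funext hr
  rw [h5] at h2
  have h6 := h4.unique h2
  refine ⟨h3.differentiableAt.hasDerivAt, ?_⟩
  rw [h3.deriv, h6]

theorem Geo0_diff1 (h : CurveExt ρ L φ Φ) : DifferentiableOn ℂ (deriv Φ) (strip (2 * ρ)) :=
  h.diff.deriv (isOpen_strip _)

theorem Geo0_diff2 (h : CurveExt ρ L φ Φ) :
    DifferentiableOn ℂ (deriv (deriv Φ)) (strip (2 * ρ)) :=
  (Geo0_diff1 h).deriv (isOpen_strip _)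

theorem CurveExt.deriv_real (hρ : 0 < ρ) (h : CurveExt ρ L φ Φ) (x : ℝ) :
    HasDerivAt φ (deriv φ x) x ∧ ((deriv φ x : ℝ) : ℂ) = deriv Φ x ∧
      HasDerivAt (deriv φ) (deriv (deriv φ) x) x ∧
      ((deriv (deriv φ) x : ℝ) : ℂ) = deriv (deriv Φ) x := by
  have h2 : 0 < 2 * ρ := by positivity
  have a := fun y => Geo0_real h2 h.diff h.real y
  have b := Geo0_real h2 (Geo0_diff1 h) (fun y => (a y).2.symm) x
  exact ⟨(a x).1, (a x).2, b.1, b.2⟩

theorem Geo0_im (hρ : 0 < ρ) (hL : 1 ≤ L) (hs : 4 * ρ * L ≤ 1) (h : CurveExt ρ L φ Φ)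
    {z : ℂ} (hz : z ∈ strip (2 * ρ)) : |(deriv Φ z).im| ≤ 1 / 2 := by
  have h2 : 0 < 2 * ρ := by positivity
  have h1 := Geo0_mv (Geo0_diff1 h) h.d2 (real_mem_strip h2 z.re) hz
  have h3 : ‖z - (z.re : ℂ)‖ = |z.im| := by
    have : z - (z.re : ℂ) = (z.im : ℂ) * Complex.I := by
      apply Complex.ext <;> simp
    rw [this]; simp
  have h4 : (deriv Φ z).im = (deriv Φ z - deriv Φ (z.re : ℂ)).im := by
    rw [← (h.deriv_real hρ z.re).2.1]; simp
  have h5 : |z.im| < 2 * ρ := hz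
  rw [h4]
  refine (Complex.abs_im_le_norm _).trans (h1.trans ?_)
  rw [h3]
  nlinarith [abs_nonneg z.im]

theorem CurveExt.chord (hρ : 0 < ρ) (hL : 1 ≤ L) (hs : 4 * ρ * L ≤ 1) (h : CurveExt ρ L φ Φ)
    {z : ℂ} (hz : z ∈ strip (2 * ρ)) :
    Chord L (fun r => Φ (z + (r : ℂ)) - Φ z) (deriv Φ z) := by
  have hd : ∀ t : ℝ, HasDerivAt (fun r : ℝ => Φ (z + (r : ℂ)) - Φ z) (deriv Φ (z + t)) t := by
    intro t
    have h1 : HasDerivAt Φ (deriv Φ (z + t)) (z + t) :=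
      (Geo0_diffAt h.diff (add_real_mem_strip hz t)).hasDerivAt
    have h2 : HasDerivAt (fun w : ℂ => Φ (z + w)) (deriv Φ (z + t)) (t : ℂ) :=
      h1.comp_const_add z (t : ℂ)
    exact h2.comp_ofReal.sub_const _
  refine ⟨hL, ?_, ?_, ?_, ?_, Geo0_im hρ hL hs h hz, h.d1 z hz⟩
  · exact continuous_iff_continuousAt.2 fun t => (hd t).continuousAt
  · intro r
    have := Geo0_mv h.diff h.d1 hz (add_real_mem_strip hz r)
    simpa using this
  · intro r
    have hi : ∀ t : ℝ, HasDerivAt (fun r : ℝ => (Φ (z + (r : ℂ)) - Φ z).im)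
        (deriv Φ (z + t)).im t := fun t =>
      (Complex.imCLM.hasFDerivAt.comp_hasDerivAt t (hd t))
    have := (convex_univ (𝕜 := ℝ) (E := ℝ)).norm_image_sub_le_of_norm_hasDerivWithin_le
      (f := fun r : ℝ => (Φ (z + (r : ℂ)) - Φ z).im) (f' := fun t : ℝ => (deriv Φ (z + t)).im)
      (C := 1 / 2) (fun t _ => (hi t).hasDerivWithinAt)
      (fun t _ => Geo0_im hρ hL hs h (add_real_mem_strip hz t)) (mem_univ 0) (mem_univ r)
    simp only [Complex.ofReal_zero, add_zero, sub_self, Complex.zero_im, sub_zero,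
      Real.norm_eq_abs] at this
    linarith
  · intro r
    have hg : ∀ t : ℝ, HasDerivAt (fun r : ℝ => Φ (z + (r : ℂ)) - Φ z - r * deriv Φ z)
        (deriv Φ (z + t) - deriv Φ z) t := by
      intro t
      have h1 : HasDerivAt (fun r : ℝ => (r : ℂ) * deriv Φ z) (deriv Φ z) t := by
        simpa using (hasDerivAt_id t).ofReal_comp.mul_const (deriv Φ z)
      exact (hd t).sub h1
    have hb : ∀ t ∈ uIcc (0 : ℝ) r, ‖deriv Φ (z + t) - deriv Φ z‖ ≤ L * |r| := by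
      intro t ht
      have h1 := Geo0_mv (Geo0_diff1 h) h.d2 hz (add_real_mem_strip hz t)
      have h2 : |t| ≤ |r| := by simpa using abs_sub_left_of_mem_uIcc ht
      simp only [add_sub_cancel_left, Complex.norm_real, Real.norm_eq_abs] at h1
      exact h1.trans (mul_le_mul_of_nonneg_left h2 (by linarith))
    have := (convex_uIcc (0 : ℝ) r).norm_image_sub_le_of_norm_hasDerivWithin_le
      (f := fun r : ℝ => Φ (z + (r : ℂ)) - Φ z - r * deriv Φ z)
      (f' := fun t : ℝ => deriv Φ (z + t) - deriv Φ z)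
      (fun t _ => (hg t).hasDerivWithinAt) hb left_mem_uIcc right_mem_uIcc
    simp only [Complex.ofReal_zero, add_zero, sub_self, zero_mul, sub_zero,
      Real.norm_eq_abs] at this
    calc _ ≤ L * |r| * |r| := this
      _ = L * r ^ 2 := by rw [mul_assoc, abs_mul_abs_self, sq]

theorem Curve.pos (h : Curve ρ L φ) : 0 < ρ := h.1

theorem Curve.one_le (h : Curve ρ L φ) : 1 ≤ L := h.2.1

theorem Curve.per (h : Curve ρ L φ) : Function.Periodic φ (2 * π) := by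
  obtain ⟨-, -, -, Φ, hΦ⟩ := h
  intro x
  have h1 := hΦ.per x
  have h2 := hΦ.real (x + 2 * π)
  rw [hΦ.real] at h1
  push_cast at h2
  rw [h1] at h2
  exact_mod_cast h2.symm

theorem Curve.differentiable (h : Curve ρ L φ) : Differentiable ℝ φ := by
  obtain ⟨hρ, -, -, Φ, hΦ⟩ := h
  exact fun x => (hΦ.deriv_real hρ x).1.differentiableAt

theorem Curve.differentiable_deriv (h : Curve ρ L φ) : Differentiable ℝ (deriv φ) := by
  obtain ⟨hρ, -, -, Φ, hΦ⟩ := h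
  exact fun x => (hΦ.deriv_real hρ x).2.2.1.differentiableAt

theorem Curve.continuous (h : Curve ρ L φ) : Continuous φ := h.differentiable.continuous

theorem Curve.continuous_deriv (h : Curve ρ L φ) : Continuous (deriv φ) :=
  h.differentiable_deriv.continuous

theorem Curve.continuous_deriv2 (h : Curve ρ L φ) : Continuous (deriv (deriv φ)) := by
  obtain ⟨hρ, -, -, Φ, hΦ⟩ := h
  have h2 : 0 < 2 * ρ := by positivity
  have a := fun y => Geo0_real h2 (Geo0_diff2 hΦ) (fun y => (hΦ.deriv_real hρ y).2.2.2.symm) y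
  exact continuous_iff_continuousAt.2 fun x => (a x).1.continuousAt

theorem Curve.abs_deriv_le (h : Curve ρ L φ) (x : ℝ) : |deriv φ x| ≤ L := by
  obtain ⟨hρ, -, -, Φ, hΦ⟩ := h
  have := hΦ.d1 x (real_mem_strip (by positivity) x)
  rw [← (hΦ.deriv_real hρ x).2.1] at this
  simpa using this

theorem Curve.abs_deriv2_le (h : Curve ρ L φ) (x : ℝ) : |deriv (deriv φ) x| ≤ L := by
  obtain ⟨hρ, -, -, Φ, hΦ⟩ := h
  have := hΦ.d2 x (real_mem_strip (by positivity) x)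
  rw [← (hΦ.deriv_real hρ x).2.2.2] at this
  simpa using this

theorem Curve.chord (h : Curve ρ L φ) (x : ℝ) :
    Chord L (fun r => ((ch φ x r : ℝ) : ℂ)) ((deriv φ x : ℝ) : ℂ) := by
  obtain ⟨hρ, hL, hs, Φ, hΦ⟩ := h
  have h1 := hΦ.chord hρ hL hs (real_mem_strip (by positivity) x)
  rw [(hΦ.deriv_real hρ x).2.1]
  convert h1 using 2 with r
  rw [ch, hΦ.real, ← Complex.ofReal_add, hΦ.real]
  push_cast
  rfl

end Pool.Agent.Lib.MP_3d41d4_an
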