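import Pool.Agent.Lib.MP_3d41d4_an.WInt
import Pool.Agent.Lib.MP_3d41d4_an.Gauss

open MeasureTheory Set Filter Topology Real
open scoped ENNReal

namespace Pool.Agent.Lib.MP_3d41d4_an

variable {n : ℕ} {ρ M a : ℝ} {f g : ℝ → ℝ}

theorem Heat_meas (a : ℝ) (hf : WR ρ n M f) :
    Measurable fun p : ℝ × ℝ => H a p.1 * f (p.2 + p.1) :=
  (measurable_H measurable_const measurable_fst).mul
    (hf.cont.measurable.comp (measurable_snd.add measurable_fst))

theorem Heat_WR (a : ℝ) (hf : WR ρ n M f) (r : ℝ) :
    WR ρ n (H a r * M) fun x => H a r * f (x + r) := by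
  have := (hf.shift r).const_mul (H a r)
  rwa [abs_of_nonneg (H_nonneg a r)] at this

theorem heat_integrable (hρ : 0 < ρ) (ha : 0 < a) (hf : WR ρ n M f) (x : ℝ) :
    Integrable fun r => H a r * f (x + r) :=
  WR.integrable (μ := volume) (f := fun r x => H a r * f (x + r)) hρ (Heat_meas a hf)
    ((integrable_H ha).mul_const M) (ae_of_all _ (Heat_WR a hf)) x

theorem heat_WR (hρ : 0 < ρ) (ha : 0 < a) (hf : WR ρ n M f) : WR ρ n M (heat a f) := by
  have := WR.integral (μ := volume) (f := fun r x => H a r * f (x + r)) hρ (Heat_meas a hf)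
    ((integrable_H ha).mul_const M) (ae_of_all _ (Heat_WR a hf))
  rw [integral_mul_const, integral_H ha, one_mul] at this
  exact this

theorem heat_sub_WR (hρ : 0 < ρ) (ha : 0 < a) (hf : WR ρ (n + 1) M f) :
    WR ρ n (2 * M * √a) fun x => heat a f x - f x := by
  have hm : Measurable fun p : ℝ × ℝ => H a p.1 * (f (p.2 + p.1) - f p.2) :=
    (measurable_H measurable_const measurable_fst).mul
      ((hf.cont.measurable.comp (measurable_snd.add measurable_fst)).sub
        (hf.cont.measurable.comp measurable_snd))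
  have h1 : ∀ r, WR ρ n (M * (|r| * H a r)) fun x => H a r * (f (x + r) - f x) := fun r => by
    have := (hf.shift_sub r).const_mul (H a r)
    rw [abs_of_nonneg (H_nonneg a r)] at this
    exact this.mono le_rfl le_rfl (le_of_eq (by ring))
  have h2 := WR.integral (μ := volume) (f := fun r x => H a r * (f (x + r) - f x)) hρ hm
    ((integrable_abs_mul_H ha).const_mul M) (ae_of_all _ h1)
  rw [integral_const_mul] at h2
  have e : (fun x => heat a f x - f x) = fun x => ∫ r, H a r * (f (x + r) - f x) := by
    funext x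
    simp only [mul_sub]
    rw [integral_sub (heat_integrable hρ ha hf x) ((integrable_H ha).mul_const _),
      integral_mul_const, integral_H ha, one_mul, heat]
  rw [e]
  refine h2.mono le_rfl le_rfl ?_
  have := mul_le_mul_of_nonneg_left (integral_abs_mul_H_le ha) hf.nonneg
  linarith

theorem heat_sub {n' : ℕ} {N : ℝ} (hρ : 0 < ρ) (ha : 0 < a) (hf : WR ρ n M f) (hg : WR ρ n' N g)
    (x : ℝ) : heat a (fun y => f y - g y) x = heat a f x - heat a g x := by
  simp only [heat, mul_sub]
  exact integral_sub (heat_integrable hρ ha hf x) (heat_integrable hρ ha hg x)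

theorem measurable_heat {Λ : Type} [MeasurableSpace Λ] {a x : Λ → ℝ} {F : Λ → ℝ → ℝ}
    (ha : Measurable a) (hx : Measurable x) (hF : Measurable fun p : Λ × ℝ => F p.1 p.2) :
    Measurable fun l => heat (a l) (F l) (x l) := by
  have hm : Measurable fun p : Λ × ℝ => H (a p.1) p.2 * F p.1 (x p.1 + p.2) :=
    (measurable_H (ha.comp measurable_fst) measurable_snd).mul
      (hF.comp (measurable_fst.prodMk ((hx.comp measurable_fst).add measurable_snd)))
  exact (hm.stronglyMeasurable.integral_prod_right' (ν := volume)).measurable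

end Pool.Agent.Lib.MP_3d41d4_an
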