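import Pool.Agent.Lib.MP_3d41d4_an.WInv

open MeasureTheory Set Filter Topology Real
open scoped ENNReal

namespace Pool.Agent.Lib.MP_3d41d4_an

theorem WExt_isOpen (σ : ℝ) : IsOpen (strip σ) :=
  isOpen_lt (continuous_abs.comp Complex.continuous_im) continuous_const

theorem WExt_mono {σ σ' : ℝ} (h : σ ≤ σ') : strip σ ⊆ strip σ' :=
  fun _ hz => lt_of_lt_of_le hz h

theorem WExt_term {σ δ M : ℝ} {f : ℝ → ℂ} (hf : W (σ + δ) 0 M f) {z : ℂ} (hz : z ∈ strip σ)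
    (k : ℤ) : ‖fc f k * Complex.exp ((k : ℂ) * z * Complex.I)‖ ≤
      M * wgt (fun k : ℤ => δ * |(k : ℝ)|) 0 k := by
  have h1 := hf.2.2 k
  have hM := W.nonneg hf
  have hz' : |z.im| < σ := hz
  have h2 : ‖Complex.exp ((k : ℂ) * z * Complex.I)‖ ≤ Real.exp (σ * |(k : ℝ)|) := by
    rw [Complex.norm_exp]
    refine Real.exp_le_exp.2 ?_
    have e : ((k : ℂ) * z * Complex.I).re = -((k : ℝ) * z.im) := by simp
    rw [e]
    calc -((k : ℝ) * z.im) ≤ |(k : ℝ) * z.im| := neg_le_abs _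
      _ = |z.im| * |(k : ℝ)| := by rw [abs_mul, mul_comm]
      _ ≤ σ * |(k : ℝ)| := mul_le_mul_of_nonneg_right hz'.le (abs_nonneg _)
  rw [norm_mul]
  refine (mul_le_mul h1 h2 (norm_nonneg _) (mul_nonneg hM (wgt_pos _ _ _).le)).trans_eq ?_
  simp only [wgt, pow_zero, div_one]
  rw [mul_assoc, ← Real.exp_add]
  congr 2
  ring

theorem WExt_summable {σ δ M : ℝ} (hδ : 0 < δ) {f : ℝ → ℂ} (hf : W (σ + δ) 0 M f) {z : ℂ}
    (hz : z ∈ strip σ) :
    Summable fun k : ℤ => fc f k * Complex.exp ((k : ℂ) * z * Complex.I) :=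
  Summable.of_norm_bounded ((summable_wgt_of_pos hδ 0).mul_left M) (WExt_term hf hz)

theorem WExt_diff {σ δ M : ℝ} (hδ : 0 < δ) {f : ℝ → ℂ} (hf : W (σ + δ) 0 M f) :
    DifferentiableOn ℂ (ext f) (strip σ) := by
  refine Complex.differentiableOn_tsum_of_summable_norm
    ((summable_wgt_of_pos hδ 0).mul_left M) (fun k => ?_) (WExt_isOpen σ)
    fun k z hz => WExt_term hf hz k
  exact Differentiable.differentiableOn (by fun_prop)

theorem WExt_bound {σ δ M : ℝ} (hδ : 0 < δ) {f : ℝ → ℂ} (hf : W (σ + δ) 0 M f) {z : ℂ}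
    (hz : z ∈ strip σ) :
    ‖ext f z‖ ≤ (∑' k, wgt (fun k : ℤ => δ * |(k : ℝ)|) 0 k) * M := by
  rw [mul_comm, ← tsum_mul_left]
  exact tsum_of_norm_bounded ((summable_wgt_of_pos hδ 0).mul_left M).hasSum (WExt_term hf hz)

theorem WExt_cauchy {σ r B : ℝ} (hr : 0 < r) {F : ℂ → ℂ}
    (hd : DifferentiableOn ℂ F (strip (σ + r))) (hB : ∀ z ∈ strip (σ + r), ‖F z‖ ≤ B) {z : ℂ}
    (hz : z ∈ strip σ) : ‖deriv F z‖ ≤ B / r := by
  have hsub : Metric.closedBall z r ⊆ strip (σ + r) := by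
    intro w hw
    have h1 : ‖w - z‖ ≤ r := mem_closedBall_iff_norm.1 hw
    have h2 : |(w - z).im| ≤ ‖w - z‖ := Complex.abs_im_le_norm _
    have h3 : |z.im| < σ := hz
    have h4 : |w.im| ≤ |z.im| + |(w - z).im| := by
      have : w.im = z.im + (w - z).im := by simp
      rw [this]
      simpa using abs_add_le z.im (w - z).im
    show |w.im| < σ + r
    linarith
  exact Complex.norm_deriv_le_of_forall_mem_sphere_norm_le hr (hd.diffContOnCl_ball hsub)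
    fun w hw => hB w (hsub (Metric.sphere_subset_closedBall hw))

/-- Holomorphic extension of a function of the class. -/
theorem ext_spec {ρ : ℝ} (hρ : 0 < ρ) :
    ∃ C : ℝ, 0 < C ∧ ∀ (f : ℝ → ℂ) (M : ℝ), W (3 * ρ) 0 M f →
      DifferentiableOn ℂ (ext f) (strip (2 * ρ)) ∧ (∀ z, ext f (z + 2 * (π : ℂ)) = ext f z) ∧
      (∀ x : ℝ, ext f x = f x) ∧
      ∀ z ∈ strip (2 * ρ), ‖ext f z‖ ≤ C * M ∧ ‖deriv (ext f) z‖ ≤ C * M ∧
        ‖deriv (deriv (ext f)) z‖ ≤ C * M := by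
  have hδ : 0 < ρ / 2 := by positivity
  have hr : 0 < ρ / 4 := by positivity
  set S : ℝ := ∑' k, wgt (fun k : ℤ => ρ / 2 * |(k : ℝ)|) 0 k with hS
  have hS0 : 0 ≤ S := tsum_nonneg fun k => (wgt_pos _ _ _).le
  refine ⟨S + S / (ρ / 4) + S / (ρ / 4) / (ρ / 4) + 1, by positivity, fun f M hf => ?_⟩
  have hM := W.nonneg hf
  have hf' : W (2 * ρ + ρ / 4 + ρ / 4 + ρ / 2) 0 M f := by
    rwa [show 2 * ρ + ρ / 4 + ρ / 4 + ρ / 2 = 3 * ρ by ring]
  have hd := WExt_diff hδ hf'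
  have hb0 : ∀ z ∈ strip (2 * ρ + ρ / 4 + ρ / 4), ‖ext f z‖ ≤ S * M :=
    fun z hz => WExt_bound hδ hf' hz
  have hb1 : ∀ z ∈ strip (2 * ρ + ρ / 4), ‖deriv (ext f) z‖ ≤ S * M / (ρ / 4) :=
    fun z hz => WExt_cauchy hr hd hb0 hz
  have hd1 : DifferentiableOn ℂ (deriv (ext f)) (strip (2 * ρ + ρ / 4)) :=
    (hd.deriv (WExt_isOpen _)).mono (WExt_mono (by linarith))
  have hb2 : ∀ z ∈ strip (2 * ρ), ‖deriv (deriv (ext f)) z‖ ≤ S * M / (ρ / 4) / (ρ / 4) :=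
    fun z hz => WExt_cauchy hr hd1 hb1 hz
  refine ⟨hd.mono (WExt_mono (by linarith)), fun z => ?_, fun x => ?_, fun z hz => ?_⟩
  · unfold ext
    refine tsum_congr fun k => ?_
    rw [show (k : ℂ) * (z + 2 * (π : ℂ)) * Complex.I =
      (k : ℂ) * z * Complex.I + (k : ℂ) * (2 * (π : ℂ) * Complex.I) by ring, Complex.exp_add,
      Complex.exp_int_mul_two_pi_mul_I, mul_one]
  · exact (Wg.hasSum hf (summable_wgt_of_pos (by positivity) 0) x).tsum_eq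
  · have e0 := hb0 z (WExt_mono (by linarith) hz)
    have e1 := hb1 z (WExt_mono (by linarith) hz)
    have e2 := hb2 z hz
    have p0 : 0 ≤ S * M := by positivity
    have p1 : 0 ≤ S / (ρ / 4) * M := by positivity
    have p2 : 0 ≤ S / (ρ / 4) / (ρ / 4) * M := by positivity
    have q1 : S * M / (ρ / 4) = S / (ρ / 4) * M := by ring
    have q2 : S * M / (ρ / 4) / (ρ / 4) = S / (ρ / 4) / (ρ / 4) * M := by ring
    have q : (S + S / (ρ / 4) + S / (ρ / 4) / (ρ / 4) + 1) * M =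
        S * M + S / (ρ / 4) * M + S / (ρ / 4) / (ρ / 4) * M + M := by ring
    rw [q]
    rw [q1] at e1
    rw [q2] at e2
    exact ⟨by linarith, by linarith, by linarith⟩

theorem ext_sub {ρ M N : ℝ} (hρ : 0 < ρ) {f g : ℝ → ℂ} (hf : W (3 * ρ) 0 M f)
    (hg : W (3 * ρ) 0 N g) {z : ℂ} (hz : z ∈ strip (2 * ρ)) :
    ext (fun x => f x - g x) z = ext f z - ext g z := by
  have hf' : W (2 * ρ + ρ) 0 M f := by rwa [show 2 * ρ + ρ = 3 * ρ by ring]
  have hg' : W (2 * ρ + ρ) 0 N g := by rwa [show 2 * ρ + ρ = 3 * ρ by ring]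
  unfold ext
  rw [← (WExt_summable hρ hf' hz).tsum_sub (WExt_summable hρ hg' hz)]
  refine tsum_congr fun k => ?_
  rw [fc_sub (W.cont hf) (W.cont hg), sub_mul]

theorem Curve.mono {ρ ρ' L : ℝ} {φ : ℝ → ℝ} (h : Curve ρ L φ) (h0 : 0 < ρ') (hle : ρ' ≤ ρ) :
    Curve ρ' L φ := by
  obtain ⟨-, h1, h2, Φ, h3⟩ := h
  have hs : strip (2 * ρ') ⊆ strip (2 * ρ) := WExt_mono (by linarith)
  refine ⟨h0, h1, le_trans ?_ h2, Φ, h3.diff.mono hs, h3.per, h3.real,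
    fun z hz => h3.d1 z (hs hz), fun z hz => h3.d2 z (hs hz)⟩
  exact mul_le_mul_of_nonneg_right (by linarith) (by linarith)

/-- Functions of the class are analytic graphs, uniformly. -/
theorem curve_of_WR {ρ : ℝ} (hρ : 0 < ρ) (M : ℝ) :
    ∃ ρ₀ L : ℝ, 0 < ρ₀ ∧ 3 * ρ₀ ≤ ρ ∧ ∀ φ : ℝ → ℝ, WR ρ 0 M φ →
      Curve ρ₀ L φ ∧ CurveExt ρ₀ L φ (ext fun x => (φ x : ℂ)) := by
  have h3 : 0 < ρ / 3 := by positivity
  obtain ⟨C, -, hC⟩ := ext_spec h3
  have hL : 0 < max 1 (C * M) := lt_of_lt_of_le one_pos (le_max_left _ _)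
  have h0 : 0 < min (ρ / 3) (1 / (4 * max 1 (C * M))) := lt_min h3 (by positivity)
  refine ⟨min (ρ / 3) (1 / (4 * max 1 (C * M))), max 1 (C * M), h0, ?_, fun φ hφ => ?_⟩
  · have := min_le_left (ρ / 3) (1 / (4 * max 1 (C * M)))
    linarith
  · have hφ' : W (3 * (ρ / 3)) 0 M fun x => (φ x : ℂ) := by
      rw [show 3 * (ρ / 3) = ρ by ring]
      exact hφ
    obtain ⟨a1, a2, a3, a4⟩ := hC _ M hφ'
    have hs : strip (2 * min (ρ / 3) (1 / (4 * max 1 (C * M)))) ⊆ strip (2 * (ρ / 3)) :=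
      WExt_mono (by have := min_le_left (ρ / 3) (1 / (4 * max 1 (C * M))); linarith)
    have hE : CurveExt (min (ρ / 3) (1 / (4 * max 1 (C * M)))) (max 1 (C * M)) φ
        (ext fun x => (φ x : ℂ)) :=
      ⟨a1.mono hs, a2, a3, fun z hz => (a4 z (hs hz)).2.1.trans (le_max_right _ _),
        fun z hz => (a4 z (hs hz)).2.2.trans (le_max_right _ _)⟩
    refine ⟨⟨h0, le_max_left _ _, ?_, _, hE⟩, hE⟩
    have := min_le_right (ρ / 3) (1 / (4 * max 1 (C * M)))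
    rw [le_div_iff₀ (by positivity)] at this
    linarith

end Pool.Agent.Lib.MP_3d41d4_an
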