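import Pool.Agent.Lib.MP_3d41d4_an.BSc
import Pool.Agent.Lib.MP_3d41d4_an.WExt

open MeasureTheory Set Filter Topology Real
open scoped ENNReal

namespace Pool.Agent.Lib.MP_3d41d4_an

theorem SheetOf_clamp_mem {T : ℝ} (hT : 0 < T) (t : ℝ) : max 0 (min t T) ∈ Icc 0 T :=
  ⟨le_max_left _ _, max_le hT.le (min_le_right _ _)⟩

theorem SheetOf_clamp_lip (T t s : ℝ) : |max 0 (min t T) - max 0 (min s T)| ≤ |t - s| := by
  calc |max 0 (min t T) - max 0 (min s T)| ≤ |min t T - min s T| := by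
        rw [max_comm 0, max_comm 0]
        exact abs_max_sub_max_le_abs _ _ _
    _ ≤ |t - s| := by
        have := abs_min_sub_min_le_max t T s T
        simpa using this

theorem SheetOf_clamp_eq {T t : ℝ} (ht : t ∈ Ioo 0 T) : max 0 (min t T) = t := by
  rw [min_eq_left ht.2.le, max_eq_right ht.1.le]

theorem SheetOf_cont {f : ℝ → ℝ → ℝ} {K : ℝ} (hK : 0 ≤ K) (hc : ∀ t, Continuous (f t))
    (hl : ∀ t s x, |f t x - f s x| ≤ K * |t - s|) : Continuous fun p : ℝ × ℝ => f p.1 p.2 := by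
  refine continuous_prod_of_continuous_lipschitzWith (fun p : ℝ × ℝ => f p.1 p.2) ⟨K, hK⟩
    (fun a => hc a) fun b => ?_
  refine LipschitzWith.of_dist_le_mul fun t s => ?_
  rw [Real.dist_eq, Real.dist_eq]
  exact hl t s b

/-- Mean value inequality on the time interval, in symmetric form. -/
theorem SheetOf_lip {T ρ A : ℝ} {n : ℕ} (hρ : 0 < ρ) {F F' : ℝ → ℝ → ℝ}
    (hc : ∀ u ∈ Icc 0 T, Continuous (F u) ∧ Function.Periodic (F u) (2 * π))
    (hd : ∀ u ∈ Icc 0 T, ∀ x, HasDerivWithinAt (fun v => F v x) (F' u x) (Icc 0 T) u)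
    (hW : ∀ u ∈ Icc 0 T, WR ρ n A (F' u)) {t s : ℝ} (ht : t ∈ Icc 0 T) (hs : s ∈ Icc 0 T) :
    WR ρ n (A * |t - s|) fun x => F t x - F s x := by
  have key : ∀ a ∈ Icc 0 T, ∀ b ∈ Icc 0 T, a ≤ b →
      WR ρ n (A * (b - a)) fun x => F b x - F a x := by
    intro a ha b hb hab
    have hsub : Icc a b ⊆ Icc 0 T := Icc_subset_Icc ha.1 hb.2
    refine WR.lip (F' := F') hρ hab (fun u hu => hc u (hsub hu)) (fun x => ?_) (fun u hu x => ?_)
      fun u hu => hW u (hsub (Ioo_subset_Icc_self hu))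
    · exact ContinuousOn.mono (fun u hu => (hd u hu x).continuousWithinAt) hsub
    · exact (hd u (hsub (Ioo_subset_Icc_self hu)) x).hasDerivAt
        (Icc_mem_nhds (lt_of_le_of_lt ha.1 hu.1) (lt_of_lt_of_le hu.2 hb.2))
  rcases le_total s t with h | h
  · rw [abs_of_nonneg (sub_nonneg.2 h)]
    exact key s hs t ht h
  · rw [abs_sub_comm, abs_of_nonneg (sub_nonneg.2 h)]
    have := (key t ht s hs h).neg
    simpa only [neg_sub] using this

/-- From the hypotheses of the statement to the quantitative structure. -/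
theorem sheet_of {T ρ M : ℝ} (hT : 0 < T) (hρ : 0 < ρ) {φ γ : ℝ → ℝ → ℝ}
    (hX : ∀ t ∈ Icc 0 T, InX ρ M (φ t) ∧ InX ρ M (γ t)) (hBR : SolvesBR T φ γ) :
    ∃ ρ₀ L M₀ : ℝ, Sheet ρ₀ L M₀ T (fun t => φ (max 0 (min t T)))
      (fun t => γ (max 0 (min t T))) := by
  obtain ⟨r, L, hr, h3, hcur0⟩ := curve_of_WR hρ M
  have hcur : ∀ t ∈ Icc 0 T, Curve r L (φ t) := fun t ht => (hcur0 _ (hX t ht).1.toWR).1
  obtain ⟨C1, hC1, hlev⟩ := W.level (ρ := ρ) (ρ' := r) (by linarith) 4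
  obtain ⟨C2, hC2, hpv⟩ := pv_W r L
  obtain ⟨C3, hC3, hzp⟩ := zp_W r L
  obtain ⟨C4, hC4, hlev6⟩ := W.level (ρ := r) (ρ' := r / 2) (by linarith) 6
  have hγ : ∀ t ∈ Icc 0 T, WR r 4 (C1 * M) (γ t) := fun t ht => hlev _ _ (hX t ht).2.toWR
  have hpvW : ∀ t ∈ Icc 0 T, W r 4 (C2 * (C1 * M)) (pv (φ t) (γ t)) := fun t ht =>
    hpv _ (hcur t ht) r hr le_rfl 4 (by norm_num) le_rfl _ _ (hγ t ht)
  set A : ℝ := 64 * C3 * (C2 * (C1 * M)) with hA
  set B : ℝ := 64 * (C2 * (C1 * M)) * (C1 * M) with hB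
  have hptW : ∀ t ∈ Icc 0 T, WR r 4 A (pt φ γ t) := fun t ht =>
    (W.mul hr.le (by norm_num) le_rfl (hzp _ (hcur t ht)).2.1 (hpvW t ht)).im.neg
  have hflW : ∀ t ∈ Icc 0 T, WR r 4 B (fl φ γ t) := fun t ht =>
    WR.mul hr.le (by norm_num) le_rfl (hpvW t ht).re (hγ t ht)
  have hdflW : ∀ t ∈ Icc 0 T, WR r 3 B fun x => -deriv (fl φ γ t) x := fun t ht =>
    (WR.derivW hr (hflW t ht)).neg
  have h0 : (0 : ℝ) ∈ Icc 0 T := ⟨le_rfl, hT.le⟩
  have hA0 : 0 ≤ A := (hptW 0 h0).nonneg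
  have hB0 : 0 ≤ B := (hflW 0 h0).nonneg
  have hM0 : 0 ≤ C1 * M := (hγ 0 h0).nonneg
  obtain ⟨u₁, u₂, hu⟩ := hBR
  have hu1 : ∀ t ∈ Icc 0 T, ∀ x, u₁ t x = (pv (φ t) (γ t) x).re := fun t ht x =>
    (hu t ht x).1.unique (isPV_pv (hcur t ht) hr (hγ t ht) x).1
  have hu2 : ∀ t ∈ Icc 0 T, ∀ x, u₂ t x = -(pv (φ t) (γ t) x).im := fun t ht x =>
    (hu t ht x).2.1.unique (isPV_pv (hcur t ht) hr (hγ t ht) x).2
  have hdφ : ∀ t ∈ Icc 0 T, ∀ x,
      HasDerivWithinAt (fun s => φ s x) (pt φ γ t x) (Icc 0 T) t := by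
    intro t ht x
    have h := (hu t ht x).2.2.1
    rw [hu1 t ht x, hu2 t ht x] at h
    have e : pt φ γ t x
        = -(pv (φ t) (γ t) x).im - (pv (φ t) (γ t) x).re * deriv (φ t) x := by
      simp [pt, zp, Complex.mul_im]
      ring
    rw [e]
    exact h
  have hdγ : ∀ t ∈ Icc 0 T, ∀ x,
      HasDerivWithinAt (fun s => γ s x) (-deriv (fl φ γ t) x) (Icc 0 T) t := by
    intro t ht x
    have h := (hu t ht x).2.2.2
    have e : (fun y => u₁ t y * γ t y) = fl φ γ t := by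
      funext y
      rw [hu1 t ht y]
      rfl
    rw [e] at h
    exact h
  have hlφ : ∀ t ∈ Icc 0 T, ∀ s ∈ Icc 0 T, WR r 4 (A * |t - s|) fun x => φ t x - φ s x :=
    fun t ht s hs => SheetOf_lip (F' := pt φ γ) hr
      (fun u hu => ⟨(hX u hu).1.1, (hX u hu).1.2.1⟩) hdφ hptW ht hs
  have hlγ : ∀ t ∈ Icc 0 T, ∀ s ∈ Icc 0 T, WR r 3 (B * |t - s|) fun x => γ t x - γ s x :=
    fun t ht s hs => SheetOf_lip (F' := fun t x => -deriv (fl φ γ t) x) hr
      (fun u hu => ⟨(hX u hu).2.1, (hX u hu).2.2.1⟩) hdγ hdflW ht hs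
  have hr2 : 0 < r / 2 := by linarith
  have hl6 : ∀ t ∈ Icc 0 T, ∀ s ∈ Icc 0 T,
      WR (r / 2) 6 (C4 * (A * |t - s|)) fun x => φ t x - φ s x :=
    fun t ht s hs => hlev6 _ _ ((hlφ t ht s hs).mono le_rfl (Nat.zero_le _) le_rfl)
  have hl5 : ∀ t ∈ Icc 0 T, ∀ s ∈ Icc 0 T,
      WR (r / 2) 5 (C4 * (A * |t - s|)) fun x => deriv (φ t) x - deriv (φ s) x := by
    intro t ht s hs
    have h := WR.derivW hr2 (hl6 t ht s hs)
    have e : (deriv fun x => φ t x - φ s x) = fun x => deriv (φ t) x - deriv (φ s) x := by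
      funext x
      exact deriv_fun_sub ((hcur t ht).differentiable x) ((hcur s hs).differentiable x)
    rwa [e] at h
  have hl4 : ∀ t ∈ Icc 0 T, ∀ s ∈ Icc 0 T, WR (r / 2) 4 (C4 * (A * |t - s|))
      fun x => deriv (deriv (φ t)) x - deriv (deriv (φ s)) x := by
    intro t ht s hs
    have h := WR.derivW hr2 (hl5 t ht s hs)
    have e : (deriv fun x => deriv (φ t) x - deriv (φ s) x)
        = fun x => deriv (deriv (φ t)) x - deriv (deriv (φ s)) x := by
      funext x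
      exact deriv_fun_sub ((hcur t ht).differentiable_deriv x) ((hcur s hs).differentiable_deriv x)
    rwa [e] at h
  have hcm := SheetOf_clamp_mem hT
  have hCA : 0 ≤ C4 * A := mul_nonneg hC4.le hA0
  have hbound : ∀ t s : ℝ, C4 * (A * |max 0 (min t T) - max 0 (min s T)|)
      ≤ (C1 * M + C4 * A + 1) * |t - s| := by
    intro t s
    have h1 := SheetOf_clamp_lip T t s
    have h2 : 0 ≤ |t - s| := abs_nonneg _
    calc C4 * (A * |max 0 (min t T) - max 0 (min s T)|)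
        = C4 * A * |max 0 (min t T) - max 0 (min s T)| := by ring
      _ ≤ C4 * A * |t - s| := mul_le_mul_of_nonneg_left h1 hCA
      _ ≤ (C1 * M + C4 * A + 1) * |t - s| := mul_le_mul_of_nonneg_right (by linarith) h2
  have hev : ∀ t ∈ Ioo 0 T, ∀ᶠ s in 𝓝 t, max 0 (min s T) = s := fun t ht => by
    filter_upwards [Ioo_mem_nhds ht.1 ht.2] with s hs using SheetOf_clamp_eq hs
  refine ⟨r / 2, L, C1 * M + C4 * A + 1, hT, by linarith, fun t => ?_, ?_, ?_, fun t => ?_,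
    fun t s => ?_, fun t s => ?_, fun t ht x => ?_, fun t ht x => ?_⟩
  · exact (hcur _ (hcm t)).mono hr2 (by linarith)
  · refine SheetOf_cont (f := fun t => φ (max 0 (min t T))) (K := 4 * A) (by positivity)
      (fun t => (hX _ (hcm t)).1.1) fun t s x => ?_
    have h1 := (hlφ _ (hcm t) _ (hcm s)).abs_le hr.le (by norm_num) x
    have h2 := SheetOf_clamp_lip T t s
    refine h1.trans ?_
    rw [← mul_assoc]
    exact mul_le_mul_of_nonneg_left h2 (by positivity)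
  · refine SheetOf_cont (f := fun t => γ (max 0 (min t T))) (K := 4 * B) (by positivity)
      (fun t => (hX _ (hcm t)).2.1) fun t s x => ?_
    have h1 := (hlγ _ (hcm t) _ (hcm s)).abs_le hr.le (by norm_num) x
    have h2 := SheetOf_clamp_lip T t s
    refine h1.trans ?_
    rw [← mul_assoc]
    exact mul_le_mul_of_nonneg_left h2 (by positivity)
  · exact (hγ _ (hcm t)).mono (by linarith) le_rfl (by linarith)
  · exact (hl5 _ (hcm t) _ (hcm s)).mono le_rfl (by norm_num) (hbound t s)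
  · exact (hl4 _ (hcm t) _ (hcm s)).mono le_rfl le_rfl (hbound t s)
  · have h := (hdφ t (Ioo_subset_Icc_self ht) x).hasDerivAt (Icc_mem_nhds ht.1 ht.2)
    have e : pt (fun t => φ (max 0 (min t T))) (fun t => γ (max 0 (min t T))) t x
        = pt φ γ t x := by
      simp only [pt, SheetOf_clamp_eq ht]
    rw [e]
    refine h.congr_of_eventuallyEq ?_
    filter_upwards [hev t ht] with s hs
    simp only [hs]
  · have h := (hdγ t (Ioo_subset_Icc_self ht) x).hasDerivAt (Icc_mem_nhds ht.1 ht.2)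
    have e : fl (fun t => φ (max 0 (min t T))) (fun t => γ (max 0 (min t T))) t
        = fl φ γ t := by
      funext y
      simp only [fl, SheetOf_clamp_eq ht]
    rw [e]
    refine h.congr_of_eventuallyEq ?_
    filter_upwards [hev t ht] with s hs
    simp only [hs]

end Pool.Agent.Lib.MP_3d41d4_an
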