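import Pool.Agent.Lib.MP_3d41d4_an.TS0

open MeasureTheory Set Filter Topology Real
open scoped ENNReal

namespace Pool.Agent.Lib.MP_3d41d4_an

variable {ρ L M₀ T : ℝ} {φ γ : ℝ → ℝ → ℝ}

theorem TS_Vof_eq {T₁ s : ℝ} (hs : s ∈ Ioo 0 T₁) (φ : ℝ → ℝ → ℝ) (ω : ℝ → ℝ → ℝ → ℝ) (η x : ℝ) :
    Vof T₁ φ ω s η x = ω s x (η + φ s x) := by
  simp [Vof, indicator_of_mem hs]

theorem TS_cont_ω {ν T₁ : ℝ} {φ₀ γ₀ : ℝ → ℝ} {ω u v : ℝ → ℝ → ℝ → ℝ}
    (h : IsNS ν T₁ φ₀ γ₀ ω u v) {s : ℝ} (hs : s ∈ Ioo 0 T₁) :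
    Continuous fun p : ℝ × ℝ => ω s p.1 p.2 := by
  have h1 := h.smooth_ω.continuousOn
  have h2 : Continuous fun p : ℝ × ℝ => ((s, p) : ℝ × ℝ × ℝ) := by fun_prop
  exact h1.comp_continuous h2 (fun p => ⟨hs, mem_univ _⟩)

/-- A classical solution, written in the moving frame. -/
theorem trueSol_of (hS : Sheet ρ L M₀ T φ γ) {ν T₁ T' : ℝ} {ω u v : ℝ → ℝ → ℝ → ℝ}
    (h : IsNS ν T₁ (φ 0) (γ 0) ω u v) (hν : 0 < ν) (hT : T' ≤ T) (hT1 : T' < T₁) :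
    TrueSol T' ν φ γ (Vof T₁ φ ω) (wof φ u v) := by
  have hsub : ∀ s ∈ Ioc 0 T', s ∈ Ioo 0 T₁ := fun s hs => ⟨hs.1, hs.2.trans_lt hT1⟩
  refine ⟨meas_Vof hS h, ?_, ?_, ?_, ?_, ?_, ?_, ?_, ?_⟩
  · intro s η x
    by_cases hs : s ∈ Ioo 0 T₁
    · rw [TS_Vof_eq hs, TS_Vof_eq hs, (hS.curve s).per x, h.per s hs]
    · simp [Vof, indicator_of_notMem hs]
  · obtain ⟨A, hA⟩ := h.mass
    refine ⟨A, fun s hs => ?_⟩
    have hs' := hsub s hs
    simp only [TS_Vof_eq hs']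
    have hm : Measurable (φ s) := (hS.curve s).continuous.measurable
    have e := lintegral_cyl_shear hm (fun p : ℝ × ℝ => ‖ω s p.1 p.2‖ₑ)
    simp only at e
    rw [e, ← ofReal_integral_norm_eq_lintegral_enorm (hA s hs').1]
    exact ENNReal.ofReal_le_ofReal (hA s hs').2
  · intro ε hε
    obtain ⟨D, hD⟩ := h.vel (ε / 2) (by positivity)
    refine ⟨2 * max D 0, by positivity, fun s hs η x => ?_⟩
    obtain ⟨h1, h2⟩ := hD s (hsub s hs) x (η + φ s x)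
    have h3 : ‖wof φ u v s η x‖ ≤ |u s x (η + φ s x)| + |v s x (η + φ s x)| := by
      unfold wof
      refine (norm_sub_le _ _).trans (le_of_eq ?_)
      simp
    have h4 : D ≤ max D 0 := le_max_left _ _
    have h5 : ε / √s = ε / 2 / √s + ε / 2 / √s := by ring
    linarith
  · intro s hs η x
    exact true_biot hS h (hsub s hs) η x
  · intro κ hκ t ht η x s hs
    exact (true_ident hS h hν hκ ht.1 (ht.2.trans hT) (ht.2.trans_lt hT1) η x).1 s hs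
  · intro κ hκ t ht η x
    exact (true_ident hS h hν hκ ht.1 (ht.2.trans hT) (ht.2.trans_lt hT1) η x).2.1
  · intro κ hκ t ht η x
    exact (true_ident hS h hν hκ ht.1 (ht.2.trans hT) (ht.2.trans_lt hT1) η x).2.2
  · intro t ht η x
    have ht' := hsub t ht
    obtain ⟨B, hB⟩ := h.bdd t ht'
    have hφ := (hS.curve t).continuous
    refine smo_tendsto hφ (B := B) ?_ ?_ η x
    · simp only [TS_Vof_eq ht']
      have h2 : Continuous fun p : ℝ × ℝ => ((p.2, p.1 + φ t p.2) : ℝ × ℝ) := by fun_prop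
      exact (TS_cont_ω h ht').comp h2
    · intro η' x'
      rw [TS_Vof_eq ht']
      exact hB _ _

end Pool.Agent.Lib.MP_3d41d4_an
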