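import Pool.Agent.Lib.MP_3d41d4_an.Close
import Pool.Agent.Lib.MP_3d41d4_an.Err
import Pool.Agent.Lib.MP_3d41d4_an.Gron
import Pool.Agent.Lib.MP_3d41d4_an.Fin
import Pool.Agent.Lib.MP_3d41d4_an.TS
import Pool.Agent.Lib.MP_3d41d4_an.SheetOf

open MeasureTheory Set Filter Topology Real
open scoped ENNReal

namespace Pool.Agent.Lib.MP_3d41d4_an

variable {ρ L M₀ T : ℝ} {φ γ : ℝ → ℝ → ℝ}

theorem IsTest.bounded {η : ℝ → ℝ → ℝ} (h : IsTest η) : ∃ B : ℝ, 0 < B ∧ ∀ x y, |η x y| ≤ B := by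
  obtain ⟨R, hR⟩ := h.supp
  have hK : IsCompact (Icc (0 : ℝ) (2 * π) ×ˢ Icc (-R) R) := isCompact_Icc.prod isCompact_Icc
  obtain ⟨B, hB⟩ := hK.exists_bound_of_continuousOn h.cont.continuousOn
  refine ⟨max B 0 + 1, by positivity, fun x y => ?_⟩
  by_cases hy : R ≤ |y|
  · rw [hR x y hy, abs_zero]; positivity
  · have hper : Function.Periodic (fun x => η x y) (2 * π) := fun x => h.per x y
    obtain ⟨x', hx', he⟩ := hper.exists_mem_Ico₀ two_pi_pos x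
    have h1 := hB (x', y) ⟨Ico_subset_Icc_self hx', abs_le.mp (not_le.mp hy).le⟩
    simp only [Real.norm_eq_abs] at h1
    rw [he]
    have := le_max_left B 0
    linarith

theorem err_tendsto (hS : Sheet ρ L M₀ T φ γ) {M β T' ν : ℝ} (hP : Par ρ L T β T' ν)
    (hI : ∀ n, Inv ρ L β T' ν M γ (iter φ γ L ν n).1 (iter φ γ L ν n).2)
    {V : ℝ → ℝ → ℝ → ℝ} {w : ℝ → ℝ → ℝ → ℂ} (hV : TrueSol T' ν φ γ V w) :
    ∀ t ∈ Ioc 0 T', Tendsto (fun n => err V (iter φ γ L ν n).1 t) atTop (𝓝 0) := by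
  obtain ⟨C, hC, hE⟩ := err_step hS M hP
  obtain ⟨A, hA⟩ := hV.l1
  obtain ⟨A', hA'⟩ := lintegral_Ω_le hS hP (hI 0)
  refine gronwall_iter (E₀ := max A 0 + max A' 0) (e := fun n s => err V (iter φ γ L ν n).1 s)
    hP.T'_pos hC ?_ ?_
  · intro s hs
    have hm : Measurable fun p : ℝ × ℝ => ‖V s p.2 p.1‖ₑ :=
      (meas3 hV.meas measurable_const measurable_snd measurable_fst).enorm
    calc err V (iter φ γ L ν 0).1 s
        ≤ ∫⁻ p in cyl, (‖V s p.2 p.1‖ₑ + ‖(iter φ γ L ν 0).1 s p.2 p.1‖ₑ) :=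
          lintegral_mono fun p => enorm_sub_le
      _ = (∫⁻ p in cyl, ‖V s p.2 p.1‖ₑ) + ∫⁻ p in cyl, ‖(iter φ γ L ν 0).1 s p.2 p.1‖ₑ :=
          lintegral_add_left hm _
      _ ≤ ENNReal.ofReal (max A 0) + ENNReal.ofReal (max A' 0) :=
          add_le_add ((hA s hs).trans (ENNReal.ofReal_le_ofReal (le_max_left _ _)))
            ((hA' s hs).trans (ENNReal.ofReal_le_ofReal (le_max_left _ _)))
      _ = ENNReal.ofReal (max A 0 + max A' 0) :=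
          (ENNReal.ofReal_add (le_max_right _ _) (le_max_right _ _)).symm
  · intro ε hε
    obtain ⟨D, hD, hw⟩ := hV.vel ε hε
    exact ⟨D, hD, fun n t ht => hE (hI n) hV ε D hε.le hD hw t ht⟩

/-- The uniform estimate for a quantitative sheet. -/
theorem main_sheet (hS : Sheet ρ L M₀ T φ γ) : ∃ T' : ℝ, 0 < T' ∧ T' < T ∧
    ∀ t ∈ Ioc 0 T', ∀ η, IsTest η → ∀ ε > 0, ∃ ν₀ > 0, ∀ ν, 0 < ν → ν < ν₀ →
      ∀ (T₁ : ℝ) (ω u v : ℝ → ℝ → ℝ → ℝ), T' < T₁ → IsNS ν T₁ (φ 0) (γ 0) ω u v →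
        |(∫ p in cyl, η p.1 p.2 * ω t p.1 p.2)
          - ∫ x in (0 : ℝ)..(2 * π), η x (φ t x) * γ t x| ≤ ε := by
  obtain ⟨M, β, T', hI⟩ := inv_iter hS
  have hP1 := (hI 1 one_pos le_rfl).1
  refine ⟨T', hP1.T'_pos, hP1.T'_lt, fun t ht η hη ε hε => ?_⟩
  obtain ⟨ν₀, hν₀, hc⟩ := concentrate hS M β T' hη ht hε
  refine ⟨min ν₀ 1, lt_min hν₀ one_pos, fun ν hν hνlt T₁ ω u v hT1 hNS => ?_⟩
  obtain ⟨hP, hIn⟩ := hI ν hν (hνlt.le.trans (min_le_right _ _))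
  have hV := trueSol_of hS hNS hν hP.T'_lt.le hT1
  have hlim := err_tendsto hS hP hIn hV t ht
  obtain ⟨B, hB, hηB⟩ := hη.bounded
  have ht' : t ∈ Ioo 0 T₁ := ⟨ht.1, ht.2.trans_lt hT1⟩
  have hφc := (hS.curve t).continuous
  set V := Vof T₁ φ ω with hVdef
  have hηm : Measurable fun p : ℝ × ℝ => η p.1 (p.2 + φ t p.1) := by
    have h2 : Continuous fun p : ℝ × ℝ => ((p.1, p.2 + φ t p.1) : ℝ × ℝ) := by fun_prop
    exact (hη.cont.comp h2).measurable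
  have e1 : ∫ p in cyl, η p.1 p.2 * ω t p.1 p.2
      = ∫ p in cyl, η p.1 (p.2 + φ t p.1) * V t p.2 p.1 := by
    have := integral_cyl_shear hφc.measurable (fun p : ℝ × ℝ => η p.1 p.2 * ω t p.1 p.2)
    rw [← this]
    simp only [hVdef, TS_Vof_eq ht']
  have hVi : IntegrableOn (fun p : ℝ × ℝ => V t p.2 p.1) cyl := by
    obtain ⟨A, hA⟩ := hV.l1
    refine ⟨(meas3 hV.meas measurable_const measurable_snd measurable_fst).aestronglyMeasurable, ?_⟩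
    exact (hA t ht).trans_lt ENNReal.ofReal_lt_top
  have hbd : ∀ᵐ p ∂(volume.restrict cyl), ‖η p.1 (p.2 + φ t p.1)‖ ≤ B :=
    Eventually.of_forall fun p => by simpa using hηB _ _
  have key : ∀ n, |(∫ p in cyl, η p.1 p.2 * ω t p.1 p.2)
      - ∫ x in (0 : ℝ)..(2 * π), η x (φ t x) * γ t x|
        ≤ B * (err V (iter φ γ L ν n).1 t).toReal + ε := by
    intro n
    obtain ⟨hΩi, hΩ⟩ := hc ν (hνlt.trans_le (min_le_left _ _)) hP _ _ (hIn n)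
    set Ω := (iter φ γ L ν n).1 with hΩdef
    have i1 : IntegrableOn (fun p : ℝ × ℝ => η p.1 (p.2 + φ t p.1) * V t p.2 p.1) cyl :=
      Integrable.bdd_mul hVi hηm.aestronglyMeasurable hbd
    have i2 : IntegrableOn (fun p : ℝ × ℝ => η p.1 (p.2 + φ t p.1) * Ω t p.2 p.1) cyl :=
      Integrable.bdd_mul hΩi hηm.aestronglyMeasurable hbd
    have i3 : IntegrableOn (fun p : ℝ × ℝ => V t p.2 p.1 - Ω t p.2 p.1) cyl := hVi.sub hΩi
    have e2 : (err V Ω t).toReal = ∫ p in cyl, ‖V t p.2 p.1 - Ω t p.2 p.1‖ := by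
      rw [integral_norm_eq_lintegral_enorm i3.aestronglyMeasurable]
      rfl
    have e3 : |(∫ p in cyl, η p.1 (p.2 + φ t p.1) * V t p.2 p.1)
        - ∫ p in cyl, η p.1 (p.2 + φ t p.1) * Ω t p.2 p.1| ≤ B * (err V Ω t).toReal := by
      rw [← integral_sub i1 i2, e2, ← integral_const_mul, ← Real.norm_eq_abs]
      refine norm_integral_le_of_norm_le (i3.norm.const_mul B) (Eventually.of_forall fun p => ?_)
      rw [← mul_sub, norm_mul]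
      exact mul_le_mul_of_nonneg_right (by simpa using hηB _ _) (norm_nonneg _)
    rw [e1]
    have := abs_sub_le (∫ p in cyl, η p.1 (p.2 + φ t p.1) * V t p.2 p.1)
      (∫ p in cyl, η p.1 (p.2 + φ t p.1) * Ω t p.2 p.1)
      (∫ x in (0 : ℝ)..(2 * π), η x (φ t x) * γ t x)
    linarith
  have hlim2 : Tendsto (fun n => B * (err V (iter φ γ L ν n).1 t).toReal + ε) atTop
      (𝓝 (B * (0 : ℝ≥0∞).toReal + ε)) :=
    (((ENNReal.tendsto_toReal ENNReal.zero_ne_top).comp hlim).const_mul B).add_const ε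
  have := ge_of_tendsto' hlim2 key
  simpa using this

/-- Vanishing viscosity limit for a vortex sheet that is bounded in the analytic class. -/
theorem main_bounded {T ρ M : ℝ} (hT : 0 < T) (hρ : 0 < ρ) {φ γ : ℝ → ℝ → ℝ}
    (hX : ∀ t ∈ Icc 0 T, InX ρ M (φ t) ∧ InX ρ M (γ t)) (hBR : SolvesBR T φ γ) :
    ∃ T' : ℝ, 0 < T' ∧ T' < T ∧ ∀ T₁ : ℝ, T' < T₁ → ∀ ω u v : ℝ → ℝ → ℝ → ℝ → ℝ,
      (∀ ν > 0, IsNS ν T₁ (φ 0) (γ 0) (ω ν) (u ν) (v ν)) →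
      ∀ t ∈ Ioc 0 T', ∀ η, IsTest η →
        Tendsto (fun ν => ∫ p in cyl, η p.1 p.2 * ω ν t p.1 p.2) (𝓝[>] 0)
          (𝓝 (∫ x in (0 : ℝ)..(2 * π), η x (φ t x) * γ t x)) := by
  obtain ⟨ρ₀, L, M₀, hS⟩ := sheet_of hT hρ hX hBR
  obtain ⟨T', hT'0, hT'T, hmain⟩ := main_sheet hS
  refine ⟨T', hT'0, hT'T, fun T₁ hT1 ω u v hNS t ht η hη => ?_⟩
  have c0 : max 0 (min 0 T) = 0 := by rw [min_eq_left hT.le, max_self]
  have ct : max 0 (min t T) = t := by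
    rw [min_eq_left (ht.2.trans hT'T.le), max_eq_right ht.1.le]
  rw [Metric.tendsto_nhds]
  intro ε hε
  obtain ⟨ν₀, hν₀, h⟩ := hmain t ht η hη (ε / 2) (by positivity)
  filter_upwards [Ioo_mem_nhdsGT hν₀] with ν hν
  have h1 := h ν hν.1 hν.2 T₁ (ω ν) (u ν) (v ν) hT1 (by simpa only [c0] using hNS ν hν.1)
  simp only [ct] at h1
  rw [Real.dist_eq]
  linarith

end Pool.Agent.Lib.MP_3d41d4_an
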