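import Pool.Agent.Lib.MP_3d41d4_an.Meas0

open MeasureTheory Set Filter Topology Real
open scoped ENNReal

namespace Pool.Agent.Lib.MP_3d41d4_an

variable {ρ L M₀ T : ℝ} {φ γ : ℝ → ℝ → ℝ}
variable {Λ : Type} [MeasurableSpace Λ]

theorem Meas_int {E : Type} [MeasurableSpace E] {μ : Measure E} [SFinite μ] {F : Λ → E → ℝ}
    (hF : Measurable fun q : Λ × E => F q.1 q.2) : Measurable fun l => ∫ e, F l e ∂μ :=
  (StronglyMeasurable.integral_prod_right (f := F) hF.stronglyMeasurable).measurable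

theorem Meas_aa (ν : ℝ) {κ t s : Λ → ℝ} (hκ : Measurable κ) (ht : Measurable t)
    (hs : Measurable s) : Measurable fun l => aa ν (κ l) (t l) (s l) :=
  ((ht.sub hs).const_mul ν).add hκ

theorem meas_Rk (hS : Sheet ρ L M₀ T φ γ) (ν : ℝ) (j : ℕ) {a t s x r σ : Λ → ℝ}
    (ha : Measurable a) (ht : Measurable t) (hs : Measurable s) (hx : Measurable x)
    (hr : Measurable r) (hσ : Measurable σ) :
    Measurable fun l => Rk φ ν j (a l) (t l) (s l) (x l) (r l) (σ l) := by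
  have h1 := (hS.meas_d1 ht (hx.add hr)).sub (hS.meas_d1 hs (hx.add hr))
  have h2 := (hS.meas_d2 ht (hx.add hr)).sub (hS.meas_d2 hs (hx.add hr))
  have h3 := fun i => measurable_Gd i ha hr (hσ.sub (hS.meas_ch ht hx hr))
  exact (((((h1.const_mul (-2)).mul (hr.neg.div (ha.const_mul 2))).mul (h3 (j + 1))).add
    ((h1.pow_const 2).mul (h3 (j + 2)))).sub (h2.mul (h3 (j + 1)))).const_mul ν

theorem meas_nI (hS : Sheet ρ L M₀ T φ γ) (ν : ℝ) {Ω Θ : ℝ → ℝ → ℝ → ℝ}
    (hΩ : Measurable fun p : ℝ × ℝ × ℝ => Ω p.1 p.2.1 p.2.2)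
    (hΘ : Measurable fun p : ℝ × ℝ × ℝ => Θ p.1 p.2.1 p.2.2) (j : ℕ)
    {κ t s η x : Λ → ℝ} {p : Λ → ℝ × ℝ} (hκ : Measurable κ) (ht : Measurable t)
    (hs : Measurable s) (hη : Measurable η) (hx : Measurable x) (hp : Measurable p) :
    Measurable fun l => nI φ γ ν Ω Θ j (κ l) (t l) (s l) (η l) (x l) (p l) := by
  have ha := Meas_aa ν hκ ht hs
  exact ((measurable_Gd j ha hp.fst ((hη.sub hp.snd).sub (hS.meas_ch ht hx hp.fst))).neg.mul
    (meas_FF hS hΩ hΘ hs hp.snd (hx.add hp.fst))).add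
    ((meas_Rk hS ν j ha ht hs hx hp.fst (hη.sub hp.snd)).mul (meas3 hΩ hs hp.snd (hx.add hp.fst)))

theorem meas_Nk (hS : Sheet ρ L M₀ T φ γ) (ν : ℝ) {Ω Θ : ℝ → ℝ → ℝ → ℝ}
    (hΩ : Measurable fun p : ℝ × ℝ × ℝ => Ω p.1 p.2.1 p.2.2)
    (hΘ : Measurable fun p : ℝ × ℝ × ℝ => Θ p.1 p.2.1 p.2.2) (j : ℕ)
    {κ t s η x : Λ → ℝ} (hκ : Measurable κ) (ht : Measurable t)
    (hs : Measurable s) (hη : Measurable η) (hx : Measurable x) :
    Measurable fun l => Nk φ γ ν Ω Θ j (κ l) (t l) (s l) (η l) (x l) :=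
  Meas_int (meas_nI hS ν hΩ hΘ j (hκ.comp measurable_fst) (ht.comp measurable_fst)
    (hs.comp measurable_fst) (hη.comp measurable_fst) (hx.comp measurable_fst) measurable_snd)

theorem meas_Ak (hS : Sheet ρ L M₀ T φ γ) (ν : ℝ) (j : ℕ)
    {κ t η x : Λ → ℝ} (hκ : Measurable κ) (ht : Measurable t)
    (hη : Measurable η) (hx : Measurable x) :
    Measurable fun l => Ak φ γ ν j (κ l) (t l) (η l) (x l) :=
  Meas_int ((measurable_Gd j (((ht.comp measurable_fst).const_mul ν).add (hκ.comp measurable_fst))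
    measurable_snd ((hη.comp measurable_fst).sub (hS.meas_ch (ht.comp measurable_fst)
      (hx.comp measurable_fst) measurable_snd))).mul
    (hS.measγ measurable_const ((hx.comp measurable_fst).add measurable_snd)))

theorem meas_Om (hS : Sheet ρ L M₀ T φ γ) (ν : ℝ) {Ω Θ : ℝ → ℝ → ℝ → ℝ}
    (hΩ : Measurable fun p : ℝ × ℝ × ℝ => Ω p.1 p.2.1 p.2.2)
    (hΘ : Measurable fun p : ℝ × ℝ × ℝ => Θ p.1 p.2.1 p.2.2) (j : ℕ)
    {κ t η x : Λ → ℝ} (hκ : Measurable κ) (ht : Measurable t)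
    (hη : Measurable η) (hx : Measurable x) :
    Measurable fun l => Om φ γ ν Ω Θ j (κ l) (t l) (η l) (x l) := by
  refine (meas_Ak hS ν j hκ ht hη hx).add ?_
  simp only [← integral_indicator measurableSet_Ioo]
  refine Meas_int ?_
  have h1 : MeasurableSet {q : Λ × ℝ | 0 < q.2 ∧ q.2 < t q.1} :=
    (measurableSet_lt measurable_const measurable_snd).inter
      (measurableSet_lt measurable_snd (ht.comp measurable_fst))
  exact (meas_Nk hS ν hΩ hΘ j (hκ.comp measurable_fst) (ht.comp measurable_fst) measurable_snd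
    (hη.comp measurable_fst) (hx.comp measurable_fst)).indicator h1

theorem meas_Kw (hS : Sheet ρ L M₀ T φ γ) (ν : ℝ)
    {κ t s η x : Λ → ℝ} {p : Λ → ℝ × ℝ} {w : Λ → ℂ} (hκ : Measurable κ) (ht : Measurable t)
    (hs : Measurable s) (hη : Measurable η) (hx : Measurable x) (hp : Measurable p)
    (hw : Measurable w) :
    Measurable fun l => Kw φ γ ν (κ l) (t l) (s l) (η l) (x l) (p l) (w l) := by
  have ha := Meas_aa ν hκ ht hs
  have h3 := fun i => measurable_Gd i ha hp.fst ((hη.sub hp.snd).sub (hS.meas_ch ht hx hp.fst))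
  exact (((Complex.measurable_re.comp hw).mul (((hp.fst.neg.div (ha.const_mul 2)).mul (h3 0)).sub
    ((hS.meas_d1 ht (hx.add hp.fst)).mul (h3 1)))).sub
    ((meas_vof hS hs (hx.add hp.fst) hw).mul (h3 1))).add
    (meas_Rk hS ν 0 ha ht hs hx hp.fst (hη.sub hp.snd))

theorem meas_smo (hS : Sheet ρ L M₀ T φ γ) {Ω : ℝ → ℝ → ℝ → ℝ}
    (hΩ : Measurable fun p : ℝ × ℝ × ℝ => Ω p.1 p.2.1 p.2.2) {κ t η x : Λ → ℝ}
    (hκ : Measurable κ) (ht : Measurable t) (hη : Measurable η) (hx : Measurable x) :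
    Measurable fun l => smo (φ (t l)) (κ l) (Ω (t l)) (η l) (x l) :=
  Meas_int ((measurable_G (hκ.comp measurable_fst) measurable_snd.fst
    (((hη.comp measurable_fst).sub measurable_snd.snd).sub (hS.meas_ch (ht.comp measurable_fst)
      (hx.comp measurable_fst) measurable_snd.fst))).mul
    (meas3 hΩ (ht.comp measurable_fst) measurable_snd.snd
      ((hx.comp measurable_fst).add measurable_snd.fst)))

theorem meas_Dw (hS : Sheet ρ L M₀ T φ γ) {Ω : ℝ → ℝ → ℝ → ℝ}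
    (hΩ : Measurable fun p : ℝ × ℝ × ℝ => Ω p.1 p.2.1 p.2.2) {s η x : Λ → ℝ}
    (hs : Measurable s) (hη : Measurable η) (hx : Measurable x) :
    Measurable fun l => Dw (φ (s l)) (Ω (s l)) (η l) (x l) := by
  have h1 : Measurable fun q : Λ × (ℝ × ℝ) => ch (φ (s q.1)) (x q.1) q.2.1 :=
    hS.meas_ch (hs.comp measurable_fst) (hx.comp measurable_fst) measurable_snd.fst
  have h2 : Measurable fun q : Λ × (ℝ × ℝ) =>
      sarg q.2.1 (η q.1 - q.2.2) (ch (φ (s q.1)) (x q.1) q.2.1) := by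
    unfold sarg
    fun_prop
  exact Measurable.lintegral_prod_right' ((measurable_kc.comp h2).enorm.mul
    (meas3 hΩ (hs.comp measurable_fst) measurable_snd.snd
      ((hx.comp measurable_fst).add measurable_snd.fst)).enorm)

end Pool.Agent.Lib.MP_3d41d4_an
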