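import Pool.Agent.Lib.MP_3d41d4_an.SheetF
import Pool.Agent.Lib.MP_3d41d4_an.Gcalc

open MeasureTheory Set Filter Topology Real
open scoped ENNReal

namespace Pool.Agent.Lib.MP_3d41d4_an

variable {ρ L M₀ T : ℝ} {φ γ : ℝ → ℝ → ℝ}

variable {Λ : Type} [MeasurableSpace Λ]

theorem Meas0_int {E : Type} [NormedAddCommGroup E] [NormedSpace ℝ E] [MeasurableSpace E]
    [BorelSpace E] [SecondCountableTopology E] {F : Λ → ℝ → E}
    (hF : Measurable fun p : Λ × ℝ => F p.1 p.2) : Measurable fun l => ∫ η, F l η :=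
  (hF.stronglyMeasurable.integral_prod_right' (ν := volume)).measurable

theorem Meas0_sign : Measurable Real.sign := by
  unfold Real.sign
  exact Measurable.ite measurableSet_Iio measurable_const
    (Measurable.ite measurableSet_Ioi measurable_const measurable_const)

theorem meas3 {E : Type} [MeasurableSpace E] {Ω : ℝ → ℝ → ℝ → E}
    (hΩ : Measurable fun p : ℝ × ℝ × ℝ => Ω p.1 p.2.1 p.2.2) {s η x : Λ → ℝ}
    (hs : Measurable s) (hη : Measurable η) (hx : Measurable x) :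
    Measurable fun l => Ω (s l) (η l) (x l) := hΩ.comp (hs.prodMk (hη.prodMk hx))

theorem meas_wt (hS : Sheet ρ L M₀ T φ γ) {Ω : ℝ → ℝ → ℝ → ℝ}
    (hΩ : Measurable fun p : ℝ × ℝ × ℝ => Ω p.1 p.2.1 p.2.2) {s η x : Λ → ℝ}
    (hs : Measurable s) (hη : Measurable η) (hx : Measurable x) :
    Measurable fun l => wt φ Ω (s l) (η l) (x l) :=
  Meas0_int (F := fun l η' => bs (φ (s l)) (η l - η') (Ω (s l) η') (x l))
    (measurable_bs (φ := fun p : Λ × ℝ => φ (s p.1)) (f := fun p : Λ × ℝ => Ω (s p.1) p.2)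
      (hS.measφ (by fun_prop) (by fun_prop)) (meas3 hΩ (by fun_prop) (by fun_prop) (by fun_prop))
      (by fun_prop) (by fun_prop))

theorem meas_u1 (hS : Sheet ρ L M₀ T φ γ) {Ω : ℝ → ℝ → ℝ → ℝ}
    (hΩ : Measurable fun p : ℝ × ℝ × ℝ => Ω p.1 p.2.1 p.2.2) {s η x : Λ → ℝ}
    (hs : Measurable s) (hη : Measurable η) (hx : Measurable x) :
    Measurable fun l => u1 φ Ω (s l) (η l) (x l) :=
  Complex.measurable_re.comp (meas_wt hS hΩ hs hη hx)

theorem meas_vof (hS : Sheet ρ L M₀ T φ γ) {s x : Λ → ℝ} {w : Λ → ℂ}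
    (hs : Measurable s) (hx : Measurable x) (hw : Measurable w) :
    Measurable fun l => vof φ γ (s l) (x l) (w l) :=
  (Complex.measurable_im.comp ((hS.meas_zp hs hx).mul hw)).neg.sub (hS.meas_pt hs hx)

theorem meas_vv (hS : Sheet ρ L M₀ T φ γ) {Ω : ℝ → ℝ → ℝ → ℝ}
    (hΩ : Measurable fun p : ℝ × ℝ × ℝ => Ω p.1 p.2.1 p.2.2) {s η x : Λ → ℝ}
    (hs : Measurable s) (hη : Measurable η) (hx : Measurable x) :
    Measurable fun l => vv φ γ Ω (s l) (η l) (x l) :=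
  meas_vof hS hs hx (meas_wt hS hΩ hs hη hx)

theorem meas_dxΩ {Ω : ℝ → ℝ → ℝ → ℝ}
    (hΩ : Measurable fun p : ℝ × ℝ × ℝ => Ω p.1 p.2.1 p.2.2) {s η x : Λ → ℝ}
    (hs : Measurable s) (hη : Measurable η) (hx : Measurable x) :
    Measurable fun l => dx (Ω (s l) (η l)) (x l) := by
  have h2 : Measurable fun p : Λ × ℝ => Ω (s p.1) (η p.1) p.2 :=
    meas3 hΩ (by fun_prop) (by fun_prop) (by fun_prop)
  have h3 := measurable_dx (F := fun l => Ω (s l) (η l)) h2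
  have h4 : Measurable fun l : Λ => (l, x l) := measurable_id.prodMk hx
  simpa only [Function.comp_def] using h3.comp h4

theorem meas_FF (hS : Sheet ρ L M₀ T φ γ) {Ω Θ : ℝ → ℝ → ℝ → ℝ}
    (hΩ : Measurable fun p : ℝ × ℝ × ℝ => Ω p.1 p.2.1 p.2.2)
    (hΘ : Measurable fun p : ℝ × ℝ × ℝ => Θ p.1 p.2.1 p.2.2) {s η x : Λ → ℝ}
    (hs : Measurable s) (hη : Measurable η) (hx : Measurable x) :
    Measurable fun l => FF φ γ Ω Θ (s l) (η l) (x l) :=
  ((meas_u1 hS hΩ hs hη hx).mul (meas_dxΩ hΩ hs hη hx)).add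
    ((meas_vv hS hΩ hs hη hx).mul (meas3 hΘ hs hη hx))

theorem meas_SS {Ω : ℝ → ℝ → ℝ → ℝ}
    (hΩ : Measurable fun p : ℝ × ℝ × ℝ => Ω p.1 p.2.1 p.2.2) {s x : Λ → ℝ}
    (hs : Measurable s) (hx : Measurable x) : Measurable fun l => SS Ω (s l) (x l) :=
  Meas0_int (F := fun l η => Ω (s l) η (x l))
    (meas3 hΩ (by fun_prop) (by fun_prop) (by fun_prop))

theorem meas_intFF (hS : Sheet ρ L M₀ T φ γ) {Ω Θ : ℝ → ℝ → ℝ → ℝ}
    (hΩ : Measurable fun p : ℝ × ℝ × ℝ => Ω p.1 p.2.1 p.2.2)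
    (hΘ : Measurable fun p : ℝ × ℝ × ℝ => Θ p.1 p.2.1 p.2.2) {s x : Λ → ℝ}
    (hs : Measurable s) (hx : Measurable x) :
    Measurable fun l => ∫ η, FF φ γ Ω Θ (s l) η (x l) :=
  Meas0_int (F := fun l η => FF φ γ Ω Θ (s l) η (x l))
    (meas_FF hS hΩ hΘ (by fun_prop) (by fun_prop) (by fun_prop))

theorem meas_wtil (hS : Sheet ρ L M₀ T φ γ) {Ω : ℝ → ℝ → ℝ → ℝ}
    (hΩ : Measurable fun p : ℝ × ℝ × ℝ => Ω p.1 p.2.1 p.2.2) {s σ η x : Λ → ℝ}
    (hs : Measurable s) (hσ : Measurable σ) (hη : Measurable η) (hx : Measurable x) :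
    Measurable fun l => wtil (φ (s l)) (σ l) (Ω (s l) (η l)) (x l) := by
  have h1 : Measurable fun p : Λ × ℝ => φ (s p.1) p.2 := hS.measφ (by fun_prop) (by fun_prop)
  have h2 : Measurable fun p : Λ × ℝ => Ω (s p.1) (η p.1) p.2 :=
    meas3 hΩ (by fun_prop) (by fun_prop) (by fun_prop)
  exact ((measurable_bs (φ := fun l => φ (s l)) (f := fun l => Ω (s l) (η l)) h1 h2 hσ hx).sub
    (measurable_pv (φ := fun l => φ (s l)) (f := fun l => Ω (s l) (η l)) h1 h2 hx)).add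
    ((Complex.measurable_ofReal.comp ((Meas0_sign.comp hσ).mul (meas3 hΩ hs hη hx))).div
      ((hS.meas_zp hs hx).const_mul 2))

theorem meas_ZZ (hS : Sheet ρ L M₀ T φ γ) {Ω : ℝ → ℝ → ℝ → ℝ}
    (hΩ : Measurable fun p : ℝ × ℝ × ℝ => Ω p.1 p.2.1 p.2.2) {s η x : Λ → ℝ}
    (hs : Measurable s) (hη : Measurable η) (hx : Measurable x) :
    Measurable fun l => ZZ φ Ω (s l) (η l) (x l) :=
  Meas0_int (F := fun l η' => wtil (φ (s l)) (η l - η') (Ω (s l) η') (x l))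
    (meas_wtil hS hΩ (by fun_prop) (by fun_prop) (by fun_prop) (by fun_prop))

end Pool.Agent.Lib.MP_3d41d4_an
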