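import Pool.Agent.Lib.MP_3d41d4_an.RK0

open MeasureTheory Set Filter Topology Real
open scoped ENNReal

namespace Pool.Agent.Lib.MP_3d41d4_an

variable {ρ L M₀ T : ℝ} {φ γ : ℝ → ℝ → ℝ}

theorem RK_lin {A B d K Q L : ℝ} {z : ℂ} (hA : |A| ≤ K * Q) (hB : |B| ≤ K * Q) (hd : |d| ≤ L)
    (hz : ‖z‖ ≤ 1 + L) (w : ℂ) :
    |w.re * (A - d * B) + (z * w).im * B| ≤ 2 * (1 + L) * K * Q * ‖w‖ := by
  have h0 := abs_nonneg B
  have hL := (abs_nonneg d).trans hd
  have h1 : |A - d * B| ≤ (1 + L) * (K * Q) := by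
    refine (abs_sub _ _).trans ?_
    rw [abs_mul]
    have := mul_le_mul hd hB h0 hL
    linarith
  have h2 : |(z * w).im| ≤ (1 + L) * ‖w‖ := by
    refine (Complex.abs_im_le_norm _).trans ?_
    rw [norm_mul]
    exact mul_le_mul_of_nonneg_right hz (norm_nonneg _)
  refine (abs_add_le _ _).trans ?_
  rw [abs_mul, abs_mul]
  have h3 := mul_le_mul (Complex.abs_re_le_norm w) h1 (abs_nonneg _) (norm_nonneg _)
  have h4 := mul_le_mul h2 hB h0 (by positivity)
  linarith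

/-- Pointwise bounds for the weak kernel. -/
theorem Kw_le (hS : Sheet ρ L M₀ T φ γ) : ∃ C : ℝ, 0 < C ∧ ∀ ν κ t s : ℝ, 0 < ν → ν ≤ 1 →
    0 ≤ κ → κ ≤ 1 → 0 ≤ s → s < t → t ≤ 1 → ∀ (η x : ℝ) (p : ℝ × ℝ) (w w' : ℂ),
      |Kw φ γ ν κ t s η x p w| ≤ C * (1 / √(aa ν κ t s)) * (1 + ‖w‖) *
          (gs (cg L) (aa ν κ t s) p.1 * gs (cg L) (aa ν κ t s) (η - p.2)) ∧
      |Kw φ γ ν κ t s η x p w - Kw φ γ ν κ t s η x p w'| ≤ C * (1 / √(aa ν κ t s)) * ‖w - w'‖ *
          (gs (cg L) (aa ν κ t s) p.1 * gs (cg L) (aa ν κ t s) (η - p.2)) := by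
  obtain ⟨Cg, hCg, hg⟩ := Gd_WR ρ L
  obtain ⟨Cr, hCr, hr⟩ := Rk_WR hS
  obtain ⟨Cs, hCs, hs⟩ := hS.bounds
  have hL := (hS.curve 0).one_le
  have hρ := hS.ρ_pos.le
  refine ⟨2 * (1 + L) * (4 * Cg) + (16 * Cs * Cg + 8 * Cr), by positivity,
    fun ν κ t s hν hν1 hκ hκ1 hs0 hst ht1 η x p w w' => ?_⟩
  have hR := (hr ν κ t s hν hν1 hκ hκ1 hs0 hst ht1 0 zero_le_one p.1 (η - p.2)).abs_le hρ
    (by norm_num) x
  have ha0 : 0 < aa ν κ t s := add_pos_of_pos_of_nonneg (mul_pos hν (sub_pos.2 hst)) hκ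
  have ha2 : aa ν κ t s ≤ 2 := by
    have := mul_le_mul hν1 (by linarith : t - s ≤ 1) (by linarith) zero_le_one
    unfold aa
    linarith
  unfold Kw vof
  generalize aa ν κ t s = a at hR ha0 ha2 ⊢
  have hA := (hg _ (hS.curve t) a ha0 1 le_rfl 0 (by norm_num) p.1 (η - p.2)).abs_le hρ
    (by norm_num) x
  have hB := (hg _ (hS.curve t) a ha0 0 zero_le_one 1 (by norm_num) p.1 (η - p.2)).abs_le hρ
    (by norm_num) x
  have hP := (hs s).2.1.abs_le hρ (by norm_num) (x + p.1)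
  have hd := (hS.curve t).abs_deriv_le (x + p.1)
  have hz := (hS.curve s).norm_zp_le (x + p.1)
  simp only [pow_zero, pow_one, one_mul, mul_one, add_zero, zero_add] at hA hB hR
  have hq : 1 ≤ 2 * (1 / √a) := by
    rw [mul_one_div, one_le_div (Real.sqrt_pos.2 ha0)]
    exact Real.sqrt_le_iff.2 ⟨zero_le_two, by linarith⟩
  have g1 := gs_nonneg (cg L) a p.1
  have g2 := gs_nonneg (cg L) a (η - p.2)
  generalize gs (cg L) a p.1 = u at *
  generalize gs (cg L) a (η - p.2) = v at *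
  generalize 1 / √a = q at *
  generalize -p.1 / (2 * a) * Gd 0 a p.1 (η - p.2 - ch (φ t) x p.1) = A at *
  generalize Gd 1 a p.1 (η - p.2 - ch (φ t) x p.1) = B at *
  generalize Rk φ ν 0 a t s x p.1 (η - p.2) = R at *
  generalize pt φ γ s (x + p.1) = P at *
  generalize deriv (φ t) (x + p.1) = d at *
  generalize zp (φ s) (x + p.1) = z at *
  have hq0 : 0 ≤ q := by linarith
  have hQ : 0 ≤ q * (u * v) := by positivity
  have hA' : |A| ≤ 4 * Cg * (q * (u * v)) := hA.trans_eq (by ring)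
  have hB' : |B| ≤ 4 * Cg * (q * (u * v)) := hB.trans_eq (by ring)
  have hE : 0 ≤ (16 * Cs * Cg + 8 * Cr) * (q * (u * v)) := by positivity
  constructor
  · have e : w.re * (A - d * B) - (-(z * w).im - P) * B + R =
        w.re * (A - d * B) + (z * w).im * B + (P * B + R) := by ring
    have h1 := RK_lin hA' hB' hd hz w
    have h2 : |P * B| ≤ 4 * Cs * (4 * Cg * (q * (u * v))) := by
      rw [abs_mul]
      exact mul_le_mul hP hB' (abs_nonneg _) (by positivity)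
    have h3 := mul_le_mul_of_nonneg_left hq (by positivity : 0 ≤ 4 * Cr * (u * v))
    have h4 := mul_nonneg hE (norm_nonneg w)
    have h5 : 0 ≤ 2 * (1 + L) * (4 * Cg) * (q * (u * v)) := by positivity
    have h6 := abs_add_le (w.re * (A - d * B) + (z * w).im * B) (P * B + R)
    have h7 := abs_add_le (P * B) R
    rw [e]
    linarith
  · have e : w.re * (A - d * B) - (-(z * w).im - P) * B + R -
        (w'.re * (A - d * B) - (-(z * w').im - P) * B + R) =
        (w - w').re * (A - d * B) + (z * (w - w')).im * B := by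
      rw [mul_sub z, Complex.sub_re, Complex.sub_im]
      ring
    have h1 := RK_lin hA' hB' hd hz (w - w')
    have h4 := mul_nonneg hE (norm_nonneg (w - w'))
    rw [e]
    linarith

end Pool.Agent.Lib.MP_3d41d4_an
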