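import Pool.Agent.Lib.MP_3d41d4_an.Vel
import Pool.Agent.Lib.MP_3d41d4_an.RK
import Pool.Agent.Lib.MP_3d41d4_an.Gauss2

open MeasureTheory Set Filter Topology Real
open scoped ENNReal

namespace Pool.Agent.Lib.MP_3d41d4_an

variable {ρ L M₀ T : ℝ} {φ γ : ℝ → ℝ → ℝ}

theorem NB0_aa_pos {ν κ t s : ℝ} (hν : 0 < ν) (hκ : 0 ≤ κ) (hst : s < t) : 0 < aa ν κ t s := by
  unfold aa
  have := mul_pos hν (sub_pos.mpr hst)
  linarith

theorem nI_WR (hS : Sheet ρ L M₀ T φ γ) (M : ℝ) : ∃ C : ℝ, 0 < C ∧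
    ∀ {β T' ν : ℝ} {Ω Θ : ℝ → ℝ → ℝ → ℝ}, Par ρ L T β T' ν → Inv ρ L β T' ν M γ Ω Θ →
      ∀ κ ∈ Icc (0 : ℝ) 1, ∀ t ∈ Ioc 0 T', ∀ s ∈ Ioo 0 t, ∀ j ≤ 1, ∀ (η : ℝ) (p : ℝ × ℝ),
        WR (ρ - β * s) 2 (C * (1 / √(aa ν κ t s)) ^ j * (gs (cg L) (aa ν κ t s) p.1 *
            (gs (cg L) (aa ν κ t s) (η - p.2) * gs (mm L β s) (ν * s) p.2)))
          fun x => nI φ γ ν Ω Θ j κ t s η x p := by
  obtain ⟨C1, hC1, H1⟩ := Gd_WR ρ L
  obtain ⟨C2, hC2, H2⟩ := FF_WR hS M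
  obtain ⟨C3, hC3, H3⟩ := Rk_WR hS
  refine ⟨64 * C1 * C2 + 64 * C3 * (|M| + 1), by positivity, ?_⟩
  intro β T' ν Ω Θ hP hI κ hκ t ht s hs j hj η p
  have ha : 0 < aa ν κ t s := NB0_aa_pos hP.ν_pos hκ.1 hs.2
  have hsT : s ≤ T' := hs.2.le.trans ht.2
  have hsI : s ∈ Ioc 0 T' := ⟨hs.1, hsT⟩
  have hrad : ρ - β * s ≤ ρ := hP.rad_le hs.1.le
  have hpos : 0 ≤ ρ - β * s := (hP.rad_pos hsT).le
  have A1 := H1 (φ t) (hS.curve t) (aa ν κ t s) ha 0 (by norm_num) j (by omega) p.1 (η - p.2)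
  simp only [pow_zero, one_mul, zero_add] at A1
  have A1' := (A1.mono hrad (show 2 ≤ 4 by norm_num) le_rfl).neg
  have A2 := (H2 hP hI s hsI p.2).shift p.1
  have A3 := (H3 ν κ t s hP.ν_pos hP.ν_le hκ.1 hκ.2 hs.1.le hs.2 (ht.2.trans hP.T'_le_one) j hj
    p.1 (η - p.2)).mono hrad (show 2 ≤ 4 by norm_num) le_rfl
  have g3 : 0 ≤ gs (mm L β s) (ν * s) p.2 := gs_nonneg _ _ _
  have A4 : WR (ρ - β * s) 2 ((|M| + 1) * gs (mm L β s) (ν * s) p.2)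
      (fun x => Ω s p.2 (x + p.1)) := by
    refine ((hI.w0 s hsI p.2).shift p.1).mono le_rfl (show 2 ≤ 3 by norm_num) ?_
    exact mul_le_mul_of_nonneg_right ((le_abs_self M).trans (by linarith)) g3
  have B1 := WR.mul hpos le_rfl (by norm_num) A1' A2
  have B2 := WR.mul hpos le_rfl (by norm_num) A3 A4
  have B := B1.add B2
  refine B.mono le_rfl le_rfl (le_of_eq ?_)
  ring

theorem nI_integrable (hS : Sheet ρ L M₀ T φ γ) {β T' ν M : ℝ} {Ω Θ : ℝ → ℝ → ℝ → ℝ}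
    (hP : Par ρ L T β T' ν) (hI : Inv ρ L β T' ν M γ Ω Θ)
    {κ t s : ℝ} (hκ : κ ∈ Icc (0 : ℝ) 1) (ht : t ∈ Ioc 0 T') (hs : s ∈ Ioo 0 t) {j : ℕ}
    (hj : j ≤ 1) (η x : ℝ) : Integrable (nI φ γ ν Ω Θ j κ t s η x) := by
  obtain ⟨C, hC, H⟩ := nI_WR hS M
  have ha : 0 < aa ν κ t s := NB0_aa_pos hP.ν_pos hκ.1 hs.2
  have hsT : s ≤ T' := hs.2.le.trans ht.2
  have hpos : 0 ≤ ρ - β * s := (hP.rad_pos hsT).le
  have hcg := cg_pos L
  have hm0 : 0 < mm L β s := lt_of_lt_of_le (by linarith) (hP.mm_ge hsT)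
  have hm1 : mm L β s ≤ cg L := (hP.mm_le hs.1.le).trans (by linarith)
  have hνs : 0 < ν * s := mul_pos hP.ν_pos hs.1
  have hmeas : Measurable (nI φ γ ν Ω Θ j κ t s η x) :=
    meas_nI (Λ := ℝ × ℝ) hS ν hI.measΩ hI.measΘ j (κ := fun _ => κ) (t := fun _ => t)
      (s := fun _ => s) (η := fun _ => η) (x := fun _ => x) (p := fun p => p)
      measurable_const measurable_const measurable_const measurable_const measurable_const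
      measurable_id
  have I1 : Integrable (gs (cg L) (aa ν κ t s)) := integrable_gs hcg ha
  have I2 := integrable_gs_conv hm0 ha hνs η
  have I3 : Integrable (fun p : ℝ × ℝ => gs (cg L) (aa ν κ t s) p.1 *
      (gs (mm L β s) (aa ν κ t s) (η - p.2) * gs (mm L β s) (ν * s) p.2)) :=
    I1.mul_prod I2
  refine (I3.const_mul (4 * (C * (1 / √(aa ν κ t s)) ^ j))).mono' hmeas.aestronglyMeasurable
    (Eventually.of_forall fun p => ?_)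
  have h1 := (H hP hI κ hκ t ht s hs j hj η p).abs_le hpos le_rfl x
  rw [Real.norm_eq_abs]
  refine h1.trans ?_
  have g1 : 0 ≤ gs (cg L) (aa ν κ t s) p.1 := gs_nonneg _ _ _
  have g3 : 0 ≤ gs (mm L β s) (ν * s) p.2 := gs_nonneg _ _ _
  have g2 : gs (cg L) (aa ν κ t s) (η - p.2) ≤ gs (mm L β s) (aa ν κ t s) (η - p.2) :=
    gs_anti hm1 ha _
  have hK : 0 ≤ C * (1 / √(aa ν κ t s)) ^ j := by positivity
  rw [← mul_assoc]
  gcongr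

end Pool.Agent.Lib.MP_3d41d4_an
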