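import Pool.Agent.Lib.MP_3d41d4_an.WInv

open MeasureTheory Set Filter Topology Real
open scoped ENNReal

namespace Pool.Agent.Lib.MP_3d41d4_an

set_option linter.unusedSectionVars false

variable {Λ : Type} [MeasurableSpace Λ] {μ : Measure Λ} [SFinite μ]
variable {w : ℤ → ℝ} {n : ℕ} {ρ M : ℝ}

theorem WInt_slice {f : Λ → ℝ → ℂ} (hf : Measurable fun p : Λ × ℝ => f p.1 p.2) (x : ℝ) :
    AEStronglyMeasurable (fun a => f a x) μ :=
  (hf.comp (measurable_id.prodMk measurable_const)).aestronglyMeasurable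

theorem WInt_norm_exp (k : ℤ) (x : ℝ) :
    ‖Complex.exp (-((k : ℂ) * (x : ℂ) * Complex.I))‖ = 1 := by
  have : -((k : ℂ) * (x : ℂ) * Complex.I) = ((-(k * x) : ℝ) : ℂ) * Complex.I := by
    push_cast
    ring
  rw [this, Complex.norm_exp_ofReal_mul_I]

/-- Core lemma: parameter integrals of continuous periodic functions with an integrable sup
bound. -/
theorem fc_integral {f : Λ → ℝ → ℂ} (hf : Measurable fun p : Λ × ℝ => f p.1 p.2) {m : Λ → ℝ}
    (hm : Integrable m μ)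
    (h : ∀ᵐ a ∂μ, Continuous (f a) ∧ Function.Periodic (f a) (2 * π) ∧ ∀ x, ‖f a x‖ ≤ m a) :
    (Continuous fun x => ∫ a, f a x ∂μ) ∧ Function.Periodic (fun x => ∫ a, f a x ∂μ) (2 * π) ∧
      ∀ k, Integrable (fun a => fc (f a) k) μ ∧
        fc (fun x => ∫ a, f a x ∂μ) k = ∫ a, fc (f a) k ∂μ := by
  refine ⟨continuous_of_dominated (WInt_slice hf) (fun x => h.mono fun a ha => ha.2.2 x) hm
    (h.mono fun a ha => ha.1), fun x => integral_congr_ae (h.mono fun a ha => ha.2.1 x),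
    fun k => ?_⟩
  have hpi : (0 : ℝ) ≤ 2 * π := by positivity
  set g : Λ → ℝ → ℂ := fun a x => f a x * Complex.exp (-((k : ℂ) * (x : ℂ) * Complex.I)) with hg
  have hgm : Measurable (Function.uncurry g) := by
    refine hf.mul ?_
    fun_prop
  have hgi : Integrable (Function.uncurry g) (μ.prod (volume.restrict (Ioc 0 (2 * π)))) := by
    refine Integrable.mono' (g := fun p => m p.1 * (fun _ : ℝ => (1 : ℝ)) p.2)
      (hm.mul_prod (integrable_const _)) hgm.aestronglyMeasurable ?_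
    filter_upwards [Measure.quasiMeasurePreserving_fst.ae h] with p hp
    simp only [Function.uncurry, hg, norm_mul, WInt_norm_exp]
    exact mul_le_mul_of_nonneg_right (hp.2.2 _) zero_le_one
  have e : ∀ u : ℝ → ℂ, fc u k = (1 / (2 * π) : ℂ) * ∫ x in Ioc 0 (2 * π),
      u x * Complex.exp (-((k : ℂ) * (x : ℂ) * Complex.I)) := fun u => by
    rw [← intervalIntegral.integral_of_le hpi]
    rfl
  simp only [e]
  refine ⟨hgi.integral_prod_left.const_mul _, ?_⟩
  rw [integral_const_mul, integral_integral_swap hgi]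
  simp only [hg, integral_mul_const]

theorem Wg.integrable (hs : Summable (wgt w n)) {f : Λ → ℝ → ℂ}
    (hf : Measurable fun p : Λ × ℝ => f p.1 p.2) {m : Λ → ℝ} (hm : Integrable m μ)
    (h : ∀ᵐ a ∂μ, Wg w n (m a) (f a)) (x : ℝ) : Integrable (fun a => f a x) μ :=
  Integrable.mono' (hm.mul_const (∑' k, wgt w n k)) (WInt_slice hf x)
    (h.mono fun _ ha => ha.norm_le hs x)

theorem Wg.integral (hs : Summable (wgt w n)) {f : Λ → ℝ → ℂ}
    (hf : Measurable fun p : Λ × ℝ => f p.1 p.2) {m : Λ → ℝ} (hm : Integrable m μ)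
    (h : ∀ᵐ a ∂μ, Wg w n (m a) (f a)) :
    Wg w n (∫ a, m a ∂μ) fun x => ∫ a, f a x ∂μ := by
  obtain ⟨h1, h2, h3⟩ := fc_integral hf (hm.mul_const (∑' k, wgt w n k))
    (h.mono fun _ ha => ⟨ha.1, ha.2.1, ha.norm_le hs⟩)
  refine ⟨h1, h2, fun k => ?_⟩
  rw [(h3 k).2, ← integral_mul_const]
  exact norm_integral_le_of_norm_le (hm.mul_const _) (h.mono fun a ha => ha.2.2 k)

theorem W.integrable (hρ : 0 < ρ) {f : Λ → ℝ → ℂ}
    (hf : Measurable fun p : Λ × ℝ => f p.1 p.2) {m : Λ → ℝ} (hm : Integrable m μ)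
    (h : ∀ᵐ a ∂μ, W ρ n (m a) (f a)) (x : ℝ) : Integrable (fun a => f a x) μ :=
  Wg.integrable (summable_wgt_of_pos hρ n) hf hm h x

theorem W.integral (hρ : 0 < ρ) {f : Λ → ℝ → ℂ}
    (hf : Measurable fun p : Λ × ℝ => f p.1 p.2) {m : Λ → ℝ} (hm : Integrable m μ)
    (h : ∀ᵐ a ∂μ, W ρ n (m a) (f a)) :
    W ρ n (∫ a, m a ∂μ) fun x => ∫ a, f a x ∂μ :=
  Wg.integral (summable_wgt_of_pos hρ n) hf hm h

theorem WR.integrable (hρ : 0 < ρ) {f : Λ → ℝ → ℝ}
    (hf : Measurable fun p : Λ × ℝ => f p.1 p.2) {m : Λ → ℝ} (hm : Integrable m μ)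
    (h : ∀ᵐ a ∂μ, WR ρ n (m a) (f a)) (x : ℝ) : Integrable (fun a => f a x) μ := by
  have := (W.integrable (f := fun a x => (f a x : ℂ)) hρ (Complex.measurable_ofReal.comp hf)
    hm h x).re
  simpa using this

theorem WR.integral (hρ : 0 < ρ) {f : Λ → ℝ → ℝ}
    (hf : Measurable fun p : Λ × ℝ => f p.1 p.2) {m : Λ → ℝ} (hm : Integrable m μ)
    (h : ∀ᵐ a ∂μ, WR ρ n (m a) (f a)) :
    WR ρ n (∫ a, m a ∂μ) fun x => ∫ a, f a x ∂μ := by
  have := W.integral (f := fun a x => (f a x : ℂ)) hρ (Complex.measurable_ofReal.comp hf) hm h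
  unfold WR
  simpa only [integral_complex_ofReal] using this

theorem WInt_exp_int {b t : ℝ} (ht : 0 < t) (hb : 0 ≤ b) :
    ∫ s in Ioo 0 t, Real.exp (-(b * (t - s))) ≤ t ∧
      b * ∫ s in Ioo 0 t, Real.exp (-(b * (t - s))) ≤ 1 := by
  rw [← integral_Ioc_eq_integral_Ioo, ← intervalIntegral.integral_of_le ht.le]
  constructor
  · have := intervalIntegral.integral_mono_on (μ := volume) ht.le
      (f := fun s => Real.exp (-(b * (t - s)))) (g := fun _ => (1 : ℝ))
      (Continuous.intervalIntegrable (by fun_prop) _ _) (by simp) (fun s hs =>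
        Real.exp_le_one_iff.2 (neg_nonpos.2 (mul_nonneg hb (sub_nonneg.2 hs.2))))
    simpa using this
  · rw [← intervalIntegral.integral_const_mul,
      intervalIntegral.integral_eq_sub_of_hasDerivAt (f := fun s => Real.exp (-(b * (t - s))))
        (fun s _ => ?_) (Continuous.intervalIntegrable (by fun_prop) _ _)]
    · simp only [sub_self, mul_zero, neg_zero, Real.exp_zero]
      linarith [Real.exp_pos (-(b * (t - 0)))]
    · have := (((hasDerivAt_id s).const_sub t).const_mul b).neg.exp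
      simpa [mul_comm] using this

/-- Time integration gains one level when the radius shrinks linearly. -/
theorem WR.integral_gain {β t : ℝ} (hβ : 0 < β) (ht : 0 < t) (hρ : β * t < ρ) {f : ℝ → ℝ → ℝ}
    (hf : Measurable fun p : ℝ × ℝ => f p.1 p.2)
    (h : ∀ s ∈ Ioo 0 t, WR (ρ - β * s) n M (f s)) :
    WR (ρ - β * t) (n + 1) (M * (t + 1 / β)) fun x => ∫ s in Ioo 0 t, f s x := by
  have hM : 0 ≤ M := (h (t / 2) ⟨by linarith, by linarith⟩).nonneg
  obtain ⟨C, -, hC⟩ := W.norm_le_of_pos (sub_pos.2 hρ)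
  have hae := ae_restrict_mem (μ := volume) (measurableSet_Ioo (a := (0 : ℝ)) (b := t))
  obtain ⟨h1, h2, h3⟩ := fc_integral (μ := volume.restrict (Ioo 0 t))
    (f := fun a x => (f a x : ℂ)) (Complex.measurable_ofReal.comp hf)
    (integrable_const (C * M)) (hae.mono fun s hs => ⟨W.cont (h s hs), W.per (h s hs),
      hC n M _ (W.mono (h s hs) (by nlinarith [hs.2]) le_rfl le_rfl)⟩)
  unfold WR
  simp only [← integral_complex_ofReal]
  refine ⟨h1, h2, fun k => ?_⟩
  rw [(h3 k).2]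
  have hk : (0 : ℝ) ≤ |(k : ℝ)| := abs_nonneg _
  have hb : ∀ s ∈ Ioo 0 t, ‖fc (fun x => (f s x : ℂ)) k‖ ≤
      M * wgt (fun k => (ρ - β * t) * |(k : ℝ)|) n k * Real.exp (-(β * |(k : ℝ)| * (t - s))) := by
    intro s hs
    refine ((h s hs).2.2 k).trans (le_of_eq ?_)
    simp only [wgt]
    rw [mul_assoc, div_mul_eq_mul_div, ← Real.exp_add]
    congr 3
    ring
  refine (norm_integral_le_of_norm_le ?_ (hae.mono hb)).trans ?_
  · exact ((Continuous.integrableOn_Icc (a := 0) (b := t) (by fun_prop)).mono_set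
      Ioo_subset_Icc_self)
  rw [integral_const_mul]
  obtain ⟨i1, i2⟩ := WInt_exp_int ht (mul_nonneg hβ.le hk)
  set I := ∫ s in Ioo 0 t, Real.exp (-(β * |(k : ℝ)| * (t - s)))
  have i3 : I * (1 + |(k : ℝ)|) ≤ t + 1 / β := by
    have : |(k : ℝ)| * I ≤ 1 / β := by
      rw [le_div_iff₀ hβ]
      linarith
    linarith
  have e : wgt (fun k => (ρ - β * t) * |(k : ℝ)|) n k =
      wgt (fun k => (ρ - β * t) * |(k : ℝ)|) (n + 1) k * (1 + |(k : ℝ)|) := by
    simp only [wgt]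
    field_simp
    ring
  have hw := wgt_pos (fun k => (ρ - β * t) * |(k : ℝ)|) (n + 1) k
  rw [e]
  calc _ = M * (I * (1 + |(k : ℝ)|)) * wgt (fun k => (ρ - β * t) * |(k : ℝ)|) (n + 1) k := by ring
    _ ≤ _ := by gcongr

end Pool.Agent.Lib.MP_3d41d4_an
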