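import Pool.Agent.Lib.MP_3d41d4_an.Plem
import Pool.Agent.Lib.MP_3d41d4_an.WInt
import Pool.Agent.Lib.MP_3d41d4_an.WDeriv

open MeasureTheory Set Filter Topology Real
open scoped ENNReal

namespace Pool.Agent.Lib.MP_3d41d4_an

variable {ρ₀ ρ L M N : ℝ} {n n' : ℕ} {φ f g : ℝ → ℝ}

theorem PV0_measurable_int {Λ : Type} [MeasurableSpace Λ] {F : Λ → ℝ → ℂ}
    (hF : Measurable fun p : Λ × ℝ => F p.1 p.2) {a b : ℝ} (hab : a ≤ b) :
    Measurable fun l => ∫ r in a..b, F l r := by
  simp only [intervalIntegral.integral_of_le hab]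
  have h : StronglyMeasurable (Function.uncurry F) := hF.stronglyMeasurable
  exact (h.integral_prod_right (ν := volume.restrict (Ioc a b))).measurable

theorem PV0_measurable_term {Λ : Type} [MeasurableSpace Λ] {φ f : Λ → ℝ → ℝ} {σ x r : Λ → ℝ}
    (hφ : Measurable fun p : Λ × ℝ => φ p.1 p.2) (hf : Measurable fun p : Λ × ℝ => f p.1 p.2)
    (hσ : Measurable σ) (hx : Measurable x) (hr : Measurable r) :
    Measurable fun l => kc (sarg (r l) (σ l) (ch (φ l) (x l) (r l))) * (f l (x l + r l) : ℂ) := by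
  have h1 : Measurable fun l => φ l (x l + r l) :=
    hφ.comp (measurable_id.prodMk (hx.add hr))
  have h2 : Measurable fun l => φ l (x l) := hφ.comp (measurable_id.prodMk hx)
  have h3 : Measurable fun l => f l (x l + r l) :=
    hf.comp (measurable_id.prodMk (hx.add hr))
  have h4 : Measurable fun l => sarg (r l) (σ l) (ch (φ l) (x l) (r l)) := by
    unfold sarg ch
    exact (Complex.measurable_ofReal.comp hr).neg.add (measurable_const.mul
      ((Complex.measurable_ofReal.comp hσ).sub (Complex.measurable_ofReal.comp (h1.sub h2))))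
  exact (measurable_kc.comp h4).mul (Complex.measurable_ofReal.comp h3)

theorem measurable_bs {Λ : Type} [MeasurableSpace Λ] {φ f : Λ → ℝ → ℝ} {σ x : Λ → ℝ}
    (hφ : Measurable fun p : Λ × ℝ => φ p.1 p.2) (hf : Measurable fun p : Λ × ℝ => f p.1 p.2)
    (hσ : Measurable σ) (hx : Measurable x) :
    Measurable fun l => bs (φ l) (σ l) (f l) (x l) := by
  unfold bs
  refine PV0_measurable_int (F := fun l r =>
    kc (sarg r (σ l) (ch (φ l) (x l) r)) * (f l (x l + r) : ℂ)) ?_ (by linarith [pi_pos])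
  exact PV0_measurable_term (Λ := Λ × ℝ) (φ := fun p => φ p.1) (f := fun p => f p.1)
    (σ := fun p => σ p.1) (x := fun p => x p.1) (r := fun p => p.2)
    (hφ.comp ((measurable_fst.comp measurable_fst).prodMk measurable_snd))
    (hf.comp ((measurable_fst.comp measurable_fst).prodMk measurable_snd))
    (hσ.comp measurable_fst) (hx.comp measurable_fst) measurable_snd

theorem PV0_measurable_pvI {Λ : Type} [MeasurableSpace Λ] {φ f : Λ → ℝ → ℝ} {x : Λ → ℝ}
    (hφ : Measurable fun p : Λ × ℝ => φ p.1 p.2) (hf : Measurable fun p : Λ × ℝ => f p.1 p.2)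
    (hx : Measurable x) : Measurable fun p : Λ × ℝ => pvI (φ p.1) (f p.1) (x p.1) p.2 := by
  unfold pvI
  have h1 := PV0_measurable_term (Λ := Λ × ℝ) (φ := fun p => φ p.1) (f := fun p => f p.1)
    (σ := fun _ => 0) (x := fun p => x p.1) (r := fun p => p.2)
    (hφ.comp ((measurable_fst.comp measurable_fst).prodMk measurable_snd))
    (hf.comp ((measurable_fst.comp measurable_fst).prodMk measurable_snd))
    measurable_const (hx.comp measurable_fst) measurable_snd
  have h2 := PV0_measurable_term (Λ := Λ × ℝ) (φ := fun p => φ p.1) (f := fun p => f p.1)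
    (σ := fun _ => 0) (x := fun p => x p.1) (r := fun p => -p.2)
    (hφ.comp ((measurable_fst.comp measurable_fst).prodMk measurable_snd))
    (hf.comp ((measurable_fst.comp measurable_fst).prodMk measurable_snd))
    measurable_const (hx.comp measurable_fst) measurable_snd.neg
  exact h1.add h2

theorem measurable_pv {Λ : Type} [MeasurableSpace Λ] {φ f : Λ → ℝ → ℝ} {x : Λ → ℝ}
    (hφ : Measurable fun p : Λ × ℝ => φ p.1 p.2) (hf : Measurable fun p : Λ × ℝ => f p.1 p.2)
    (hx : Measurable x) : Measurable fun l => pv (φ l) (f l) (x l) := by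
  unfold pv
  exact PV0_measurable_int (F := fun l r => pvI (φ l) (f l) (x l) r)
    (PV0_measurable_pvI hφ hf hx) pi_pos.le

theorem PV0_bounds (hρ : 0 < ρ) (hf : WR ρ n M f) (x : ℝ) : ∃ K : ℝ,
    (∀ r, ‖(fun r : ℝ => (f (x + r) : ℂ)) r‖ ≤ K) ∧
      ∀ r, ‖(fun r : ℝ => (f (x + r) : ℂ)) r - (fun r : ℝ => (f (x + r) : ℂ)) 0‖ ≤ K * |r| := by
  obtain ⟨C, -, hC⟩ := W.lipschitz hρ
  refine ⟨C * M, fun r => (hC n M _ hf (x + r) x).1, fun r => ?_⟩
  have := (hC n M _ hf (x + r) (x + 0)).2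
  simpa using this

theorem pvI_intervalIntegrable (hφ : Curve ρ₀ L φ) (hρ : 0 < ρ) (hf : WR ρ n M f) (x : ℝ) :
    IntervalIntegrable (pvI φ f x) volume 0 π := by
  obtain ⟨K, h0, h1⟩ := PV0_bounds hρ hf x
  obtain ⟨C, -, hC⟩ := sym_bound L
  have hb := hC _ _ (hφ.chord x) _ K h0 h1
  have hφ' : Measurable fun p : ℝ × ℝ => φ p.2 := hφ.continuous.measurable.comp measurable_snd
  have hf' : Measurable fun p : ℝ × ℝ => f p.2 := hf.cont.measurable.comp measurable_snd
  have hm1 := PV0_measurable_term (Λ := ℝ) (φ := fun _ => φ) (f := fun _ => f) (σ := fun _ => 0)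
    (x := fun _ => x) (r := fun r => r) hφ' hf' measurable_const measurable_const measurable_id
  have hm2 := PV0_measurable_term (Λ := ℝ) (φ := fun _ => φ) (f := fun _ => f) (σ := fun _ => 0)
    (x := fun _ => x) (r := fun r => -r) hφ' hf' measurable_const measurable_const measurable_neg
  have hm : Measurable (pvI φ f x) := hm1.add hm2
  rw [intervalIntegrable_iff_integrableOn_Ioc_of_le pi_pos.le]
  refine Measure.integrableOn_of_bounded (M := C * K) (by simp) hm.aestronglyMeasurable ?_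
  filter_upwards [ae_restrict_mem measurableSet_Ioc] with r hr
  exact hb r hr

theorem PV0_plem (hφ : Curve ρ₀ L φ) (hρ : 0 < ρ) (hf : WR ρ n M f) (x : ℝ) :
    Tendsto (fun σ => bs φ σ f x) (𝓝[>] 0) (𝓝 (pv φ f x - (f x : ℂ) / (2 * zp φ x))) ∧
      Tendsto (fun σ => bs φ σ f x) (𝓝[<] 0) (𝓝 (pv φ f x + (f x : ℂ) / (2 * zp φ x))) := by
  obtain ⟨K, h0, h1⟩ := PV0_bounds hρ hf x
  have hc : Continuous fun r : ℝ => (f (x + r) : ℂ) :=
    Complex.continuous_ofReal.comp (hf.cont.comp (continuous_const.add continuous_id))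
  have := plemelj (hφ.chord x) hc h0 h1
  simp only [add_zero] at this
  exact this

theorem bs_tendsto_right (hφ : Curve ρ₀ L φ) (hρ : 0 < ρ) (hf : WR ρ n M f) (x : ℝ) :
    Tendsto (fun σ => bs φ σ f x) (𝓝[>] 0) (𝓝 (pv φ f x - (f x : ℂ) / (2 * zp φ x))) :=
  (PV0_plem hφ hρ hf x).1

theorem bs_tendsto_left (hφ : Curve ρ₀ L φ) (hρ : 0 < ρ) (hf : WR ρ n M f) (x : ℝ) :
    Tendsto (fun σ => bs φ σ f x) (𝓝[<] 0) (𝓝 (pv φ f x + (f x : ℂ) / (2 * zp φ x))) :=
  (PV0_plem hφ hρ hf x).2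

theorem pv_sub (hφ : Curve ρ₀ L φ) (hρ : 0 < ρ) (hf : WR ρ n M f) (hg : WR ρ n' N g) (x : ℝ) :
    pv φ (fun y => f y - g y) x = pv φ f x - pv φ g x := by
  unfold pv
  rw [← intervalIntegral.integral_sub (pvI_intervalIntegrable hφ hρ hf x)
    (pvI_intervalIntegrable hφ hρ hg x)]
  congr 1
  funext r
  unfold pvI
  push_cast
  ring

end Pool.Agent.Lib.MP_3d41d4_an
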