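import Pool.Agent.Lib.MP_3d41d4_an.Plem0

open MeasureTheory Set Filter Topology Real
open scoped ENNReal

namespace Pool.Agent.Lib.MP_3d41d4_an

theorem Plem_lin {L : ℝ} {q : ℝ → ℂ} {b : ℂ} (h : Chord L q b) :
    Chord L (fun r : ℝ => (r : ℂ) * b) b where
  one_le := h.one_le
  cont := by fun_prop
  n1 r := by
    rw [norm_mul, Complex.norm_real, Real.norm_eq_abs, mul_comm]
    exact mul_le_mul_of_nonneg_right h.bn (abs_nonneg r)
  im r := by
    rw [Complex.im_ofReal_mul, abs_mul]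
    nlinarith [h.bim, abs_nonneg r]
  tay r := by
    rw [sub_self, norm_zero]
    have := h.one_le
    positivity
  bim := h.bim
  bn := h.bn

theorem Plem_low {L : ℝ} {q : ℝ → ℂ} {b : ℂ} (h : Chord L q b) (r σ : ℝ) :
    |r| / 2 ≤ ‖sarg r σ (q r)‖ := (h.re_sarg r σ).1.trans (Complex.abs_re_le_norm _)

theorem Plem_ne {L : ℝ} {q : ℝ → ℂ} {b : ℂ} (h : Chord L q b) {r σ : ℝ} (h0 : r ≠ 0 ∨ σ ≠ 0) :
    sarg r σ (q r) ≠ 0 := by
  intro h1
  have h2 := h.norm_sarg r σ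
  rw [h1, norm_zero, mul_zero] at h2
  rcases h0 with h0 | h0
  · linarith [abs_pos.2 h0, abs_nonneg σ]
  · linarith [abs_pos.2 h0, abs_nonneg r]

theorem Plem_bound {L : ℝ} {q : ℝ → ℂ} {b : ℂ} (h : Chord L q b) {f : ℝ → ℂ} {K : ℝ}
    (h0 : ∀ r, ‖f r‖ ≤ K) (h1 : ∀ r, ‖f r - f 0‖ ≤ K * |r|) : ∃ D : ℝ, ∀ r σ : ℝ, r ≠ 0 →
      |r| ≤ π → ‖kc (sarg r σ (q r)) * f r -
        f 0 / (2 * (π : ℂ) * Complex.I * sarg r σ ((r : ℂ) * b))‖ ≤ D := by
  obtain ⟨C, hC, hk⟩ := kc_near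
  have hK : 0 ≤ K := (norm_nonneg _).trans (h0 0)
  have hL := h.one_le
  refine ⟨C * K + (2 * K + K * (4 * L)) / (2 * π), fun r σ hr hπ => ?_⟩
  have hr0 : 0 < |r| := abs_pos.2 hr
  have hs := Plem_ne h (σ := σ) (Or.inl hr)
  have hm := Plem_ne (Plem_lin h) (σ := σ) (Or.inl hr)
  have ls := Plem_low h r σ
  have lm := Plem_low (Plem_lin h) r σ
  have hre : |(sarg r σ (q r)).re| ≤ 3 * π / 2 := (h.re_sarg r σ).2.trans (by linarith)
  have hd : ‖sarg r σ ((r : ℂ) * b) - sarg r σ (q r)‖ ≤ L * r ^ 2 := by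
    have : sarg r σ ((r : ℂ) * b) - sarg r σ (q r) = Complex.I * (q r - r * b) := by
      simp only [sarg]; ring
    rw [this, norm_mul, Complex.norm_I, one_mul]
    exact h.tay r
  set s := sarg r σ (q r) with hsd
  set m := sarg r σ ((r : ℂ) * b) with hmd
  have hπ0 : (π : ℂ) ≠ 0 := by exact_mod_cast Real.pi_ne_zero
  have e : kc s * f r - f 0 / (2 * (π : ℂ) * Complex.I * m) =
      (kc s - 1 / (2 * (π : ℂ) * Complex.I * s)) * f r +
        ((f r - f 0) / s + f 0 * ((m - s) / (s * m))) / (2 * (π : ℂ) * Complex.I) := by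
    field_simp
    ring
  have n1 : ‖(f r - f 0) / s‖ ≤ 2 * K := by
    rw [norm_div, div_le_iff₀ (norm_pos_iff.2 hs)]
    nlinarith [h1 r]
  have n2 : ‖(m - s) / (s * m)‖ ≤ 4 * L := by
    rw [norm_div, norm_mul, div_le_iff₀ (mul_pos (norm_pos_iff.2 hs) (norm_pos_iff.2 hm))]
    have : |r| / 2 * (|r| / 2) ≤ ‖s‖ * ‖m‖ := by gcongr
    have h3 : r ^ 2 = |r| * |r| := by rw [abs_mul_abs_self, sq]
    nlinarith
  have n3 : ‖2 * (π : ℂ) * Complex.I‖ = 2 * π := by
    simp [abs_of_pos Real.pi_pos]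
  rw [e]
  refine (norm_add_le _ _).trans (add_le_add ?_ ?_)
  · rw [norm_mul]
    exact mul_le_mul (hk s hs hre) (h0 r) (norm_nonneg _) hC.le
  · rw [norm_div, n3]
    refine div_le_div_of_nonneg_right ((norm_add_le _ _).trans (add_le_add n1 ?_)) (by positivity)
    rw [norm_mul]
    exact mul_le_mul (h0 0) n2 (norm_nonneg _) hK

theorem Plem_den {b : ℂ} (r σ : ℝ) : (σ : ℂ) ^ 2 + (1 + Complex.I * b) ^ 2 * (r : ℂ) ^ 2 =
    -(sarg r σ ((r : ℂ) * b) * sarg (-r) σ (((-r : ℝ) : ℂ) * b)) := by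
  simp only [sarg]
  push_cast
  linear_combination (σ : ℂ) ^ 2 * Complex.I_mul_I

theorem Plem_den_ne {L : ℝ} {q : ℝ → ℂ} {b : ℂ} (h : Chord L q b) {r σ : ℝ}
    (h0 : r ≠ 0 ∨ σ ≠ 0) : (σ : ℂ) ^ 2 + (1 + Complex.I * b) ^ 2 * (r : ℂ) ^ 2 ≠ 0 := by
  rw [Plem_den]
  exact neg_ne_zero.2 (mul_ne_zero (Plem_ne (Plem_lin h) h0)
    (Plem_ne (Plem_lin h) (h0.imp_left neg_ne_zero.2)))

theorem Plem_model {L : ℝ} {q : ℝ → ℂ} {b : ℂ} (h : Chord L q b) (c : ℂ) {r σ : ℝ}
    (h0 : r ≠ 0 ∨ σ ≠ 0) :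
    c / (2 * (π : ℂ) * Complex.I * sarg r σ ((r : ℂ) * b)) +
      c / (2 * (π : ℂ) * Complex.I * sarg (-r) σ (((-r : ℝ) : ℂ) * b)) =
      -(c / π * ((σ : ℂ) / ((σ : ℂ) ^ 2 + (1 + Complex.I * b) ^ 2 * (r : ℂ) ^ 2))) := by
  have h1 := Plem_ne (Plem_lin h) h0
  have h2 := Plem_ne (Plem_lin h) (h0.imp_left neg_ne_zero.2)
  have h3 : sarg r σ ((r : ℂ) * b) + sarg (-r) σ (((-r : ℝ) : ℂ) * b) = 2 * Complex.I * σ := by
    simp only [sarg]; push_cast; ring
  have hπ0 : (π : ℂ) ≠ 0 := by exact_mod_cast Real.pi_ne_zero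
  rw [Plem_den]
  set m := sarg r σ ((r : ℂ) * b)
  set m' := sarg (-r) σ (((-r : ℝ) : ℂ) * b)
  field_simp
  linear_combination c * h3

theorem Plem_cont {L : ℝ} {q : ℝ → ℂ} {b : ℂ} (h : Chord L q b) {r : ℝ} (hr : r ≠ 0)
    (hπ : |r| ≤ π) : ContinuousAt (fun σ : ℝ => kc (sarg r σ (q r))) 0 := by
  have h1 : ContinuousAt kc (sarg r 0 (q r)) :=
    (differentiableAt_kc (h.sin_ne_zero hπ (Or.inl hr))).continuousAt
  have h2 : ContinuousAt (fun σ : ℝ => sarg r σ (q r)) 0 := by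
    unfold sarg; fun_prop
  exact ContinuousAt.comp (f := fun σ : ℝ => sarg r σ (q r)) h1 h2

theorem Plem_contOn {L : ℝ} {q : ℝ → ℂ} {b : ℂ} (h : Chord L q b) {σ : ℝ} (hσ : σ ≠ 0) :
    ContinuousOn (fun r : ℝ => kc (sarg r σ (q r))) (Icc (-π) π) := by
  intro r hr
  have h1 : ContinuousAt kc (sarg r σ (q r)) :=
    (differentiableAt_kc (h.sin_ne_zero (abs_le.2 hr) (Or.inr hσ))).continuousAt
  have h2 : ContinuousAt (fun r : ℝ => sarg r σ (q r)) r := by
    have := h.cont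
    unfold sarg; fun_prop
  exact (ContinuousAt.comp (f := fun r : ℝ => sarg r σ (q r)) h1 h2).continuousWithinAt

theorem Plem_fold {F : ℝ → ℂ} (hF : ContinuousOn F (Icc (-π) π)) :
    IntervalIntegrable (fun r => F r + F (-r)) volume 0 π ∧
      ∫ r in (-π)..π, F r = ∫ r in (0 : ℝ)..π, (F r + F (-r)) := by
  have hp := Real.pi_pos
  have i1 : IntervalIntegrable F volume (-π) 0 :=
    (hF.mono (by rw [uIcc_of_le (by linarith)]; exact Icc_subset_Icc le_rfl hp.le)).intervalIntegrable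
  have i2 : IntervalIntegrable F volume 0 π :=
    (hF.mono (by
      rw [uIcc_of_le hp.le]; exact Icc_subset_Icc (by linarith) le_rfl)).intervalIntegrable
  have i3 : IntervalIntegrable (fun r => F (-r)) volume 0 π := by
    refine ContinuousOn.intervalIntegrable (hF.comp continuous_neg.continuousOn ?_)
    rw [uIcc_of_le hp.le]
    intro r hr
    exact ⟨by linarith [hr.2], by linarith [hr.1]⟩
  refine ⟨i2.add i3, ?_⟩
  rw [intervalIntegral.integral_add i2 i3, intervalIntegral.integral_comp_neg, neg_zero,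
    ← intervalIntegral.integral_add_adjacent_intervals i1 i2, add_comm]

/-- Plemelj formulas. -/
theorem plemelj {L : ℝ} {q : ℝ → ℂ} {b : ℂ} (h : Chord L q b) {f : ℝ → ℂ} {K : ℝ}
    (hc : Continuous f) (h0 : ∀ r, ‖f r‖ ≤ K) (h1 : ∀ r, ‖f r - f 0‖ ≤ K * |r|) :
    Tendsto (fun σ : ℝ => ∫ r in (-π)..π, kc (sarg r σ (q r)) * f r) (𝓝[>] 0)
        (𝓝 ((∫ r in (0 : ℝ)..π, (kc (sarg r 0 (q r)) * f r + kc (sarg (-r) 0 (q (-r))) * f (-r)))
          - f 0 / (2 * (1 + Complex.I * b)))) ∧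
      Tendsto (fun σ : ℝ => ∫ r in (-π)..π, kc (sarg r σ (q r)) * f r) (𝓝[<] 0)
        (𝓝 ((∫ r in (0 : ℝ)..π, (kc (sarg r 0 (q r)) * f r + kc (sarg (-r) 0 (q (-r))) * f (-r)))
          + f 0 / (2 * (1 + Complex.I * b)))) := by
  obtain ⟨D, hD⟩ := Plem_bound h h0 h1
  have hp := Real.pi_pos
  have hπ0 : (π : ℂ) ≠ 0 := by exact_mod_cast Real.pi_ne_zero
  set a : ℂ := 1 + Complex.I * b with ha
  have hare : 0 < a.re := by
    have := (abs_le.1 h.bim).2
    simp only [ha, Complex.add_re, Complex.one_re, Complex.mul_re, Complex.I_re, Complex.I_im]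
    linarith
  have ha0 : a ≠ 0 := fun h' => by rw [h'] at hare; simp at hare
  set Mo : ℝ → ℝ → ℂ := fun σ r => (σ : ℂ) / ((σ : ℂ) ^ 2 + a ^ 2 * (r : ℂ) ^ 2) with hMo
  set G : ℝ → ℝ → ℂ := fun σ r => (kc (sarg r σ (q r)) * f r + kc (sarg (-r) σ (q (-r))) * f (-r))
    + f 0 / π * Mo σ r with hG
  have hq := h.cont
  have t1 : Tendsto (fun σ : ℝ => ∫ r in (0 : ℝ)..π, G σ r) (𝓝 0) (𝓝 (∫ r in (0 : ℝ)..π,
      (kc (sarg r 0 (q r)) * f r + kc (sarg (-r) 0 (q (-r))) * f (-r)))) := by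
    refine intervalIntegral.tendsto_integral_filter_of_dominated_convergence (fun _ => D + D)
      (Eventually.of_forall fun σ => ?_) (Eventually.of_forall fun σ => ae_of_all _ fun r hr => ?_)
      intervalIntegrable_const (ae_of_all _ fun r hr => ?_)
    · refine Measurable.aestronglyMeasurable ?_
      have m1 : Measurable fun r : ℝ => sarg r σ (q r) :=
        Continuous.measurable (by unfold sarg; fun_prop)
      have m2 : Measurable fun r : ℝ => sarg (-r) σ (q (-r)) :=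
        Continuous.measurable (by unfold sarg; fun_prop)
      have m3 : Measurable fun r : ℝ => (σ : ℂ) ^ 2 + a ^ 2 * (r : ℂ) ^ 2 :=
        Continuous.measurable (by fun_prop)
      exact (((measurable_kc.comp m1).mul hc.measurable).add ((measurable_kc.comp m2).mul
        (hc.measurable.comp measurable_neg))).add ((measurable_const.div m3).const_mul _)
    · rw [uIoc_of_le hp.le] at hr
      have hr0 : r ≠ 0 := hr.1.ne'
      have hr1 : |r| ≤ π := by rw [abs_of_pos hr.1]; exact hr.2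
      have e : G σ r = (kc (sarg r σ (q r)) * f r -
          f 0 / (2 * (π : ℂ) * Complex.I * sarg r σ ((r : ℂ) * b))) +
          (kc (sarg (-r) σ (q (-r))) * f (-r) -
          f 0 / (2 * (π : ℂ) * Complex.I * sarg (-r) σ (((-r : ℝ) : ℂ) * b))) := by
        have := Plem_model h (f 0) (σ := σ) (Or.inl hr0)
        simp only [hG, hMo]
        linear_combination this
      rw [e]
      exact (norm_add_le _ _).trans (add_le_add (hD r σ hr0 hr1)
        (hD (-r) σ (neg_ne_zero.2 hr0) (by rwa [abs_neg])))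
    · rw [uIoc_of_le hp.le] at hr
      have hr0 : r ≠ 0 := hr.1.ne'
      have hr1 : |r| ≤ π := by rw [abs_of_pos hr.1]; exact hr.2
      have c1 := Plem_cont h hr0 hr1
      have c2 := Plem_cont h (neg_ne_zero.2 hr0) (by rwa [abs_neg])
      have c3 : ContinuousAt (fun σ => Mo σ r) 0 :=
        ContinuousAt.div (by fun_prop) (by fun_prop) (Plem_den_ne h (σ := 0) (Or.inl hr0))
      have c4 : ContinuousAt (fun σ => G σ r) 0 :=
        ((c1.mul continuousAt_const).add (c2.mul continuousAt_const)).add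
          (continuousAt_const.mul c3)
      have := c4.tendsto
      simpa [hG, hMo] using this
  have e1 : ∀ σ : ℝ, σ ≠ 0 → ∫ r in (-π)..π, kc (sarg r σ (q r)) * f r =
      (∫ r in (0 : ℝ)..π, G σ r) - f 0 / π * ∫ r in (0 : ℝ)..π, Mo σ r := by
    intro σ hσ
    obtain ⟨i1, e2⟩ := Plem_fold (F := fun r => kc (sarg r σ (q r)) * f r)
      ((Plem_contOn h hσ).mul hc.continuousOn)
    have i2 : IntervalIntegrable (Mo σ) volume 0 π :=
      Continuous.intervalIntegrable (Continuous.div (by fun_prop) (by fun_prop)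
        fun r => Plem_den_ne h (Or.inr hσ)) _ _
    refine e2.trans ?_
    simp only [hG]
    rw [intervalIntegral.integral_add i1 (i2.const_mul _), intervalIntegral.integral_const_mul]
    simp
  have t2 : Tendsto (fun σ : ℝ => ∫ r in (0 : ℝ)..π, Mo σ r) (𝓝[>] 0) (𝓝 ((π : ℂ) / (2 * a))) :=
    tendsto_model_integral hare
  have t3 : Tendsto (fun σ : ℝ => ∫ r in (0 : ℝ)..π, Mo σ r) (𝓝[<] 0)
      (𝓝 (-((π : ℂ) / (2 * a)))) := by
    have n1 : Tendsto (fun σ : ℝ => -σ) (𝓝[<] 0) (𝓝[>] 0) := by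
      simpa using tendsto_neg_nhdsLT (a := (0 : ℝ))
    refine (t2.comp n1).neg.congr fun σ => ?_
    simp only [Function.comp, hMo]
    rw [← intervalIntegral.integral_neg]
    congr 1
    funext r
    push_cast
    ring
  have k1 : f 0 / π * ((π : ℂ) / (2 * a)) = f 0 / (2 * a) := by field_simp
  constructor
  · have := (t1.mono_left nhdsWithin_le_nhds).sub (t2.const_mul (f 0 / π))
    rw [k1] at this
    refine this.congr' ?_
    filter_upwards [self_mem_nhdsWithin] with σ hσ using (e1 σ (ne_of_gt hσ)).symm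
  · have := (t1.mono_left nhdsWithin_le_nhds).sub (t3.const_mul (f 0 / π))
    rw [mul_neg, k1, sub_neg_eq_add] at this
    refine this.congr' ?_
    filter_upwards [self_mem_nhdsWithin] with σ hσ using (e1 σ (ne_of_lt hσ)).symm

end Pool.Agent.Lib.MP_3d41d4_an
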