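import Pool.Agent.Lib.MP_3d41d4_an.Geo

open MeasureTheory Set Filter Topology Real
open scoped ENNReal

namespace Pool.Agent.Lib.MP_3d41d4_an

theorem Plem0_slit {a : ℂ} (ha : a.re ≠ 0) {σ : ℝ} (hσ : 0 < σ) (r : ℝ) :
    (σ : ℂ) + Complex.I * a * (r : ℂ) ∈ Complex.slitPlane := by
  rw [Complex.mem_slitPlane_iff]
  by_cases hr : r = 0
  · left; simp [hr, hσ]
  · right; simp [ha, hr]

theorem Plem0_hasDerivAt_log {a : ℂ} (ha : a.re ≠ 0) {σ : ℝ} (hσ : 0 < σ) (r : ℝ) :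
    HasDerivAt (fun r : ℝ => Complex.log ((σ : ℂ) + Complex.I * a * (r : ℂ)))
      (Complex.I * a / ((σ : ℂ) + Complex.I * a * (r : ℂ))) r := by
  have h1 : HasDerivAt (fun z : ℂ => (σ : ℂ) + Complex.I * a * z) (Complex.I * a) (r : ℂ) := by
    simpa using ((hasDerivAt_id (r : ℂ)).const_mul (Complex.I * a)).const_add (σ : ℂ)
  exact (h1.clog (Plem0_slit ha hσ r)).comp_ofReal

theorem Plem0_den (a : ℂ) (σ r : ℝ) :
    (σ : ℂ) ^ 2 + a ^ 2 * (r : ℂ) ^ 2 =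
      ((σ : ℂ) + Complex.I * a * (r : ℂ)) * ((σ : ℂ) + Complex.I * (-a) * (r : ℂ)) := by
  linear_combination (a ^ 2 * (r : ℂ) ^ 2) * Complex.I_mul_I

theorem Plem0_integral {a : ℂ} (ha : 0 < a.re) {σ : ℝ} (hσ : 0 < σ) :
    ∫ r in (0 : ℝ)..π, (σ : ℂ) / ((σ : ℂ) ^ 2 + a ^ 2 * (r : ℂ) ^ 2) =
      (Complex.log ((σ : ℂ) + Complex.I * a * (π : ℂ)) -
        Complex.log ((σ : ℂ) + Complex.I * (-a) * (π : ℂ))) / (2 * Complex.I * a) := by
  have ha0 : a ≠ 0 := by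
    rintro rfl
    simp at ha
  have ha1 : a.re ≠ 0 := ha.ne'
  have ha2 : (-a).re ≠ 0 := by simpa using ha1
  have hn1 : ∀ r : ℝ, (σ : ℂ) + Complex.I * a * (r : ℂ) ≠ 0 := fun r =>
    Complex.slitPlane_ne_zero (Plem0_slit ha1 hσ r)
  have hn2 : ∀ r : ℝ, (σ : ℂ) + Complex.I * (-a) * (r : ℂ) ≠ 0 := fun r =>
    Complex.slitPlane_ne_zero (Plem0_slit ha2 hσ r)
  have hd : ∀ r : ℝ, HasDerivAt (fun r : ℝ =>
      (Complex.log ((σ : ℂ) + Complex.I * a * (r : ℂ)) -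
        Complex.log ((σ : ℂ) + Complex.I * (-a) * (r : ℂ))) / (2 * Complex.I * a))
      ((σ : ℂ) / ((σ : ℂ) ^ 2 + a ^ 2 * (r : ℂ) ^ 2)) r := fun r => by
    have h := ((Plem0_hasDerivAt_log ha1 hσ r).sub (Plem0_hasDerivAt_log ha2 hσ r)).div_const
      (2 * Complex.I * a)
    have e : (Complex.I * a / ((σ : ℂ) + Complex.I * a * (r : ℂ)) -
        Complex.I * (-a) / ((σ : ℂ) + Complex.I * (-a) * (r : ℂ))) / (2 * Complex.I * a) =
        (σ : ℂ) / ((σ : ℂ) ^ 2 + a ^ 2 * (r : ℂ) ^ 2) := by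
      rw [Plem0_den, div_sub_div _ _ (hn1 r) (hn2 r), div_div,
        div_eq_div_iff (mul_ne_zero (mul_ne_zero (hn1 r) (hn2 r))
          (mul_ne_zero (mul_ne_zero two_ne_zero Complex.I_ne_zero) ha0))
          (mul_ne_zero (hn1 r) (hn2 r))]
      ring
    rw [e] at h
    exact h
  have hc : Continuous fun r : ℝ => (σ : ℂ) / ((σ : ℂ) ^ 2 + a ^ 2 * (r : ℂ) ^ 2) := by
    refine continuous_const.div (by fun_prop) fun r => ?_
    rw [Plem0_den]
    exact mul_ne_zero (hn1 r) (hn2 r)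
  rw [intervalIntegral.integral_eq_sub_of_hasDerivAt (fun r _ => hd r) (hc.intervalIntegrable _ _)]
  simp

theorem Plem0_log_sub {w : ℂ} (hw : 0 < w.im) :
    Complex.log w - Complex.log (-w) = (π : ℂ) * Complex.I := by
  rw [Complex.log, Complex.log, norm_neg, Complex.arg_neg_eq_arg_sub_pi_of_im_pos hw]
  push_cast
  ring

theorem tendsto_model_integral {a : ℂ} (ha : 0 < a.re) :
    Tendsto (fun σ : ℝ => ∫ r in (0 : ℝ)..π, (σ : ℂ) / ((σ : ℂ) ^ 2 + a ^ 2 * (r : ℂ) ^ 2))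
      (𝓝[>] 0) (𝓝 ((π : ℂ) / (2 * a))) := by
  have ha0 : a ≠ 0 := by
    rintro rfl
    simp at ha
  have hw : 0 < (Complex.I * a * (π : ℂ)).im := by
    simpa using mul_pos ha Real.pi_pos
  have key : ∀ w : ℂ, w.im ≠ 0 →
      Tendsto (fun σ : ℝ => Complex.log ((σ : ℂ) + w)) (𝓝[>] 0) (𝓝 (Complex.log w)) := by
    intro w hw
    have h1 : Tendsto (fun σ : ℝ => (σ : ℂ) + w) (𝓝[>] 0) (𝓝 w) := by
      have h2 : Continuous fun σ : ℝ => (σ : ℂ) + w := by fun_prop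
      have h3 := (h2.tendsto 0).mono_left (nhdsWithin_le_nhds (s := Ioi 0))
      simpa using h3
    exact h1.clog (Complex.mem_slitPlane_iff.2 (Or.inr hw))
  have e : Complex.I * (-a) * (π : ℂ) = -(Complex.I * a * (π : ℂ)) := by ring
  have h := ((key _ hw.ne').sub (key (Complex.I * (-a) * (π : ℂ))
    (by rw [e, Complex.neg_im]; exact neg_ne_zero.2 hw.ne'))).div_const (2 * Complex.I * a)
  have e2 : (Complex.log (Complex.I * a * (π : ℂ)) - Complex.log (Complex.I * (-a) * (π : ℂ))) /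
      (2 * Complex.I * a) = (π : ℂ) / (2 * a) := by
    rw [e, Plem0_log_sub hw]
    have := Complex.I_ne_zero
    field_simp
  rw [e2] at h
  refine h.congr' ?_
  filter_upwards [self_mem_nhdsWithin] with σ hσ
  exact (Plem0_integral ha hσ).symm

/-- The symmetrised principal value integrand is bounded. -/
theorem sym_bound (L : ℝ) : ∃ C : ℝ, 0 < C ∧ ∀ (q : ℝ → ℂ) (b : ℂ), Chord L q b →
    ∀ (f : ℝ → ℂ) (K : ℝ), (∀ r, ‖f r‖ ≤ K) → (∀ r, ‖f r - f 0‖ ≤ K * |r|) → ∀ r ∈ Ioc 0 π,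
      ‖kc (sarg r 0 (q r)) * f r + kc (sarg (-r) 0 (q (-r))) * f (-r)‖ ≤ C * K := by
  obtain ⟨C0, hC0, hkc⟩ := kc_near
  refine ⟨2 * C0 + 4 + 8 * |L|, by positivity, ?_⟩
  intro q b h f K hf hf' r hr
  have hr0 : 0 < r := hr.1
  have hK : 0 ≤ K := (norm_nonneg _).trans (hf 0)
  have hL : 0 ≤ L := zero_le_one.trans h.one_le
  set s1 := sarg r 0 (q r) with hs1
  set s2 := sarg (-r) 0 (q (-r)) with hs2
  obtain ⟨l1, u1⟩ := h.re_sarg r 0
  obtain ⟨l2, u2⟩ := h.re_sarg (-r) 0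
  rw [← hs1, abs_of_pos hr0] at l1 u1
  rw [← hs2, abs_neg, abs_of_pos hr0] at l2 u2
  have n1 : r / 2 ≤ ‖s1‖ := l1.trans (Complex.abs_re_le_norm _)
  have n2 : r / 2 ≤ ‖s2‖ := l2.trans (Complex.abs_re_le_norm _)
  have p1 : 0 < ‖s1‖ := lt_of_lt_of_le (by positivity) n1
  have p2 : 0 < ‖s2‖ := lt_of_lt_of_le (by positivity) n2
  have z1 : s1 ≠ 0 := norm_pos_iff.1 p1
  have z2 : s2 ≠ 0 := norm_pos_iff.1 p2
  have e1 := hkc s1 z1 (by linarith [hr.2])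
  have e2 := hkc s2 z2 (by linarith [hr.2])
  set c : ℂ := 2 * (π : ℂ) * Complex.I with hc
  have hcn : 1 ≤ ‖c‖ := by
    rw [hc, norm_mul, norm_mul, Complex.norm_I, Complex.norm_real, Real.norm_eq_abs,
      abs_of_pos Real.pi_pos, Complex.norm_two]
    linarith [Real.two_le_pi]
  have hc0 : c ≠ 0 := norm_pos_iff.1 (lt_of_lt_of_le one_pos hcn)
  have hsum : ‖s1 + s2‖ ≤ 2 * L * r ^ 2 := by
    have e : s1 + s2 = -Complex.I * ((q r - r * b) + (q (-r) - ((-r : ℝ) : ℂ) * b)) := by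
      rw [hs1, hs2, sarg, sarg]
      push_cast
      ring
    rw [e, norm_mul, norm_neg, Complex.norm_I, one_mul]
    have t1 := h.tay r
    have t2 := h.tay (-r)
    rw [neg_sq] at t2
    exact (norm_add_le _ _).trans (by linarith)
  have hid : kc s1 * f r + kc s2 * f (-r) =
      (kc s1 - 1 / (c * s1)) * f r + (kc s2 - 1 / (c * s2)) * f (-r) +
        (f r - f 0) / (c * s1) + (f (-r) - f 0) / (c * s2) + f 0 * (s1 + s2) / (c * s1 * s2) := by
    field_simp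
    ring
  have b1 : ‖(kc s1 - 1 / (c * s1)) * f r‖ ≤ C0 * K := by
    rw [norm_mul]
    exact mul_le_mul e1 (hf r) (norm_nonneg _) hC0.le
  have b2 : ‖(kc s2 - 1 / (c * s2)) * f (-r)‖ ≤ C0 * K := by
    rw [norm_mul]
    exact mul_le_mul e2 (hf (-r)) (norm_nonneg _) hC0.le
  have d1 : r / 2 ≤ ‖c * s1‖ := by
    rw [norm_mul]
    nlinarith
  have d2 : r / 2 ≤ ‖c * s2‖ := by
    rw [norm_mul]
    nlinarith
  have b3 : ‖(f r - f 0) / (c * s1)‖ ≤ 2 * K := by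
    rw [norm_div, div_le_iff₀ (lt_of_lt_of_le (by positivity) d1)]
    have := hf' r
    rw [abs_of_pos hr0] at this
    nlinarith
  have b4 : ‖(f (-r) - f 0) / (c * s2)‖ ≤ 2 * K := by
    rw [norm_div, div_le_iff₀ (lt_of_lt_of_le (by positivity) d2)]
    have := hf' (-r)
    rw [abs_neg, abs_of_pos hr0] at this
    nlinarith
  have d3 : r / 2 * (r / 2) ≤ ‖c * s1 * s2‖ := by
    rw [norm_mul]
    exact mul_le_mul d1 n2 (by positivity) (norm_nonneg _)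
  have b5 : ‖f 0 * (s1 + s2) / (c * s1 * s2)‖ ≤ 8 * L * K := by
    rw [norm_div, div_le_iff₀ (lt_of_lt_of_le (by positivity) d3), norm_mul]
    calc ‖f 0‖ * ‖s1 + s2‖ ≤ K * (2 * L * r ^ 2) :=
          mul_le_mul (hf 0) hsum (norm_nonneg _) hK
      _ = 8 * L * K * (r / 2 * (r / 2)) := by ring
      _ ≤ 8 * L * K * ‖c * s1 * s2‖ := mul_le_mul_of_nonneg_left d3 (by positivity)
  rw [hid, abs_of_nonneg hL]
  refine (norm_add_le _ _).trans ?_
  have a4 := norm_add_le ((kc s1 - 1 / (c * s1)) * f r + (kc s2 - 1 / (c * s2)) * f (-r) +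
    (f r - f 0) / (c * s1)) ((f (-r) - f 0) / (c * s2))
  have a3 := norm_add_le ((kc s1 - 1 / (c * s1)) * f r + (kc s2 - 1 / (c * s2)) * f (-r))
    ((f r - f 0) / (c * s1))
  have a2 := norm_add_le ((kc s1 - 1 / (c * s1)) * f r) ((kc s2 - 1 / (c * s2)) * f (-r))
  linarith

end Pool.Agent.Lib.MP_3d41d4_an
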