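import Pool.Agent.Lib.MP_3d41d4_an.BSc

open MeasureTheory Set Filter Topology Real
open scoped ENNReal

namespace Pool.Agent.Lib.MP_3d41d4_an

variable {ρ L M₀ T : ℝ} {φ γ : ℝ → ℝ → ℝ}

theorem Sheet.ρ_pos (hS : Sheet ρ L M₀ T φ γ) : 0 < ρ := (hS.curve 0).pos

theorem Sheet.measφ (hS : Sheet ρ L M₀ T φ γ) {Λ : Type} [MeasurableSpace Λ] {s x : Λ → ℝ}
    (hs : Measurable s) (hx : Measurable x) : Measurable fun l => φ (s l) (x l) :=
  hS.contφ.measurable.comp (hs.prodMk hx)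

theorem Sheet.measγ (hS : Sheet ρ L M₀ T φ γ) {Λ : Type} [MeasurableSpace Λ] {s x : Λ → ℝ}
    (hs : Measurable s) (hx : Measurable x) : Measurable fun l => γ (s l) (x l) :=
  hS.contγ.measurable.comp (hs.prodMk hx)

theorem Sheet.meas_ch (hS : Sheet ρ L M₀ T φ γ) {Λ : Type} [MeasurableSpace Λ] {s x r : Λ → ℝ}
    (hs : Measurable s) (hx : Measurable x) (hr : Measurable r) :
    Measurable fun l => ch (φ (s l)) (x l) (r l) :=
  (hS.measφ hs (hx.add hr)).sub (hS.measφ hs hx)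

theorem Sheet.meas_d1 (hS : Sheet ρ L M₀ T φ γ) {Λ : Type} [MeasurableSpace Λ] {s x : Λ → ℝ}
    (hs : Measurable s) (hx : Measurable x) : Measurable fun l => deriv (φ (s l)) (x l) :=
  (measurable_deriv_of_differentiable (F := φ) hS.contφ.measurable
    fun a => (hS.curve a).differentiable).comp (hs.prodMk hx)

theorem Sheet.meas_d2 (hS : Sheet ρ L M₀ T φ γ) {Λ : Type} [MeasurableSpace Λ] {s x : Λ → ℝ}
    (hs : Measurable s) (hx : Measurable x) :
    Measurable fun l => deriv (deriv (φ (s l))) (x l) :=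
  (measurable_deriv_of_differentiable (F := fun a => deriv (φ a))
    (hS.meas_d1 measurable_fst measurable_snd)
    fun a => (hS.curve a).differentiable_deriv).comp (hs.prodMk hx)

theorem Sheet.meas_zp (hS : Sheet ρ L M₀ T φ γ) {Λ : Type} [MeasurableSpace Λ] {s x : Λ → ℝ}
    (hs : Measurable s) (hx : Measurable x) : Measurable fun l => zp (φ (s l)) (x l) := by
  unfold zp
  exact measurable_const.add
    (measurable_const.mul (Complex.measurable_ofReal.comp (hS.meas_d1 hs hx)))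

theorem SheetF_meas_pv (hS : Sheet ρ L M₀ T φ γ) {Λ : Type} [MeasurableSpace Λ] {s x : Λ → ℝ}
    (hs : Measurable s) (hx : Measurable x) :
    Measurable fun l => pv (φ (s l)) (γ (s l)) (x l) :=
  measurable_pv (φ := fun l => φ (s l)) (f := fun l => γ (s l))
    (hS.measφ (hs.comp measurable_fst) measurable_snd)
    (hS.measγ (hs.comp measurable_fst) measurable_snd) hx

theorem Sheet.meas_pt (hS : Sheet ρ L M₀ T φ γ) {Λ : Type} [MeasurableSpace Λ] {s x : Λ → ℝ}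
    (hs : Measurable s) (hx : Measurable x) : Measurable fun l => pt φ γ (s l) (x l) := by
  unfold pt
  exact (Complex.measurable_im.comp ((hS.meas_zp hs hx).mul (SheetF_meas_pv hS hs hx))).neg

theorem Sheet.meas_fl (hS : Sheet ρ L M₀ T φ γ) {Λ : Type} [MeasurableSpace Λ] {s x : Λ → ℝ}
    (hs : Measurable s) (hx : Measurable x) : Measurable fun l => fl φ γ (s l) (x l) := by
  unfold fl
  exact (Complex.measurable_re.comp (SheetF_meas_pv hS hs hx)).mul (hS.measγ hs hx)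

theorem SheetF_bounds (hS : Sheet ρ L M₀ T φ γ) : ∃ C : ℝ, 0 < C ∧ ∀ s,
    W ρ 4 C (pv (φ s) (γ s)) ∧ WR ρ 4 C (pt φ γ s) ∧ WR ρ 4 C (fl φ γ s) ∧
      WR ρ 3 C (deriv (fl φ γ s)) := by
  obtain ⟨C1, hC1, h1⟩ := pv_W ρ L
  obtain ⟨C2, hC2, h2⟩ := zp_W ρ L
  have hρ := hS.ρ_pos
  have hM := hS.M_pos
  have p1 : 0 < C1 * M₀ := by positivity
  have p2 : 0 < 64 * C2 * (C1 * M₀) := by positivity
  have p3 : 0 < 64 * (C1 * M₀) * M₀ := by positivity
  refine ⟨C1 * M₀ + 64 * C2 * (C1 * M₀) + 64 * (C1 * M₀) * M₀, by positivity, fun s => ?_⟩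
  have a1 : W ρ 4 (C1 * M₀) (pv (φ s) (γ s)) :=
    h1 (φ s) (hS.curve s) ρ hρ le_rfl 4 (by norm_num) le_rfl M₀ (γ s) (hS.wγ s)
  have a2 : WR ρ 4 (64 * C2 * (C1 * M₀)) (pt φ γ s) :=
    (W.mul hρ.le (by norm_num) le_rfl (h2 (φ s) (hS.curve s)).2.1 a1).im.neg
  have a3 : WR ρ 4 (64 * (C1 * M₀) * M₀) (fl φ γ s) :=
    WR.mul hρ.le (by norm_num) le_rfl a1.re (hS.wγ s)
  have a4 : WR ρ 3 (64 * (C1 * M₀) * M₀) (deriv (fl φ γ s)) := WR.derivW hρ a3
  exact ⟨a1.mono le_rfl le_rfl (by linarith), a2.mono le_rfl le_rfl (by linarith),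
    a3.mono le_rfl le_rfl (by linarith), a4.mono le_rfl le_rfl (by linarith)⟩

theorem Sheet.meas_dfl (hS : Sheet ρ L M₀ T φ γ) {Λ : Type} [MeasurableSpace Λ] {s x : Λ → ℝ}
    (hs : Measurable s) (hx : Measurable x) :
    Measurable fun l => deriv (fl φ γ (s l)) (x l) := by
  obtain ⟨C, -, h⟩ := SheetF_bounds hS
  have h1 : Measurable fun p : ℝ × ℝ => fl φ γ p.1 p.2 := hS.meas_fl measurable_fst measurable_snd
  have h2 : ∀ a, Differentiable ℝ (fl φ γ a) := fun a => WR.differentiable hS.ρ_pos (h a).2.2.1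
  have h3 := measurable_deriv_of_differentiable h1 h2
  generalize fl φ γ = F at h3 ⊢
  exact h3.comp (hs.prodMk hx)

theorem Sheet.bounds (hS : Sheet ρ L M₀ T φ γ) : ∃ C : ℝ, 0 < C ∧ ∀ s,
    W ρ 4 C (pv (φ s) (γ s)) ∧ WR ρ 4 C (pt φ γ s) ∧ WR ρ 4 C (fl φ γ s) ∧
      WR ρ 3 C (deriv (fl φ γ s)) := SheetF_bounds hS

/-- The equation for the density in integral form. -/
theorem Sheet.γ_eq (hS : Sheet ρ L M₀ T φ γ) {t : ℝ} (ht0 : 0 ≤ t) (htT : t ≤ T) (x : ℝ) :
    IntegrableOn (fun s => deriv (fl φ γ s) x) (Ioo 0 t) ∧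
      γ t x = γ 0 x - ∫ s in Ioo 0 t, deriv (fl φ γ s) x := by
  obtain ⟨C, -, h⟩ := SheetF_bounds hS
  have hm : Measurable fun s => deriv (fl φ γ s) x := hS.meas_dfl measurable_id measurable_const
  have hi : IntegrableOn (fun s => deriv (fl φ γ s) x) (Ioo 0 t) := by
    refine Measure.integrableOn_of_bounded (M := 4 * C) (by simp) hm.aestronglyMeasurable ?_
    exact Eventually.of_forall fun s => (h s).2.2.2.abs_le hS.ρ_pos.le (by norm_num) x
  refine ⟨hi, ?_⟩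
  have hii : IntervalIntegrable (fun s => -deriv (fl φ γ s) x) volume 0 t := by
    rw [intervalIntegrable_iff_integrableOn_Ioo_of_le ht0]
    exact hi.neg
  have hc : Continuous fun s => γ s x :=
    hS.contγ.comp (continuous_id.prodMk continuous_const)
  have key := intervalIntegral.integral_eq_sub_of_hasDerivAt_of_le ht0 hc.continuousOn
    (fun s hs => hS.eqγ s ⟨hs.1, hs.2.trans_le htT⟩ x) hii
  rw [intervalIntegral.integral_of_le ht0, integral_Ioc_eq_integral_Ioo, integral_neg] at key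
  linarith

end Pool.Agent.Lib.MP_3d41d4_an
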