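import Pool.Agent.Lib.MP_3d41d4_an.GK
import Pool.Agent.Lib.MP_3d41d4_an.SheetF

open MeasureTheory Set Filter Topology Real
open scoped ENNReal

namespace Pool.Agent.Lib.MP_3d41d4_an

variable {ρ L M₀ T : ℝ} {φ γ : ℝ → ℝ → ℝ}

theorem RK0_size {ν δ u M K : ℝ} (hν : 0 ≤ ν) (hδ0 : 0 ≤ δ) (hδ1 : δ ≤ 1) (hM : 0 ≤ M)
    (hK : 0 ≤ K) (h1 : ν * δ * u ^ 2 ≤ 1) (h2 : ν * δ * u ≤ 2) :
    ν * (2 * (64 * (M * δ) * (K * u ^ 2)) + 64 * (64 * (M * δ) * (M * δ)) * (K * u ^ 2) +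
      64 * (M * δ) * (K * u)) ≤ (256 * M + 4096 * M ^ 2) * K := by
  have h3 : ν * δ * u ^ 2 * δ ≤ 1 :=
    (mul_le_of_le_one_right (by positivity) hδ1).trans h1
  have e1 := mul_le_mul_of_nonneg_left h1 (by positivity : 0 ≤ 128 * M * K)
  have e2 := mul_le_mul_of_nonneg_left h3 (by positivity : 0 ≤ 4096 * M ^ 2 * K)
  have e3 := mul_le_mul_of_nonneg_left h2 (by positivity : 0 ≤ 64 * M * K)
  nlinarith

/-- The remainder kernel is no worse than the heat kernel. -/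
theorem Rk_WR (hS : Sheet ρ L M₀ T φ γ) : ∃ C : ℝ, 0 < C ∧ ∀ ν κ t s : ℝ, 0 < ν → ν ≤ 1 →
    0 ≤ κ → κ ≤ 1 → 0 ≤ s → s < t → t ≤ 1 → ∀ j ≤ 1, ∀ r σ : ℝ,
      WR ρ 4 (C * (1 / √(aa ν κ t s)) ^ j * gs (cg L) (aa ν κ t s) r * gs (cg L) (aa ν κ t s) σ)
        fun x => Rk φ ν j (aa ν κ t s) t s x r σ := by
  obtain ⟨C, hC, hG⟩ := Gd_WR ρ L
  have hM := hS.M_pos
  have hρ := hS.ρ_pos.le
  refine ⟨(256 * M₀ + 4096 * M₀ ^ 2) * C, by positivity, ?_⟩
  intro ν κ t s hν hν1 hκ hκ1 hs hst ht j hj r σ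
  have hδ0 : 0 < t - s := sub_pos.2 hst
  have hδ1 : t - s ≤ 1 := by linarith
  have hνδ : 0 < ν * (t - s) := mul_pos hν hδ0
  have hle : ν * (t - s) ≤ aa ν κ t s := by unfold aa; linarith
  have ha2 : aa ν κ t s ≤ 2 := by
    have : ν * (t - s) ≤ 1 := mul_le_one₀ hν1 hδ0.le hδ1
    unfold aa
    linarith
  generalize aa ν κ t s = a at hle ha2 ⊢
  have ha : 0 < a := hνδ.trans_le hle
  have hq : 0 < √a := Real.sqrt_pos.2 ha
  have hqq : √a * √a = a := Real.mul_self_sqrt ha.le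
  have hq2 : √a ≤ 2 := by nlinarith
  have h1 : ν * (t - s) * (1 / √a) ^ 2 ≤ 1 := by
    rw [div_pow, one_pow, Real.sq_sqrt ha.le, mul_one_div, div_le_one ha]
    exact hle
  have h2 : ν * (t - s) * (1 / √a) ≤ 2 := by
    rw [mul_one_div, div_le_iff₀ hq]
    nlinarith
  have d1 := (hS.lip1 t s).shift r
  have d2 := (hS.lip2 t s).shift r
  rw [abs_of_pos hδ0] at d1 d2
  have g1 := hG (φ t) (hS.curve t) a ha 1 le_rfl (j + 1) (by omega) r σ
  have g2 := hG (φ t) (hS.curve t) a ha 0 zero_le_one (j + 2) (by omega) r σ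
  have g3 := hG (φ t) (hS.curve t) a ha 0 zero_le_one (j + 1) (by omega) r σ
  have t1 := (WR.mul hρ (by norm_num) le_rfl d1 g1).const_mul (-2)
  have t2 := WR.mul hρ (by norm_num) le_rfl (WR.mul hρ (by norm_num) le_rfl d1 d1) g2
  have t3 := WR.mul hρ (by norm_num) le_rfl d2 g3
  have t4 := ((t1.add t2).sub t3).const_mul ν
  have hK : 0 ≤ C * (1 / √a) ^ j * gs (cg L) a r * gs (cg L) a σ := by
    have := gs_nonneg (cg L) a r
    have := gs_nonneg (cg L) a σ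
    positivity
  have key := RK0_size hν.le hδ0.le hδ1 hM.le hK h1 h2
  have t5 := t4.mono le_rfl le_rfl (M' := (256 * M₀ + 4096 * M₀ ^ 2) * C * (1 / √a) ^ j *
      gs (cg L) a r * gs (cg L) a σ) (by
    rw [abs_of_pos hν, abs_neg, abs_two]
    refine le_of_eq_of_le ?_ (key.trans_eq ?_) <;> ring)
  convert t5 using 2
  unfold Rk
  ring

theorem hasDerivAt_Rk (φ : ℝ → ℝ → ℝ) (ν a t s x r σ : ℝ) :
    HasDerivAt (fun σ' => Rk φ ν 0 a t s x r σ') (Rk φ ν 1 a t s x r σ) σ := by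
  have h : ∀ j ≤ 2, HasDerivAt (fun σ' => Gd j a r (σ' - ch (φ t) x r))
      (Gd (j + 1) a r (σ - ch (φ t) x r)) σ := fun j hj => by
    have := hasDerivAt_Gd_comp hj a (hasDerivAt_const σ r)
      ((hasDerivAt_id' σ).sub_const (ch (φ t) x r))
    simpa using this
  unfold Rk
  exact ((((h 1 (by omega)).const_mul _).add ((h 2 le_rfl).const_mul _)).sub
    ((h 1 (by omega)).const_mul _)).const_mul ν

theorem integral_Rk (φ : ℝ → ℝ → ℝ) (ν : ℝ) {a : ℝ} (ha : 0 < a) (t s x r c : ℝ) :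
    Integrable (fun η => Rk φ ν 0 a t s x r (η - c)) ∧
      ∫ η, Rk φ ν 0 a t s x r (η - c) = 0 := by
  have hi : ∀ j, Integrable fun η => Gd j a r (η - c - ch (φ t) x r) := fun j => by
    simpa only [sub_sub] using (integrable_Gd j ha r).comp_sub_right (c + ch (φ t) x r)
  have h1 : ∫ η, Gd 1 a r (η - c - ch (φ t) x r) = 0 := by
    simp only [sub_sub]
    rw [integral_sub_right_eq_self (Gd 1 a r), integral_Gd_one ha]
  have h2 : ∫ η, Gd 2 a r (η - c - ch (φ t) x r) = 0 := by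
    simp only [sub_sub]
    rw [integral_sub_right_eq_self (Gd 2 a r), integral_Gd_two ha]
  unfold Rk
  simp only [zero_add]
  refine ⟨((((hi 1).const_mul _).add ((hi 2).const_mul _)).sub ((hi 1).const_mul _)).const_mul ν,
    ?_⟩
  rw [integral_const_mul, integral_sub ?_ ((hi 1).const_mul _),
    integral_add ((hi 1).const_mul _) ((hi 2).const_mul _),
    integral_const_mul, integral_const_mul, integral_const_mul, h1, h2]
  · ring
  · exact ((hi 1).const_mul _).add ((hi 2).const_mul _)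

end Pool.Agent.Lib.MP_3d41d4_an
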