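import Pool.Agent.Lib.MP_3d41d4_an.Vel
import Pool.Agent.Lib.MP_3d41d4_an.Gauss2
import Pool.Agent.Lib.MP_3d41d4_an.Cyl

open MeasureTheory Set Filter Topology Real
open scoped ENNReal

namespace Pool.Agent.Lib.MP_3d41d4_an

variable {ρ L M₀ T : ℝ} {φ γ : ℝ → ℝ → ℝ}

theorem sing0_int_r : Integrable (fun r : ℝ => 1 / √|r|) (volume.restrict (Ioc (-π) π)) := by
  refine ⟨(by fun_prop : Measurable fun r : ℝ => 1 / √|r|).aestronglyMeasurable, ?_⟩
  rw [hasFiniteIntegral_iff_ofReal (Eventually.of_forall fun r => by positivity)]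
  exact lt_of_le_of_lt lintegral_inv_sqrt_abs ENNReal.ofReal_lt_top

theorem sing0_int_y {m b : ℝ} (hm : 0 < m) (hb : 0 < b) (c : ℝ) :
    Integrable fun y => gs m b y * (1 / √|y - c|) := by
  obtain ⟨C, -, hC⟩ := lintegral_gs_inv_sqrt hm
  have h1 : Measurable fun y : ℝ => 1 / √|y - c| := by fun_prop
  refine ⟨((continuous_gs m b).measurable.mul h1).aestronglyMeasurable, ?_⟩
  rw [hasFiniteIntegral_iff_ofReal
    (Eventually.of_forall fun y => mul_nonneg (gs_nonneg _ _ _) (by positivity))]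
  exact lt_of_le_of_lt (hC m le_rfl b hb c) ENNReal.ofReal_lt_top

theorem sing0_restrict_cyl0 :
    (volume : Measure (ℝ × ℝ)).restrict cyl0 = (volume.restrict (Ioc (-π) π)).prod volume := by
  unfold cyl0
  rw [Measure.volume_eq_prod, ← Measure.restrict_prod_eq_prod_univ]

/-- The Biot-Savart integral of a Gaussian layer converges absolutely. -/
theorem integrableOn_kc_mul {ψ : ℝ → ℝ} (hψ : Curve ρ L ψ) {d : ℝ → ℝ → ℝ}
    (hd : Measurable fun p : ℝ × ℝ => d p.1 p.2) {A m b : ℝ} (hm : 0 < m) (hb : 0 < b)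
    (hA : ∀ η x, |d η x| ≤ A * gs m b η) (η x : ℝ) :
    IntegrableOn (fun p : ℝ × ℝ =>
      kc (sarg p.1 (η - p.2) (ch ψ x p.1)) * (d p.2 (x + p.1) : ℂ)) cyl0 := by
  obtain ⟨C, hC0, hC⟩ := norm_kc_sarg_le L
  have hmeas : Measurable fun p : ℝ × ℝ =>
      kc (sarg p.1 (η - p.2) (ch ψ x p.1)) * (d p.2 (x + p.1) : ℂ) := by
    have hψm := hψ.continuous.measurable
    refine Measurable.mul (measurable_kc.comp ?_) ?_
    · unfold sarg ch
      fun_prop
    · exact Complex.measurable_ofReal.comp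
        (hd.comp (measurable_snd.prodMk (measurable_const.add measurable_fst)))
  have hint : Integrable (fun p : ℝ × ℝ => C * |A| *
      ((1 : ℝ) * gs m b p.2 + 1 / √|p.1| * (gs m b p.2 * (1 / √|p.2 - η|))))
      ((volume.restrict (Ioc (-π) π)).prod volume) :=
    (((integrable_const (1 : ℝ)).mul_prod (integrable_gs hm hb)).add
      (sing0_int_r.mul_prod (sing0_int_y hm hb η))).const_mul _
  unfold IntegrableOn
  rw [sing0_restrict_cyl0]
  refine hint.mono' hmeas.aestronglyMeasurable ?_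
  have a1 : ∀ᵐ p : ℝ × ℝ ∂((volume.restrict (Ioc (-π) π)).prod volume), p.1 ∈ Ioc (-π) π :=
    Measure.quasiMeasurePreserving_fst.ae (ae_restrict_mem measurableSet_Ioc)
  have a2 : ∀ᵐ p : ℝ × ℝ ∂((volume.restrict (Ioc (-π) π)).prod volume), p.1 ≠ 0 :=
    Measure.quasiMeasurePreserving_fst.ae (Measure.ae_ne _ (0 : ℝ))
  have a3 : ∀ᵐ p : ℝ × ℝ ∂((volume.restrict (Ioc (-π) π)).prod volume), p.2 ≠ η :=
    Measure.quasiMeasurePreserving_snd.ae (Measure.ae_ne _ η)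
  filter_upwards [a1, a2, a3] with p h1 h2 h3
  have hr : |p.1| ≤ π := abs_le.2 ⟨h1.1.le, h1.2⟩
  have hk := hC _ _ (hψ.chord x) p.1 (η - p.2) hr h2 (sub_ne_zero.2 h3.symm)
  have hg := gs_nonneg m b p.2
  have hdd : |d p.2 (x + p.1)| ≤ |A| * gs m b p.2 :=
    (hA _ _).trans (mul_le_mul_of_nonneg_right (le_abs_self A) hg)
  rw [norm_mul, Complex.norm_real, Real.norm_eq_abs, abs_sub_comm p.2 η]
  calc ‖kc (sarg p.1 (η - p.2) (ch ψ x p.1))‖ * |d p.2 (x + p.1)|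
      ≤ (C * (1 + 1 / √|p.1| * (1 / √|η - p.2|))) * (|A| * gs m b p.2) :=
        mul_le_mul hk hdd (abs_nonneg _) (by positivity)
    _ = _ := by ring

theorem wt_eq_cyl0 (hS : Sheet ρ L M₀ T φ γ) {β T' ν M : ℝ} {Ω Θ : ℝ → ℝ → ℝ → ℝ}
    (hP : Par ρ L T β T' ν) (hI : Inv ρ L β T' ν M γ Ω Θ)
    {s : ℝ} (hs : s ∈ Ioc 0 T') (η x : ℝ) :
    IntegrableOn (fun p : ℝ × ℝ =>
      kc (sarg p.1 (η - p.2) (ch (φ s) x p.1)) * (Ω s p.2 (x + p.1) : ℂ)) cyl0 ∧
    wt φ Ω s η x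
      = ∫ p in cyl0, kc (sarg p.1 (η - p.2) (ch (φ s) x p.1)) * (Ω s p.2 (x + p.1) : ℂ) := by
  have hm : 0 < mm L β s := lt_of_lt_of_le (by have := cg_pos L; positivity) (hP.mm_ge hs.2)
  have hb : 0 < ν * s := mul_pos hP.ν_pos hs.1
  have hd : Measurable fun p : ℝ × ℝ => Ω s p.1 p.2 :=
    hI.measΩ.comp (measurable_const.prodMk measurable_id)
  have hA : ∀ η x, |Ω s η x| ≤ 4 * M * gs (mm L β s) (ν * s) η := fun η x => by
    have := (hI.w0 s hs η).abs_le (hP.rad_pos hs.2).le (by norm_num) x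
    linarith
  have hint := integrableOn_kc_mul (hS.curve s) hd hm hb hA η x
  refine ⟨hint, ?_⟩
  unfold IntegrableOn at hint
  rw [sing0_restrict_cyl0] at hint ⊢
  rw [integral_prod_symm _ hint]
  unfold wt bs
  refine integral_congr_ae (Eventually.of_forall fun η' => ?_)
  exact intervalIntegral.integral_of_le (by linarith [pi_pos])

theorem Dw_per {ψ : ℝ → ℝ} (hψ : Function.Periodic ψ (2 * π)) {d : ℝ → ℝ → ℝ}
    (hd : ∀ η, Function.Periodic (d η) (2 * π)) (η : ℝ) :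
    Function.Periodic (Dw ψ d η) (2 * π) := by
  intro x
  unfold Dw ch
  refine lintegral_congr fun p => ?_
  rw [add_right_comm x (2 * π) p.1, hψ, hψ, hd]

end Pool.Agent.Lib.MP_3d41d4_an
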