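import Pool.Agent.Lib.MP_3d41d4_an.NB
import Pool.Agent.Lib.MP_3d41d4_an.Gauss2

open MeasureTheory Set Filter Topology Real
open scoped ENNReal

namespace Pool.Agent.Lib.MP_3d41d4_an

variable {ρ L M₀ T : ℝ} {φ γ : ℝ → ℝ → ℝ}

theorem step0 (hS : Sheet ρ L M₀ T φ γ) : ∃ C₀ : ℝ, 0 < C₀ ∧ ∀ M : ℝ, ∃ C : ℝ, 0 < C ∧
    ∀ {β T' ν : ℝ} {Ω Θ : ℝ → ℝ → ℝ → ℝ}, Par ρ L T β T' ν → Inv ρ L β T' ν M γ Ω Θ →
      ∀ t ∈ Ioc 0 T', ∀ η, WR (ρ - β * t) 3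
        ((C₀ + C * (t + 1 / β)) * gs (mm L β t) (ν * t) η) (Om φ γ ν Ω Θ 0 0 t η) := by
  obtain ⟨CA, hA0, hA⟩ := Ak_WR hS
  refine ⟨CA, hA0, fun M => ?_⟩
  obtain ⟨CN, hN0, hN⟩ := Nk_WR hS M
  refine ⟨CN, hN0, fun {β T' ν Ω Θ} hP hI t ht η => ?_⟩
  have hb : 0 < ν * t := mul_pos hP.ν_pos ht.1
  have h1 := hA ν 0 t (by rwa [add_zero]) 0 zero_le_one η
  rw [pow_zero, mul_one, add_zero] at h1
  have h2 : WR (ρ - β * t) 3 (CA * gs (mm L β t) (ν * t) η) (Ak φ γ ν 0 0 t η) :=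
    h1.mono (hP.rad_le ht.1.le) (by norm_num) (mul_le_mul_of_nonneg_left
      (gs_anti ((hP.mm_le ht.1.le).trans (half_le_self (cg_pos L).le)) hb η) hA0.le)
  have h3 := WR.integral_gain (n := 2) (M := CN * gs (mm L β t) (ν * t) η) hP.β_pos ht.1
    (sub_pos.1 (hP.rad_pos ht.2)) (f := fun s x => Nk φ γ ν Ω Θ 0 0 t s η x)
    (meas_Nk hS ν hI.measΩ hI.measΘ 0 measurable_const measurable_const measurable_fst
      measurable_const measurable_snd) fun s hs => by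
      have h4 := hN hP hI 0 ⟨le_rfl, zero_le_one⟩ t ht s hs 0 zero_le_one η
      rw [pow_zero, mul_one, add_zero] at h4
      refine h4.mono le_rfl le_rfl (mul_le_mul_of_nonneg_left (gs_anti ?_ hb η) hN0.le)
      exact sub_le_sub_left (mul_le_mul_of_nonneg_left hs.2.le hP.β_pos.le) _
  exact (h2.add h3).mono le_rfl le_rfl (le_of_eq (by ring))

theorem step1 (hS : Sheet ρ L M₀ T φ γ) : ∃ C₀ : ℝ, 0 < C₀ ∧ ∀ M : ℝ, ∃ C : ℝ, 0 < C ∧
    ∀ {β T' ν : ℝ} {Ω Θ : ℝ → ℝ → ℝ → ℝ}, Par ρ L T β T' ν → Inv ρ L β T' ν M γ Ω Θ →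
      ∀ t ∈ Ioc 0 T', ∀ η, WR (ρ - β * t) 2
        ((C₀ + C * (t + √(t / β))) * gs (mm L β t) (ν * t) η / (√(ν * t) + |η|))
        (Om φ γ ν Ω Θ 1 0 t η) := by
  obtain ⟨CA, hA0, hA⟩ := Ak_WR hS
  obtain ⟨Cp, hp0, hp⟩ := poly_mul_gs_le (half_pos (cg_pos L))
  refine ⟨CA * Cp, mul_pos hA0 hp0, fun M => ?_⟩
  obtain ⟨CN, hN0, hN⟩ := Nk_WR hS M
  refine ⟨2 * CN, by positivity, fun {β T' ν Ω Θ} hP hI t ht η => ?_⟩
  have hb : 0 < ν * t := mul_pos hP.ν_pos ht.1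
  have hq : 0 < √(ν * t) := Real.sqrt_pos.2 hb
  have hl : 0 < √(ν * t) + |η| := by positivity
  have h1 := hA ν 0 t (by rwa [add_zero]) 1 le_rfl η
  rw [pow_one, add_zero] at h1
  have h2 : WR (ρ - β * t) 2 (CA * Cp * gs (mm L β t) (ν * t) η / (√(ν * t) + |η|))
      (Ak φ γ ν 1 0 t η) := by
    refine h1.mono (hP.rad_le ht.1.le) (by norm_num) ?_
    have h3 := hp _ hb η
    rw [mul_div_cancel₀ _ two_ne_zero] at h3
    have h4 : 1 + |η| / √(ν * t) ≤ (1 + |η| / √(ν * t)) ^ 4 :=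
      le_self_pow₀ (le_add_of_nonneg_right (by positivity)) (by norm_num)
    have h5 := (mul_le_mul_of_nonneg_right h4 (gs_nonneg (cg L) (ν * t) η)).trans
      (h3.trans (mul_le_mul_of_nonneg_left (gs_anti (hP.mm_le ht.1.le) hb η) hp0.le))
    rw [le_div_iff₀ hl, mul_assoc CA Cp]
    refine le_of_eq_of_le ?_ (mul_le_mul_of_nonneg_left h5 hA0.le)
    field_simp
  obtain ⟨hi, hg⟩ := time_weight_gain (μ := cg L / 2) hP.β_pos hP.ν_pos ht.1 η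
  have h3 := WR.integral (μ := volume.restrict (Ioo 0 t)) (n := 2) (hP.rad_pos ht.2)
    (f := fun s x => Nk φ γ ν Ω Θ 1 0 t s η x)
    (meas_Nk hS ν hI.measΩ hI.measΘ 1 measurable_const measurable_const measurable_fst
      measurable_const measurable_snd) (hi.const_mul CN)
    ((ae_restrict_mem measurableSet_Ioo).mono fun s hs => by
      have h4 := hN hP hI 0 ⟨le_rfl, zero_le_one⟩ t ht s hs 1 le_rfl η
      rw [pow_one, aa, add_zero, add_zero, mul_assoc] at h4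
      exact h4.mono (sub_le_sub_left (mul_le_mul_of_nonneg_left hs.2.le hP.β_pos.le) _)
        le_rfl le_rfl)
  refine (h2.add h3).mono le_rfl le_rfl ?_
  rw [integral_const_mul, add_mul, add_div, add_le_add_iff_left, le_div_iff₀ hl]
  have h4 : √(π * t / β) ≤ 2 * √(t / β) := by
    rw [mul_div_assoc, Real.sqrt_mul Real.pi_pos.le]
    exact mul_le_mul_of_nonneg_right
      (Real.sqrt_le_iff.2 ⟨zero_le_two, by linarith [Real.pi_le_four]⟩) (Real.sqrt_nonneg _)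
  have h5 := hg.trans (mul_le_mul_of_nonneg_right (add_le_add_right h4 (2 * t)) (gs_nonneg _ _ _))
  refine le_of_eq_of_le (by ring) ((mul_le_mul_of_nonneg_left h5 hN0.le).trans_eq ?_)
  rw [mm]
  ring

end Pool.Agent.Lib.MP_3d41d4_an
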