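import Pool.Agent.Lib.MP_3d41d4_an.St0

open MeasureTheory Set Filter Topology Real
open scoped ENNReal

namespace Pool.Agent.Lib.MP_3d41d4_an

variable {ρ L M₀ T : ℝ} {φ γ : ℝ → ℝ → ℝ}

/-- The first iterate satisfies the invariant. -/
theorem inv_zero (hS : Sheet ρ L M₀ T φ γ) : ∃ C₀ : ℝ, 0 < C₀ ∧ ∀ M, C₀ ≤ M →
    ∀ {β T' ν : ℝ}, Par ρ L T β T' ν → Inv ρ L β T' ν M γ (Om0 γ L ν) (Th0 γ L ν) := by
  have hcg := cg_pos L
  have hM₀ := hS.M_pos
  obtain ⟨C, hC, hp⟩ := poly_mul_gs_le (m := cg L / 2) (by positivity)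
  have e2 : 2 * (cg L / 2) = cg L := by ring
  rw [e2] at hp
  set k : ℝ := √(cg L / π) with hk
  have hk0 : 0 ≤ k := Real.sqrt_nonneg _
  refine ⟨k * M₀ + 2 * cg L * C * k * M₀ + 1, by positivity, fun M hM β T' ν hP => ?_⟩
  have h1 : 0 ≤ k * M₀ := by positivity
  have h2 : 0 ≤ 2 * cg L * C * k * M₀ := by positivity
  have mO : Measurable fun p : ℝ × ℝ × ℝ => Om0 γ L ν p.1 p.2.1 p.2.2 := by
    unfold Om0
    exact (measurable_const.mul (measurable_gs measurable_const (by fun_prop) (by fun_prop))).mul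
      (hS.measγ (by fun_prop) (by fun_prop))
  have w0 : ∀ t ∈ Ioc 0 T', ∀ η, WR (ρ - β * t) 3 (k * M₀ * gs (cg L) (ν * t) η)
      (Om0 γ L ν t η) := by
    intro t ht η
    have := (hS.wγ t).const_mul (k * gs (cg L) (ν * t) η)
    refine this.mono (hP.rad_le ht.1.le) (by norm_num) (le_of_eq ?_)
    rw [abs_of_nonneg (mul_nonneg hk0 (gs_nonneg _ _ _))]
    ring
  refine ⟨mO, ?_, ?_, ?_, ?_, ?_⟩
  · unfold Th0
    exact Measurable.mul (by fun_prop) mO
  · intro t ht η
    have hb : 0 < ν * t := mul_pos hP.ν_pos ht.1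
    refine (w0 t ht η).mono le_rfl le_rfl ?_
    have h3 : gs (cg L) (ν * t) η ≤ gs (mm L β t) (ν * t) η :=
      gs_anti ((hP.mm_le ht.1.le).trans (by linarith)) hb η
    exact mul_le_mul (by linarith) h3 (gs_nonneg _ _ _) (by linarith)
  · intro t ht η
    have hb : 0 < ν * t := mul_pos hP.ν_pos ht.1
    have hl : 0 < √(ν * t) := Real.sqrt_pos.mpr hb
    refine ((w0 t ht η).const_mul (-(2 * cg L * η / (ν * t)))).mono le_rfl (by norm_num) ?_
    have h3 : gs (cg L / 2) (ν * t) η ≤ gs (mm L β t) (ν * t) η :=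
      gs_anti (hP.mm_le ht.1.le) hb η
    have h4 := hp (ν * t) hb η
    set l := √(ν * t) with hl'
    have hll : ν * t = l ^ 2 := (Real.sq_sqrt hb.le).symm
    set g := gs (cg L) (ν * t) η
    have hg : 0 ≤ g := gs_nonneg _ _ _
    have hu : 0 ≤ |η| / l := by positivity
    have h5 : |η| / l * (1 + |η| / l) ≤ (1 + |η| / l) ^ 4 := by
      have h6 : 1 ≤ 1 + |η| / l := by linarith
      calc |η| / l * (1 + |η| / l) ≤ (1 + |η| / l) ^ 2 := by nlinarith
        _ ≤ (1 + |η| / l) ^ 4 := pow_le_pow_right₀ h6 (by norm_num)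
    rw [le_div_iff₀ (by positivity), abs_neg, abs_div, abs_mul, abs_of_pos hb,
      abs_of_pos (by positivity : 0 < 2 * cg L)]
    calc 2 * cg L * |η| / (ν * t) * (k * M₀ * g) * (l + |η|)
        = 2 * cg L * k * M₀ * (|η| / l * (1 + |η| / l) * g) := by
          rw [hll]; field_simp
      _ ≤ 2 * cg L * k * M₀ * (C * gs (mm L β t) (ν * t) η) := by
          apply mul_le_mul_of_nonneg_left _ (by positivity)
          calc |η| / l * (1 + |η| / l) * g ≤ (1 + |η| / l) ^ 4 * g :=
                mul_le_mul_of_nonneg_right h5 hg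
            _ ≤ C * gs (cg L / 2) (ν * t) η := h4
            _ ≤ _ := mul_le_mul_of_nonneg_left h3 hC.le
      _ = 2 * cg L * C * k * M₀ * gs (mm L β t) (ν * t) η := by ring
      _ ≤ M * gs (mm L β t) (ν * t) η :=
          mul_le_mul_of_nonneg_right (by linarith) (gs_nonneg _ _ _)
  · intro t ht η x
    have := ((hasDerivAt_gs (cg L) (ν * t) η).const_mul k).mul_const (γ t x)
    refine this.congr_deriv ?_
    unfold Th0 Om0
    ring
  · intro t ht
    have hb : 0 < ν * t := mul_pos hP.ν_pos ht.1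
    have e : (fun x => SS (Om0 γ L ν) t x - γ t x) = fun _ => (0 : ℝ) := by
      funext x
      unfold SS Om0
      rw [integral_mul_const, integral_const_mul, integral_gs hcg hb, ← Real.sqrt_mul (by positivity)]
      have : cg L / π * (π / cg L) = 1 := by field_simp
      rw [this]
      simp
    rw [e]
    refine (WR.const _ _ 0).mono le_rfl le_rfl ?_
    rw [abs_zero]
    exact mul_nonneg (by linarith) (Real.sqrt_nonneg _)

end Pool.Agent.Lib.MP_3d41d4_an
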