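import Pool.Agent.Lib.MP_3d41d4_an.NB
import Pool.Agent.Lib.MP_3d41d4_an.Heat

open MeasureTheory Set Filter Topology Real
open scoped ENNReal

namespace Pool.Agent.Lib.MP_3d41d4_an

variable {ρ L M₀ T : ℝ} {φ γ : ℝ → ℝ → ℝ}

theorem St3a_integral_Gd {a : ℝ} (ha : 0 < a) (r c : ℝ) :
    Integrable (fun η => Gd 0 a r (η - c)) ∧ ∫ η, Gd 0 a r (η - c) = H a r := by
  refine ⟨(integrable_Gd 0 ha r).comp_sub_right c, ?_⟩
  rw [integral_sub_right_eq_self (fun Y => Gd 0 a r Y) c]
  exact integral_Gd_zero ha r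

theorem St3a_Gd_le (hS : Sheet ρ L M₀ T φ γ) : ∃ C : ℝ, 0 < C ∧ ∀ t a : ℝ, 0 < a →
    ∀ x r σ : ℝ, |Gd 0 a r (σ - ch (φ t) x r)| ≤ C * (gs (cg L) a σ * gs (cg L) a r) := by
  obtain ⟨C, hC, h⟩ := Gd_WR ρ L
  refine ⟨4 * C, by positivity, fun t a ha x r σ => ?_⟩
  have h1 := (h (φ t) (hS.curve t) a ha 0 (by norm_num) 0 (by norm_num) r σ).abs_le
    hS.ρ_pos.le (by norm_num) x
  simp only [pow_zero, one_mul, add_zero, mul_one] at h1
  calc _ ≤ _ := h1
    _ = _ := by ring

theorem integral_Ak (hS : Sheet ρ L M₀ T φ γ) {ν t : ℝ} (h : 0 < ν * t) (x : ℝ) :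
    Integrable (fun η => Ak φ γ ν 0 0 t η x) ∧
      ∫ η, Ak φ γ ν 0 0 t η x = heat (ν * t) (γ 0) x := by
  obtain ⟨C, hC, hG⟩ := St3a_Gd_le hS
  have hγ : ∀ y, |γ 0 y| ≤ 4 * M₀ := fun y => (hS.wγ 0).abs_le hS.ρ_pos.le (by norm_num) y
  have hint : Integrable (fun z : ℝ × ℝ =>
      Gd 0 (ν * t) z.2 (z.1 - ch (φ t) x z.2) * γ 0 (x + z.2)) (volume.prod volume) := by
    have hb : Integrable (fun z : ℝ × ℝ =>
        (C * (4 * M₀)) * (gs (cg L) (ν * t) z.1 * gs (cg L) (ν * t) z.2)) (volume.prod volume) :=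
      ((integrable_gs (cg_pos L) h).mul_prod (integrable_gs (cg_pos L) h)).const_mul _
    refine hb.mono' ?_ (ae_of_all _ fun z => ?_)
    · refine Measurable.aestronglyMeasurable ?_
      exact (measurable_Gd 0 measurable_const measurable_snd
        (measurable_fst.sub (hS.meas_ch measurable_const measurable_const measurable_snd))).mul
        (hS.measγ measurable_const (measurable_const.add measurable_snd))
    · rw [Real.norm_eq_abs, abs_mul]
      have h1 := hG t (ν * t) h x z.2 z.1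
      have h2 := hγ (x + z.2)
      calc _ ≤ (C * (gs (cg L) (ν * t) z.1 * gs (cg L) (ν * t) z.2)) * (4 * M₀) :=
            mul_le_mul h1 h2 (abs_nonneg _) ((abs_nonneg _).trans h1)
        _ = _ := by ring
  simp only [Ak, add_zero]
  refine ⟨hint.integral_prod_left, ?_⟩
  have hsw := integral_integral_swap (μ := volume) (ν := volume)
    (f := fun η r => Gd 0 (ν * t) r (η - ch (φ t) x r) * γ 0 (x + r)) hint
  rw [hsw, heat]
  refine integral_congr_ae (ae_of_all _ fun r => ?_)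
  simp only
  rw [integral_mul_const, (St3a_integral_Gd h r _).2]

theorem St3a_triple {m m' a b : ℝ} (hm : 0 < m) (hm' : 0 < m') (ha : 0 < a) (hb : 0 < b) :
    Integrable (fun z : ℝ × (ℝ × ℝ) => gs m a z.2.1 * (gs m a (z.1 - z.2.2) * gs m' b z.2.2))
      (volume.prod volume) := by
  have hmeas : Measurable fun z : ℝ × (ℝ × ℝ) =>
      gs m a z.2.1 * (gs m a (z.1 - z.2.2) * gs m' b z.2.2) :=
    (measurable_gs measurable_const measurable_const measurable_snd.fst).mul
      ((measurable_gs measurable_const measurable_const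
        (measurable_fst.sub measurable_snd.snd)).mul
        (measurable_gs measurable_const measurable_const measurable_snd.snd))
  rw [integrable_prod_iff' hmeas.aestronglyMeasurable]
  refine ⟨ae_of_all _ fun p => ?_, ?_⟩
  · exact (((integrable_gs hm ha).comp_sub_right p.2).mul_const (gs m' b p.2)).const_mul
      (gs m a p.1)
  · have hb' : Integrable (fun p : ℝ × ℝ => √(π / m) * (gs m a p.1 * gs m' b p.2))
        (volume.prod volume) :=
      ((integrable_gs hm ha).mul_prod (integrable_gs hm' hb)).const_mul _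
    refine hb'.congr (ae_of_all _ fun p => ?_)
    have e : ∀ η : ℝ, ‖gs m a p.1 * (gs m a (η - p.2) * gs m' b p.2)‖
        = gs m a (η - p.2) * (gs m a p.1 * gs m' b p.2) := by
      intro η
      rw [Real.norm_eq_abs, abs_of_nonneg (mul_nonneg (gs_nonneg _ _ _)
        (mul_nonneg (gs_nonneg _ _ _) (gs_nonneg _ _ _)))]
      ring
    simp only [e]
    rw [integral_mul_const, integral_sub_right_eq_self (fun y => gs m a y) p.2, integral_gs hm ha]

theorem integral_Nk (hS : Sheet ρ L M₀ T φ γ) {β T' ν M : ℝ} {Ω Θ : ℝ → ℝ → ℝ → ℝ}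
    (hP : Par ρ L T β T' ν) (hI : Inv ρ L β T' ν M γ Ω Θ)
    {t s : ℝ} (ht : t ∈ Ioc 0 T') (hs : s ∈ Ioo 0 t) (x : ℝ) :
    ∫ η, Nk φ γ ν Ω Θ 0 0 t s η x
      = -heat (ν * (t - s)) (fun y => ∫ η', FF φ γ Ω Θ s η' y) x := by
  obtain ⟨C, hC, hN⟩ := nI_WR hS M
  obtain ⟨C', hC', hF⟩ := FF_WR hS M
  have hsT : s ≤ T' := hs.2.le.trans ht.2
  have hs' : s ∈ Ioc 0 T' := ⟨hs.1, hsT⟩
  have ha0 : 0 < ν * (t - s) := mul_pos hP.ν_pos (sub_pos.2 hs.2)
  have haa : aa ν 0 t s = ν * (t - s) := by simp [aa]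
  have ha : 0 < aa ν 0 t s := haa ▸ ha0
  have hb : 0 < ν * s := mul_pos hP.ν_pos hs.1
  have hmm : 0 < mm L β s := lt_of_lt_of_le (by have := cg_pos L; positivity) (hP.mm_ge hsT)
  have hρ : 0 ≤ ρ - β * s := (hP.rad_pos hsT).le
  have hint : Integrable (fun z : ℝ × (ℝ × ℝ) => nI φ γ ν Ω Θ 0 0 t s z.1 x z.2)
      (volume.prod volume) := by
    refine ((St3a_triple (cg_pos L) hmm ha hb).const_mul (4 * C)).mono' ?_
      (ae_of_all _ fun z => ?_)
    · exact (meas_nI hS ν hI.measΩ hI.measΘ 0 measurable_const measurable_const measurable_const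
        measurable_fst measurable_const measurable_snd).aestronglyMeasurable
    · have h1 := (hN hP hI 0 ⟨le_rfl, zero_le_one⟩ t ht s hs 0 (by norm_num) z.1 z.2).abs_le
        hρ le_rfl x
      rw [Real.norm_eq_abs]
      simp only [pow_zero, mul_one] at h1
      calc _ ≤ _ := h1
        _ = _ := by ring
  have hsw := integral_integral_swap (μ := volume) (ν := volume)
    (f := fun η p => nI φ γ ν Ω Θ 0 0 t s η x p) hint
  simp only [Nk]
  rw [hsw]
  have hin : ∀ p : ℝ × ℝ, ∫ η, nI φ γ ν Ω Θ 0 0 t s η x p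
      = -(H (ν * (t - s)) p.1 * FF φ γ Ω Θ s p.2 (x + p.1)) := by
    intro p
    obtain ⟨hG1, hG2⟩ := St3a_integral_Gd ha p.1 (p.2 + ch (φ t) x p.1)
    obtain ⟨hR1, hR2⟩ := integral_Rk φ ν ha t s x p.1 p.2
    have hG3 : Integrable fun η => -Gd 0 (aa ν 0 t s) p.1 (η - (p.2 + ch (φ t) x p.1)) :=
      hG1.neg
    simp only [nI, sub_sub]
    rw [integral_add (hG3.mul_const _) (hR1.mul_const _), integral_mul_const,
      integral_mul_const, integral_neg, hG2, hR2, haa]
    ring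
  simp only [hin]
  rw [integral_neg, heat]
  congr 1
  have hint2 : Integrable (fun p : ℝ × ℝ => H (ν * (t - s)) p.1 * FF φ γ Ω Θ s p.2 (x + p.1))
      (volume.prod volume) := by
    refine (((integrable_H ha0).mul_prod (integrable_gs hmm hb)).const_mul (4 * C')).mono' ?_
      (ae_of_all _ fun p => ?_)
    · exact ((measurable_H measurable_const measurable_fst).mul
        (meas_FF hS hI.measΩ hI.measΘ measurable_const measurable_snd
          (measurable_const.add measurable_fst))).aestronglyMeasurable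
    · have h1 := (hF hP hI s hs' p.2).abs_le hρ le_rfl (x + p.1)
      rw [Real.norm_eq_abs, abs_mul, abs_of_nonneg (H_nonneg _ _)]
      calc _ ≤ H (ν * (t - s)) p.1 * (4 * (C' * gs (mm L β s) (ν * s) p.2)) :=
            mul_le_mul_of_nonneg_left h1 (H_nonneg _ _)
        _ = _ := by ring
  rw [Measure.volume_eq_prod, integral_prod _ hint2]
  refine integral_congr_ae (ae_of_all _ fun r => ?_)
  simp only
  rw [integral_const_mul]

/-- The total vorticity of the next iterate. -/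
theorem SS_Om (hS : Sheet ρ L M₀ T φ γ) {β T' ν M : ℝ} {Ω Θ : ℝ → ℝ → ℝ → ℝ}
    (hP : Par ρ L T β T' ν) (hI : Inv ρ L β T' ν M γ Ω Θ)
    {t : ℝ} (ht : t ∈ Ioc 0 T') (x : ℝ) :
    SS (Om φ γ ν Ω Θ 0 0) t x = heat (ν * t) (γ 0) x
      - ∫ s in Ioo 0 t, heat (ν * (t - s)) (fun y => ∫ η', FF φ γ Ω Θ s η' y) x := by
  obtain ⟨C, hC, hN⟩ := Nk_WR hS M
  have hb : 0 < ν * t := mul_pos hP.ν_pos ht.1
  have hc4 : 0 < cg L / 4 := by have := cg_pos L; positivity
  obtain ⟨hA1, hA2⟩ := integral_Ak hS hb x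
  have hint : Integrable (fun z : ℝ × ℝ => Nk φ γ ν Ω Θ 0 0 t z.2 z.1 x)
      (volume.prod (volume.restrict (Ioo 0 t))) := by
    have h1 : Integrable (fun _ : ℝ => (1 : ℝ)) (volume.restrict (Ioo 0 t)) :=
      integrable_const _
    refine (((integrable_gs hc4 hb).mul_prod h1).const_mul (4 * C)).mono' ?_ ?_
    · exact (meas_Nk hS ν hI.measΩ hI.measΘ 0 measurable_const measurable_const measurable_snd
        measurable_fst measurable_const).aestronglyMeasurable
    · have hae : ∀ᵐ z ∂((volume : Measure ℝ).prod (volume.restrict (Ioo (0 : ℝ) t))),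
          z.2 ∈ Ioo 0 t :=
        Measure.quasiMeasurePreserving_snd.ae (ae_restrict_mem measurableSet_Ioo)
      filter_upwards [hae] with z hz
      have hsT : z.2 ≤ T' := hz.2.le.trans ht.2
      have h2 := (hN hP hI 0 ⟨le_rfl, zero_le_one⟩ t ht z.2 hz 0 (by norm_num) z.1).abs_le
        (hP.rad_pos hsT).le le_rfl x
      simp only [pow_zero, mul_one, add_zero] at h2
      have h3 : gs (mm L β z.2) (ν * t) z.1 ≤ gs (cg L / 4) (ν * t) z.1 :=
        gs_anti (hP.mm_ge hsT) hb _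
      rw [Real.norm_eq_abs]
      calc _ ≤ _ := h2
        _ ≤ 4 * (C * gs (cg L / 4) (ν * t) z.1) := by gcongr
        _ = _ := by ring
  have hsw := integral_integral_swap (μ := volume) (ν := volume.restrict (Ioo 0 t))
    (f := fun η s => Nk φ γ ν Ω Θ 0 0 t s η x) hint
  simp only [SS, Om]
  rw [integral_add hA1 hint.integral_prod_left, hA2, hsw, sub_eq_add_neg, ← integral_neg]
  congr 1
  exact setIntegral_congr_fun measurableSet_Ioo fun s hs => integral_Nk hS hP hI ht hs x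

end Pool.Agent.Lib.MP_3d41d4_an
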