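import Pool.Agent.Lib.MP_3d41d4_an.Symb0

open MeasureTheory Set Filter Topology Real
open scoped ENNReal

namespace Pool.Agent.Lib.MP_3d41d4_an


theorem Symb_inv_le {z : ℂ} {K t : ℝ} (ht : 0 < t) (h : t ≤ K * ‖z‖) : ‖z⁻¹‖ ≤ K / t := by
  have hz : 0 < ‖z‖ := by
    by_contra h0
    have : ‖z‖ = 0 := le_antisymm (not_lt.1 h0) (norm_nonneg _)
    rw [this, mul_zero] at h
    linarith
  rw [norm_inv, le_div_iff₀ ht, inv_mul_le_iff₀ hz]
  linarith

theorem Symb_int (τ : ℝ) (hτ : 0 < τ) : ∫ r in (0 : ℝ)..π, τ / (r + τ) ^ 2 ≤ 1 := by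
  have hd : ∀ r ∈ uIcc (0 : ℝ) π, HasDerivAt (fun r : ℝ => -τ * (r + τ)⁻¹) (τ / (r + τ) ^ 2) r := by
    intro r hr
    rw [uIcc_of_le pi_pos.le] at hr
    have h0 : r + τ ≠ 0 := by linarith [hr.1]
    have := (((hasDerivAt_id r).add_const τ).inv h0).const_mul (-τ)
    refine this.congr_deriv ?_
    simp only [id]
    field_simp
  rw [intervalIntegral.integral_eq_sub_of_hasDerivAt hd]
  · have h1 : 0 ≤ τ * (π + τ)⁻¹ := by have := pi_pos; positivity
    have h2 : τ * (0 + τ)⁻¹ = 1 := by rw [zero_add]; exact mul_inv_cancel₀ hτ.ne'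
    linarith
  · refine ContinuousOn.intervalIntegrable ?_
    rw [uIcc_of_le pi_pos.le]
    refine continuousOn_const.div (by fun_prop) fun r hr => ?_
    have : 0 < r + τ := by linarith [hr.1]
    positivity

theorem Symb_model {a : ℂ} {K A σ : ℝ} (hσ : σ ≠ 0) (hK : 1 ≤ K) (hA1 : 1 ≤ A) (hA : ‖a‖ ≤ A)
    (h : ∀ r : ℝ, |r| + |σ| ≤ K * ‖Complex.I * σ - a * r‖) (ξ : ℝ) :
    ‖∫ r in (-π)..π, (Complex.I * σ - a * r)⁻¹ *
      Complex.exp ((ξ : ℂ) * (r : ℂ) * Complex.I)‖ ≤ 2 * K ^ 2 + 5 * (2 * A * K ^ 2) := by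
  have hτ : 0 < |σ| := abs_pos.2 hσ
  have hm : ∀ r : ℝ, ‖(Complex.I * σ - a * r)⁻¹‖ ≤ K / (|r| + |σ|) := fun r =>
    Symb_inv_le (by positivity) (h r)
  have hn : ∀ r : ℝ, ‖(Complex.I * σ + a * r)⁻¹‖ ≤ K / (|r| + |σ|) := fun r => by
    have := hm (-r)
    rw [abs_neg] at this
    simpa using this
  have hm0 : ∀ r : ℝ, Complex.I * σ - a * r ≠ 0 := fun r h0 => by
    have := h r
    rw [h0, norm_zero, mul_zero] at this
    linarith [abs_nonneg r]
  have hn0 : ∀ r : ℝ, Complex.I * σ + a * r ≠ 0 := fun r => by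
    have := hm0 (-r)
    simpa using this
  have cm : Continuous fun r : ℝ => (Complex.I * σ - a * r)⁻¹ :=
    Continuous.inv₀ (by fun_prop) hm0
  have cn : Continuous fun r : ℝ => (Complex.I * σ + a * r)⁻¹ :=
    Continuous.inv₀ (by fun_prop) hn0
  set f : ℝ → ℂ := fun r => (Complex.I * σ - a * r)⁻¹ *
      Complex.exp ((ξ : ℂ) * (r : ℂ) * Complex.I) with hf
  have cf : Continuous f := cm.mul (by fun_prop)
  let g : ℝ → ℂ := fun r => ((Complex.I * σ - a * r)⁻¹ + (Complex.I * σ + a * r)⁻¹) *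
    (Real.cos (ξ * r) : ℂ)
  let k : ℝ → ℂ := fun r => Complex.I * ((Complex.I * σ - a * r)⁻¹ - (Complex.I * σ + a * r)⁻¹)
  let k' : ℝ → ℂ := fun r => Complex.I * (a * ((Complex.I * σ - a * r)⁻¹) ^ 2 +
    a * ((Complex.I * σ + a * r)⁻¹) ^ 2)
  have cg : Continuous g := (cm.add cn).mul (by fun_prop)
  have ck : Continuous k := continuous_const.mul (cm.sub cn)
  have ck' : Continuous k' :=
    continuous_const.mul ((continuous_const.mul (cm.pow 2)).add (continuous_const.mul (cn.pow 2)))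
  have e1 : ∫ r in (-π)..π, f r =
      (∫ r in (0 : ℝ)..π, g r) + ∫ r in (0 : ℝ)..π, k r * (Real.sin (ξ * r) : ℂ) := by
    rw [← intervalIntegral.integral_add_adjacent_intervals (b := 0) (cf.intervalIntegrable _ _)
      (cf.intervalIntegrable _ _)]
    have e2 : ∫ r in (-π)..0, f r = ∫ r in (0 : ℝ)..π, f (-r) := by
      rw [intervalIntegral.integral_comp_neg, neg_zero]
    have cf' : Continuous fun r : ℝ => f (-r) := cf.comp continuous_neg
    have ck2 : Continuous fun r : ℝ => k r * (Real.sin (ξ * r) : ℂ) := ck.mul (by fun_prop)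
    rw [e2, ← intervalIntegral.integral_add (cf'.intervalIntegrable _ _)
      (cf.intervalIntegrable _ _), ← intervalIntegral.integral_add (cg.intervalIntegrable _ _)
      (ck2.intervalIntegrable _ _)]
    refine intervalIntegral.integral_congr fun r _ => ?_
    have e3 : (ξ : ℂ) * ((-r : ℝ) : ℂ) = -((ξ : ℂ) * r) := by
      push_cast; ring
    have e4 : Complex.I * σ - a * ((-r : ℝ) : ℂ) = Complex.I * σ + a * r := by
      push_cast; ring
    simp only [hf, g, k, e3, e4, Complex.exp_mul_I, Complex.cos_neg,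
      Complex.sin_neg]
    push_cast
    ring
  rw [e1]
  refine (norm_add_le _ _).trans (add_le_add ?_ ?_)
  · have hb : ∀ r ∈ Ioc (0 : ℝ) π, ‖g r‖ ≤ 2 * K ^ 2 * (|σ| / (r + |σ|) ^ 2) := by
      intro r hr
      have e5 : (Complex.I * σ - a * r)⁻¹ + (Complex.I * σ + a * r)⁻¹ =
          2 * Complex.I * σ * ((Complex.I * σ - a * r)⁻¹ * (Complex.I * σ + a * r)⁻¹) := by
        have := hm0 r
        have := hn0 r
        field_simp
        ring
      have h1 := hm r
      have h2 := hn r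
      rw [abs_of_pos hr.1] at h1 h2
      have h3 : ‖(Real.cos (ξ * r) : ℂ)‖ ≤ 1 := by
        rw [Complex.norm_real]; exact abs_cos_le_one _
      have h4 : 0 < r + |σ| := by linarith [hr.1]
      simp only [g]
      rw [e5, norm_mul, norm_mul, norm_mul, norm_mul, norm_mul, Complex.norm_I,
        Complex.norm_real, Real.norm_eq_abs, Complex.norm_two]
      calc 2 * 1 * |σ| * (‖(Complex.I * σ - a * r)⁻¹‖ * ‖(Complex.I * σ + a * r)⁻¹‖) *
            ‖(Real.cos (ξ * r) : ℂ)‖
          ≤ 2 * 1 * |σ| * (K / (r + |σ|) * (K / (r + |σ|))) * 1 := by gcongr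
        _ = 2 * K ^ 2 * (|σ| / (r + |σ|) ^ 2) := by field_simp
    have hi : IntervalIntegrable (fun r : ℝ => 2 * K ^ 2 * (|σ| / (r + |σ|) ^ 2)) volume 0 π := by
      refine ContinuousOn.intervalIntegrable ?_
      rw [uIcc_of_le pi_pos.le]
      refine continuousOn_const.mul (continuousOn_const.div (by fun_prop) fun r hr => ?_)
      have : 0 < r + |σ| := by linarith [hr.1]
      positivity
    refine (intervalIntegral.norm_integral_le_of_norm_le pi_pos.le (ae_of_all _ hb) hi).trans ?_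
    rw [intervalIntegral.integral_const_mul]
    have := Symb_int _ hτ
    have h5 : 0 ≤ 2 * K ^ 2 := by positivity
    nlinarith
  · refine norm_integral_mul_sin_le (h' := k') ck.continuousOn (fun r _ => ?_) ck'.continuousOn
      (fun r hr => ?_) (fun r hr => ?_) ξ
    · have d0 : HasDerivAt (fun r : ℝ => a * (r : ℂ)) a r := by
        simpa using (Complex.ofRealCLM.hasDerivAt (x := r)).const_mul a
      have d1 := (d0.const_sub (Complex.I * σ)).inv (hm0 r)
      have d2 := (d0.const_add (Complex.I * σ)).inv (hn0 r)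
      have := (d1.sub d2).const_mul Complex.I
      refine this.congr_deriv ?_
      simp only [k', inv_pow]
      ring
    · have h1 := hm r
      have h2 := hn r
      rw [abs_of_pos hr.1] at h1 h2
      have h3 : K / (r + |σ|) ≤ K / r := by
        have := hr.1
        gcongr
        linarith
      simp only [k]
      rw [norm_mul, Complex.norm_I, one_mul]
      refine (norm_sub_le _ _).trans ?_
      have h4 : K / r + K / r ≤ 2 * A * K ^ 2 / r := by
        rw [← add_div]
        have := hr.1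
        gcongr
        nlinarith [mul_le_mul hA1 hK zero_le_one (by linarith : (0 : ℝ) ≤ A)]
      linarith
    · have h1 := hm r
      have h2 := hn r
      rw [abs_of_pos hr.1] at h1 h2
      have h0 := hr.1
      have h3 : K / (r + |σ|) ≤ K / r := by
        gcongr
        linarith
      simp only [k']
      rw [norm_mul, Complex.norm_I, one_mul]
      refine (norm_add_le _ _).trans ?_
      rw [norm_mul, norm_mul, norm_pow, norm_pow]
      calc ‖a‖ * ‖(Complex.I * σ - a * r)⁻¹‖ ^ 2 + ‖a‖ * ‖(Complex.I * σ + a * r)⁻¹‖ ^ 2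
          ≤ A * (K / r) ^ 2 + A * (K / r) ^ 2 := by
            gcongr
            · exact h1.trans h3
            · exact h2.trans h3
        _ = 2 * A * K ^ 2 / r ^ 2 := by field_simp; ring

theorem Symb_lin {L : ℝ} {q : ℝ → ℂ} {b : ℂ} (h : Chord L q b) :
    Chord L (fun r => (r : ℂ) * b) b where
  one_le := h.one_le
  cont := by fun_prop
  n1 r := by
    rw [norm_mul, Complex.norm_real, Real.norm_eq_abs, mul_comm]
    exact mul_le_mul_of_nonneg_right h.bn (abs_nonneg r)
  im r := by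
    have := h.bim
    simp only [Complex.mul_im, Complex.ofReal_re, Complex.ofReal_im, zero_mul, add_zero, abs_mul]
    nlinarith [abs_nonneg r]
  tay r := by
    have := h.one_le
    simp only [sub_self, norm_zero]
    positivity
  bim := h.bim
  bn := h.bn

/-- Uniform bound on the symbol of the Biot-Savart operator. -/
theorem symbol_bound (L : ℝ) : ∃ C : ℝ, 0 < C ∧ ∀ (q : ℝ → ℂ) (b : ℂ), Chord L q b →
    ∀ σ : ℝ, σ ≠ 0 → ∀ ξ : ℝ,
      ‖∫ r in (-π)..π, kc (sarg r σ (q r)) * Complex.exp ((ξ : ℂ) * (r : ℂ) * Complex.I)‖ ≤ C := by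
  by_cases hL : 1 ≤ L
  swap
  · exact ⟨1, one_pos, fun q b h => absurd h.one_le hL⟩
  obtain ⟨C0, hC0, hkc⟩ := kc_near
  have hpi := pi_pos
  refine ⟨(C0 + L * (3 + 2 * L) ^ 2) * |π - -π| +
    (2 * (3 + 2 * L) ^ 2 + 5 * (2 * (1 + L) * (3 + 2 * L) ^ 2)), by positivity, ?_⟩
  intro q b h σ hσ ξ
  set K := 3 + 2 * L with hKdef
  have hK : 1 ≤ K := by linarith
  have hτ : 0 < |σ| := abs_pos.2 hσ
  set a : ℂ := 1 + Complex.I * b with ha
  have hA : ‖a‖ ≤ 1 + L := by
    refine (norm_add_le _ _).trans ?_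
    rw [norm_one, norm_mul, Complex.norm_I, one_mul]
    linarith [h.bn]
  have em : ∀ r : ℝ, sarg r σ ((r : ℂ) * b) = Complex.I * σ - a * r := fun r => by
    simp only [sarg, ha]; ring
  have hm : ∀ r : ℝ, |r| + |σ| ≤ K * ‖Complex.I * σ - a * r‖ := fun r => by
    rw [← em]; exact (Symb_lin h).norm_sarg r σ
  have hmod := Symb_model hσ hK (by linarith) hA hm ξ
  have hm0 : ∀ r : ℝ, Complex.I * σ - a * r ≠ 0 := fun r h0 => by
    have := hm r
    rw [h0, norm_zero, mul_zero] at this
    linarith [abs_nonneg r]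
  have hs0 : ∀ r : ℝ, sarg r σ (q r) ≠ 0 := fun r h0 => by
    have := h.norm_sarg r σ
    rw [h0, norm_zero, mul_zero] at this
    linarith [abs_nonneg r]
  let c : ℂ := (2 * (π : ℂ) * Complex.I)⁻¹
  have hc : ‖c‖ ≤ 1 := by
    simp only [c, norm_inv, norm_mul, Complex.norm_I, Complex.norm_two, Complex.norm_real,
      Real.norm_eq_abs, abs_of_pos hpi, mul_one]
    exact inv_le_one_of_one_le₀ (by linarith [pi_gt_three])
  set F : ℝ → ℂ := fun r => kc (sarg r σ (q r)) * Complex.exp ((ξ : ℂ) * (r : ℂ) * Complex.I)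
    with hF
  set f : ℝ → ℂ := fun r => (Complex.I * σ - a * r)⁻¹ *
      Complex.exp ((ξ : ℂ) * (r : ℂ) * Complex.I) with hf
  have cf : Continuous f := (Continuous.inv₀ (by fun_prop) hm0).mul (by fun_prop)
  have cs : Continuous fun r : ℝ => sarg r σ (q r) := by
    have := h.cont
    unfold sarg
    fun_prop
  have hab : ∀ r ∈ uIcc (-π) π, |r| ≤ π := fun r hr => by
    rw [uIcc_of_le (by linarith)] at hr
    exact abs_le.2 hr
  have cF : ContinuousOn F (uIcc (-π) π) := by
    refine ContinuousOn.mul (fun r hr => ?_) (by fun_prop)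
    exact (ContinuousAt.comp (f := fun r : ℝ => sarg r σ (q r))
      (differentiableAt_kc (h.sin_ne_zero (hab r hr) (Or.inr hσ))).continuousAt
      cs.continuousAt).continuousWithinAt
  have e1 : ∫ r in (-π)..π, F r = (∫ r in (-π)..π, (F r - c * f r)) + c * ∫ r in (-π)..π, f r := by
    have cf' : Continuous fun r : ℝ => c * f r := continuous_const.mul cf
    rw [intervalIntegral.integral_sub cF.intervalIntegrable
      (cf'.intervalIntegrable _ _), intervalIntegral.integral_const_mul]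
    ring
  rw [e1]
  refine (norm_add_le _ _).trans (add_le_add ?_ ?_)
  · refine intervalIntegral.norm_integral_le_of_norm_le_const fun r hr => ?_
    have hr' := hab r (uIoc_subset_uIcc hr)
    have e2 : F r - c * f r = ((kc (sarg r σ (q r)) - 1 / (2 * (π : ℂ) * Complex.I * sarg r σ (q r)))
        + c * (Complex.I * (q r - r * b) * ((sarg r σ (q r))⁻¹ * (Complex.I * σ - a * r)⁻¹))) *
        Complex.exp ((ξ : ℂ) * (r : ℂ) * Complex.I) := by
      have e3 : Complex.I * (q r - r * b) = (Complex.I * σ - a * r) - sarg r σ (q r) := by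
        simp only [sarg, ha]; ring
      have h1 := hm0 r
      have h2 := hs0 r
      have : (π : ℂ) ≠ 0 := by exact_mod_cast hpi.ne'
      simp only [hF, hf, c]
      rw [e3]
      generalize Complex.I * σ - a * r = m at h1
      generalize sarg r σ (q r) = s at h2
      field_simp
      ring
    have e4 : ‖Complex.exp ((ξ : ℂ) * (r : ℂ) * Complex.I)‖ = 1 := by
      rw [← Complex.ofReal_mul, Complex.norm_exp_ofReal_mul_I]
    rw [e2, norm_mul, e4, mul_one]
    refine (norm_add_le _ _).trans (add_le_add (hkc _ (hs0 r) ?_) ?_)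
    · linarith [(h.re_sarg r σ).2]
    · have h0 : 0 < |r| + |σ| := by positivity
      have h1 := Symb_inv_le h0 (h.norm_sarg r σ)
      have h2 := Symb_inv_le h0 (hm r)
      have h3 := h.tay r
      rw [norm_mul, norm_mul, norm_mul, norm_mul, Complex.norm_I, one_mul]
      calc ‖c‖ * (‖q r - r * b‖ * (‖(sarg r σ (q r))⁻¹‖ * ‖(Complex.I * σ - a * r)⁻¹‖))
          ≤ 1 * (L * r ^ 2 * (K / (|r| + |σ|) * (K / (|r| + |σ|)))) := by gcongr
        _ = L * K ^ 2 * (|r| / (|r| + |σ|)) ^ 2 := by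
          rw [div_pow, sq_abs]; field_simp
        _ ≤ L * K ^ 2 * 1 := by
          gcongr
          exact pow_le_one₀ (by positivity) ((div_le_one h0).2 (by linarith))
        _ = L * K ^ 2 := mul_one _
  · rw [norm_mul]
    calc ‖c‖ * ‖∫ r in (-π)..π, f r‖ ≤ 1 * ‖∫ r in (-π)..π, f r‖ := by gcongr
      _ ≤ _ := by rw [one_mul]; exact hmod

end Pool.Agent.Lib.MP_3d41d4_an
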