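import Pool.Agent.Lib.MP_3d41d4_an.Geo

open MeasureTheory Set Filter Topology Real
open scoped ENNReal

namespace Pool.Agent.Lib.MP_3d41d4_an

/-- Oscillatory integral with a kernel of size `1 / r`. -/
theorem norm_integral_mul_sin_le {h h' : ℝ → ℂ} {C : ℝ} (hc : ContinuousOn h (Icc 0 π))
    (hd : ∀ r ∈ Ioo 0 π, HasDerivAt h (h' r) r) (hc' : ContinuousOn h' (Ioc 0 π))
    (h0 : ∀ r ∈ Ioc 0 π, ‖h r‖ ≤ C / r) (h1 : ∀ r ∈ Ioc 0 π, ‖h' r‖ ≤ C / r ^ 2) (ξ : ℝ) :
    ‖∫ r in (0 : ℝ)..π, h r * (Real.sin (ξ * r) : ℂ)‖ ≤ 5 * C := by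
  have hπ := Real.pi_pos
  have hC : 0 ≤ C := by
    have h2 := (norm_nonneg _).trans (h0 π ⟨hπ, le_rfl⟩)
    have := mul_nonneg h2 hπ.le
    rwa [div_mul_cancel₀ _ hπ.ne'] at this
  by_cases hξ : ξ = 0
  · subst hξ
    simp only [zero_mul, Real.sin_zero, Complex.ofReal_zero, mul_zero,
      intervalIntegral.integral_zero, norm_zero]
    linarith
  have hξ0 : 0 < |ξ| := abs_pos.2 hξ
  have hsin : Continuous fun r : ℝ => (Real.sin (ξ * r) : ℂ) := by fun_prop
  have small : ∀ δ : ℝ, 0 ≤ δ → δ ≤ π → |ξ| * δ ≤ 1 →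
      ‖∫ r in (0 : ℝ)..δ, h r * (Real.sin (ξ * r) : ℂ)‖ ≤ C := by
    intro δ d0 d1 d2
    have := intervalIntegral.norm_integral_le_of_norm_le_const (a := 0) (b := δ) (C := C * |ξ|)
      (f := fun r => h r * (Real.sin (ξ * r) : ℂ)) (fun r hr => ?_)
    · refine this.trans ?_
      rw [sub_zero, abs_of_nonneg d0, mul_assoc]
      exact mul_le_of_le_one_right hC d2
    · rw [uIoc_of_le d0] at hr
      have r0 : 0 < r := hr.1
      rw [norm_mul, Complex.norm_real, Real.norm_eq_abs]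
      have b1 := h0 r ⟨r0, hr.2.trans d1⟩
      have b2 : |Real.sin (ξ * r)| ≤ |ξ| * r := by
        have := Real.abs_sin_le_abs (x := ξ * r)
        rwa [abs_mul, abs_of_pos r0] at this
      calc ‖h r‖ * |Real.sin (ξ * r)| ≤ C / r * (|ξ| * r) :=
            mul_le_mul b1 b2 (abs_nonneg _) (by positivity)
        _ = C * |ξ| := by field_simp
  rcases le_or_gt (|ξ| * π) 1 with hs | hs
  · have := small π hπ.le le_rfl hs
    linarith
  set δ : ℝ := 1 / |ξ| with hδ
  have d0 : 0 < δ := by positivity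
  have d2 : |ξ| * δ = 1 := by rw [hδ]; field_simp
  have d1 : δ ≤ π := by
    rw [hδ, div_le_iff₀ hξ0]; linarith
  have hsub : uIcc δ π ⊆ Ioc 0 π := by
    rw [uIcc_of_le d1]; exact fun r hr => ⟨d0.trans_le hr.1, hr.2⟩
  have hsub' : uIcc δ π ⊆ Icc 0 π := hsub.trans Ioc_subset_Icc_self
  have hsub0 : uIcc 0 δ ⊆ Icc 0 π := by
    rw [uIcc_of_le d0.le]; exact Icc_subset_Icc_right d1
  have i1 : IntervalIntegrable (fun r => h r * (Real.sin (ξ * r) : ℂ)) volume 0 δ :=
    ((hc.mono hsub0).mul hsin.continuousOn).intervalIntegrable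
  have i2 : IntervalIntegrable (fun r => h r * (Real.sin (ξ * r) : ℂ)) volume δ π :=
    ((hc.mono hsub').mul hsin.continuousOn).intervalIntegrable
  rw [← intervalIntegral.integral_add_adjacent_intervals i1 i2]
  let v : ℝ → ℂ := fun r => ((-(Real.cos (ξ * r)) / ξ : ℝ) : ℂ)
  have hv : ∀ r, HasDerivAt v (Real.sin (ξ * r) : ℂ) r := by
    intro r
    have a1 : HasDerivAt (fun r : ℝ => -(Real.cos (ξ * r)) / ξ) (Real.sin (ξ * r)) r := by
      have a2 : HasDerivAt (fun r : ℝ => ξ * r) ξ r := by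
        simpa using (hasDerivAt_id r).const_mul ξ
      have a3 := (a2.cos.neg).div_const ξ
      have a4 : -(-Real.sin (ξ * r) * ξ) / ξ = Real.sin (ξ * r) := by field_simp
      rw [a4] at a3
      exact a3
    exact a1.ofReal_comp
  have hvc : Continuous v := continuous_iff_continuousAt.2 fun r => (hv r).continuousAt
  have hvn : ∀ r, ‖v r‖ ≤ δ := by
    intro r
    simp only [v]
    rw [Complex.norm_real, Real.norm_eq_abs, abs_div, abs_neg, hδ]
    exact div_le_div_of_nonneg_right (Real.abs_cos_le_one _) hξ0.le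
  have ibp := intervalIntegral.integral_mul_deriv_eq_deriv_mul_of_hasDerivAt (a := δ) (b := π)
    (u := h) (v := v) (u' := h') (v' := fun r => (Real.sin (ξ * r) : ℂ)) (hc.mono hsub')
    hvc.continuousOn
    (fun r hr => by
      rw [min_eq_left d1, max_eq_right d1] at hr
      exact hd r ⟨d0.trans hr.1, hr.2⟩)
    (fun r _ => hv r) (hc'.mono hsub).intervalIntegrable hsin.continuousOn.intervalIntegrable
  have e1 : ‖h π * v π‖ ≤ C := by
    rw [norm_mul]
    calc ‖h π‖ * ‖v π‖ ≤ C / π * π :=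
          mul_le_mul (h0 π ⟨hπ, le_rfl⟩) ((hvn π).trans d1) (norm_nonneg _) (by positivity)
      _ = C := by field_simp
  have e2 : ‖h δ * v δ‖ ≤ C := by
    rw [norm_mul]
    calc ‖h δ‖ * ‖v δ‖ ≤ C / δ * δ :=
          mul_le_mul (h0 δ ⟨d0, d1⟩) (hvn δ) (norm_nonneg _) (by positivity)
      _ = C := by field_simp
  have e3 : ‖∫ r in δ..π, h' r * v r‖ ≤ C := by
    have hg : ∀ r ∈ uIcc δ π, HasDerivAt (fun r : ℝ => -(C * δ) * r⁻¹) (C / r ^ 2 * δ) r := by
      intro r hr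
      have r0 : r ≠ 0 := (hsub hr).1.ne'
      have a1 := (hasDerivAt_inv r0).const_mul (-(C * δ))
      have a2 : -(C * δ) * -(r ^ 2)⁻¹ = C / r ^ 2 * δ := by ring
      rw [a2] at a1
      exact a1
    have hgi : IntervalIntegrable (fun r : ℝ => C / r ^ 2 * δ) volume δ π := by
      refine ContinuousOn.intervalIntegrable ?_
      refine (continuousOn_const.div (by fun_prop) fun r hr => ?_).mul continuousOn_const
      exact pow_ne_zero _ (hsub hr).1.ne'
    have b1 : ‖∫ r in δ..π, h' r * v r‖ ≤ ∫ r in δ..π, C / r ^ 2 * δ := by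
      refine intervalIntegral.norm_integral_le_of_norm_le d1 (Eventually.of_forall fun r hr => ?_)
        hgi
      have r0 : 0 < r := d0.trans hr.1
      rw [norm_mul]
      exact mul_le_mul (h1 r ⟨r0, hr.2⟩) (hvn r) (norm_nonneg _) (by positivity)
    rw [intervalIntegral.integral_eq_sub_of_hasDerivAt hg hgi] at b1
    have b2 : 0 ≤ C * δ * π⁻¹ := by positivity
    have b3 : C * δ * δ⁻¹ = C := by field_simp
    linarith
  have e4 : ‖∫ r in δ..π, h r * (Real.sin (ξ * r) : ℂ)‖ ≤ 3 * C := by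
    rw [ibp]
    have := norm_sub_le (h π * v π - h δ * v δ) (∫ r in δ..π, h' r * v r)
    have := norm_sub_le (h π * v π) (h δ * v δ)
    linarith
  have e5 := small δ d0.le d1 d2.le
  have := norm_add_le (∫ r in (0 : ℝ)..δ, h r * (Real.sin (ξ * r) : ℂ))
    (∫ r in δ..π, h r * (Real.sin (ξ * r) : ℂ))
  linarith

end Pool.Agent.Lib.MP_3d41d4_an
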