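import Pool.Agent.Lib.MP_3d41d4_an.Defs

open MeasureTheory Set Filter Topology Real
open scoped ENNReal

namespace Pool.Agent.Lib.MP_3d41d4_an

variable {ν T t K c x₀ R : ℝ} {φ₀ γ₀ : ℝ → ℝ} {ω u v θ θs θx θy θxx θyy : ℝ → ℝ → ℝ → ℝ}

theorem T1_hasSum {α : Type} [MeasurableSpace α] {μ : Measure α} {q : α → ℝ} (hq : Measurable q)
    {τ : ℤ → α → α} (hτ : ∀ n, MeasurePreserving (τ n) μ μ) (he : ∀ n, MeasurableEmbedding (τ n))
    (hqτ : ∀ n p, q (τ n p) = q p + n * (2 * π)) {G : α → ℝ} (hG : Integrable G μ) :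
    HasSum (fun n : ℤ => ∫ p in q ⁻¹' Ioc 0 (2 * π), G (τ n p) ∂μ) (∫ p, G p ∂μ) := by
  have h2 : (0 : ℝ) < 2 * π := by positivity
  set A : ℤ → Set α := fun n => q ⁻¹' Ioc (n • (2 * π)) ((n + 1) • (2 * π)) with hA
  have hU : ⋃ n, A n = univ := by
    rw [hA, ← preimage_iUnion, iUnion_Ioc_zsmul h2, preimage_univ]
  have hD : Pairwise (Function.onFun Disjoint A) := fun m n hmn =>
    (pairwise_disjoint_Ioc_zsmul (2 * π) hmn).preimage q
  have hs := hasSum_integral_iUnion (μ := μ) (f := G) (s := A)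
    (fun n => hq measurableSet_Ioc) hD hG.integrableOn
  rw [hU, Measure.restrict_univ] at hs
  have key : (fun n : ℤ => ∫ p in q ⁻¹' Ioc 0 (2 * π), G (τ n p) ∂μ)
      = fun n => ∫ p in A n, G p ∂μ := ?_
  · rw [key]
    exact hs
  funext n
  rw [← (hτ n).setIntegral_preimage_emb (he n) G (A n)]
  congr 2
  ext p
  simp only [hA, mem_preimage, mem_Ioc, hqτ, zsmul_eq_mul, Int.cast_add, Int.cast_one]
  constructor
  · rintro ⟨h1, h3⟩
    constructor <;> linarith
  · rintro ⟨h1, h3⟩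
    constructor <;> linarith

theorem T1_fold {α : Type} [MeasurableSpace α] {μ : Measure α} {q : α → ℝ} (hq : Measurable q)
    {τ : ℤ → α → α} (hτ : ∀ n, MeasurePreserving (τ n) μ μ) (he : ∀ n, MeasurableEmbedding (τ n))
    (hqτ : ∀ n p, q (τ n p) = q p + n * (2 * π)) {G : α → ℝ} (hG : Integrable G μ) :
    ∫ p, G p ∂μ = ∫ p in q ⁻¹' Ioc 0 (2 * π), ∑' n : ℤ, G (τ n p) ∂μ := by
  have h1 := T1_hasSum hq hτ he hqτ hG
  have h2 := T1_hasSum hq hτ he hqτ hG.norm
  have h3 := hasSum_integral_of_summable_integral_norm (μ := μ.restrict (q ⁻¹' Ioc 0 (2 * π)))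
    (F := fun n p => G (τ n p))
    (fun n => (((hτ n).integrable_comp_emb (he n)).2 hG).integrableOn) h2.summable
  exact h1.unique h3

theorem T1_fold1 {G : ℝ → ℝ} (hG : Integrable G) :
    ∫ x, G x = ∫ x in (0 : ℝ)..(2 * π), ∑' n : ℤ, G (x + n * (2 * π)) := by
  have h2 : (0 : ℝ) ≤ 2 * π := by positivity
  rw [intervalIntegral.integral_of_le h2]
  exact T1_fold (q := id) (τ := fun n x => x + n * (2 * π)) measurable_id
    (fun n => measurePreserving_add_right volume _)
    (fun n => measurableEmbedding_addRight _) (fun _ _ => rfl) hG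

theorem T1_fold2 {G : ℝ × ℝ → ℝ} (hG : Integrable G) :
    ∫ p, G p = ∫ p in cyl, ∑' n : ℤ, G (p.1 + n * (2 * π), p.2) := by
  have hc : cyl = Prod.fst ⁻¹' Ioc 0 (2 * π) := by
    ext p
    simp [cyl]
  rw [hc]
  have := T1_fold (μ := (volume : Measure (ℝ × ℝ))) (q := Prod.fst)
    (τ := fun n p => p + ((n : ℝ) * (2 * π), (0 : ℝ))) measurable_fst
    (fun n => measurePreserving_add_right volume _)
    (fun n => measurableEmbedding_addRight _) (fun _ _ => rfl) hG
  rw [this]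
  congr 1
  funext p
  congr 1
  funext n
  congr 1
  ext <;> simp

theorem T1_isTest {η : ℝ → ℝ → ℝ}
    (hc : Continuous fun p : ℝ × ℝ => η p.1 p.2) (hR : ∀ x y, R ≤ |x| ∨ R ≤ |y| → η x y = 0) :
    IsTest fun x y => ∑' n : ℤ, η (x + n * (2 * π)) y := by
  refine ⟨?_, ?_, ⟨R, fun x y hy => ?_⟩⟩
  · rw [continuous_iff_continuousAt]
    intro p₀
    obtain ⟨N, hN⟩ := exists_nat_ge (|R| + |p₀.1| + 1)
    have hcont : Continuous fun p : ℝ × ℝ =>
        ∑ n ∈ Finset.Icc (-(N : ℤ)) N, η (p.1 + n * (2 * π)) p.2 := by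
      refine continuous_finsetSum _ fun n _ => ?_
      exact hc.comp (f := fun p : ℝ × ℝ => (p.1 + n * (2 * π), p.2)) (by fun_prop)
    refine hcont.continuousAt.congr ?_
    have hev : ∀ᶠ p : ℝ × ℝ in 𝓝 p₀, |p.1 - p₀.1| < 1 := by
      have : ContinuousAt (fun p : ℝ × ℝ => |p.1 - p₀.1|) p₀ := by fun_prop
      exact this.eventually_lt continuousAt_const (by simp)
    filter_upwards [hev] with p hp
    symm
    refine tsum_eq_sum fun n hn => hR _ _ (Or.inl ?_)
    have hpi : (1 : ℝ) ≤ 2 * π := by linarith [Real.pi_gt_three]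
    have hn' : (N : ℝ) ≤ |(n : ℝ)| := by
      rw [Finset.mem_Icc, not_and_or, not_le, not_le] at hn
      have : (N : ℤ) ≤ |n| := by
        rcases hn with hn | hn
        · exact le_abs.2 (Or.inr (by omega))
        · exact le_abs.2 (Or.inl (by omega))
      exact_mod_cast this
    have h1 : |(n : ℝ)| ≤ |(n : ℝ) * (2 * π)| := by
      rw [abs_mul, abs_of_nonneg (by linarith : (0 : ℝ) ≤ 2 * π)]
      exact le_mul_of_one_le_right (abs_nonneg _) hpi
    have h2 : |(n : ℝ) * (2 * π)| ≤ |p.1 + n * (2 * π)| + |p.1| := by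
      have := abs_sub (p.1 + n * (2 * π)) p.1
      simpa using this
    have h3 : |p.1| ≤ |p.1 - p₀.1| + |p₀.1| := by
      have := abs_add_le (p.1 - p₀.1) p₀.1
      simpa using this
    linarith [le_abs_self R]
  · intro x y
    rw [← (Equiv.addRight (1 : ℤ)).tsum_eq fun n : ℤ => η (x + n * (2 * π)) y]
    congr 1
    funext n
    congr 1
    simp only [Equiv.coe_addRight, Int.cast_add, Int.cast_one]
    ring
  · simp only [hR _ y (Or.inr hy), tsum_zero]

/-- The initial condition for compactly supported test functions on the plane. -/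
theorem init_compact (h : IsNS ν T φ₀ γ₀ ω u v) (hT : 0 < T) (hφc : Continuous φ₀)
    (hφp : Function.Periodic φ₀ (2 * π)) (hγc : Continuous γ₀)
    (hγp : Function.Periodic γ₀ (2 * π)) {η : ℝ → ℝ → ℝ}
    (hc : Continuous fun p : ℝ × ℝ => η p.1 p.2) (hR : ∀ x y, R ≤ |x| ∨ R ≤ |y| → η x y = 0) :
    Tendsto (fun s => ∫ p : ℝ × ℝ, η p.1 p.2 * ω s p.1 p.2) (𝓝[>] 0)
      (𝓝 (∫ x, η x (φ₀ x) * γ₀ x)) := by
  have h0 := h.init _ (T1_isTest hc hR)
  have hi1 : Integrable fun x => η x (φ₀ x) * γ₀ x := by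
    refine Continuous.integrable_of_hasCompactSupport
      ((hc.comp (f := fun x => (x, φ₀ x)) (by fun_prop)).mul hγc) ?_
    refine HasCompactSupport.intro (isCompact_Icc (a := -R) (b := R)) fun x hx => ?_
    have : R ≤ |x| := by
      by_contra hlt
      exact hx ⟨by linarith [neg_abs_le x], by linarith [le_abs_self x]⟩
    simp [hR x _ (Or.inl this)]
  have e1 : ∫ x, η x (φ₀ x) * γ₀ x
      = ∫ x in (0 : ℝ)..(2 * π), (∑' n : ℤ, η (x + n * (2 * π)) (φ₀ x)) * γ₀ x := by
    rw [T1_fold1 hi1]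
    congr 1
    funext x
    rw [← tsum_mul_right]
    congr 1
    funext n
    rw [hφp.int_mul n x, hγp.int_mul n x]
  rw [e1]
  refine h0.congr' ?_
  filter_upwards [Ioo_mem_nhdsGT hT] with s hs
  have hωc : Continuous fun p : ℝ × ℝ => ω s p.1 p.2 := by
    have := h.smooth_ω.continuousOn.comp_continuous (f := fun p : ℝ × ℝ => (s, p))
      (by fun_prop) (fun p => ⟨hs, mem_univ _⟩)
    exact this
  have hi2 : Integrable fun p : ℝ × ℝ => η p.1 p.2 * ω s p.1 p.2 := by
    refine Continuous.integrable_of_hasCompactSupport (hc.mul hωc) ?_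
    refine HasCompactSupport.intro
      ((isCompact_Icc (a := -R) (b := R)).prod (isCompact_Icc (a := -R) (b := R))) fun p hp => ?_
    have : R ≤ |p.1| ∨ R ≤ |p.2| := by
      by_contra hlt
      rw [not_or, not_le, not_le] at hlt
      exact hp ⟨⟨by linarith [neg_abs_le p.1], by linarith [le_abs_self p.1]⟩,
        ⟨by linarith [neg_abs_le p.2], by linarith [le_abs_self p.2]⟩⟩
    simp [hR _ _ this]
  rw [T1_fold2 hi2]
  congr 1
  funext p
  rw [← tsum_mul_right]
  congr 1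
  funext n
  have hper : Function.Periodic (fun x => ω s x p.2) (2 * π) := fun x => h.per s hs x p.2
  have := hper.int_mul n p.1
  simp only at this ⊢
  rw [this]

end Pool.Agent.Lib.MP_3d41d4_an
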