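import Pool.Agent.Lib.MP_3d41d4_an.T0
import Pool.Agent.Lib.MP_3d41d4_an.T1
import Pool.Agent.Lib.MP_3d41d4_an.Cyl
import Pool.Agent.Lib.MP_3d41d4_an.Gauss2

open MeasureTheory Set Filter Topology Real
open scoped ENNReal

namespace Pool.Agent.Lib.MP_3d41d4_an

variable {ν T t K c x₀ R : ℝ} {φ₀ γ₀ : ℝ → ℝ} {ω u v θ θs θx θy θxx θyy : ℝ → ℝ → ℝ → ℝ}

theorem T2_slice {f : ℝ → ℝ → ℝ → ℝ} {I : Set ℝ}
    (hf : ContinuousOn (fun p : ℝ × ℝ × ℝ => f p.1 p.2.1 p.2.2) (I ×ˢ univ)) {s : ℝ}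
    (hs : s ∈ I) : Continuous fun p : ℝ × ℝ => f s p.1 p.2 :=
  hf.comp_continuous (f := fun p : ℝ × ℝ => (s, p)) (by fun_prop) fun _ => ⟨hs, trivial⟩

/-- Gaussian moments of the vorticity. -/
theorem IsNS.gauss_mass (h : IsNS ν T φ₀ γ₀ ω u v) (hc : 0 < c) : ∃ A : ℝ, 0 ≤ A ∧
    ∀ s ∈ Ioo 0 T, ∀ x₀ : ℝ,
      Integrable (fun p : ℝ × ℝ => Real.exp (-(c * (p.1 - x₀) ^ 2)) * |ω s p.1 p.2|) ∧
      ∫ p : ℝ × ℝ, Real.exp (-(c * (p.1 - x₀) ^ 2)) * |ω s p.1 p.2| ≤ A := by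
  obtain ⟨C, hC, hG⟩ := lintegral_gauss_le hc
  obtain ⟨A, hA⟩ := h.mass
  refine ⟨C * max A 0, by positivity, fun s hs x₀ => ?_⟩
  have hω : Continuous fun p : ℝ × ℝ => ω s p.1 p.2 := T2_slice h.smooth_ω.continuousOn hs
  have h1 := hG (fun p => ENNReal.ofReal |ω s p.1 p.2|) (by fun_prop)
    (fun x y => by simp only [h.per s hs]) x₀
  have h2 : ∫⁻ p in cyl, ENNReal.ofReal |ω s p.1 p.2| ≤ ENNReal.ofReal (max A 0) := by
    rw [← ofReal_integral_eq_lintegral_ofReal (hA s hs).1.abs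
      (Eventually.of_forall fun p => abs_nonneg _)]
    exact ENNReal.ofReal_le_ofReal ((hA s hs).2.trans (le_max_left _ _))
  have h3 : ∫⁻ p : ℝ × ℝ, ENNReal.ofReal (Real.exp (-(c * (p.1 - x₀) ^ 2)) * |ω s p.1 p.2|)
      ≤ ENNReal.ofReal (C * max A 0) := by
    rw [ENNReal.ofReal_mul hC.le]
    refine le_trans (le_of_eq ?_) (h1.trans (mul_le_mul' le_rfl h2))
    refine lintegral_congr fun p => ?_
    rw [ENNReal.ofReal_mul (Real.exp_pos _).le]
  have hm : AEStronglyMeasurable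
      (fun p : ℝ × ℝ => Real.exp (-(c * (p.1 - x₀) ^ 2)) * |ω s p.1 p.2|) volume :=
    (by fun_prop : Continuous
      fun p : ℝ × ℝ => Real.exp (-(c * (p.1 - x₀) ^ 2)) * |ω s p.1 p.2|).aestronglyMeasurable
  have hn : 0 ≤ᵐ[volume] fun p : ℝ × ℝ => Real.exp (-(c * (p.1 - x₀) ^ 2)) * |ω s p.1 p.2| :=
    Eventually.of_forall fun p => by positivity
  refine ⟨⟨hm, (hasFiniteIntegral_iff_ofReal hn).2 (h3.trans_lt ENNReal.ofReal_lt_top)⟩, ?_⟩
  rw [integral_eq_lintegral_of_nonneg_ae hn hm]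
  exact ENNReal.toReal_le_of_le_ofReal (by positivity) h3

theorem T2_K_nonneg (ht0 : 0 < t) (hθ : TestFn t K c x₀ θ θs θx θy θxx θyy) : 0 ≤ K := by
  have := (abs_nonneg _).trans (hθ.b0 0 ⟨le_rfl, ht0.le⟩ 0 0)
  exact nonneg_of_mul_nonneg_left this (Real.exp_pos _)

theorem T2_mvt (hθ : TestFn t K c x₀ θ θs θx θy θxx θyy) {s : ℝ} (hs : s ∈ Ioo 0 t) (x y : ℝ) :
    |θ s x y - θ 0 x y| ≤ K * s * Real.exp (-(c * (x - x₀) ^ 2)) := by
  have hcont : ContinuousOn (fun s' => θ s' x y) (Icc 0 s) :=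
    hθ.cont.comp (f := fun s' : ℝ => (s', x, y)) (by fun_prop)
      fun s' hs' => ⟨⟨hs'.1, hs'.2.trans hs.2.le⟩, trivial⟩
  obtain ⟨r, hr, e⟩ := exists_hasDerivAt_eq_slope (fun s' => θ s' x y) (fun s' => θs s' x y) hs.1
    hcont fun s' hs' => hθ.ds s' ⟨hs'.1, hs'.2.trans hs.2⟩ x y
  have hb := (hθ.b1 r ⟨hr.1, hr.2.trans hs.2⟩ x y).1
  have hs0 := hs.1
  have e' : θ s x y - θ 0 x y = θs r x y * s := by
    rw [e, sub_zero]
    field_simp
  rw [e', abs_mul, abs_of_pos hs0]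
  calc |θs r x y| * s ≤ K * Real.exp (-(c * (x - x₀) ^ 2)) * s := by gcongr
    _ = _ := by ring

theorem T2_wI_le (hν : 0 < ν) (hθ : TestFn t K c x₀ θ θs θx θy θxx θyy) {s B : ℝ}
    (hs : s ∈ Ioo 0 t) (hB : ∀ x y, |u s x y| ≤ B ∧ |v s x y| ≤ B) (p : ℝ × ℝ) :
    |wI ν ω u v θs θx θy θxx θyy s p| ≤
      K * (1 + 2 * B + 2 * ν) * (Real.exp (-(c * (p.1 - x₀) ^ 2)) * |ω s p.1 p.2|) := by
  obtain ⟨b1, b2, b3, b4, b5⟩ := hθ.b1 s hs p.1 p.2
  obtain ⟨hu, hv⟩ := hB p.1 p.2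
  set E := K * Real.exp (-(c * (p.1 - x₀) ^ 2)) with hE
  have hB0 : 0 ≤ B := (abs_nonneg _).trans hu
  have k : |θs s p.1 p.2 + u s p.1 p.2 * θx s p.1 p.2 + v s p.1 p.2 * θy s p.1 p.2
      + ν * (θxx s p.1 p.2 + θyy s p.1 p.2)| ≤ E + B * E + B * E + ν * (E + E) := by
    refine (abs_add_le _ _).trans (add_le_add ((abs_add_le _ _).trans (add_le_add
      ((abs_add_le _ _).trans (add_le_add b1 ?_)) ?_)) ?_)
    · rw [abs_mul]
      exact mul_le_mul hu b2 (abs_nonneg _) hB0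
    · rw [abs_mul]
      exact mul_le_mul hv b3 (abs_nonneg _) hB0
    · rw [abs_mul, abs_of_pos hν]
      exact mul_le_mul_of_nonneg_left ((abs_add_le _ _).trans (add_le_add b4 b5)) hν.le
  unfold wI
  rw [abs_mul]
  calc _ ≤ |ω s p.1 p.2| * (E + B * E + B * E + ν * (E + E)) :=
        mul_le_mul_of_nonneg_left k (abs_nonneg _)
    _ = _ := by rw [hE]; ring

theorem weakId_compact (h : IsNS ν T φ₀ γ₀ ω u v) (hν : 0 < ν) (ht0 : 0 < t) (htT : t < T)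
    (hφc : Continuous φ₀) (hφp : Function.Periodic φ₀ (2 * π)) (hγc : Continuous γ₀)
    (hγp : Function.Periodic γ₀ (2 * π)) (hθ : TestFn t K c x₀ θ θs θx θy θxx θyy)
    (hR : ∀ s ∈ Icc 0 t, ∀ x y, R ≤ |x| ∨ R ≤ |y| → θ s x y = 0) :
    WeakId ν t φ₀ γ₀ ω u v θ θs θx θy θxx θyy := by
  obtain ⟨w1, w2⟩ := weak_compact h ht0 htT hθ hR
  obtain ⟨A, hA0, hA⟩ := h.gauss_mass hθ.c_pos
  obtain ⟨D, hD⟩ := h.vel 1 one_pos
  have hK := T2_K_nonneg ht0 hθ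
  have sub : ∀ s ∈ Ioo 0 t, s ∈ Ioo 0 T := fun s hs => ⟨hs.1, hs.2.trans htT⟩
  set F : ℝ → ℝ := fun s' => ∫ p : ℝ × ℝ, θ s' p.1 p.2 * ω s' p.1 p.2 with hF
  -- integrability in time
  have hint : IntegrableOn (fun s => ∫ p, wI ν ω u v θs θx θy θxx θyy s p) (Ioo 0 t) := by
    have hg : IntegrableOn (fun s => K * (1 + 2 * (1 / √s + D) + 2 * ν) * A) (Ioo 0 t) := by
      have c1 : ∀ a : ℝ, IntegrableOn (fun _ : ℝ => a) (Ioo 0 t) := fun a =>
        integrableOn_const (by simp)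
      exact ((((c1 1).add (((integrableOn_inv_sqrt t).add (c1 D)).const_mul 2)).add
        (c1 (2 * ν))).const_mul K).mul_const A
    refine Integrable.mono' hg ?_ ?_
    · refine ((measurable_deriv F).aestronglyMeasurable (μ := volume.restrict (Ioo 0 t))).congr ?_
      filter_upwards [ae_restrict_mem measurableSet_Ioo] with s hs
      exact (w1 s hs).2.deriv
    · filter_upwards [ae_restrict_mem measurableSet_Ioo] with s hs
      have hB := hD s (sub s hs)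
      have hB0 : 0 ≤ 1 / √s + D := (abs_nonneg _).trans (hB 0 0).1
      have hc0 : 0 ≤ K * (1 + 2 * (1 / √s + D) + 2 * ν) := by positivity
      refine (norm_integral_le_of_norm_le (((hA s (sub s hs) x₀).1).const_mul
        (K * (1 + 2 * (1 / √s + D) + 2 * ν))) (Eventually.of_forall fun p =>
          T2_wI_le hν hθ hs hB p)).trans ?_
      rw [integral_const_mul]
      exact mul_le_mul_of_nonneg_left (hA s (sub s hs) x₀).2 hc0
  -- the limit at time zero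
  have h0 : (0 : ℝ) ∈ Icc 0 t := ⟨le_rfl, ht0.le⟩
  have hlim : Tendsto F (𝓝[>] 0) (𝓝 (∫ x, θ 0 x (φ₀ x) * γ₀ x)) := by
    have l1 := init_compact h (ht0.trans htT) hφc hφp hγc hγp (η := θ 0) (T2_slice hθ.cont h0)
      (hR 0 h0)
    have l2 : Tendsto (fun s => F s - ∫ p : ℝ × ℝ, θ 0 p.1 p.2 * ω s p.1 p.2) (𝓝[>] 0) (𝓝 0) := by
      have l3 : Tendsto (fun s : ℝ => K * s * A) (𝓝[>] 0) (𝓝 0) := by
        have : Tendsto (fun s : ℝ => K * s * A) (𝓝 0) (𝓝 (K * 0 * A)) :=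
          Continuous.tendsto (by fun_prop) 0
        simpa using this.mono_left nhdsWithin_le_nhds
      refine squeeze_zero_norm' ?_ l3
      filter_upwards [Ioo_mem_nhdsGT ht0] with s hs
      have hω : Continuous fun p : ℝ × ℝ => ω s p.1 p.2 :=
        T2_slice h.smooth_ω.continuousOn (sub s hs)
      have I : ∀ r ∈ Icc 0 t, Integrable fun p : ℝ × ℝ => θ r p.1 p.2 * ω s p.1 p.2 := by
        intro r hr
        refine Integrable.mono' ((hA s (sub s hs) x₀).1.const_mul K)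
          ((T2_slice hθ.cont hr).mul hω).aestronglyMeasurable (Eventually.of_forall fun p => ?_)
        rw [Real.norm_eq_abs, abs_mul, ← mul_assoc]
        exact mul_le_mul_of_nonneg_right (hθ.b0 r hr p.1 p.2) (abs_nonneg _)
      have hs0 := hs.1
      simp only [hF]
      rw [← integral_sub (I s ⟨hs.1.le, hs.2.le⟩) (I 0 h0)]
      refine (norm_integral_le_of_norm_le ((hA s (sub s hs) x₀).1.const_mul (K * s))
        (Eventually.of_forall fun p => ?_)).trans ?_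
      · rw [← sub_mul, Real.norm_eq_abs, abs_mul, ← mul_assoc]
        exact mul_le_mul_of_nonneg_right (T2_mvt hθ hs p.1 p.2) (abs_nonneg _)
      · rw [integral_const_mul]
        exact mul_le_mul_of_nonneg_left (hA s (sub s hs) x₀).2 (by positivity)
    simpa using l2.add l1
  refine ⟨fun s hs => (w1 s hs).1, hint, ?_⟩
  have ftc := intervalIntegral.integral_eq_sub_of_hasDerivAt_of_tendsto ht0
    (fun s hs => (w1 s hs).2) ((intervalIntegrable_iff_integrableOn_Ioo_of_le ht0.le).2 hint) hlim w2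
  rw [intervalIntegral.integral_of_le ht0.le, integral_Ioc_eq_integral_Ioo] at ftc
  rw [ftc]
  ring

end Pool.Agent.Lib.MP_3d41d4_an
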