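import Pool.Agent.Lib.MP_3d41d4_an.T4a
import Pool.Agent.Lib.MP_3d41d4_an.T3

open MeasureTheory Set Filter Topology Real
open scoped ENNReal

namespace Pool.Agent.Lib.MP_3d41d4_an

variable {ρ L M₀ T : ℝ} {φ γ : ℝ → ℝ → ℝ}

theorem true_ident (hS : Sheet ρ L M₀ T φ γ) {ν T₁ : ℝ} {ω u v : ℝ → ℝ → ℝ → ℝ}
    (h : IsNS ν T₁ (φ 0) (γ 0) ω u v) (hν : 0 < ν) {κ t : ℝ} (hκ : 0 < κ) (ht0 : 0 < t)
    (htT : t ≤ T) (ht1 : t < T₁) (η x : ℝ) :
    (∀ s ∈ Ioo 0 t, Integrable fun p : ℝ × ℝ => Vof T₁ φ ω s p.2 (x + p.1) *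
      Kw φ γ ν κ t s η x p (wof φ u v s p.2 (x + p.1))) ∧
    IntegrableOn (fun s => ∫ p : ℝ × ℝ, Vof T₁ φ ω s p.2 (x + p.1) *
      Kw φ γ ν κ t s η x p (wof φ u v s p.2 (x + p.1))) (Ioo 0 t) ∧
    smo (φ t) κ (Vof T₁ φ ω t) η x = Ak φ γ ν 0 κ t η x + ∫ s in Ioo 0 t, ∫ p : ℝ × ℝ,
      Vof T₁ φ ω s p.2 (x + p.1) * Kw φ γ ν κ t s η x p (wof φ u v s p.2 (x + p.1)) := by
  obtain ⟨K, c, θs, θx, θy, θxx, θyy, hθ, hK⟩ := gauss_testFn hS hν hκ ht0 htT η x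
  obtain ⟨h1, h2, h3⟩ := weakId h hν ht0 ht1 (hS.curve 0).continuous (hS.curve 0).per
    (hS.wγ 0).cont (hS.wγ 0).per hθ
  have hψ : ∀ s : ℝ, Measurable fun r : ℝ => φ s (x + r) := fun s =>
    hS.measφ measurable_const (measurable_const.add measurable_id)
  have hV : ∀ s ∈ Ioo 0 T₁, ∀ y x' : ℝ, Vof T₁ φ ω s y x' = ω s x' (y + φ s x') := by
    intro s hs y x'
    unfold Vof
    rw [indicator_of_mem hs]
  have key : ∀ s ∈ Ioo 0 t, (fun p : ℝ × ℝ => Vof T₁ φ ω s p.2 (x + p.1) *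
      Kw φ γ ν κ t s η x p (wof φ u v s p.2 (x + p.1))) =
      fun p : ℝ × ℝ => wI ν ω u v θs θx θy θxx θyy s (x + p.1, p.2 + φ s (x + p.1)) := by
    intro s hs
    funext p
    rw [hV s ⟨hs.1, hs.2.trans ht1⟩]
    unfold wI
    simp only
    rw [hK s hs]
    simp only [add_sub_cancel_left, add_sub_cancel_right, wof]
  have key2 : ∀ s ∈ Ioo 0 t, (∫ p : ℝ × ℝ, Vof T₁ φ ω s p.2 (x + p.1) *
      Kw φ γ ν κ t s η x p (wof φ u v s p.2 (x + p.1))) =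
      ∫ p, wI ν ω u v θs θx θy θxx θyy s p := by
    intro s hs
    rw [key s hs]
    exact integral_shear (hψ s) x (wI ν ω u v θs θx θy θxx θyy s)
  refine ⟨fun s hs => ?_, ?_, ?_⟩
  · rw [key s hs]
    exact (integrable_shear (hψ s) x (wI ν ω u v θs θx θy θxx θyy s)).2 (h1 s hs)
  · exact h2.congr_fun (fun s hs => (key2 s hs).symm) measurableSet_Ioo
  · rw [setIntegral_congr_fun measurableSet_Ioo key2]
    have e1 : smo (φ t) κ (Vof T₁ φ ω t) η x = ∫ p : ℝ × ℝ,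
        G (aa ν κ t t) (p.1 - x) (η - (p.2 - φ t p.1) - ch (φ t) x (p.1 - x)) * ω t p.1 p.2 := by
      rw [← integral_shear (hψ t) x (fun p : ℝ × ℝ =>
        G (aa ν κ t t) (p.1 - x) (η - (p.2 - φ t p.1) - ch (φ t) x (p.1 - x)) * ω t p.1 p.2)]
      unfold smo
      refine integral_congr_ae (Eventually.of_forall fun p => ?_)
      simp only [hV t ⟨ht0, ht1⟩, add_sub_cancel_left, add_sub_cancel_right, aa, sub_self,
        mul_zero, zero_add]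
    have e2 : Ak φ γ ν 0 κ t η x = ∫ x', G (aa ν κ t 0) (x' - x)
        (η - (φ 0 x' - φ 0 x') - ch (φ t) x (x' - x)) * γ 0 x' := by
      rw [← integral_add_left_eq_self (fun x' => G (aa ν κ t 0) (x' - x)
        (η - (φ 0 x' - φ 0 x') - ch (φ t) x (x' - x)) * γ 0 x') x]
      unfold Ak
      refine integral_congr_ae (Eventually.of_forall fun r => ?_)
      simp only [Gd_zero, add_sub_cancel_left, aa, sub_self, sub_zero]
    rw [e1, e2]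
    exact h3

end Pool.Agent.Lib.MP_3d41d4_an
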