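import Pool.Agent.Lib.MP_3d41d4_an.T4b
import Pool.Agent.Lib.MP_3d41d4_an.Lim1

open MeasureTheory Set Filter Topology Real
open scoped ENNReal

namespace Pool.Agent.Lib.MP_3d41d4_an

variable {ρ L M₀ T : ℝ} {φ γ : ℝ → ℝ → ℝ}

theorem meas_Vof (hS : Sheet ρ L M₀ T φ γ) {ν T₁ : ℝ} {ω u v : ℝ → ℝ → ℝ → ℝ}
    (h : IsNS ν T₁ (φ 0) (γ 0) ω u v) :
    Measurable fun p : ℝ × ℝ × ℝ => Vof T₁ φ ω p.1 p.2.1 p.2.2 := by
  classical
  have hc : Continuous fun p : ℝ × ℝ × ℝ => (p.1, p.2.2, p.2.1 + φ p.1 p.2.2) := by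
    have h1 : Continuous fun p : ℝ × ℝ × ℝ => φ p.1 p.2.2 :=
      hS.contφ.comp (f := fun p : ℝ × ℝ × ℝ => (p.1, p.2.2)) (by fun_prop)
    exact continuous_fst.prodMk ((continuous_snd.comp continuous_snd).prodMk
      ((continuous_fst.comp continuous_snd).add h1))
  have hg : ContinuousOn (fun p : ℝ × ℝ × ℝ => ω p.1 p.2.2 (p.2.1 + φ p.1 p.2.2))
      (Ioo 0 T₁ ×ˢ univ) :=
    h.smooth_ω.continuousOn.comp hc.continuousOn (fun p hp => ⟨hp.1, mem_univ _⟩)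
  have hm := hg.measurable_piecewise (g := fun _ => (0 : ℝ)) continuousOn_const
    (measurableSet_Ioo.prod MeasurableSet.univ)
  have e : (fun p : ℝ × ℝ × ℝ => Vof T₁ φ ω p.1 p.2.1 p.2.2) =
      (Ioo 0 T₁ ×ˢ univ).piecewise
        (fun p : ℝ × ℝ × ℝ => ω p.1 p.2.2 (p.2.1 + φ p.1 p.2.2)) (fun _ => (0 : ℝ)) := by
    funext p
    by_cases hp : p.1 ∈ Ioo 0 T₁
    · rw [piecewise_eq_of_mem _ _ _ (show p ∈ Ioo 0 T₁ ×ˢ univ from ⟨hp, mem_univ _⟩)]
      simp only [Vof, indicator_of_mem hp]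
    · rw [piecewise_eq_of_notMem _ _ _ (fun hq => hp hq.1)]
      simp only [Vof, indicator_of_notMem hp]
  rw [e]
  exact hm

theorem true_biot (hS : Sheet ρ L M₀ T φ γ) {ν T₁ : ℝ} {ω u v : ℝ → ℝ → ℝ → ℝ}
    (h : IsNS ν T₁ (φ 0) (γ 0) ω u v) {s : ℝ} (hs : s ∈ Ioo 0 T₁) (η x : ℝ) :
    IntegrableOn (fun p : ℝ × ℝ => kc (sarg p.1 (η - p.2) (ch (φ s) x p.1)) *
      (Vof T₁ φ ω s p.2 (x + p.1) : ℂ)) cyl0 ∧
    wof φ u v s η x = ∫ p in cyl0, kc (sarg p.1 (η - p.2) (ch (φ s) x p.1)) *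
      (Vof T₁ φ ω s p.2 (x + p.1) : ℂ) := by
  obtain ⟨i1, i2, e1, e2⟩ := h.biot s hs x (η + φ s x)
  have hφ : Continuous (φ s) := (hS.curve s).continuous
  have hω : Continuous fun p : ℝ × ℝ => ω s p.1 p.2 := by
    have hc : Continuous fun p : ℝ × ℝ => (s, p.1, p.2) := by fun_prop
    exact continuousOn_univ.1 (h.smooth_ω.continuousOn.comp hc.continuousOn
      (fun p _ => ⟨hs, mem_univ _⟩))
  set y := η + φ s x with hy
  let H : ℝ × ℝ → ℂ := fun p =>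
    kc (((x - p.1 : ℝ) : ℂ) + Complex.I * ((y - p.2 : ℝ) : ℂ)) * (ω s p.1 p.2 : ℂ)
  have hH : H = fun p : ℝ × ℝ => ((K1 (x - p.1) (y - p.2) * ω s p.1 p.2 : ℝ) : ℂ)
      - Complex.I * ((K2 (x - p.1) (y - p.2) * ω s p.1 p.2 : ℝ) : ℂ) := by
    funext p
    simp only [H, kc_eq]
    push_cast
    ring
  have j1 : IntegrableOn (fun p : ℝ × ℝ =>
      ((K1 (x - p.1) (y - p.2) * ω s p.1 p.2 : ℝ) : ℂ)) cyl := i1.ofReal
  have j2 : IntegrableOn (fun p : ℝ × ℝ =>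
      Complex.I * ((K2 (x - p.1) (y - p.2) * ω s p.1 p.2 : ℝ) : ℂ)) cyl :=
    Integrable.const_mul (i2.ofReal) _
  have hi : IntegrableOn H cyl := by
    rw [hH]
    exact j1.sub j2
  have hv : ∫ p in cyl, H p = wof φ u v s η x := by
    rw [hH, integral_sub j1 j2, integral_const_mul, integral_complex_ofReal,
      integral_complex_ofReal]
    simp only [wof, ← hy, e1, e2]
  have hHm : Measurable H := by
    refine Measurable.mul (measurable_kc.comp ?_) (Complex.measurable_ofReal.comp hω.measurable)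
    fun_prop
  let H' : ℝ × ℝ → ℂ := fun p => H (p.1, p.2 + φ s p.1)
  have hm' : Measurable H' := hHm.comp (by
    have := hφ.measurable
    fun_prop)
  have hp' : ∀ a b, H' (a + 2 * π, b) = H' (a, b) := by
    intro a b
    simp only [H', H, (hS.curve s).per a, h.per s hs]
    rw [← kc_add_two_pi]
    congr 2
    push_cast
    ring
  have hi' : IntegrableOn H' cyl := (integrableOn_cyl_shear hφ.measurable H).2 hi
  obtain ⟨k1, k2⟩ := integral_cyl0 hm' hp' hi' x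
  have e : (fun p : ℝ × ℝ => kc (sarg p.1 (η - p.2) (ch (φ s) x p.1)) *
      (Vof T₁ φ ω s p.2 (x + p.1) : ℂ)) = fun p : ℝ × ℝ => H' (x + p.1, p.2) := by
    funext p
    simp only [H', H, Vof, indicator_of_mem hs, sarg, ch, hy]
    congr 2
    push_cast
    ring
  rw [e]
  refine ⟨k1, ?_⟩
  rw [k2, ← hv]
  exact (integral_cyl_shear hφ.measurable H).symm

end Pool.Agent.Lib.MP_3d41d4_an
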