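import Pool.Agent.Lib.MP_3d41d4_an.Vel0

open MeasureTheory Set Filter Topology Real
open scoped ENNReal

namespace Pool.Agent.Lib.MP_3d41d4_an

variable {ρ L M₀ T : ℝ} {φ γ : ℝ → ℝ → ℝ}

theorem Vel_alg {z Z P Q : ℂ} (hz : z ≠ 0) (J : ℝ) :
    -(z * (Z + P - (J : ℂ) / (2 * z))).im - -(z * Q).im = -((z * Z).im + (z * (P - Q)).im) := by
  have h : z * (Z + P - (J : ℂ) / (2 * z)) = z * Z + z * P - ((J / 2 : ℝ) : ℂ) := by
    push_cast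
    field_simp
  rw [h, mul_sub]
  simp only [Complex.sub_im, Complex.add_im, Complex.ofReal_im]
  ring

theorem vv_WR (hS : Sheet ρ L M₀ T φ γ) (M : ℝ) : ∃ C : ℝ, 0 < C ∧
    ∀ {β T' ν : ℝ} {Ω Θ : ℝ → ℝ → ℝ → ℝ}, Par ρ L T β T' ν → Inv ρ L β T' ν M γ Ω Θ →
      ∀ s ∈ Ioc 0 T', ∀ η, WR (ρ - β * s) 2 (C * (√(ν * s) + |η|)) (vv φ γ Ω s η) := by
  obtain ⟨Cz, hCz, hz⟩ := zp_W ρ L
  obtain ⟨CZ, hCZ, hZ⟩ := ZZ_W hS M
  obtain ⟨Cp, hCp, hp⟩ := pv_W ρ L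
  obtain ⟨CS, -, hSS⟩ := SS_WR hS M
  refine ⟨64 * Cz * CZ + 64 * Cz * (Cp * |M|), by positivity, ?_⟩
  intro β T' ν Ω Θ hP hI s hs η
  have hr := hP.rad_pos hs.2
  have hr' := hP.rad_le hs.1.le
  have hzp : W (ρ - β * s) 2 Cz (zp (φ s)) := (hz _ (hS.curve s)).2.1.mono hr' (by norm_num) le_rfl
  have h1 := (W.mul hr.le le_rfl (by norm_num) hzp (hZ hP hI s hs η)).im
  have h2 := (W.mul hr.le le_rfl (by norm_num) hzp
    (hp _ (hS.curve s) _ hr hr' 2 le_rfl (by norm_num) _ _ (hI.wδ s hs))).im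
  have hγ : WR (ρ - β * s) 4 M₀ (γ s) := (hS.wγ s).mono hr' le_rfl le_rfl
  have e : vv φ γ Ω s η = fun x => -((zp (φ s) x * ZZ φ Ω s η x).im +
      (zp (φ s) x * pv (φ s) (fun y => SS Ω s y - γ s y) x).im) := by
    funext x
    rw [pv_sub (hS.curve s) hr (hSS hP hI s hs) hγ x]
    unfold vv vof pt
    rw [wt_split hS hP hI hs η x]
    exact Vel_alg (zp_ne_zero _ _) _
  rw [e]
  refine (h1.add h2).neg.mono le_rfl le_rfl ?_
  have h3 : M * √(ν * s) ≤ |M| * (√(ν * s) + |η|) := by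
    have := le_abs_self M
    have := abs_nonneg M
    have := abs_nonneg η
    have := Real.sqrt_nonneg (ν * s)
    nlinarith
  have h4 : 64 * Cz * (Cp * (M * √(ν * s))) ≤ 64 * Cz * (Cp * (|M| * (√(ν * s) + |η|))) := by
    gcongr
  nlinarith

theorem FF_WR (hS : Sheet ρ L M₀ T φ γ) (M : ℝ) : ∃ C : ℝ, 0 < C ∧
    ∀ {β T' ν : ℝ} {Ω Θ : ℝ → ℝ → ℝ → ℝ}, Par ρ L T β T' ν → Inv ρ L β T' ν M γ Ω Θ →
      ∀ s ∈ Ioc 0 T', ∀ η,
        WR (ρ - β * s) 2 (C * gs (mm L β s) (ν * s) η) (FF φ γ Ω Θ s η) := by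
  obtain ⟨Cw, hCw, hw⟩ := wt_W hS M
  obtain ⟨Cv, hCv, hv⟩ := vv_WR hS M
  refine ⟨64 * Cw * |M| + 64 * Cv * |M| + 1, by positivity, ?_⟩
  intro β T' ν Ω Θ hP hI s hs η
  have hr := hP.rad_pos hs.2
  have hu : WR (ρ - β * s) 2 Cw (u1 φ Ω s η) :=
    (hw hP hI s hs η).re.mono le_rfl (by norm_num) le_rfl
  have h0 := hI.w0 s hs η
  have hd : dx (Ω s η) = deriv (Ω s η) := funext fun x => dx_eq_deriv (h0.differentiable hr x)
  have h1 := WR.mul hr.le le_rfl (by norm_num) hu (WR.derivW (n := 2) hr h0)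
  have h2 := WR.mul hr.le le_rfl (by norm_num) (hv hP hI s hs η) (hI.w1 s hs η)
  have e : FF φ γ Ω Θ s η = fun x => u1 φ Ω s η x * deriv (Ω s η) x +
      vv φ γ Ω s η x * Θ s η x := by
    funext x
    unfold FF
    rw [hd]
  rw [e]
  refine (h1.add h2).mono le_rfl le_rfl ?_
  have hpos : 0 < √(ν * s) + |η| :=
    add_pos_of_pos_of_nonneg (Real.sqrt_pos.2 (mul_pos hP.ν_pos hs.1)) (abs_nonneg η)
  have hg := gs_nonneg (mm L β s) (ν * s) η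
  have h3 : 64 * (Cv * (√(ν * s) + |η|)) * (M * gs (mm L β s) (ν * s) η / (√(ν * s) + |η|)) =
      64 * Cv * (M * gs (mm L β s) (ν * s) η) := by
    field_simp
  rw [h3]
  have h4 : M * gs (mm L β s) (ν * s) η ≤ |M| * gs (mm L β s) (ν * s) η :=
    mul_le_mul_of_nonneg_right (le_abs_self M) hg
  have h5 : 64 * Cw * (M * gs (mm L β s) (ν * s) η) ≤ 64 * Cw * (|M| * gs (mm L β s) (ν * s) η) := by
    gcongr
  have h6 : 64 * Cv * (M * gs (mm L β s) (ν * s) η) ≤ 64 * Cv * (|M| * gs (mm L β s) (ν * s) η) := by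
    gcongr
  nlinarith

end Pool.Agent.Lib.MP_3d41d4_an
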