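import Pool.Agent.Lib.MP_3d41d4_an.Meas

open MeasureTheory Set Filter Topology Real
open scoped ENNReal

namespace Pool.Agent.Lib.MP_3d41d4_an

variable {ρ L M₀ T : ℝ} {φ γ : ℝ → ℝ → ℝ}

theorem Vel0_mm_pos {β T' ν s : ℝ} (hP : Par ρ L T β T' ν) (hs : s ∈ Ioc 0 T') :
    0 < mm L β s := by
  have h1 := hP.mm_ge hs.2
  have h2 := cg_pos L
  linarith

theorem Vel0_sqrt_le {β T' ν s : ℝ} (hP : Par ρ L T β T' ν) (hs : s ∈ Ioc 0 T') :
    √(π / mm L β s) ≤ √(π / (cg L / 4)) := by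
  have h2 := cg_pos L
  exact Real.sqrt_le_sqrt
    (div_le_div_of_nonneg_left Real.pi_pos.le (by positivity) (hP.mm_ge hs.2))

theorem Vel0_measΩ {β T' ν M : ℝ} {Ω Θ : ℝ → ℝ → ℝ → ℝ} (hI : Inv ρ L β T' ν M γ Ω Θ) (s : ℝ) :
    Measurable fun p : ℝ × ℝ => Ω s p.1 p.2 :=
  meas3 hI.measΩ measurable_const measurable_fst measurable_snd

theorem Vel0_int_gs {β T' ν s : ℝ} (hP : Par ρ L T β T' ν) (hs : s ∈ Ioc 0 T') (M : ℝ) :
    Integrable fun η => M * gs (mm L β s) (ν * s) η :=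
  (integrable_gs (Vel0_mm_pos hP hs) (mul_pos hP.ν_pos hs.1)).const_mul M

theorem Vel0_integral_gs_le {β T' ν s : ℝ} (hP : Par ρ L T β T' ν) (hs : s ∈ Ioc 0 T') (M : ℝ) :
    ∫ η, M * gs (mm L β s) (ν * s) η ≤ |M| * √(π / (cg L / 4)) := by
  rw [integral_const_mul, integral_gs (Vel0_mm_pos hP hs) (mul_pos hP.ν_pos hs.1)]
  exact mul_le_mul (le_abs_self M) (Vel0_sqrt_le hP hs) (Real.sqrt_nonneg _) (abs_nonneg M)

theorem Vel0_ae_ne (η : ℝ) : ∀ᵐ η' : ℝ, η - η' ≠ 0 := by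
  filter_upwards [Measure.ae_ne volume η] with η' h
  exact sub_ne_zero.2 (Ne.symm h)

theorem Vel0_meas_bs (hS : Sheet ρ L M₀ T φ γ) {β T' ν M : ℝ} {Ω Θ : ℝ → ℝ → ℝ → ℝ}
    (hI : Inv ρ L β T' ν M γ Ω Θ) (s η : ℝ) :
    Measurable fun p : ℝ × ℝ => bs (φ s) (η - p.1) (Ω s p.1) p.2 :=
  measurable_bs (Λ := ℝ × ℝ) (φ := fun _ => φ s) (f := fun p => Ω s p.1)
    (σ := fun p => η - p.1) (x := fun p => p.2)
    ((hS.curve s).continuous.measurable.comp measurable_snd)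
    (meas3 hI.measΩ measurable_const measurable_fst.fst measurable_snd)
    (measurable_const.sub measurable_fst) measurable_snd

theorem Vel0_meas_wtil (hS : Sheet ρ L M₀ T φ γ) {β T' ν M : ℝ} {Ω Θ : ℝ → ℝ → ℝ → ℝ}
    (hI : Inv ρ L β T' ν M γ Ω Θ) (s η : ℝ) :
    Measurable fun p : ℝ × ℝ => wtil (φ s) (η - p.1) (Ω s p.1) p.2 :=
  meas_wtil hS hI.measΩ (s := fun _ => s) (σ := fun p : ℝ × ℝ => η - p.1)
    measurable_const (measurable_const.sub measurable_fst) measurable_fst measurable_snd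

theorem SS_WR (hS : Sheet ρ L M₀ T φ γ) (M : ℝ) : ∃ C : ℝ, 0 < C ∧
    ∀ {β T' ν : ℝ} {Ω Θ : ℝ → ℝ → ℝ → ℝ}, Par ρ L T β T' ν → Inv ρ L β T' ν M γ Ω Θ →
      ∀ s ∈ Ioc 0 T', WR (ρ - β * s) 3 C (SS Ω s) := by
  refine ⟨|M| * √(π / (cg L / 4)) + 1, by positivity, ?_⟩
  intro β T' ν Ω Θ hP hI s hs
  have h := WR.integral (μ := volume) (hP.rad_pos hs.2) (f := Ω s) (Vel0_measΩ hI s)
    (Vel0_int_gs hP hs M) (Eventually.of_forall fun η => hI.w0 s hs η)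
  have := Vel0_integral_gs_le hP hs M
  exact h.mono le_rfl le_rfl (by linarith)

theorem integrable_Ω (hS : Sheet ρ L M₀ T φ γ) {β T' ν M : ℝ} {Ω Θ : ℝ → ℝ → ℝ → ℝ}
    (hP : Par ρ L T β T' ν) (hI : Inv ρ L β T' ν M γ Ω Θ)
    {s : ℝ} (hs : s ∈ Ioc 0 T') (x : ℝ) : Integrable fun η => Ω s η x :=
  WR.integrable (μ := volume) (hP.rad_pos hs.2) (f := Ω s) (Vel0_measΩ hI s)
    (Vel0_int_gs hP hs M) (Eventually.of_forall fun η => hI.w0 s hs η) x

theorem integrable_bs (hS : Sheet ρ L M₀ T φ γ) {β T' ν M : ℝ} {Ω Θ : ℝ → ℝ → ℝ → ℝ}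
    (hP : Par ρ L T β T' ν) (hI : Inv ρ L β T' ν M γ Ω Θ)
    {s : ℝ} (hs : s ∈ Ioc 0 T') (η x : ℝ) :
    Integrable fun η' => bs (φ s) (η - η') (Ω s η') x := by
  obtain ⟨C, _, hC⟩ := bs_W ρ L
  refine W.integrable (μ := volume) (n := 3) (hP.rad_pos hs.2)
    (f := fun η' => bs (φ s) (η - η') (Ω s η')) (Vel0_meas_bs hS hI s η)
    ((Vel0_int_gs hP hs M).const_mul C) ?_ x
  filter_upwards [Vel0_ae_ne η] with η' h
  exact hC (φ s) (hS.curve s) _ (hP.rad_pos hs.2) (hP.rad_le hs.1.le) 3 (by norm_num)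
    (by norm_num) _ _ (hI.w0 s hs η') _ h

theorem wt_W (hS : Sheet ρ L M₀ T φ γ) (M : ℝ) : ∃ C : ℝ, 0 < C ∧
    ∀ {β T' ν : ℝ} {Ω Θ : ℝ → ℝ → ℝ → ℝ}, Par ρ L T β T' ν → Inv ρ L β T' ν M γ Ω Θ →
      ∀ s ∈ Ioc 0 T', ∀ η, W (ρ - β * s) 3 C (wt φ Ω s η) := by
  obtain ⟨C, hC0, hC⟩ := bs_W ρ L
  refine ⟨C * (|M| * √(π / (cg L / 4))) + 1, by positivity, ?_⟩
  intro β T' ν Ω Θ hP hI s hs η
  have h := W.integral (μ := volume) (n := 3) (hP.rad_pos hs.2)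
    (f := fun η' => bs (φ s) (η - η') (Ω s η')) (Vel0_meas_bs hS hI s η)
    ((Vel0_int_gs hP hs M).const_mul C) (by
      filter_upwards [Vel0_ae_ne η] with η' h
      exact hC (φ s) (hS.curve s) _ (hP.rad_pos hs.2) (hP.rad_le hs.1.le) 3 (by norm_num)
        (by norm_num) _ _ (hI.w0 s hs η') _ h)
  refine h.mono le_rfl le_rfl ?_
  rw [integral_const_mul]
  have := mul_le_mul_of_nonneg_left (Vel0_integral_gs_le hP hs M) hC0.le
  linarith

theorem Vel0_int_abs {β T' ν s : ℝ} (hP : Par ρ L T β T' ν) (hs : s ∈ Ioc 0 T') (C M η : ℝ) :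
    Integrable fun η' => C * (M * gs (mm L β s) (ν * s) η') * |η - η'| := by
  have h := (integrable_abs_mul_gs (Vel0_mm_pos hP hs) (mul_pos hP.ν_pos hs.1) η).const_mul (C * M)
  refine h.congr (Eventually.of_forall fun η' => ?_)
  ring

theorem ZZ_W (hS : Sheet ρ L M₀ T φ γ) (M : ℝ) : ∃ C : ℝ, 0 < C ∧
    ∀ {β T' ν : ℝ} {Ω Θ : ℝ → ℝ → ℝ → ℝ}, Par ρ L T β T' ν → Inv ρ L β T' ν M γ Ω Θ →
      ∀ s ∈ Ioc 0 T', ∀ η, W (ρ - β * s) 2 (C * (√(ν * s) + |η|)) (ZZ φ Ω s η) := by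
  obtain ⟨C, hC0, hC⟩ := wtil_W ρ L
  have hcg := cg_pos L
  refine ⟨C * |M| * (√(π / (cg L / 4)) + 1 / (cg L / 4)) + 1, by positivity, ?_⟩
  intro β T' ν Ω Θ hP hI s hs η
  have h := W.integral (μ := volume) (n := 2) (hP.rad_pos hs.2)
    (f := fun η' => wtil (φ s) (η - η') (Ω s η')) (Vel0_meas_wtil hS hI s η)
    (Vel0_int_abs hP hs C M η) (by
      filter_upwards [Vel0_ae_ne η] with η' h
      exact hC (φ s) (hS.curve s) _ (hP.rad_pos hs.2) (hP.rad_le hs.1.le) _ _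
        (hI.w0 s hs η') _ h)
  refine h.mono le_rfl le_rfl ?_
  have hm := Vel0_mm_pos hP hs
  have hb : 0 < ν * s := mul_pos hP.ν_pos hs.1
  have e : ∫ η', C * (M * gs (mm L β s) (ν * s) η') * |η - η'|
      = C * M * ∫ η', |η - η'| * gs (mm L β s) (ν * s) η' := by
    rw [← integral_const_mul]
    refine integral_congr_ae (Eventually.of_forall fun η' => ?_)
    ring
  rw [e]
  have h0 : 0 ≤ ∫ η', |η - η'| * gs (mm L β s) (ν * s) η' :=
    integral_nonneg fun η' => mul_nonneg (abs_nonneg _) (gs_nonneg _ _ _)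
  have h1 := integral_abs_sub_mul_gs_le hm hb η
  have h2 := Vel0_sqrt_le hP hs
  have h3 : √(ν * s) / mm L β s ≤ 1 / (cg L / 4) * √(ν * s) := by
    rw [one_div, ← div_eq_inv_mul]
    exact div_le_div_of_nonneg_left (Real.sqrt_nonneg _) (by positivity) (hP.mm_ge hs.2)
  have hK : 0 ≤ √(π / (cg L / 4)) := Real.sqrt_nonneg _
  have hJ : 0 ≤ 1 / (cg L / 4) := by positivity
  have hr : 0 ≤ √(ν * s) := Real.sqrt_nonneg _
  have hη : 0 ≤ |η| := abs_nonneg η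
  have h4 : √(π / mm L β s) * |η| ≤ √(π / (cg L / 4)) * |η| :=
    mul_le_mul_of_nonneg_right h2 hη
  generalize √(π / (cg L / 4)) = K at *
  generalize 1 / (cg L / 4) = J at *
  generalize √(ν * s) = r at *
  generalize ∫ η', |η - η'| * gs (mm L β s) (ν * s) η' = X at *
  have h5 : X ≤ (K + J) * (r + |η|) := by
    have a1 := mul_nonneg hK hr
    have a2 := mul_nonneg hJ hη
    nlinarith
  have h6 : C * M * X ≤ C * |M| * X :=
    mul_le_mul_of_nonneg_right (mul_le_mul_of_nonneg_left (le_abs_self M) hC0.le) h0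
  have h7 : C * |M| * X ≤ C * |M| * ((K + J) * (r + |η|)) :=
    mul_le_mul_of_nonneg_left h5 (by positivity)
  nlinarith

/-- Splitting of the velocity into small part, principal value and jump. -/
theorem wt_split (hS : Sheet ρ L M₀ T φ γ) {β T' ν M : ℝ} {Ω Θ : ℝ → ℝ → ℝ → ℝ}
    (hP : Par ρ L T β T' ν) (hI : Inv ρ L β T' ν M γ Ω Θ)
    {s : ℝ} (hs : s ∈ Ioc 0 T') (η x : ℝ) :
    wt φ Ω s η x = ZZ φ Ω s η x + pv (φ s) (SS Ω s) x
      - ((∫ η', Real.sign (η - η') * Ω s η' x : ℝ) : ℂ) / (2 * zp (φ s) x) := by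
  have hbs := integrable_bs hS hP hI hs η x
  obtain ⟨hpv, epv⟩ := pv_integral (μ := volume) (hS.curve s) (hP.rad_pos hs.2) (F := Ω s)
    (Vel0_measΩ hI s) (Vel0_int_gs hP hs M) (Eventually.of_forall fun η => hI.w0 s hs η) x
  have hsign : Measurable Real.sign := by
    have : Real.sign = fun r : ℝ => if r < 0 then (-1 : ℝ) else if 0 < r then 1 else 0 := by
      funext r
      rfl
    rw [this]
    exact Measurable.ite measurableSet_Iio measurable_const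
      (Measurable.ite measurableSet_Ioi measurable_const measurable_const)
  have hj : Integrable fun η' => Real.sign (η - η') * Ω s η' x := by
    refine (integrable_Ω hS hP hI hs x).bdd_mul (c := 1)
      ((hsign.comp (measurable_const.sub measurable_id)).aestronglyMeasurable)
      (Eventually.of_forall fun η' => ?_)
    rcases Real.sign_apply_eq (η - η') with h | h | h <;> simp [h]
  have hj' : Integrable fun η' =>
      ((Real.sign (η - η') * Ω s η' x : ℝ) : ℂ) / (2 * zp (φ s) x) := hj.ofReal.div_const _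
  have e1 : ZZ φ Ω s η x = wt φ Ω s η x - pv (φ s) (SS Ω s) x
      + ((∫ η', Real.sign (η - η') * Ω s η' x : ℝ) : ℂ) / (2 * zp (φ s) x) := by
    have e2 : pv (φ s) (SS Ω s) x = ∫ η', pv (φ s) (Ω s η') x := epv
    rw [e2, ← integral_complex_ofReal, ← integral_div]
    unfold ZZ wt wtil
    have hd : Integrable fun η' => bs (φ s) (η - η') (Ω s η') x - pv (φ s) (Ω s η') x :=
      hbs.sub hpv
    rw [integral_add hd hj', integral_sub hbs hpv]
  rw [e1]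
  ring

end Pool.Agent.Lib.MP_3d41d4_an
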