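import Pool.Agent.Lib.MP_3d41d4_an.Vel

open MeasureTheory Set Filter Topology Real
open scoped ENNReal

namespace Pool.Agent.Lib.MP_3d41d4_an

variable {ρ L M₀ T : ℝ} {φ γ : ℝ → ℝ → ℝ}

theorem VelD_ae_ne (η : ℝ) : ∀ᵐ η' : ℝ, η - η' ≠ 0 := by
  have h : ∀ᵐ η' : ℝ, η' ≠ η := by
    rw [ae_iff]
    simp
  filter_upwards [h] with η' h'
  exact sub_ne_zero.2 h'.symm

theorem VelD_meas_bs (hS : Sheet ρ L M₀ T φ γ) {Ω : ℝ → ℝ → ℝ → ℝ}
    (hΩ : Measurable fun p : ℝ × ℝ × ℝ => Ω p.1 p.2.1 p.2.2) (s η : ℝ) :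
    Measurable fun p : ℝ × ℝ => bs (φ s) (η - p.1) (Ω s p.1) p.2 := by
  refine measurable_bs (Λ := ℝ × ℝ) (φ := fun _ => φ s) (f := fun p => Ω s p.1)
    (σ := fun p => η - p.1) (x := fun p => p.2) ?_ ?_ ?_ measurable_snd
  · exact hS.measφ measurable_const measurable_snd
  · exact meas3 hΩ measurable_const (measurable_fst.comp measurable_fst) measurable_snd
  · exact measurable_const.sub measurable_fst

/-- Incompressibility in the moving frame. -/
theorem vv_hasDerivAt (hS : Sheet ρ L M₀ T φ γ) {β T' ν M : ℝ} {Ω Θ : ℝ → ℝ → ℝ → ℝ}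
    (hP : Par ρ L T β T' ν) (hI : Inv ρ L β T' ν M γ Ω Θ)
    {s : ℝ} (hs : s ∈ Ioc 0 T') (η x : ℝ) :
    HasDerivAt (fun η' => vv φ γ Ω s η' x) (-deriv (u1 φ Ω s η) x) η := by
  have hr : 0 < ρ - β * s := hP.rad_pos hs.2
  have hrle : ρ - β * s ≤ ρ := hP.rad_le hs.1.le
  have hcur := hS.curve s
  obtain ⟨C, hC, hlip⟩ := normal_lip ρ L
  obtain ⟨C', hC', hbs⟩ := bs_W ρ L
  have hm : 0 < mm L β s := lt_of_lt_of_le (by have := cg_pos L; positivity) (hP.mm_ge hs.2)
  have hb : 0 < ν * s := mul_pos hP.ν_pos hs.1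
  have hg : Integrable fun η' => M * gs (mm L β s) (ν * s) η' :=
    (integrable_gs hm hb).const_mul M
  have hw0 := hI.w0 s hs
  set F : ℝ → ℝ → ℝ := fun e η' => -(zp (φ s) x *
    if e - η' = 0 then pv (φ s) (Ω s η') x else bs (φ s) (e - η') (Ω s η') x).im with hF
  have hFae : ∀ e, (fun η' => -(zp (φ s) x * bs (φ s) (e - η') (Ω s η') x).im) =ᵐ[volume] F e := by
    intro e
    filter_upwards [VelD_ae_ne e] with η' h
    simp only [hF, if_neg h]
  have hint0 : ∀ e, Integrable fun η' => zp (φ s) x * bs (φ s) (e - η') (Ω s η') x :=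
    fun e => (integrable_bs hS hP hI hs e x).const_mul _
  have hFint : ∀ e, Integrable (F e) := by
    intro e
    refine Integrable.congr ?_ (hFae e)
    exact (hint0 e).im.neg
  have hvv : ∀ e, vv φ γ Ω s e x = (∫ η', F e η') - pt φ γ s x := by
    intro e
    rw [← integral_congr_ae (hFae e), integral_neg]
    unfold vv vof wt
    rw [← integral_const_mul]
    have := integral_im (hint0 e)
    simp only [RCLike.im_to_complex] at this
    rw [this]
  -- the derivative of `u1`
  have hWae : ∀ᵐ η' : ℝ, W (ρ - β * s) 3 (C' * (M * gs (mm L β s) (ν * s) η'))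
      (bs (φ s) (η - η') (Ω s η')) := by
    filter_upwards [VelD_ae_ne η] with η' h
    exact hbs _ hcur _ hr hrle 3 (by norm_num) (by norm_num) _ _ (hw0 η') _ h
  obtain ⟨hdint, hder⟩ := W.hasDerivAt_integral (μ := volume) hr
    (f := fun η' y => bs (φ s) (η - η') (Ω s η') y) (VelD_meas_bs hS hI.measΩ s η)
    (hg.const_mul C') hWae x
  have hu1 : deriv (u1 φ Ω s η) x
      = ∫ η', (deriv (fun y => bs (φ s) (η - η') (Ω s η') y) x).re := by
    have h1 : HasDerivAt (u1 φ Ω s η)
        (∫ η', deriv (fun y => bs (φ s) (η - η') (Ω s η') y) x).re x := by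
      have := Complex.reCLM.hasFDerivAt.comp_hasDerivAt x hder
      exact this
    rw [h1.deriv]
    have := integral_re hdint
    simp only [RCLike.re_to_complex] at this
    exact this.symm
  have hmain := hasDerivAt_integral_of_dominated_loc_of_lip (μ := volume) (F := F) (x₀ := η)
    (s := univ) (bound := fun η' => C * (M * gs (mm L β s) (ν * s) η'))
    (F' := fun η' => -(deriv (fun y => bs (φ s) (η - η') (Ω s η') y) x).re) univ_mem
    (Eventually.of_forall fun e => (hFint e).aestronglyMeasurable) (hFint η)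
    (hdint.re.neg.aestronglyMeasurable) ?_ (hg.const_mul C) ?_
  · have h2 := hmain.2.sub_const (pt φ γ s x)
    rw [integral_neg, ← hu1] at h2
    refine h2.congr_of_eventuallyEq (Eventually.of_forall fun e => hvv e)
  · refine Eventually.of_forall fun η' => ?_
    refine LipschitzOnWith.of_dist_le_mul fun e _ e' _ => ?_
    have h1 := hlip _ hcur _ hr hrle _ _ (hw0 η') x (e - η') (e' - η')
    have h0 : 0 ≤ C * (M * gs (mm L β s) (ν * s) η') := mul_nonneg hC.le (hw0 η').nonneg
    rw [Real.dist_eq, Real.dist_eq, Real.coe_nnabs, abs_of_nonneg h0]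
    have h2 : e - η' - (e' - η') = e - e' := by ring
    rw [h2] at h1
    simp only [hF]
    rw [neg_sub_neg, abs_sub_comm]
    exact h1
  · filter_upwards [VelD_ae_ne η] with η' h
    obtain ⟨d, hd1, hd2⟩ := bs_deriv hcur (hw0 η').cont (hw0 η').per h x
    have h3 : HasDerivAt (fun e => bs (φ s) (e - η') (Ω s η') x) (Complex.I * d) η := by
      have := hd1.comp_sub_const η η'
      exact this
    have h4 : HasDerivAt (fun e => -(zp (φ s) x * bs (φ s) (e - η') (Ω s η') x).im)
        (-(zp (φ s) x * (Complex.I * d)).im) η := by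
      have := (Complex.imCLM.hasFDerivAt.comp_hasDerivAt η (h3.const_mul (zp (φ s) x))).neg
      exact this
    have h5 : (zp (φ s) x * (Complex.I * d)).im = (zp (φ s) x * d).re := by
      simp [Complex.mul_im, Complex.mul_re]
      ring
    have h6 : deriv (fun y => bs (φ s) (η - η') (Ω s η') y) x = zp (φ s) x * d := hd2.deriv
    rw [h6, ← h5]
    refine h4.congr_of_eventuallyEq ?_
    have h7 : ∀ᶠ e in 𝓝 η, e - η' ≠ 0 :=
      (continuous_id.sub continuous_const).continuousAt.eventually_ne h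
    filter_upwards [h7] with e he
    simp only [hF, if_neg he]

theorem meas_du1 (hS : Sheet ρ L M₀ T φ γ) {β T' ν M : ℝ} {Ω Θ : ℝ → ℝ → ℝ → ℝ}
    (hP : Par ρ L T β T' ν) (hI : Inv ρ L β T' ν M γ Ω Θ)
    {s : ℝ} (hs : s ∈ Ioc 0 T') :
    Measurable fun p : ℝ × ℝ => deriv (u1 φ Ω s p.1) p.2 := by
  obtain ⟨C, -, hC⟩ := wt_W hS M
  refine measurable_deriv_of_differentiable (Λ := ℝ) (F := fun η => u1 φ Ω s η) ?_ ?_
  · exact meas_u1 hS hI.measΩ measurable_const measurable_fst measurable_snd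
  · intro η
    exact WR.differentiable (hP.rad_pos hs.2) (hC hP hI s hs η).re

end Pool.Agent.Lib.MP_3d41d4_an
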