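import Pool.Agent.Lib.MP_3d41d4_an.WBasic0

open MeasureTheory Set Filter Topology Real
open scoped ENNReal

namespace Pool.Agent.Lib.MP_3d41d4_an

variable {w w' : ℤ → ℝ} {n n' : ℕ} {ρ ρ' M M' N : ℝ}

theorem W.cont {f : ℝ → ℂ} (h : W ρ n M f) : Continuous f := h.1

theorem W.per {f : ℝ → ℂ} (h : W ρ n M f) : Function.Periodic f (2 * π) := h.2.1

theorem W.nonneg {f : ℝ → ℂ} (h : W ρ n M f) : 0 ≤ M := Wg.nonneg h

theorem W.mono {f : ℝ → ℂ} (h : W ρ n M f) (hρ : ρ' ≤ ρ) (hn : n' ≤ n) (hM : M ≤ M') :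
    W ρ' n' M' f :=
  Wg.mono h (fun _ => mul_le_mul_of_nonneg_right hρ (abs_nonneg _)) hn hM

theorem W.add {f g : ℝ → ℂ} (hf : W ρ n M f) (hg : W ρ n N g) :
    W ρ n (M + N) fun x => f x + g x := Wg.add hf hg

theorem W.sub {f g : ℝ → ℂ} (hf : W ρ n M f) (hg : W ρ n N g) :
    W ρ n (M + N) fun x => f x - g x := Wg.sub hf hg

theorem W.neg {f : ℝ → ℂ} (hf : W ρ n M f) : W ρ n M fun x => -f x := by
  have h := Wg.const_mul hf (-1)
  simp only [norm_neg, norm_one, one_mul, neg_mul] at h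
  exact h

theorem W.const_mul {f : ℝ → ℂ} (hf : W ρ n M f) (c : ℂ) :
    W ρ n (‖c‖ * M) fun x => c * f x := Wg.const_mul hf c

theorem W.shift {f : ℝ → ℂ} (hf : W ρ n M f) (r : ℝ) : W ρ n M fun x => f (x + r) :=
  Wg.shift hf r

theorem W.const (ρ : ℝ) (n : ℕ) (c : ℂ) : W ρ n ‖c‖ fun _ => c := Wg.const (by simp) n c

theorem W.conj {f : ℝ → ℂ} (hf : W ρ n M f) : W ρ n M fun x => (starRingEnd ℂ) (f x) := by
  refine ⟨Complex.continuous_conj.comp hf.1, fun x => by simp only [hf.2.1 x], fun k => ?_⟩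
  rw [fc_conj, Complex.norm_conj]
  have h := hf.2.2 (-k)
  simpa [wgt] using h

theorem W.re {f : ℝ → ℂ} (hf : W ρ n M f) : WR ρ n M fun x => (f x).re := by
  have h := (hf.add hf.conj).const_mul (1 / 2)
  have e1 : ‖(1 / 2 : ℂ)‖ * (M + M) = M := by
    rw [norm_div, norm_one, Complex.norm_two]; ring
  rw [e1] at h
  have e2 : (fun x => (((f x).re : ℝ) : ℂ)) =
      fun x => (1 / 2 : ℂ) * (f x + (starRingEnd ℂ) (f x)) := by
    funext x
    rw [Complex.add_conj]; push_cast; ring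
  unfold WR
  rw [e2]
  exact h

theorem W.im {f : ℝ → ℂ} (hf : W ρ n M f) : WR ρ n M fun x => (f x).im := by
  have h := (hf.const_mul (-Complex.I)).re
  simp only [norm_neg, Complex.norm_I, one_mul, neg_mul, Complex.neg_re, Complex.mul_re,
    Complex.I_re, Complex.I_im, zero_mul, zero_sub, neg_neg] at h
  exact h

theorem W.shift_sub {f : ℝ → ℂ} (hf : W ρ (n + 1) M f) (r : ℝ) :
    W ρ n (M * |r|) fun x => f (x + r) - f x := by
  have hs := hf.shift r
  refine ⟨hs.1.sub hf.1, fun x => ?_, fun k => ?_⟩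
  · have h1 := hs.2.1 x
    have h2 := hf.2.1 x
    simp only at h1 ⊢
    rw [h1, h2]
  · rw [fc_sub hs.1 hf.1, fc_shift hf.2.1, ← sub_one_mul, norm_mul]
    have h1 : ‖Complex.exp ((k : ℂ) * (r : ℂ) * Complex.I) - 1‖ ≤ |(k : ℝ)| * |r| := by
      have h2 := Real.norm_exp_I_mul_ofReal_sub_one_le (x := (k : ℝ) * r)
      rw [Real.norm_eq_abs, abs_mul] at h2
      convert h2 using 3
      push_cast; ring_nf
    have h3 := hf.2.2 k
    have hM := hf.nonneg
    have hk : (0 : ℝ) < 1 + |(k : ℝ)| := by positivity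
    have h4 : |(k : ℝ)| * wgt (fun k => ρ * |(k : ℝ)|) (n + 1) k ≤
        wgt (fun k => ρ * |(k : ℝ)|) n k := by
      unfold wgt
      rw [pow_succ, ← div_div, mul_div_assoc', div_le_iff₀ hk]
      have h5 : 0 ≤ Real.exp (-(ρ * |(k : ℝ)|)) / (1 + |(k : ℝ)|) ^ n := by positivity
      nlinarith
    calc ‖Complex.exp ((k : ℂ) * (r : ℂ) * Complex.I) - 1‖ * ‖fc f k‖
        ≤ (|(k : ℝ)| * |r|) * (M * wgt (fun k => ρ * |(k : ℝ)|) (n + 1) k) :=
          mul_le_mul h1 h3 (norm_nonneg _) (by positivity)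
      _ = M * |r| * (|(k : ℝ)| * wgt (fun k => ρ * |(k : ℝ)|) (n + 1) k) := by ring
      _ ≤ M * |r| * wgt (fun k => ρ * |(k : ℝ)|) n k :=
          mul_le_mul_of_nonneg_left h4 (by positivity)

theorem WBasic_pow_le {d : ℝ} (hd : 0 < d) (n : ℕ) :
    ∃ C : ℝ, 0 < C ∧ ∀ x : ℝ, 0 ≤ x → (1 + x) ^ n ≤ C * Real.exp (d * x) := by
  refine ⟨(n.factorial : ℝ) / d ^ n * Real.exp d, by positivity, fun x hx => ?_⟩
  have h1 := Real.pow_div_factorial_le_exp (d * (1 + x)) (by positivity) n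
  have hf : (0 : ℝ) < n.factorial := by positivity
  have hdn : (0 : ℝ) < d ^ n := by positivity
  rw [div_le_iff₀ hf, mul_pow] at h1
  rw [mul_assoc, ← Real.exp_add, div_mul_eq_mul_div, le_div_iff₀ hdn]
  have e : d + d * x = d * (1 + x) := by ring
  rw [e]
  linarith

/-- Trading radius for levels. -/
theorem W.level (hρ : ρ' < ρ) (n : ℕ) :
    ∃ C : ℝ, 0 < C ∧ ∀ (M : ℝ) (f : ℝ → ℂ), W ρ 0 M f → W ρ' n (C * M) f := by
  obtain ⟨C, hC, h⟩ := WBasic_pow_le (sub_pos.mpr hρ) n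
  refine ⟨C, hC, fun M f hf => ⟨hf.1, hf.2.1, fun k => (hf.2.2 k).trans ?_⟩⟩
  have hM := hf.nonneg
  have h1 : wgt (fun k => ρ * |(k : ℝ)|) 0 k ≤ C * wgt (fun k => ρ' * |(k : ℝ)|) n k := by
    unfold wgt
    have hk : (0 : ℝ) < (1 + |(k : ℝ)|) ^ n := by positivity
    rw [pow_zero, div_one, mul_div_assoc', le_div_iff₀ hk]
    have h2 := h |(k : ℝ)| (abs_nonneg _)
    have e : Real.exp (-(ρ' * |(k : ℝ)|)) =
        Real.exp ((ρ - ρ') * |(k : ℝ)|) * Real.exp (-(ρ * |(k : ℝ)|)) := by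
      rw [← Real.exp_add]; congr 1; ring
    rw [e, ← mul_assoc, mul_comm]
    exact mul_le_mul_of_nonneg_right h2 (Real.exp_pos _).le
  calc M * wgt (fun k => ρ * |(k : ℝ)|) 0 k ≤ M * (C * wgt (fun k => ρ' * |(k : ℝ)|) n k) :=
        mul_le_mul_of_nonneg_left h1 hM
    _ = C * M * wgt (fun k => ρ' * |(k : ℝ)|) n k := by ring

theorem WR.cont {f : ℝ → ℝ} (h : WR ρ n M f) : Continuous f := by
  have h1 := Complex.continuous_re.comp (W.cont h)
  simpa [Function.comp_def] using h1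

theorem WR.per {f : ℝ → ℝ} (h : WR ρ n M f) : Function.Periodic f (2 * π) := fun x =>
  Complex.ofReal_injective (W.per h x)

theorem WR.nonneg {f : ℝ → ℝ} (h : WR ρ n M f) : 0 ≤ M := W.nonneg h

theorem WR.mono {f : ℝ → ℝ} (h : WR ρ n M f) (hρ : ρ' ≤ ρ) (hn : n' ≤ n) (hM : M ≤ M') :
    WR ρ' n' M' f := W.mono h hρ hn hM

theorem WR.add {f g : ℝ → ℝ} (hf : WR ρ n M f) (hg : WR ρ n N g) :
    WR ρ n (M + N) fun x => f x + g x := by
  have h := W.add hf hg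
  unfold WR
  simp only [Complex.ofReal_add]
  exact h

theorem WR.sub {f g : ℝ → ℝ} (hf : WR ρ n M f) (hg : WR ρ n N g) :
    WR ρ n (M + N) fun x => f x - g x := by
  have h := W.sub hf hg
  unfold WR
  simp only [Complex.ofReal_sub]
  exact h

theorem WR.neg {f : ℝ → ℝ} (hf : WR ρ n M f) : WR ρ n M fun x => -f x := by
  have h := W.neg hf
  unfold WR
  simp only [Complex.ofReal_neg]
  exact h

theorem WR.const_mul {f : ℝ → ℝ} (hf : WR ρ n M f) (c : ℝ) :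
    WR ρ n (|c| * M) fun x => c * f x := by
  have h := W.const_mul hf (c : ℂ)
  rw [Complex.norm_real, Real.norm_eq_abs] at h
  unfold WR
  simp only [Complex.ofReal_mul]
  exact h

theorem WR.shift {f : ℝ → ℝ} (hf : WR ρ n M f) (r : ℝ) : WR ρ n M fun x => f (x + r) :=
  W.shift hf r

theorem WR.const (ρ : ℝ) (n : ℕ) (c : ℝ) : WR ρ n |c| fun _ => c := by
  have h := W.const ρ n (c : ℂ)
  rw [Complex.norm_real, Real.norm_eq_abs] at h
  exact h

theorem WR.shift_sub {f : ℝ → ℝ} (hf : WR ρ (n + 1) M f) (r : ℝ) :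
    WR ρ n (M * |r|) fun x => f (x + r) - f x := by
  have h := W.shift_sub hf r
  unfold WR
  simp only [Complex.ofReal_sub]
  exact h

theorem InX.toWR {f : ℝ → ℝ} (h : InX ρ M f) : WR ρ 0 M f := by
  obtain ⟨h1, h2, h3, h4⟩ := h
  refine ⟨Complex.continuous_ofReal.comp h1, fun x => by simp only [h2 x], fun k => ?_⟩
  have h5 := (h3.le_tsum k fun j _ => by positivity).trans h4
  unfold wgt
  rw [pow_zero, div_one, Real.exp_neg, ← div_eq_mul_inv, le_div_iff₀ (Real.exp_pos _)]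
  exact h5

end Pool.Agent.Lib.MP_3d41d4_an
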