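import Pool.Agent.Lib.MP_3d41d4_an.Defs

open MeasureTheory Set Filter Topology Real
open scoped ENNReal

namespace Pool.Agent.Lib.MP_3d41d4_an

variable {w w' : ℤ → ℝ} {n n' : ℕ} {ρ ρ' M M' N : ℝ}

theorem wgt_pos (w : ℤ → ℝ) (n : ℕ) (k : ℤ) : 0 < wgt w n k := by
  unfold wgt
  positivity

theorem WBasic0_cont_exp (k : ℤ) :
    Continuous fun x : ℝ => Complex.exp (-((k : ℂ) * (x : ℂ) * Complex.I)) := by
  fun_prop

theorem WBasic0_norm_exp (k : ℤ) (x : ℝ) :
    ‖Complex.exp (-((k : ℂ) * (x : ℂ) * Complex.I))‖ = 1 := by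
  have h : -((k : ℂ) * (x : ℂ) * Complex.I) = ((-((k : ℝ) * x) : ℝ) : ℂ) * Complex.I := by
    push_cast; ring
  rw [h, Complex.norm_exp_ofReal_mul_I]

theorem WBasic0_norm_exp' (k : ℤ) (x : ℝ) :
    ‖Complex.exp ((k : ℂ) * (x : ℂ) * Complex.I)‖ = 1 := by
  have h : ((k : ℂ) * (x : ℂ) * Complex.I) = (((k : ℝ) * x : ℝ) : ℂ) * Complex.I := by
    push_cast; ring
  rw [h, Complex.norm_exp_ofReal_mul_I]

theorem fc_add {f g : ℝ → ℂ} (hf : Continuous f) (hg : Continuous g) (k : ℤ) :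
    fc (fun x => f x + g x) k = fc f k + fc g k := by
  unfold fc
  rw [← mul_add, ← intervalIntegral.integral_add
    ((hf.fun_mul (WBasic0_cont_exp k)).intervalIntegrable _ _)
    ((hg.fun_mul (WBasic0_cont_exp k)).intervalIntegrable _ _)]
  simp only [add_mul]

theorem fc_sub {f g : ℝ → ℂ} (hf : Continuous f) (hg : Continuous g) (k : ℤ) :
    fc (fun x => f x - g x) k = fc f k - fc g k := by
  unfold fc
  rw [← mul_sub, ← intervalIntegral.integral_sub
    ((hf.fun_mul (WBasic0_cont_exp k)).intervalIntegrable _ _)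
    ((hg.fun_mul (WBasic0_cont_exp k)).intervalIntegrable _ _)]
  simp only [sub_mul]

theorem fc_const_mul (c : ℂ) (f : ℝ → ℂ) (k : ℤ) : fc (fun x => c * f x) k = c * fc f k := by
  unfold fc
  simp only [mul_assoc c]
  rw [intervalIntegral.integral_const_mul]
  ring

theorem fc_shift {f : ℝ → ℂ} (hp : Function.Periodic f (2 * π)) (r : ℝ) (k : ℤ) :
    fc (fun x => f (x + r)) k = Complex.exp ((k : ℂ) * (r : ℂ) * Complex.I) * fc f k := by
  unfold fc
  set g : ℝ → ℂ := fun x => f x * Complex.exp (-((k : ℂ) * (x : ℂ) * Complex.I)) with hg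
  have hper : Function.Periodic g (2 * π) := by
    intro x
    simp only [hg]
    rw [hp x]
    congr 1
    have h : -((k : ℂ) * (((x + 2 * π : ℝ)) : ℂ) * Complex.I)
        = -((k : ℂ) * (x : ℂ) * Complex.I) + ((-k : ℤ) : ℂ) * (2 * (π : ℂ) * Complex.I) := by
      push_cast; ring
    rw [h, Complex.exp_add, Complex.exp_int_mul_two_pi_mul_I, mul_one]
  have h1 : (fun x : ℝ => f (x + r) * Complex.exp (-((k : ℂ) * (x : ℂ) * Complex.I)))
      = fun x : ℝ => Complex.exp ((k : ℂ) * (r : ℂ) * Complex.I) * g (x + r) := by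
    funext x
    simp only [hg]
    have h : Complex.exp (-((k : ℂ) * (x : ℂ) * Complex.I))
        = Complex.exp ((k : ℂ) * (r : ℂ) * Complex.I)
          * Complex.exp (-((k : ℂ) * (((x + r : ℝ)) : ℂ) * Complex.I)) := by
      rw [← Complex.exp_add]
      congr 1
      push_cast; ring
    rw [h]; ring
  rw [h1, intervalIntegral.integral_const_mul, intervalIntegral.integral_comp_add_right g r]
  have h2 := hper.intervalIntegral_add_eq (0 + r) 0
  have h3 : (0 : ℝ) + r + 2 * π = 2 * π + r := by ring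
  rw [h3, zero_add (2 * π)] at h2
  rw [h2]
  ring

theorem fc_conj (f : ℝ → ℂ) (k : ℤ) :
    fc (fun x => (starRingEnd ℂ) (f x)) k = (starRingEnd ℂ) (fc f (-k)) := by
  unfold fc
  have h0 : (0 : ℝ) ≤ 2 * π := by positivity
  rw [map_mul, intervalIntegral.integral_of_le h0, intervalIntegral.integral_of_le h0,
    ← integral_conj]
  congr 1
  · simp [map_ofNat]
  · congr 1
    funext x
    rw [map_mul, ← Complex.exp_conj]
    congr 2
    simp

theorem fc_mul_exp (f : ℝ → ℂ) (j k : ℤ) :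
    fc (fun x => f x * Complex.exp ((j : ℂ) * (x : ℂ) * Complex.I)) k = fc f (k - j) := by
  unfold fc
  congr 2
  funext x
  rw [mul_assoc, ← Complex.exp_add]
  congr 2
  push_cast; ring

theorem norm_fc_le {f : ℝ → ℂ} {A : ℝ} (h : ∀ x, ‖f x‖ ≤ A) (k : ℤ) : ‖fc f k‖ ≤ A := by
  unfold fc
  have h1 : ‖∫ x in (0 : ℝ)..(2 * π), f x * Complex.exp (-((k : ℂ) * (x : ℂ) * Complex.I))‖
      ≤ A * |2 * π - 0| := by
    apply intervalIntegral.norm_integral_le_of_norm_le_const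
    intro x _
    rw [norm_mul, WBasic0_norm_exp, mul_one]
    exact h x
  have hpi : (0 : ℝ) < 2 * π := by positivity
  rw [sub_zero, abs_of_pos hpi] at h1
  have h2 : ‖(1 / (2 * (π : ℂ)))‖ = 1 / (2 * π) := by
    rw [norm_div, norm_one, norm_mul, Complex.norm_real, Real.norm_eq_abs, abs_of_pos Real.pi_pos]
    simp
  rw [norm_mul, h2]
  calc 1 / (2 * π) * _ ≤ 1 / (2 * π) * (A * (2 * π)) :=
        mul_le_mul_of_nonneg_left h1 (by positivity)
    _ = A := by field_simp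

theorem Wg.nonneg {f : ℝ → ℂ} (h : Wg w n M f) : 0 ≤ M := by
  have h1 := (norm_nonneg _).trans (h.2.2 0)
  exact nonneg_of_mul_nonneg_left h1 (wgt_pos w n 0)

theorem WBasic0_wgt_mono (hw : ∀ k, w' k ≤ w k) (hn : n' ≤ n) (k : ℤ) :
    wgt w n k ≤ wgt w' n' k := by
  unfold wgt
  have h1 : (1 : ℝ) ≤ 1 + |(k : ℝ)| := by linarith [abs_nonneg (k : ℝ)]
  exact div_le_div₀ (Real.exp_pos _).le (Real.exp_le_exp.2 (neg_le_neg (hw k))) (by positivity)
    (pow_le_pow_right₀ h1 hn)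

theorem Wg.mono {f : ℝ → ℂ} (h : Wg w n M f) (hw : ∀ k, w' k ≤ w k) (hn : n' ≤ n) (hM : M ≤ M') :
    Wg w' n' M' f :=
  ⟨h.1, h.2.1, fun k => (h.2.2 k).trans
    (mul_le_mul hM (WBasic0_wgt_mono hw hn k) (wgt_pos w n k).le (h.nonneg.trans hM))⟩

theorem Wg.add {f g : ℝ → ℂ} (hf : Wg w n M f) (hg : Wg w n N g) :
    Wg w n (M + N) fun x => f x + g x := by
  refine ⟨hf.1.add hg.1, hf.2.1.add hg.2.1, fun k => ?_⟩
  rw [fc_add hf.1 hg.1, add_mul]
  exact (norm_add_le _ _).trans (add_le_add (hf.2.2 k) (hg.2.2 k))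

theorem Wg.sub {f g : ℝ → ℂ} (hf : Wg w n M f) (hg : Wg w n N g) :
    Wg w n (M + N) fun x => f x - g x := by
  refine ⟨hf.1.sub hg.1, fun x => by simp only [hf.2.1 x, hg.2.1 x], fun k => ?_⟩
  rw [fc_sub hf.1 hg.1, add_mul]
  exact (norm_sub_le _ _).trans (add_le_add (hf.2.2 k) (hg.2.2 k))

theorem Wg.const_mul {f : ℝ → ℂ} (hf : Wg w n M f) (c : ℂ) :
    Wg w n (‖c‖ * M) fun x => c * f x := by
  refine ⟨continuous_const.mul hf.1, fun x => by simp only [hf.2.1 x], fun k => ?_⟩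
  rw [fc_const_mul, norm_mul, mul_assoc]
  exact mul_le_mul_of_nonneg_left (hf.2.2 k) (norm_nonneg _)

theorem Wg.shift {f : ℝ → ℂ} (hf : Wg w n M f) (r : ℝ) : Wg w n M fun x => f (x + r) := by
  refine ⟨hf.1.comp (continuous_id.add continuous_const), fun x => ?_, fun k => ?_⟩
  · have h : x + 2 * π + r = x + r + 2 * π := by ring
    simp only [h, hf.2.1 (x + r)]
  · rw [fc_shift hf.2.1, norm_mul, WBasic0_norm_exp', one_mul]
    exact hf.2.2 k

theorem Wg.const (hw : w 0 = 0) (n : ℕ) (c : ℂ) : Wg w n ‖c‖ fun _ => c := by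
  refine ⟨continuous_const, fun _ => rfl, fun k => ?_⟩
  by_cases hk : k = 0
  · subst hk
    have h1 : wgt w n 0 = 1 := by simp [wgt, hw]
    rw [h1, mul_one]
    exact norm_fc_le (fun _ => le_rfl) 0
  · have h0 : fc (fun _ => c) k = 0 := by
      unfold fc
      rw [intervalIntegral.integral_const_mul]
      have hk' : (-((k : ℂ) * Complex.I)) ≠ 0 := by
        simp [hk]
      have h1 : (fun x : ℝ => Complex.exp (-((k : ℂ) * (x : ℂ) * Complex.I)))
          = fun x : ℝ => Complex.exp (-((k : ℂ) * Complex.I) * (x : ℂ)) := by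
        funext x; congr 1; ring
      rw [h1, integral_exp_mul_complex hk']
      have h2 : -((k : ℂ) * Complex.I) * (((2 * π : ℝ)) : ℂ)
          = ((-k : ℤ) : ℂ) * (2 * (π : ℂ) * Complex.I) := by
        push_cast; ring
      rw [h2, Complex.exp_int_mul_two_pi_mul_I]
      simp
    rw [h0, norm_zero]
    exact mul_nonneg (norm_nonneg _) (wgt_pos w n k).le

end Pool.Agent.Lib.MP_3d41d4_an
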