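import Pool.Agent.Lib.MP_3d41d4_an.WInv

open MeasureTheory Set Filter Topology Real
open scoped ENNReal

namespace Pool.Agent.Lib.MP_3d41d4_an

variable {n : ℕ} {ρ M : ℝ}

theorem WDeriv0_norm_exp (k : ℤ) (x : ℝ) :
    ‖Complex.exp ((k : ℂ) * (x : ℂ) * Complex.I)‖ = 1 := by
  have e : (k : ℂ) * (x : ℂ) = (((k : ℝ) * x : ℝ) : ℂ) := by push_cast; ring
  rw [e, Complex.norm_exp_ofReal_mul_I]

theorem WDeriv0_coef {f : ℝ → ℂ} (hf : W ρ (n + 1) M f) (k : ℤ) :
    ‖fc f k * ((k : ℂ) * Complex.I)‖ ≤ M * wgt (fun k : ℤ => ρ * |(k : ℝ)|) n k := by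
  have h := hf.2.2 k
  have hM := hf.nonneg
  have hk : ‖(k : ℂ) * Complex.I‖ = |(k : ℝ)| := by
    rw [norm_mul, Complex.norm_I, mul_one, Complex.norm_intCast]
  have h0 : 0 ≤ |(k : ℝ)| := abs_nonneg _
  rw [norm_mul, hk]
  refine (mul_le_mul_of_nonneg_right h h0).trans ?_
  rw [mul_assoc]
  refine mul_le_mul_of_nonneg_left ?_ hM
  unfold wgt
  rw [div_mul_eq_mul_div, div_le_div_iff₀ (by positivity) (by positivity), pow_succ]
  have h1 : 0 ≤ Real.exp (-(ρ * |(k : ℝ)|)) * (1 + |(k : ℝ)|) ^ n := by positivity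
  nlinarith

theorem WDeriv0_summable (hρ : 0 < ρ) {f : ℝ → ℂ} (hf : W ρ n M f) :
    Summable fun k : ℤ => ‖fc f k * ((k : ℂ) * Complex.I)‖ := by
  obtain ⟨C, -, hC⟩ := W.level (half_lt_self hρ) (0 + 1)
  have h := hC M f (hf.mono le_rfl (Nat.zero_le _) le_rfl)
  exact Summable.of_nonneg_of_le (fun k => norm_nonneg _) (WDeriv0_coef h)
    ((summable_wgt_of_pos (half_pos hρ) 0).mul_left _)

theorem WDeriv0_has (hρ : 0 < ρ) {f : ℝ → ℂ} (hf : W ρ n M f) (x : ℝ) :
    HasDerivAt f (∑' k : ℤ, fc f k * ((k : ℂ) * Complex.I) *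
      Complex.exp ((k : ℂ) * (x : ℂ) * Complex.I)) x := by
  have hs := summable_wgt_of_pos hρ n
  have e : f = fun x : ℝ => ∑' k : ℤ, fc f k * Complex.exp ((k : ℂ) * (x : ℂ) * Complex.I) :=
    funext fun x => (Wg.hasSum hf hs x).tsum_eq.symm
  have h := hasDerivAt_tsum (y₀ := (0 : ℝ)) (WDeriv0_summable hρ hf)
    (g := fun (k : ℤ) (x : ℝ) => fc f k * Complex.exp ((k : ℂ) * (x : ℂ) * Complex.I))
    (g' := fun (k : ℤ) (x : ℝ) => fc f k * ((k : ℂ) * Complex.I) *
      Complex.exp ((k : ℂ) * (x : ℂ) * Complex.I))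
    (fun k y => by
      have h1 : HasDerivAt (fun z : ℂ => (k : ℂ) * z * Complex.I) ((k : ℂ) * 1 * Complex.I) y :=
        ((hasDerivAt_id (y : ℂ)).const_mul (k : ℂ)).mul_const Complex.I
      have h2 := (h1.cexp.const_mul (fc f k)).comp_ofReal
      exact h2.congr_deriv (by ring))
    (fun k y => by rw [norm_mul, WDeriv0_norm_exp, mul_one])
    (Wg.hasSum hf hs 0).summable x
  rw [← e] at h
  exact h

theorem W.differentiable (hρ : 0 < ρ) {f : ℝ → ℂ} (hf : W ρ n M f) : Differentiable ℝ f :=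
  fun x => (WDeriv0_has hρ hf x).differentiableAt

theorem W.derivW (hρ : 0 < ρ) {f : ℝ → ℂ} (hf : W ρ (n + 1) M f) : W ρ n M (deriv f) := by
  have hs := WDeriv0_summable hρ hf
  obtain ⟨h1, h2, h3⟩ := of_hasSum (f := deriv f) (c := fun k => fc f k * ((k : ℂ) * Complex.I))
    hs fun x => by
      rw [(WDeriv0_has hρ hf x).deriv]
      refine Summable.hasSum (Summable.of_norm ?_)
      simpa only [norm_mul _ (Complex.exp _), WDeriv0_norm_exp, mul_one] using hs
  exact ⟨h1, h2, fun k => by rw [h3]; exact WDeriv0_coef hf k⟩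

theorem WR.differentiable (hρ : 0 < ρ) {f : ℝ → ℝ} (hf : WR ρ n M f) : Differentiable ℝ f := by
  have h := Complex.reCLM.differentiable.comp (W.differentiable hρ hf)
  exact h

theorem WR.derivW (hρ : 0 < ρ) {f : ℝ → ℝ} (hf : WR ρ (n + 1) M f) : WR ρ n M (deriv f) := by
  have h := W.derivW hρ hf
  have e : deriv (fun x => (f x : ℂ)) = fun x => ((deriv f x : ℝ) : ℂ) :=
    funext fun x => ((WR.differentiable hρ hf x).hasDerivAt.ofReal_comp).deriv
  rw [e] at h
  exact h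

theorem WDeriv0_lip (hρ : 0 < ρ) {f : ℝ → ℂ} (hf : W ρ 3 M f) (x y : ℝ) :
    ‖f x - f y‖ ≤ 4 * M * |x - y| := by
  have h := convex_univ.norm_image_sub_le_of_norm_deriv_le (𝕜 := ℝ) (f := f) (C := 4 * M)
    (fun z _ => W.differentiable hρ hf z)
    (fun z _ => W.norm_le (W.derivW (n := 2) hρ hf) hρ.le le_rfl z) (mem_univ y) (mem_univ x)
  rwa [Real.norm_eq_abs] at h

/-- Bounds on the function and its increments. -/
theorem W.lipschitz (hρ : 0 < ρ) :
    ∃ C : ℝ, 0 < C ∧ ∀ (n : ℕ) (M : ℝ) (f : ℝ → ℂ), W ρ n M f →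
      ∀ x y, ‖f x‖ ≤ C * M ∧ ‖f x - f y‖ ≤ C * M * |x - y| := by
  obtain ⟨C, hC0, hC⟩ := W.level (half_lt_self hρ) 3
  refine ⟨4 * C, by positivity, fun n M f hf x y => ?_⟩
  have h := hC M f (hf.mono le_rfl (Nat.zero_le _) le_rfl)
  have h1 := W.norm_le h (half_pos hρ).le (by norm_num) x
  have h2 := WDeriv0_lip (half_pos hρ) h x y
  exact ⟨by linarith, by linarith⟩

theorem WR.lipschitz_three (hρ : 0 < ρ) {f : ℝ → ℝ} (hf : WR ρ 3 M f) (x y : ℝ) :
    |f x - f y| ≤ 4 * M * |x - y| := by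
  have h := WDeriv0_lip hρ hf x y
  rwa [← Complex.ofReal_sub, Complex.norm_real, Real.norm_eq_abs] at h

/-- The class is closed under pointwise limits. -/
theorem W.limit (hρ : 0 < ρ) {ι : Type} {l : Filter ι} [l.NeBot] [l.IsCountablyGenerated]
    {f : ι → ℝ → ℂ} {g : ℝ → ℂ} (hf : ∀ᶠ i in l, W ρ n M (f i))
    (hl : ∀ x, Tendsto (fun i => f i x) l (𝓝 (g x))) : W ρ n M g := by
  obtain ⟨C, hC0, hC⟩ := W.lipschitz hρ
  obtain ⟨i0, hi0⟩ := hf.exists
  have hM := hi0.nonneg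
  have hlip : ∀ x y, ‖g x - g y‖ ≤ C * M * |x - y| := fun x y =>
    le_of_tendsto ((hl x).sub (hl y)).norm (hf.mono fun i hi => (hC n M _ hi x y).2)
  have hc : Continuous g := by
    have h : LipschitzWith ⟨C * M, by positivity⟩ g := LipschitzWith.of_dist_le_mul fun x y => by
      rw [dist_eq_norm, Real.dist_eq]
      exact hlip x y
    exact h.continuous
  refine ⟨hc, fun x => ?_, fun k => ?_⟩
  · refine tendsto_nhds_unique (hl (x + 2 * π)) ((hl x).congr' ?_)
    exact hf.mono fun i hi => (hi.per x).symm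
  · have hn : ∀ x : ℝ, ‖Complex.exp (-((k : ℂ) * (x : ℂ) * Complex.I))‖ = 1 := fun x => by
      rw [Complex.exp_neg, norm_inv, WDeriv0_norm_exp, inv_one]
    have ht : Tendsto (fun i => fc (f i) k) l (𝓝 (fc g k)) := by
      unfold fc
      refine Tendsto.const_mul _ ?_
      refine intervalIntegral.tendsto_integral_filter_of_dominated_convergence (fun _ => C * M)
        (hf.mono fun i hi => ?_) (hf.mono fun i hi => ?_) intervalIntegrable_const ?_
      · have := hi.cont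
        exact Continuous.aestronglyMeasurable (by fun_prop)
      · refine Eventually.of_forall fun x _ => ?_
        rw [norm_mul, hn, mul_one]
        exact (hC n M _ hi x x).1
      · exact Eventually.of_forall fun x _ => (hl x).mul_const _
    exact le_of_tendsto ht.norm (hf.mono fun i hi => hi.2.2 k)

theorem WR.limit (hρ : 0 < ρ) {ι : Type} {l : Filter ι} [l.NeBot] [l.IsCountablyGenerated]
    {f : ι → ℝ → ℝ} {g : ℝ → ℝ} (hf : ∀ᶠ i in l, WR ρ n M (f i))
    (hl : ∀ x, Tendsto (fun i => f i x) l (𝓝 (g x))) : WR ρ n M g :=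
  W.limit hρ (f := fun i x => (f i x : ℂ)) hf fun x =>
    (Complex.continuous_ofReal.tendsto _).comp (hl x)

end Pool.Agent.Lib.MP_3d41d4_an
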