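import Pool.Agent.Lib.MP_3d41d4_an.WBasic

open MeasureTheory Set Filter Topology Real
open scoped ENNReal

namespace Pool.Agent.Lib.MP_3d41d4_an

variable {w : ℤ → ℝ} {n : ℕ} {ρ M : ℝ}

theorem WInv_range (N : ℕ) :
    ∑ i ∈ Finset.range N, 1 / (1 + (i : ℝ)) ^ 2 ≤ 2 - 2 / (2 * (N : ℝ) + 1) := by
  induction N with
  | zero => norm_num
  | succ N ih =>
    rw [Finset.sum_range_succ]
    have h0 : (0 : ℝ) ≤ N := Nat.cast_nonneg N
    have h1 : 1 / (1 + (N : ℝ)) ^ 2 ≤ 2 / (2 * (N : ℝ) + 1) - 2 / (2 * ((N : ℝ) + 1) + 1) := by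
      rw [div_sub_div _ _ (by positivity) (by positivity), div_le_div_iff₀ (by positivity)
        (by positivity)]
      nlinarith
    push_cast
    linarith

theorem WInv_range_le (N : ℕ) : ∑ i ∈ Finset.range N, 1 / (1 + (i : ℝ)) ^ 2 ≤ 2 := by
  have h0 : (0 : ℝ) ≤ 2 / (2 * (N : ℝ) + 1) := by positivity
  linarith [WInv_range N]

theorem WInv_nat {u : ℕ → ℝ} (h0 : ∀ i, 0 ≤ u i) (h : ∀ i, u i ≤ 1 / (1 + (i : ℝ)) ^ 2) :
    Summable u ∧ ∑' i, u i ≤ 2 := by
  have hb : ∀ N, ∑ i ∈ Finset.range N, u i ≤ 2 := fun N =>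
    (Finset.sum_le_sum fun i _ => h i).trans (WInv_range_le N)
  exact ⟨summable_of_sum_range_le h0 hb, Real.tsum_le_of_sum_range_le h0 hb⟩

theorem WInv_int {u : ℤ → ℝ} (h0 : ∀ k, 0 ≤ u k) (h : ∀ k, u k ≤ 1 / (1 + |(k : ℝ)|) ^ 2) :
    Summable u ∧ ∑' k, u k ≤ 4 := by
  obtain ⟨s1, t1⟩ := WInv_nat (u := fun i : ℕ => u i) (fun i => h0 _) fun i => by
    simpa using h i
  obtain ⟨s2, t2⟩ := WInv_nat (u := fun i : ℕ => u (-(i + 1))) (fun i => h0 _) fun i => by
    refine (h _).trans ?_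
    have hi : (0 : ℝ) ≤ i := Nat.cast_nonneg i
    have : |((-((i : ℤ) + 1) : ℤ) : ℝ)| = i + 1 := by
      push_cast
      rw [abs_neg, abs_of_nonneg (by linarith)]
    rw [this]
    gcongr
    linarith
  have hs := HasSum.of_nat_of_neg_add_one s1.hasSum s2.hasSum
  exact ⟨hs.summable, by rw [hs.tsum_eq]; linarith⟩

theorem WInv_wgt_le (hw : ∀ k, 0 ≤ w k) (hn : 2 ≤ n) (k : ℤ) :
    wgt w n k ≤ 1 / (1 + |(k : ℝ)|) ^ 2 := by
  have h1 : (1 : ℝ) ≤ 1 + |(k : ℝ)| := le_add_of_nonneg_right (abs_nonneg _)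
  unfold wgt
  exact div_le_div₀ zero_le_one (Real.exp_le_one_iff.mpr (by linarith [hw k])) (by positivity)
    (pow_le_pow_right₀ h1 hn)

theorem WInv_wgt_anti (w : ℤ → ℝ) (n : ℕ) (k : ℤ) : wgt w n k ≤ wgt w 0 k := by
  have h1 : (1 : ℝ) ≤ 1 + |(k : ℝ)| := le_add_of_nonneg_right (abs_nonneg _)
  unfold wgt
  exact div_le_div_of_nonneg_left (Real.exp_pos _).le (by positivity)
    (pow_le_pow_right₀ h1 (Nat.zero_le n))

theorem summable_wgt_of_pos (hρ : 0 < ρ) (n : ℕ) :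
    Summable (wgt (fun k : ℤ => ρ * |(k : ℝ)|) n) := by
  refine Summable.of_nonneg_of_le (fun k => (wgt_pos _ _ k).le) (WInv_wgt_anti _ n) ?_
  have hg : Summable fun i : ℕ => Real.exp (-ρ) ^ i :=
    summable_geometric_of_lt_one (Real.exp_pos _).le (Real.exp_lt_one_iff.mpr (by linarith))
  refine Summable.of_nat_of_neg (hg.congr fun i => ?_) (hg.congr fun i => ?_) <;>
  · simp only [wgt, pow_zero, div_one, Int.cast_neg, abs_neg, Int.cast_natCast, Nat.abs_cast]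
    rw [← Real.exp_nat_mul]
    congr 1
    ring

theorem summable_wgt_of_two (hw : ∀ k, 0 ≤ w k) (hn : 2 ≤ n) : Summable (wgt w n) :=
  (WInv_int (fun k => (wgt_pos _ _ k).le) (WInv_wgt_le hw hn)).1

theorem tsum_wgt_le_of_two (hw : ∀ k, 0 ≤ w k) (hn : 2 ≤ n) : ∑' k, wgt w n k ≤ 4 :=
  (WInv_int (fun k => (wgt_pos _ _ k).le) (WInv_wgt_le hw hn)).2

theorem WInv_norm_exp (k : ℤ) (x : ℝ) : ‖Complex.exp ((k : ℂ) * (x : ℂ) * Complex.I)‖ = 1 := by
  have := Complex.norm_exp_ofReal_mul_I ((k : ℝ) * x)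
  simpa using this

theorem WInv_norm_exp_neg (k : ℤ) (x : ℝ) :
    ‖Complex.exp (-((k : ℂ) * (x : ℂ) * Complex.I))‖ = 1 := by
  rw [Complex.exp_neg, norm_inv, WInv_norm_exp, inv_one]

theorem WInv_fourier (k : ℤ) (x : ℝ) :
    fourier k (x : AddCircle (2 * π)) = Complex.exp ((k : ℂ) * (x : ℂ) * Complex.I) := by
  rw [fourier_coe_apply]
  congr 1
  have : (π : ℂ) ≠ 0 := by exact_mod_cast Real.pi_ne_zero
  push_cast
  field_simp

/-- Fourier inversion. -/
theorem hasSum_fc {f : ℝ → ℂ} (hc : Continuous f) (hp : Function.Periodic f (2 * π))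
    (hs : Summable fun k => ‖fc f k‖) (x : ℝ) :
    HasSum (fun k : ℤ => fc f k * Complex.exp ((k : ℂ) * (x : ℂ) * Complex.I)) (f x) := by
  have : Fact (0 < 2 * π) := ⟨Real.two_pi_pos⟩
  let F : C(AddCircle (2 * π), ℂ) := ⟨hp.lift, continuous_coinduced_dom.mpr hc⟩
  have hF : ∀ y : ℝ, F (y : AddCircle (2 * π)) = f y := fun y => rfl
  have hco : ∀ k, fourierCoeff F k = fc f k := fun k => by
    rw [fourierCoeff_eq_intervalIntegral _ _ 0, zero_add, fc, Complex.real_smul]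
    congr 1
    · push_cast; rfl
    · refine intervalIntegral.integral_congr fun y _ => ?_
      simp only [WInv_fourier, hF, smul_eq_mul]
      rw [mul_comm]
      congr 2
      push_cast
      ring
  have h1 := has_pointwise_sum_fourier_series_of_summable (f := F)
    (by rw [funext hco]; exact hs.of_norm) (x : AddCircle (2 * π))
  simpa only [hco, WInv_fourier, hF, smul_eq_mul] using h1

/-- Coefficients of an absolutely convergent series of continuous functions. -/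
theorem fc_tsum {ι : Type} [Countable ι] {g : ι → ℝ → ℂ} {b : ι → ℝ} (hc : ∀ j, Continuous (g j))
    (hb : ∀ j x, ‖g j x‖ ≤ b j) (hs : Summable b) (k : ℤ) :
    HasSum (fun j => fc (g j) k) (fc (fun x => ∑' j, g j x) k) := by
  unfold fc
  refine HasSum.mul_left _ ?_
  refine intervalIntegral.hasSum_integral_of_dominated_convergence (fun j _ => b j)
    (fun j => Continuous.aestronglyMeasurable (by have := hc j; fun_prop))
    (fun j => Eventually.of_forall fun x _ => ?_) (Eventually.of_forall fun _ _ => hs)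
    intervalIntegrable_const (Eventually.of_forall fun x _ => ?_)
  · rw [norm_mul, WInv_norm_exp_neg, mul_one]
    exact hb j x
  · exact (Summable.of_norm_bounded hs fun j => hb j x).hasSum.mul_right _

theorem WInv_fc_const (c : ℂ) (k : ℤ) : fc (fun _ => c) k = if k = 0 then c else 0 := by
  have hπ : (π : ℂ) ≠ 0 := by exact_mod_cast Real.pi_ne_zero
  unfold fc
  split_ifs with hk
  · subst hk
    simp only [Int.cast_zero, zero_mul, neg_zero, Complex.exp_zero, mul_one,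
      intervalIntegral.integral_const, sub_zero, Complex.real_smul]
    push_cast
    field_simp
  · have hk' : -((k : ℂ) * Complex.I) ≠ 0 :=
      neg_ne_zero.mpr (mul_ne_zero (by exact_mod_cast hk) Complex.I_ne_zero)
    have h1 : ∀ x : ℝ, Complex.exp (-((k : ℂ) * (x : ℂ) * Complex.I)) =
        Complex.exp (-((k : ℂ) * Complex.I) * x) := fun x => by congr 1; ring
    simp only [h1]
    rw [intervalIntegral.integral_const_mul, integral_exp_mul_complex hk']
    have h2 : -((k : ℂ) * Complex.I) * ((2 * π : ℝ) : ℂ) =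
        ((-k : ℤ) : ℂ) * (2 * π * Complex.I) := by push_cast; ring
    rw [h2, Complex.exp_int_mul_two_pi_mul_I]
    simp

/-- A trigonometric series with summable coefficients. -/
theorem of_hasSum {f : ℝ → ℂ} {c : ℤ → ℂ} (hs : Summable fun k => ‖c k‖)
    (h : ∀ x : ℝ, HasSum (fun k : ℤ => c k * Complex.exp ((k : ℂ) * (x : ℂ) * Complex.I)) (f x)) :
    Continuous f ∧ Function.Periodic f (2 * π) ∧ ∀ k, fc f k = c k := by
  have hf : f = fun x : ℝ => ∑' k : ℤ, c k * Complex.exp ((k : ℂ) * (x : ℂ) * Complex.I) :=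
    funext fun x => (h x).tsum_eq.symm
  have hc : ∀ j : ℤ, Continuous fun x : ℝ =>
      c j * Complex.exp ((j : ℂ) * (x : ℂ) * Complex.I) := fun j => by fun_prop
  have hb : ∀ (j : ℤ) (x : ℝ), ‖c j * Complex.exp ((j : ℂ) * (x : ℂ) * Complex.I)‖ ≤ ‖c j‖ :=
    fun j x => by rw [norm_mul, WInv_norm_exp, mul_one]
  refine ⟨?_, fun x => ?_, fun k => ?_⟩
  · rw [hf]
    exact continuous_tsum hc hs hb
  · refine (h (x + 2 * π)).unique ?_
    convert h x using 3 with k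
    have h2 : (k : ℂ) * ((x + 2 * π : ℝ) : ℂ) * Complex.I =
        (k : ℂ) * (x : ℂ) * Complex.I + k * (2 * π * Complex.I) := by push_cast; ring
    rw [h2, Complex.exp_add, Complex.exp_int_mul_two_pi_mul_I, mul_one]
  · have h1 := fc_tsum hc hb hs k
    rw [← hf] at h1
    refine h1.unique ?_
    have h2 : ∀ j : ℤ, fc (fun x : ℝ => c j * Complex.exp ((j : ℂ) * (x : ℂ) * Complex.I)) k =
        if j = k then c k else 0 := fun j => by
      rw [fc_mul_exp (fun _ => c j) j k, WInv_fc_const]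
      by_cases hj : j = k
      · simp [hj]
      · rw [if_neg hj, if_neg fun h' => hj (by omega)]
    simp only [h2]
    exact hasSum_ite_eq k (c k)

theorem Wg.summable {f : ℝ → ℂ} (h : Wg w n M f) (hs : Summable (wgt w n)) :
    Summable fun k => ‖fc f k‖ :=
  Summable.of_nonneg_of_le (fun _ => norm_nonneg _) h.2.2 (hs.mul_left M)

theorem Wg.hasSum {f : ℝ → ℂ} (h : Wg w n M f) (hs : Summable (wgt w n)) (x : ℝ) :
    HasSum (fun k : ℤ => fc f k * Complex.exp ((k : ℂ) * (x : ℂ) * Complex.I)) (f x) :=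
  hasSum_fc h.1 h.2.1 (h.summable hs) x

theorem Wg.norm_le {f : ℝ → ℂ} (h : Wg w n M f) (hs : Summable (wgt w n)) (x : ℝ) :
    ‖f x‖ ≤ M * ∑' k, wgt w n k := by
  refine (h.hasSum hs x).norm_le_of_bounded (hs.hasSum.mul_left M) fun k => ?_
  rw [norm_mul, WInv_norm_exp, mul_one]
  exact h.2.2 k

theorem Wg.norm_le_four {f : ℝ → ℂ} (h : Wg w n M f) (hw : ∀ k, 0 ≤ w k) (hn : 2 ≤ n) (x : ℝ) :
    ‖f x‖ ≤ 4 * M := by
  refine (h.norm_le (summable_wgt_of_two hw hn) x).trans ?_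
  rw [mul_comm]
  exact mul_le_mul_of_nonneg_right (tsum_wgt_le_of_two hw hn) h.nonneg

theorem W.norm_le {f : ℝ → ℂ} (h : W ρ n M f) (hρ : 0 ≤ ρ) (hn : 2 ≤ n) (x : ℝ) :
    ‖f x‖ ≤ 4 * M :=
  Wg.norm_le_four h (fun _ => mul_nonneg hρ (abs_nonneg _)) hn x

theorem WR.abs_le {f : ℝ → ℝ} (h : WR ρ n M f) (hρ : 0 ≤ ρ) (hn : 2 ≤ n) (x : ℝ) :
    |f x| ≤ 4 * M := by
  have := W.norm_le h hρ hn x
  rwa [Complex.norm_real, Real.norm_eq_abs] at this

/-- Sup bound at any level when the radius is positive. -/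
theorem W.norm_le_of_pos (hρ : 0 < ρ) :
    ∃ C : ℝ, 0 < C ∧ ∀ (n : ℕ) (M : ℝ) (f : ℝ → ℂ), W ρ n M f → ∀ x, ‖f x‖ ≤ C * M := by
  have hs := summable_wgt_of_pos hρ 0
  refine ⟨∑' k, wgt (fun k : ℤ => ρ * |(k : ℝ)|) 0 k,
    hs.tsum_pos (fun k => (wgt_pos _ _ k).le) 0 (wgt_pos _ _ 0), fun n M f h x => ?_⟩
  rw [mul_comm]
  exact Wg.norm_le (h.mono le_rfl (Nat.zero_le n) le_rfl) hs x

end Pool.Agent.Lib.MP_3d41d4_an
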